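import Pool.Agent.H682_VS.Stmts

/-! # M7, part A: the upper branch of a saddle with divergent strain -/

set_option autoImplicit false

open MeasureTheory Set Filter Topology

namespace Pool.Agent.H682_VS

/-- the point `1 - s + i τ` -/
noncomputable def pt (s τ : ℝ) : ℂ := 1 + ((-s : ℝ) + (τ : ℝ) * Complex.I)

lemma pt_sub (s τ : ℝ) : pt s τ - 1 = ((-s : ℝ) : ℂ) + (τ : ℝ) * Complex.I := by
  simp [pt]

lemma pt_re (s τ : ℝ) : (pt s τ).re = 1 - s := by simp [pt]; ring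
lemma pt_im (s τ : ℝ) : (pt s τ).im = τ := by simp [pt]

lemma norm_pt_sub (s τ : ℝ) : ‖pt s τ - 1‖ = Real.sqrt (s ^ 2 + τ ^ 2) := by
  rw [pt_sub, Complex.norm_add_mul_I]
  congr 1
  ring

/-- the standing hypotheses -/
structure Sad (f : ℂ → ℝ) (g : ℂ → ℂ) (a : ℝ → ℝ) (C0 d : ℝ) : Prop where
  dpos : 0 < d
  cont : Continuous g
  der : ∀ w : ℂ, HasFDerivAt f (Complex.reCLM.comp (ContinuousLinearMap.mul ℝ ℂ (g w))) w
  zero : f 1 = 0
  lim : Tendsto a (𝓝[>] 0) atTop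
  est : ∀ w : ℂ, ‖w - 1‖ < d → ‖g w - (a ‖w - 1‖ : ℂ) * (w - 1)‖ ≤ C0 * ‖w - 1‖

namespace Sad

variable {f : ℂ → ℝ} {g : ℂ → ℂ} {a : ℝ → ℝ} {C0 d : ℝ}

lemma C0_nonneg (h : Sad f g a C0 d) : 0 ≤ C0 := by
  have hd := h.dpos
  have h3 : Real.sqrt ((d/2)^2 + 0^2) = d/2 := by
    rw [show (d/2)^2 + 0^2 = (d/2)^2 by ring]
    exact Real.sqrt_sq (by linarith)
  have h1 := h.est (pt (d/2) 0) (by rw [norm_pt_sub, h3]; linarith)
  have h2 := (norm_nonneg _).trans h1
  rw [norm_pt_sub] at h2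
  rw [h3] at h2
  by_contra hc
  push Not at hc
  nlinarith

/-- `∂_s` -/
lemma ders (h : Sad f g a C0 d) (s τ : ℝ) :
    HasDerivAt (fun s => f (pt s τ)) (-(g (pt s τ)).re) s := by
  have h1 : HasDerivAt (fun s : ℝ => pt s τ) (-1 : ℂ) s := by
    unfold pt
    have : HasDerivAt (fun s : ℝ => ((-s : ℝ) : ℂ)) (-1 : ℂ) s := by
      have := ((hasDerivAt_id s).neg).ofReal_comp
      simpa using this
    simpa using (this.add_const ((τ : ℂ) * Complex.I)).const_add 1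
  have h2 := (h.der (pt s τ)).comp_hasDerivAt s h1
  have e : (Complex.reCLM.comp (ContinuousLinearMap.mul ℝ ℂ (g (pt s τ)))) (-1)
      = -(g (pt s τ)).re := by simp
  rw [e] at h2
  exact h2

/-- `∂_τ` -/
lemma dert (h : Sad f g a C0 d) (s τ : ℝ) :
    HasDerivAt (fun τ => f (pt s τ)) (-(g (pt s τ)).im) τ := by
  have h1 : HasDerivAt (fun τ : ℝ => pt s τ) (Complex.I : ℂ) τ := by
    unfold pt
    have : HasDerivAt (fun τ : ℝ => ((τ : ℝ) : ℂ) * Complex.I) (Complex.I : ℂ) τ := by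
      have := ((hasDerivAt_id τ).ofReal_comp).mul_const Complex.I
      simpa using this
    simpa using (this.const_add ((-s : ℝ) : ℂ)).const_add 1
  have h2 := (h.der (pt s τ)).comp_hasDerivAt τ h1
  have e : (Complex.reCLM.comp (ContinuousLinearMap.mul ℝ ℂ (g (pt s τ)))) Complex.I
      = -(g (pt s τ)).im := by simp
  rw [e] at h2
  exact h2

/-- along rays -/
lemma derray (h : Sad f g a C0 d) (ζ : ℂ) (l : ℝ) :
    HasDerivAt (fun l : ℝ => f (1 + l * ζ)) ((g (1 + l * ζ) * ζ).re) l := by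
  have h1 : HasDerivAt (fun l : ℝ => (1 + l * ζ : ℂ)) ζ l := by
    have := ((hasDerivAt_id l).ofReal_comp).mul_const ζ
    simpa using this.const_add 1
  have h2 := (h.der (1 + l * ζ)).comp_hasDerivAt l h1
  have e : (Complex.reCLM.comp (ContinuousLinearMap.mul ℝ ℂ (g (1 + l * ζ)))) ζ
      = (g (1 + l * ζ) * ζ).re := by simp
  rw [e] at h2
  exact h2

/-- the derivative along rays, with error -/
lemma ray_est (h : Sad f g a C0 d) (ζ : ℂ) (l : ℝ) (hl : 0 < l) (hl1 : l ≤ 1) (hζ : ‖ζ‖ < d) :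
    |(g (1 + l * ζ) * ζ).re - l * a (l * ‖ζ‖) * (ζ ^ 2).re| ≤ l * (C0 * ‖ζ‖ ^ 2) := by
  have hn : ‖(1 + l * ζ : ℂ) - 1‖ = l * ‖ζ‖ := by
    simp [abs_of_pos hl]
  have h1 := h.est (1 + l * ζ) (by
    rw [hn]
    have := norm_nonneg ζ
    nlinarith)
  rw [hn] at h1
  have h2 : (g (1 + l * ζ) * ζ).re - l * a (l * ‖ζ‖) * (ζ ^ 2).re
      = ((g (1 + l * ζ) - (a (l * ‖ζ‖) : ℂ) * ((1 + l * ζ : ℂ) - 1)) * ζ).re := by
    have : ((g (1 + l * ζ) - (a (l * ‖ζ‖) : ℂ) * ((1 + l * ζ : ℂ) - 1)) * ζ)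
        = g (1 + l * ζ) * ζ - ((l * a (l * ‖ζ‖) : ℝ) : ℂ) * ζ ^ 2 := by
      push_cast
      ring
    rw [this, Complex.sub_re, Complex.re_ofReal_mul]
  rw [h2]
  refine (Complex.abs_re_le_norm _).trans ?_
  rw [norm_mul]
  calc _ ≤ (C0 * (l * ‖ζ‖)) * ‖ζ‖ := by gcongr
    _ = _ := by ring

lemma lower (h : Sad f g a C0 d) {N δ : ℝ} (hN : ∀ r, 0 < r → r < δ → N ≤ a r) (hδ : δ ≤ d)
    (ζ : ℂ) (hζ : ‖ζ‖ < δ) (hs : 0 ≤ (ζ ^ 2).re) :
    (1/2) * (N * (ζ ^ 2).re - C0 * ‖ζ‖ ^ 2) ≤ f (1 + ζ) := by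
  rcases eq_or_ne ζ 0 with rfl | hne
  · simp [h.zero]
  have hpos : 0 < ‖ζ‖ := norm_pos_iff.2 hne
  set K := N * (ζ ^ 2).re - C0 * ‖ζ‖ ^ 2 with hK
  have hmono : MonotoneOn (fun l : ℝ => f (1 + l * ζ) - (1/2) * K * l ^ 2) (Icc 0 1) := by
    apply monotoneOn_of_hasDerivWithinAt_nonneg (convex_Icc 0 1)
      (f' := fun l => (g (1 + l * ζ) * ζ).re - K * l)
    · apply ContinuousOn.sub
      · intro l _
        exact (h.derray ζ l).continuousAt.continuousWithinAt
      · fun_prop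
    · intro l hl
      have h1 := (h.derray ζ l).sub (((hasDerivAt_id l).pow 2).const_mul ((1/2) * K))
      have : HasDerivAt (fun l : ℝ => f (1 + l * ζ) - (1/2) * K * l ^ 2)
          ((g (1 + l * ζ) * ζ).re - K * l) l := by
        refine h1.congr_deriv ?_
        simp only [id, Nat.cast_ofNat, mul_one]
        ring
      exact this.hasDerivWithinAt
    · intro l hl
      rw [interior_Icc] at hl
      have h1 := h.ray_est ζ l hl.1 hl.2.le (hζ.trans_le hδ)
      rw [abs_le] at h1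
      have h2 : N ≤ a (l * ‖ζ‖) := hN _ (mul_pos hl.1 hpos) (by
        have := hl.2
        nlinarith)
      have h3 : l * N * (ζ^2).re ≤ l * a (l * ‖ζ‖) * (ζ^2).re := by
        apply mul_le_mul_of_nonneg_right _ hs
        exact mul_le_mul_of_nonneg_left h2 hl.1.le
      have h4 := h1.1
      rw [hK]
      nlinarith
  have := hmono (left_mem_Icc.2 zero_le_one) (right_mem_Icc.2 zero_le_one) zero_le_one
  simp only [Complex.ofReal_zero, zero_mul, add_zero, h.zero, Complex.ofReal_one, one_mul] at this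
  linarith

lemma upper (h : Sad f g a C0 d) {N δ : ℝ} (hN : ∀ r, 0 < r → r < δ → N ≤ a r) (hδ : δ ≤ d)
    (ζ : ℂ) (hζ : ‖ζ‖ < δ) (hs : (ζ ^ 2).re ≤ 0) :
    f (1 + ζ) ≤ (1/2) * (N * (ζ ^ 2).re + C0 * ‖ζ‖ ^ 2) := by
  rcases eq_or_ne ζ 0 with rfl | hne
  · simp [h.zero]
  have hpos : 0 < ‖ζ‖ := norm_pos_iff.2 hne
  set K := N * (ζ ^ 2).re + C0 * ‖ζ‖ ^ 2 with hK
  have hmono : AntitoneOn (fun l : ℝ => f (1 + l * ζ) - (1/2) * K * l ^ 2) (Icc 0 1) := by
    apply antitoneOn_of_hasDerivWithinAt_nonpos (convex_Icc 0 1)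
      (f' := fun l => (g (1 + l * ζ) * ζ).re - K * l)
    · apply ContinuousOn.sub
      · intro l _
        exact (h.derray ζ l).continuousAt.continuousWithinAt
      · fun_prop
    · intro l hl
      have h1 := (h.derray ζ l).sub (((hasDerivAt_id l).pow 2).const_mul ((1/2) * K))
      have : HasDerivAt (fun l : ℝ => f (1 + l * ζ) - (1/2) * K * l ^ 2)
          ((g (1 + l * ζ) * ζ).re - K * l) l := by
        refine h1.congr_deriv ?_
        simp only [id, Nat.cast_ofNat, mul_one]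
        ring
      exact this.hasDerivWithinAt
    · intro l hl
      rw [interior_Icc] at hl
      have h1 := h.ray_est ζ l hl.1 hl.2.le (hζ.trans_le hδ)
      rw [abs_le] at h1
      have h2 : N ≤ a (l * ‖ζ‖) := hN _ (mul_pos hl.1 hpos) (by
        have := hl.2
        nlinarith)
      have h3 : l * a (l * ‖ζ‖) * (ζ^2).re ≤ l * N * (ζ^2).re := by
        apply mul_le_mul_of_nonpos_right _ hs
        exact mul_le_mul_of_nonneg_left h2 hl.1.le
      have h4 := h1.2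
      rw [hK]
      nlinarith
  have := hmono (left_mem_Icc.2 zero_le_one) (right_mem_Icc.2 zero_le_one) zero_le_one
  simp only [Complex.ofReal_zero, zero_mul, add_zero, h.zero, Complex.ofReal_one, one_mul] at this
  linarith

/-- the conjugate configuration -/
lemma conj (h : Sad f g a C0 d) :
    Sad (fun w => f ((starRingEnd ℂ) w)) (fun w => (starRingEnd ℂ) (g ((starRingEnd ℂ) w))) a C0 d where
  dpos := h.dpos
  cont := Complex.continuous_conj.comp (h.cont.comp Complex.continuous_conj)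
  der := by
    intro w
    have h1 : HasFDerivAt (fun w : ℂ => (starRingEnd ℂ) w) (Complex.conjCLE : ℂ →L[ℝ] ℂ) w :=
      Complex.conjCLE.hasFDerivAt
    have h2 := (h.der ((starRingEnd ℂ) w)).comp w h1
    refine h2.congr_fderiv ?_
    ext z
    · simp
  zero := by simp [h.zero]
  lim := h.lim
  est := by
    intro w hw
    have hn : ‖(starRingEnd ℂ) w - 1‖ = ‖w - 1‖ := by
      have : (starRingEnd ℂ) w - 1 = (starRingEnd ℂ) (w - 1) := by simp
      rw [this, RCLike.norm_conj]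
    have h1 := h.est ((starRingEnd ℂ) w) (by rw [hn]; exact hw)
    rw [hn] at h1
    rw [← RCLike.norm_conj]
    refine le_trans (le_of_eq ?_) h1
    congr 1
    simp

end Sad

end Pool.Agent.H682_VS
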