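import Pool.Agent.H682_VS.ArcsA

/-! # M7, part B: the upper branch -/

set_option autoImplicit false

open MeasureTheory Set Filter Topology

namespace Pool.Agent.H682_VS

lemma pt_eq (s τ : ℝ) : pt s τ = 1 + (((-s : ℝ) : ℂ) + (τ : ℝ) * Complex.I) := by
  simp [pt]

lemma zsq_re (s τ : ℝ) : (((((-s : ℝ) : ℂ) + (τ : ℝ) * Complex.I)) ^ 2).re = s ^ 2 - τ ^ 2 := by
  rw [pow_two]
  simp
  ring

lemma znorm (s τ : ℝ) : ‖(((-s : ℝ) : ℂ) + (τ : ℝ) * Complex.I)‖ ^ 2 = s ^ 2 + τ ^ 2 := by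
  rw [Complex.norm_add_mul_I, Real.sq_sqrt (by positivity)]
  ring

lemma znorm_le (s τ : ℝ) (hs : 0 ≤ s) (hτ : 0 ≤ τ) :
    ‖(((-s : ℝ) : ℂ) + (τ : ℝ) * Complex.I)‖ ≤ s + τ := by
  refine (norm_add_le _ _).trans ?_
  simp [abs_of_nonneg hs, abs_of_nonneg hτ]

lemma cont_pt (s : ℝ) : Continuous (fun τ => pt s τ) := by
  unfold pt
  fun_prop

lemma cont_pt' (τ : ℝ) : Continuous (fun s => pt s τ) := by
  unfold pt
  fun_prop

lemma cont_pt2 : Continuous (fun p : ℝ × ℝ => pt p.1 p.2) := by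
  unfold pt
  fun_prop

namespace Sad

variable {f : ℂ → ℝ} {g : ℂ → ℂ} {a : ℝ → ℝ} {C0 d : ℝ}

lemma contf (h : Sad f g a C0 d) : Continuous f :=
  continuous_iff_continuousAt.2 fun w => (h.der w).continuousAt

lemma exists_N (h : Sad f g a C0 d) (N : ℝ) : ∃ δ > 0, δ ≤ d ∧ ∀ r, 0 < r → r < δ → N ≤ a r := by
  have h1 := h.lim.eventually (eventually_ge_atTop N)
  rw [eventually_nhdsWithin_iff, Metric.eventually_nhds_iff] at h1
  obtain ⟨δ, hδ, h1⟩ := h1
  refine ⟨min δ d, lt_min hδ h.dpos, min_le_right _ _, fun r hr hr2 => ?_⟩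
  apply h1 _ hr
  rw [Real.dist_eq, sub_zero, abs_of_pos hr]
  exact hr2.trans_le (min_le_left _ _)

/-- package of the sign information with `N = 16 (C0+1)` -/
structure Good (f : ℂ → ℝ) (g : ℂ → ℂ) (a : ℝ → ℝ) (C0 δ : ℝ) : Prop where
  pos : 0 < δ
  low : ∀ s τ, 0 < s → s < δ → 0 ≤ τ → τ ≤ s / 2 → 0 < f (pt s τ)
  high : ∀ s τ, 0 ≤ s → s < δ → 0 < τ → τ < 2 * δ → 2 * s ≤ τ → f (pt s τ) < 0
  im_pos : ∀ s τ, 0 < s → s < δ → s / 2 ≤ τ → τ ≤ 2 * s → 0 < (g (pt s τ)).im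

lemma exists_good (h : Sad f g a C0 d) : ∃ δ, Good f g a C0 δ ∧ 4 * δ ≤ d := by
  obtain ⟨δ1, hδ1, hδd, hN⟩ := h.exists_N (16 * (C0 + 1))
  have hC := h.C0_nonneg
  refine ⟨δ1 / 4, ⟨by positivity, ?_, ?_, ?_⟩, by linarith⟩
  · intro s τ hs hs2 hτ hτ2
    have hz := znorm_le s τ hs.le hτ
    have h1 := h.lower hN hδd (((-s : ℝ) : ℂ) + (τ : ℝ) * Complex.I) (by linarith) (by
      rw [zsq_re]; nlinarith)
    rw [zsq_re, znorm, ← pt_eq] at h1
    have : τ ^ 2 ≤ s ^ 2 / 4 := by nlinarith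
    have hs2' : 0 < s ^ 2 := by positivity
    nlinarith
  · intro s τ hs hs2 hτ hτ2 hτ3
    have hz := znorm_le s τ hs hτ.le
    have h1 := h.upper hN hδd (((-s : ℝ) : ℂ) + (τ : ℝ) * Complex.I) (by linarith) (by
      rw [zsq_re]; nlinarith)
    rw [zsq_re, znorm, ← pt_eq] at h1
    have : s ^ 2 ≤ τ ^ 2 / 4 := by nlinarith
    have hs2' : 0 < τ ^ 2 := by positivity
    nlinarith
  · intro s τ hs hs2 hτ hτ2
    have hτ0 : 0 < τ := by linarith
    have hz := znorm_le s τ hs.le hτ0.le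
    have hz0 : 0 < ‖(((-s : ℝ) : ℂ) + (τ : ℝ) * Complex.I)‖ := by
      have := znorm s τ
      have h2 : 0 < s ^ 2 + τ ^ 2 := by positivity
      rw [← this] at h2
      by_contra hc
      have : ‖(((-s : ℝ) : ℂ) + (τ : ℝ) * Complex.I)‖ = 0 := le_antisymm (not_lt.1 hc) (norm_nonneg _)
      rw [this] at h2
      simp at h2
    have h1 := h.est (pt s τ) (by rw [pt_sub]; linarith)
    rw [pt_sub] at h1
    have h2 := (Complex.abs_im_le_norm _).trans h1
    have h3 : (g (pt s τ) - (a ‖(((-s : ℝ) : ℂ) + (τ : ℝ) * Complex.I)‖ : ℂ)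
        * (((-s : ℝ) : ℂ) + (τ : ℝ) * Complex.I)).im
        = (g (pt s τ)).im - a ‖(((-s : ℝ) : ℂ) + (τ : ℝ) * Complex.I)‖ * τ := by
      rw [Complex.sub_im, Complex.im_ofReal_mul]
      simp
    rw [h3, abs_le] at h2
    have h4 := hN _ hz0 (by linarith)
    have h5 : 16 * (C0 + 1) * τ ≤ a ‖(((-s : ℝ) : ℂ) + (τ : ℝ) * Complex.I)‖ * τ :=
      mul_le_mul_of_nonneg_right h4 hτ0.le
    have h6 : C0 * ‖(((-s : ℝ) : ℂ) + (τ : ℝ) * Complex.I)‖ ≤ C0 * (s + τ) :=
      mul_le_mul_of_nonneg_left hz hC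
    have := h2.1
    nlinarith

/-- in the good region the zero in `τ` is unique -/
lemma exists_T (h : Sad f g a C0 d) {δ : ℝ} (hg : Good f g a C0 δ) (s : ℝ) (hs : 0 < s)
    (hs2 : s < δ) : ∃ T, s / 2 < T ∧ T < 2 * s ∧ f (pt s T) = 0 ∧
      (∀ τ, 0 ≤ τ → τ < T → 0 < f (pt s τ)) ∧ (∀ τ, T < τ → τ < 2 * δ → f (pt s τ) < 0) := by
  have hc : Continuous (fun τ => f (pt s τ)) := h.contf.comp (cont_pt s)
  have hanti : StrictAntiOn (fun τ => f (pt s τ)) (Icc (s/2) (2*s)) := by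
    apply strictAntiOn_of_deriv_neg (convex_Icc _ _) hc.continuousOn
    intro τ hτ
    rw [interior_Icc] at hτ
    rw [(h.dert s τ).deriv]
    have := hg.im_pos s τ hs hs2 hτ.1.le hτ.2.le
    linarith
  have h0 : 0 < f (pt s (s/2)) := hg.low s (s/2) hs hs2 (by linarith) le_rfl
  have h1 : f (pt s (2*s)) < 0 := hg.high s (2*s) hs.le hs2 (by linarith) (by linarith) le_rfl
  obtain ⟨T, hT, hT0⟩ := intermediate_value_Icc' (by linarith : s/2 ≤ 2*s) hc.continuousOn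
    (show (0:ℝ) ∈ Icc (f (pt s (2*s))) (f (pt s (s/2))) from ⟨h1.le, h0.le⟩)
  simp only at hT0
  have hT1 : s / 2 < T := by
    rcases hT.1.lt_or_eq with h2 | h2
    · exact h2
    · rw [← h2] at hT0
      linarith
  have hT2 : T < 2 * s := by
    rcases hT.2.lt_or_eq with h2 | h2
    · exact h2
    · rw [h2] at hT0
      linarith
  refine ⟨T, hT1, hT2, hT0, ?_, ?_⟩
  · intro τ hτ hτT
    rcases le_or_gt τ (s/2) with h2 | h2
    · exact hg.low s τ hs hs2 hτ h2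
    · have := hanti ⟨h2.le, by linarith⟩ hT hτT
      simp only at this
      linarith
  · intro τ hτT hτ
    rcases le_or_gt (2*s) τ with h2 | h2
    · exact hg.high s τ hs.le hs2 (by linarith) hτ h2
    · have := hanti hT ⟨by linarith, h2.le⟩ hτT
      simp only at this
      linarith

open Classical in
/-- the upper branch -/
noncomputable def TT (f : ℂ → ℝ) (δ s : ℝ) : ℝ :=
  if h : ∃ T, s / 2 < T ∧ T < 2 * s ∧ f (pt s T) = 0 ∧
      (∀ τ, 0 ≤ τ → τ < T → 0 < f (pt s τ)) ∧ (∀ τ, T < τ → τ < 2 * δ → f (pt s τ) < 0)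
  then h.choose else 0

lemma TT_zero {δ : ℝ} : TT f δ 0 = 0 := by
  unfold TT
  rw [dif_neg]
  rintro ⟨T, h1, h2, _⟩
  linarith

lemma TT_spec (h : Sad f g a C0 d) {δ : ℝ} (hg : Good f g a C0 δ) (s : ℝ) (hs : 0 < s)
    (hs2 : s < δ) : s / 2 < TT f δ s ∧ TT f δ s < 2 * s ∧ f (pt s (TT f δ s)) = 0 ∧
      (∀ τ, 0 ≤ τ → τ < TT f δ s → 0 < f (pt s τ)) ∧
      (∀ τ, TT f δ s < τ → τ < 2 * δ → f (pt s τ) < 0) := by
  have := h.exists_T hg s hs hs2
  unfold TT
  rw [dif_pos this]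
  exact this.choose_spec

lemma TT_cont (h : Sad f g a C0 d) {δ : ℝ} (hg : Good f g a C0 δ) (s : ℝ) (hs : 0 < s)
    (hs2 : s < δ) : ContinuousAt (TT f δ) s := by
  obtain ⟨t1, t2, t3, t4, t5⟩ := h.TT_spec hg s hs hs2
  rw [Metric.continuousAt_iff]
  intro ε hε
  set T := TT f δ s
  set e := min (ε / 2) (min (T / 2) ((2 * δ - T) / 2)) with he
  have hepos : 0 < e := by
    apply lt_min (by linarith)
    apply lt_min (by linarith) (by linarith)
  have he1 : e ≤ ε / 2 := min_le_left _ _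
  have he2 : e ≤ T / 2 := (min_le_right _ _).trans (min_le_left _ _)
  have he3 : e ≤ (2 * δ - T) / 2 := (min_le_right _ _).trans (min_le_right _ _)
  have a1 : 0 < f (pt s (T - e)) := t4 _ (by linarith) (by linarith)
  have a2 : f (pt s (T + e)) < 0 := t5 _ (by linarith) (by linarith)
  have c1 : ContinuousAt (fun s => f (pt s (T - e))) s := (h.contf.comp (cont_pt' _)).continuousAt
  have c2 : ContinuousAt (fun s => f (pt s (T + e))) s := (h.contf.comp (cont_pt' _)).continuousAt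
  have e1 := c1.eventually (lt_mem_nhds a1)
  have e2 := c2.eventually (gt_mem_nhds a2)
  have e3 : ∀ᶠ s' in 𝓝 s, s' ∈ Ioo 0 δ := Ioo_mem_nhds hs hs2
  have e4 := e1.and (e2.and e3)
  rw [Metric.eventually_nhds_iff] at e4
  obtain ⟨η, hη, e4⟩ := e4
  refine ⟨η, hη, fun s' hs' => ?_⟩
  obtain ⟨b1, b2, b3⟩ := e4 hs'
  obtain ⟨u1, u2, u3, u4, u5⟩ := h.TT_spec hg s' b3.1 b3.2
  rw [Real.dist_eq, abs_lt]
  constructor
  · by_contra hc
    push Not at hc
    have := u5 (T - e) (by linarith) (by linarith)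
    linarith
  · by_contra hc
    push Not at hc
    have := u4 (T + e) (by linarith) (by linarith)
    linarith

/-- derivative of the branch -/
noncomputable def TD (f : ℂ → ℝ) (g : ℂ → ℂ) (δ s : ℝ) : ℝ :=
  -((g (pt s (TT f δ s))).re) / (g (pt s (TT f δ s))).im

lemma TT_deriv (h : Sad f g a C0 d) {δ : ℝ} (hg : Good f g a C0 δ) (s : ℝ) (hs : 0 < s)
    (hs2 : s < δ) : HasDerivAt (TT f δ) (TD f g δ s) s := by
  obtain ⟨t1, t2, t3, t4, t5⟩ := h.TT_spec hg s hs hs2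
  have hcT := h.TT_cont hg s hs hs2
  have him := hg.im_pos s (TT f δ s) hs hs2 t1.le t2.le
  set T := TT f δ s with hT
  set A := -((g (pt s T)).re) with hA
  set B := -((g (pt s T)).im) with hB
  have hBne : B ≠ 0 := by rw [hB]; linarith
  -- differentiability of `(s,τ) ↦ f (pt s τ)`
  have hd : HasFDerivAt (fun p : ℝ × ℝ => f (pt p.1 p.2))
      (A • ContinuousLinearMap.fst ℝ ℝ ℝ + B • ContinuousLinearMap.snd ℝ ℝ ℝ) (s, T) := by
    have h1 : HasFDerivAt (fun p : ℝ × ℝ => pt p.1 p.2)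
        (-(Complex.ofRealCLM.comp (ContinuousLinearMap.fst ℝ ℝ ℝ)) +
          (Complex.I • (Complex.ofRealCLM.comp (ContinuousLinearMap.snd ℝ ℝ ℝ)))) (s, T) := by
      have e1 : HasFDerivAt (fun p : ℝ × ℝ => ((p.1 : ℝ) : ℂ))
          (Complex.ofRealCLM.comp (ContinuousLinearMap.fst ℝ ℝ ℝ)) (s, T) :=
        Complex.ofRealCLM.hasFDerivAt.comp _ hasFDerivAt_fst
      have e2 : HasFDerivAt (fun p : ℝ × ℝ => ((p.2 : ℝ) : ℂ))
          (Complex.ofRealCLM.comp (ContinuousLinearMap.snd ℝ ℝ ℝ)) (s, T) :=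
        Complex.ofRealCLM.hasFDerivAt.comp _ hasFDerivAt_snd
      have e3 := (e1.neg.add (e2.const_mul Complex.I)).const_add 1
      refine e3.congr_of_eventuallyEq (Eventually.of_forall fun p => ?_)
      simp [pt]
      ring
    have h2 := (h.der (pt s T)).comp (s, T) h1
    refine h2.congr_fderiv ?_
    ext
    · simp [hA]
    · simp [hB]
  have hlo := hd.isLittleO
  -- restrict to the curve
  have htend : Tendsto (fun s' => (s', TT f δ s')) (𝓝 s) (𝓝 (s, T)) :=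
    (continuousAt_id.prodMk hcT)
  have hlo2 := hlo.comp_tendsto htend
  have hzero : ∀ᶠ s' in 𝓝 s, f (pt s' (TT f δ s')) = 0 := by
    have e3 : ∀ᶠ s' in 𝓝 s, s' ∈ Ioo 0 δ := Ioo_mem_nhds hs hs2
    filter_upwards [e3] with s' hs'
    exact (h.TT_spec hg s' hs'.1 hs'.2).2.2.1
  have hlo3 : (fun s' => A * (s' - s) + B * (TT f δ s' - T)) =o[𝓝 s]
      (fun s' => ((s' - s, TT f δ s' - T) : ℝ × ℝ)) := by
    have := hlo2.neg_left
    refine this.congr' ?_ ?_
    · filter_upwards [hzero] with s' hs'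
      simp [Function.comp, hs', t3]
    · exact Eventually.of_forall fun s' => by simp [Function.comp]
  -- `k = O(h)`
  have hO : (fun s' => TT f δ s' - T) =O[𝓝 s] (fun s' => s' - s) := by
    have h1 := hlo3.def (show 0 < |B| / 2 by positivity)
    rw [Asymptotics.isBigO_iff]
    refine ⟨2 * |A| / |B| + 1, ?_⟩
    filter_upwards [h1] with s' hs'
    rw [Prod.norm_def, Real.norm_eq_abs] at hs'
    simp only [Real.norm_eq_abs] at hs' ⊢
    have hBpos : 0 < |B| := abs_pos.2 hBne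
    have h2 : |B| * |TT f δ s' - T| ≤ |A * (s' - s) + B * (TT f δ s' - T)| + |A| * |s' - s| := by
      have : B * (TT f δ s' - T) = (A * (s' - s) + B * (TT f δ s' - T)) - A * (s' - s) := by ring
      calc |B| * |TT f δ s' - T| = |B * (TT f δ s' - T)| := (abs_mul _ _).symm
        _ = |(A * (s' - s) + B * (TT f δ s' - T)) - A * (s' - s)| := by rw [← this]
        _ ≤ _ := by
            refine (abs_sub _ _).trans ?_
            rw [abs_mul A]
    have h3 : max |s' - s| |TT f δ s' - T| ≤ |s' - s| + |TT f δ s' - T| :=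
      max_le (le_add_of_nonneg_right (abs_nonneg _)) (le_add_of_nonneg_left (abs_nonneg _))
    have h4 : |B| * |TT f δ s' - T| ≤ |B| / 2 * (|s' - s| + |TT f δ s' - T|) + |A| * |s' - s| := by
      refine h2.trans (add_le_add_left (hs'.trans ?_) _)
      exact mul_le_mul_of_nonneg_left h3 (by positivity)
    have h5 : |B| * |TT f δ s' - T| ≤ (2 * |A| + |B|) * |s' - s| := by nlinarith
    have h6 : |TT f δ s' - T| ≤ (2 * |A| + |B|) * |s' - s| / |B| := by
      rw [le_div_iff₀ hBpos]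
      linarith
    refine h6.trans (le_of_eq ?_)
    field_simp
  have hlo4 : (fun s' => A * (s' - s) + B * (TT f δ s' - T)) =o[𝓝 s] (fun s' => s' - s) := by
    refine hlo3.trans_isBigO ?_
    exact (Asymptotics.isBigO_refl _ _).prod_left hO
  rw [hasDerivAt_iff_isLittleO]
  have h7 := hlo4.const_mul_left (1 / B)
  refine h7.congr_left fun s' => ?_
  simp only [smul_eq_mul]
  unfold TD
  rw [← hT]
  field_simp
  rw [hA, hB]
  have : (g (pt s T)).im ≠ 0 := him.ne'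
  field_simp
  ring

end Sad

end Pool.Agent.H682_VS
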