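import Pool.Agent.H682_VS.ArcsB

/-! # M7, part C: asymptotics of the branch at the corner -/

set_option autoImplicit false

open MeasureTheory Set Filter Topology

namespace Pool.Agent.H682_VS

namespace Sad

variable {f : ℂ → ℝ} {g : ℂ → ℂ} {a : ℝ → ℝ} {C0 d : ℝ}

lemma ratio_est (h : Sad f g a C0 d) {δ : ℝ} (hg : Good f g a C0 δ) (η : ℝ) (hη : 0 < η) :
    ∃ δ' > 0, δ' ≤ δ ∧ ∀ s, 0 < s → s < δ' → |TT f δ s / s - 1| ≤ η := by
  have hC := h.C0_nonneg
  obtain ⟨δ1, hδ1, hδd, hN⟩ := h.exists_N ((5 * C0 + 1) / η)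
  refine ⟨min δ (δ1 / 3), lt_min hg.pos (by positivity), min_le_left _ _, fun s hs hs2 => ?_⟩
  have hs3 : s < δ := hs2.trans_le (min_le_left _ _)
  have hs4 : s < δ1 / 3 := hs2.trans_le (min_le_right _ _)
  obtain ⟨t1, t2, t3, t4, t5⟩ := h.TT_spec hg s hs hs3
  set T := TT f δ s
  have hT0 : 0 < T := by linarith
  have hz := znorm_le s T hs.le hT0.le
  set N := (5 * C0 + 1) / η with hNdef
  have hNpos : 0 < N := by positivity
  have hNη : N * η = 5 * C0 + 1 := by rw [hNdef]; field_simp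
  have hsT : s ^ 2 + T ^ 2 ≤ 5 * s ^ 2 := by nlinarith
  have hdiv : T / s - 1 = (T - s) / s := by field_simp
  rw [hdiv, abs_div, abs_of_pos hs, div_le_iff₀ hs]
  rcases le_total T s with hle | hle
  · have h1 := h.lower hN hδd (((-s : ℝ) : ℂ) + (T : ℝ) * Complex.I) (by linarith) (by
      rw [zsq_re]; nlinarith)
    rw [zsq_re, znorm, ← pt_eq, t3] at h1
    rw [abs_of_nonpos (by linarith)]
    have h2 : N * (s ^ 2 - T ^ 2) ≤ C0 * (5 * s ^ 2) := by nlinarith
    have h3 : N * ((s - T) * s) ≤ N * (s ^ 2 - T ^ 2) := by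
      apply mul_le_mul_of_nonneg_left _ hNpos.le
      nlinarith
    have h4 : N * ((s - T) * s) ≤ N * η * s ^ 2 := by
      rw [hNη]
      nlinarith [sq_nonneg s]
    have h5 : (s - T) * s ≤ η * s * s := by
      have : N * ((s - T) * s) ≤ N * (η * s * s) := by nlinarith
      exact le_of_mul_le_mul_left this hNpos
    have := le_of_mul_le_mul_right h5 hs
    linarith
  · have h1 := h.upper hN hδd (((-s : ℝ) : ℂ) + (T : ℝ) * Complex.I) (by linarith) (by
      rw [zsq_re]; nlinarith)
    rw [zsq_re, znorm, ← pt_eq, t3] at h1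
    rw [abs_of_nonneg (by linarith)]
    have h2 : N * (T ^ 2 - s ^ 2) ≤ C0 * (5 * s ^ 2) := by nlinarith
    have h3 : N * ((T - s) * s) ≤ N * (T ^ 2 - s ^ 2) := by
      apply mul_le_mul_of_nonneg_left _ hNpos.le
      nlinarith
    have h5 : (T - s) * s ≤ η * s * s := by
      have : N * ((T - s) * s) ≤ N * (η * s * s) := by
        have : N * (η * s * s) = (5 * C0 + 1) * s ^ 2 := by rw [← hNη]; ring
        rw [this]
        nlinarith [sq_nonneg s]
      exact le_of_mul_le_mul_left this hNpos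
    have := le_of_mul_le_mul_right h5 hs
    linarith

lemma ratio_tendsto (h : Sad f g a C0 d) {δ : ℝ} (hg : Good f g a C0 δ) :
    Tendsto (fun s => TT f δ s / s) (𝓝[>] 0) (𝓝 1) := by
  rw [Metric.tendsto_nhds]
  intro ε hε
  obtain ⟨δ', hδ', _, hr⟩ := h.ratio_est hg (ε / 2) (by positivity)
  filter_upwards [Ioo_mem_nhdsGT hδ'] with s hs
  rw [Real.dist_eq]
  have := hr s hs.1 hs.2
  linarith

lemma TT_tendsto (h : Sad f g a C0 d) {δ : ℝ} (hg : Good f g a C0 δ) :
    Tendsto (TT f δ) (𝓝[>] 0) (𝓝 0) := by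
  have h1 := h.ratio_tendsto hg
  have h2 : Tendsto (fun s : ℝ => s) (𝓝[>] 0) (𝓝 0) := tendsto_nhdsWithin_of_tendsto_nhds tendsto_id
  have h3 := h1.mul h2
  rw [one_mul] at h3
  refine h3.congr' ?_
  filter_upwards [self_mem_nhdsWithin] with s hs
  have : s ≠ 0 := ne_of_gt hs
  field_simp

lemma TD_tendsto (h : Sad f g a C0 d) {δ : ℝ} (hg : Good f g a C0 δ) (hδ : 4 * δ ≤ d) :
    Tendsto (TD f g δ) (𝓝[>] 0) (𝓝 1) := by
  have hC := h.C0_nonneg
  set r : ℝ → ℝ := fun s => ‖pt s (TT f δ s) - 1‖ with hr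
  have hrt : Tendsto r (𝓝[>] 0) (𝓝[>] 0) := by
    rw [tendsto_nhdsWithin_iff]
    constructor
    · have h1 : Tendsto (fun s => s + TT f δ s) (𝓝[>] 0) (𝓝 0) := by
        have h2 : Tendsto (fun s : ℝ => s) (𝓝[>] 0) (𝓝 0) :=
          tendsto_nhdsWithin_of_tendsto_nhds tendsto_id
        simpa using h2.add (h.TT_tendsto hg)
      refine squeeze_zero' (Eventually.of_forall fun s => norm_nonneg _) ?_ h1
      filter_upwards [Ioo_mem_nhdsGT hg.pos] with s hs
      obtain ⟨t1, t2, t3, t4, t5⟩ := h.TT_spec hg s hs.1 hs.2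
      simp only [hr]
      rw [pt_sub]
      exact znorm_le s _ hs.1.le (by have := hs.1; linarith)
    · filter_upwards [Ioo_mem_nhdsGT hg.pos] with s hs
      simp only [hr, mem_Ioi]
      rw [norm_pos_iff, pt_sub]
      intro h0
      have := congrArg Complex.re h0
      simp at this
      linarith [hs.1]
  have ha : Tendsto (fun s => a (r s)) (𝓝[>] 0) atTop := h.lim.comp hrt
  -- the two error terms
  set u : ℝ → ℝ := fun s => -(g (pt s (TT f δ s))).re / (a (r s) * s) - 1 with hu
  set v : ℝ → ℝ := fun s => (g (pt s (TT f δ s))).im / (a (r s) * s) - TT f δ s / s with hv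
  have hbnd : Tendsto (fun s => 3 * C0 / a (r s)) (𝓝[>] 0) (𝓝 0) :=
    Tendsto.div_atTop tendsto_const_nhds ha
  have hapos : ∀ᶠ s in 𝓝[>] (0:ℝ), 0 < a (r s) := ha.eventually (eventually_gt_atTop 0)
  have hest : ∀ s, 0 < s → s < δ → ‖g (pt s (TT f δ s)) - (a (r s) : ℂ) * (pt s (TT f δ s) - 1)‖
      ≤ 3 * C0 * s := by
    intro s hs hs2
    obtain ⟨t1, t2, t3, t4, t5⟩ := h.TT_spec hg s hs hs2
    have hz := znorm_le s (TT f δ s) hs.le (by linarith)
    have h1 := h.est (pt s (TT f δ s)) (by rw [pt_sub]; linarith)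
    refine h1.trans ?_
    rw [pt_sub]
    calc C0 * ‖(((-s : ℝ) : ℂ) + (TT f δ s : ℝ) * Complex.I)‖ ≤ C0 * (3 * s) :=
          mul_le_mul_of_nonneg_left (by linarith) hC
      _ = _ := by ring
  have hu0 : Tendsto u (𝓝[>] 0) (𝓝 0) := by
    apply squeeze_zero_norm' _ hbnd
    filter_upwards [Ioo_mem_nhdsGT hg.pos, hapos] with s hs hap
    have h1 := (Complex.abs_re_le_norm _).trans (hest s hs.1 hs.2)
    rw [Complex.sub_re, Complex.re_ofReal_mul, Complex.sub_re, pt_re, Complex.one_re] at h1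
    have hsp := hs.1
    have h2 : u s = -((g (pt s (TT f δ s))).re - a (r s) * (1 - s - 1)) / (a (r s) * s) := by
      simp only [hu]
      field_simp
      ring
    rw [h2, Real.norm_eq_abs, abs_div, abs_neg, abs_of_pos (mul_pos hap hsp),
      div_le_div_iff₀ (mul_pos hap hsp) hap]
    nlinarith
  have hv0 : Tendsto v (𝓝[>] 0) (𝓝 0) := by
    apply squeeze_zero_norm' _ hbnd
    filter_upwards [Ioo_mem_nhdsGT hg.pos, hapos] with s hs hap
    have h1 := (Complex.abs_im_le_norm _).trans (hest s hs.1 hs.2)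
    rw [Complex.sub_im, Complex.im_ofReal_mul, Complex.sub_im, pt_im, Complex.one_im, sub_zero] at h1
    have hsp := hs.1
    have h2 : v s = ((g (pt s (TT f δ s))).im - a (r s) * TT f δ s) / (a (r s) * s) := by
      simp only [hv]
      field_simp
    rw [h2, Real.norm_eq_abs, abs_div, abs_of_pos (mul_pos hap hsp),
      div_le_div_iff₀ (mul_pos hap hsp) hap]
    nlinarith
  have hmain : Tendsto (fun s => (u s + 1) / (v s + TT f δ s / s)) (𝓝[>] 0) (𝓝 ((0 + 1) / (0 + 1))) :=
    (hu0.add tendsto_const_nhds).div (hv0.add (h.ratio_tendsto hg)) (by norm_num)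
  norm_num at hmain
  refine hmain.congr' ?_
  filter_upwards [Ioo_mem_nhdsGT hg.pos, hapos] with s hs hap
  have hsp := hs.1
  have him : (g (pt s (TT f δ s))).im ≠ 0 := by
    obtain ⟨t1, t2, t3, t4, t5⟩ := h.TT_spec hg s hs.1 hs.2
    exact (hg.im_pos s _ hs.1 hs.2 t1.le t2.le).ne'
  have h1 : u s + 1 = -(g (pt s (TT f δ s))).re / (a (r s) * s) := by simp only [hu]; ring
  have h2 : v s + TT f δ s / s = (g (pt s (TT f δ s))).im / (a (r s) * s) := by simp only [hv]; ring
  rw [h1, h2]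
  unfold TD
  have h3 : a (r s) * s ≠ 0 := (mul_pos hap hsp).ne'
  field_simp

/-- the upper branch, packaged -/
theorem branch (h : Sad f g a C0 d) : ∃ δ > 0, 4 * δ ≤ d ∧ ∃ T : ℝ → ℝ, T 0 = 0 ∧
    ContDiffOn ℝ 1 T (Ico 0 δ) ∧ HasDerivWithinAt T 1 (Ici 0) 0 ∧
    (∀ s, 0 < s → s < δ → s / 2 < T s ∧ T s < 2 * s) ∧
    (∀ s τ, 0 < s → s < δ → 0 ≤ τ → τ < 2 * δ → (0 < f (pt s τ) ↔ τ < T s)) := by
  obtain ⟨δ, hg, hδ⟩ := h.exists_good
  refine ⟨δ, hg.pos, hδ, TT f δ, TT_zero, ?_, ?_, ?_, ?_⟩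
  · -- C¹ on `[0,δ)`
    have hder0 : HasDerivWithinAt (TT f δ) 1 (Ici 0) 0 := by
      apply hasDerivWithinAt_Ici_of_tendsto_deriv (s := Ioo 0 δ)
      · intro s hs
        exact (h.TT_deriv hg s hs.1 hs.2).differentiableAt.differentiableWithinAt
      · have h1 := h.TT_tendsto hg
        rw [ContinuousWithinAt, TT_zero]
        exact h1.mono_left (nhdsWithin_mono _ Ioo_subset_Ioi_self)
      · exact Ioo_mem_nhdsGT hg.pos
      · refine (h.TD_tendsto hg hδ).congr' ?_
        filter_upwards [Ioo_mem_nhdsGT hg.pos] with s hs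
        exact (h.TT_deriv hg s hs.1 hs.2).deriv.symm
    set T' : ℝ → ℝ := fun s => if s = 0 then 1 else TD f g δ s with hT'
    have hderW : ∀ s ∈ Ico 0 δ, HasDerivWithinAt (TT f δ) (T' s) (Ico 0 δ) s := by
      intro s hs
      rcases hs.1.eq_or_lt with h0 | h0
      · rw [← h0]
        simp only [hT', if_true]
        exact hder0.mono Ico_subset_Ici_self
      · simp only [hT', if_neg h0.ne']
        exact (h.TT_deriv hg s h0 hs.2).hasDerivWithinAt
    have hcontT' : ContinuousOn T' (Ico 0 δ) := by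
      intro s hs
      rcases hs.1.eq_or_lt with h0 | h0
      · rw [← h0]
        rw [ContinuousWithinAt]
        simp only [hT', if_true]
        rw [← Ioo_insert_left hg.pos, nhdsWithin_insert, tendsto_sup]
        constructor
        · rw [tendsto_pure_left]
          intro V hV
          simpa using mem_of_mem_nhds hV
        · refine ((h.TD_tendsto hg hδ).mono_left (nhdsWithin_mono _ Ioo_subset_Ioi_self)).congr' ?_
          filter_upwards [self_mem_nhdsWithin] with s hs
          rw [if_neg hs.1.ne']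
      · have h1 : ContinuousAt (TD f g δ) s := by
          unfold TD
          have h2 : ContinuousAt (fun s => pt s (TT f δ s)) s := by
            have := (cont_pt2).continuousAt.comp (x := s)
              (f := fun s => (s, TT f δ s)) (continuousAt_id.prodMk (h.TT_cont hg s h0 hs.2))
            exact this
          have h3 : ContinuousAt (fun s => g (pt s (TT f δ s))) s := h.cont.continuousAt.comp h2
          have h4 : (g (pt s (TT f δ s))).im ≠ 0 := by
            obtain ⟨t1, t2, t3, t4, t5⟩ := h.TT_spec hg s h0 hs.2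
            exact (hg.im_pos s _ h0 hs.2 t1.le t2.le).ne'
          exact (Complex.continuous_re.continuousAt.comp h3).neg.div
            (Complex.continuous_im.continuousAt.comp h3) h4
        have h5 : T' =ᶠ[𝓝 s] TD f g δ := by
          filter_upwards [Ioi_mem_nhds h0] with s' hs'
          have hs'' : (0:ℝ) < s' := hs'
          simp only [hT', if_neg hs''.ne']
        exact (h1.congr h5.symm).continuousWithinAt
    have huniq : UniqueDiffOn ℝ (Ico 0 δ) := uniqueDiffOn_Ico 0 δ
    have : (1 : WithTop ℕ∞) = 0 + 1 := by norm_num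
    rw [this, contDiffOn_succ_iff_derivWithin huniq]
    refine ⟨fun s hs => (hderW s hs).differentiableWithinAt, by simp, ?_⟩
    rw [contDiffOn_zero]
    refine hcontT'.congr fun s hs => ?_
    exact (hderW s hs).derivWithin (huniq s hs)
  · apply hasDerivWithinAt_Ici_of_tendsto_deriv (s := Ioo 0 δ)
    · intro s hs
      exact (h.TT_deriv hg s hs.1 hs.2).differentiableAt.differentiableWithinAt
    · have h1 := h.TT_tendsto hg
      rw [ContinuousWithinAt, TT_zero]
      exact h1.mono_left (nhdsWithin_mono _ Ioo_subset_Ioi_self)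
    · exact Ioo_mem_nhdsGT hg.pos
    · refine (h.TD_tendsto hg hδ).congr' ?_
      filter_upwards [Ioo_mem_nhdsGT hg.pos] with s hs
      exact (h.TT_deriv hg s hs.1 hs.2).deriv.symm
  · intro s hs hs2
    obtain ⟨t1, t2, _⟩ := h.TT_spec hg s hs hs2
    exact ⟨t1, t2⟩
  · intro s τ hs hs2 hτ hτ2
    obtain ⟨t1, t2, t3, t4, t5⟩ := h.TT_spec hg s hs hs2
    constructor
    · intro hpos
      by_contra hc
      push Not at hc
      rcases hc.eq_or_lt with h1 | h1
      · rw [← h1, t3] at hpos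
        exact lt_irrefl _ hpos
      · have := t5 τ h1 hτ2
        linarith
    · exact t4 τ hτ

end Sad

end Pool.Agent.H682_VS
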