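import Pool.Agent.H682_VS.ArcsC

/-! # M7, part D: the corner -/

set_option autoImplicit false

open MeasureTheory Set Filter Topology

namespace Pool.Agent.H682_VS

/-- near `1` the set `D` is the region between two `C¹` graphs with slopes `±1` at the corner -/
structure Two (D : Set ℂ) (δ : ℝ) (T₁ T₂ : ℝ → ℝ) : Prop where
  pos : 0 < δ
  z1 : T₁ 0 = 0
  z2 : T₂ 0 = 0
  c1 : ContDiffOn ℝ 1 T₁ (Ico 0 δ)
  c2 : ContDiffOn ℝ 1 T₂ (Ico 0 δ)
  d1 : HasDerivWithinAt T₁ 1 (Ici 0) 0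
  d2 : HasDerivWithinAt T₂ 1 (Ici 0) 0
  b1 : ∀ s, 0 < s → s < δ → s / 2 < T₁ s ∧ T₁ s < 2 * s
  b2 : ∀ s, 0 < s → s < δ → s / 2 < T₂ s ∧ T₂ s < 2 * s
  mem : ∀ s τ, |s| < δ → |τ| < 2 * δ → (pt s τ ∈ D ↔ 0 < s ∧ -T₂ s < τ ∧ τ < T₁ s)

lemma pt_coord (w : ℂ) : pt (1 - w.re) w.im = w := by
  apply Complex.ext
  · rw [pt_re]; ring
  · rw [pt_im]

namespace Two

variable {D : Set ℂ} {δ : ℝ} {T₁ T₂ : ℝ → ℝ}

lemma cont1 (h : Two D δ T₁ T₂) {s : ℝ} (hs : 0 < s) (hs2 : s < δ) : ContinuousAt T₁ s :=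
  (h.c1.continuousOn s ⟨hs.le, hs2⟩).continuousAt (mem_of_superset (Ioo_mem_nhds hs hs2)
    Ioo_subset_Ico_self)

lemma cont2 (h : Two D δ T₁ T₂) {s : ℝ} (hs : 0 < s) (hs2 : s < δ) : ContinuousAt T₂ s :=
  (h.c2.continuousOn s ⟨hs.le, hs2⟩).continuousAt (mem_of_superset (Ioo_mem_nhds hs hs2)
    Ioo_subset_Ico_self)

lemma cs : Continuous (fun w : ℂ => 1 - w.re) := continuous_const.sub Complex.continuous_re

lemma box (h : Two D δ T₁ T₂) (w : ℂ) (h1 : |1 - w.re| < δ) (h2 : |w.im| < 2 * δ) :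
    ∀ᶠ w' in 𝓝 w, |1 - w'.re| < δ ∧ |w'.im| < 2 * δ := by
  have e1 : ∀ᶠ w' in 𝓝 w, |1 - w'.re| < δ :=
    (cs.abs.continuousAt (x := w)).eventually (gt_mem_nhds h1)
  have e2 : ∀ᶠ w' in 𝓝 w, |w'.im| < 2 * δ :=
    (Complex.continuous_im.abs.continuousAt (x := w)).eventually (gt_mem_nhds h2)
  exact e1.and e2

lemma mem' (h : Two D δ T₁ T₂) (w : ℂ) (h1 : |1 - w.re| < δ) (h2 : |w.im| < 2 * δ) :
    w ∈ D ↔ 0 < 1 - w.re ∧ -T₂ (1 - w.re) < w.im ∧ w.im < T₁ (1 - w.re) := by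
  have := h.mem (1 - w.re) w.im h1 h2
  rwa [pt_coord] at this

lemma interior (h : Two D δ T₁ T₂) (w : ℂ) (h1 : |1 - w.re| < δ) (h2 : |w.im| < 2 * δ)
    (hw : w ∈ D) : w ∈ interior D := by
  rw [mem_interior_iff_mem_nhds]
  obtain ⟨a1, a2, a3⟩ := (h.mem' w h1 h2).1 hw
  have hs2 : 1 - w.re < δ := (abs_lt.1 h1).2
  have k1 : ContinuousAt (fun w : ℂ => T₁ (1 - w.re)) w :=
    ContinuousAt.comp' (f := fun w : ℂ => 1 - w.re) (g := T₁) (h.cont1 a1 hs2) cs.continuousAt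
  have k2 : ContinuousAt (fun w : ℂ => -T₂ (1 - w.re)) w :=
    (ContinuousAt.comp' (f := fun w : ℂ => 1 - w.re) (g := T₂) (h.cont2 a1 hs2)
      cs.continuousAt).neg
  have e1 : ∀ᶠ w' in 𝓝 w, 0 < 1 - w'.re := (cs.continuousAt (x := w)).eventually (lt_mem_nhds a1)
  have e2 : ∀ᶠ w' : ℂ in 𝓝 w, -T₂ (1 - w'.re) < w'.im :=
    k2.eventually_lt Complex.continuous_im.continuousAt a2
  have e3 : ∀ᶠ w' : ℂ in 𝓝 w, w'.im < T₁ (1 - w'.re) :=
    (Complex.continuous_im.continuousAt).eventually_lt k1 a3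
  filter_upwards [e1, e2, e3, h.box w h1 h2] with w' f1 f2 f3 f4
  exact (h.mem' w' f4.1 f4.2).2 ⟨f1, f2, f3⟩

/-- points that are not in the closure -/
lemma notcl (h : Two D δ T₁ T₂) (w : ℂ) (h1 : |1 - w.re| < δ) (h2 : |w.im| < 2 * δ)
    (hw : 1 - w.re < 0 ∨ (1 - w.re = 0 ∧ w.im ≠ 0) ∨
      (0 < 1 - w.re ∧ (T₁ (1 - w.re) < w.im ∨ w.im < -T₂ (1 - w.re)))) : w ∉ closure D := by
  rw [mem_closure_iff_frequently, not_frequently]
  rcases hw with hw | hw | hw
  · have e1 : ∀ᶠ w' in 𝓝 w, 1 - w'.re < 0 := (cs.continuousAt (x := w)).eventually (gt_mem_nhds hw)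
    filter_upwards [e1, h.box w h1 h2] with w' f1 f4 hD
    have := ((h.mem' w' f4.1 f4.2).1 hD).1
    linarith
  · obtain ⟨hw0, hw1⟩ := hw
    have hpos : 0 < |w.im| := abs_pos.2 hw1
    have e1 : ∀ᶠ w' in 𝓝 w, 1 - w'.re < |w.im| / 4 :=
      (cs.continuousAt (x := w)).eventually (gt_mem_nhds (by
        show 1 - w.re < |w.im| / 4
        rw [hw0]; positivity))
    have e2 : ∀ᶠ w' : ℂ in 𝓝 w, |w.im| / 2 < |w'.im| :=
      (Complex.continuous_im.abs.continuousAt (x := w)).eventually (lt_mem_nhds (by linarith))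
    filter_upwards [e1, e2, h.box w h1 h2] with w' f1 f2 f4 hD
    obtain ⟨a1, a2, a3⟩ := (h.mem' w' f4.1 f4.2).1 hD
    have hs2 : 1 - w'.re < δ := (abs_lt.1 f4.1).2
    have g1 := (h.b1 _ a1 hs2).2
    have g2 := (h.b2 _ a1 hs2).2
    have : |w'.im| < 2 * (1 - w'.re) := by
      rw [abs_lt]
      constructor <;> linarith
    linarith
  · obtain ⟨a1, hw⟩ := hw
    have hs2 : 1 - w.re < δ := (abs_lt.1 h1).2
    have k1 : ContinuousAt (fun w : ℂ => T₁ (1 - w.re)) w :=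
      ContinuousAt.comp' (f := fun w : ℂ => 1 - w.re) (g := T₁) (h.cont1 a1 hs2) cs.continuousAt
    have k2 : ContinuousAt (fun w : ℂ => -T₂ (1 - w.re)) w :=
      (ContinuousAt.comp' (f := fun w : ℂ => 1 - w.re) (g := T₂) (h.cont2 a1 hs2)
        cs.continuousAt).neg
    rcases hw with hw | hw
    · have e3 : ∀ᶠ w' : ℂ in 𝓝 w, T₁ (1 - w'.re) < w'.im :=
        k1.eventually_lt (Complex.continuous_im.continuousAt) hw
      filter_upwards [e3, h.box w h1 h2] with w' f1 f4 hD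
      have := ((h.mem' w' f4.1 f4.2).1 hD).2.2
      linarith
    · have e3 : ∀ᶠ w' : ℂ in 𝓝 w, w'.im < -T₂ (1 - w'.re) :=
        (Complex.continuous_im.continuousAt).eventually_lt k2 hw
      filter_upwards [e3, h.box w h1 h2] with w' f1 f4 hD
      have := ((h.mem' w' f4.1 f4.2).1 hD).2.1
      linarith

/-- arcs -/
noncomputable def arc (δ : ℝ) (T : ℝ → ℝ) (t : ℝ) : ℂ := pt (δ / 2 * t) (T (δ / 2 * t))

lemma arc_isArc {δ : ℝ} {T : ℝ → ℝ} (hδ : 0 < δ) (hz : T 0 = 0) (hc : ContDiffOn ℝ 1 T (Ico 0 δ)) :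
    IsArc (arc δ T) 1 where
  c1 := by
    have h1 : ContDiffOn ℝ 1 (fun t : ℝ => T (δ / 2 * t)) (Icc 0 1) := by
      refine hc.comp (contDiff_const.mul contDiff_id).contDiffOn ?_
      intro t ht
      constructor
      · have := ht.1; positivity
      · have := ht.2; nlinarith
    unfold arc pt
    have h2 : ContDiffOn ℝ 1 (fun t : ℝ => ((T (δ / 2 * t) : ℝ) : ℂ)) (Icc 0 1) :=
      Complex.ofRealCLM.contDiff.comp_contDiffOn h1
    have h3 : ContDiff ℝ 1 (fun t : ℝ => ((-(δ / 2 * t) : ℝ) : ℂ)) :=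
      Complex.ofRealCLM.contDiff.comp (contDiff_const.mul contDiff_id).neg
    exact contDiffOn_const.add (h3.contDiffOn.add (h2.mul contDiffOn_const))
  inj := by
    intro t _ t' _ htt
    have := congrArg Complex.re htt
    unfold arc at this
    rw [pt_re, pt_re] at this
    have h2 : δ / 2 * t = δ / 2 * t' := by linarith
    exact mul_left_cancel₀ (by positivity) h2
  reg := by
    intro t ht h0
    have h1 : ContDiffOn ℝ 1 (fun t : ℝ => T (δ / 2 * t)) (Icc 0 1) := by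
      refine hc.comp (contDiff_const.mul contDiff_id).contDiffOn ?_
      intro t ht
      constructor
      · have := ht.1; positivity
      · have := ht.2; nlinarith
    have hdiff : DifferentiableWithinAt ℝ (arc δ T) (Icc 0 1) t := by
      unfold arc pt
      have h2 : ContDiffOn ℝ 1 (fun t : ℝ => ((T (δ / 2 * t) : ℝ) : ℂ)) (Icc 0 1) :=
        Complex.ofRealCLM.contDiff.comp_contDiffOn h1
      have h3 : ContDiff ℝ 1 (fun t : ℝ => ((-(δ / 2 * t) : ℝ) : ℂ)) :=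
        Complex.ofRealCLM.contDiff.comp (contDiff_const.mul contDiff_id).neg
      exact ((contDiffOn_const.add (h3.contDiffOn.add (h2.mul contDiffOn_const))).differentiableOn
        (by norm_num)) t ht
    have h4 : HasDerivWithinAt (fun t => (arc δ T t).re) ((derivWithin (arc δ T) (Icc 0 1) t).re)
        (Icc 0 1) t :=
      (Complex.reCLM.hasFDerivAt.comp_hasDerivWithinAt t hdiff.hasDerivWithinAt)
    have h5 : HasDerivWithinAt (fun t => (arc δ T t).re) (-(δ / 2)) (Icc 0 1) t := by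
      have : (fun t => (arc δ T t).re) = fun t => 1 - δ / 2 * t := by
        funext t
        unfold arc
        rw [pt_re]
      rw [this]
      have := ((hasDerivAt_id t).const_mul (δ / 2)).const_sub 1
      simpa using this.hasDerivWithinAt
    have h6 := (uniqueDiffOn_Icc (zero_lt_one' ℝ) t ht).eq_deriv _ h4 h5
    rw [h0] at h6
    simp at h6
    linarith
  start := by
    unfold arc
    simp [hz, pt]

lemma arc_deriv {δ : ℝ} {T : ℝ → ℝ} (hδ : 0 < δ) {e : ℝ} (hd : HasDerivWithinAt T e (Ici 0) 0) :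
    derivWithin (arc δ T) (Icc 0 1) 0 = ((δ / 2 : ℝ) : ℂ) * (-1 + e * Complex.I) := by
  have h1 : HasDerivWithinAt (fun t : ℝ => T (δ / 2 * t)) (e * (δ / 2)) (Icc 0 1) 0 := by
    have h2 : HasDerivWithinAt (fun t : ℝ => δ / 2 * t) (δ / 2) (Icc 0 1) 0 := by
      simpa using ((hasDerivAt_id (0:ℝ)).const_mul (δ / 2)).hasDerivWithinAt
    have h3 : HasDerivWithinAt T e (Ici 0) (δ / 2 * 0) := by simpa using hd
    exact h3.comp (0:ℝ) h2 (fun t ht => by
      have := ht.1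
      simp only [mem_Ici]
      positivity)
  have h4 : HasDerivWithinAt (arc δ T) (((δ / 2 : ℝ) : ℂ) * (-1 + e * Complex.I)) (Icc 0 1) 0 := by
    unfold arc pt
    have h5 : HasDerivWithinAt (fun t : ℝ => ((-(δ / 2 * t) : ℝ) : ℂ)) (((-(δ / 2) : ℝ)) : ℂ)
        (Icc 0 1) 0 := by
      have : HasDerivAt (fun t : ℝ => -(δ / 2 * t)) (-(δ / 2)) 0 := by
        have h0 := ((hasDerivAt_id (0:ℝ)).const_mul (-(δ / 2)))
        refine (h0.congr_deriv (by ring)).congr_of_eventuallyEq (Eventually.of_forall ?_)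
        intro t
        simp only [id]
        ring
      exact this.ofReal_comp.hasDerivWithinAt
    have h6 : HasDerivWithinAt (fun t : ℝ => ((T (δ / 2 * t) : ℝ) : ℂ)) (((e * (δ / 2) : ℝ)) : ℂ)
        (Icc 0 1) 0 := by
      exact Complex.ofRealCLM.hasFDerivAt.comp_hasDerivWithinAt 0 h1
    have h7 := (h5.add (h6.mul_const Complex.I)).const_add 1
    refine h7.congr_deriv ?_
    push_cast
    ring
  exact h4.derivWithin (uniqueDiffOn_Icc (zero_lt_one' ℝ) 0 (by simp))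

end Two

/-- the two unit vectors -/
noncomputable def vv₁ : ℂ := ((1 / Real.sqrt 2 : ℝ) : ℂ) * (-1 + Complex.I)
noncomputable def vv₂ : ℂ := ((1 / Real.sqrt 2 : ℝ) : ℂ) * (-1 - Complex.I)

lemma vv_norm1 : ‖vv₁‖ = 1 := by
  unfold vv₁
  rw [norm_mul, Complex.norm_real, Real.norm_eq_abs, abs_of_pos (by positivity)]
  have : ‖(-1 + Complex.I : ℂ)‖ = Real.sqrt 2 := by
    have := Complex.norm_add_mul_I (-1) 1
    simp only [Complex.ofReal_neg, Complex.ofReal_one, one_mul] at this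
    rw [this]
    norm_num
  rw [this]
  have : Real.sqrt 2 ≠ 0 := by positivity
  field_simp

lemma vv_norm2 : ‖vv₂‖ = 1 := by
  unfold vv₂
  rw [norm_mul, Complex.norm_real, Real.norm_eq_abs, abs_of_pos (by positivity)]
  have : ‖(-1 - Complex.I : ℂ)‖ = Real.sqrt 2 := by
    have := Complex.norm_add_mul_I (-1) (-1)
    simp only [Complex.ofReal_neg, Complex.ofReal_one] at this
    have h2 : (-1 + -1 * Complex.I : ℂ) = -1 - Complex.I := by ring
    rw [h2] at this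
    rw [this]
    norm_num
  rw [this]
  have : Real.sqrt 2 ≠ 0 := by positivity
  field_simp

/-- coordinates of the ray points -/
lemma ray_pt (a b t : ℝ) : (1 : ℂ) + t * (a * vv₁ + b * vv₂)
    = pt (t * (a + b) / Real.sqrt 2) (t * (a - b) / Real.sqrt 2) := by
  unfold vv₁ vv₂ pt
  push_cast
  ring

end Pool.Agent.H682_VS
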