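import Pool.Agent.H682_VS.ArcsD

/-! # M7, part E: the corner -/

set_option autoImplicit false

open MeasureTheory Set Filter Topology

namespace Pool.Agent.H682_VS

lemma norm_pt_sub_le (s τ : ℝ) : ‖pt s τ - 1‖ ≤ |s| + |τ| := by
  rw [pt_sub]
  refine (norm_add_le _ _).trans ?_
  rw [norm_mul, Complex.norm_I, mul_one, Complex.norm_real, Complex.norm_real, Real.norm_eq_abs,
    Real.norm_eq_abs, abs_neg]

lemma conj_pt (s τ : ℝ) : (starRingEnd ℂ) (pt s τ) = pt s (-τ) := by
  apply Complex.ext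
  · rw [Complex.conj_re, pt_re, pt_re]
  · rw [Complex.conj_im, pt_im, pt_im]

theorem exists_two {D : Set ℂ} {f : ℂ → ℝ} {g : ℂ → ℂ} {a : ℝ → ℝ} {C0 d : ℝ}
    (h : Sad f g a C0 d) (hD : ∀ w : ℂ, ‖w - 1‖ < d → (w ∈ D ↔ ‖w‖ < 1 ∧ 0 < f w)) :
    ∃ (δ : ℝ) (T₁ T₂ : ℝ → ℝ), Two D δ T₁ T₂ := by
  obtain ⟨δ₁, p1, q1, T₁, z1, c1, e1, b1, m1⟩ := h.branch
  obtain ⟨δ₂, p2, q2, T₂, z2, c2, e2, b2, m2⟩ := h.conj.branch
  set δ := min (min δ₁ δ₂) (1/8) with hδ
  have hpos : 0 < δ := by
    rw [hδ]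
    exact lt_min (lt_min p1 p2) (by norm_num)
  have l1 : δ ≤ δ₁ := (min_le_left _ _).trans (min_le_left _ _)
  have l2 : δ ≤ δ₂ := (min_le_left _ _).trans (min_le_right _ _)
  have l3 : δ ≤ 1/8 := min_le_right _ _
  refine ⟨δ, T₁, T₂, hpos, z1, z2, c1.mono (Ico_subset_Ico_right l1),
    c2.mono (Ico_subset_Ico_right l2), e1, e2, fun s hs hs2 => b1 s hs (hs2.trans_le l1),
    fun s hs hs2 => b2 s hs (hs2.trans_le l2), ?_⟩
  intro s τ hs hτ
  have hn : ‖pt s τ - 1‖ < d := by
    have := norm_pt_sub_le s τ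
    linarith
  rw [hD _ hn]
  rcases le_or_gt s 0 with h0 | h0
  · constructor
    · intro hh
      exfalso
      have h1 : (pt s τ).re ≤ ‖pt s τ‖ := Complex.re_le_norm _
      rw [pt_re] at h1
      linarith [hh.1]
    · intro hh
      linarith [hh.1]
  · have hs' : s < δ := (abs_lt.1 hs).2
    have B1 := b1 s h0 (hs'.trans_le l1)
    have B2 := b2 s h0 (hs'.trans_le l2)
    have hnorm : |τ| < 2 * s → ‖pt s τ‖ < 1 := by
      intro ht
      have h1 : ‖pt s τ‖ ^ 2 = (1 - s) ^ 2 + τ ^ 2 := by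
        rw [Complex.sq_norm, Complex.normSq_apply, pt_re, pt_im]
        ring
      have h2 : τ ^ 2 < (2 * s) ^ 2 := by
        rw [← sq_abs]
        exact pow_lt_pow_left₀ ht (abs_nonneg _) (by norm_num)
      have h3 : ‖pt s τ‖ ^ 2 < 1 ^ 2 := by
        rw [h1]
        nlinarith
      exact lt_of_pow_lt_pow_left₀ 2 (by norm_num) h3
    rcases le_or_gt 0 τ with ht | ht
    · have hτ' : τ < 2 * δ₁ := by
        have := (abs_lt.1 hτ).2
        linarith
      have M := m1 s τ h0 (hs'.trans_le l1) ht hτ'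
      constructor
      · intro hh
        exact ⟨h0, by linarith, M.1 hh.2⟩
      · intro hh
        refine ⟨hnorm ?_, M.2 hh.2.2⟩
        rw [abs_of_nonneg ht]
        linarith [hh.2.2]
    · have hτ' : -τ < 2 * δ₂ := by
        have := (abs_lt.1 hτ).1
        linarith
      have M := m2 s (-τ) h0 (hs'.trans_le l2) (by linarith) hτ'
      simp only [conj_pt, neg_neg] at M
      constructor
      · intro hh
        have := M.1 hh.2
        exact ⟨h0, by linarith, by linarith⟩
      · intro hh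
        refine ⟨hnorm ?_, M.2 (by linarith [hh.2.1])⟩
        rw [abs_of_neg ht]
        linarith [hh.2.1]

lemma near_one {T : ℝ → ℝ} (hz : T 0 = 0) (hd : HasDerivWithinAt T 1 (Ici 0) 0) (η : ℝ)
    (hη : 0 < η) : ∀ᶠ s : ℝ in 𝓝[>] 0, |T s - s| ≤ η * s := by
  have h1 := (hasDerivWithinAt_iff_isLittleO.1 hd).def hη
  rw [hz] at h1
  have h2 : ∀ᶠ s : ℝ in 𝓝[>] 0, ‖T s - 0 - (s - 0) • (1:ℝ)‖ ≤ η * ‖s - 0‖ :=
    h1.filter_mono (nhdsWithin_mono _ Ioi_subset_Ici_self)
  filter_upwards [h2, self_mem_nhdsWithin] with s hs hs0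
  have hs0' : (0:ℝ) < s := hs0
  simpa [abs_of_pos hs0'] using hs

lemma tendsto_ray (k : ℝ) (hk : 0 < k) : Tendsto (fun t : ℝ => t * k) (𝓝[>] 0) (𝓝[>] 0) := by
  rw [tendsto_nhdsWithin_iff]
  constructor
  · have : Continuous (fun t : ℝ => t * k) := by fun_prop
    have h := this.tendsto 0
    simp only [zero_mul] at h
    exact h.mono_left nhdsWithin_le_nhds
  · filter_upwards [self_mem_nhdsWithin] with t ht
    have : (0:ℝ) < t := ht
    exact mul_pos this hk

lemma small_ray (k e : ℝ) (he : 0 < e) : ∀ᶠ t : ℝ in 𝓝[>] 0, |t * k| < e := by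
  have : Continuous (fun t : ℝ => |t * k|) := by fun_prop
  have h := this.tendsto 0
  simp only [zero_mul, abs_zero] at h
  exact (h.eventually (gt_mem_nhds he)).filter_mono nhdsWithin_le_nhds

namespace Two

variable {D : Set ℂ} {δ : ℝ} {T₁ T₂ : ℝ → ℝ}

/-- the constant of the rays -/
lemma rays_in (h : Two D δ T₁ T₂) (a b : ℝ) (ha : 0 < a) (hb : 0 < b) :
    ∀ᶠ t : ℝ in 𝓝[>] 0, (1 : ℂ) + t * (a * vv₁ + b * vv₂) ∈ D := by
  have hr : (0:ℝ) < Real.sqrt 2 := by positivity
  have hδ := h.pos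
  set k := (a + b) / Real.sqrt 2 with hk
  set l := (a - b) / Real.sqrt 2 with hl
  have hkp : 0 < k := by positivity
  set η := min a b / (a + b) with hη
  have hηp : 0 < η := div_pos (lt_min ha hb) (by linarith)
  have hηa : η * k ≤ a / Real.sqrt 2 := by
    rw [hη, hk, div_mul_div_cancel₀ (by linarith : a + b ≠ 0)]
    gcongr
    exact min_le_left _ _
  have hηb : η * k ≤ b / Real.sqrt 2 := by
    rw [hη, hk, div_mul_div_cancel₀ (by linarith : a + b ≠ 0)]
    gcongr
    exact min_le_right _ _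
  have hkl : k = a / Real.sqrt 2 + b / Real.sqrt 2 := by rw [hk]; ring
  have hll : l = a / Real.sqrt 2 - b / Real.sqrt 2 := by rw [hl]; ring
  have pa : 0 < a / Real.sqrt 2 := by positivity
  have pb : 0 < b / Real.sqrt 2 := by positivity
  filter_upwards [(tendsto_ray k hkp).eventually (near_one h.z1 h.d1 η hηp),
    (tendsto_ray k hkp).eventually (near_one h.z2 h.d2 η hηp), small_ray k δ hδ,
    small_ray l (2 * δ) (by linarith), self_mem_nhdsWithin] with t h1 h2 h3 h4 h5
  have ht : (0:ℝ) < t := h5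
  rw [ray_pt, show t * (a + b) / Real.sqrt 2 = t * k by rw [hk]; ring,
    show t * (a - b) / Real.sqrt 2 = t * l by rw [hl]; ring, h.mem _ _ h3 h4]
  rw [abs_le] at h1 h2
  have e1 : t * (η * k) ≤ t * (a / Real.sqrt 2) := mul_le_mul_of_nonneg_left hηa ht.le
  have e2 : t * (η * k) ≤ t * (b / Real.sqrt 2) := mul_le_mul_of_nonneg_left hηb ht.le
  have e3 : 0 < t * (a / Real.sqrt 2) := mul_pos ht pa
  have e4 : 0 < t * (b / Real.sqrt 2) := mul_pos ht pb
  have e5 : t * k = t * (a / Real.sqrt 2) + t * (b / Real.sqrt 2) := by rw [hkl]; ring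
  have e6 : t * l = t * (a / Real.sqrt 2) - t * (b / Real.sqrt 2) := by rw [hll]; ring
  have e7 : η * (t * k) = t * (η * k) := by ring
  refine ⟨by positivity, ?_, ?_⟩
  · linarith [h2.1]
  · linarith [h1.1]

lemma rays_out (h : Two D δ T₁ T₂) (a b : ℝ) (hab : a < 0 ∨ b < 0) :
    ∀ᶠ t : ℝ in 𝓝[>] 0, (1 : ℂ) + t * (a * vv₁ + b * vv₂) ∉ closure D := by
  have hr : (0:ℝ) < Real.sqrt 2 := by positivity
  have hδ := h.pos
  set k := (a + b) / Real.sqrt 2 with hk
  set l := (a - b) / Real.sqrt 2 with hl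
  have hkl : k = a / Real.sqrt 2 + b / Real.sqrt 2 := by rw [hk]; ring
  have hll : l = a / Real.sqrt 2 - b / Real.sqrt 2 := by rw [hl]; ring
  have key : ∀ t : ℝ, |t * k| < δ → |t * l| < 2 * δ → (t * k < 0 ∨ (t * k = 0 ∧ t * l ≠ 0) ∨
      (0 < t * k ∧ (T₁ (t * k) < t * l ∨ t * l < -T₂ (t * k)))) →
      (1 : ℂ) + t * (a * vv₁ + b * vv₂) ∉ closure D := by
    intro t h3 h4 hh
    rw [ray_pt, show t * (a + b) / Real.sqrt 2 = t * k by rw [hk]; ring,
      show t * (a - b) / Real.sqrt 2 = t * l by rw [hl]; ring]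
    have e : 1 - (pt (t * k) (t * l)).re = t * k := by rw [pt_re]; ring
    apply h.notcl
    · rwa [e]
    · rwa [pt_im]
    · rw [e, pt_im]
      exact hh
  rcases lt_trichotomy k 0 with hk0 | hk0 | hk0
  · filter_upwards [small_ray k δ hδ, small_ray l (2 * δ) (by linarith), self_mem_nhdsWithin]
      with t h3 h4 h5
    have ht : (0:ℝ) < t := h5
    exact key t h3 h4 (Or.inl (by nlinarith))
  · have hl0 : l ≠ 0 := by
      intro hl0
      have e1 : a / Real.sqrt 2 = 0 := by linarith
      have e2 : b / Real.sqrt 2 = 0 := by linarith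
      rw [div_eq_zero_iff] at e1 e2
      rcases e1 with e1 | e1
      · rcases e2 with e2 | e2
        · rcases hab with hab | hab <;> linarith
        · linarith
      · linarith
    filter_upwards [small_ray k δ hδ, small_ray l (2 * δ) (by linarith), self_mem_nhdsWithin]
      with t h3 h4 h5
    have ht : (0:ℝ) < t := h5
    exact key t h3 h4 (Or.inr (Or.inl ⟨by rw [hk0]; simp, mul_ne_zero ht.ne' hl0⟩))
  · rcases hab with ha | hb
    · have pa : a / Real.sqrt 2 < 0 := div_neg_of_neg_of_pos ha hr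
      have pb : 0 < b / Real.sqrt 2 := by linarith
      set η := -(a / Real.sqrt 2) / k with hη
      have hηp : 0 < η := div_pos (by linarith) hk0
      have hηk : η * k = -(a / Real.sqrt 2) := by rw [hη]; field_simp
      filter_upwards [(tendsto_ray k hk0).eventually (near_one h.z2 h.d2 η hηp), small_ray k δ hδ,
        small_ray l (2 * δ) (by linarith), self_mem_nhdsWithin] with t h2 h3 h4 h5
      have ht : (0:ℝ) < t := h5
      refine key t h3 h4 (Or.inr (Or.inr ⟨by positivity, Or.inr ?_⟩))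
      rw [abs_le] at h2
      have e7 : η * (t * k) = t * -(a / Real.sqrt 2) := by rw [← hηk]; ring
      have e5 : t * k = t * (a / Real.sqrt 2) + t * (b / Real.sqrt 2) := by rw [hkl]; ring
      have e6 : t * l = t * (a / Real.sqrt 2) - t * (b / Real.sqrt 2) := by rw [hll]; ring
      have e3 : t * (a / Real.sqrt 2) < 0 := mul_neg_of_pos_of_neg ht pa
      linarith [h2.2]
    · have pb : b / Real.sqrt 2 < 0 := div_neg_of_neg_of_pos hb hr
      have pa : 0 < a / Real.sqrt 2 := by linarith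
      set η := -(b / Real.sqrt 2) / k with hη
      have hηp : 0 < η := div_pos (by linarith) hk0
      have hηk : η * k = -(b / Real.sqrt 2) := by rw [hη]; field_simp
      filter_upwards [(tendsto_ray k hk0).eventually (near_one h.z1 h.d1 η hηp), small_ray k δ hδ,
        small_ray l (2 * δ) (by linarith), self_mem_nhdsWithin] with t h2 h3 h4 h5
      have ht : (0:ℝ) < t := h5
      refine key t h3 h4 (Or.inr (Or.inr ⟨by positivity, Or.inl ?_⟩))
      rw [abs_le] at h2
      have e7 : η * (t * k) = t * -(b / Real.sqrt 2) := by rw [← hηk]; ring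
      have e5 : t * k = t * (a / Real.sqrt 2) + t * (b / Real.sqrt 2) := by rw [hkl]; ring
      have e6 : t * l = t * (a / Real.sqrt 2) - t * (b / Real.sqrt 2) := by rw [hll]; ring
      have e3 : t * (b / Real.sqrt 2) < 0 := mul_neg_of_pos_of_neg ht pb
      linarith [h2.2]

lemma one_mem_closure (h : Two D δ T₁ T₂) : (1:ℂ) ∈ closure D := by
  have h1 : Tendsto (fun s : ℝ => pt s 0) (𝓝[>] 0) (𝓝 1) := by
    have := (cont_pt' 0).tendsto 0
    have e : pt 0 0 = 1 := by simp [pt]
    rw [e] at this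
    exact this.mono_left nhdsWithin_le_nhds
  apply mem_closure_of_tendsto h1
  filter_upwards [Ioo_mem_nhdsGT h.pos] with s hs
  have hδ := h.pos
  rw [h.mem s 0 (by rw [abs_of_pos hs.1]; exact hs.2) (by rw [abs_zero]; linarith)]
  have b1 := h.b1 s hs.1 hs.2
  have b2 := h.b2 s hs.1 hs.2
  have := hs.1
  exact ⟨hs.1, by linarith, by linarith⟩

lemma not_mem_interior (D : Set ℂ) (w : ℂ) (h : w ∉ D) : w ∉ _root_.interior D :=
  fun h' => h (interior_subset h')

lemma one_not_mem (h : Two D δ T₁ T₂) : (1:ℂ) ∉ D := by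
  have e : (1:ℂ) = pt 0 0 := by simp [pt]
  have hδ := h.pos
  rw [e, h.mem 0 0 (by rw [abs_zero]; linarith) (by rw [abs_zero]; linarith)]
  intro hh
  exact lt_irrefl _ hh.1

lemma top_frontier (h : Two D δ T₁ T₂) {s : ℝ} (hs : 0 < s) (hs2 : s < δ) :
    pt s (T₁ s) ∈ frontier D := by
  have b1 := h.b1 s hs hs2
  have b2 := h.b2 s hs hs2
  have hsa : |s| < δ := by rw [abs_of_pos hs]; exact hs2
  constructor
  · have h1 : Tendsto (fun τ : ℝ => pt s τ) (𝓝[<] (T₁ s)) (𝓝 (pt s (T₁ s))) :=
      ((cont_pt s).tendsto _).mono_left nhdsWithin_le_nhds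
    apply mem_closure_of_tendsto h1
    filter_upwards [Ioo_mem_nhdsLT (show 0 < T₁ s by linarith)] with τ hτ
    rw [h.mem s τ hsa (by rw [abs_of_pos hτ.1]; linarith [hτ.2])]
    exact ⟨hs, by linarith [hτ.1], hτ.2⟩
  · apply not_mem_interior
    rw [h.mem s (T₁ s) hsa (by rw [abs_of_pos (by linarith)]; linarith)]
    intro hh
    exact lt_irrefl _ hh.2.2

lemma bot_frontier (h : Two D δ T₁ T₂) {s : ℝ} (hs : 0 < s) (hs2 : s < δ) :
    pt s (-T₂ s) ∈ frontier D := by
  have b1 := h.b1 s hs hs2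
  have b2 := h.b2 s hs hs2
  have hsa : |s| < δ := by rw [abs_of_pos hs]; exact hs2
  constructor
  · have h1 : Tendsto (fun τ : ℝ => pt s τ) (𝓝[>] (-T₂ s)) (𝓝 (pt s (-T₂ s))) :=
      ((cont_pt s).tendsto _).mono_left nhdsWithin_le_nhds
    apply mem_closure_of_tendsto h1
    filter_upwards [Ioo_mem_nhdsGT (show -T₂ s < 0 by linarith)] with τ hτ
    rw [h.mem s τ hsa (by rw [abs_of_neg hτ.2]; linarith [hτ.1])]
    exact ⟨hs, hτ.1, by linarith [hτ.2]⟩
  · apply not_mem_interior
    rw [h.mem s (-T₂ s) hsa (by rw [abs_neg, abs_of_pos (by linarith)]; linarith)]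
    intro hh
    exact lt_irrefl _ hh.2.1

lemma one_frontier (h : Two D δ T₁ T₂) : (1:ℂ) ∈ frontier D :=
  ⟨h.one_mem_closure, not_mem_interior _ _ h.one_not_mem⟩

theorem corner (h : Two D δ T₁ T₂) : IsRightCorner D 1 := by
  have hδ := h.pos
  have hr : (0:ℝ) < Real.sqrt 2 := by positivity
  have hr2 : Real.sqrt 2 ≠ 0 := hr.ne'
  refine ⟨h.one_frontier, arc δ T₁, arc δ (fun s => -T₂ s), vv₁, vv₂,
    arc_isArc hδ h.z1 h.c1, arc_isArc hδ (by simp [h.z2]) h.c2.neg, ?_, ?_, vv_norm1, vv_norm2,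
    ?_, ?_, ?_, ?_, ?_⟩
  · -- intersection
    ext w
    constructor
    · rintro ⟨⟨t, ht, rfl⟩, ⟨t', ht', h2⟩⟩
      have e1 := congrArg Complex.re h2
      have e2 := congrArg Complex.im h2
      unfold arc at e1 e2
      rw [pt_re, pt_re] at e1
      rw [pt_im, pt_im] at e2
      have e3 : δ / 2 * t' = δ / 2 * t := by linarith
      rw [e3] at e2
      rcases ht.1.eq_or_lt with h0 | h0
      · rw [← h0]
        simp [arc, h.z1, pt]
      · exfalso
        have p1 : 0 < δ / 2 * t := by positivity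
        have p2 : δ / 2 * t < δ := by nlinarith [ht.2]
        have b1 := h.b1 _ p1 p2
        have b2 := h.b2 _ p1 p2
        linarith
    · intro hw
      rw [mem_singleton_iff] at hw
      subst hw
      exact ⟨⟨0, by simp, by simp [arc, h.z1, pt]⟩, ⟨0, by simp, by simp [arc, h.z2, pt]⟩⟩
  · -- frontier
    refine ⟨{w | |1 - w.re| < δ / 2 ∧ |w.im| < δ}, ?_, ?_⟩
    · have e1 : ∀ᶠ w' in 𝓝 (1:ℂ), |1 - w'.re| < δ / 2 :=
        (cs.abs.continuousAt (x := 1)).eventually (gt_mem_nhds (by simpa using hδ))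
      have e2 : ∀ᶠ w' in 𝓝 (1:ℂ), |w'.im| < δ :=
        (Complex.continuous_im.abs.continuousAt (x := 1)).eventually (gt_mem_nhds (by simpa using hδ))
      exact e1.and e2
    · ext w
      constructor
      · rintro ⟨hw, hU⟩
        refine ⟨?_, hU⟩
        have h1 : |1 - w.re| < δ := by linarith [hU.1]
        have h2 : |w.im| < 2 * δ := by linarith [hU.2]
        have hs0 : 0 ≤ 1 - w.re := by
          by_contra hc
          push Not at hc
          exact h.notcl w h1 h2 (Or.inl hc) hw.1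
        rcases hs0.eq_or_lt with h0 | h0
        · have him : w.im = 0 := by
            by_contra hc
            exact h.notcl w h1 h2 (Or.inr (Or.inl ⟨h0.symm, hc⟩)) hw.1
          left
          refine ⟨0, by simp, ?_⟩
          apply Complex.ext
          · unfold arc
            rw [pt_re]
            simp
            linarith
          · unfold arc
            rw [pt_im]
            simp [h.z1, him]
        · have hs2 : 1 - w.re < δ := (abs_lt.1 h1).2
          have hs3 : 1 - w.re < δ / 2 := (abs_lt.1 hU.1).2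
          have k1 : w.im ≤ T₁ (1 - w.re) := by
            by_contra hc
            push Not at hc
            exact h.notcl w h1 h2 (Or.inr (Or.inr ⟨h0, Or.inl hc⟩)) hw.1
          have k2 : -T₂ (1 - w.re) ≤ w.im := by
            by_contra hc
            push Not at hc
            exact h.notcl w h1 h2 (Or.inr (Or.inr ⟨h0, Or.inr hc⟩)) hw.1
          have hnD : w ∉ D := fun hD => hw.2 (h.interior w h1 h2 hD)
          rw [h.mem' w h1 h2] at hnD
          have ht : (1 - w.re) / (δ / 2) ∈ Icc (0:ℝ) 1 :=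
            ⟨by positivity, (div_le_one (by positivity)).2 hs3.le⟩
          have hts : δ / 2 * ((1 - w.re) / (δ / 2)) = 1 - w.re := by field_simp
          rcases k1.eq_or_lt with k1 | k1
          · left
            refine ⟨(1 - w.re) / (δ / 2), ht, ?_⟩
            unfold arc
            rw [hts, ← k1, pt_coord]
          · rcases k2.eq_or_lt with k2 | k2
            · right
              refine ⟨(1 - w.re) / (δ / 2), ht, ?_⟩
              unfold arc
              rw [hts]
              show pt (1 - w.re) (-T₂ (1 - w.re)) = w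
              rw [k2, pt_coord]
            · exact absurd ⟨h0, k2, k1⟩ hnD
      · rintro ⟨hw, hU⟩
        refine ⟨?_, hU⟩
        rcases hw with ⟨t, ht, rfl⟩ | ⟨t, ht, rfl⟩
        · rcases ht.1.eq_or_lt with h0 | h0
          · rw [← h0]
            have : arc δ T₁ 0 = 1 := by simp [arc, h.z1, pt]
            rw [this]
            exact h.one_frontier
          · have p1 : 0 < δ / 2 * t := by positivity
            have p2 : δ / 2 * t < δ := by nlinarith [ht.2]
            exact h.top_frontier p1 p2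
        · rcases ht.1.eq_or_lt with h0 | h0
          · rw [← h0]
            have : arc δ (fun s => -T₂ s) 0 = 1 := by simp [arc, h.z2, pt]
            rw [this]
            exact h.one_frontier
          · have p1 : 0 < δ / 2 * t := by positivity
            have p2 : δ / 2 * t < δ := by nlinarith [ht.2]
            exact h.bot_frontier p1 p2
  · refine ⟨δ / 2 * Real.sqrt 2, by positivity, ?_⟩
    rw [arc_deriv hδ h.d1]
    unfold vv₁
    have : ((Real.sqrt 2 : ℝ) : ℂ) ≠ 0 := by exact_mod_cast hr2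
    push_cast
    field_simp
  · refine ⟨δ / 2 * Real.sqrt 2, by positivity, ?_⟩
    have hd2 : HasDerivWithinAt (fun s => -T₂ s) (-1) (Ici 0) 0 := h.d2.neg
    rw [arc_deriv hδ hd2]
    unfold vv₂
    have : ((Real.sqrt 2 : ℝ) : ℂ) ≠ 0 := by exact_mod_cast hr2
    push_cast
    field_simp
    ring
  · unfold vv₁ vv₂
    simp
  · intro a b ha hb
    exact h.rays_in a b ha hb
  · intro a b hab
    exact h.rays_out a b hab

end Two

theorem t_arcs : S_arcs := by
  intro D f g a C0 d hd hg hf h0 ha he hD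
  obtain ⟨δ, T₁, T₂, h⟩ := exists_two ⟨hd, hg, hf, h0, ha, he⟩ hD
  exact h.corner

end Pool.Agent.H682_VS
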