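import Pool.Agent.H682_VS.Stmts

/-! # Assembly of the main statements from the parts -/

set_option autoImplicit false

open MeasureTheory Set Filter Topology

namespace Pool.Agent.H682_VS

theorem strip_of (hex : S_exist) (hsh : S_shallow) (hco : S_core) (hfo : S_force) (hun : S_unif)
    (hli : S_limit) (hka : S_kap) : S_strip := by
  obtain ⟨lam0, hlam0, eta1, heta1, e1, he1, hsh⟩ := hsh
  obtain ⟨H, t, ht3, htH, m0, e0, hm0, he0, hco⟩ := hco lam0 eta1 hlam0 heta1
  obtain ⟨c5, hc5, m1, hm1, hfo⟩ := hfo lam0 H t hlam0 ht3 htH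
  obtain ⟨C, hC⟩ := hka
  obtain ⟨m, hm⟩ := exists_nat_ge (max (max m0 m1) (C * H / (2 * Real.pi) + 1))
  have hm0' : m0 ≤ (m : ℝ) := le_trans (le_trans (le_max_left _ _) (le_max_left _ _)) hm
  have hm1' : m1 ≤ (m : ℝ) := le_trans (le_trans (le_max_right _ _) (le_max_left _ _)) hm
  have hm2' : C * H / (2 * Real.pi) + 1 ≤ (m : ℝ) := le_trans (le_max_right _ _) hm
  have h6 : (6 : ℝ) ≤ m := hm0.trans hm0'
  have hmR : (1 : ℝ) ≤ m := by linarith
  have hH : 0 < H := by linarith
  obtain ⟨e2, he2, hfo⟩ := hfo m hm1'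
  obtain ⟨c7, hc7, e3, he3, hun⟩ := hun m H c5 hmR hH hc5
  obtain ⟨hcond, hco⟩ := hco m hm0'
  have hmin : 0 < min (min e0 e1) (min (min e2 e3) 1) := by positivity
  obtain ⟨σ, hσ⟩ := hli m H c7 (min (min e0 e1) (min (min e2 e3) 1)) hmR hH hc7 hmin (by
    intro ε hε hle
    have h0 : ε ≤ e0 := hle.trans ((min_le_left _ _).trans (min_le_left _ _))
    have h1 : ε ≤ e1 := hle.trans ((min_le_left _ _).trans (min_le_right _ _))
    have h2 : ε ≤ e2 := hle.trans ((min_le_right _ _).trans ((min_le_left _ _).trans (min_le_left _ _)))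
    have h3 : ε ≤ e3 := hle.trans ((min_le_right _ _).trans ((min_le_left _ _).trans (min_le_right _ _)))
    have h4 : ε ≤ 1 := hle.trans ((min_le_right _ _).trans (min_le_right _ _))
    obtain ⟨σ, hσ⟩ := hex m H ε hmR hH hε h4
    have hmass := hsh m H ε t σ h6 ht3 htH hε h1 h4 hσ hcond
    have hcore := hco ε σ hε h0 h4 hσ hmass
    have hforce := hfo ε σ hε h2 h4 hσ hmass
    exact ⟨σ, hσ, hun ε σ hε h3 h4 hσ hforce, hcore⟩)
  refine ⟨m, H, c7, σ, by exact_mod_cast hmR, hH, hc7, hσ, ?_⟩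
  have hk := hC m H σ hmR hH hσ.meas (fun s x => by
    rw [hσ.eq s x]
    split_ifs <;> norm_num)
  have hpi := Real.pi_pos
  have : C * H / (2 * Real.pi) < m := by linarith
  rw [div_lt_iff₀ (by positivity)] at this
  linarith

theorem corner_of (hps : S_psi) (hgr : S_grad) (hbl : S_blow) (har : S_arcs) : S_corner := by
  intro D Ω c c1 d hD
  have hbdd : Bornology.IsBounded D := Metric.isBounded_ball.subset hD.sub
  obtain ⟨hder, hcont⟩ := hps D hD.meas hbdd
  obtain ⟨C0, hC0, hg⟩ := hgr D hD.meas hD.sub hD.sym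
  have hblow := hbl D Ω c c1 d hD
  -- `cau D 1` is real
  have hreal : (cau D 1) = ((2 * Real.pi * Ω : ℝ) : ℂ) := by
    have hpi := Real.pi_pos
    have him : (cau D 1).im = 0 := by
      have h1 : (starRingEnd ℂ) (cau D 1) = cau D 1 := by
        unfold cau
        have hpre : (fun y : ℂ => (starRingEnd ℂ) y) ⁻¹' D = D := by
          ext y
          exact (hD.sym y).symm
        have hmp : MeasurePreserving (fun y : ℂ => (starRingEnd ℂ) y) volume volume :=
          Complex.conjLIE.measurePreserving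
        have hemb : MeasurableEmbedding (fun y : ℂ => (starRingEnd ℂ) y) :=
          Complex.conjLIE.toHomeomorph.measurableEmbedding
        have h2 := hmp.setIntegral_preimage_emb hemb (fun y : ℂ => ((1:ℂ) - y)⁻¹) D
        rw [hpre] at h2
        rw [← integral_conj, ← h2]
        refine integral_congr_ae (ae_of_all _ fun y => ?_)
        simp
      rw [← Complex.conj_eq_iff_im]
      exact h1
    apply Complex.ext
    · rw [Complex.ofReal_re]
      have := hD.grad
      field_simp at this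
      linarith
    · rw [him, Complex.ofReal_im]
  set f : ℂ → ℝ := fun w => -psi D w + Ω / 2 * ‖w‖ ^ 2 - c with hf
  set g : ℂ → ℂ := fun w => -(1 / (2 * Real.pi) : ℂ) * cau D w + Ω * (starRingEnd ℂ) w with hgdef
  refine har D f g (aD D) (C0 + Ω) (min (2 * d) (1/2)) (by have := hD.dpos; positivity) ?_ ?_ ?_ hblow ?_ ?_
  · exact (continuous_const.mul hcont).add (continuous_const.mul Complex.continuous_conj)
  · intro w
    have h1 := (hder w).neg
    have h2 : HasFDerivAt (fun w : ℂ => Ω / 2 * ‖w‖ ^ 2)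
        ((Ω / 2) • (2 • (innerSL ℝ w))) w := by
      have := (hasStrictFDerivAt_norm_sq w).hasFDerivAt (𝕜 := ℝ)
      exact this.const_mul (Ω / 2)
    have h3 := (h1.add h2).sub_const c
    refine (h3.congr_fderiv ?_)
    ext z
    · simp [hgdef, Complex.inner, innerSL_apply_apply]
      try ring
  · simp only [hf]
    have := hD.val
    simpa using this
  · intro w hw
    have hw2 : ‖w - 1‖ ≤ 1 / 2 := (hw.trans_le (min_le_right _ _)).le
    have h1 := hg w hw2
    have heq : g w - (aD D ‖w - 1‖ : ℂ) * (w - 1)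
        = (-(1 / (2 * Real.pi) : ℂ) * (cau D w - cau D 1) - (aD D ‖w - 1‖ : ℂ) * (w - 1))
          + Ω * (starRingEnd ℂ) (w - 1) := by
      simp only [hgdef, map_sub, map_one]
      rw [hreal]
      have hpi : (Real.pi : ℂ) ≠ 0 := by exact_mod_cast Real.pi_ne_zero
      push_cast
      field_simp
      ring
    rw [heq]
    refine (norm_add_le _ _).trans ?_
    rw [norm_mul, Complex.norm_real, RCLike.norm_conj, Real.norm_eq_abs, abs_of_pos hD.Ωpos]
    linarith
  · intro w hw
    have hw2 : ‖w - 1‖ < 2 * d := hw.trans_le (min_le_left _ _)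
    exact hD.loc w hw2

theorem final_of (hst : S_strip) (hvs : S_vstate) (hco : S_corner) : S_final := by
  obtain ⟨m, H, c, σ, hm, hH, hc, hF, hk⟩ := hst
  obtain ⟨hV, c0, c1, d, hC⟩ := hvs m H c σ hm hH hc hF hk
  exact ⟨_, _, 1, hV, hco _ _ _ _ _ hC⟩

end Pool.Agent.H682_VS
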