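import Pool.Agent.H682_VS.Stmts

/-! # the step function -/

set_option autoImplicit false

open MeasureTheory Set Filter Topology

namespace Pool.Agent.H682_VS

lemma cl_nonneg (t : ℝ) : 0 ≤ cl t := le_max_left _ _

lemma cl_le_one (t : ℝ) : cl t ≤ 1 := by
  unfold cl
  exact max_le zero_le_one (min_le_right _ _)

lemma cl_of_nonpos {t : ℝ} (h : t ≤ 0) : cl t = 0 := by
  unfold cl
  rw [max_eq_left]
  exact (min_le_left _ _).trans h

lemma cl_of_one_le {t : ℝ} (h : 1 ≤ t) : cl t = 1 := by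
  unfold cl
  rw [min_eq_right h, max_eq_right zero_le_one]

lemma cl_of_mem {t : ℝ} (h0 : 0 ≤ t) (h1 : t ≤ 1) : cl t = t := by
  unfold cl
  rw [min_eq_left h1, max_eq_right h0]

lemma cl_mono : Monotone cl := by
  intro a b h
  unfold cl
  exact max_le_max le_rfl (min_le_min h le_rfl)

lemma cl_continuous : Continuous cl := by
  unfold cl
  fun_prop

lemma bet_continuous : Continuous bet := by
  have := cl_continuous
  unfold bet
  fun_prop

lemma dbet_continuous : Continuous dbet := by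
  have := cl_continuous
  unfold dbet
  fun_prop

lemma bet_of_nonpos {t : ℝ} (h : t ≤ 0) : bet t = 0 := by
  unfold bet
  rw [cl_of_nonpos h]
  norm_num

lemma bet_of_one_le {t : ℝ} (h : 1 ≤ t) : bet t = 1 := by
  unfold bet
  rw [cl_of_one_le h]
  norm_num

lemma dbet_nonneg (t : ℝ) : 0 ≤ dbet t := by
  unfold dbet
  have h0 := cl_nonneg t
  have h1 := cl_le_one t
  have : 0 ≤ 1 - cl t := by linarith
  positivity

lemma dbet_le (t : ℝ) : dbet t ≤ 3 / 2 := by
  unfold dbet
  nlinarith [sq_nonneg (cl t - 1 / 2)]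

lemma dbet_of_nonpos {t : ℝ} (h : t ≤ 0) : dbet t = 0 := by
  unfold dbet
  rw [cl_of_nonpos h]
  norm_num

lemma dbet_of_one_le {t : ℝ} (h : 1 ≤ t) : dbet t = 0 := by
  unfold dbet
  rw [cl_of_one_le h]
  norm_num

lemma bet_mono : Monotone bet := by
  intro a b h
  have h0 := cl_nonneg a
  have h1 := cl_le_one b
  have h2 := cl_mono h
  unfold bet
  have e : (3 * cl b ^ 2 - 2 * cl b ^ 3) - (3 * cl a ^ 2 - 2 * cl a ^ 3)
      = (cl b - cl a) * (3 * (cl a + cl b) - 2 * (cl a ^ 2 + cl a * cl b + cl b ^ 2)) := by ring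
  have h3 : 0 ≤ 3 * (cl a + cl b) - 2 * (cl a ^ 2 + cl a * cl b + cl b ^ 2) := by
    nlinarith [mul_nonneg h0 (by linarith : 0 ≤ 1 - cl a), mul_nonneg (h0.trans h2) (by linarith : 0 ≤ 1 - cl b), mul_nonneg h0 (by linarith : 0 ≤ 1 - cl b)]
  have := mul_nonneg (sub_nonneg.2 h2) h3
  linarith

lemma bet_nonneg (t : ℝ) : 0 ≤ bet t := by
  unfold bet
  have h0 := cl_nonneg t
  have h1 := cl_le_one t
  nlinarith [mul_nonneg (sq_nonneg (cl t)) (by linarith : 0 ≤ 1 - cl t), sq_nonneg (cl t)]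

lemma bet_le_one (t : ℝ) : bet t ≤ 1 := by
  unfold bet
  have h0 := cl_nonneg t
  have h1 := cl_le_one t
  have : 1 - (3 * cl t ^ 2 - 2 * cl t ^ 3) = (1 - cl t) ^ 2 * (1 + 2 * cl t) := by ring
  nlinarith [mul_nonneg (sq_nonneg (1 - cl t)) (by linarith : 0 ≤ 1 + 2 * cl t)]

lemma bet_hasDerivAt (t : ℝ) : HasDerivAt bet (dbet t) t := by
  have hpoly : ∀ t : ℝ, HasDerivAt (fun t : ℝ => 3 * t ^ 2 - 2 * t ^ 3) (6 * t * (1 - t)) t := by
    intro t
    have h1 := (((hasDerivAt_id t).pow 2).const_mul 3).sub (((hasDerivAt_id t).pow 3).const_mul 2)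
    refine h1.congr_deriv ?_
    simp only [id]
    norm_num
    ring
  rcases lt_trichotomy t 0 with h | h | h
  · rw [dbet_of_nonpos h.le]
    refine (hasDerivAt_const t (0:ℝ)).congr_of_eventuallyEq ?_
    filter_upwards [Iio_mem_nhds h] with x hx
    exact bet_of_nonpos (le_of_lt hx)
  · subst h
    rw [dbet_of_nonpos le_rfl]
    have hl : HasDerivWithinAt bet 0 (Iic 0) 0 := by
      refine (hasDerivWithinAt_const (0:ℝ) (Iic 0) (0:ℝ)).congr ?_ (bet_of_nonpos le_rfl)
      intro x hx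
      exact bet_of_nonpos hx
    have hr : HasDerivWithinAt bet 0 (Ici 0) 0 := by
      have h1 : HasDerivWithinAt (fun t : ℝ => 3 * t ^ 2 - 2 * t ^ 3) 0 (Ici 0) 0 := by
        simpa using (hpoly 0).hasDerivWithinAt (s := Ici 0)
      refine h1.congr_of_eventuallyEq ?_ (by rw [bet_of_nonpos le_rfl]; norm_num)
      filter_upwards [self_mem_nhdsWithin, mem_nhdsWithin_of_mem_nhds (Iio_mem_nhds zero_lt_one)]
        with x hx hx1
      unfold bet
      rw [cl_of_mem hx (le_of_lt hx1)]
    simpa using hl.union hr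
  · rcases lt_trichotomy t 1 with h' | h' | h'
    · have : dbet t = 6 * t * (1 - t) := by
        unfold dbet
        rw [cl_of_mem h.le h'.le]
      rw [this]
      refine (hpoly t).congr_of_eventuallyEq ?_
      filter_upwards [Ioo_mem_nhds h h'] with x hx
      unfold bet
      rw [cl_of_mem hx.1.le hx.2.le]
    · subst h'
      rw [dbet_of_one_le le_rfl]
      have hr : HasDerivWithinAt bet 0 (Ici 1) 1 := by
        refine (hasDerivWithinAt_const (1:ℝ) (Ici 1) (1:ℝ)).congr ?_ (bet_of_one_le le_rfl)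
        intro x hx
        exact bet_of_one_le hx
      have hl : HasDerivWithinAt bet 0 (Iic 1) 1 := by
        have h1 : HasDerivWithinAt (fun t : ℝ => 3 * t ^ 2 - 2 * t ^ 3) 0 (Iic 1) 1 := by
          simpa using (hpoly 1).hasDerivWithinAt (s := Iic 1)
        refine h1.congr_of_eventuallyEq ?_ (by rw [bet_of_one_le le_rfl]; norm_num)
        filter_upwards [self_mem_nhdsWithin, mem_nhdsWithin_of_mem_nhds (Ioi_mem_nhds zero_lt_one)]
          with x hx hx1
        unfold bet
        rw [cl_of_mem (le_of_lt hx1) hx]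
      simpa using hl.union hr
    · rw [dbet_of_one_le h'.le]
      refine (hasDerivAt_const t (1:ℝ)).congr_of_eventuallyEq ?_
      filter_upwards [Ioi_mem_nhds h'] with x hx
      exact bet_of_one_le (le_of_lt hx)

lemma bet_lip (a b : ℝ) : |bet a - bet b| ≤ 3 / 2 * |a - b| := by
  have h := Convex.norm_image_sub_le_of_norm_hasDerivWithin_le (f := bet) (f' := dbet) (s := univ)
    (C := 3 / 2) (x := b) (y := a) (fun x _ => (bet_hasDerivAt x).hasDerivWithinAt)
    (fun x _ => by rw [Real.norm_eq_abs, abs_of_nonneg (dbet_nonneg x)]; exact dbet_le x)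
    convex_univ (mem_univ _) (mem_univ _)
  simpa [Real.norm_eq_abs] using h

end Pool.Agent.H682_VS
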