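import Mathlib

/-!
# V-states with right-angle corners: definitions (MP_539ca6_an)

Log-polar coordinates `w = exp ((-s + i x)/m)`; the point `p = 1` is `s = x = 0`.
-/

set_option autoImplicit false

open MeasureTheory Set Filter Topology

namespace Pool.Agent.H682_VS

/-- `cosh u - cos v` -/
noncomputable def q (u v : ℝ) : ℝ := Real.cosh u - Real.cos v

/-- `∂_u log q` -/
noncomputable def h1 (u v : ℝ) : ℝ := Real.sinh u / q u v

/-- `∂_v log q` -/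
noncomputable def h2 (u v : ℝ) : ℝ := Real.sin v / q u v

/-- area weight of log-polar coordinates -/
noncomputable def om (m s : ℝ) : ℝ := Real.exp (-(2 * s / m))

/-- the primitive of `om m` vanishing at `0` -/
noncomputable def Am (m s : ℝ) : ℝ := m / 2 * (1 - Real.exp (-(2 * s / m)))

/-- the forcing term -/
noncomputable def hf (m s x : ℝ) : ℝ := Real.exp (-s) * Real.cos x - 1 + Am m s

/-- the kernel, symmetrised in `x'` -/
noncomputable def ker (m s x s' x' : ℝ) : ℝ :=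
  Real.log (q (s - s') (x - x')) + Real.log (q (s - s') (x + x')) - 2 * Real.log (q s' x')
    + 2 * (Am m s * (1 + h1 s' x') - s)

/-- the normalised potential of the density `om m * σ` on `(0,H) × (0,π)` (and its mirror image):
value and gradient vanish at `(0,0)` -/
noncomputable def Lop (m H : ℝ) (σ : ℝ → ℝ → ℝ) (s x : ℝ) : ℝ :=
  (1 / (4 * Real.pi)) * ∫ s' in (0:ℝ)..H, om m s' *
    ∫ x' in (0:ℝ)..Real.pi, σ s' x' * ker m s x s' x'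

/-- `∂_x Lop` -/
noncomputable def Lx (m H : ℝ) (σ : ℝ → ℝ → ℝ) (s x : ℝ) : ℝ :=
  (1 / (4 * Real.pi)) * ∫ s' in (0:ℝ)..H, om m s' *
    ∫ x' in (0:ℝ)..Real.pi, σ s' x' * (h2 (s - s') (x - x') + h2 (s - s') (x + x'))

/-- `∂_s Lop` -/
noncomputable def Ls (m H : ℝ) (σ : ℝ → ℝ → ℝ) (s x : ℝ) : ℝ :=
  (1 / (4 * Real.pi)) * ∫ s' in (0:ℝ)..H, om m s' *
    ∫ x' in (0:ℝ)..Real.pi, σ s' x' * (h1 (s - s') (x - x') + h1 (s - s') (x + x')
      + 2 * om m s * (1 + h1 s' x') - 2)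

/-- bounded measurable data -/
structure Dat (B : ℝ) (σ : ℝ → ℝ → ℝ) : Prop where
  meas : Measurable (Function.uncurry σ)
  bdd : ∀ s x, |σ s x| ≤ B

/-- `t` clamped to `[0,1]` -/
noncomputable def cl (t : ℝ) : ℝ := max 0 (min t 1)

/-- the `C¹` step: `0` for `t ≤ 0`, `1` for `t ≥ 1` -/
noncomputable def bet (t : ℝ) : ℝ := 3 * cl t ^ 2 - 2 * cl t ^ 3

/-- derivative of `bet` -/
noncomputable def dbet (t : ℝ) : ℝ := 6 * cl t * (1 - cl t)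

/-- the relative stream function of the regularised problem -/
noncomputable def Fe (m H ε : ℝ) (σ : ℝ → ℝ → ℝ) (s x : ℝ) : ℝ :=
  Lop m H σ s x + ε * hf m s x

/-- `- ∂_x Fe` -/
noncomputable def We (m H ε : ℝ) (σ : ℝ → ℝ → ℝ) (s x : ℝ) : ℝ :=
  - Lx m H σ s x + ε * (Real.exp (-s) * Real.sin x)

/-- `∂_s Fe` -/
noncomputable def Fs (m H ε : ℝ) (σ : ℝ → ℝ → ℝ) (s x : ℝ) : ℝ :=
  Ls m H σ s x + ε * (-(Real.exp (-s) * Real.cos x) + om m s)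

/-- `- ∂_x σ` up to sign: for a solution `σ = 1 - bet (Fe/ε)` one has `∂_x σ = sx` -/
noncomputable def sx (m H ε : ℝ) (σ : ℝ → ℝ → ℝ) (s x : ℝ) : ℝ :=
  dbet (Fe m H ε σ s x / ε) / ε * We m H ε σ s x

/-- solution of the regularised problem -/
structure Sol (m H ε : ℝ) (σ : ℝ → ℝ → ℝ) : Prop where
  eq : ∀ s x, σ s x = 1 - bet (Fe m H ε σ s x / ε)
  cont : Continuous (Function.uncurry σ)
  anti : ∀ s ∈ Icc (0:ℝ) H, AntitoneOn (fun x => Fe m H ε σ s x) (Icc 0 Real.pi)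

/-- solution of the limit problem: `σ` is the indicator of `{Lop σ < 0}` -/
structure Fix (m H c : ℝ) (σ : ℝ → ℝ → ℝ) : Prop where
  meas : Measurable (Function.uncurry σ)
  eq : ∀ s x, σ s x = if Lop m H σ s x < 0 then 1 else 0
  lb : ∀ s ∈ Icc (0:ℝ) H, ∀ x1 x2 : ℝ, 0 ≤ x1 → x1 ≤ x2 → x2 ≤ Real.pi →
    c * (Real.cos x1 - Real.cos x2) ≤ Lop m H σ s x1 - Lop m H σ s x2
  core : 0 < Lop m H σ H Real.pi

/-- `4 π m (1/2 - Ω)` -/
noncomputable def kap (m H : ℝ) (σ : ℝ → ℝ → ℝ) : ℝ :=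
  ∫ s' in (0:ℝ)..H, om m s' * ∫ x' in (0:ℝ)..Real.pi, σ s' x' * (2 * (1 + h1 s' x'))

/-! ### The plane -/

/-- `(1/2π) log|·| * 1_D` -/
noncomputable def psi (D : Set ℂ) (w : ℂ) : ℝ :=
  (1 / (2 * Real.pi)) * ∫ y in D, Real.log ‖w - y‖

/-- the planar domain of a solution of the limit problem -/
def Dom (m H : ℝ) (σ : ℝ → ℝ → ℝ) : Set ℂ :=
  {w | ‖w‖ < 1 ∧ (‖w‖ < Real.exp (-(H / m)) ∨
    0 < Lop m H σ (-(m * Real.log ‖w‖)) (m * Complex.arg w))}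

/-- V-state: bounded open set which rotates uniformly with angular velocity `Ω` -/
structure IsVState (D : Set ℂ) (Ω : ℝ) : Prop where
  isOpen : IsOpen D
  bounded : Bornology.IsBounded D
  nonempty : D.Nonempty
  const_on_components : ∀ x ∈ frontier D, ∀ y ∈ connectedComponentIn (frontier D) x,
    psi D y - Ω / 2 * ‖y‖ ^ 2 = psi D x - Ω / 2 * ‖x‖ ^ 2

/-- a `C¹` arc `γ : [0,1] → ℂ` that ends at `p = γ 0` -/
structure IsArc (γ : ℝ → ℂ) (p : ℂ) : Prop where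
  c1 : ContDiffOn ℝ 1 γ (Icc 0 1)
  inj : InjOn γ (Icc 0 1)
  reg : ∀ t ∈ Icc (0:ℝ) 1, derivWithin γ (Icc 0 1) t ≠ 0
  start : γ 0 = p

/-- `p` is a 90-degree corner of `D`: near `p` the boundary is the union of two `C¹` arcs that end
at `p` and have nothing else in common, whose unit tangent vectors at `p` are orthogonal, and `D` is
on the side of the quadrant between them. -/
def IsRightCorner (D : Set ℂ) (p : ℂ) : Prop :=
  p ∈ frontier D ∧ ∃ (γ₁ γ₂ : ℝ → ℂ) (v₁ v₂ : ℂ), IsArc γ₁ p ∧ IsArc γ₂ p ∧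
    γ₁ '' Icc 0 1 ∩ γ₂ '' Icc 0 1 = {p} ∧
    (∃ U ∈ 𝓝 p, frontier D ∩ U = (γ₁ '' Icc 0 1 ∪ γ₂ '' Icc 0 1) ∩ U) ∧
    ‖v₁‖ = 1 ∧ ‖v₂‖ = 1 ∧
    (∃ l₁ > (0:ℝ), derivWithin γ₁ (Icc 0 1) 0 = l₁ * v₁) ∧
    (∃ l₂ > (0:ℝ), derivWithin γ₂ (Icc 0 1) 0 = l₂ * v₂) ∧
    (v₁ * (starRingEnd ℂ) v₂).re = 0 ∧
    (∀ a b : ℝ, 0 < a → 0 < b → ∀ᶠ t : ℝ in 𝓝[>] 0, p + t * (a * v₁ + b * v₂) ∈ D) ∧
    (∀ a b : ℝ, a < 0 ∨ b < 0 → ∀ᶠ t : ℝ in 𝓝[>] 0, p + t * (a * v₁ + b * v₂) ∉ closure D)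

end Pool.Agent.H682_VS
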