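import Pool.Agent.H682_VS.Stmts

/-! # polar -/

set_option autoImplicit false

open MeasureTheory Set Filter Topology

namespace Pool.Agent.H682_VS


/- TARGET, proof in plain words:
Radial integrals in the plane.  Translate to c = 0 (MeasureTheory.integral_sub_right_eq_self / measure preserving translation) and use polar coordinates:
either `Complex.integral_comp_polarCoord_symm` or the general radial formula `MeasureTheory.integral_fun_norm_addHaar`
(Mathlib/MeasureTheory/Constructions/HaarToSphere.lean): ∫ f(‖x‖) dx = dim * vol(ball 0 1) * ∫_0^∞ y^(dim-1) f(y) dy, here dim = 2, vol(ball 0 1) = π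
(Complex.volume_ball), and its integrability companion `MeasureTheory.integrable_fun_norm_addHaar`.
P1: ∫_0^ρ r·(1/r) dr = ρ.  P2: ∫_ρ^∞ r·r^{-3} dr = 1/ρ.  P3: ∫_ρ^R r·r^{-2} dr = log(R/ρ).  P4: r |log r| is bounded on (0,R].
The four theorems are the TARGET.
-/

namespace Auxpolar

lemma finrankC : Module.finrank ℝ ℂ = 2 := Complex.finrank_real_complex

lemma integrableOn_rad (c : ℂ) (T : Set ℝ) (hT : MeasurableSet T) (f : ℝ → ℝ) :
    IntegrableOn (fun y : ℂ => f ‖y - c‖) {y : ℂ | ‖y - c‖ ∈ T} ↔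
      IntegrableOn (fun r : ℝ => r * f r) (T ∩ Ioi 0) := by
  have hS : MeasurableSet {y : ℂ | ‖y - c‖ ∈ T} := by
    have hm : Measurable fun y : ℂ => ‖y - c‖ := by fun_prop
    exact hm hT
  rw [← integrable_indicator_iff hS]
  have e1 : ({y : ℂ | ‖y - c‖ ∈ T}.indicator fun y : ℂ => f ‖y - c‖) =
      fun y : ℂ => (fun z : ℂ => T.indicator f ‖z‖) (y - c) := by
    funext y
    by_cases h : ‖y - c‖ ∈ T
    · simp [indicator, h]
    · simp [indicator, h]
  have htr : Integrable (fun y : ℂ => (fun z : ℂ => T.indicator f ‖z‖) (y - c)) volume ↔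
      Integrable (fun z : ℂ => T.indicator f ‖z‖) volume :=
    (measurePreserving_sub_right (volume : Measure ℂ) c).integrable_comp_emb
      (MeasurableEquiv.subRight c).measurableEmbedding (g := fun z : ℂ => T.indicator f ‖z‖)
  rw [e1, htr, integrable_fun_norm_addHaar (μ := (volume : Measure ℂ)) (f := T.indicator f), finrankC,
    ← integrable_indicator_iff measurableSet_Ioi,
    ← integrable_indicator_iff (hT.inter measurableSet_Ioi)]
  have e2 : ((Ioi (0 : ℝ)).indicator fun y : ℝ => y ^ (2 - 1) • T.indicator f y) =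
      (T ∩ Ioi 0).indicator (fun r : ℝ => r * f r) := by
    funext r
    by_cases h : r ∈ T <;> by_cases h' : 0 < r <;> simp [indicator, h, h']
  rw [e2]

lemma integral_rad (c : ℂ) (T : Set ℝ) (hT : MeasurableSet T) (f : ℝ → ℝ) :
    ∫ y in {y : ℂ | ‖y - c‖ ∈ T}, f ‖y - c‖ = 2 * Real.pi * ∫ r in T ∩ Ioi 0, r * f r := by
  have hS : MeasurableSet {y : ℂ | ‖y - c‖ ∈ T} := by
    have hm : Measurable fun y : ℂ => ‖y - c‖ := by fun_prop
    exact hm hT
  rw [← integral_indicator hS]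
  have e1 : ({y : ℂ | ‖y - c‖ ∈ T}.indicator fun y : ℂ => f ‖y - c‖) =
      fun y : ℂ => (fun z : ℂ => T.indicator f ‖z‖) (y - c) := by
    funext y
    by_cases h : ‖y - c‖ ∈ T
    · simp [indicator, h]
    · simp [indicator, h]
  rw [e1, integral_sub_right_eq_self (fun z : ℂ => T.indicator f ‖z‖) c,
    integral_fun_norm_addHaar (volume : Measure ℂ) (T.indicator f), finrankC,
    ← integral_indicator measurableSet_Ioi,
    ← integral_indicator (hT.inter measurableSet_Ioi)]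
  have e2 : ((Ioi (0 : ℝ)).indicator fun y : ℝ => y ^ (2 - 1) • T.indicator f y) =
      (T ∩ Ioi 0).indicator (fun r : ℝ => r * f r) := by
    funext r
    by_cases h : r ∈ T <;> by_cases h' : 0 < r <;> simp [indicator, h, h']
  rw [e2]
  have hv : (volume : Measure ℂ).real (Metric.ball 0 1) = Real.pi := by
    simp [Measure.real, Complex.volume_ball]
  rw [hv]
  simp [smul_eq_mul]
  ring

lemma ball_eq (c : ℂ) (ρ : ℝ) : Metric.ball c ρ = {y : ℂ | ‖y - c‖ ∈ Iio ρ} := by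
  ext y; simp [dist_eq_norm]

lemma compl_ball_eq (c : ℂ) (ρ : ℝ) : (Metric.ball c ρ)ᶜ = {y : ℂ | ‖y - c‖ ∈ Ici ρ} := by
  ext y; simp [dist_eq_norm]

lemma annulus_eq (c : ℂ) (ρ R : ℝ) :
    Metric.ball c R \ Metric.ball c ρ = {y : ℂ | ‖y - c‖ ∈ Ico ρ R} := by
  ext y; simp [dist_eq_norm, and_comm]

lemma Iio_inter (ρ : ℝ) : Iio ρ ∩ Ioi 0 = Ioo 0 ρ := by
  ext x; simp [and_comm]

lemma Ici_inter (ρ : ℝ) (h : 0 < ρ) : Ici ρ ∩ Ioi 0 = Ici ρ := by
  ext x; simp only [mem_inter_iff, mem_Ici, mem_Ioi, and_iff_left_iff_imp]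
  intro hx; linarith

lemma Ico_inter (ρ R : ℝ) (h : 0 < ρ) : Ico ρ R ∩ Ioi 0 = Ico ρ R := by
  ext x; simp only [mem_inter_iff, mem_Ico, mem_Ioi, and_iff_left_iff_imp]
  intro hx; linarith [hx.1]

end Auxpolar

open Auxpolar

theorem t_P1 : ∀ (c : ℂ) (ρ : ℝ), 0 ≤ ρ → IntegrableOn (fun y : ℂ => ‖y - c‖⁻¹) (Metric.ball c ρ) ∧
    ∫ y in Metric.ball c ρ, ‖y - c‖⁻¹ = 2 * Real.pi * ρ := by
  intro c ρ hρ
  rw [ball_eq]
  have e : EqOn (fun r : ℝ => r * r⁻¹) (fun _ => (1 : ℝ)) (Ioo 0 ρ) := by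
    intro r hr
    exact mul_inv_cancel₀ hr.1.ne'
  refine ⟨(integrableOn_rad c (Iio ρ) measurableSet_Iio (fun r => r⁻¹)).mpr ?_, ?_⟩
  · rw [Iio_inter]
    exact (integrableOn_congr_fun e measurableSet_Ioo).mpr (integrableOn_const (by simp))
  · rw [integral_rad c (Iio ρ) measurableSet_Iio (fun r => r⁻¹), Iio_inter,
      setIntegral_congr_fun measurableSet_Ioo e]
    simp [hρ]

theorem t_P2 : ∀ (c : ℂ) (ρ : ℝ), 0 < ρ → IntegrableOn (fun y : ℂ => (‖y - c‖ ^ 3)⁻¹) (Metric.ball c ρ)ᶜ ∧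
    ∫ y in (Metric.ball c ρ)ᶜ, (‖y - c‖ ^ 3)⁻¹ = 2 * Real.pi / ρ := by
  intro c ρ hρ
  rw [compl_ball_eq]
  have e : EqOn (fun r : ℝ => r * (r ^ 3)⁻¹) (fun r => r ^ (-2 : ℝ)) (Ici ρ) := by
    intro r hr
    have hr0 : 0 < r := lt_of_lt_of_le hρ hr
    show r * (r ^ 3)⁻¹ = r ^ (-2 : ℝ)
    rw [Real.rpow_neg hr0.le]
    have : r ^ (2 : ℝ) = r ^ 2 := by exact_mod_cast Real.rpow_natCast r 2
    rw [this]
    field_simp
  refine ⟨(integrableOn_rad c (Ici ρ) measurableSet_Ici (fun r => (r ^ 3)⁻¹)).mpr ?_, ?_⟩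
  · rw [Ici_inter ρ hρ]
    refine (integrableOn_congr_fun e measurableSet_Ici).mpr ?_
    rw [integrableOn_Ici_iff_integrableOn_Ioi]
    exact integrableOn_Ioi_rpow_of_lt (by norm_num) hρ
  · rw [integral_rad c (Ici ρ) measurableSet_Ici (fun r => (r ^ 3)⁻¹), Ici_inter ρ hρ,
      setIntegral_congr_fun measurableSet_Ici e, integral_Ici_eq_integral_Ioi,
      integral_Ioi_rpow_of_lt (by norm_num) hρ]
    have : (-2 : ℝ) + 1 = -1 := by norm_num
    rw [this, Real.rpow_neg_one]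
    field_simp

theorem t_P3 : ∀ (c : ℂ) (ρ R : ℝ), 0 < ρ → ρ ≤ R →
    IntegrableOn (fun y : ℂ => (‖y - c‖ ^ 2)⁻¹) (Metric.ball c R \ Metric.ball c ρ) ∧
    ∫ y in Metric.ball c R \ Metric.ball c ρ, (‖y - c‖ ^ 2)⁻¹ = 2 * Real.pi * Real.log (R / ρ) := by
  intro c ρ R hρ hR
  rw [annulus_eq]
  have e : EqOn (fun r : ℝ => r * (r ^ 2)⁻¹) (fun r => r⁻¹) (Ico ρ R) := by
    intro r hr
    have hr0 : 0 < r := lt_of_lt_of_le hρ hr.1
    show r * (r ^ 2)⁻¹ = r⁻¹
    field_simp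
  refine ⟨(integrableOn_rad c (Ico ρ R) measurableSet_Ico (fun r => (r ^ 2)⁻¹)).mpr ?_, ?_⟩
  · rw [Ico_inter ρ R hρ]
    refine (integrableOn_congr_fun e measurableSet_Ico).mpr ?_
    have hc : ContinuousOn (fun r : ℝ => r⁻¹) (Icc ρ R) := by
      intro r hr
      exact (continuousAt_inv₀ (lt_of_lt_of_le hρ hr.1).ne').continuousWithinAt
    exact hc.integrableOn_Icc.mono_set Ico_subset_Icc_self
  · rw [integral_rad c (Ico ρ R) measurableSet_Ico (fun r => (r ^ 2)⁻¹), Ico_inter ρ R hρ,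
      setIntegral_congr_fun measurableSet_Ico e, integral_Ico_eq_integral_Ioc,
      ← intervalIntegral.integral_of_le hR, integral_inv_of_pos hρ (lt_of_lt_of_le hρ hR)]

theorem t_P4 : ∀ (c : ℂ) (R : ℝ), 0 ≤ R → IntegrableOn (fun y : ℂ => Real.log ‖y - c‖) (Metric.ball c R) := by
  intro c R hR
  rw [ball_eq]
  refine (integrableOn_rad c (Iio R) measurableSet_Iio (fun r => Real.log r)).mpr ?_
  rw [Iio_inter]
  exact (Real.continuous_mul_log.continuousOn.integrableOn_Icc (a := 0) (b := R)).mono_set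
    Ioo_subset_Icc_self

end Pool.Agent.H682_VS
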