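import Pool.Agent.H682_VS.Stmts
import Pool.Agent.H682_VS.T_polar

/-! # ab -/

set_option autoImplicit false

open MeasureTheory Set Filter Topology

namespace Pool.Agent.H682_VS


namespace Auxab

lemma norm_sq_eq (t θ : ℝ) :
    ‖(1:ℂ) - (t * (Real.cos θ + Real.sin θ * Complex.I))‖ ^ 2
      = (1 - t) ^ 2 + 2 * t * (1 - Real.cos θ) := by
  rw [Complex.sq_norm, Complex.normSq_apply]
  simp only [Complex.sub_re, Complex.one_re, Complex.mul_re, Complex.ofReal_re, Complex.add_re,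
    Complex.I_re, Complex.ofReal_im, Complex.I_im, Complex.add_im, Complex.mul_im, Complex.sub_im,
    Complex.one_im]
  linear_combination t ^ 2 * Real.sin_sq_add_cos_sq θ

lemma norm_sq_arg (y : ℂ) :
    ‖(1:ℂ) - y‖ ^ 2 = (1 - ‖y‖) ^ 2 + 2 * ‖y‖ * (1 - Real.cos (Complex.arg y)) := by
  have h := norm_sq_eq ‖y‖ (Complex.arg y)
  rw [← h]
  have h2 : (‖y‖ : ℂ) * (Real.cos (Complex.arg y) + Real.sin (Complex.arg y) * Complex.I) = y := by
    simp [Complex.norm_mul_cos_add_sin_mul_I]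
  rw [h2]

lemma pt {t θ r : ℝ} (ht1 : 1 - r ≤ t) (ht2 : t < 1) (hr : 0 < r) (hr2 : r < 1 / 2)
    (hθ : |θ| < 1 / 2) (h : (2 * r) ^ 2 ≤ (1 - t) ^ 2 + 2 * t * (1 - Real.cos θ)) :
    r ≤ |θ| ∧ θ ^ 2 / 5 ≤ (1 - t) ^ 2 + 2 * t * (1 - Real.cos θ) := by
  have h1 : 1 - θ ^ 2 / 2 ≤ Real.cos θ := Real.one_sub_sq_div_two_le_cos
  have hpi : |θ| ≤ Real.pi := by linarith [Real.pi_gt_three]
  have h2 : Real.cos θ ≤ 1 - 2 / Real.pi ^ 2 * θ ^ 2 := Real.cos_le_one_sub_mul_cos_sq hpi
  have hpi2 : Real.pi ^ 2 ≤ 10 := by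
    have := Real.pi_lt_d2
    have := Real.pi_pos
    nlinarith
  have h3 : (1:ℝ) / 5 ≤ 2 / Real.pi ^ 2 := by
    rw [div_le_div_iff₀ (by norm_num) (by positivity)]
    linarith
  have h4 : θ ^ 2 / 5 ≤ 1 - Real.cos θ := by nlinarith [sq_nonneg θ]
  refine ⟨?_, ?_⟩
  · have h5 : r ^ 2 ≤ |θ| ^ 2 := by
      rw [sq_abs]
      have h6 : 2 * t * (1 - Real.cos θ) ≤ θ ^ 2 := by nlinarith [sq_nonneg θ]
      have h7 : (1 - t) ^ 2 ≤ r ^ 2 := by nlinarith
      nlinarith
    exact (sq_le_sq₀ hr.le (abs_nonneg θ)).1 h5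
  · nlinarith [sq_nonneg (1 - t), sq_nonneg θ]

lemma lint_inv {r : ℝ} (hr : 0 < r) :
    ∫⁻ θ in {θ : ℝ | r ≤ |θ|}, ENNReal.ofReal (5 / θ ^ 2) ≤ ENNReal.ofReal (10 / r) := by
  have h1 : ∫⁻ θ in Ici r, ENNReal.ofReal (5 / θ ^ 2) = ENNReal.ofReal (5 / r) := by
    rw [← restrict_Ioi_eq_restrict_Ici]
    have hi := integrableOn_Ioi_rpow_of_lt (a := -2) (by norm_num) hr
    have he := integral_Ioi_rpow_of_lt (a := -2) (by norm_num) hr
    have hcongr : ∀ θ ∈ Ioi r, ENNReal.ofReal (5 / θ ^ 2) = ENNReal.ofReal (5 * θ ^ (-2 : ℝ)) := by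
      intro θ hθ
      have hθ0 : 0 < θ := hr.trans hθ
      congr 1
      rw [Real.rpow_neg hθ0.le]
      norm_num
      rfl
    rw [setLIntegral_congr_fun measurableSet_Ioi hcongr]
    rw [← ofReal_integral_eq_lintegral_ofReal (hi.const_mul 5)]
    · congr 1
      rw [integral_const_mul, he]
      norm_num
      rw [Real.rpow_neg_one]
      rfl
    · filter_upwards [self_mem_ae_restrict measurableSet_Ioi] with θ hθ
      have hθ0 : 0 < θ := hr.trans hθ
      positivity
  have h2 : ∫⁻ θ in Iic (-r), ENNReal.ofReal (5 / θ ^ 2) = ENNReal.ofReal (5 / r) := by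
    rw [← h1, ← lintegral_indicator measurableSet_Iic, ← lintegral_indicator measurableSet_Ici,
      ← lintegral_neg_eq_self]
    congr 1
    ext θ
    simp only [indicator, mem_Iic, mem_Ici, neg_le_neg_iff, neg_sq]
  have h3 : {θ : ℝ | r ≤ |θ|} = Iic (-r) ∪ Ici r := by
    ext θ
    simp only [mem_ofPred_eq, mem_union, mem_Iic, mem_Ici, le_abs]
    constructor
    · rintro (h | h)
      · right; exact h
      · left; linarith
    · rintro (h | h)
      · right; linarith
      · left; exact h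
  rw [h3]
  refine (lintegral_union_le _ _ _).trans ?_
  rw [h1, h2, ← ENNReal.ofReal_add (by positivity) (by positivity)]
  apply ENNReal.ofReal_le_ofReal
  apply le_of_eq
  ring

/-- the bad sector region near the arc -/
def B (r : ℝ) : Set ℂ :=
  {y | 1 - r ≤ ‖y‖ ∧ ‖y‖ < 1 ∧ |Complex.arg y| < 1 / 2 ∧ 2 * r ≤ ‖1 - y‖}

lemma measB (r : ℝ) : MeasurableSet (B r) := by
  have h1 : Measurable fun y : ℂ => ‖y‖ := measurable_norm
  have h2 : Measurable fun y : ℂ => |Complex.arg y| := Complex.measurable_arg.abs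
  have h3 : Measurable fun y : ℂ => ‖1 - y‖ := (measurable_const.sub measurable_id).norm
  exact (measurableSet_le measurable_const h1).inter ((measurableSet_lt h1 measurable_const).inter
    ((measurableSet_lt h2 measurable_const).inter (measurableSet_le measurable_const h3)))

lemma lintB {r : ℝ} (hr : 0 < r) (hr2 : r < 1 / 2) :
    ∫⁻ y in B r, ENNReal.ofReal ((‖1 - y‖ ^ 2)⁻¹) ≤ ENNReal.ofReal 10 := by
  rw [← lintegral_indicator (measB r), ← Complex.lintegral_comp_polarCoord_symm]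
  set R : Set (ℝ × ℝ) := Icc (1 - r) 1 ×ˢ {θ : ℝ | r ≤ |θ|} with hR
  have hmθ : MeasurableSet {θ : ℝ | r ≤ |θ|} :=
    measurableSet_le measurable_const measurable_id.abs
  have hmR : MeasurableSet R := measurableSet_Icc.prod hmθ
  have hle : ∫⁻ p in polarCoord.target, ENNReal.ofReal p.1 •
      (B r).indicator (fun y => ENNReal.ofReal ((‖1 - y‖ ^ 2)⁻¹)) (Complex.polarCoord.symm p)
      ≤ ∫⁻ p in polarCoord.target, R.indicator (fun p : ℝ × ℝ => ENNReal.ofReal (5 / p.2 ^ 2)) p := by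
    refine setLIntegral_mono' polarCoord.open_target.measurableSet ?_
    rintro ⟨t, θ⟩ ⟨ht, hθ⟩
    simp only at ht hθ
    have ht : 0 < t := ht
    have hθ : θ ∈ Ioo (-Real.pi) Real.pi := hθ
    by_cases hmem : Complex.polarCoord.symm (t, θ) ∈ B r
    · rw [indicator_of_mem hmem]
      have hsym : Complex.polarCoord.symm (t, θ) = t * (Real.cos θ + Real.sin θ * Complex.I) :=
        Complex.polarCoord_symm_apply _
      have hn : ‖Complex.polarCoord.symm (t, θ)‖ = t := by
        rw [Complex.norm_polarCoord_symm]; exact abs_of_pos ht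
      have harg : Complex.arg (Complex.polarCoord.symm (t, θ)) = θ := by
        rw [hsym]
        have := Complex.arg_mul_cos_add_sin_mul_I ht (Ioo_subset_Ioc_self hθ)
        simpa using this
      obtain ⟨h1, h2, h3, h4⟩ := hmem
      rw [hn] at h1 h2
      rw [harg] at h3
      have h5 : (2 * r) ^ 2 ≤ (1 - t) ^ 2 + 2 * t * (1 - Real.cos θ) := by
        rw [← norm_sq_eq, ← hsym]
        gcongr
      obtain ⟨h6, h7⟩ := pt h1 h2 hr hr2 h3 h5
      have hmR' : (t, θ) ∈ R := ⟨⟨h1, h2.le⟩, h6⟩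
      rw [indicator_of_mem hmR', smul_eq_mul, ← ENNReal.ofReal_mul ht.le]
      apply ENNReal.ofReal_le_ofReal
      simp only
      rw [hsym, norm_sq_eq]
      have hθ2 : 0 < θ ^ 2 := by
        have : 0 < |θ| := hr.trans_le h6
        rw [← sq_abs]; positivity
      have h8 : ((1 - t) ^ 2 + 2 * t * (1 - Real.cos θ))⁻¹ ≤ 5 / θ ^ 2 := by
        rw [inv_le_comm₀ (by nlinarith) (by positivity), inv_div]
        exact h7
      have h9 : 0 ≤ 5 / θ ^ 2 := by positivity
      have h10 : 0 ≤ ((1 - t) ^ 2 + 2 * t * (1 - Real.cos θ))⁻¹ := by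
        apply inv_nonneg.2; nlinarith
      nlinarith
    · rw [indicator_of_notMem hmem]
      simp
  refine hle.trans ?_
  refine (setLIntegral_le_lintegral _ _).trans ?_
  rw [lintegral_indicator hmR]
  rw [hR, Measure.volume_eq_prod, ← Measure.prod_restrict]
  rw [lintegral_prod _ (by fun_prop)]
  simp only [lintegral_const, MeasurableSet.univ, Measure.restrict_apply, univ_inter,
    Real.volume_Icc]
  calc _ ≤ ENNReal.ofReal (10 / r) * ENNReal.ofReal (1 - (1 - r)) := by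
        gcongr
        exact lint_inv hr
    _ = ENNReal.ofReal 10 := by
        rw [← ENNReal.ofReal_mul (by positivity)]
        congr 1
        field_simp
        ring

/-- everything of the unit ball seen by `E1` and not by `E2` -/
lemma rest (d : ℝ) (hd : 0 < d) (hd2 : d < 1 / 2) : ∃ C : ℝ, 0 ≤ C ∧ ∀ r : ℝ, 0 < r → r < d →
    ∫⁻ y in {y : ℂ | ‖y‖ < 1 ∧ 2 * r ≤ ‖1 - y‖ ∧
      ¬ (1 - d < ‖y‖ ∧ ‖y‖ < 1 - r ∧ |Complex.arg y| < d)}, ENNReal.ofReal ((‖1 - y‖ ^ 2)⁻¹)
      ≤ ENNReal.ofReal C := by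
  have hsin : 0 < Real.sin d := Real.sin_pos_of_pos_of_lt_pi hd (by linarith [Real.pi_gt_three])
  have hsd : Real.sin d ≤ d := Real.sin_le hd.le
  set c : ℝ := (Real.sin d) ^ 2 with hc
  have hc0 : 0 < c := by positivity
  refine ⟨c⁻¹ * Real.pi + 10, by positivity, ?_⟩
  intro r hr hrd
  have hsub : {y : ℂ | ‖y‖ < 1 ∧ 2 * r ≤ ‖1 - y‖ ∧
      ¬ (1 - d < ‖y‖ ∧ ‖y‖ < 1 - r ∧ |Complex.arg y| < d)} ⊆
      ({y : ℂ | ‖y‖ < 1 ∧ c ≤ ‖1 - y‖ ^ 2}) ∪ B r := by
    rintro y ⟨h1, h2, h3⟩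
    by_cases h4 : ‖y‖ ≤ 1 - d
    · left
      refine ⟨h1, ?_⟩
      have h5 : d ≤ ‖1 - y‖ := by
        have := norm_sub_norm_le (1 : ℂ) y
        rw [norm_one] at this
        linarith
      rw [hc]
      nlinarith
    · by_cases h5 : d ≤ |Complex.arg y|
      · left
        refine ⟨h1, ?_⟩
        have h6 : Real.cos (Complex.arg y) ≤ Real.cos d := by
          rw [← Real.cos_abs (Complex.arg y)]
          exact Real.cos_le_cos_of_nonneg_of_le_pi hd.le (Complex.abs_arg_le_pi y) h5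
        rw [norm_sq_arg, hc]
        have h7 : ‖y‖ * Real.cos (Complex.arg y) ≤ ‖y‖ * Real.cos d := by gcongr
        nlinarith [Real.sin_sq_add_cos_sq d, sq_nonneg (‖y‖ - Real.cos d)]
      · right
        push Not at h4 h5
        refine ⟨?_, h1, h5.trans hd2, h2⟩
        by_contra h6
        push Not at h6
        exact h3 ⟨h4, h6, h5⟩
  refine (lintegral_mono_set hsub).trans ((lintegral_union_le _ _ _).trans ?_)
  rw [ENNReal.ofReal_add (by positivity) (by norm_num)]
  gcongr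
  · calc ∫⁻ y in {y : ℂ | ‖y‖ < 1 ∧ c ≤ ‖1 - y‖ ^ 2}, ENNReal.ofReal ((‖1 - y‖ ^ 2)⁻¹)
        ≤ ∫⁻ y in {y : ℂ | ‖y‖ < 1 ∧ c ≤ ‖1 - y‖ ^ 2}, ENNReal.ofReal (c⁻¹) := by
          refine setLIntegral_mono' ?_ ?_
          · exact (measurableSet_lt measurable_norm measurable_const).inter
              (measurableSet_le measurable_const
                (((measurable_const.sub measurable_id).norm).pow_const 2))
          · rintro y ⟨_, h⟩
            apply ENNReal.ofReal_le_ofReal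
            exact inv_anti₀ hc0 h
      _ ≤ ENNReal.ofReal (c⁻¹) * volume (Metric.ball (0:ℂ) 1) := by
          rw [lintegral_const, Measure.restrict_apply MeasurableSet.univ, univ_inter]
          gcongr
          rintro y ⟨h, _⟩
          simpa using h
      _ = ENNReal.ofReal (c⁻¹ * Real.pi) := by
          have hpi : (NNReal.pi : ENNReal) = ENNReal.ofReal Real.pi := by
            rw [← NNReal.coe_real_pi, ENNReal.ofReal_coe_nnreal]
          rw [Complex.volume_ball, ENNReal.ofReal_mul (by positivity), hpi]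
          simp
  · exact lintB hr (hrd.trans hd2)

lemma two_sided (r : ℝ) (hr : 0 < r) :
    ∫⁻ y in {y : ℂ | r ≤ ‖1 - y‖ ∧ ‖1 - y‖ < 2 * r}, ENNReal.ofReal ((‖1 - y‖ ^ 2)⁻¹)
      ≤ ENNReal.ofReal (2 * Real.pi * Real.log 2) := by
  obtain ⟨h1, h2⟩ := t_P3 1 r (2 * r) hr (by linarith)
  have h3 : {y : ℂ | r ≤ ‖1 - y‖ ∧ ‖1 - y‖ < 2 * r} = Metric.ball 1 (2 * r) \ Metric.ball 1 r := by
    ext y
    simp only [mem_ofPred_eq, Set.mem_sdiff, Metric.mem_ball, dist_eq_norm, not_lt, norm_sub_rev y 1]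
    exact and_comm
  have h4 : 2 * r / r = 2 := by field_simp
  rw [h4] at h2
  rw [h3, ← h2, ofReal_integral_eq_lintegral_ofReal h1 (ae_of_all _ fun y => by positivity)]
  simp only [norm_sub_rev]
  exact le_rfl

lemma abs_int_le {S : Set ℂ} {f : ℂ → ℝ} {C : ℝ} (hC : 0 ≤ C)
    (h : ∫⁻ y in S, ENNReal.ofReal |f y| ≤ ENNReal.ofReal C) : |∫ y in S, f y| ≤ C := by
  have h1 := norm_integral_le_lintegral_norm (μ := volume.restrict S) f
  simp only [Real.norm_eq_abs] at h1
  exact h1.trans (ENNReal.toReal_le_of_le_ofReal hC h)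

end Auxab

theorem t_ab : S_ab := by
  intro D d hD hsub hd hd2
  obtain ⟨C1, hC1, hrest⟩ := Auxab.rest d hd hd2
  refine ⟨(1 / (2 * Real.pi)) * (C1 + 2 * Real.pi * Real.log 2 + 4 * Real.pi), ?_⟩
  intro r hr hrd
  set F : ℂ → ℝ := fun y => (((1 - y) ^ 2)⁻¹).re with hF
  set G : ℂ → ℝ := fun y => (y / (1 - y) ^ 2).re with hG
  set E1 : Set ℂ := D \ Metric.ball 1 (2 * r) with hE1
  set E2 : Set ℂ := {y | y ∈ D ∧ 1 - d < ‖y‖ ∧ ‖y‖ < 1 - r ∧ |Complex.arg y| < d} with hE2
  have hmE1 : MeasurableSet E1 := hD.diff measurableSet_ball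
  have hmE2 : MeasurableSet E2 := by
    refine hD.inter ((measurableSet_lt measurable_const measurable_norm).inter
      ((measurableSet_lt measurable_norm measurable_const).inter
        (measurableSet_lt Complex.measurable_arg.abs measurable_const)))
  have hmF : Measurable F := by
    apply Complex.measurable_re.comp
    fun_prop
  have hmG : Measurable G := by
    apply Complex.measurable_re.comp
    fun_prop
  have hDfin : volume D < ⊤ := (measure_mono hsub).trans_lt measure_ball_lt_top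
  have hE1fin : volume E1 < ⊤ := (measure_mono sdiff_subset).trans_lt hDfin
  have hE2fin : volume E2 < ⊤ := (measure_mono fun y hy => hy.1).trans_lt hDfin
  have hFle : ∀ y, |F y| ≤ (‖1 - y‖ ^ 2)⁻¹ := by
    intro y
    refine (Complex.abs_re_le_norm _).trans ?_
    rw [norm_inv, norm_pow]
  have hE2dist : ∀ y ∈ E2, r < ‖1 - y‖ := by
    rintro y ⟨_, _, h, _⟩
    have := norm_sub_norm_le (1 : ℂ) y
    rw [norm_one] at this
    linarith
  have hE1dist : ∀ y ∈ E1, 2 * r ≤ ‖1 - y‖ := by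
    rintro y ⟨_, h⟩
    rw [Metric.mem_ball, not_lt, dist_eq_norm, norm_sub_rev] at h
    exact h
  have hFint : ∀ S : Set ℂ, MeasurableSet S → volume S < ⊤ → (∀ y ∈ S, r ≤ ‖1 - y‖) →
      IntegrableOn F S := by
    intro S hS hSf hSd
    refine IntegrableOn.of_bound hSf hmF.aestronglyMeasurable ((r ^ 2)⁻¹) ?_
    filter_upwards [self_mem_ae_restrict hS] with y hy
    refine (hFle y).trans ?_
    have := hSd y hy
    gcongr
  have hF1 : IntegrableOn F E1 :=
    hFint E1 hmE1 hE1fin fun y hy => by linarith [hE1dist y hy]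
  have hF2 : IntegrableOn F E2 := hFint E2 hmE2 hE2fin fun y hy => (hE2dist y hy).le
  -- F - G = Re (1-y)⁻¹
  have hFG : ∀ y ∈ E2, F y - G y = ((1 - y)⁻¹).re := by
    intro y hy
    have hne : (1 - y) ≠ 0 := by
      intro h
      have := hE2dist y hy
      rw [h, norm_zero] at this
      linarith
    simp only [hF, hG, ← Complex.sub_re]
    congr 1
    field_simp
  obtain ⟨hP1i, hP1⟩ := t_P1 1 2 (by norm_num)
  have hball : E2 ⊆ Metric.ball 1 2 := by
    rintro y ⟨h, _⟩
    have := hsub h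
    rw [Metric.mem_ball, dist_zero_right] at this
    rw [Metric.mem_ball, dist_eq_norm]
    have := norm_sub_le y 1
    rw [norm_one] at this
    linarith
  have hH : ∀ y ∈ E2, |((1 - y)⁻¹).re| ≤ ‖y - 1‖⁻¹ := by
    intro y _
    refine (Complex.abs_re_le_norm _).trans ?_
    rw [norm_inv, norm_sub_rev]
  have hHint : IntegrableOn (fun y : ℂ => ((1 - y)⁻¹).re) E2 := by
    refine Integrable.mono' (hP1i.mono_set hball) ?_ ?_
    · exact (Complex.measurable_re.comp (by fun_prop)).aestronglyMeasurable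
    · filter_upwards [self_mem_ae_restrict hmE2] with y hy
      exact hH y hy
  have hG2 : IntegrableOn G E2 := by
    refine (hF2.sub hHint).congr_fun ?_ hmE2
    intro y hy
    have := hFG y hy
    simp only [Pi.sub_apply]
    linarith
  have hstep1 : |(∫ y in E2, F y) - ∫ y in E2, G y| ≤ 4 * Real.pi := by
    rw [← integral_sub hF2 hG2, setIntegral_congr_fun hmE2 hFG]
    refine (abs_integral_le_integral_abs).trans ?_
    calc ∫ y in E2, |((1 - y)⁻¹).re| ≤ ∫ y in E2, ‖y - 1‖⁻¹ :=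
          setIntegral_mono_on hHint.abs (hP1i.mono_set hball) hmE2 hH
      _ ≤ ∫ y in Metric.ball 1 2, ‖y - 1‖⁻¹ :=
          setIntegral_mono_set hP1i (ae_of_all _ fun y => by positivity)
            (ae_of_all _ hball)
      _ = 4 * Real.pi := by rw [hP1]; ring
  have hstep2 : |∫ y in E1 \ E2, F y| ≤ C1 := by
    apply Auxab.abs_int_le hC1
    refine le_trans ?_ (hrest r hr hrd)
    refine (lintegral_mono fun y => ENNReal.ofReal_le_ofReal (hFle y)).trans
      (lintegral_mono_set ?_)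
    rintro y ⟨h1, h2⟩
    have h3 := hsub h1.1
    rw [Metric.mem_ball, dist_zero_right] at h3
    exact ⟨h3, hE1dist y h1, fun h4 => h2 ⟨h1.1, h4⟩⟩
  have hstep3 : |∫ y in E2 \ E1, F y| ≤ 2 * Real.pi * Real.log 2 := by
    apply Auxab.abs_int_le (by positivity)
    refine le_trans ?_ (Auxab.two_sided r hr)
    refine (lintegral_mono fun y => ENNReal.ofReal_le_ofReal (hFle y)).trans
      (lintegral_mono_set ?_)
    rintro y ⟨h1, h2⟩
    refine ⟨(hE2dist y h1).le, ?_⟩
    by_contra h3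
    apply h2
    refine ⟨h1.1, ?_⟩
    rw [Metric.mem_ball, dist_eq_norm, norm_sub_rev]
    exact h3
  have hsplit1 := integral_inter_add_sdiff hmE2 hF1
  have hsplit2 := integral_inter_add_sdiff hmE1 hF2
  rw [inter_comm] at hsplit2
  have hmain : aD D r - bD D d r = (1 / (2 * Real.pi)) *
      ((∫ y in E1 \ E2, F y) - (∫ y in E2 \ E1, F y) + ((∫ y in E2, F y) - ∫ y in E2, G y)) := by
    have h1 : aD D r = (1 / (2 * Real.pi)) * ∫ y in E1, F y := rfl
    have h2 : bD D d r = (1 / (2 * Real.pi)) * ∫ y in E2, G y := rfl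
    rw [h1, h2, ← hsplit1]
    linear_combination (1 / (2 * Real.pi)) * hsplit2
  rw [hmain, abs_mul, abs_of_pos (by positivity : 0 < 1 / (2 * Real.pi))]
  gcongr
  rw [abs_le] at hstep1 hstep2 hstep3 ⊢
  constructor <;> linarith [hstep1.1, hstep1.2, hstep2.1, hstep2.2, hstep3.1, hstep3.2]

end Pool.Agent.H682_VS
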