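import Pool.Agent.H682_VS.Stmts

/-! # bmonot -/

set_option autoImplicit false

open MeasureTheory Set Filter Topology

namespace Pool.Agent.H682_VS


namespace Auxbmonot

theorem den_pos {t : ℝ} (h1 : t < 1) (h0 : 0 < t) (θ : ℝ) :
    0 < 1 - 2 * t * Real.cos θ + t ^ 2 := by
  have := Real.cos_le_one θ
  nlinarith [sq_pos_of_pos (sub_pos.2 h1)]

theorem re_formula {t : ℝ} (h1 : t < 1) (h0 : 0 < t) (θ : ℝ) :
    ((t * Complex.exp (θ * Complex.I)) / (1 - t * Complex.exp (θ * Complex.I)) ^ 2).re =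
      (t * Real.cos θ + t ^ 3 * Real.cos θ - 2 * t ^ 2) / (1 - 2 * t * Real.cos θ + t ^ 2) ^ 2 := by
  have hre : (t * Complex.exp (θ * Complex.I)).re = t * Real.cos θ := by
    rw [Complex.re_ofReal_mul, Complex.exp_ofReal_mul_I_re]
  have him : (t * Complex.exp (θ * Complex.I)).im = t * Real.sin θ := by
    rw [Complex.im_ofReal_mul, Complex.exp_ofReal_mul_I_im]
  set z : ℂ := t * Complex.exp (θ * Complex.I) with hz
  have hD := den_pos h1 h0 θ
  have hsc := Real.sin_sq_add_cos_sq θ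
  have hN : Complex.normSq (1 - z) = 1 - 2 * t * Real.cos θ + t ^ 2 := by
    rw [Complex.normSq_apply]
    simp only [Complex.sub_re, Complex.one_re, Complex.sub_im, Complex.one_im, hre, him]
    linear_combination t ^ 2 * hsc
  rw [Complex.div_re, map_pow, hN, hre, him]
  have e1 : ((1 - z) ^ 2).re = (1 - t * Real.cos θ) ^ 2 - (t * Real.sin θ) ^ 2 := by
    rw [pow_two, Complex.mul_re]
    simp only [Complex.sub_re, Complex.one_re, Complex.sub_im, Complex.one_im, hre, him]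
    ring
  have e2 : ((1 - z) ^ 2).im = - 2 * (1 - t * Real.cos θ) * (t * Real.sin θ) := by
    rw [pow_two, Complex.mul_im]
    simp only [Complex.sub_re, Complex.one_re, Complex.sub_im, Complex.one_im, hre, him]
    ring
  rw [e1, e2, ← add_div]
  congr 1
  linear_combination (t ^ 3 * Real.cos θ - 2 * t ^ 2) * hsc

theorem hasDeriv {t : ℝ} (h1 : t < 1) (h0 : 0 < t) (θ : ℝ) :
    HasDerivAt (fun x : ℝ => t * Real.sin x / (1 - 2 * t * Real.cos x + t ^ 2))
      ((t * Real.cos θ + t ^ 3 * Real.cos θ - 2 * t ^ 2) /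
        (1 - 2 * t * Real.cos θ + t ^ 2) ^ 2) θ := by
  have hD := den_pos h1 h0 θ
  have hn : HasDerivAt (fun x : ℝ => t * Real.sin x) (t * Real.cos θ) θ :=
    (Real.hasDerivAt_sin θ).const_mul t
  have hd : HasDerivAt (fun x : ℝ => 1 - 2 * t * Real.cos x + t ^ 2) (2 * t * Real.sin θ) θ := by
    have h := (((Real.hasDerivAt_cos θ).const_mul (2 * t)).const_sub 1).add_const (t ^ 2)
    have e : -(2 * t * -Real.sin θ) = 2 * t * Real.sin θ := by ring
    rw [e] at h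
    exact h
  have h := hn.div hd hD.ne'
  have hsc := Real.sin_sq_add_cos_sq θ
  have e : t * Real.cos θ * (1 - 2 * t * Real.cos θ + t ^ 2) - t * Real.sin θ *
      (2 * t * Real.sin θ) = t * Real.cos θ + t ^ 3 * Real.cos θ - 2 * t ^ 2 := by
    linear_combination (-2 * t ^ 2) * hsc
  rw [e] at h
  exact h

theorem cont {t : ℝ} (h1 : t < 1) (h0 : 0 < t) :
    Continuous fun θ : ℝ => (t * Real.cos θ + t ^ 3 * Real.cos θ - 2 * t ^ 2) /
        (1 - 2 * t * Real.cos θ + t ^ 2) ^ 2 := by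
  refine Continuous.div (by fun_prop) (by fun_prop) fun θ => ?_
  exact pow_ne_zero _ (den_pos h1 h0 θ).ne'

theorem main (t d : ℝ) (E : Set ℝ) (ht : 1 / 2 < t) (h1 : t < 1) (hd : 0 < d) (hd2 : d < 1 / 2)
    (hE : ∀ θ ∈ E, |θ| < d) (hmon : ∀ θ1 θ2 : ℝ, |θ1| ≤ |θ2| → θ2 ∈ E → θ1 ∈ E) :
    MeasurableSet E ∧
    0 ≤ ∫ θ in E, ((t * Complex.exp (θ * Complex.I)) / (1 - t * Complex.exp (θ * Complex.I)) ^ 2).re ∧
    ∀ K r : ℝ, 0 < K → 1 - t ≤ r → (∀ θ ∈ E, |θ| ≤ K * (1 - t)) →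
      1 / (8 * (1 + K ^ 2) * r ^ 2) * (volume E).toReal ≤
        ∫ θ in E, ((t * Complex.exp (θ * Complex.I)) / (1 - t * Complex.exp (θ * Complex.I)) ^ 2).re := by
  have h0 : 0 < t := by linarith
  rcases E.eq_empty_or_nonempty with rfl | hne
  · simp
  have hbdd : BddAbove ((fun θ : ℝ => |θ|) '' E) := by
    refine ⟨d, ?_⟩
    rintro _ ⟨θ, hθ, rfl⟩
    exact (hE θ hθ).le
  set α := sSup ((fun θ : ℝ => |θ|) '' E) with hα
  have hle : ∀ θ ∈ E, |θ| ≤ α := fun θ hθ => le_csSup hbdd ⟨θ, hθ, rfl⟩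
  have hα0 : 0 ≤ α := by
    obtain ⟨θ, hθ⟩ := hne
    exact (abs_nonneg θ).trans (hle θ hθ)
  have hαle : ∀ c : ℝ, (∀ θ ∈ E, |θ| ≤ c) → α ≤ c := by
    intro c hc
    refine csSup_le (hne.image _) ?_
    rintro _ ⟨θ, hθ, rfl⟩
    exact hc θ hθ
  have hαd : α ≤ d := hαle d fun θ hθ => (hE θ hθ).le
  have hIoo : Ioo (-α) α ⊆ E := by
    intro θ hθ
    have : |θ| < α := abs_lt.2 hθ
    obtain ⟨_, ⟨θ2, h2, rfl⟩, h3⟩ := exists_lt_of_lt_csSup (hne.image _) this
    exact hmon θ θ2 h3.le h2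
  have hIcc : E ⊆ Icc (-α) α := fun θ hθ => abs_le.1 (hle θ hθ)
  have hmeas : MeasurableSet E := by
    have : E = Ioo (-α) α ∪ (E ∩ {-α, α}) := by
      ext θ
      constructor
      · intro hθ
        by_cases h : θ ∈ Ioo (-α) α
        · exact Or.inl h
        · refine Or.inr ⟨hθ, ?_⟩
          have h2 := hIcc hθ
          simp only [mem_Ioo, not_and_or, not_lt] at h
          simp only [mem_insert_iff, mem_singleton_iff]
          rcases h with h | h
          · left; linarith [h2.1]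
          · right; linarith [h2.2]
      · rintro (h | h)
        · exact hIoo h
        · exact h.1
    rw [this]
    refine measurableSet_Ioo.union (Set.Finite.measurableSet ?_)
    exact (Set.toFinite {-α, α}).inter_of_right E
  have hae : E =ᵐ[volume] Ioc (-α) α := by
    have a1 : Ioo (-α) α ≤ᵐ[volume] E := hIoo.eventuallyLE
    have a2 : E ≤ᵐ[volume] Icc (-α) α := hIcc.eventuallyLE
    have a3 : E =ᵐ[volume] Icc (-α) α := by
      refine Filter.EventuallyLE.antisymm a2 ?_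
      exact (Ioo_ae_eq_Icc (μ := volume) (a := -α) (b := α)).symm.le.trans a1
    exact a3.trans (Ioc_ae_eq_Icc (μ := volume) (a := -α) (b := α)).symm
  have hint : ∫ θ in E, ((t * Complex.exp (θ * Complex.I)) /
      (1 - t * Complex.exp (θ * Complex.I)) ^ 2).re
      = 2 * (t * Real.sin α / (1 - 2 * t * Real.cos α + t ^ 2)) := by
    rw [setIntegral_congr_set hae, ← intervalIntegral.integral_of_le (by linarith)]
    simp_rw [re_formula h1 h0]
    rw [intervalIntegral.integral_eq_sub_of_hasDerivAt (fun θ _ => hasDeriv h1 h0 θ)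
      ((cont h1 h0).intervalIntegrable _ _), Real.sin_neg, Real.cos_neg]
    ring
  have hvol : (volume E).toReal = 2 * α := by
    rw [measure_congr hae, Real.volume_Ioc, ENNReal.toReal_ofReal (by linarith)]
    ring
  have hsin : α / 2 ≤ Real.sin α := by
    rcases hα0.eq_or_lt with h | h
    · rw [← h]; simp
    · have := Real.sin_gt_sub_cube h
      have hα2 : α ≤ 1 / 2 := by linarith
      nlinarith [mul_pos h h, mul_nonneg hα0 (mul_nonneg hα0 (sub_nonneg.2 hα2))]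
  have hD := den_pos h1 h0 α
  refine ⟨hmeas, ?_, ?_⟩
  · rw [hint]
    have : 0 ≤ Real.sin α := by linarith
    positivity
  · intro K r hK hr hKE
    rw [hint, hvol]
    have hαK := hαle _ hKE
    have h1t : 0 < 1 - t := by linarith
    have hr0 : 0 < r := by linarith
    have hDle : 1 - 2 * t * Real.cos α + t ^ 2 ≤ (1 + K ^ 2) * r ^ 2 := by
      have hc := Real.one_sub_sq_div_two_le_cos (x := α)
      have s1 : 1 - 2 * t * Real.cos α + t ^ 2 ≤ (1 - t) ^ 2 + α ^ 2 := by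
        nlinarith [mul_le_mul_of_nonneg_left hc h0.le, sq_nonneg α]
      have s2 : α ^ 2 ≤ (K * (1 - t)) ^ 2 := pow_le_pow_left₀ hα0 hαK 2
      have s3 : (1 - t) ^ 2 ≤ r ^ 2 := pow_le_pow_left₀ h1t.le hr 2
      nlinarith [sq_nonneg K]
    rw [div_mul_eq_mul_div, one_mul, mul_div_assoc', div_le_div_iff₀ (by positivity) hD]
    have hs : α / 2 ≤ 2 * (t * Real.sin α) := by nlinarith
    have hP : 0 < (1 + K ^ 2) * r ^ 2 := by positivity
    calc 2 * α * (1 - 2 * t * Real.cos α + t ^ 2) ≤ 2 * α * ((1 + K ^ 2) * r ^ 2) := by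
          apply mul_le_mul_of_nonneg_left hDle; positivity
      _ ≤ 2 * (t * Real.sin α) * (8 * (1 + K ^ 2) * r ^ 2) := by
          nlinarith

end Auxbmonot


/- TARGET, proof in plain words:
E is a symmetric interval: with α = sup{|θ| : θ ∈ E} (0 ≤ α ≤ d), Ioo (-α) α ⊆ E ⊆ Icc (-α) α (or E empty), so E is measurable and integrals over E equal ∫_{-α}^{α}.
Let y = t e^{iθ}, k(θ) = t sin θ/(1 - 2t cos θ + t²) = Im (1/(1-y)).  Since dy/dθ = i y, d/dθ (1/(1-y)) = i y/(1-y)², so k'(θ) = Im(i y/(1-y)²) = Re(y/(1-y)²): the integrand.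
So the integral is k(α) - k(-α) = 2 k(α) ≥ 0 (0 ≤ α ≤ 1/2 < π).
Last part: |θ| ≤ K(1-t) on E so α ≤ K(1-t).  1 - 2t cos α + t² = (1-t)² + 2t(1 - cos α) ≤ (1-t)² + α² ≤ (1+K²)(1-t)² ≤ (1+K²) r²; sin α ≥ α/2, t ≥ 1/2: 2k(α) ≥ 2·(1/2)(α/2)/((1+K²)r²) = α/(2(1+K²)r²)
≥ (1/(8(1+K²)r²))·2α, and volume E = 2α.  (r > 0 because 1 - t > 0.)
-/
theorem t_bmonot : ∀ (t d : ℝ) (E : Set ℝ), 1 / 2 < t → t < 1 → 0 < d → d < 1 / 2 →
    (∀ θ ∈ E, |θ| < d) → (∀ θ1 θ2 : ℝ, |θ1| ≤ |θ2| → θ2 ∈ E → θ1 ∈ E) →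
    MeasurableSet E ∧
    0 ≤ ∫ θ in E, ((t * Complex.exp (θ * Complex.I)) / (1 - t * Complex.exp (θ * Complex.I)) ^ 2).re ∧
    ∀ K r : ℝ, 0 < K → 1 - t ≤ r → (∀ θ ∈ E, |θ| ≤ K * (1 - t)) →
      1 / (8 * (1 + K ^ 2) * r ^ 2) * (volume E).toReal ≤
        ∫ θ in E, ((t * Complex.exp (θ * Complex.I)) / (1 - t * Complex.exp (θ * Complex.I)) ^ 2).re :=
  Auxbmonot.main

end Pool.Agent.H682_VS

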