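import Pool.Agent.H682_VS.Stmts
import Pool.Agent.H682_VS.T_bmonot

/-! # bmono -/

set_option autoImplicit false

open MeasureTheory Set Filter Topology

namespace Pool.Agent.H682_VS


namespace Auxbmono

theorem polar_nonneg (A : Set ℂ) (hA : MeasurableSet A) (H : ℂ → ℝ)
    (h : ∀ t : ℝ, 0 < t → 0 ≤ ∫ θ in Ioo (-Real.pi) Real.pi,
      A.indicator H (t * Complex.exp (θ * Complex.I))) :
    0 ≤ ∫ y in A, H y := by
  rw [← integral_indicator hA, ← Complex.integral_comp_polarCoord_symm]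
  by_cases hint : IntegrableOn (fun p : ℝ × ℝ => p.1 • A.indicator H (Complex.polarCoord.symm p))
      polarCoord.target
  · have ht : polarCoord.target = Ioi (0:ℝ) ×ˢ Ioo (-Real.pi) Real.pi := rfl
    rw [ht, Measure.volume_eq_prod] at hint ⊢
    rw [setIntegral_prod _ hint]
    apply setIntegral_nonneg measurableSet_Ioi
    intro t ht
    have e : (∫ θ in Ioo (-Real.pi) Real.pi,
        ((t, θ) : ℝ × ℝ).1 • A.indicator H (Complex.polarCoord.symm ((t, θ) : ℝ × ℝ))) =
        t * ∫ θ in Ioo (-Real.pi) Real.pi, A.indicator H (t * Complex.exp (θ * Complex.I)) := by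
      rw [← integral_const_mul]
      congr 1
      ext θ
      rw [Complex.polarCoord_symm_apply, Complex.exp_mul_I]
      simp
    rw [e]
    exact mul_nonneg (le_of_lt ht) (h t ht)
  · rw [integral_undef hint]

/-- the annular piece -/
def Ap (D : Set ℂ) (d r1 r2 : ℝ) : Set ℂ :=
  {y | y ∈ D ∧ 1 - r2 < ‖y‖ ∧ ‖y‖ < 1 - r1 ∧ |Complex.arg y| < d}

/-- the angular slice -/
def Et (D : Set ℂ) (d t : ℝ) : Set ℝ :=
  {θ | |θ| < d ∧ (t : ℂ) * Complex.exp (θ * Complex.I) ∈ D}

theorem meas_Ap (D : Set ℂ) (hD : MeasurableSet D) (d r1 r2 : ℝ) :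
    MeasurableSet (Ap D d r1 r2) := by
  unfold Ap
  refine hD.inter (MeasurableSet.inter ?_ (MeasurableSet.inter ?_ ?_))
  · exact measurableSet_lt measurable_const measurable_norm
  · exact measurableSet_lt measurable_norm measurable_const
  · exact measurableSet_lt (Complex.measurable_arg.abs) measurable_const

theorem meas_Et (D : Set ℂ) (hD : MeasurableSet D) (d t : ℝ) :
    MeasurableSet (Et D d t) := by
  unfold Et
  refine MeasurableSet.inter ?_ ?_
  · exact measurableSet_lt (measurable_id.abs) measurable_const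
  · have hc : Continuous (fun θ : ℝ => (t : ℂ) * Complex.exp (θ * Complex.I)) := by fun_prop
    exact hc.measurable hD

theorem G_contOn (r : ℝ) (hr : 0 < r) :
    ContinuousOn (fun y : ℂ => (y / (1 - y) ^ 2).re) (Metric.closedBall 0 (1 - r)) := by
  apply Complex.continuous_re.comp_continuousOn
  apply ContinuousOn.div continuousOn_id
  · exact ((continuous_const.sub continuous_id).pow 2).continuousOn
  · intro y hy h
    have h1 : (1 : ℂ) - y = 0 := by
      exact pow_eq_zero_iff (two_ne_zero) |>.1 h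
    have h2 : y = 1 := (sub_eq_zero.1 h1).symm
    rw [h2, mem_closedBall_zero_iff, norm_one] at hy
    linarith

theorem G_int (A : Set ℂ) (r : ℝ) (hr : 0 < r) (hA : A ⊆ Metric.closedBall 0 (1 - r)) :
    IntegrableOn (fun y : ℂ => (y / (1 - y) ^ 2).re) A :=
  ((G_contOn r hr).integrableOn_compact (isCompact_closedBall _ _)).mono_set hA

theorem slice_cont (t : ℝ) (ht0 : 0 < t) (ht1 : t < 1) :
    Continuous (fun θ : ℝ => ((t * Complex.exp (θ * Complex.I)) /
      (1 - t * Complex.exp (θ * Complex.I)) ^ 2 : ℂ).re) := by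
  apply Complex.continuous_re.comp
  apply Continuous.div
  · fun_prop
  · fun_prop
  · intro θ h
    have h1 : (1 : ℂ) - t * Complex.exp (θ * Complex.I) = 0 := by
      exact pow_eq_zero_iff (two_ne_zero) |>.1 h
    have h2 : (t : ℂ) * Complex.exp (θ * Complex.I) = 1 := (sub_eq_zero.1 h1).symm
    have h3 := congrArg norm h2
    rw [norm_mul, Complex.norm_exp_ofReal_mul_I, mul_one, norm_one, Complex.norm_real,
      Real.norm_eq_abs, abs_of_pos ht0] at h3
    linarith

theorem norm_pt (t θ : ℝ) (ht : 0 < t) : ‖(t : ℂ) * Complex.exp (θ * Complex.I)‖ = t := by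
  rw [norm_mul, Complex.norm_exp_ofReal_mul_I, mul_one, Complex.norm_real,
      Real.norm_eq_abs, abs_of_pos ht]

theorem arg_pt (t θ : ℝ) (ht : 0 < t) (hθ : θ ∈ Ioo (-Real.pi) Real.pi) :
    Complex.arg ((t : ℂ) * Complex.exp (θ * Complex.I)) = θ := by
  rw [Complex.exp_mul_I, ← Complex.ofReal_cos, ← Complex.ofReal_sin]
  have := Complex.arg_mul_cos_add_sin_mul_I ht (θ := θ) ⟨hθ.1, hθ.2.le⟩
  push_cast at this ⊢
  exact this

theorem core (D : Set ℂ) (d : ℝ) (hD : MeasurableSet D) (hd : 0 < d)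
    (hd2 : d < 1 / 2) (c r1 r2 : ℝ) (h1 : 0 < r1) (h12 : r1 ≤ r2) (h2 : r2 < d)
    (hc : ∀ t : ℝ, 1 - r2 < t → t < 1 - r1 → c * (volume (Et D d t)).toReal ≤
      ∫ θ in Et D d t, ((t * Complex.exp (θ * Complex.I)) /
        (1 - t * Complex.exp (θ * Complex.I)) ^ 2 : ℂ).re) :
    c * (volume (Ap D d r1 r2)).toReal ≤ ∫ y in Ap D d r1 r2, (y / (1 - y) ^ 2).re := by
  have hAsub : Ap D d r1 r2 ⊆ Metric.closedBall 0 (1 - r1) := by
    intro y hy
    rw [mem_closedBall_zero_iff]
    exact hy.2.2.1.le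
  have hfin : volume (Ap D d r1 r2) < ⊤ :=
    lt_of_le_of_lt (measure_mono hAsub) (isCompact_closedBall _ _).measure_lt_top
  have hint := G_int (Ap D d r1 r2) r1 h1 hAsub
  have hcint : IntegrableOn (fun _ : ℂ => c) (Ap D d r1 r2) := integrableOn_const hfin.ne
  have hsub : (∫ y in Ap D d r1 r2, ((y / (1 - y) ^ 2).re - c)) =
      (∫ y in Ap D d r1 r2, (y / (1 - y) ^ 2).re) - c * (volume (Ap D d r1 r2)).toReal := by
    rw [integral_sub hint hcint, setIntegral_const, measureReal_def, smul_eq_mul, mul_comm c]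
  have hnn : 0 ≤ ∫ y in Ap D d r1 r2, ((y / (1 - y) ^ 2).re - c) := by
    apply polar_nonneg _ (meas_Ap D hD d r1 r2)
    intro t ht
    by_cases htt : 1 - r2 < t ∧ t < 1 - r1
    · have hEsub : Et D d t ⊆ Ioo (-Real.pi) Real.pi := by
        intro θ hθ
        have := abs_lt.1 hθ.1
        have hpi := Real.pi_gt_three
        constructor <;> linarith [this.1, this.2]
      have hEsub2 : Et D d t ⊆ Icc (-d) d := by
        intro θ hθ
        have := abs_lt.1 hθ.1
        exact ⟨this.1.le, this.2.le⟩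
      have hEfin : volume (Et D d t) < ⊤ :=
        lt_of_le_of_lt (measure_mono hEsub2) isCompact_Icc.measure_lt_top
      have heq : (∫ θ in Ioo (-Real.pi) Real.pi,
          (Ap D d r1 r2).indicator (fun y : ℂ => (y / (1 - y) ^ 2).re - c)
            (t * Complex.exp (θ * Complex.I))) =
          ∫ θ in Ioo (-Real.pi) Real.pi, (Et D d t).indicator
            (fun θ : ℝ => ((t * Complex.exp (θ * Complex.I)) /
              (1 - t * Complex.exp (θ * Complex.I)) ^ 2 : ℂ).re - c) θ := by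
        apply setIntegral_congr_fun measurableSet_Ioo
        intro θ hθ
        have hiff : ((t : ℂ) * Complex.exp (θ * Complex.I) ∈ Ap D d r1 r2) ↔ θ ∈ Et D d t := by
          unfold Ap Et
          simp only [Set.mem_ofPred_eq]
          rw [norm_pt t θ ht, arg_pt t θ ht hθ]
          constructor
          · rintro ⟨h1, _, _, h4⟩
            exact ⟨h4, h1⟩
          · rintro ⟨h1, h2⟩
            exact ⟨h2, htt.1, htt.2, h1⟩
        by_cases hm : θ ∈ Et D d t
        · simp only [Set.indicator_of_mem hm, Set.indicator_of_mem (hiff.2 hm)]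
        · have hm' : (t : ℂ) * Complex.exp (θ * Complex.I) ∉ Ap D d r1 r2 := fun h => hm (hiff.1 h)
          simp only [Set.indicator_of_notMem hm, Set.indicator_of_notMem hm']
      rw [heq, setIntegral_indicator (meas_Et D hD d t), Set.inter_eq_right.2 hEsub,
        integral_sub, setIntegral_const, measureReal_def, smul_eq_mul, mul_comm]
      · have := hc t htt.1 htt.2
        linarith
      · exact ((slice_cont t ht (by linarith [htt.2])).integrableOn_Icc (a := -d) (b := d)).mono_set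
          hEsub2
      · exact integrableOn_const hEfin.ne
    · have hz : ∀ θ : ℝ, (Ap D d r1 r2).indicator (fun y : ℂ => (y / (1 - y) ^ 2).re - c)
            (t * Complex.exp (θ * Complex.I)) = 0 := by
        intro θ
        apply Set.indicator_of_notMem
        rintro ⟨_, h2, h3, _⟩
        rw [norm_pt t θ ht] at h2 h3
        exact htt ⟨h2, h3⟩
      simp only [hz, integral_zero, le_refl]
  rw [hsub] at hnn
  linarith

theorem bD_diff (D : Set ℂ) (d : ℝ) (hD : MeasurableSet D) (r1 r2 : ℝ) (h1 : 0 < r1)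
    (h12 : r1 ≤ r2) (h2 : r2 < d) :
    bD D d r1 - bD D d r2 = (1 / (2 * Real.pi)) * ∫ y in Ap D d r1 r2, (y / (1 - y) ^ 2).re := by
  unfold bD
  rw [← mul_sub]
  congr 1
  have hms : ∀ r : ℝ, MeasurableSet {y : ℂ | y ∈ D ∧ 1 - d < ‖y‖ ∧ ‖y‖ < 1 - r ∧ |Complex.arg y| < d} :=
    fun r => by
      refine hD.inter (MeasurableSet.inter ?_ (MeasurableSet.inter ?_ ?_))
      · exact measurableSet_lt measurable_const measurable_norm
      · exact measurableSet_lt measurable_norm measurable_const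
      · exact measurableSet_lt (Complex.measurable_arg.abs) measurable_const
  rw [← integral_diff (hms r2)]
  · apply setIntegral_congr_set
    have hsph : volume (Metric.sphere (0 : ℂ) (1 - r2)) = 0 :=
      Measure.addHaar_sphere _ _ _
    have hae : ∀ᵐ y : ℂ, y ∉ Metric.sphere (0 : ℂ) (1 - r2) := measure_eq_zero_iff_ae_notMem.1 hsph
    filter_upwards [hae] with y hy
    rw [mem_sphere_zero_iff_norm] at hy
    apply propext
    constructor
    · rintro ⟨⟨ha, hb, hc, hd⟩, hn⟩
      refine ⟨ha, ?_, hc, hd⟩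
      by_contra hlt
      rw [not_lt] at hlt
      exact hn ⟨ha, hb, lt_of_le_of_ne hlt hy, hd⟩
    · rintro ⟨ha, hb, hc, hd⟩
      refine ⟨⟨ha, by linarith, hc, hd⟩, ?_⟩
      rintro ⟨_, _, h3, _⟩
      linarith
  · apply G_int _ r1 h1
    rintro y ⟨_, _, hy, _⟩
    rw [mem_closedBall_zero_iff]
    exact hy.le
  · rintro y ⟨ha, hb, hc, hd⟩
    exact ⟨ha, hb, by linarith, hd⟩

end Auxbmono

/- TARGET, proof in plain words:
Write G(y) = Re(y/(1-y)²).  For 0 < r1 ≤ r2 < d: 2π(bD d r1 - bD d r2) = ∫_A G, A = {y ∈ D, 1-r2 ≤ ‖y‖ < 1-r1, |arg y| < d} (G is bounded on {‖y‖ < 1-r1}: ‖1-y‖ > r1; D finite volume; the sets nest).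
Polar coordinates (Complex.integral_comp_polarCoord_symm) and Fubini: ∫_A G = ∫_{t in [1-r2,1-r1)} t ∫_{θ ∈ E_t} G(t e^{iθ}) dθ dt, E_t = {θ : |θ| < d, t e^{iθ} ∈ D} (d < 1/2 < π; arg(t e^{iθ}) = θ, ‖t e^{iθ}‖ = t).
E_t satisfies the hypotheses of t_bmonot (the monotonicity hypothesis on D; 1-d < 1 - r2 ≤ t < 1; t > 1/2), so the inner integral is ≥ 0: first claim.
Second claim: given K put cK = 1/(16π(1+K²)).  For t in (1-r2, 1-r1) the hypothesis gives |θ| ≤ K(1-t) on E_t and 1-t ≤ r2, so the inner integral is ≥ (1/(8(1+K²)r2²)) vol(E_t).  Integrate against t dt: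
 ∫_A G ≥ (1/(8(1+K²)r2²)) vol{y ∈ D, 1-r2 < ‖y‖ < 1-r1, |arg y| < d}  (same polar coordinates for the constant function 1; the circle ‖y‖ = 1-r2 is null).  Divide by 2π.
-/
theorem t_bmono : S_bmono := by
  intro D d hD hDb hd hd2 hmono
  have hslice : ∀ r1 r2 t : ℝ, 0 < r1 → r1 ≤ r2 → r2 < d → 1 - r2 < t → t < 1 - r1 → _ :=
    fun r1 r2 t h1 h12 h2 ht1 ht2 =>
      t_bmonot t d (Auxbmono.Et D d t) (by linarith) (by linarith) hd hd2 (fun θ hθ => hθ.1)
        (fun θ1 θ2 h hθ => ⟨lt_of_le_of_lt h hθ.1,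
          hmono t θ1 θ2 (by linarith) (by linarith) h hθ.1 hθ.2⟩)
  constructor
  · intro r1 r2 h1 h12 h2
    have hc := Auxbmono.core D d hD hd hd2 0 r1 r2 h1 h12 h2 (by
      intro t ht1 ht2
      rw [zero_mul]
      exact (hslice r1 r2 t h1 h12 h2 ht1 ht2).2.1)
    rw [zero_mul] at hc
    have hb := Auxbmono.bD_diff D d hD r1 r2 h1 h12 h2
    have : 0 ≤ (1 / (2 * Real.pi)) * ∫ y in Auxbmono.Ap D d r1 r2, (y / (1 - y) ^ 2).re :=
      mul_nonneg (by positivity) hc
    linarith
  · intro K hK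
    refine ⟨1 / (16 * Real.pi * (1 + K ^ 2)), by positivity, ?_⟩
    intro r1 r2 h1 h12 h2 hcone
    have hr2 : 0 < r2 := lt_of_lt_of_le h1 h12
    have hc := Auxbmono.core D d hD hd hd2 (1 / (8 * (1 + K ^ 2) * r2 ^ 2)) r1 r2 h1 h12 h2 (by
      intro t ht1 ht2
      have ht0 : 0 < t := by linarith
      refine (hslice r1 r2 t h1 h12 h2 ht1 ht2).2.2 K r2 hK (by linarith) ?_
      intro θ hθ
      have hpi := Real.pi_gt_three
      have habs := abs_lt.1 hθ.1
      have harg := Auxbmono.arg_pt t θ ht0 ⟨by linarith [habs.1], by linarith [habs.2]⟩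
      have hnorm := Auxbmono.norm_pt t θ ht0
      have := hcone _ hθ.2 (by rw [hnorm]; exact ht1) (by rw [harg]; exact hθ.1)
      rw [harg, hnorm] at this
      exact this)
    have hb := Auxbmono.bD_diff D d hD r1 r2 h1 h12 h2
    rw [hb]
    have hpi := Real.pi_pos
    have := mul_le_mul_of_nonneg_left hc (show 0 ≤ 1 / (2 * Real.pi) by positivity)
    refine le_trans (le_of_eq ?_) this
    unfold Auxbmono.Ap
    field_simp
    ring

end Pool.Agent.H682_VS
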