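import Pool.Agent.H682_VS.Stmts
import Pool.Agent.H682_VS.T_polar

/-! # grad -/

set_option autoImplicit false

open MeasureTheory Set Filter Topology

namespace Pool.Agent.H682_VS


namespace Auxgrad

lemma meas_inv (c : ℂ) : Measurable (fun y : ℂ => (c - y)⁻¹) :=
  (measurable_const.sub measurable_id).inv

lemma int_norm {D : Set ℂ} (hD : D ⊆ Metric.ball 0 1) (c : ℂ) :
    IntegrableOn (fun y : ℂ => ‖y - c‖⁻¹) D := by
  have h := (t_P1 c (‖c‖ + 1) (by positivity)).1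
  have hsub : D ⊆ Metric.ball c (‖c‖ + 1) := by
    intro y hy
    have := hD hy
    rw [mem_ball_zero_iff] at this
    rw [Metric.mem_ball, dist_eq_norm]
    calc ‖y - c‖ ≤ ‖y‖ + ‖c‖ := norm_sub_le _ _
      _ < ‖c‖ + 1 := by linarith
  exact h.mono_set hsub

lemma int_cau {D : Set ℂ} (hD : D ⊆ Metric.ball 0 1) (c : ℂ) :
    IntegrableOn (fun y : ℂ => (c - y)⁻¹) D := by
  refine Integrable.mono' (int_norm hD c) (meas_inv c).aestronglyMeasurable ?_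
  refine Filter.Eventually.of_forall (fun y => ?_)
  rw [norm_inv, norm_sub_rev]

/-- pointwise bound of the product kernel -/
lemma ker_bound {w y : ℂ} {r : ℝ} (hr : 0 < r) (hw : ‖w - 1‖ = r) :
    ‖((w - y) * (1 - y))⁻¹‖ ≤ 2 / r * (‖y - 1‖⁻¹ + ‖y - w‖⁻¹) := by
  have hA : 0 ≤ ‖y - 1‖ := norm_nonneg _
  have hB : 0 ≤ ‖y - w‖ := norm_nonneg _
  have hAi : 0 ≤ ‖y - 1‖⁻¹ := inv_nonneg.2 hA
  have hBi : 0 ≤ ‖y - w‖⁻¹ := inv_nonneg.2 hB
  rw [norm_inv, norm_mul, norm_sub_rev w y, norm_sub_rev 1 y, mul_inv]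
  have htri : r ≤ ‖y - w‖ + ‖y - 1‖ := by
    have : w - 1 = (y - 1) - (y - w) := by ring
    rw [← hw, this]
    have := norm_sub_le (y - 1) (y - w)
    linarith
  have h2r : 0 ≤ 2 / r := by positivity
  rcases le_total (r / 2) ‖y - w‖ with h | h
  · have h1 : ‖y - w‖⁻¹ ≤ 2 / r := by
      rw [show (2 : ℝ) / r = (r / 2)⁻¹ by field_simp]
      exact inv_anti₀ (by positivity) h
    calc ‖y - w‖⁻¹ * ‖y - 1‖⁻¹ ≤ 2 / r * ‖y - 1‖⁻¹ := mul_le_mul_of_nonneg_right h1 hAi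
      _ ≤ 2 / r * (‖y - 1‖⁻¹ + ‖y - w‖⁻¹) := by
          apply mul_le_mul_of_nonneg_left _ h2r
          linarith
  · have h' : r / 2 ≤ ‖y - 1‖ := by linarith
    have h1 : ‖y - 1‖⁻¹ ≤ 2 / r := by
      rw [show (2 : ℝ) / r = (r / 2)⁻¹ by field_simp]
      exact inv_anti₀ (by positivity) h'
    calc ‖y - w‖⁻¹ * ‖y - 1‖⁻¹ ≤ ‖y - w‖⁻¹ * (2 / r) := mul_le_mul_of_nonneg_left h1 hBi
      _ ≤ 2 / r * (‖y - 1‖⁻¹ + ‖y - w‖⁻¹) := by
          rw [mul_comm]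
          apply mul_le_mul_of_nonneg_left _ h2r
          linarith

lemma meas_ker (w : ℂ) : Measurable (fun y : ℂ => ((w - y) * (1 - y))⁻¹) :=
  ((measurable_const.sub measurable_id).mul (measurable_const.sub measurable_id)).inv

lemma int_ker {D : Set ℂ} (hD : D ⊆ Metric.ball 0 1) {w : ℂ} {r : ℝ} (hr : 0 < r)
    (hw : ‖w - 1‖ = r) : IntegrableOn (fun y : ℂ => ((w - y) * (1 - y))⁻¹) D := by
  refine Integrable.mono' (((int_norm hD 1).add (int_norm hD w)).const_mul (2 / r))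
    (meas_ker w).aestronglyMeasurable ?_
  exact Filter.Eventually.of_forall (fun y => ker_bound hr hw)

/-- first part -/
lemma first {D : Set ℂ} (hD : D ⊆ Metric.ball 0 1) {w : ℂ} {r : ℝ} (hr : 0 < r)
    (hw : ‖w - 1‖ = r) :
    ‖∫ y in D ∩ Metric.ball 1 (2 * r), ((w - y) * (1 - y))⁻¹‖ ≤ 20 * Real.pi := by
  have hsub1 : D ∩ Metric.ball 1 (2 * r) ⊆ Metric.ball 1 (2 * r) := inter_subset_right
  have hsub2 : D ∩ Metric.ball 1 (2 * r) ⊆ Metric.ball w (3 * r) := by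
    intro y hy
    have h1 := hy.2
    rw [Metric.mem_ball, dist_eq_norm] at h1 ⊢
    have : y - w = (y - 1) - (w - 1) := by ring
    rw [this]
    have := norm_sub_le (y - 1) (w - 1)
    linarith
  obtain ⟨i1, e1⟩ := t_P1 1 (2 * r) (by positivity)
  obtain ⟨i2, e2⟩ := t_P1 w (3 * r) (by positivity)
  have hb1 : ∫ y in D ∩ Metric.ball 1 (2 * r), ‖y - 1‖⁻¹ ≤ 2 * Real.pi * (2 * r) := by
    rw [← e1]
    apply setIntegral_mono_set i1
    · exact Filter.Eventually.of_forall (fun y => inv_nonneg.2 (norm_nonneg _))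
    · exact hsub1.eventuallyLE
  have hb2 : ∫ y in D ∩ Metric.ball 1 (2 * r), ‖y - w‖⁻¹ ≤ 2 * Real.pi * (3 * r) := by
    rw [← e2]
    apply setIntegral_mono_set i2
    · exact Filter.Eventually.of_forall (fun y => inv_nonneg.2 (norm_nonneg _))
    · exact hsub2.eventuallyLE
  have j1 : IntegrableOn (fun y : ℂ => ‖y - 1‖⁻¹) (D ∩ Metric.ball 1 (2 * r)) := i1.mono_set hsub1
  have j2 : IntegrableOn (fun y : ℂ => ‖y - w‖⁻¹) (D ∩ Metric.ball 1 (2 * r)) := i2.mono_set hsub2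
  have hkey : ‖∫ y in D ∩ Metric.ball 1 (2 * r), ((w - y) * (1 - y))⁻¹‖
      ≤ ∫ y in D ∩ Metric.ball 1 (2 * r), 2 / r * (‖y - 1‖⁻¹ + ‖y - w‖⁻¹) := by
    apply norm_integral_le_of_norm_le ((j1.add j2).const_mul (2 / r))
    exact Filter.Eventually.of_forall (fun y => ker_bound hr hw)
  refine hkey.trans ?_
  rw [integral_const_mul, integral_add j1 j2]
  calc 2 / r * ((∫ y in D ∩ Metric.ball 1 (2 * r), ‖y - 1‖⁻¹) + ∫ y in D ∩ Metric.ball 1 (2 * r), ‖y - w‖⁻¹)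
      ≤ 2 / r * (2 * Real.pi * (2 * r) + 2 * Real.pi * (3 * r)) := by
        apply mul_le_mul_of_nonneg_left _ (by positivity)
        linarith
    _ = 20 * Real.pi := by field_simp; ring

lemma second_bound {w y : ℂ} {r : ℝ} (hr : 0 < r) (hw : ‖w - 1‖ = r)
    (hy : y ∉ Metric.ball (1 : ℂ) (2 * r)) :
    ‖((w - y) * (1 - y))⁻¹ - ((1 - y) ^ 2)⁻¹‖ ≤ 2 * r * (‖y - 1‖ ^ 3)⁻¹ := by
  rw [Metric.mem_ball, dist_eq_norm, not_lt] at hy
  have h1 : 0 < ‖y - 1‖ := by linarith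
  have hwy : ‖y - 1‖ / 2 ≤ ‖w - y‖ := by
    have e : y - 1 = (w - 1) - (w - y) := by ring
    have := norm_sub_le (w - 1) (w - y)
    rw [← e] at this
    linarith
  have hwy0 : 0 < ‖w - y‖ := by linarith
  have n1 : (1 : ℂ) - y ≠ 0 := by
    rw [← norm_pos_iff, norm_sub_rev]; exact h1
  have n2 : w - y ≠ 0 := norm_pos_iff.1 hwy0
  have e : ((w - y) * (1 - y))⁻¹ - ((1 - y) ^ 2)⁻¹ = -(w - 1) * ((w - y) * (1 - y) ^ 2)⁻¹ := by
    field_simp
    ring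
  rw [e, norm_mul, norm_neg, hw, norm_inv, norm_mul, norm_pow, norm_sub_rev 1 y]
  have h3 : (‖w - y‖ * ‖y - 1‖ ^ 2)⁻¹ ≤ 2 * (‖y - 1‖ ^ 3)⁻¹ := by
    rw [show (2 : ℝ) * (‖y - 1‖ ^ 3)⁻¹ = (‖y - 1‖ / 2 * ‖y - 1‖ ^ 2)⁻¹ by field_simp]
    apply inv_anti₀ (by positivity)
    exact mul_le_mul_of_nonneg_right hwy (by positivity)
  calc r * (‖w - y‖ * ‖y - 1‖ ^ 2)⁻¹ ≤ r * (2 * (‖y - 1‖ ^ 3)⁻¹) :=
        mul_le_mul_of_nonneg_left h3 hr.le
    _ = 2 * r * (‖y - 1‖ ^ 3)⁻¹ := by ring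

lemma meas_sq : Measurable (fun y : ℂ => ((1 - y) ^ 2)⁻¹) :=
  ((measurable_const.sub measurable_id).pow_const 2).inv

lemma second_int {D : Set ℂ} (hDm : MeasurableSet D) {w : ℂ} {r : ℝ} (hr : 0 < r)
    (hw : ‖w - 1‖ = r) :
    IntegrableOn (fun y : ℂ => ((w - y) * (1 - y))⁻¹ - ((1 - y) ^ 2)⁻¹) (D \ Metric.ball 1 (2 * r)) ∧
    ‖∫ y in D \ Metric.ball 1 (2 * r), (((w - y) * (1 - y))⁻¹ - ((1 - y) ^ 2)⁻¹)‖ ≤ 2 * Real.pi := by
  obtain ⟨i2, e2⟩ := t_P2 1 (2 * r) (by positivity)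
  have hsub : D \ Metric.ball 1 (2 * r) ⊆ (Metric.ball 1 (2 * r))ᶜ := fun y hy => hy.2
  have j2 := i2.mono_set hsub
  have hE : MeasurableSet (D \ Metric.ball (1 : ℂ) (2 * r)) := hDm.diff measurableSet_ball
  have hae : ∀ᵐ y ∂(volume.restrict (D \ Metric.ball (1 : ℂ) (2 * r))),
      ‖((w - y) * (1 - y))⁻¹ - ((1 - y) ^ 2)⁻¹‖ ≤ 2 * r * (‖y - 1‖ ^ 3)⁻¹ := by
    filter_upwards [ae_restrict_mem hE] with y hy
    exact second_bound hr hw hy.2
  refine ⟨Integrable.mono' (j2.const_mul (2 * r)) ((meas_ker w).sub meas_sq).aestronglyMeasurable hae, ?_⟩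
  refine (norm_integral_le_of_norm_le (j2.const_mul (2 * r)) hae).trans ?_
  rw [integral_const_mul]
  have hb : ∫ y in D \ Metric.ball 1 (2 * r), (‖y - 1‖ ^ 3)⁻¹ ≤ 2 * Real.pi / (2 * r) := by
    rw [← e2]
    apply setIntegral_mono_set i2
    · exact Filter.Eventually.of_forall (fun y => by positivity)
    · exact hsub.eventuallyLE
  calc 2 * r * ∫ y in D \ Metric.ball 1 (2 * r), (‖y - 1‖ ^ 3)⁻¹
      ≤ 2 * r * (2 * Real.pi / (2 * r)) := mul_le_mul_of_nonneg_left hb (by positivity)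
    _ = 2 * Real.pi := by field_simp

lemma sq_int {D : Set ℂ} (hDm : MeasurableSet D) (hD : D ⊆ Metric.ball 0 1) {w : ℂ} {r : ℝ}
    (hr : 0 < r) (hw : ‖w - 1‖ = r) :
    IntegrableOn (fun y : ℂ => ((1 - y) ^ 2)⁻¹) (D \ Metric.ball 1 (2 * r)) := by
  have h1 := (second_int hDm hr hw).1
  have h2 := (int_ker hD hr hw).mono_set (sdiff_subset : D \ Metric.ball 1 (2 * r) ⊆ D)
  have h3 := h2.sub h1
  refine h3.congr (Filter.Eventually.of_forall (fun y => ?_))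
  simp

lemma im_zero {D : Set ℂ} (hsym : ∀ w : ℂ, w ∈ D ↔ (starRingEnd ℂ) w ∈ D) (r : ℝ) :
    ∫ y in D \ Metric.ball (1 : ℂ) r, (((1 - y) ^ 2)⁻¹).im = 0 := by
  have hmp : MeasurePreserving (Complex.conjLIE : ℂ → ℂ) volume volume :=
    Complex.conjLIE.measurePreserving
  have hemb : MeasurableEmbedding (Complex.conjLIE : ℂ → ℂ) :=
    Complex.conjLIE.toHomeomorph.measurableEmbedding
  have h := hmp.setIntegral_preimage_emb hemb (fun y : ℂ => (((1 - y) ^ 2)⁻¹).im)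
    (D \ Metric.ball (1 : ℂ) r)
  have hpre : (Complex.conjLIE : ℂ → ℂ) ⁻¹' (D \ Metric.ball (1 : ℂ) r) = D \ Metric.ball (1 : ℂ) r := by
    ext y
    have hb : (starRingEnd ℂ) y ∈ Metric.ball (1 : ℂ) r ↔ y ∈ Metric.ball (1 : ℂ) r := by
      rw [Metric.mem_ball, Metric.mem_ball, dist_eq_norm, dist_eq_norm]
      have : (starRingEnd ℂ) y - 1 = (starRingEnd ℂ) (y - 1) := by simp
      rw [this, Complex.norm_conj]
    simp only [mem_preimage, Set.mem_sdiff, Complex.conjLIE_apply]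
    rw [hb, ← hsym y]
  rw [hpre] at h
  have h2 : ∀ y : ℂ, (((1 - (Complex.conjLIE y : ℂ)) ^ 2)⁻¹).im = -(((1 - y) ^ 2)⁻¹).im := by
    intro y
    have : ((1 - (Complex.conjLIE y : ℂ)) ^ 2)⁻¹ = (starRingEnd ℂ) (((1 - y) ^ 2)⁻¹) := by
      simp [Complex.conjLIE_apply]
    rw [this, Complex.conj_im]
  simp only [h2] at h
  rw [integral_neg] at h
  linarith

end Auxgrad

/- TARGET, proof in plain words:
C0 = 6 (any constant works).  z = w - 1, r = ‖z‖; r = 0 is trivial (both sides 0).  Let 0 < r ≤ 1/2.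
cau D w - cau D 1 = ∫_D [1/(w-y) - 1/(1-y)] dy = -z ∫_D dy/((w-y)(1-y))   (a.e. y; the integrands are integrable on D ⊂ ball 0 1: t_P1), so
 -(1/2π)(cau D w - cau D 1) = (z/2π) ∫_D 1/((w-y)(1-y)) dy.
By the symmetry D = conj D (measure preserving map conj) ∫_{D \ ball 1 (2r)} ((1-y)²)⁻¹ dy is real, so aD D r = (1/2π) ∫_{D \ ball 1 (2r)} ((1-y)²)⁻¹ dy as a complex number
 (the integrand is bounded by 1/(4r²) there, D has finite volume).
Difference = (z/2π) [ ∫_{D ∩ ball 1 (2r)} 1/((w-y)(1-y)) + ∫_{D \ ball 1 (2r)} (1/((w-y)(1-y)) - 1/(1-y)²) ].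
First integral: where ‖w-y‖ ≥ r/2 the integrand is ≤ (2/r)/‖1-y‖, integral over ball 1 (2r) ≤ (2/r)·2π·2r = 8π (t_P1); where ‖w-y‖ < r/2 one has ‖1-y‖ ≥ r/2 so it is ≤ (2/r)/‖w-y‖,
 integral over ball w (r/2) = (2/r) 2π (r/2) = 2π.
Second: the integrand equals -z/((w-y)(1-y)²)... = (1/(1-y))·(-z)/((w-y)(1-y)), norm ≤ r/(‖1-y‖²‖w-y‖) ≤ 2r/‖1-y‖³ since ‖w-y‖ ≥ ‖1-y‖ - r ≥ ‖1-y‖/2; integral ≤ 2r·2π/(2r) = 2π (t_P2).
Total ≤ (r/2π)(12π) = 6r.
-/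
theorem t_grad : S_grad := by
  intro D hDm hD hsym
  refine ⟨11, by norm_num, ?_⟩
  intro w _
  rcases eq_or_ne (w - 1) 0 with h0 | h0
  · have : w = 1 := sub_eq_zero.1 h0
    subst this
    simp
  set r : ℝ := ‖w - 1‖ with hrdef
  have hr : 0 < r := norm_pos_iff.2 h0
  have hw : ‖w - 1‖ = r := rfl
  -- the difference of the Cauchy transforms
  have hcau : cau D w - cau D 1 = -(w - 1) * ∫ y in D, ((w - y) * (1 - y))⁻¹ := by
    unfold cau
    rw [← integral_sub (Auxgrad.int_cau hD w) (Auxgrad.int_cau hD 1), ← integral_const_mul]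
    apply integral_congr_ae
    have hfin : ({w, 1} : Set ℂ).Finite := by simp
    have hnull : volume ({w, 1} : Set ℂ) = 0 := hfin.measure_zero _
    have hae : ∀ᵐ y ∂(volume.restrict D), y ∉ ({w, 1} : Set ℂ) :=
      ae_restrict_of_ae (measure_eq_zero_iff_ae_notMem.1 hnull)
    filter_upwards [hae] with y hy
    simp only [mem_insert_iff, mem_singleton_iff, not_or] at hy
    have n1 : w - y ≠ 0 := sub_ne_zero.2 (Ne.symm hy.1)
    have n2 : (1 : ℂ) - y ≠ 0 := sub_ne_zero.2 (Ne.symm hy.2)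
    field_simp
    ring
  have hsplit : ∫ y in D, ((w - y) * (1 - y))⁻¹
      = (∫ y in D ∩ Metric.ball 1 (2 * r), ((w - y) * (1 - y))⁻¹)
        + ∫ y in D \ Metric.ball 1 (2 * r), ((w - y) * (1 - y))⁻¹ :=
    (integral_inter_add_sdiff measurableSet_ball (Auxgrad.int_ker hD hr hw)).symm
  have hsq := Auxgrad.sq_int hDm hD hr hw
  have hreal : ∫ y in D \ Metric.ball 1 (2 * r), ((1 - y) ^ 2)⁻¹
      = ((∫ y in D \ Metric.ball 1 (2 * r), (((1 - y) ^ 2)⁻¹).re : ℝ) : ℂ) := by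
    have h := integral_re_add_im hsq
    have him := Auxgrad.im_zero hsym (2 * r)
    rw [← h]
    have h1 : ∫ y in D \ Metric.ball (1 : ℂ) (2 * r), RCLike.im (((1 - y) ^ 2)⁻¹) = 0 := him
    rw [h1]
    simp
  have hdiff : ∫ y in D \ Metric.ball 1 (2 * r), ((w - y) * (1 - y))⁻¹
      = (∫ y in D \ Metric.ball 1 (2 * r), (((w - y) * (1 - y))⁻¹ - ((1 - y) ^ 2)⁻¹))
        + ∫ y in D \ Metric.ball 1 (2 * r), ((1 - y) ^ 2)⁻¹ := by
    rw [← integral_add (Auxgrad.second_int hDm hr hw).1 hsq]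
    simp
  have hmain : -(1 / (2 * Real.pi) : ℂ) * (cau D w - cau D 1) - (aD D r : ℂ) * (w - 1)
      = (1 / (2 * Real.pi) : ℂ) * (w - 1) *
        ((∫ y in D ∩ Metric.ball 1 (2 * r), ((w - y) * (1 - y))⁻¹)
          + ∫ y in D \ Metric.ball 1 (2 * r), (((w - y) * (1 - y))⁻¹ - ((1 - y) ^ 2)⁻¹)) := by
    rw [hcau, hsplit, hdiff, hreal]
    unfold aD
    push_cast
    ring
  rw [hmain, norm_mul, norm_mul]
  have hn1 : ‖(1 / (2 * Real.pi) : ℂ)‖ = 1 / (2 * Real.pi) := by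
    have : (1 / (2 * Real.pi) : ℂ) = ((1 / (2 * Real.pi) : ℝ) : ℂ) := by push_cast; ring
    rw [this, Complex.norm_real, Real.norm_of_nonneg (by positivity)]
  rw [hn1, hw]
  have hb : ‖(∫ y in D ∩ Metric.ball 1 (2 * r), ((w - y) * (1 - y))⁻¹)
          + ∫ y in D \ Metric.ball 1 (2 * r), (((w - y) * (1 - y))⁻¹ - ((1 - y) ^ 2)⁻¹)‖
      ≤ 22 * Real.pi := by
    refine (norm_add_le _ _).trans ?_
    have a1 := Auxgrad.first hD hr hw
    have a2 := (Auxgrad.second_int hDm hr hw).2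
    linarith
  calc 1 / (2 * Real.pi) * r * ‖(∫ y in D ∩ Metric.ball 1 (2 * r), ((w - y) * (1 - y))⁻¹)
          + ∫ y in D \ Metric.ball 1 (2 * r), (((w - y) * (1 - y))⁻¹ - ((1 - y) ^ 2)⁻¹)‖
      ≤ 1 / (2 * Real.pi) * r * (22 * Real.pi) := mul_le_mul_of_nonneg_left hb (by positivity)
    _ = 11 * r := by field_simp; ring

end Pool.Agent.H682_VS
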