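import Pool.Agent.H682_VS.Stmts
import Pool.Agent.H682_VS.T_polar

/-! # psi -/

set_option autoImplicit false

open MeasureTheory Set Filter Topology

namespace Pool.Agent.H682_VS


/- TARGET, proof in plain words:
Regularise: for δ in (0,1] f_δ(w) = (1/4π) ∫_D log(‖w-y‖² + δ²) dy and g_δ(w) = ∫_D conj(w-y)/(‖w-y‖²+δ²) dy.
(1) f_δ has derivative h ↦ (1/2π) Re(g_δ(w) h): differentiate under the integral (hasFDerivAt_integral_of_dominated_of_fderiv_le; D bounded, so finite volume; the derivative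
   of w ↦ (1/2) log(‖w-y‖²+δ²) is h ↦ Re(conj(w-y) h)/(‖w-y‖²+δ²), bounded by 1/δ).
(2) g_δ → cau D uniformly on ℂ as δ → 0: |1/z - conj z/(|z|²+δ²)| = δ²/(|z|(|z|²+δ²)) (z ≠ 0) and ∫_ℂ δ²/(|z|(|z|²+δ²)) dz = 2π ∫_0^∞ δ²/(r²+δ²) dr = π² δ; or cheaper:
   split at |z| = δ:  ∫_{|z|<δ} 1/|z| = 2πδ (t_P1) and for |z| ≥ δ the function is ≤ δ²/|z|³ with integral 2πδ (t_P2): total ≤ 4πδ.
(3) f_δ(w) → psi D w pointwise (in fact |(1/2) log(|z|²+δ²) - log|z|| = (1/2) log(1+δ²/|z|²) ≤ δ/|z| (log(1+t²) ≤ 2t for t ≥ 0), so the difference is ≤ (δ/2π) ∫_D 1/‖w-y‖ → 0).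
   Integrability of log‖w-·‖ on the bounded set D: t_P4.
(4) `hasFDerivAt_of_tendstoUniformly` (Mathlib/Analysis/Calculus/UniformLimitsDeriv.lean) with δ = 1/(n+1): psi D has derivative (1/2π) Re(cau D w ·) at every w.
(5) each g_δ is continuous (dominated convergence, integrand bounded by 1/δ... ‖conj(z)/(|z|²+δ²)‖ ≤ 1/(2δ)), and the uniform limit of continuous functions is continuous
   (TendstoUniformly.continuous): cau D is continuous.
-/
namespace Auxpsi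

/-- `c ↦ Re(c·)` -/
noncomputable def L : ℂ →L[ℝ] (ℂ →L[ℝ] ℝ) :=
  (ContinuousLinearMap.compL ℝ ℂ ℂ ℝ Complex.reCLM).comp (ContinuousLinearMap.mul ℝ ℂ)

theorem L_apply (c : ℂ) : L c = Complex.reCLM.comp (ContinuousLinearMap.mul ℝ ℂ c) := rfl

/-- regularised kernel -/
noncomputable def ker (δ : ℝ) (z : ℂ) : ℂ := (starRingEnd ℂ z) / ((‖z‖ ^ 2 + δ ^ 2 : ℝ) : ℂ)

theorem den_pos {δ : ℝ} (hδ : 0 < δ) (z : ℂ) : 0 < ‖z‖ ^ 2 + δ ^ 2 := by positivity

theorem continuous_ker {δ : ℝ} (hδ : 0 < δ) : Continuous (ker δ) := by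
  unfold ker
  apply Continuous.div
  · exact Complex.continuous_conj
  · exact Complex.continuous_ofReal.comp (by fun_prop)
  · intro z
    exact_mod_cast (den_pos hδ z).ne'

theorem norm_ker_le {δ : ℝ} (hδ : 0 < δ) (z : ℂ) : ‖ker δ z‖ ≤ δ⁻¹ := by
  unfold ker
  rw [norm_div, Complex.norm_conj, Complex.norm_real, Real.norm_of_nonneg (den_pos hδ z).le,
    div_le_iff₀ (den_pos hδ z)]
  have h1 : 0 ≤ ‖z‖ := norm_nonneg z
  have h2 : δ⁻¹ * (‖z‖ ^ 2 + δ ^ 2) = δ⁻¹ * ‖z‖ ^ 2 + δ := by field_simp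
  rw [h2]
  have h3 : 0 ≤ δ⁻¹ * (‖z‖ - δ) ^ 2 := by positivity
  have h4 : δ⁻¹ * (‖z‖ - δ) ^ 2 = δ⁻¹ * ‖z‖ ^ 2 - 2 * ‖z‖ + δ := by field_simp; ring
  nlinarith

theorem hasFDerivAt_log {δ : ℝ} (hδ : 0 < δ) (y w : ℂ) :
    HasFDerivAt (fun w : ℂ => (1 / 2) * Real.log (‖w - y‖ ^ 2 + δ ^ 2)) (L (ker δ (w - y))) w := by
  have h1 : HasFDerivAt (fun w : ℂ => w - y) (ContinuousLinearMap.id ℝ ℂ) w :=
    (hasFDerivAt_id w).sub_const y
  have h2 := h1.norm_sq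
  have h3 := (h2.add_const (δ ^ 2)).log (den_pos hδ (w - y)).ne'
  have h4 := h3.const_mul (1 / 2)
  refine h4.congr_fderiv ?_
  ext h
  have hne : (‖w - y‖ ^ 2 + δ ^ 2) ≠ 0 := (den_pos hδ (w - y)).ne'
  have e1 : (L (ker δ (w - y))) h = (‖w - y‖ ^ 2 + δ ^ 2)⁻¹ * (h * (starRingEnd ℂ) (w - y)).re := by
    rw [L_apply]
    change (ker δ (w - y) * h).re = _
    unfold ker
    rw [div_mul_eq_mul_div, Complex.div_ofReal_re, div_eq_inv_mul, mul_comm h]
  have e2 : ((1 / 2 : ℝ) • (‖w - y‖ ^ 2 + δ ^ 2)⁻¹ • 2 • (innerSL ℝ (w - y)).comp (ContinuousLinearMap.id ℝ ℂ)) h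
      = (1 / 2 : ℝ) * ((‖w - y‖ ^ 2 + δ ^ 2)⁻¹ * (2 * (h * (starRingEnd ℂ) (w - y)).re)) := by
    rw [two_smul]
    change (1 / 2 : ℝ) * ((‖w - y‖ ^ 2 + δ ^ 2)⁻¹ * ((innerSL ℝ (w - y)) h + (innerSL ℝ (w - y)) h)) = _
    rw [innerSL_apply_apply, Complex.inner]
    ring
  rw [e1, e2]
  ring

variable {D : Set ℂ}

theorem vol_lt_top (hb : Bornology.IsBounded D) : volume D < ⊤ := hb.measure_lt_top

theorem exists_ball (hb : Bornology.IsBounded D) (w : ℂ) : ∃ R : ℝ, 0 < R ∧ D ⊆ Metric.ball w R := by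
  obtain ⟨R, hR⟩ := hb.subset_ball w
  exact ⟨max R 1, by positivity, hR.trans (Metric.ball_subset_ball (le_max_left _ _))⟩

theorem int_inv (hb : Bornology.IsBounded D) (w : ℂ) :
    IntegrableOn (fun y : ℂ => ‖y - w‖⁻¹) D := by
  obtain ⟨R, hR, hs⟩ := exists_ball hb w
  exact (t_P1 w R hR.le).1.mono_set hs

theorem int_inv' (hb : Bornology.IsBounded D) (w : ℂ) :
    IntegrableOn (fun y : ℂ => (w - y)⁻¹) D := by
  refine Integrable.mono' (int_inv hb w) ?_ ?_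
  · exact (Measurable.aestronglyMeasurable (by fun_prop))
  · refine Eventually.of_forall fun y => ?_
    rw [norm_inv, norm_sub_rev]

theorem int_log (hb : Bornology.IsBounded D) (w : ℂ) :
    IntegrableOn (fun y : ℂ => Real.log ‖w - y‖) D := by
  obtain ⟨R, hR, hs⟩ := exists_ball hb w
  have := (t_P4 w R hR.le).mono_set hs
  refine Integrable.congr this ?_
  exact Eventually.of_forall fun y => by simp only [norm_sub_rev]

theorem int_ker (hb : Bornology.IsBounded D) {δ : ℝ} (hδ : 0 < δ) (w : ℂ) :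
    IntegrableOn (fun y : ℂ => ker δ (w - y)) D := by
  haveI : IsFiniteMeasure (volume.restrict D) := ⟨by simpa using vol_lt_top hb⟩
  refine Integrable.mono' (g := fun _ => δ⁻¹) (integrable_const _) ?_ ?_
  · exact ((continuous_ker hδ).comp (by fun_prop)).aestronglyMeasurable
  · exact Eventually.of_forall fun y => norm_ker_le hδ _

theorem int_logreg (hD : MeasurableSet D) (hb : Bornology.IsBounded D) {δ : ℝ} (hδ : 0 < δ) (w : ℂ) :
    IntegrableOn (fun y : ℂ => (1 / 2) * Real.log (‖w - y‖ ^ 2 + δ ^ 2)) D := by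
  obtain ⟨R, hR, hs⟩ := exists_ball hb w
  have hc : Continuous (fun y : ℂ => (1 / 2) * Real.log (‖w - y‖ ^ 2 + δ ^ 2)) := by
    refine continuous_const.mul (Continuous.log (by fun_prop) ?_)
    intro y
    exact (den_pos hδ _).ne'
  have h1 : IntegrableOn (fun y : ℂ => (1 / 2) * Real.log (‖w - y‖ ^ 2 + δ ^ 2)) (Metric.closedBall w R) :=
    hc.continuousOn.integrableOn_compact (isCompact_closedBall w R)
  exact h1.mono_set (hs.trans Metric.ball_subset_closedBall)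

/-- regularised potential -/
noncomputable def f (D : Set ℂ) (δ : ℝ) (w : ℂ) : ℝ :=
  (1 / (2 * Real.pi)) * ∫ y in D, (1 / 2) * Real.log (‖w - y‖ ^ 2 + δ ^ 2)

noncomputable def g (D : Set ℂ) (δ : ℝ) (w : ℂ) : ℂ := ∫ y in D, ker δ (w - y)

theorem hasFDerivAt_f (hD : MeasurableSet D) (hb : Bornology.IsBounded D) {δ : ℝ} (hδ : 0 < δ) (w : ℂ) :
    HasFDerivAt (f D δ) ((1 / (2 * Real.pi)) • L (g D δ w)) w := by
  haveI : IsFiniteMeasure (volume.restrict D) := ⟨by simpa using vol_lt_top hb⟩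
  have key : HasFDerivAt (fun w : ℂ => ∫ y in D, (1 / 2) * Real.log (‖w - y‖ ^ 2 + δ ^ 2))
      (∫ y in D, L (ker δ (w - y))) w := by
    refine hasFDerivAt_integral_of_dominated_of_fderiv_le (s := univ)
      (F' := fun w y => L (ker δ (w - y))) (bound := fun _ => ‖L‖ * δ⁻¹) univ_mem ?_ ?_ ?_ ?_ ?_ ?_
    · exact Eventually.of_forall fun x => (int_logreg hD hb hδ x).1
    · exact int_logreg hD hb hδ w
    · exact (L.continuous.comp ((continuous_ker hδ).comp (by fun_prop))).aestronglyMeasurable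
    · refine Eventually.of_forall fun y x _ => ?_
      exact (L.le_opNorm _).trans (mul_le_mul_of_nonneg_left (norm_ker_le hδ _) (norm_nonneg _))
    · exact integrable_const _
    · exact Eventually.of_forall fun y x _ => hasFDerivAt_log hδ y x
  rw [ContinuousLinearMap.integral_comp_comm L (int_ker hb hδ w)] at key
  exact key.const_mul (1 / (2 * Real.pi))

theorem continuous_g (hb : Bornology.IsBounded D) {δ : ℝ} (hδ : 0 < δ) : Continuous (g D δ) := by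
  haveI : IsFiniteMeasure (volume.restrict D) := ⟨by simpa using vol_lt_top hb⟩
  refine continuous_of_dominated (bound := fun _ => δ⁻¹) ?_ ?_ (integrable_const _) ?_
  · intro x
    exact ((continuous_ker hδ).comp (by fun_prop)).aestronglyMeasurable
  · intro x
    exact Eventually.of_forall fun y => norm_ker_le hδ _
  · exact Eventually.of_forall fun y => (continuous_ker hδ).comp (by fun_prop)

theorem ker_diff {δ : ℝ} (hδ : 0 < δ) {z : ℂ} (hz : z ≠ 0) :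
    ‖z⁻¹ - ker δ z‖ = δ ^ 2 / (‖z‖ * (‖z‖ ^ 2 + δ ^ 2)) := by
  have hz' : 0 < ‖z‖ := norm_pos_iff.mpr hz
  have hd := den_pos hδ z
  have h1 : z⁻¹ - ker δ z = ((δ ^ 2 / (‖z‖ ^ 2 + δ ^ 2) : ℝ) : ℂ) * z⁻¹ := by
    have hc : (starRingEnd ℂ z) = ((‖z‖ ^ 2 : ℝ) : ℂ) * z⁻¹ := by
      rw [eq_mul_inv_iff_mul_eq₀ hz, mul_comm, Complex.mul_conj, Complex.normSq_eq_norm_sq]
    unfold ker
    rw [hc]
    have hd' : ((‖z‖ ^ 2 + δ ^ 2 : ℝ) : ℂ) ≠ 0 := by exact_mod_cast hd.ne'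
    have e : ((δ ^ 2 / (‖z‖ ^ 2 + δ ^ 2) : ℝ) : ℂ) = 1 - ((‖z‖ ^ 2 : ℝ) : ℂ) / ((‖z‖ ^ 2 + δ ^ 2 : ℝ) : ℂ) := by
      rw [eq_sub_iff_add_eq, ← Complex.ofReal_div, ← Complex.ofReal_add, ← add_div, add_comm, div_self hd.ne']
      simp
    rw [e]
    ring
  rw [h1, norm_mul, norm_inv, Complex.norm_real, Real.norm_of_nonneg (by positivity)]
  field_simp

theorem ker_diff_le1 {δ : ℝ} (hδ : 0 < δ) {z : ℂ} (hz : z ≠ 0) : ‖z⁻¹ - ker δ z‖ ≤ ‖z‖⁻¹ := by
  have hz' : 0 < ‖z‖ := norm_pos_iff.mpr hz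
  rw [ker_diff hδ hz, div_le_iff₀ (by positivity)]
  have : ‖z‖⁻¹ * (‖z‖ * (‖z‖ ^ 2 + δ ^ 2)) = ‖z‖ ^ 2 + δ ^ 2 := by field_simp
  rw [this]
  nlinarith [sq_nonneg ‖z‖]

theorem ker_diff_le2 {δ : ℝ} (hδ : 0 < δ) {z : ℂ} (hz : z ≠ 0) :
    ‖z⁻¹ - ker δ z‖ ≤ δ ^ 2 * (‖z‖ ^ 3)⁻¹ := by
  have hz' : 0 < ‖z‖ := norm_pos_iff.mpr hz
  rw [ker_diff hδ hz, ← div_eq_mul_inv]
  apply div_le_div_of_nonneg_left (by positivity) (by positivity)
  nlinarith [mul_pos hz' (pow_pos hδ 2)]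

theorem g_close (hD : MeasurableSet D) (hb : Bornology.IsBounded D) {δ : ℝ} (hδ : 0 < δ) (w : ℂ) :
    ‖cau D w - g D δ w‖ ≤ 4 * Real.pi * δ := by
  unfold cau g
  rw [← integral_sub (int_inv' hb w) (int_ker hb hδ w)]
  set B := Metric.ball w δ with hB
  have hBm : MeasurableSet B := measurableSet_ball
  have hae : ∀ᵐ y ∂(volume : Measure ℂ), y ≠ w := by
    have : (volume : Measure ℂ) {w} = 0 := measure_singleton w
    rw [ae_iff]
    simpa using this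
  let k : ℂ → ℝ := fun y => B.indicator (fun y => ‖y - w‖⁻¹) y + Bᶜ.indicator (fun y => δ ^ 2 * (‖y - w‖ ^ 3)⁻¹) y
  have hk1 : Integrable (B.indicator (fun y : ℂ => ‖y - w‖⁻¹)) :=
    (integrable_indicator_iff hBm).2 (t_P1 w δ hδ.le).1
  have hk2 : Integrable (Bᶜ.indicator (fun y : ℂ => δ ^ 2 * (‖y - w‖ ^ 3)⁻¹)) :=
    (integrable_indicator_iff hBm.compl).2 ((t_P2 w δ hδ).1.const_mul _)
  have hk : Integrable k := hk1.add hk2
  have hk0 : ∀ y, 0 ≤ k y := by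
    intro y
    refine add_nonneg (indicator_nonneg (fun y _ => by positivity) _) (indicator_nonneg (fun y _ => by positivity) _)
  have hle : ∀ᵐ y ∂(volume.restrict D), ‖(w - y)⁻¹ - ker δ (w - y)‖ ≤ k y := by
    refine ae_restrict_of_ae ?_
    filter_upwards [hae] with y hy
    have hz : w - y ≠ 0 := sub_ne_zero.mpr hy.symm
    by_cases hyB : y ∈ B
    · have : k y = ‖w - y‖⁻¹ := by
        simp [k, hyB, norm_sub_rev]
      rw [this]
      exact ker_diff_le1 hδ hz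
    · have : k y = δ ^ 2 * (‖w - y‖ ^ 3)⁻¹ := by
        simp [k, hyB, norm_sub_rev]
      rw [this]
      exact ker_diff_le2 hδ hz
  calc ‖∫ y in D, ((w - y)⁻¹ - ker δ (w - y))‖ ≤ ∫ y in D, k y :=
        norm_integral_le_of_norm_le hk.integrableOn hle
    _ ≤ ∫ y, k y := setIntegral_le_integral hk (Eventually.of_forall hk0)
    _ = 4 * Real.pi * δ := by
        have : ∫ y, k y = (∫ y, B.indicator (fun y : ℂ => ‖y - w‖⁻¹) y) +
            ∫ y, Bᶜ.indicator (fun y : ℂ => δ ^ 2 * (‖y - w‖ ^ 3)⁻¹) y := integral_add hk1 hk2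
        rw [this, integral_indicator hBm, integral_indicator hBm.compl, (t_P1 w δ hδ.le).2,
          integral_const_mul, (t_P2 w δ hδ).2]
        field_simp
        ring

theorem log_close {δ : ℝ} (hδ : 0 < δ) {z : ℂ} (hz : z ≠ 0) :
    |(1 / 2) * Real.log (‖z‖ ^ 2 + δ ^ 2) - Real.log ‖z‖| ≤ δ * ‖z‖⁻¹ := by
  have hz' : 0 < ‖z‖ := norm_pos_iff.mpr hz
  have h0 : (1 / 2) * Real.log (‖z‖ ^ 2) = Real.log ‖z‖ := by
    rw [Real.log_pow]; push_cast; ring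
  have hlow : Real.log ‖z‖ ≤ (1 / 2) * Real.log (‖z‖ ^ 2 + δ ^ 2) := by
    rw [← h0]
    have := Real.log_le_log (by positivity : 0 < ‖z‖ ^ 2) (by nlinarith [sq_nonneg δ] : ‖z‖ ^ 2 ≤ ‖z‖ ^ 2 + δ ^ 2)
    linarith
  have hup : (1 / 2) * Real.log (‖z‖ ^ 2 + δ ^ 2) ≤ Real.log ‖z‖ + δ * ‖z‖⁻¹ := by
    have h1 : ‖z‖ ^ 2 + δ ^ 2 ≤ (‖z‖ + δ) ^ 2 := by nlinarith [mul_pos hz' hδ]
    have h2 : Real.log (‖z‖ ^ 2 + δ ^ 2) ≤ 2 * Real.log (‖z‖ + δ) := by
      have := Real.log_le_log (den_pos hδ z) h1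
      rwa [Real.log_pow, Nat.cast_ofNat] at this
    have h3 : ‖z‖ + δ = ‖z‖ * (1 + δ * ‖z‖⁻¹) := by field_simp
    have h4 : Real.log (‖z‖ + δ) = Real.log ‖z‖ + Real.log (1 + δ * ‖z‖⁻¹) := by
      rw [h3, Real.log_mul hz'.ne' (by positivity)]
    have h5 : Real.log (1 + δ * ‖z‖⁻¹) ≤ δ * ‖z‖⁻¹ := by
      have := Real.log_le_sub_one_of_pos (by positivity : 0 < 1 + δ * ‖z‖⁻¹)
      linarith
    linarith
  rw [abs_le]
  constructor
  · have : 0 ≤ δ * ‖z‖⁻¹ := by positivity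
    linarith
  · linarith

theorem f_close (hD : MeasurableSet D) (hb : Bornology.IsBounded D) {δ : ℝ} (hδ : 0 < δ) (w : ℂ) :
    |f D δ w - psi D w| ≤ δ * ((1 / (2 * Real.pi)) * ∫ y in D, ‖y - w‖⁻¹) := by
  have hae : ∀ᵐ y ∂(volume : Measure ℂ), y ≠ w := by
    have : (volume : Measure ℂ) {w} = 0 := measure_singleton w
    rw [ae_iff]
    simpa using this
  have hpi : 0 < 1 / (2 * Real.pi) := by positivity
  unfold f psi
  rw [← mul_sub, ← integral_sub (int_logreg hD hb hδ w) (int_log hb w), abs_mul, abs_of_pos hpi]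
  have h1 : |∫ y in D, ((1 / 2) * Real.log (‖w - y‖ ^ 2 + δ ^ 2) - Real.log ‖w - y‖)| ≤
      ∫ y in D, δ * ‖y - w‖⁻¹ := by
    rw [← Real.norm_eq_abs]
    refine norm_integral_le_of_norm_le ((int_inv hb w).const_mul δ) ?_
    refine ae_restrict_of_ae ?_
    filter_upwards [hae] with y hy
    have hz : w - y ≠ 0 := sub_ne_zero.mpr hy.symm
    rw [Real.norm_eq_abs, norm_sub_rev y w]
    exact log_close hδ hz
  rw [integral_const_mul] at h1
  calc _ ≤ (1 / (2 * Real.pi)) * (δ * ∫ y in D, ‖y - w‖⁻¹) := mul_le_mul_of_nonneg_left h1 hpi.le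
    _ = _ := by ring

noncomputable def dl (n : ℕ) : ℝ := 1 / ((n : ℝ) + 1)

theorem dl_pos (n : ℕ) : 0 < dl n := by unfold dl; positivity

theorem dl_tendsto : Tendsto dl atTop (𝓝 0) := tendsto_one_div_add_atTop_nhds_zero_nat

theorem g_unif (hD : MeasurableSet D) (hb : Bornology.IsBounded D) :
    TendstoUniformly (fun n => g D (dl n)) (cau D) atTop := by
  rw [Metric.tendstoUniformly_iff]
  intro ε hε
  have h1 : Tendsto (fun n => 4 * Real.pi * dl n) atTop (𝓝 (4 * Real.pi * 0)) :=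
    dl_tendsto.const_mul _
  rw [mul_zero] at h1
  filter_upwards [h1.eventually (gt_mem_nhds hε)] with n hn w
  rw [dist_eq_norm]
  exact (g_close hD hb (dl_pos n) w).trans_lt hn

end Auxpsi

theorem t_psi : S_psi := by
  intro D hD hb
  constructor
  · have hu : TendstoUniformly (fun (n : ℕ) (w : ℂ) => (1 / (2 * Real.pi)) • Auxpsi.L (Auxpsi.g D (Auxpsi.dl n) w))
        (fun w => (1 / (2 * Real.pi)) • Auxpsi.L (cau D w)) atTop := by
      have huc : UniformContinuous (fun c : ℂ => (1 / (2 * Real.pi)) • Auxpsi.L c) :=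
        (((1 / (2 * Real.pi)) • Auxpsi.L : ℂ →L[ℝ] (ℂ →L[ℝ] ℝ))).uniformContinuous
      exact huc.comp_tendstoUniformly (Auxpsi.g_unif hD hb)
    refine hasFDerivAt_of_tendstoUniformly (f := fun (n : ℕ) => Auxpsi.f D (Auxpsi.dl n)) (l := atTop) hu
      (fun n x => Auxpsi.hasFDerivAt_f hD hb (Auxpsi.dl_pos n) x) ?_
    intro w
    rw [tendsto_iff_dist_tendsto_zero]
    refine squeeze_zero (fun _ => dist_nonneg) (fun n => ?_) (g := fun n => Auxpsi.dl n *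
      ((1 / (2 * Real.pi)) * ∫ y in D, ‖y - w‖⁻¹)) ?_
    · rw [Real.dist_eq]
      exact Auxpsi.f_close hD hb (Auxpsi.dl_pos n) w
    · have := Auxpsi.dl_tendsto.mul_const ((1 / (2 * Real.pi)) * ∫ y in D, ‖y - w‖⁻¹)
      rwa [zero_mul] at this
  · exact (Auxpsi.g_unif hD hb).continuous (Eventually.of_forall fun n => Auxpsi.continuous_g hb (Auxpsi.dl_pos n)).frequently

end Pool.Agent.H682_VS
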