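import Pool.Agent.H682_VS.Stmts
import Pool.Agent.H682_VS.T_psi
import Pool.Agent.H682_VS.T_grad

/-! # claim1 -/

set_option autoImplicit false

open MeasureTheory Set Filter Topology

namespace Pool.Agent.H682_VS


namespace Auxclaim1

lemma cau_one_im {D : Set ℂ} (sym : ∀ w : ℂ, w ∈ D ↔ (starRingEnd ℂ) w ∈ D) : (cau D 1).im = 0 := by
  have h1 : (starRingEnd ℂ) (cau D 1) = cau D 1 := by
    unfold cau
    rw [← integral_conj]
    have hmp : MeasurePreserving (Complex.conjLIE : ℂ ≃ₗᵢ[ℝ] ℂ) volume volume :=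
      Complex.conjLIE.measurePreserving
    have hemb : MeasurableEmbedding (Complex.conjLIE : ℂ ≃ₗᵢ[ℝ] ℂ) :=
      Complex.conjLIE.toHomeomorph.measurableEmbedding
    have h2 := hmp.setIntegral_preimage_emb hemb (fun y => (1 - y)⁻¹) D
    have h3 : (Complex.conjLIE : ℂ ≃ₗᵢ[ℝ] ℂ) ⁻¹' D = D := by
      ext w
      rw [mem_preimage, Complex.conjLIE_apply]
      exact (sym w).symm
    rw [h3] at h2
    rw [← h2]
    refine integral_congr_ae (Filter.Eventually.of_forall fun y => ?_)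
    simp
  exact Complex.conj_eq_iff_im.1 h1

/-- the function `f` -/
noncomputable def ff (D : Set ℂ) (Ω c : ℝ) (w : ℂ) : ℝ := -psi D w + Ω / 2 * ‖w‖ ^ 2 - c

/-- the gradient -/
noncomputable def gg (D : Set ℂ) (Ω : ℝ) (w : ℂ) : ℂ :=
  -(1 / (2 * Real.pi) : ℂ) * cau D w + Ω * (starRingEnd ℂ) w

/-- `h ↦ Re (z h)` -/
noncomputable def LL (z : ℂ) : ℂ →L[ℝ] ℝ := Complex.reCLM.comp (ContinuousLinearMap.mul ℝ ℂ z)

lemma LL_apply (z h : ℂ) : LL z h = (z * h).re := rfl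

lemma LL_norm (z : ℂ) : ‖LL z‖ ≤ ‖z‖ := by
  refine ContinuousLinearMap.opNorm_le_bound _ (norm_nonneg _) fun h => ?_
  rw [LL_apply, Real.norm_eq_abs, ← norm_mul]
  exact Complex.abs_re_le_norm _

lemma ff_deriv {D : Set ℂ} (hm : MeasurableSet D) (hb : Bornology.IsBounded D) (Ω c : ℝ) (w : ℂ) :
    HasFDerivAt (ff D Ω c) (LL (gg D Ω w)) w := by
  have h1 := (t_psi D hm hb).1 w
  have h2 : HasFDerivAt (fun x : ℂ => ‖x‖ ^ 2) (2 • (innerSL ℝ w)) w :=
    (hasStrictFDerivAt_norm_sq w).hasFDerivAt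
  have h3 := (h1.neg.add (h2.const_mul (Ω / 2))).sub_const c
  have e : LL (gg D Ω w) = -((1 / (2 * Real.pi)) • (Complex.reCLM.comp (ContinuousLinearMap.mul ℝ ℂ (cau D w)))) +
      (Ω / 2) • (2 • (innerSL ℝ w)) := by
    ext h
    simp only [LL_apply, gg, add_apply, neg_apply,
      smul_apply, ContinuousLinearMap.comp_apply, ContinuousLinearMap.mul_apply',
      Complex.reCLM_apply, innerSL_apply_apply, Complex.inner, smul_eq_mul, nsmul_eq_mul]
    have e1 : (-(1 / (2 * Real.pi) : ℂ)) = ((-(1 / (2 * Real.pi)) : ℝ) : ℂ) := by push_cast; ring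
    rw [e1]
    simp only [Complex.mul_re, Complex.add_re, Complex.add_im, Complex.mul_im, Complex.ofReal_re,
      Complex.ofReal_im, Complex.conj_re, Complex.conj_im]
    push_cast
    ring
  rw [e]
  exact h3

lemma gg_bound {D : Set ℂ} {Ω c c1 d A : ℝ} (K : Cor D Ω c c1 d)
    (hA : ∀ r : ℝ, 0 < r → r < d → |aD D r| ≤ A) : ∃ C' : ℝ, 0 ≤ C' ∧ ∀ w : ℂ, ‖w - 1‖ < d →
      ‖gg D Ω w‖ ≤ C' * ‖w - 1‖ := by
  obtain ⟨C0, hC0, h⟩ := t_grad D K.meas K.sub K.sym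
  have hΩ := K.Ωpos
  refine ⟨|A| + C0 + Ω, by positivity, fun w hw => ?_⟩
  have hpi : (Real.pi : ℂ) ≠ 0 := by exact_mod_cast Real.pi_ne_zero
  have h1 : (1 / (2 * Real.pi) : ℂ) * cau D 1 = Ω := by
    have h2 : cau D 1 = ((cau D 1).re : ℂ) := by
      apply Complex.ext
      · simp
      · simp [cau_one_im K.sym]
    rw [h2, ← K.grad]
    push_cast
    ring
  have h3 : gg D Ω w = (-(1 / (2 * Real.pi) : ℂ) * (cau D w - cau D 1) - (aD D ‖w - 1‖ : ℂ) * (w - 1)) +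
      ((aD D ‖w - 1‖ : ℂ) * (w - 1)) + Ω * (starRingEnd ℂ) (w - 1) := by
    unfold gg
    rw [map_sub, map_one]
    linear_combination (-1 : ℂ) * h1
  have h4 := h w (by linarith [K.dlt])
  have h5 : ‖(aD D ‖w - 1‖ : ℂ) * (w - 1)‖ ≤ |A| * ‖w - 1‖ := by
    rw [norm_mul, Complex.norm_real, Real.norm_eq_abs]
    rcases (norm_nonneg (w - 1)).eq_or_lt with h0 | h0
    · rw [← h0]; simp
    · exact mul_le_mul_of_nonneg_right ((hA _ h0 hw).trans (le_abs_self A)) h0.le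
  have h6 : ‖(Ω : ℂ) * (starRingEnd ℂ) (w - 1)‖ = Ω * ‖w - 1‖ := by
    rw [norm_mul, Complex.norm_real, Real.norm_eq_abs, abs_of_pos hΩ, RCLike.norm_conj]
  rw [h3]
  refine (norm_add_le _ _).trans ?_
  rw [h6]
  have h7 := norm_add_le (-(1 / (2 * Real.pi) : ℂ) * (cau D w - cau D 1) - (aD D ‖w - 1‖ : ℂ) * (w - 1))
    ((aD D ‖w - 1‖ : ℂ) * (w - 1))
  have h8 : (|A| + C0 + Ω) * ‖w - 1‖ = C0 * ‖w - 1‖ + |A| * ‖w - 1‖ + Ω * ‖w - 1‖ := by ring
  rw [h8]
  linarith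

end Auxclaim1


/- TARGET, proof in plain words:
f(w) := -psi D w + Ω/2‖w‖² - c is differentiable with derivative h ↦ Re(g(w) h), g(w) = -(1/2π) cau D w + Ω conj(w) (t_psi; derivative of ‖w‖²/2 is h ↦ Re(conj w h)).
D = conj D implies cau D 1 is real (measure preserving conj), and Cor.grad gives g(1) = 0.  So for r = ‖w-1‖ ≤ 1/2:
 g(w) = -(1/2π)(cau D w - cau D 1) + Ω conj(w-1), by t_grad |g(w)| ≤ |aD D r| r + C0 r + Ω r ≤ (|A| + C0 + Ω) r =: C' r for r < min(d,1/2) (for w ≠ 1; g(1) = 0).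
Let y ∈ D, ‖y-1‖ < δ (δ ≤ d/4, 1/8...), t = ‖y‖ in (1-δ,1), θ = arg y (|θ| ≤ 2δ < d: |θ| ≤ (π/2)|sin θ|.. since |t sin θ| = |Im y| < δ, cos θ > 0), y = t e^{iθ}.  By Cor.loc f(y) > 0; by Cor.hopf f(e^{iθ}) ≤ -c1 θ².
 Mean value inequality on the segment [y, e^{iθ}] (length 1-t; its points satisfy ‖w-1‖ ≤ (1-t) + |θ| ≤ 1/2, < d): 0 < f(y) ≤ -c1 θ² + (1-t) C' ((1-t) + |θ|).
 If |θ| > K(1-t) with K = max(1, 2C'/c1): (1-t) < |θ|/K, (1-t) + |θ| ≤ 2|θ|, so 0 < -c1 θ² + (|θ|/K) C' 2|θ| ≤ 0, contradiction.  (take K = 1 + 2C'/c1.)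
-/
theorem t_claim1 : S_claim1 := by
  intro D Ω c c1 d A K hA
  obtain ⟨C', hC', hg⟩ := Auxclaim1.gg_bound K hA
  have hc1 := K.c1pos
  have hd := K.dpos
  have hdl := K.dlt
  have hbd : Bornology.IsBounded D := Metric.isBounded_ball.subset K.sub
  -- continuity of the argument
  have harg : ContinuousAt Complex.arg 1 := Complex.continuousAt_arg (by simp)
  obtain ⟨δ0, hδ0, harg'⟩ := Metric.continuousAt_iff.1 harg (d / 4) (by linarith)
  refine ⟨1 + 2 * C' / c1, by positivity, min δ0 (d / 4), lt_min hδ0 (by linarith), fun y hy hy1 => ?_⟩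
  have hyδ : ‖y - 1‖ < δ0 := hy1.trans_le (min_le_left _ _)
  have hyd : ‖y - 1‖ < d / 4 := hy1.trans_le (min_le_right _ _)
  set t : ℝ := ‖y‖ with ht
  set θ : ℝ := Complex.arg y with hθ
  have hθd : |θ| < d / 4 := by
    have := harg' (x := y) (by rw [dist_eq_norm]; exact hyδ)
    rw [Complex.arg_one, Real.dist_eq, sub_zero] at this
    exact this
  have ht1 : t < 1 := by
    have := K.sub hy
    rwa [mem_ball_zero_iff] at this
  have ht2 : 1 - t ≤ ‖y - 1‖ := by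
    have := norm_sub_norm_le (1 : ℂ) y
    rw [norm_one, norm_sub_rev] at this
    exact this
  have hyt : y = t * Complex.exp (θ * Complex.I) := (Complex.norm_mul_exp_arg_mul_I y).symm
  set z : ℂ := Complex.exp (θ * Complex.I) with hz
  have hz1 : ‖z‖ = 1 := Complex.norm_exp_ofReal_mul_I θ
  have hz2 : ‖z - 1‖ ≤ |θ| := by
    have := Real.norm_exp_I_mul_ofReal_sub_one_le (x := θ)
    rw [mul_comm] at this
    exact this
  have hyz : ‖y - z‖ = 1 - t := by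
    rw [hyt]
    have e1 : (t : ℂ) * z - z = ((t - 1 : ℝ) : ℂ) * z := by push_cast; ring
    rw [e1, norm_mul, hz1, mul_one, Complex.norm_real, Real.norm_eq_abs, abs_of_neg (by linarith)]
    ring
  set ρ : ℝ := (1 - t) + |θ| with hρ
  have hρd : ρ < d := by
    rw [hρ]
    linarith
  have hzb : z ∈ Metric.closedBall (1:ℂ) ρ := by
    rw [mem_closedBall_iff_norm, hρ]
    linarith
  have hyb : y ∈ Metric.closedBall (1:ℂ) ρ := by
    rw [mem_closedBall_iff_norm, hρ]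
    have : y - 1 = (y - z) + (z - 1) := by ring
    rw [this]
    refine (norm_add_le _ _).trans ?_
    rw [hyz]
    linarith
  have hmv := (convex_closedBall (1:ℂ) ρ).norm_image_sub_le_of_norm_hasFDerivWithin_le
    (f := Auxclaim1.ff D Ω c) (f' := fun w => Auxclaim1.LL (Auxclaim1.gg D Ω w)) (C := C' * ρ)
    (fun w _ => (Auxclaim1.ff_deriv K.meas hbd Ω c w).hasFDerivWithinAt) (fun w hw => by
      rw [mem_closedBall_iff_norm] at hw
      refine (Auxclaim1.LL_norm _).trans ((hg w (by linarith)).trans ?_)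
      exact mul_le_mul_of_nonneg_left hw hC') hzb hyb
  rw [hyz, Real.norm_eq_abs] at hmv
  have hfy : 0 < Auxclaim1.ff D Ω c y := ((K.loc y (by linarith)).1 hy).2
  have hfz : Auxclaim1.ff D Ω c z ≤ -c1 * θ ^ 2 := by
    have := K.hopf θ (by linarith)
    unfold Auxclaim1.ff
    rw [hz1, one_pow, mul_one]
    exact this
  have hle : Auxclaim1.ff D Ω c y - Auxclaim1.ff D Ω c z ≤ C' * ρ * (1 - t) := (le_abs_self _).trans hmv
  have hkey : c1 * θ ^ 2 < C' * ρ * (1 - t) := by linarith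
  by_contra hcon
  push Not at hcon
  have hs : 0 < 1 - t := by linarith
  have hθ2 : θ ^ 2 = |θ| * |θ| := by rw [← sq, sq_abs]
  set a : ℝ := |θ| with ha
  set s : ℝ := 1 - t with hs'
  have h1 : (1 + 2 * C' / c1) * s < a := hcon
  have h2 : 0 ≤ 2 * C' / c1 := by positivity
  have h3 : s ≤ a := by nlinarith
  have h4 : 2 * C' * s ≤ c1 * a := by
    have h5 : 2 * C' / c1 * s ≤ a := by nlinarith
    have h6 : 2 * C' * s = c1 * (2 * C' / c1 * s) := by field_simp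
    rw [h6]
    exact mul_le_mul_of_nonneg_left h5 hc1.le
  have h7 : ρ ≤ 2 * a := by rw [hρ]; linarith
  have h8 : C' * ρ * s ≤ C' * (2 * a) * s :=
    mul_le_mul_of_nonneg_right (mul_le_mul_of_nonneg_left h7 hC') hs.le
  have ha0 : 0 ≤ a := abs_nonneg _
  have h9 : C' * (2 * a) * s ≤ c1 * (a * a) := by nlinarith
  rw [hθ2] at hkey
  linarith

end Pool.Agent.H682_VS
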