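import Pool.Agent.H682_VS.Stmts
import Pool.Agent.H682_VS.T_polar

/-! # c2exp -/

set_option autoImplicit false

open MeasureTheory Set Filter Topology

namespace Pool.Agent.H682_VS


/- TARGET, proof in plain words:
First the bathtub bound (t_bath): split E at ball c ρ: ∫_{E ∩ ball c ρ} 1/‖y-c‖ ≤ 2πρ (t_P1), and 1/‖y-c‖ ≤ 1/ρ on E \ ball c ρ.
Then (all integrals over D ⊂ ball 0 1, y ≠ 1, 1+z a.e.; z ≠ 0 wlog, z = 0: left side is |−psi D 1 + Ω/2 − c| = 0 by Cor.val): ξ = z/(1-y), Λ(ξ) = log‖1+ξ‖ - Re ξ.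
 log‖(1+z) - y‖ - log‖1-y‖ = log‖1+ξ‖.  By Cor.val: f(1+z) := -psi D (1+z) + Ω/2‖1+z‖² - c = -(psi D (1+z) - psi D 1) + Ω/2(‖1+z‖² - 1)
 = -(1/2π) ∫_D Λ(ξ) - (1/2π) Re(z cau D 1) + Ω/2 (2 Re z + ‖z‖²) = -(1/2π) ∫_D Λ(ξ) + Ω/2 ‖z‖²,
 because cau D 1 is real (D = conj D, conj is measure preserving) and (1/2π) Re cau D 1 = Ω.
 Near part D ∩ ball 1 (Rr): |Λ(ξ)| ≤ 2‖z‖/‖1-y‖ + ‖z‖/‖1+z-y‖: log‖1+ξ‖ ≤ ‖ξ‖, and -log‖1+ξ‖ = log‖(1-y)/(1+z-y)‖ = log‖1 - z/(1+z-y)‖ ≤ ‖z‖/‖1+z-y‖.  By t_bath (centres 1 and 1+z) the near integral is ≤ 3 r (2πρ + V/ρ),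
 V = volume(D ∩ ball 1 (Rr)).
 Far part D \ ball 1 (Rr): ‖ξ‖ ≤ 1/R ≤ 1/2, |Λ(ξ) + Re(ξ²)/2| ≤ |log(1+ξ) - ξ + ξ²/2| ≤ ‖ξ‖³ (Mathlib: Complex.norm_log_sub_logTaylor_le, or power series), and ∫_far ‖z‖³/‖1-y‖³ ≤ r³ 2π/(Rr) = 2π r²/R (t_P2).
 -(1/2π) ∫_far (-(1/2) Re(z²/(1-y)²)) = (1/2) Re(z² (1/2π)∫_far (1-y)^{-2}) = (1/2) aD D (Rr/2) Re(z²) because ∫_{D \ ball 1 (Rr)} (1-y)^{-2} is real by the symmetry (aD D ρ' integrates over D \ ball 1 (2ρ'), 2·(Rr/2) = Rr).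
 Both theorems are the TARGET.
-/
theorem t_bath : ∀ (c : ℂ) (E : Set ℂ) (ρ : ℝ), MeasurableSet E → volume E ≠ ⊤ → 0 < ρ →
    IntegrableOn (fun y : ℂ => ‖y - c‖⁻¹) E ∧
    ∫ y in E, ‖y - c‖⁻¹ ≤ 2 * Real.pi * ρ + (volume E).toReal / ρ := by
  intro c E ρ hE hfin hρ
  obtain ⟨h1, h2⟩ := t_P1 c ρ hρ.le
  have hA : IntegrableOn (fun y : ℂ => ‖y - c‖⁻¹) (E ∩ Metric.ball c ρ) :=
    h1.mono_set inter_subset_right
  have hms : MeasurableSet (E \ Metric.ball c ρ) := hE.diff Metric.isOpen_ball.measurableSet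
  have hbd : ∀ y ∈ E \ Metric.ball c ρ, ‖‖y - c‖⁻¹‖ ≤ ρ⁻¹ := by
    intro y hy
    have h3 : ρ ≤ ‖y - c‖ := by
      have := hy.2
      rw [Metric.mem_ball, dist_eq_norm] at this
      exact not_lt.1 this
    rw [norm_inv, norm_norm]
    exact inv_anti₀ hρ h3
  have hfin' : volume (E \ Metric.ball c ρ) < ⊤ :=
    (measure_mono sdiff_subset).trans_lt (lt_top_iff_ne_top.2 hfin)
  have hmeas : Measurable (fun y : ℂ => ‖y - c‖⁻¹) := by fun_prop
  have hB : IntegrableOn (fun y : ℂ => ‖y - c‖⁻¹) (E \ Metric.ball c ρ) :=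
    Measure.integrableOn_of_bounded hfin'.ne hmeas.aestronglyMeasurable
      ((ae_restrict_iff' hms).2 (Eventually.of_forall hbd))
  have hAB : IntegrableOn (fun y : ℂ => ‖y - c‖⁻¹) E := by
    have := hA.union hB
    rwa [inter_union_sdiff] at this
  refine ⟨hAB, ?_⟩
  rw [← integral_inter_add_sdiff Metric.isOpen_ball.measurableSet hAB]
  refine add_le_add ?_ ?_
  · rw [← h2]
    refine setIntegral_mono_set h1 (Eventually.of_forall fun y => by positivity) ?_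
    exact (inter_subset_right).eventuallyLE
  · refine (le_abs_self _).trans ?_
    rw [← Real.norm_eq_abs]
    refine (norm_setIntegral_le_of_norm_le_const hfin' hbd).trans ?_
    rw [div_eq_inv_mul]
    refine mul_le_mul_of_nonneg_left ?_ (by positivity)
    exact ENNReal.toReal_mono hfin (measure_mono sdiff_subset)

namespace Auxc2exp

theorem conj_int {D : Set ℂ} (hD : ∀ w : ℂ, w ∈ D ↔ (starRingEnd ℂ) w ∈ D) (g : ℂ → ℂ)
    (hg : ∀ y, g ((starRingEnd ℂ) y) = (starRingEnd ℂ) (g y)) : (∫ y in D, g y).im = 0 := by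
  have hmp : MeasurePreserving (Complex.conjLIE : ℂ → ℂ) volume volume :=
    Complex.conjLIE.measurePreserving
  have hme : MeasurableEmbedding (Complex.conjLIE : ℂ → ℂ) :=
    Complex.conjLIE.toHomeomorph.measurableEmbedding
  have h1 := hmp.setIntegral_preimage_emb hme g D
  have h2 : (Complex.conjLIE : ℂ → ℂ) ⁻¹' D = D := by
    ext w
    exact (hD w).symm
  rw [h2] at h1
  have h3 : ∫ x in D, g (Complex.conjLIE x) = (starRingEnd ℂ) (∫ x in D, g x) := by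
    rw [← integral_conj]
    refine integral_congr_ae (Eventually.of_forall fun x => ?_)
    exact hg x
  rw [h3] at h1
  exact Complex.conj_eq_iff_im.1 h1

theorem near_pt {a z : ℂ} (ha : a ≠ 0) (hb : a + z ≠ 0) :
    |Real.log ‖a + z‖ - Real.log ‖a‖ - (z / a).re| ≤ 2 * (‖z‖ * ‖a‖⁻¹) + ‖z‖ * ‖a + z‖⁻¹ := by
  have hapos : 0 < ‖a‖ := norm_pos_iff.2 ha
  have hbpos : 0 < ‖a + z‖ := norm_pos_iff.2 hb
  have key : ∀ {p q : ℝ}, 0 < p → 0 < q → Real.log p - Real.log q ≤ (p - q) * q⁻¹ := by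
    intro p q hp hq
    rw [← Real.log_div hp.ne' hq.ne']
    refine (Real.log_le_sub_one_of_pos (div_pos hp hq)).trans (le_of_eq ?_)
    field_simp
  have h1 : Real.log ‖a + z‖ - Real.log ‖a‖ ≤ ‖z‖ * ‖a‖⁻¹ := by
    refine (key hbpos hapos).trans ?_
    refine mul_le_mul_of_nonneg_right ?_ (by positivity)
    have := norm_add_le a z
    linarith
  have h2 : Real.log ‖a‖ - Real.log ‖a + z‖ ≤ ‖z‖ * ‖a + z‖⁻¹ := by
    refine (key hapos hbpos).trans ?_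
    refine mul_le_mul_of_nonneg_right ?_ (by positivity)
    have := norm_sub_le (a + z) z
    rw [add_sub_cancel_right] at this
    linarith
  have h3 : |(z / a).re| ≤ ‖z‖ * ‖a‖⁻¹ := by
    refine (Complex.abs_re_le_norm _).trans (le_of_eq ?_)
    rw [norm_div, div_eq_mul_inv]
  have h4 := abs_le.1 h3
  have h5 : 0 ≤ ‖z‖ * ‖a‖⁻¹ := by positivity
  have h6 : 0 ≤ ‖z‖ * ‖a + z‖⁻¹ := by positivity
  rw [abs_le]
  constructor <;> linarith [h4.1, h4.2]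

theorem far_pt {a z : ℂ} (ha : a ≠ 0) (hz : ‖z‖ ≤ ‖a‖ / 2) :
    |Real.log ‖a + z‖ - Real.log ‖a‖ - (z / a).re + 1 / 2 * (z ^ 2 * (a ^ 2)⁻¹).re| ≤
      ‖z‖ ^ 3 * (‖a‖ ^ 3)⁻¹ := by
  have hapos : 0 < ‖a‖ := norm_pos_iff.2 ha
  obtain ⟨ξ, hξ⟩ : ∃ ξ : ℂ, ξ = z / a := ⟨_, rfl⟩
  have hξn : ‖ξ‖ ≤ 1 / 2 := by
    rw [hξ, norm_div, div_le_iff₀ hapos]
    linarith
  have hξ1 : ‖ξ‖ < 1 := by linarith
  have hz2 : a + z = a * (1 + ξ) := by
    rw [hξ]; field_simp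
  have h1ξ : (1 + ξ : ℂ) ≠ 0 := by
    intro h
    have h2 : ξ = -1 := by linear_combination h
    rw [h2] at hξ1
    simp at hξ1
  have h1 : Real.log ‖a + z‖ = Real.log ‖a‖ + (Complex.log (1 + ξ)).re := by
    rw [hz2, norm_mul, Real.log_mul hapos.ne' (norm_pos_iff.2 h1ξ).ne', Complex.log_re]
  have h2 := Complex.norm_log_sub_logTaylor_le 2 hξ1
  have h3 : Complex.logTaylor (2 + 1) ξ = ξ - ξ ^ 2 / 2 := by
    simp [Complex.logTaylor_succ, Complex.logTaylor_zero]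
    ring
  rw [h3] at h2
  have h4 : ‖ξ‖ ^ (2 + 1) * (1 - ‖ξ‖)⁻¹ / ((2 : ℕ) + 1) ≤ ‖ξ‖ ^ 3 := by
    have h5 : (1 - ‖ξ‖)⁻¹ ≤ 2 := by
      rw [inv_le_comm₀ (by linarith) (by norm_num)]
      linarith
    have h6 : 0 ≤ ‖ξ‖ ^ 3 := by positivity
    have h7 : 0 ≤ (1 - ‖ξ‖)⁻¹ := inv_nonneg.2 (by linarith)
    push_cast
    rw [div_le_iff₀ (by norm_num)]
    nlinarith
  have h8 : Real.log ‖a + z‖ - Real.log ‖a‖ - (z / a).re + 1 / 2 * (z ^ 2 * (a ^ 2)⁻¹).re =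
      (Complex.log (1 + ξ) - (ξ - ξ ^ 2 / 2)).re := by
    rw [h1, ← hξ]
    have h9 : z ^ 2 * (a ^ 2)⁻¹ = ξ ^ 2 := by rw [hξ]; field_simp
    rw [h9, Complex.sub_re, Complex.sub_re, Complex.div_ofNat_re]
    ring
  rw [h8]
  refine (Complex.abs_re_le_norm _).trans (h2.trans (h4.trans (le_of_eq ?_)))
  rw [hξ, norm_div, div_pow, div_eq_mul_inv]

theorem sub_ball {D : Set ℂ} (hD : D ⊆ Metric.ball 0 1) (w : ℂ) :
    D ⊆ Metric.ball w (1 + ‖w‖) := by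
  intro y hy
  have h1 := hD hy
  rw [mem_ball_zero_iff] at h1
  rw [Metric.mem_ball, dist_eq_norm]
  have := norm_sub_le y w
  linarith

theorem int_log {D : Set ℂ} (hD : D ⊆ Metric.ball 0 1) (w : ℂ) :
    IntegrableOn (fun y : ℂ => Real.log ‖w - y‖) D := by
  have h1 := (t_P4 w (1 + ‖w‖) (by positivity)).mono_set (sub_ball hD w)
  refine h1.congr (Eventually.of_forall fun y => ?_)
  change Real.log ‖y - w‖ = Real.log ‖w - y‖
  rw [norm_sub_rev]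

theorem vol_fin {D : Set ℂ} (hD : D ⊆ Metric.ball 0 1) : volume D ≠ ⊤ :=
  ((measure_mono hD).trans_lt measure_ball_lt_top).ne

theorem int_inv {D : Set ℂ} (hm : MeasurableSet D) (hD : D ⊆ Metric.ball 0 1) :
    IntegrableOn (fun y : ℂ => (1 - y)⁻¹) D := by
  have h1 := (t_bath 1 D 1 hm (vol_fin hD) one_pos).1
  have hmeas : Measurable (fun y : ℂ => (1 - y)⁻¹) := by fun_prop
  refine (integrable_norm_iff hmeas.aestronglyMeasurable).1 ?_
  refine Integrable.congr h1 (Eventually.of_forall fun y => ?_)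
  change ‖y - 1‖⁻¹ = ‖(1 - y)⁻¹‖
  rw [norm_inv, norm_sub_rev]

theorem far_ge {D : Set ℂ} {a : ℝ} {y : ℂ} (hy : y ∈ D \ Metric.ball 1 a) : a ≤ ‖1 - y‖ := by
  have := hy.2
  rw [Metric.mem_ball, dist_eq_norm, norm_sub_rev] at this
  exact not_lt.1 this

theorem int_inv2 {D : Set ℂ} (hm : MeasurableSet D) (hD : D ⊆ Metric.ball 0 1) {a : ℝ}
    (ha : 0 < a) : IntegrableOn (fun y : ℂ => ((1 - y) ^ 2)⁻¹) (D \ Metric.ball 1 a) := by
  have hmeas : Measurable (fun y : ℂ => ((1 - y) ^ 2)⁻¹) := by fun_prop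
  have hms : MeasurableSet (D \ Metric.ball 1 a) := hm.diff Metric.isOpen_ball.measurableSet
  refine Measure.integrableOn_of_bounded (M := (a ^ 2)⁻¹)
    (((measure_mono sdiff_subset).trans_lt (lt_top_iff_ne_top.2 (vol_fin hD))).ne)
    hmeas.aestronglyMeasurable ((ae_restrict_iff' hms).2 (Eventually.of_forall fun y hy => ?_))
  rw [norm_inv, norm_pow]
  exact inv_anti₀ (by positivity) (pow_le_pow_left₀ ha.le (far_ge hy) 2)

end Auxc2exp

theorem t_c2exp : ∃ C1 : ℝ, 1 ≤ C1 ∧ ∀ (D : Set ℂ) (Ω c c1 d : ℝ), Cor D Ω c c1 d →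
    ∀ (r R ρ : ℝ) (z : ℂ), 0 < r → 2 ≤ R → 0 < ρ → ‖z‖ ≤ r →
    |(-psi D (1 + z) + Ω / 2 * ‖1 + z‖ ^ 2 - c) - Ω / 2 * ‖z‖ ^ 2
        - (1 / 2) * aD D (R * r / 2) * (z ^ 2).re|
      ≤ C1 * (r ^ 2 / R + r * (ρ + (volume (D ∩ Metric.ball 1 (R * r))).toReal / ρ)) := by
  refine ⟨3, by norm_num, ?_⟩
  intro D Ω c c1 d h r R ρ z hr hR hρ hz
  have hm := h.meas
  have hsub := h.sub
  have hRr : 0 < R * r := by positivity
  have hball : MeasurableSet (Metric.ball (1 : ℂ) (R * r)) := Metric.isOpen_ball.measurableSet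
  -- the near and the far part
  obtain ⟨N, hN⟩ : ∃ N : Set ℂ, N = D ∩ Metric.ball 1 (R * r) := ⟨_, rfl⟩
  obtain ⟨F, hF⟩ : ∃ F : Set ℂ, F = D \ Metric.ball 1 (R * r) := ⟨_, rfl⟩
  have hNm : MeasurableSet N := hN ▸ hm.inter hball
  have hFm : MeasurableSet F := hF ▸ hm.diff hball
  have hNf : volume N ≠ ⊤ :=
    ((measure_mono (hN ▸ inter_subset_left)).trans_lt (lt_top_iff_ne_top.2 (Auxc2exp.vol_fin hsub))).ne
  -- the integrand
  obtain ⟨L, hL⟩ : ∃ L : ℂ → ℝ, L = fun y => Real.log ‖(1 - y) + z‖ - Real.log ‖1 - y‖ -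
    (z / (1 - y)).re := ⟨_, rfl⟩
  have hi1 : IntegrableOn (fun y : ℂ => Real.log ‖(1 - y) + z‖) D := by
    refine (Auxc2exp.int_log hsub (1 + z)).congr (Eventually.of_forall fun y => ?_)
    change Real.log ‖1 + z - y‖ = Real.log ‖(1 - y) + z‖
    rw [show 1 + z - y = (1 - y) + z by ring]
  have hi2 : IntegrableOn (fun y : ℂ => Real.log ‖1 - y‖) D := Auxc2exp.int_log hsub 1
  have hi3 : IntegrableOn (fun y : ℂ => z / (1 - y)) D := by
    have := (Auxc2exp.int_inv hm hsub).const_mul z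
    exact this.congr (Eventually.of_forall fun y => (div_eq_mul_inv z (1 - y)).symm)
  have hi3' : IntegrableOn (fun y : ℂ => (z / (1 - y)).re) D := Complex.reCLM.integrable_comp hi3
  have hiL : IntegrableOn L D := by
    rw [hL]
    exact (hi1.sub hi2).sub hi3'
  -- the integral of L over D
  have hcau : (cau D 1).im = 0 := by
    refine Auxc2exp.conj_int h.sym (fun y => (1 - y)⁻¹) fun y => ?_
    rw [map_inv₀, map_sub, map_one]
  have hre3 : ∫ y in D, (z / (1 - y)).re = 2 * Real.pi * Ω * z.re := by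
    have e1 : ∫ y in D, (z / (1 - y)).re = (∫ y in D, z / (1 - y)).re :=
      Complex.reCLM.integral_comp_comm hi3
    have e2 : ∫ y in D, z / (1 - y) = z * cau D 1 := by
      rw [cau, ← integral_const_mul]
      rfl
    rw [e1, e2, Complex.mul_re, hcau, mul_zero, sub_zero, ← h.grad]
    field_simp
  have hLD : ∫ y in D, L y = (∫ y in D, Real.log ‖1 + z - y‖) - (∫ y in D, Real.log ‖1 - y‖) -
      2 * Real.pi * Ω * z.re := by
    have e1 : ∫ y in D, Real.log ‖1 + z - y‖ = ∫ y in D, Real.log ‖(1 - y) + z‖ := by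
      refine integral_congr_ae (Eventually.of_forall fun y => ?_)
      change Real.log ‖1 + z - y‖ = Real.log ‖(1 - y) + z‖
      rw [show 1 + z - y = (1 - y) + z by ring]
    have e2 : ∫ y in D, L y = (∫ y in D, (Real.log ‖(1 - y) + z‖ - Real.log ‖1 - y‖)) -
        ∫ y in D, (z / (1 - y)).re := by
      rw [hL]
      exact integral_sub (hi1.sub hi2) hi3'
    rw [e1, ← hre3, e2, integral_sub hi1 hi2]
  have hmain : (-psi D (1 + z) + Ω / 2 * ‖1 + z‖ ^ 2 - c) - Ω / 2 * ‖z‖ ^ 2 =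
      -(1 / (2 * Real.pi)) * ∫ y in D, L y := by
    have hv := h.val
    have hn : ‖1 + z‖ ^ 2 = 1 + 2 * z.re + ‖z‖ ^ 2 := by
      rw [Complex.sq_norm, Complex.sq_norm, Complex.normSq_apply, Complex.normSq_apply]
      simp only [Complex.add_re, Complex.one_re, Complex.add_im, Complex.one_im]
      ring
    rw [hn, hLD]
    unfold psi at hv ⊢
    have hpi : Real.pi ≠ 0 := Real.pi_ne_zero
    have e3 : (1 / (2 * Real.pi)) * (2 * Real.pi * Ω * z.re) = Ω * z.re := by field_simp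
    linear_combination hv - e3
  -- the strain
  have hi4 : IntegrableOn (fun y : ℂ => ((1 - y) ^ 2)⁻¹) F := by
    rw [hF]
    exact Auxc2exp.int_inv2 hm hsub hRr
  have hi5 : IntegrableOn (fun y : ℂ => z ^ 2 * ((1 - y) ^ 2)⁻¹) F := hi4.const_mul _
  have hi5' : IntegrableOn (fun y : ℂ => (z ^ 2 * ((1 - y) ^ 2)⁻¹).re) F :=
    Complex.reCLM.integrable_comp hi5
  have him : (∫ y in F, ((1 - y) ^ 2)⁻¹).im = 0 := by
    refine Auxc2exp.conj_int (fun w => ?_) (fun y => ((1 - y) ^ 2)⁻¹) fun y => ?_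
    · rw [hF, Set.mem_sdiff, Set.mem_sdiff, ← h.sym w, Metric.mem_ball, Metric.mem_ball,
        dist_eq_norm, dist_eq_norm]
      have e1 : ‖(starRingEnd ℂ) w - 1‖ = ‖w - 1‖ := by
        rw [← Complex.norm_conj (w - 1), map_sub, map_one]
      rw [e1]
    · rw [map_inv₀, map_pow, map_sub, map_one]
  have haD : (1 / 2) * aD D (R * r / 2) * (z ^ 2).re =
      (1 / (2 * Real.pi)) * ((1 / 2) * ∫ y in F, (z ^ 2 * ((1 - y) ^ 2)⁻¹).re) := by
    have e1 : ∫ y in F, (z ^ 2 * ((1 - y) ^ 2)⁻¹).re =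
        (∫ y in F, z ^ 2 * ((1 - y) ^ 2)⁻¹).re := Complex.reCLM.integral_comp_comm hi5
    have e2 : ∫ y in F, (((1 - y) ^ 2)⁻¹).re = (∫ y in F, ((1 - y) ^ 2)⁻¹).re :=
      Complex.reCLM.integral_comp_comm hi4
    rw [aD, show 2 * (R * r / 2) = R * r by ring, ← hF, e2, e1, integral_const_mul,
      Complex.mul_re, him, mul_zero, sub_zero]
    ring
  -- splitting
  have hsplit : ∫ y in D, L y = (∫ y in N, L y) + ∫ y in F, L y := by
    rw [hN, hF]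
    exact (integral_inter_add_sdiff hball hiL).symm
  have hLF : IntegrableOn L F := hiL.mono_set (hF ▸ sdiff_subset)
  have hsum : ∫ y in F, (L y + 1 / 2 * (z ^ 2 * ((1 - y) ^ 2)⁻¹).re) =
      (∫ y in F, L y) + 1 / 2 * ∫ y in F, (z ^ 2 * ((1 - y) ^ 2)⁻¹).re := by
    rw [integral_add hLF (hi5'.const_mul _), integral_const_mul]
  -- the near part
  have hb1 := t_bath 1 N ρ hNm hNf hρ
  have hb2 := t_bath (1 + z) N ρ hNm hNf hρ
  have hnear : |∫ y in N, L y| ≤ 3 * r * (2 * Real.pi * ρ + (volume N).toReal / ρ) := by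
    have hg : IntegrableOn (fun y : ℂ => 2 * (‖z‖ * ‖y - 1‖⁻¹) + ‖z‖ * ‖y - (1 + z)‖⁻¹) N :=
      ((hb1.1.const_mul ‖z‖).const_mul 2).add (hb2.1.const_mul ‖z‖)
    have hae : ∀ᵐ y : ℂ, y ≠ 1 ∧ y ≠ 1 + z := by
      refine Filter.Eventually.and ?_ ?_
      · exact compl_mem_ae_iff.2 (measure_singleton (1 : ℂ))
      · exact compl_mem_ae_iff.2 (measure_singleton (1 + z : ℂ))
    have h1 : ‖∫ y in N, L y‖ ≤
        ∫ y in N, (2 * (‖z‖ * ‖y - 1‖⁻¹) + ‖z‖ * ‖y - (1 + z)‖⁻¹) := by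
      refine norm_integral_le_of_norm_le hg ?_
      refine (ae_restrict_of_ae hae).mono fun y hy => ?_
      have ha : (1 : ℂ) - y ≠ 0 := sub_ne_zero.2 (Ne.symm hy.1)
      have hb : (1 : ℂ) - y + z ≠ 0 := by
        intro h0
        exact hy.2 (by linear_combination -h0)
      have := Auxc2exp.near_pt ha hb
      rw [hL, Real.norm_eq_abs, norm_sub_rev y 1, norm_sub_rev y (1 + z),
        show 1 + z - y = 1 - y + z by ring]
      exact this
    rw [Real.norm_eq_abs, integral_add ((hb1.1.const_mul ‖z‖).const_mul 2)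
      (hb2.1.const_mul ‖z‖), integral_const_mul, integral_const_mul, integral_const_mul] at h1
    refine h1.trans ?_
    have hA : 0 ≤ 2 * Real.pi * ρ + (volume N).toReal / ρ := by positivity
    have e1 : ‖z‖ * ∫ y in N, ‖y - 1‖⁻¹ ≤
        r * (2 * Real.pi * ρ + (volume N).toReal / ρ) :=
      (mul_le_mul_of_nonneg_left hb1.2 (norm_nonneg z)).trans
        (mul_le_mul_of_nonneg_right hz hA)
    have e2 : ‖z‖ * ∫ y in N, ‖y - (1 + z)‖⁻¹ ≤
        r * (2 * Real.pi * ρ + (volume N).toReal / ρ) :=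
      (mul_le_mul_of_nonneg_left hb2.2 (norm_nonneg z)).trans
        (mul_le_mul_of_nonneg_right hz hA)
    linarith
  -- the far part
  obtain ⟨hp1, hp2⟩ := t_P2 1 (R * r) hRr
  have hFsub : F ⊆ (Metric.ball (1 : ℂ) (R * r))ᶜ := by
    rw [hF]
    exact fun y hy => hy.2
  have hfar : |∫ y in F, (L y + 1 / 2 * (z ^ 2 * ((1 - y) ^ 2)⁻¹).re)| ≤
      2 * Real.pi * (r ^ 2 / R) := by
    have hg : IntegrableOn (fun y : ℂ => ‖z‖ ^ 3 * (‖y - 1‖ ^ 3)⁻¹) F :=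
      (hp1.mono_set hFsub).const_mul _
    have h1 : ‖∫ y in F, (L y + 1 / 2 * (z ^ 2 * ((1 - y) ^ 2)⁻¹).re)‖ ≤
        ∫ y in F, ‖z‖ ^ 3 * (‖y - 1‖ ^ 3)⁻¹ := by
      refine norm_integral_le_of_norm_le hg ?_
      refine (ae_restrict_iff' hFm).2 (Eventually.of_forall fun y hy => ?_)
      have hge : R * r ≤ ‖1 - y‖ := by
        rw [hF] at hy
        exact Auxc2exp.far_ge hy
      have ha : (1 : ℂ) - y ≠ 0 := norm_pos_iff.1 (hRr.trans_le hge)
      have hz2 : ‖z‖ ≤ ‖1 - y‖ / 2 := by nlinarith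
      have := Auxc2exp.far_pt ha hz2
      rw [hL, Real.norm_eq_abs, norm_sub_rev y 1]
      exact this
    rw [Real.norm_eq_abs, integral_const_mul] at h1
    refine h1.trans ?_
    have h2 : ∫ y in F, (‖y - 1‖ ^ 3)⁻¹ ≤ 2 * Real.pi / (R * r) := by
      rw [← hp2]
      exact setIntegral_mono_set hp1 (Eventually.of_forall fun y => by positivity)
        hFsub.eventuallyLE
    have h3 : ‖z‖ ^ 3 ≤ r ^ 3 := pow_le_pow_left₀ (norm_nonneg z) hz 3
    have h4 : 0 ≤ 2 * Real.pi / (R * r) := by positivity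
    calc ‖z‖ ^ 3 * ∫ y in F, (‖y - 1‖ ^ 3)⁻¹ ≤ ‖z‖ ^ 3 * (2 * Real.pi / (R * r)) :=
          mul_le_mul_of_nonneg_left h2 (by positivity)
      _ ≤ r ^ 3 * (2 * Real.pi / (R * r)) := mul_le_mul_of_nonneg_right h3 h4
      _ = 2 * Real.pi * (r ^ 2 / R) := by field_simp
  -- conclusion
  have hE : (-psi D (1 + z) + Ω / 2 * ‖1 + z‖ ^ 2 - c) - Ω / 2 * ‖z‖ ^ 2
        - (1 / 2) * aD D (R * r / 2) * (z ^ 2).re =
      -((1 / (2 * Real.pi)) * ((∫ y in N, L y) +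
        ∫ y in F, (L y + 1 / 2 * (z ^ 2 * ((1 - y) ^ 2)⁻¹).re))) := by
    rw [hmain, haD, hsplit, hsum]
    ring
  have hpi : 0 < Real.pi := Real.pi_pos
  rw [hE, abs_neg, abs_mul, abs_of_pos (by positivity : 0 < 1 / (2 * Real.pi)), ← hN]
  have h7 : |(∫ y in N, L y) + ∫ y in F, (L y + 1 / 2 * (z ^ 2 * ((1 - y) ^ 2)⁻¹).re)| ≤
      3 * r * (2 * Real.pi * ρ + (volume N).toReal / ρ) + 2 * Real.pi * (r ^ 2 / R) :=
    (abs_add_le _ _).trans (add_le_add hnear hfar)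
  have h8 : (0 : ℝ) ≤ r ^ 2 / R := by positivity
  have h9 : (0 : ℝ) ≤ (volume N).toReal / ρ := by positivity
  have h10 : 0 ≤ r * ((volume N).toReal / ρ) := mul_nonneg hr.le h9
  have h11 : (1 / (2 * Real.pi)) ≤ 1 := by
    rw [div_le_one (by positivity)]
    have := Real.pi_gt_three
    linarith
  refine (mul_le_mul_of_nonneg_left h7 (by positivity)).trans ?_
  have e5 : (1 / (2 * Real.pi)) * (3 * r * (2 * Real.pi * ρ + (volume N).toReal / ρ) +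
      2 * Real.pi * (r ^ 2 / R)) = 3 * r * ρ + 3 * ((1 / (2 * Real.pi)) *
        (r * ((volume N).toReal / ρ))) + r ^ 2 / R := by
    field_simp
  rw [e5]
  have h12 : (1 / (2 * Real.pi)) * (r * ((volume N).toReal / ρ)) ≤
      1 * (r * ((volume N).toReal / ρ)) := mul_le_mul_of_nonneg_right h11 h10
  nlinarith

end Pool.Agent.H682_VS
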