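import Pool.Agent.H682_VS.Stmts
import Pool.Agent.H682_VS.T_c2exp

/-! # claim2 -/

set_option autoImplicit false

open MeasureTheory Set Filter Topology

namespace Pool.Agent.H682_VS


/- TARGET, proof in plain words:
C1 from t_c2exp, f(w) = -psi D w + Ω/2‖w‖² - c.  wlog A ≥ 1.  κ' = min(1/8, Ω/(128 A)), R = max(2, 128 C1/Ω), κ > 0 with 2 C1 √κ ≤ Ω/128 and κ < κ'/2, δ > 0 with R δ/2 < d, δ < 2d.., δ ≤ 1/2.
Let 0 < r < δ, V = vol(D ∩ ball 1 (Rr)) and suppose V < κ r².  Use ρ = √κ r: r(ρ + V/ρ) ≤ 2√κ r².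
Take z = -s + iτ with s in [r/4, r/2], |τ - s| ≤ κ' r.  Then 0 < τ ≤ s + κ' r ≤ 1.5 s, ‖z‖² ≤ 3.25 s² ≤ 0.82 r² so ‖z‖ ≤ r;  (Ω/2)‖z‖² ≥ (Ω/2)s² ≥ Ω r²/32;
 |Re z²| = |s²-τ²| ≤ κ' r (2s + κ' r) ≤ 2κ' r², |aD D (Rr/2)| ≤ A (Rr/2 < d): |(1/2) aD Re z²| ≤ A κ' r² ≤ Ω r²/128;  C1 r²/R ≤ Ω r²/128;  2 C1 √κ r² ≤ Ω r²/128.
 So f(1+z) ≥ r² Ω (1/32 - 3/128) > 0; moreover ‖1+z‖² = 1 - 2s + s² + τ² < 1 since s² + τ² ≤ 3.25 s² < 2s.  ‖z‖ < 2d, so 1+z ∈ D by Cor.loc; and ‖z‖ ≤ r < Rr: 1+z ∈ D ∩ ball 1 (Rr).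
 The set of these points is the image of the parallelogram, of area (r/4)(2κ' r) = κ' r²/2 (it is {w : 1 - w.re ∈ [r/4,r/2], |w.im - (1 - w.re)| ≤ κ' r}; Complex.volume_preserving_equiv_real_prod + Fubini, or `volume_regionBetween_eq_integral`;
 a lower bound by a smaller explicit rectangle/ball is equally good: e.g. it contains the ball centred 1 + (-3/8 + 3i/8) r of radius κ' r/2 (|Δs| ≤ κ' r/2 ≤ r/16, |Δτ-Δs| ≤ κ' r), of area π κ'² r²/4: then choose κ < π κ'²/4.)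
 Hence V ≥ (that area) > κ r², contradiction.  So κ r² ≤ V for all 0 < r < δ.
-/
theorem t_claim2 : S_claim2 := by
  intro D Ω c c1 d A hC hA
  obtain ⟨C1, hC1, hexp⟩ := t_c2exp
  have hΩ := hC.Ωpos
  have hd := hC.dpos
  set A' : ℝ := max A 1 with hA'
  have hA1 : 1 ≤ A' := le_max_right _ _
  have hAA : A ≤ A' := le_max_left _ _
  set k : ℝ := min (1 / 8) (Ω / (128 * A')) with hk
  have hk0 : 0 < k := lt_min (by norm_num) (by positivity)
  have hk8 : k ≤ 1 / 8 := min_le_left _ _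
  have hkA : A' * k ≤ Ω / 128 := by
    have h1 : k ≤ Ω / (128 * A') := min_le_right _ _
    have h2 : A' * k ≤ A' * (Ω / (128 * A')) := by gcongr
    have h3 : A' * (Ω / (128 * A')) = Ω / 128 := by field_simp
    linarith
  set R : ℝ := max 2 (128 * C1 / Ω) with hR
  have hR2 : 2 ≤ R := le_max_left _ _
  have hRC : 128 * C1 / Ω ≤ R := le_max_right _ _
  have hCR : C1 / R ≤ Ω / 128 := by
    rw [div_le_iff₀ (by linarith)]
    rw [div_le_iff₀ hΩ] at hRC
    linarith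
  set κ : ℝ := min (k ^ 2 / 2) ((Ω / (256 * C1)) ^ 2) with hκ
  have hκ0 : 0 < κ := lt_min (by positivity) (by positivity)
  have hκk : κ ≤ k ^ 2 / 2 := min_le_left _ _
  have hsq : Real.sqrt κ ≤ Ω / (256 * C1) := by
    rw [Real.sqrt_le_left (by positivity)]
    exact min_le_right _ _
  have hsq0 : 0 < Real.sqrt κ := Real.sqrt_pos.mpr hκ0
  have hsqsq : Real.sqrt κ * Real.sqrt κ = κ := Real.mul_self_sqrt hκ0.le
  have hCs : 2 * C1 * Real.sqrt κ ≤ Ω / 128 := by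
    have h1 : 2 * C1 * Real.sqrt κ ≤ 2 * C1 * (Ω / (256 * C1)) := by gcongr
    have h2 : 2 * C1 * (Ω / (256 * C1)) = Ω / 128 := by field_simp; norm_num
    linarith
  set δ : ℝ := min (1 / 2) (min d (2 * d / R)) with hδ
  have hδ0 : 0 < δ := lt_min (by norm_num) (lt_min hd (by positivity))
  refine ⟨R, by linarith, κ, hκ0, δ, hδ0, fun r hr hrδ => ?_⟩
  by_contra hcon
  push Not at hcon
  set V : ℝ := (volume (D ∩ Metric.ball 1 (R * r))).toReal with hV
  have hV0 : 0 ≤ V := ENNReal.toReal_nonneg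
  have hr2 : r < 1 / 2 := lt_of_lt_of_le hrδ (min_le_left _ _)
  have hrd : r < d := lt_of_lt_of_le hrδ ((min_le_right _ _).trans (min_le_left _ _))
  have hrR : R * r / 2 < d := by
    have h1 : r < 2 * d / R := lt_of_lt_of_le hrδ ((min_le_right _ _).trans (min_le_right _ _))
    rw [lt_div_iff₀ (by linarith)] at h1
    linarith
  have haD := hA (R * r / 2) (by positivity) hrR
  have hsub : Metric.ball ((1 - 3 / 8 * r : ℝ) + (3 / 8 * r : ℝ) * Complex.I : ℂ) (k * r / 2)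
      ⊆ D ∩ Metric.ball 1 (R * r) := by
    intro w hw
    rw [Metric.mem_ball, dist_eq_norm] at hw
    obtain ⟨z, hz⟩ : ∃ z : ℂ, w = 1 + z := ⟨w - 1, by ring⟩
    have hre : |z.re + 3 / 8 * r| < k * r / 2 := by
      have h1 := Complex.abs_re_le_norm (w - ((1 - 3 / 8 * r : ℝ) + (3 / 8 * r : ℝ) * Complex.I))
      have h2 : (w - ((1 - 3 / 8 * r : ℝ) + (3 / 8 * r : ℝ) * Complex.I)).re = z.re + 3 / 8 * r := by
        rw [hz]
        simp only [Complex.sub_re, Complex.add_re, Complex.one_re, Complex.ofReal_re, Complex.mul_re,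
          Complex.I_re, Complex.ofReal_im, Complex.I_im]
        ring
      rw [h2] at h1
      linarith
    have him : |z.im - 3 / 8 * r| < k * r / 2 := by
      have h1 := Complex.abs_im_le_norm (w - ((1 - 3 / 8 * r : ℝ) + (3 / 8 * r : ℝ) * Complex.I))
      have h2 : (w - ((1 - 3 / 8 * r : ℝ) + (3 / 8 * r : ℝ) * Complex.I)).im = z.im - 3 / 8 * r := by
        rw [hz]
        simp only [Complex.sub_im, Complex.add_im, Complex.one_im, Complex.ofReal_re, Complex.mul_im,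
          Complex.I_re, Complex.ofReal_im, Complex.I_im]
        ring
      rw [h2] at h1
      linarith
    have hkr : k * r / 2 ≤ r / 16 := by
      have := mul_le_mul_of_nonneg_right hk8 hr.le
      linarith
    rw [abs_lt] at hre him
    set s : ℝ := -z.re with hs
    set τ : ℝ := z.im with hτ
    have hs1 : 5 / 16 * r < s := by rw [hs]; linarith [hre.1, hre.2]
    have hs2 : s < 7 / 16 * r := by rw [hs]; linarith [hre.1, hre.2]
    have ht1 : 5 / 16 * r < τ := by linarith [him.1, him.2]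
    have ht2 : τ < 7 / 16 * r := by linarith [him.1, him.2]
    have hst : |s - τ| ≤ k * r := by
      rw [abs_le]; constructor <;> rw [hs] <;> linarith [hre.1, hre.2, him.1, him.2]
    have hnz : ‖z‖ ^ 2 = s ^ 2 + τ ^ 2 := by
      rw [← Complex.normSq_eq_norm_sq, Complex.normSq_apply, hs, hτ]; ring
    have hrr : 0 < r ^ 2 := by positivity
    have q1 : s ^ 2 ≤ 49 / 256 * r ^ 2 := by
      have : s ^ 2 ≤ (7 / 16 * r) ^ 2 := pow_le_pow_left₀ (by linarith) hs2.le 2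
      calc s ^ 2 ≤ (7 / 16 * r) ^ 2 := this
        _ = 49 / 256 * r ^ 2 := by ring
    have q2 : τ ^ 2 ≤ 49 / 256 * r ^ 2 := by
      have : τ ^ 2 ≤ (7 / 16 * r) ^ 2 := pow_le_pow_left₀ (by linarith) ht2.le 2
      calc τ ^ 2 ≤ (7 / 16 * r) ^ 2 := this
        _ = 49 / 256 * r ^ 2 := by ring
    have q3 : 25 / 256 * r ^ 2 ≤ s ^ 2 := by
      have : (5 / 16 * r) ^ 2 ≤ s ^ 2 := pow_le_pow_left₀ (by linarith) hs1.le 2
      calc 25 / 256 * r ^ 2 = (5 / 16 * r) ^ 2 := by ring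
        _ ≤ s ^ 2 := this
    have q4 : 25 / 256 * r ^ 2 ≤ τ ^ 2 := by
      have : (5 / 16 * r) ^ 2 ≤ τ ^ 2 := pow_le_pow_left₀ (by linarith) ht1.le 2
      calc 25 / 256 * r ^ 2 = (5 / 16 * r) ^ 2 := by ring
        _ ≤ τ ^ 2 := this
    have hnzlt : ‖z‖ < r := by
      apply lt_of_pow_lt_pow_left₀ 2 hr.le
      rw [hnz]; linarith
    have hnzlow : 50 / 256 * r ^ 2 ≤ ‖z‖ ^ 2 := by rw [hnz]; linarith
    have hz2 : (z ^ 2).re = (s - τ) * (s + τ) := by
      rw [pow_two, Complex.mul_re, hs, hτ]; ring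
    have hz2' : |(z ^ 2).re| ≤ k * r ^ 2 := by
      rw [hz2, abs_mul]
      have h1 : |s + τ| ≤ r := by rw [abs_le]; constructor <;> linarith
      calc |s - τ| * |s + τ| ≤ (k * r) * r := by gcongr
        _ = k * r ^ 2 := by ring
    have hE := hexp D Ω c c1 d hC r R (Real.sqrt κ * r) z hr hR2 (by positivity) hnzlt.le
    rw [← hV] at hE
    have hVρ : V / (Real.sqrt κ * r) ≤ Real.sqrt κ * r := by
      rw [div_le_iff₀ (by positivity)]
      have h1 : Real.sqrt κ * r * (Real.sqrt κ * r) = κ * r ^ 2 := by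
        rw [← hsqsq]; ring_nf
        simp [Real.sq_sqrt hκ0.le]
      linarith
    have hE2 : C1 * (r ^ 2 / R + r * (Real.sqrt κ * r + V / (Real.sqrt κ * r))) ≤ Ω / 64 * r ^ 2 := by
      have h1 : C1 * (r ^ 2 / R) ≤ Ω / 128 * r ^ 2 := by
        have : C1 * (r ^ 2 / R) = C1 / R * r ^ 2 := by ring
        rw [this]; gcongr
      have h2 : C1 * (r * (Real.sqrt κ * r + V / (Real.sqrt κ * r))) ≤ Ω / 128 * r ^ 2 := by
        calc C1 * (r * (Real.sqrt κ * r + V / (Real.sqrt κ * r)))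
            ≤ C1 * (r * (Real.sqrt κ * r + Real.sqrt κ * r)) := by gcongr
          _ = 2 * C1 * Real.sqrt κ * r ^ 2 := by ring
          _ ≤ Ω / 128 * r ^ 2 := by gcongr
      calc C1 * (r ^ 2 / R + r * (Real.sqrt κ * r + V / (Real.sqrt κ * r)))
          = C1 * (r ^ 2 / R) + C1 * (r * (Real.sqrt κ * r + V / (Real.sqrt κ * r))) := by ring
        _ ≤ Ω / 64 * r ^ 2 := by linarith
    have hE3 : |(1 / 2) * aD D (R * r / 2) * (z ^ 2).re| ≤ Ω / 256 * r ^ 2 := by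
      rw [abs_mul, abs_mul, abs_of_pos (show (0:ℝ) < 1 / 2 by norm_num)]
      calc 1 / 2 * |aD D (R * r / 2)| * |(z ^ 2).re| ≤ 1 / 2 * A' * (k * r ^ 2) := by
            gcongr; exact haD.trans hAA
        _ = 1 / 2 * (A' * k) * r ^ 2 := by ring
        _ ≤ 1 / 2 * (Ω / 128) * r ^ 2 := by gcongr
        _ = Ω / 256 * r ^ 2 := by ring
    have hpos : 0 < -psi D (1 + z) + Ω / 2 * ‖1 + z‖ ^ 2 - c := by
      have h1 := (abs_le.mp (hE.trans hE2)).1
      have h2 := (abs_le.mp hE3).1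
      have h3 : Ω / 2 * (50 / 256 * r ^ 2) ≤ Ω / 2 * ‖z‖ ^ 2 := by gcongr
      have h4 : 0 < Ω * r ^ 2 := by positivity
      have h5 : Ω / 2 * (50 / 256 * r ^ 2) = 25 / 256 * (Ω * r ^ 2) := by ring
      have h6 : Ω / 64 * r ^ 2 = 4 / 256 * (Ω * r ^ 2) := by ring
      have h7 : Ω / 256 * r ^ 2 = 1 / 256 * (Ω * r ^ 2) := by ring
      rw [h6] at h1
      rw [h7] at h2
      rw [h5] at h3
      linarith
    have hlt1 : ‖w‖ < 1 := by
      have h1 : ‖w‖ ^ 2 < 1 ^ 2 := by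
        rw [← Complex.normSq_eq_norm_sq, Complex.normSq_apply, hz]
        simp only [Complex.add_re, Complex.one_re, Complex.add_im, Complex.one_im]
        have h2 : z.re = -s := by rw [hs]; ring
        have h3 : z.im = τ := rfl
        rw [h2, h3]
        have h8 : r ^ 2 ≤ r := by
          have := mul_le_mul_of_nonneg_left (show r ≤ 1 by linarith) hr.le
          linarith [show r * r = r ^ 2 by ring]
        have h9 : (1 + -s) * (1 + -s) + (0 + τ) * (0 + τ) = 1 - 2 * s + (s ^ 2 + τ ^ 2) := by ring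
        rw [h9]
        linarith
      exact lt_of_pow_lt_pow_left₀ 2 (by norm_num) h1
    have hw1 : ‖w - 1‖ < r := by rw [hz]; simpa using hnzlt
    refine ⟨(hC.loc w (by linarith)).mpr ⟨hlt1, ?_⟩, ?_⟩
    · rw [hz]; exact hpos
    · rw [Metric.mem_ball, dist_eq_norm]
      have := mul_le_mul_of_nonneg_right hR2 hr.le
      linarith
  have hfin : volume (D ∩ Metric.ball 1 (R * r)) ≠ ⊤ :=
    ne_top_of_le_ne_top (measure_ball_lt_top (μ := volume) (x := (1:ℂ)) (r := R * r)).ne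
      (measure_mono inter_subset_right)
  have hvol := ENNReal.toReal_mono hfin (measure_mono hsub)
  rw [Complex.volume_ball, ENNReal.toReal_mul, ENNReal.toReal_pow,
    ENNReal.toReal_ofReal (by positivity)] at hvol
  have hpi : ((NNReal.pi : ENNReal)).toReal = Real.pi := by simp
  rw [← hV] at hvol
  have hπ := Real.pi_gt_three
  have h5 : (k * r / 2) ^ 2 * 3 ≤ V := by
    have h6 : (k * r / 2) ^ 2 * 3 ≤ (k * r / 2) ^ 2 * Real.pi := by gcongr
    rw [hpi] at hvol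
    linarith
  have h7 : 0 < k ^ 2 * r ^ 2 := by positivity
  have h8 : κ * r ^ 2 ≤ k ^ 2 / 2 * r ^ 2 := by gcongr
  have h9 : (k * r / 2) ^ 2 * 3 = 3 / 4 * (k ^ 2 * r ^ 2) := by ring
  rw [h9] at h5
  linarith

end Pool.Agent.H682_VS
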