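import Pool.Agent.H682_VS.Stmts
import Pool.Agent.H682_VS.T_ab
import Pool.Agent.H682_VS.T_bmono
import Pool.Agent.H682_VS.T_claim1
import Pool.Agent.H682_VS.T_claim2

/-! # blow -/

set_option autoImplicit false

open MeasureTheory Set Filter Topology

namespace Pool.Agent.H682_VS


namespace Auxblow

theorem dist_one (y : ℂ) (hy : ‖y‖ ≤ 1) : ‖y - 1‖ ≤ (1 - ‖y‖) + |Complex.arg y| := by
  set t := Complex.arg y
  have h1 : (‖y‖ : ℂ) * Complex.exp (t * Complex.I) = y := Complex.norm_mul_exp_arg_mul_I y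
  have h2 : y - 1 = ((‖y‖ - 1 : ℝ) : ℂ) * Complex.exp (t * Complex.I) +
      (Complex.exp (Complex.I * (t : ℂ)) - 1) := by
    rw [mul_comm Complex.I (t : ℂ)]
    push_cast
    rw [sub_mul, h1]; ring
  have h3 := @Real.norm_exp_I_mul_ofReal_sub_one_le t
  calc ‖y - 1‖ ≤ ‖((‖y‖ - 1 : ℝ) : ℂ) * Complex.exp (t * Complex.I)‖ +
      ‖Complex.exp (Complex.I * (t : ℂ)) - 1‖ := by rw [h2]; exact norm_add_le _ _
    _ ≤ (1 - ‖y‖) + |t| := by
      rw [norm_mul, Complex.norm_exp_ofReal_mul_I, mul_one, Complex.norm_real, Real.norm_eq_abs,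
        abs_of_nonpos (by linarith : ‖y‖ - 1 ≤ 0)]
      rw [Real.norm_eq_abs] at h3
      linarith

theorem cor_mono {D : Set ℂ} {Ω c c1 d e : ℝ} (h : Cor D Ω c c1 d) (he : 0 < e) (hed : e ≤ d) :
    Cor D Ω c c1 e where
  meas := h.meas
  sub := h.sub
  Ωpos := h.Ωpos
  c1pos := h.c1pos
  dpos := he
  dlt := lt_of_le_of_lt hed h.dlt
  sym := h.sym
  val := h.val
  grad := h.grad
  loc := fun w hw => h.loc w (by linarith)
  mono := fun t θ1 θ2 h1 h2 h3 h4 h5 => h.mono t θ1 θ2 (by linarith) h2 h3 (by linarith) h5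
  hopf := fun θ hθ => h.hopf θ (by linarith)

theorem vol_fin {D S : Set ℂ} (h : D ⊆ Metric.ball 0 1) (hS : S ⊆ D) : volume S ≠ ⊤ :=
  ne_top_of_le_ne_top (measure_ball_lt_top (x := (0:ℂ)) (r := 1)).ne
    (measure_mono (hS.trans h))

/-- `b` bounded above is impossible -/
theorem not_bdd {D : Set ℂ} {Ω c c1 d B0 : ℝ} (h : Cor D Ω c c1 d)
    (hb : ∀ r : ℝ, 0 < r → r < d → bD D d r ≤ B0) : False := by
  have hd := h.dpos
  have hd2 := h.dlt
  obtain ⟨C, hC⟩ := t_ab D d h.meas h.sub hd hd2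
  obtain ⟨hanti, -⟩ := t_bmono D d h.meas h.sub hd hd2 h.mono
  -- bound for `a`
  set A := |bD D d (d / 2)| + |B0| + C with hA
  have ha : ∀ r : ℝ, 0 < r → r < d / 2 → |aD D r| ≤ A := by
    intro r hr hr2
    have h1 := hC r hr (by linarith)
    have h2 := hanti r (d / 2) hr hr2.le (by linarith)
    have h3 := hb r hr (by linarith)
    have h4 : |bD D d r| ≤ |bD D d (d / 2)| + |B0| := by
      rw [abs_le]
      constructor
      · have := neg_abs_le (bD D d (d / 2)); have := abs_nonneg B0; linarith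
      · have := le_abs_self B0; have := abs_nonneg (bD D d (d / 2)); linarith
    calc |aD D r| = |bD D d r + (aD D r - bD D d r)| := by congr 1; ring
      _ ≤ |bD D d r| + |aD D r - bD D d r| := abs_add_le _ _
      _ ≤ A := by rw [hA]; linarith
  have h' := cor_mono h (e := d / 2) (by linarith) (by linarith)
  obtain ⟨K, hK, δ1, hδ1, hcl1⟩ := t_claim1 D Ω c c1 (d / 2) A h' ha
  obtain ⟨R, hR, κ, hκ, δ2, hδ2, hcl2⟩ := t_claim2 D Ω c c1 (d / 2) A h' ha
  -- the small radius
  obtain ⟨e, he, hed, heδ⟩ : ∃ e : ℝ, 0 < e ∧ e ≤ d / 2 ∧ 2 * e ≤ δ1 :=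
    ⟨min (d / 2) (δ1 / 2), lt_min (by linarith) (by linarith), min_le_left _ _, by
      have := min_le_right (d / 2) (δ1 / 2); linarith⟩
  have h'' := cor_mono h (e := e) he (by linarith)
  obtain ⟨C2, hC2⟩ := t_ab D e h''.meas h''.sub he h''.dlt
  obtain ⟨hanti2, hq⟩ := t_bmono D e h''.meas h''.sub he h''.dlt h''.mono
  obtain ⟨cK, hcK, hq⟩ := hq K hK
  have hb2 : ∀ r : ℝ, 0 < r → r < e → bD D e r ≤ A + C2 := by
    intro r hr hr2
    have h1 := abs_le.1 (hC2 r hr hr2)
    have h2 := abs_le.1 (ha r hr (by linarith))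
    linarith
  -- `η`
  have hpi := Real.pi_pos
  obtain ⟨η, hη, hη1, hηκ⟩ : ∃ η : ℝ, 0 < η ∧ η < 1 ∧ Real.pi * (1 + K) ^ 2 * η ^ 2 ≤ κ / 2 := by
    set q := κ / (2 * Real.pi * (1 + K) ^ 2) with hq'
    have hqpos : 0 < q := by positivity
    refine ⟨min (1 / 2) q, lt_min (by norm_num) hqpos,
      lt_of_le_of_lt (min_le_left _ _) (by norm_num), ?_⟩
    have h1 : (min (1 / 2) q) ^ 2 ≤ q := by
      have hm0 : 0 < min (1 / 2) q := lt_min (by norm_num) hqpos
      have hm1 : min (1 / 2) q ≤ 1 := le_trans (min_le_left _ _) (by norm_num)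
      have hm2 : min (1 / 2) q ≤ q := min_le_right _ _
      nlinarith
    calc Real.pi * (1 + K) ^ 2 * (min (1 / 2) q) ^ 2 ≤ Real.pi * (1 + K) ^ 2 * q := by
          apply mul_le_mul_of_nonneg_left h1; positivity
      _ = κ / 2 := by rw [hq']; field_simp
  -- the step
  obtain ⟨s, hs, hsδ, hse, hsK⟩ : ∃ s : ℝ, 0 < s ∧ s ≤ δ2 ∧ R * s ≤ e ∧ K * (R * s) ≤ e := by
    have hR0 : 0 < R := by linarith
    refine ⟨min δ2 (min (e / R) (e / (K * R))), lt_min hδ2 (lt_min (by positivity) (by positivity)),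
      min_le_left _ _, ?_, ?_⟩
    · have h1 : min δ2 (min (e / R) (e / (K * R))) ≤ e / R :=
        (min_le_right _ _).trans (min_le_left _ _)
      calc R * _ ≤ R * (e / R) := mul_le_mul_of_nonneg_left h1 hR0.le
        _ = e := by field_simp
    · have h1 : min δ2 (min (e / R) (e / (K * R))) ≤ e / (K * R) :=
        (min_le_right _ _).trans (min_le_right _ _)
      calc K * (R * _) ≤ K * (R * (e / (K * R))) :=
            mul_le_mul_of_nonneg_left (mul_le_mul_of_nonneg_left h1 hR0.le) hK.le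
        _ = e := by field_simp
  have hR0 : 0 < R := by linarith
  set ν := cK * κ / (2 * R ^ 2) with hν
  have hνpos : 0 < ν := by positivity
  have step : ∀ r : ℝ, 0 < r → r < s → bD D e (R * r) + ν ≤ bD D e (η * r) := by
    intro r hr hrs
    have hRr : R * r < e := lt_of_lt_of_le (mul_lt_mul_of_pos_left hrs hR0) hse
    have hKRr : K * (R * r) < e :=
      lt_of_lt_of_le (mul_lt_mul_of_pos_left (mul_lt_mul_of_pos_left hrs hR0) hK) hsK
    have hle : η * r ≤ R * r := mul_le_mul_of_nonneg_right (by linarith) hr.le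
    have h1 := hq (η * r) (R * r) (by positivity) hle hRr (by
      intro y hy hy1 hy2
      apply hcl1 y hy
      have hy3 : ‖y‖ < 1 := by simpa using h.sub hy
      have := dist_one y hy3.le
      linarith)
    set T := {y : ℂ | y ∈ D ∧ 1 - R * r < ‖y‖ ∧ ‖y‖ < 1 - η * r ∧ |Complex.arg y| < e} with hT
    have h2 := hcl2 r hr (lt_of_lt_of_le hrs hsδ)
    have hsub : D ∩ Metric.ball 1 (R * r) ⊆ T ∪ Metric.closedBall 1 ((1 + K) * (η * r)) := by
      rintro y ⟨hy, hy1⟩
      rw [Metric.mem_ball, dist_eq_norm] at hy1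
      have hy3 : ‖y‖ < 1 := by simpa using h.sub hy
      have hy4 : 1 - ‖y‖ ≤ ‖y - 1‖ := by
        have := norm_sub_norm_le (1 : ℂ) y
        rw [norm_one, norm_sub_rev] at this; exact this
      have hy5 := hcl1 y hy (by linarith)
      by_cases hy6 : ‖y‖ < 1 - η * r
      · left
        refine ⟨hy, by linarith, hy6, ?_⟩
        have : K * (1 - ‖y‖) ≤ K * (R * r) := mul_le_mul_of_nonneg_left (by linarith) hK.le
        linarith
      · right
        push Not at hy6
        rw [Metric.mem_closedBall, dist_eq_norm]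
        have := dist_one y hy3.le
        have h7 : K * (1 - ‖y‖) ≤ K * (η * r) := mul_le_mul_of_nonneg_left (by linarith) hK.le
        linarith
    have hTfin : volume T ≠ ⊤ := vol_fin h.sub (fun y hy => hy.1)
    have hBfin : volume (Metric.closedBall (1:ℂ) ((1 + K) * (η * r))) ≠ ⊤ :=
      measure_closedBall_lt_top.ne
    have h3 : (volume (D ∩ Metric.ball 1 (R * r))).toReal ≤
        (volume T).toReal + (volume (Metric.closedBall (1:ℂ) ((1 + K) * (η * r)))).toReal := by
      rw [← ENNReal.toReal_add hTfin hBfin]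
      exact ENNReal.toReal_mono (ENNReal.add_ne_top.2 ⟨hTfin, hBfin⟩)
        ((measure_mono hsub).trans (measure_union_le _ _))
    have h4 : (volume (Metric.closedBall (1:ℂ) ((1 + K) * (η * r)))).toReal =
        Real.pi * ((1 + K) * (η * r)) ^ 2 := by
      rw [Complex.volume_closedBall, ENNReal.toReal_mul, ENNReal.toReal_pow,
        ENNReal.toReal_ofReal (by positivity)]
      simp [mul_comm]
    have h5 : Real.pi * ((1 + K) * (η * r)) ^ 2 ≤ κ / 2 * r ^ 2 := by
      have : Real.pi * ((1 + K) * (η * r)) ^ 2 = (Real.pi * (1 + K) ^ 2 * η ^ 2) * r ^ 2 := by ring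
      rw [this]
      exact mul_le_mul_of_nonneg_right hηκ (by positivity)
    have h6 : κ / 2 * r ^ 2 ≤ (volume T).toReal := by
      rw [h4] at h3
      linarith
    have h7 : ν ≤ cK / (R * r) ^ 2 * (volume T).toReal := by
      calc ν = cK / (R * r) ^ 2 * (κ / 2 * r ^ 2) := by rw [hν]; field_simp
        _ ≤ _ := mul_le_mul_of_nonneg_left h6 (by positivity)
    linarith
  -- iterate
  set l := η / R with hl
  have hlpos : 0 < l := by positivity
  have hl1 : l < 1 := by
    rw [hl, div_lt_one hR0]; linarith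
  set ρ := R * (s / 2) with hρ
  have hρpos : 0 < ρ := by positivity
  have key : ∀ n : ℕ, bD D e ρ + n * ν ≤ bD D e (l ^ n * ρ) := by
    intro n
    induction n with
    | zero => simp
    | succ n ih =>
      have h1 : l ^ n * (s / 2) < s := by
        have : l ^ n ≤ 1 := pow_le_one₀ hlpos.le hl1.le
        nlinarith
      have h2 := step (l ^ n * (s / 2)) (by positivity) h1
      have h3 : R * (l ^ n * (s / 2)) = l ^ n * ρ := by rw [hρ]; ring
      have h4 : η * (l ^ n * (s / 2)) = l ^ (n + 1) * ρ := by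
        rw [hρ, pow_succ, hl]; field_simp
      rw [h3, h4] at h2
      push_cast
      linarith
  obtain ⟨n, hn⟩ := exists_nat_gt ((A + C2 - bD D e ρ) / ν)
  have h1 := key n
  have h2 := hb2 (l ^ n * ρ) (by positivity) (by
    have h3 : l ^ n ≤ 1 := pow_le_one₀ hlpos.le hl1.le
    have h4 : ρ < e := by rw [hρ]; nlinarith
    nlinarith)
  rw [div_lt_iff₀ hνpos] at hn
  linarith

end Auxblow

theorem t_blow : S_blow := by
  intro D Ω c c1 d h
  have hd := h.dpos
  have hd2 := h.dlt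
  obtain ⟨C, hC⟩ := t_ab D d h.meas h.sub hd hd2
  obtain ⟨hanti, -⟩ := t_bmono D d h.meas h.sub hd hd2 h.mono
  rw [tendsto_atTop]
  intro B
  have h1 : ∃ r : ℝ, 0 < r ∧ r < d ∧ B + C < bD D d r := by
    by_contra hcon
    push Not at hcon
    exact Auxblow.not_bdd h hcon
  obtain ⟨r0, hr0, hr0d, hr0B⟩ := h1
  filter_upwards [Ioo_mem_nhdsGT hr0] with r hr
  have h2 := hanti r r0 hr.1 hr.2.le hr0d
  have h3 := abs_le.1 (hC r hr.1 (hr.2.trans hr0d))
  linarith

end Pool.Agent.H682_VS
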