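import Pool.Agent.H682_VS.Stmts

/-! # K1b -/

set_option autoImplicit false

open MeasureTheory Set Filter Topology

namespace Pool.Agent.H682_VS


namespace AuxK1b

theorem q_pos {u : ℝ} (hu : u ≠ 0) (v : ℝ) : 0 < q u v := by
  unfold q
  have h1 : 1 < Real.cosh u := Real.one_lt_cosh.mpr hu
  have h2 := Real.cos_le_one v
  linarith

theorem h2_cont {u : ℝ} (hu : u ≠ 0) : Continuous (fun v => |h2 u v|) := by
  unfold h2
  apply Continuous.abs
  apply Real.continuous_sin.div
  · unfold q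
    fun_prop
  · intro v
    exact (q_pos hu v).ne'

theorem h2_periodic (u : ℝ) : Function.Periodic (fun v => |h2 u v|) (2 * Real.pi) := by
  intro v
  simp only [h2, q, Real.sin_add_two_pi, Real.cos_add_two_pi]

theorem h2_even (u v : ℝ) : |h2 u (-v)| = |h2 u v| := by
  simp only [h2, q, Real.sin_neg, Real.cos_neg, neg_div, abs_neg]

theorem int_zero_pi {u : ℝ} (hu : u ≠ 0) :
    ∫ v in (0 : ℝ)..Real.pi, |h2 u v| = Real.log (q u Real.pi) - Real.log (q u 0) := by
  have h1 : ∫ v in (0 : ℝ)..Real.pi, |h2 u v| = ∫ v in (0 : ℝ)..Real.pi, h2 u v := by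
    apply intervalIntegral.integral_congr
    intro v hv
    rw [uIcc_of_le Real.pi_pos.le] at hv
    have h3 : 0 ≤ h2 u v :=
      div_nonneg (Real.sin_nonneg_of_mem_Icc hv) (q_pos hu v).le
    exact abs_of_nonneg h3
  rw [h1]
  apply intervalIntegral.integral_eq_sub_of_hasDerivAt (f := fun v => Real.log (q u v))
  · intro v _
    have h4 : HasDerivAt (fun v => q u v) (Real.sin v) v := by
      unfold q
      have h5 := (Real.hasDerivAt_cos v).const_sub (Real.cosh u)
      rw [neg_neg] at h5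
      exact h5
    exact h4.log (q_pos hu v).ne'
  · apply Continuous.intervalIntegrable
    unfold h2
    apply Real.continuous_sin.div
    · unfold q
      fun_prop
    · intro v
      exact (q_pos hu v).ne'

theorem int_full {u : ℝ} (hu : u ≠ 0) (a : ℝ) :
    ∫ v in a..(a + 2 * Real.pi), |h2 u v| =
      2 * (Real.log (q u Real.pi) - Real.log (q u 0)) := by
  have hc := h2_cont hu
  have h1 := (h2_periodic u).intervalIntegral_add_eq a (-Real.pi)
  rw [h1]
  have h2' : -Real.pi + 2 * Real.pi = Real.pi := by ring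
  rw [h2', ← intervalIntegral.integral_add_adjacent_intervals
    (hc.intervalIntegrable (-Real.pi) 0) (hc.intervalIntegrable 0 Real.pi)]
  have h3 : ∫ v in (-Real.pi)..0, |h2 u v| = ∫ v in (0 : ℝ)..Real.pi, |h2 u v| := by
    have h4 := intervalIntegral.integral_comp_neg (a := 0) (b := Real.pi) (fun v => |h2 u v|)
    rw [neg_zero] at h4
    rw [← h4]
    simp only [h2_even]
  rw [h3, int_zero_pi hu]
  ring

theorem cosh_lower (u : ℝ) : u ^ 2 / 2 ≤ Real.cosh u - 1 := by
  have h1 : Real.cosh u = 1 + 2 * Real.sinh (u / 2) ^ 2 := by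
    have h2 := Real.cosh_two_mul (u / 2)
    have h3 := Real.cosh_sq (u / 2)
    have h4 : 2 * (u / 2) = u := by ring
    rw [h4, h3] at h2
    rw [h2]
    ring
  have h5 : |u / 2| ≤ |Real.sinh (u / 2)| := by
    rcases le_total 0 (u / 2) with h | h
    · rw [abs_of_nonneg h, abs_of_nonneg (Real.sinh_nonneg_iff.mpr h)]
      exact Real.self_le_sinh_iff.mpr h
    · rw [abs_of_nonpos h, abs_of_nonpos (Real.sinh_nonpos_iff.mpr h)]
      have h6 := Real.sinh_le_self_iff.mpr h
      linarith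
  have h7 : (u / 2) ^ 2 ≤ Real.sinh (u / 2) ^ 2 := sq_le_sq.mpr h5
  rw [h1]
  nlinarith

end AuxK1b

/- TARGET, proof in plain words:
h2 u v = sin v / q u v = d/dv log (q u v) for u ≠ 0 (q > 0 there).  |h2| is continuous, 2π-periodic, so
∫_a^{a+π} |h2| ≤ ∫_{-π}^{π} |h2| = 2 ∫_0^π h2 = 2 (log q(u,π) - log q(u,0)) = 2 log ((cosh u + 1)/(cosh u - 1))
= 4 log coth(|u|/2) ≤ 4 log (1 + 2/|u|)  (coth x ≤ 1 + 1/x; or directly: (cosh u + 1)/(cosh u - 1) = 1 + 2/(cosh u - 1)
≤ 1 + 4/u^2 ≤ (1+2/|u|)^2).  If |u| ≥ 1 this is ≤ 4 log 3; if |u| < 1: log(1+2/|u|) ≤ log(3/|u|) = log 3 + |log |u||.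
So C = 4 (1 + log 3) or any larger constant.
-/
theorem t_K1b : ∃ C : ℝ, 1 ≤ C ∧ ∀ u a : ℝ, u ≠ 0 →
    ∫ v in a..(a + Real.pi), |h2 u v| ≤ C * (1 + abs (Real.log (abs u))) := by
  have hl3 : 0 ≤ Real.log 3 := Real.log_nonneg (by norm_num)
  refine ⟨4 * (1 + Real.log 3), by linarith, ?_⟩
  intro u a hu
  have hc := AuxK1b.h2_cont hu
  have hpi := Real.pi_pos
  have hau : 0 < |u| := abs_pos.mpr hu
  have step1 : ∫ v in a..(a + Real.pi), |h2 u v| ≤ ∫ v in a..(a + 2 * Real.pi), |h2 u v| := by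
    rw [← intervalIntegral.integral_add_adjacent_intervals
      (hc.intervalIntegrable a (a + Real.pi)) (hc.intervalIntegrable (a + Real.pi)
        (a + 2 * Real.pi))]
    have h1 : 0 ≤ ∫ v in (a + Real.pi)..(a + 2 * Real.pi), |h2 u v| :=
      intervalIntegral.integral_nonneg (by linarith) (fun v _ => abs_nonneg _)
    linarith
  rw [AuxK1b.int_full hu a] at step1
  have hq0 : 0 < q u 0 := AuxK1b.q_pos hu 0
  have hqp : 0 < q u Real.pi := AuxK1b.q_pos hu Real.pi
  have hq0' : q u 0 = Real.cosh u - 1 := by simp [q]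
  have hqp' : q u Real.pi = Real.cosh u + 1 := by simp [q]
  have hlow := AuxK1b.cosh_lower u
  have hratio : q u Real.pi ≤ (1 + 2 / |u|) ^ 2 * q u 0 := by
    rw [hq0', hqp']
    have h1 : 1 + 4 / u ^ 2 ≤ (1 + 2 / |u|) ^ 2 := by
      have h2 : (1 + 2 / |u|) ^ 2 = 1 + 4 / |u| + 4 / |u| ^ 2 := by
        field_simp
        ring
      rw [h2, sq_abs]
      have h3 : 0 ≤ 4 / |u| := by positivity
      linarith
    have hu2 : 0 < u ^ 2 := by positivity
    have hc1 : 0 ≤ Real.cosh u - 1 := by rw [← hq0']; exact hq0.le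
    have h4 : 2 ≤ 4 / u ^ 2 * (Real.cosh u - 1) := by
      have h5 : 4 / u ^ 2 * (u ^ 2 / 2) = 2 := by
        field_simp
        norm_num
      have h6 : 4 / u ^ 2 * (u ^ 2 / 2) ≤ 4 / u ^ 2 * (Real.cosh u - 1) :=
        mul_le_mul_of_nonneg_left hlow (by positivity)
      linarith
    have h7 : (1 + 4 / u ^ 2) * (Real.cosh u - 1) ≤ (1 + 2 / |u|) ^ 2 * (Real.cosh u - 1) :=
      mul_le_mul_of_nonneg_right h1 hc1
    nlinarith
  have hbase : 0 < 1 + 2 / |u| := by positivity
  have hlog : Real.log (q u Real.pi) - Real.log (q u 0) ≤ 2 * Real.log (1 + 2 / |u|) := by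
    have h1 := Real.log_le_log hqp hratio
    rw [Real.log_mul (by positivity) hq0.ne', Real.log_pow] at h1
    push_cast at h1
    linarith
  have hfin : Real.log (1 + 2 / |u|) ≤ Real.log 3 + abs (Real.log (abs u)) := by
    rcases le_total 1 |u| with h | h
    · have h1 : 1 + 2 / |u| ≤ 3 := by
        have : 2 / |u| ≤ 2 := div_le_self (by norm_num) h
        linarith
      have h2 := Real.log_le_log hbase h1
      have h3 := abs_nonneg (Real.log (abs u))
      linarith
    · have h1 : 1 + 2 / |u| ≤ 3 / |u| := by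
        rw [le_div_iff₀ hau, add_mul, div_mul_cancel₀ _ hau.ne']
        linarith
      have h2 := Real.log_le_log hbase h1
      rw [Real.log_div (by norm_num) hau.ne'] at h2
      have h3 : -Real.log (abs u) ≤ abs (Real.log (abs u)) := neg_le_abs _
      linarith
  have habs := abs_nonneg (Real.log (abs u))
  nlinarith

end Pool.Agent.H682_VS

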