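import Pool.Agent.H682_VS.Stmts

/-! # K1c -/

set_option autoImplicit false

open MeasureTheory Set Filter Topology

namespace Pool.Agent.H682_VS


namespace AuxK1c

theorem q_le (u v : ℝ) : q u v ≤ 2 * Real.exp |u| := by
  unfold q
  have h1 : Real.cosh u ≤ Real.exp |u| := by
    rw [Real.cosh_eq]
    have h1 := Real.exp_le_exp.2 (le_abs_self u)
    have h2 := Real.exp_le_exp.2 (neg_le_abs u)
    linarith
  have h2 : 1 ≤ Real.exp |u| := Real.one_le_exp (abs_nonneg u)
  have h3 := Real.neg_one_le_cos v
  linarith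

theorem le_q (u v : ℝ) : 2 * Real.sin (v / 2) ^ 2 ≤ q u v := by
  unfold q
  have h1 := Real.one_le_cosh u
  have h2 : Real.cos v = 1 - 2 * Real.sin (v / 2) ^ 2 := by
    have := Real.cos_two_mul (v / 2)
    have h3 := Real.sin_sq_add_cos_sq (v / 2)
    rw [show 2 * (v / 2) = v by ring] at this
    linarith
  linarith

theorem bound (u v : ℝ) (h : Real.sin (v / 2) ≠ 0) :
    |Real.log (q u v)| ≤ 2 * Real.log 2 + |u| + 2 * |Real.log (Real.sin (v / 2))| := by
  have hs : 0 < 2 * Real.sin (v / 2) ^ 2 := by positivity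
  have h1 := le_q u v
  have h2 := q_le u v
  have hq : 0 < q u v := lt_of_lt_of_le hs h1
  have h3 := Real.log_le_log hs h1
  have h4 := Real.log_le_log hq h2
  rw [Real.log_mul two_ne_zero (by positivity), Real.log_pow] at h3
  rw [Real.log_mul two_ne_zero (Real.exp_pos _).ne', Real.log_exp] at h4
  push_cast at h3
  have h5 := neg_abs_le (Real.log (Real.sin (v / 2)))
  have h6 : 0 ≤ Real.log 2 := Real.log_nonneg (by norm_num)
  have h7 := abs_nonneg u
  have h8 := abs_nonneg (Real.log (Real.sin (v / 2)))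
  rw [abs_le]
  constructor <;> linarith

theorem ae_ne : ∀ᵐ v : ℝ, Real.sin (v / 2) ≠ 0 := by
  have hc : (Set.range fun n : ℤ => 2 * ((n : ℝ) * Real.pi)).Countable := Set.countable_range _
  filter_upwards [hc.ae_notMem volume] with v hv h0
  apply hv
  obtain ⟨n, hn⟩ := Real.sin_eq_zero_iff.1 h0
  exact ⟨n, by simp only; linarith⟩

theorem ii_sin (a b : ℝ) :
    IntervalIntegrable (fun v => Real.log (Real.sin (v / 2))) volume a b := by
  have h0 : IntervalIntegrable (Real.log ∘ Real.sin) volume (a / 2) (b / 2) :=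
    intervalIntegrable_log_sin
  have h := h0.comp_mul_left (c := 1 / 2)
  have e : ∀ x : ℝ, x / 2 / (1 / 2) = x := fun x => by ring
  have e2 : ∀ x : ℝ, 1 / 2 * x = x / 2 := fun x => by ring
  simp only [e, e2] at h
  exact h

theorem ii_G (u a b : ℝ) : IntervalIntegrable
    (fun v => 2 * Real.log 2 + |u| + 2 * |Real.log (Real.sin (v / 2))|) volume a b :=
  intervalIntegrable_const.add ((ii_sin a b).abs.const_mul 2)

theorem meas_q (u : ℝ) : Measurable fun v => Real.log (q u v) := by
  unfold q
  exact Real.measurable_log.comp (measurable_const.sub Real.measurable_cos)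

theorem ii_q (u a b : ℝ) : IntervalIntegrable (fun v => Real.log (q u v)) volume a b := by
  refine (ii_G u a b).mono_fun' (meas_q u).aestronglyMeasurable ?_
  refine ae_restrict_of_ae ?_
  filter_upwards [ae_ne] with v hv
  rw [Real.norm_eq_abs]
  exact bound u v hv

theorem per : Function.Periodic (fun v => |Real.log (Real.sin (v / 2))|) (2 * Real.pi) := by
  intro v
  simp only
  rw [show (v + 2 * Real.pi) / 2 = v / 2 + Real.pi by ring, Real.sin_add_pi, Real.log_neg_eq_log]

theorem int_le (u a : ℝ) : ∫ v in a..(a + Real.pi), |Real.log (q u v)| ≤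
    Real.pi * (2 * Real.log 2 + |u|) +
      2 * ∫ v in (0:ℝ)..(0 + 2 * Real.pi), |Real.log (Real.sin (v / 2))| := by
  have hpi := Real.pi_pos
  have h1 : ∫ v in a..(a + Real.pi), |Real.log (q u v)| ≤
      ∫ v in a..(a + Real.pi), (2 * Real.log 2 + |u| + 2 * |Real.log (Real.sin (v / 2))|) := by
    refine intervalIntegral.integral_mono_ae (by linarith) (ii_q u a _).abs (ii_G u a _) ?_
    filter_upwards [ae_ne] with v hv
    exact bound u v hv
  rw [intervalIntegral.integral_add intervalIntegrable_const ((ii_sin a _).abs.const_mul 2),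
    intervalIntegral.integral_const, intervalIntegral.integral_const_mul] at h1
  have h2 : ∫ v in a..(a + Real.pi), |Real.log (Real.sin (v / 2))| ≤
      ∫ v in a..(a + 2 * Real.pi), |Real.log (Real.sin (v / 2))| := by
    refine intervalIntegral.integral_mono_interval le_rfl (by linarith) (by linarith) ?_
      (ii_sin a _).abs
    exact Filter.Eventually.of_forall fun v => abs_nonneg _
  rw [per.intervalIntegral_add_eq a 0] at h2
  rw [smul_eq_mul, show a + Real.pi - a = Real.pi by ring] at h1
  linarith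

end AuxK1c

/- TARGET, proof in plain words:
q u v = cosh u - cos v satisfies  1 - cos v ≤ q u v ≤ cosh u + 1 ≤ 2 e^{|u|}, and 1 - cos v = 2 sin^2(v/2).
Hence for v not in 2πZ:  |log q(u,v)| ≤ log 2 + |u| + |log (2 sin^2(v/2))| ≤ 2 log 2 + |u| + 2 |log |sin (v/2)||.
(for all v, if one prefers: at v in 2πZ treat as a null set, or note Real.log 0 = 0.)
Mathlib has interval integrability of log ∘ sin (file Mathlib/Analysis/SpecialFunctions/Integrals/LogTrigonometric.lean,
`intervalIntegrable_log_sin`); v ↦ |log (sin (v/2))| is 2π-periodic (Real.log ignores signs) so its integral over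
[a, a+π] is at most its integral over [a, a+2π], which is a constant independent of a.
The fourth part follows by domination (measurability is clear).
-/
theorem t_K1c : ∃ C : ℝ, 1 ≤ C ∧
    (∀ u a : ℝ, ∫ v in a..(a + Real.pi), |Real.log (q u v)| ≤ C * (1 + |u|)) ∧
    (∀ u a b : ℝ, IntervalIntegrable (fun v => Real.log (q u v)) volume a b) := by
  have hpi := Real.pi_pos
  have h2 : 0 ≤ Real.log 2 := Real.log_nonneg (by norm_num)
  have hK : 0 ≤ ∫ v in (0:ℝ)..(0 + 2 * Real.pi), |Real.log (Real.sin (v / 2))| :=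
    intervalIntegral.integral_nonneg (by linarith) fun v _ => abs_nonneg _
  refine ⟨Real.pi * (2 * Real.log 2 + 1) +
    2 * (∫ v in (0:ℝ)..(0 + 2 * Real.pi), |Real.log (Real.sin (v / 2))|) + 1, ?_, ?_, ?_⟩
  · have : 0 ≤ Real.pi * (2 * Real.log 2 + 1) := by positivity
    linarith
  · intro u a
    have h := AuxK1c.int_le u a
    have hu := abs_nonneg u
    have e1 : 0 ≤ Real.pi * (2 * Real.log 2) * |u| := by positivity
    have e2 : 0 ≤ (∫ v in (0:ℝ)..(0 + 2 * Real.pi), |Real.log (Real.sin (v / 2))|) * |u| := by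
      positivity
    nlinarith
  · exact fun u a b => AuxK1c.ii_q u a b

end Pool.Agent.H682_VS
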