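import Pool.Agent.H682_VS.T_K1a
import Pool.Agent.H682_VS.T_K1b
import Pool.Agent.H682_VS.T_K1c

/-! # K1 -/

set_option autoImplicit false

open MeasureTheory Set Filter Topology

namespace Pool.Agent.H682_VS

theorem t_K1 : S_K1 := by
  obtain ⟨Ca, a1, a2⟩ := t_K1a
  obtain ⟨Cb, b1, b2⟩ := t_K1b
  obtain ⟨Cc, c1, c2, c3⟩ := t_K1c
  have la : Ca ≤ Ca + Cb + Cc := by linarith
  have lb : Cb ≤ Ca + Cb + Cc := by linarith
  have lc : Cc ≤ Ca + Cb + Cc := by linarith
  refine ⟨Ca + Cb + Cc, by linarith, fun u a hu => (a2 u a hu).trans la, fun u a hu => ?_,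
    fun u a => ?_, c3⟩
  · refine (b2 u a hu).trans (mul_le_mul_of_nonneg_right lb ?_)
    positivity
  · refine (c2 u a).trans (mul_le_mul_of_nonneg_right lc ?_)
    positivity

end Pool.Agent.H682_VS
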