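import Pool.Agent.H682_VS.K1

/-! # symmetries and the bound of kap -/

set_option autoImplicit false

open MeasureTheory Set Filter Topology

namespace Pool.Agent.H682_VS

lemma q_neg_left (u v : ℝ) : q (-u) v = q u v := by simp [q]
lemma q_neg_right (u v : ℝ) : q u (-v) = q u v := by simp [q]
lemma h1_neg_left (u v : ℝ) : h1 (-u) v = -h1 u v := by simp [h1, q, neg_div]
lemma h1_neg_right (u v : ℝ) : h1 u (-v) = h1 u v := by simp [h1, q]
lemma Am_zero (m : ℝ) : Am m 0 = 0 := by simp [Am]
lemma om_zero (m : ℝ) : om m 0 = 1 := by simp [om]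

lemma q_add_two_pi (u v : ℝ) : q u (v + 2 * Real.pi) = q u v := by simp [q]
lemma q_sub_two_pi (u v : ℝ) : q u (v - 2 * Real.pi) = q u v := by simp [q]

lemma ker_zero (m s' x' : ℝ) : ker m 0 0 s' x' = 0 := by
  unfold ker
  rw [zero_sub, zero_sub, zero_add, q_neg_left, q_neg_right, q_neg_left, Am_zero]
  ring

lemma ker_even (m s x s' x' : ℝ) : ker m s (-x) s' x' = ker m s x s' x' := by
  unfold ker
  have e1 : -x - x' = -(x + x') := by ring
  have e2 : -x + x' = -(x - x') := by ring
  rw [e1, e2, q_neg_right, q_neg_right]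
  ring

lemma ker_periodic (m s x s' x' : ℝ) : ker m s (x + 2 * Real.pi) s' x' = ker m s x s' x' := by
  unfold ker
  have e1 : x + 2 * Real.pi - x' = (x - x') + 2 * Real.pi := by ring
  have e2 : x + 2 * Real.pi + x' = (x + x') + 2 * Real.pi := by ring
  rw [e1, e2, q_add_two_pi, q_add_two_pi]

theorem t_sym : S_sym := by
  intro m H σ hm
  refine ⟨?_, ?_, ?_, ?_⟩
  · unfold Lop
    simp [ker_zero]
  · unfold Ls
    have : ∀ s' x' : ℝ, h1 (0 - s') (0 - x') + h1 (0 - s') (0 + x')
        + 2 * om m 0 * (1 + h1 s' x') - 2 = 0 := by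
      intro s' x'
      rw [zero_sub, zero_sub, zero_add, h1_neg_left, h1_neg_right, h1_neg_left, om_zero]
      ring
    simp only [this, mul_zero, intervalIntegral.integral_zero]
  · intro s x
    unfold Lop
    simp only [ker_even]
  · intro s x
    unfold Lop
    simp only [ker_periodic]

lemma om_pos (m s : ℝ) : 0 < om m s := Real.exp_pos _

lemma om_le_one {m s : ℝ} (hm : 1 ≤ m) (hs : 0 ≤ s) : om m s ≤ 1 := by
  unfold om
  rw [Real.exp_le_one_iff]
  have : 0 ≤ 2 * s / m := by positivity
  linarith

theorem t_kap : S_kap := by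
  obtain ⟨C, hC, k1, -, -, -⟩ := t_K1
  refine ⟨2 * Real.pi + 2 * C, ?_⟩
  intro m H σ hm hH hmeas hσ
  unfold kap
  have key : ∀ s' ∈ Ioc (0:ℝ) H, ‖om m s' * ∫ x' in (0:ℝ)..Real.pi, σ s' x' * (2 * (1 + h1 s' x'))‖
      ≤ 2 * Real.pi + 2 * C := by
    intro s' hs'
    have hs0 : s' ≠ 0 := hs'.1.ne'
    have hh : Continuous (fun x' => |h1 s' x'|) := by
      have hq : ∀ v, q s' v ≠ 0 := by
        intro v
        have := Real.one_lt_cosh.2 hs0
        have := Real.cos_le_one v
        unfold q
        linarith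
      unfold h1
      have hqc : Continuous (fun v => q s' v) := by unfold q; fun_prop
      exact (continuous_const.div hqc hq).abs
    have h2 : ‖∫ x' in (0:ℝ)..Real.pi, σ s' x' * (2 * (1 + h1 s' x'))‖
        ≤ ∫ x' in (0:ℝ)..Real.pi, 2 * (1 + |h1 s' x'|) := by
      apply intervalIntegral.norm_integral_le_of_norm_le Real.pi_pos.le
      · filter_upwards with x' _
        have h3 := hσ s' x'
        rw [norm_mul, Real.norm_eq_abs, Real.norm_eq_abs, abs_of_nonneg h3.1]
        have h4 : |2 * (1 + h1 s' x')| ≤ 2 * (1 + |h1 s' x'|) := by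
          rw [abs_mul, abs_two]
          have := abs_add_le 1 (h1 s' x')
          rw [abs_one] at this
          linarith
        have h5 : 0 ≤ |2 * (1 + h1 s' x')| := abs_nonneg _
        nlinarith [h3.1, h3.2]
      · exact (continuous_const.mul (continuous_const.add hh)).intervalIntegrable _ _
    have h6 : ∫ x' in (0:ℝ)..Real.pi, 2 * (1 + |h1 s' x'|) ≤ 2 * Real.pi + 2 * C := by
      rw [intervalIntegral.integral_const_mul, intervalIntegral.integral_add
        (continuous_const.intervalIntegrable _ _) (hh.intervalIntegrable _ _),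
        intervalIntegral.integral_const]
      have := k1 s' 0 hs0
      rw [zero_add] at this
      simp only [sub_zero, smul_eq_mul, mul_one]
      linarith
    have ho := om_pos m s'
    have ho1 := om_le_one hm hs'.1.le
    rw [norm_mul, Real.norm_eq_abs, abs_of_pos ho]
    calc om m s' * _ ≤ 1 * (2 * Real.pi + 2 * C) := by
          apply mul_le_mul ho1 (h2.trans h6) (norm_nonneg _) zero_le_one
      _ = _ := one_mul _
  have h := intervalIntegral.norm_integral_le_of_norm_le_const (a := 0) (b := H)
    (C := 2 * Real.pi + 2 * C) (by rw [uIoc_of_le hH.le]; exact key)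
  rw [sub_zero, abs_of_pos hH] at h
  exact (le_abs_self _).trans h

end Pool.Agent.H682_VS
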