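import Pool.Agent.H682_VS.Stmts
import Pool.Agent.H682_VS.K1

/-! # Ls -/

set_option autoImplicit false

open MeasureTheory Set Filter Topology

namespace Pool.Agent.H682_VS



namespace AuxLs

/-- the derivative of the kernel -/
noncomputable def dk (m y x s' x' : ℝ) : ℝ :=
  h1 (y - s') (x - x') + h1 (y - s') (x + x') + 2 * om m y * (1 + h1 s' x') - 2

theorem cosh_gt {u : ℝ} (hu : u ≠ 0) : 1 < Real.cosh u := Real.one_lt_cosh.2 hu

theorem q_pos {u : ℝ} (hu : u ≠ 0) (v : ℝ) : 0 < q u v := by
  unfold q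
  have h1 := cosh_gt hu
  have h2 := Real.cos_le_one v
  linarith

theorem hasDeriv_logq {u : ℝ} (hu : u ≠ 0) (v : ℝ) :
    HasDerivAt (fun u => Real.log (q u v)) (h1 u v) u := by
  have h2 : HasDerivAt (fun u => q u v) (Real.sinh u) u := by
    unfold q
    exact (Real.hasDerivAt_cosh u).sub_const _
  exact h2.log (q_pos hu v).ne'

theorem hasDeriv_Am {m : ℝ} (hm : m ≠ 0) (y : ℝ) : HasDerivAt (Am m) (om m y) y := by
  unfold Am om
  have h2 : HasDerivAt (fun s : ℝ => -(2 * s / m)) (-(2 / m)) y := by
    have h3 : HasDerivAt (fun s : ℝ => 2 * s / m) (2 * 1 / m) y :=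
      ((hasDerivAt_id y).const_mul 2).div_const m
    rw [mul_one] at h3
    exact h3.neg
  have h4 := ((h2.exp).const_sub 1).const_mul (m / 2)
  have e : m / 2 * -(Real.exp (-(2 * y / m)) * -(2 / m)) = Real.exp (-(2 * y / m)) := by
    field_simp
  rw [e] at h4
  exact h4

theorem hasDeriv_ker {m : ℝ} (hm : m ≠ 0) (x x' : ℝ) {y s' : ℝ} (hy : y ≠ s') :
    HasDerivAt (fun y => ker m y x s' x') (dk m y x s' x') y := by
  have hy' : y - s' ≠ 0 := sub_ne_zero.2 hy
  have e1 : HasDerivAt (fun y => Real.log (q (y - s') (x - x'))) (h1 (y - s') (x - x')) y := by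
    have := (hasDeriv_logq hy' (x - x')).comp y ((hasDerivAt_id y).sub_const s')
    rw [mul_one] at this
    exact this
  have e2 : HasDerivAt (fun y => Real.log (q (y - s') (x + x'))) (h1 (y - s') (x + x')) y := by
    have := (hasDeriv_logq hy' (x + x')).comp y ((hasDerivAt_id y).sub_const s')
    rw [mul_one] at this
    exact this
  have e3 : HasDerivAt (fun y => 2 * (Am m y * (1 + h1 s' x') - y))
      (2 * (om m y * (1 + h1 s' x') - 1)) y :=
    (((hasDeriv_Am hm y).mul_const _).sub (hasDerivAt_id y)).const_mul 2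
  have e4 := ((e1.add e2).sub_const (2 * Real.log (q s' x'))).add e3
  have e5 : h1 (y - s') (x - x') + h1 (y - s') (x + x') + 2 * (om m y * (1 + h1 s' x') - 1) =
      dk m y x s' x' := by
    unfold dk
    ring
  rw [e5] at e4
  exact e4

theorem h1_bound {δ R u v : ℝ} (hδ : 0 < δ) (hu : δ ≤ |u|) (hR : |u| ≤ R) :
    |h1 u v| ≤ Real.sinh R / (Real.cosh δ - 1) := by
  have hu0 : u ≠ 0 := by
    rintro rfl
    rw [abs_zero] at hu
    linarith
  have hc : 1 < Real.cosh δ := cosh_gt hδ.ne'
  unfold h1
  rw [abs_div, abs_of_pos (q_pos hu0 v)]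
  have e1 : |Real.sinh u| ≤ Real.sinh R := by
    rw [Real.abs_sinh]
    exact Real.sinh_le_sinh.2 hR
  have e2 : Real.cosh δ - 1 ≤ q u v := by
    unfold q
    have h3 : Real.cosh δ ≤ Real.cosh u := by
      rw [Real.cosh_le_cosh, abs_of_pos hδ]
      exact hu
    have := Real.cos_le_one v
    linarith
  exact div_le_div₀ ((abs_nonneg _).trans e1) e1 (by linarith) e2

theorem meas_q {α : Type*} [MeasurableSpace α] {f g : α → ℝ} (hf : Measurable f)
    (hg : Measurable g) : Measurable fun a => q (f a) (g a) := by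
  unfold q
  fun_prop

theorem meas_h1 {α : Type*} [MeasurableSpace α] {f g : α → ℝ} (hf : Measurable f)
    (hg : Measurable g) : Measurable fun a => h1 (f a) (g a) := by
  unfold h1
  exact (by fun_prop : Measurable fun a => Real.sinh (f a)).div (meas_q hf hg)

theorem meas_ker {α : Type*} [MeasurableSpace α] {f g : α → ℝ} (m y x : ℝ) (hf : Measurable f)
    (hg : Measurable g) : Measurable fun a => ker m y x (f a) (g a) := by
  unfold ker
  have e1 := (meas_q (hf.const_sub y) (hg.const_sub x)).log
  have e2 := (meas_q (hf.const_sub y) (hg.const_add x)).log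
  have e3 := (meas_q hf hg).log
  have e4 := meas_h1 hf hg
  fun_prop

theorem meas_dk {α : Type*} [MeasurableSpace α] {f g : α → ℝ} (m y x : ℝ) (hf : Measurable f)
    (hg : Measurable g) : Measurable fun a => dk m y x (f a) (g a) := by
  unfold dk
  have e1 := meas_h1 (hf.const_sub y) (hg.const_sub x)
  have e2 := meas_h1 (hf.const_sub y) (hg.const_add x)
  have e4 := meas_h1 hf hg
  fun_prop

theorem int_shift {f : ℝ → ℝ} (hf : ∀ a b, IntervalIntegrable f volume a b) (x : ℝ) :
    IntervalIntegrable (fun x' => f (x - x')) volume 0 Real.pi ∧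
    IntervalIntegrable (fun x' => f (x + x')) volume 0 Real.pi := by
  constructor
  · have := (hf (x - 0) (x - Real.pi)).comp_sub_left x
    simpa using this
  · have := (hf (x + 0) (x + Real.pi)).comp_add_left x
    simpa using this

theorem le_shift {f : ℝ → ℝ} {K : ℝ} (hf : ∀ a, ∫ v in a..(a + Real.pi), f v ≤ K) (x : ℝ) :
    ∫ x' in (0:ℝ)..Real.pi, f (x - x') ≤ K ∧ ∫ x' in (0:ℝ)..Real.pi, f (x + x') ≤ K := by
  constructor
  · rw [intervalIntegral.integral_comp_sub_left]
    have := hf (x - Real.pi)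
    simpa using this
  · rw [intervalIntegral.integral_comp_add_left]
    have := hf x
    simpa using this

theorem cont_h1 {u : ℝ} (hu : u ≠ 0) : Continuous fun v => h1 u v := by
  unfold h1
  refine Continuous.div continuous_const ?_ fun v => (q_pos hu v).ne'
  unfold q
  fun_prop

theorem abs_int_le {B : ℝ} {w g : ℝ → ℝ} (hw : ∀ t, |w t| ≤ B)
    (hg : IntervalIntegrable g volume 0 Real.pi) :
    |∫ t in (0:ℝ)..Real.pi, w t * g t| ≤ B * ∫ t in (0:ℝ)..Real.pi, |g t| := by
  rw [← intervalIntegral.integral_const_mul]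
  exact intervalIntegral.norm_integral_le_of_norm_le (μ := volume) (f := fun t => w t * g t)
    (g := fun t => B * |g t|) Real.pi_pos.le (Eventually.of_forall fun t _ => by
      rw [Real.norm_eq_abs, abs_mul]
      exact mul_le_mul_of_nonneg_right (hw t) (abs_nonneg _)) (hg.abs.const_mul B)

theorem int_mul {B : ℝ} {w g : ℝ → ℝ} (hw : ∀ t, |w t| ≤ B) (hwm : Measurable w)
    (hg : IntervalIntegrable g volume 0 Real.pi) :
    IntervalIntegrable (fun t => w t * g t) volume 0 Real.pi := by
  have h1 := hg.abs.const_mul B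
  have hm : AEStronglyMeasurable g (volume.restrict (uIoc 0 Real.pi)) := by
    rw [uIoc_of_le Real.pi_pos.le]
    exact hg.aestronglyMeasurable
  refine h1.mono_fun (hwm.aestronglyMeasurable.mul hm) ?_
  refine Eventually.of_forall fun t => ?_
  have hB : 0 ≤ B := (abs_nonneg _).trans (hw t)
  show ‖w t * g t‖ ≤ ‖B * |g t|‖
  rw [norm_mul, norm_mul, Real.norm_eq_abs, Real.norm_eq_abs, Real.norm_eq_abs,
    Real.norm_eq_abs, abs_abs, abs_of_nonneg hB]
  exact mul_le_mul_of_nonneg_right (hw t) (abs_nonneg _)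

end AuxLs


namespace AuxLs

theorem int_logq (hK : S_K1) (u x : ℝ) :
    IntervalIntegrable (fun x' => Real.log (q u (x - x'))) volume 0 Real.pi ∧
    IntervalIntegrable (fun x' => Real.log (q u (x + x'))) volume 0 Real.pi := by
  obtain ⟨C, hC, _, _, _, h4⟩ := hK
  exact int_shift (f := fun v => Real.log (q u v)) (fun a b => h4 u a b) x

theorem int_h1 {u : ℝ} (hu : u ≠ 0) (x : ℝ) :
    IntervalIntegrable (fun x' => h1 u (x - x')) volume 0 Real.pi ∧
    IntervalIntegrable (fun x' => h1 u (x + x')) volume 0 Real.pi :=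
  int_shift (f := fun v => h1 u v) (fun a b => (cont_h1 hu).intervalIntegrable a b) x

theorem int_ker (hK : S_K1) (m y x : ℝ) {s' : ℝ} (hs' : s' ≠ 0) :
    IntervalIntegrable (fun x' => ker m y x s' x') volume 0 Real.pi := by
  unfold ker
  have e1 := (int_logq hK (y - s') x).1
  have e2 := (int_logq hK (y - s') x).2
  have e3 : IntervalIntegrable (fun x' => Real.log (q s' x')) volume 0 Real.pi := by
    obtain ⟨C, hC, _, _, _, h4⟩ := hK
    exact h4 s' 0 Real.pi
  have e4 : IntervalIntegrable (fun x' => h1 s' x') volume 0 Real.pi :=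
    (cont_h1 hs').intervalIntegrable _ _
  have e5 : IntervalIntegrable (fun x' => 2 * (Am m y * (1 + h1 s' x') - y)) volume 0 Real.pi :=
    ((((intervalIntegrable_const).add e4).const_mul (Am m y)).sub
      intervalIntegrable_const).const_mul 2
  exact ((e1.add e2).sub (e3.const_mul 2)).add e5

theorem int_dk (m x : ℝ) {y s' : ℝ} (hs' : s' ≠ 0) (hy : y ≠ s') :
    IntervalIntegrable (fun x' => dk m y x s' x') volume 0 Real.pi := by
  unfold dk
  have e1 := (int_h1 (sub_ne_zero.2 hy) x).1
  have e2 := (int_h1 (sub_ne_zero.2 hy) x).2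
  have e4 : IntervalIntegrable (fun x' => h1 s' x') volume 0 Real.pi :=
    (cont_h1 hs').intervalIntegrable _ _
  exact ((e1.add e2).add (((intervalIntegrable_const).add e4).const_mul (2 * om m y))).sub
    intervalIntegrable_const

/-- integrated bounds -/
theorem bd_ker (hK : S_K1) : ∃ C : ℝ, 1 ≤ C ∧ ∀ (m y x s' : ℝ), s' ≠ 0 →
    ∫ x' in (0:ℝ)..Real.pi, |ker m y x s' x'| ≤
      2 * (C * (1 + |y - s'|)) + 2 * (C * (1 + |s'|)) +
        2 * (|Am m y| * (Real.pi + C) + |y| * Real.pi) := by
  have hK' := hK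
  obtain ⟨C, hC, k1, _, k3, k4⟩ := hK
  refine ⟨C, hC, fun m y x s' hs' => ?_⟩
  have i1 := (int_logq hK' (y - s') x).1.abs
  have i2 := (int_logq hK' (y - s') x).2.abs
  have i3 : IntervalIntegrable (fun x' => |Real.log (q s' x')|) volume 0 Real.pi :=
    (k4 s' 0 Real.pi).abs
  have i4 : IntervalIntegrable (fun x' => |h1 s' x'|) volume 0 Real.pi :=
    ((cont_h1 hs').intervalIntegrable _ _).abs
  have i5 : IntervalIntegrable (fun x' => 2 * (|Am m y| * (1 + |h1 s' x'|) + |y|)) volume 0
      Real.pi :=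
    ((((intervalIntegrable_const).add i4).const_mul (|Am m y|)).add
      intervalIntegrable_const).const_mul 2
  have b1 := (le_shift (f := fun v => |Real.log (q (y - s') v)|)
    (K := C * (1 + |y - s'|)) (fun a => k3 (y - s') a) x).1
  have b2 := (le_shift (f := fun v => |Real.log (q (y - s') v)|)
    (K := C * (1 + |y - s'|)) (fun a => k3 (y - s') a) x).2
  have b3 : ∫ x' in (0:ℝ)..Real.pi, |Real.log (q s' x')| ≤ C * (1 + |s'|) := by
    have := k3 s' 0
    rwa [zero_add] at this
  have b4 : ∫ x' in (0:ℝ)..Real.pi, |h1 s' x'| ≤ C := by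
    have := k1 s' 0 hs'
    rwa [zero_add] at this
  have b5 : ∫ x' in (0:ℝ)..Real.pi, 2 * (|Am m y| * (1 + |h1 s' x'|) + |y|) ≤
      2 * (|Am m y| * (Real.pi + C) + |y| * Real.pi) := by
    rw [intervalIntegral.integral_const_mul, intervalIntegral.integral_add
      (((intervalIntegrable_const).add i4).const_mul (|Am m y|)) intervalIntegrable_const,
      intervalIntegral.integral_const_mul, intervalIntegral.integral_add intervalIntegrable_const
      i4, intervalIntegral.integral_const, intervalIntegral.integral_const]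
    simp only [smul_eq_mul, sub_zero, mul_one]
    have h0 := abs_nonneg (Am m y)
    have h2 := mul_le_mul_of_nonneg_left b4 h0
    nlinarith
  calc ∫ x' in (0:ℝ)..Real.pi, |ker m y x s' x'|
      ≤ ∫ x' in (0:ℝ)..Real.pi, (((|Real.log (q (y - s') (x - x'))| +
          |Real.log (q (y - s') (x + x'))|) + 2 * |Real.log (q s' x')|) +
          2 * (|Am m y| * (1 + |h1 s' x'|) + |y|)) := by
        refine intervalIntegral.integral_mono_on Real.pi_pos.le (int_ker hK' m y x hs').abs
          (((i1.add i2).add (i3.const_mul 2)).add i5) fun x' _ => ?_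
        unfold ker
        have a1 := abs_add_le (Real.log (q (y - s') (x - x')) + Real.log (q (y - s') (x + x')) -
          2 * Real.log (q s' x')) (2 * (Am m y * (1 + h1 s' x') - y))
        have a2 := abs_sub (Real.log (q (y - s') (x - x')) + Real.log (q (y - s') (x + x')))
          (2 * Real.log (q s' x'))
        have a3 := abs_add_le (Real.log (q (y - s') (x - x'))) (Real.log (q (y - s') (x + x')))
        have a4 : |2 * Real.log (q s' x')| = 2 * |Real.log (q s' x')| := by
          rw [abs_mul, abs_two]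
        have a5 : |2 * (Am m y * (1 + h1 s' x') - y)| ≤
            2 * (|Am m y| * (1 + |h1 s' x'|) + |y|) := by
          rw [abs_mul, abs_two]
          refine mul_le_mul_of_nonneg_left ?_ zero_le_two
          refine (abs_sub _ _).trans (add_le_add ?_ le_rfl)
          rw [abs_mul]
          refine mul_le_mul_of_nonneg_left ?_ (abs_nonneg _)
          refine (abs_add_le _ _).trans ?_
          rw [abs_one]
        linarith
    _ = (((∫ x' in (0:ℝ)..Real.pi, |Real.log (q (y - s') (x - x'))|) +
          ∫ x' in (0:ℝ)..Real.pi, |Real.log (q (y - s') (x + x'))|) +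
          2 * ∫ x' in (0:ℝ)..Real.pi, |Real.log (q s' x')|) +
          ∫ x' in (0:ℝ)..Real.pi, 2 * (|Am m y| * (1 + |h1 s' x'|) + |y|) := by
        rw [intervalIntegral.integral_add ((i1.add i2).add (i3.const_mul 2)) i5,
          intervalIntegral.integral_add (i1.add i2) (i3.const_mul 2),
          intervalIntegral.integral_add i1 i2, intervalIntegral.integral_const_mul]
    _ ≤ _ := by linarith

theorem bd_dk (hK : S_K1) : ∃ C : ℝ, 1 ≤ C ∧ ∀ (m y x s' : ℝ), s' ≠ 0 → y ≠ s' →
    ∫ x' in (0:ℝ)..Real.pi, |dk m y x s' x'| ≤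
      2 * C + 2 * om m y * (Real.pi + C) + 2 * Real.pi := by
  obtain ⟨C, hC, k1, _, k3, k4⟩ := hK
  refine ⟨C, hC, fun m y x s' hs' hy => ?_⟩
  have hy' : y - s' ≠ 0 := sub_ne_zero.2 hy
  have hom : 0 ≤ om m y := (Real.exp_pos _).le
  have i1 := (int_h1 hy' x).1.abs
  have i2 := (int_h1 hy' x).2.abs
  have i4 : IntervalIntegrable (fun x' => |h1 s' x'|) volume 0 Real.pi :=
    ((cont_h1 hs').intervalIntegrable _ _).abs
  have i5 : IntervalIntegrable (fun x' => 2 * om m y * (1 + |h1 s' x'|)) volume 0 Real.pi :=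
    ((intervalIntegrable_const).add i4).const_mul (2 * om m y)
  have i6 : IntervalIntegrable (fun _ : ℝ => (2 : ℝ)) volume 0 Real.pi := intervalIntegrable_const
  have b1 := (le_shift (f := fun v => |h1 (y - s') v|) (K := C) (fun a => k1 (y - s') a hy') x).1
  have b2 := (le_shift (f := fun v => |h1 (y - s') v|) (K := C) (fun a => k1 (y - s') a hy') x).2
  have b4 : ∫ x' in (0:ℝ)..Real.pi, |h1 s' x'| ≤ C := by
    have := k1 s' 0 hs'
    rwa [zero_add] at this
  have b5 : ∫ x' in (0:ℝ)..Real.pi, 2 * om m y * (1 + |h1 s' x'|) ≤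
      2 * om m y * (Real.pi + C) := by
    rw [intervalIntegral.integral_const_mul, intervalIntegral.integral_add intervalIntegrable_const
      i4, intervalIntegral.integral_const]
    simp only [smul_eq_mul, sub_zero, mul_one]
    refine mul_le_mul_of_nonneg_left ?_ (by positivity)
    linarith
  calc ∫ x' in (0:ℝ)..Real.pi, |dk m y x s' x'|
      ≤ ∫ x' in (0:ℝ)..Real.pi, (((|h1 (y - s') (x - x')| + |h1 (y - s') (x + x')|) +
          2 * om m y * (1 + |h1 s' x'|)) + 2) := by
        refine intervalIntegral.integral_mono_on Real.pi_pos.le (int_dk m x hs' hy).abs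
          (((i1.add i2).add i5).add i6) fun x' _ => ?_
        unfold dk
        have a1 := abs_sub (h1 (y - s') (x - x') + h1 (y - s') (x + x') +
          2 * om m y * (1 + h1 s' x')) 2
        have a2 := abs_add_le (h1 (y - s') (x - x') + h1 (y - s') (x + x'))
          (2 * om m y * (1 + h1 s' x'))
        have a3 := abs_add_le (h1 (y - s') (x - x')) (h1 (y - s') (x + x'))
        have a5 : |2 * om m y * (1 + h1 s' x')| ≤ 2 * om m y * (1 + |h1 s' x'|) := by
          rw [abs_mul, abs_of_nonneg (show 0 ≤ 2 * om m y by positivity)]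
          refine mul_le_mul_of_nonneg_left ?_ (by positivity)
          refine (abs_add_le _ _).trans ?_
          rw [abs_one]
        rw [abs_two] at a1
        linarith
    _ = (((∫ x' in (0:ℝ)..Real.pi, |h1 (y - s') (x - x')|) +
          ∫ x' in (0:ℝ)..Real.pi, |h1 (y - s') (x + x')|) +
          ∫ x' in (0:ℝ)..Real.pi, 2 * om m y * (1 + |h1 s' x'|)) +
          ∫ x' in (0:ℝ)..Real.pi, (2 : ℝ) := by
        rw [intervalIntegral.integral_add ((i1.add i2).add i5) i6,
          intervalIntegral.integral_add (i1.add i2) i5,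
          intervalIntegral.integral_add i1 i2]
    _ ≤ _ := by
        rw [intervalIntegral.integral_const]
        simp only [smul_eq_mul, sub_zero]
        linarith

theorem mvt0 {f f' : ℝ → ℝ} {a b M : ℝ} (hab : a ≤ b) (hc : ContinuousOn f (Icc a b))
    (hd : ∀ y ∈ Ioo a b, HasDerivAt f (f' y) y) (hM : ∀ y ∈ Ioo a b, |f' y| ≤ M) :
    |f b - f a| ≤ M * (b - a) := by
  rcases hab.eq_or_lt with rfl | h
  · simp
  · obtain ⟨c, hc', he⟩ := exists_hasDerivAt_eq_slope f f' h hc hd
    have h2 := hM c hc'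
    have h3 : f b - f a = f' c * (b - a) := by
      rw [he]
      field_simp [(sub_pos.2 h).ne']
    rw [h3, abs_mul, abs_of_pos (sub_pos.2 h)]
    exact mul_le_mul_of_nonneg_right h2 (sub_pos.2 h).le

theorem mvt1 {f f' : ℝ → ℝ} {a b c M : ℝ} (hab : a ≤ b) (hc : ContinuousOn f (Icc a b))
    (hd : ∀ y ∈ Ioo a b, y ≠ c → HasDerivAt f (f' y) y)
    (hM : ∀ y ∈ Ioo a b, y ≠ c → |f' y| ≤ M) :
    |f b - f a| ≤ M * (b - a) := by
  by_cases h : c ∈ Ioo a b
  · have e1 := mvt0 (f := f) (f' := f') (M := M) h.1.le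
      (hc.mono (Icc_subset_Icc le_rfl h.2.le))
      (fun y hy => hd y ⟨hy.1, hy.2.trans h.2⟩ hy.2.ne)
      (fun y hy => hM y ⟨hy.1, hy.2.trans h.2⟩ hy.2.ne)
    have e2 := mvt0 (f := f) (f' := f') (M := M) h.2.le
      (hc.mono (Icc_subset_Icc h.1.le le_rfl))
      (fun y hy => hd y ⟨h.1.trans hy.1, hy.2⟩ hy.1.ne')
      (fun y hy => hM y ⟨h.1.trans hy.1, hy.2⟩ hy.1.ne')
    have e3 : f b - f a = (f b - f c) + (f c - f a) := by ring
    rw [e3]
    refine (abs_add_le _ _).trans ?_
    linarith
  · exact mvt0 hab hc (fun y hy => hd y hy fun e => h (e ▸ hy))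
      (fun y hy => hM y hy fun e => h (e ▸ hy))

end AuxLs


namespace AuxLs

theorem hasDeriv_inner (hK : S_K1) {m : ℝ} (hm : m ≠ 0) {B : ℝ} {w : ℝ → ℝ}
    (hw : ∀ t, |w t| ≤ B) (hwm : Measurable w) (x : ℝ) {y s' : ℝ} (hs' : s' ≠ 0) (hy : y ≠ s') :
    HasDerivAt (fun y => ∫ x' in (0:ℝ)..Real.pi, w x' * ker m y x s' x')
      (∫ x' in (0:ℝ)..Real.pi, w x' * dk m y x s' x') y := by
  have hB : 0 ≤ B := (abs_nonneg _).trans (hw 0)
  have hy' : 0 < |y - s'| := abs_pos.2 (sub_ne_zero.2 hy)
  have hs0 : 0 < |s'| := abs_pos.2 hs'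
  set δ : ℝ := |y - s'| / 2 with hδ
  have hδ0 : 0 < δ := by positivity
  set K1 : ℝ := Real.sinh (|y - s'| + δ) / (Real.cosh δ - 1) with hK1
  set K2 : ℝ := Real.sinh |s'| / (Real.cosh |s'| - 1) with hK2
  have hcO : ContinuousOn (fun z => om m z) (Icc (y - δ) (y + δ)) := by
    unfold om
    fun_prop
  obtain ⟨W, hW⟩ := (isCompact_Icc (a := y - δ) (b := y + δ)).exists_bound_of_continuousOn hcO
  have hball : ∀ z ∈ Metric.ball y δ, δ ≤ |z - s'| ∧ |z - s'| ≤ |y - s'| + δ ∧
      z ∈ Icc (y - δ) (y + δ) := by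
    intro z hz
    rw [Metric.mem_ball, Real.dist_eq] at hz
    have e1 := abs_sub_abs_le_abs_sub (y - s') (z - s')
    have e2 := abs_sub_abs_le_abs_sub (z - s') (y - s')
    have e3 : (y - s') - (z - s') = -(z - y) := by ring
    have e4 : (z - s') - (y - s') = z - y := by ring
    rw [e3, abs_neg] at e1
    rw [e4] at e2
    have e5 := abs_lt.1 hz
    refine ⟨by linarith, by linarith, by constructor <;> linarith⟩
  have hws : ∀ z ∈ Metric.ball y δ, ∀ x' : ℝ, ‖w x' * dk m z x s' x'‖ ≤
      B * (K1 + K1 + 2 * W * (1 + K2) + 2) := by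
    intro z hz x'
    obtain ⟨h2, h3, h4⟩ := hball z hz
    have b1 := h1_bound (v := x - x') hδ0 h2 h3
    have b2 := h1_bound (v := x + x') hδ0 h2 h3
    have b3 := h1_bound (v := x') hs0 le_rfl (le_refl |s'|)
    have b4 := hW z h4
    rw [Real.norm_eq_abs] at b4
    have b5 : |2 * om m z * (1 + h1 s' x')| ≤ 2 * W * (1 + K2) := by
      rw [abs_mul, abs_mul, abs_two]
      have b6 : |1 + h1 s' x'| ≤ 1 + K2 := by
        refine (abs_add_le _ _).trans ?_
        rw [abs_one]
        linarith
      have := abs_nonneg (om m z)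
      exact mul_le_mul (by linarith) b6 (abs_nonneg _) (by linarith)
    rw [norm_mul, Real.norm_eq_abs, Real.norm_eq_abs]
    refine mul_le_mul (hw x') ?_ (abs_nonneg _) hB
    unfold dk
    have a1 := abs_sub (h1 (z - s') (x - x') + h1 (z - s') (x + x') +
      2 * om m z * (1 + h1 s' x')) 2
    have a2 := abs_add_le (h1 (z - s') (x - x') + h1 (z - s') (x + x'))
      (2 * om m z * (1 + h1 s' x'))
    have a3 := abs_add_le (h1 (z - s') (x - x')) (h1 (z - s') (x + x'))
    rw [abs_two] at a1
    linarith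
  have hmk : ∀ z : ℝ, AEStronglyMeasurable (fun x' => w x' * ker m z x s' x')
      (volume.restrict (uIoc 0 Real.pi)) := fun z =>
    (hwm.mul (meas_ker m z x measurable_const measurable_id)).aestronglyMeasurable
  exact (intervalIntegral.hasDerivAt_integral_of_dominated_loc_of_deriv_le
    (μ := volume) (F := fun z x' => w x' * ker m z x s' x')
    (F' := fun z x' => w x' * dk m z x s' x')
    (bound := fun _ => B * (K1 + K1 + 2 * W * (1 + K2) + 2))
    (Metric.ball_mem_nhds y hδ0) (Eventually.of_forall hmk)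
    (int_mul hw hwm (int_ker hK m y x hs'))
    ((hwm.mul (meas_dk m y x measurable_const measurable_id)).aestronglyMeasurable)
    (Eventually.of_forall fun x' _ z hz => hws z hz x') intervalIntegrable_const
    (Eventually.of_forall fun x' _ z hz => (hasDeriv_ker hm x x' (by
      rintro rfl
      have := (hball z hz).1
      rw [sub_self, abs_zero] at this
      linarith)).const_mul (w x'))).2

theorem logq_le {u v : ℝ} (hu : |u| ≤ 1) (hv : Real.cos v ≠ 1) :
    |Real.log (q u v)| ≤ |Real.log (q 0 v)| + Real.log (Real.cosh 1 + 1) := by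
  have h0 : 0 < q 0 v := by
    unfold q
    rw [Real.cosh_zero]
    have := lt_of_le_of_ne (Real.cos_le_one v) hv
    linarith
  have h2 : q 0 v ≤ q u v := by
    unfold q
    rw [Real.cosh_zero]
    have := Real.one_le_cosh u
    linarith
  have h3 : q u v ≤ Real.cosh 1 + 1 := by
    unfold q
    have h4 : Real.cosh u ≤ Real.cosh 1 := by
      rw [Real.cosh_le_cosh, abs_one]
      exact hu
    have := Real.neg_one_le_cos v
    linarith
  have h4 := Real.log_le_log h0 h2
  have h5 := Real.log_le_log (h0.trans_le h2) h3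
  have h6 : 0 ≤ Real.log (Real.cosh 1 + 1) := by
    apply Real.log_nonneg
    have := Real.one_le_cosh 1
    linarith
  have h7 := neg_abs_le (Real.log (q 0 v))
  have h8 := abs_nonneg (Real.log (q 0 v))
  rw [abs_le]
  constructor <;> linarith

theorem ae_cos (x : ℝ) : ∀ᵐ x' : ℝ, Real.cos (x - x') ≠ 1 ∧ Real.cos (x + x') ≠ 1 := by
  have hc : {v : ℝ | Real.cos v = 1}.Countable := by
    have : {v : ℝ | Real.cos v = 1} = Set.range (fun n : ℤ => (n : ℝ) * (2 * Real.pi)) := by
      ext v
      exact Real.cos_eq_one_iff v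
    rw [this]
    exact Set.countable_range _
  have e1 : {x' : ℝ | Real.cos (x - x') = 1}.Countable :=
    hc.preimage (f := fun x' => x - x') (sub_right_injective)
  have e2 : {x' : ℝ | Real.cos (x + x') = 1}.Countable :=
    hc.preimage (f := fun x' => x + x') (add_right_injective x)
  have f1 := measure_eq_zero_iff_ae_notMem.1 (e1.measure_zero volume)
  have f2 := measure_eq_zero_iff_ae_notMem.1 (e2.measure_zero volume)
  filter_upwards [f1, f2] with a h1 h2
  exact ⟨h1, h2⟩

theorem cont_logq {v : ℝ} (hv : Real.cos v ≠ 1) : Continuous fun u => Real.log (q u v) := by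
  have h0 : ∀ u, q u v ≠ 0 := by
    intro u
    unfold q
    have h1 := lt_of_le_of_ne (Real.cos_le_one v) hv
    have h2 := Real.one_le_cosh u
    linarith
  refine Continuous.log ?_ h0
  unfold q
  fun_prop

theorem cont_inner (hK : S_K1) {m : ℝ} {B : ℝ} {w : ℝ → ℝ}
    (hw : ∀ t, |w t| ≤ B) (hwm : Measurable w) (x : ℝ) {s' : ℝ} (hs' : s' ≠ 0) :
    ContinuousAt (fun y => ∫ x' in (0:ℝ)..Real.pi, w x' * ker m y x s' x') s' := by
  have hB : 0 ≤ B := (abs_nonneg _).trans (hw 0)
  have hcA : Continuous (Am m) := by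
    unfold Am
    fun_prop
  obtain ⟨W, hW⟩ := (isCompact_Icc (a := s' - 1) (b := s' + 1)).exists_bound_of_continuousOn
    hcA.continuousOn
  set L : ℝ := Real.log (Real.cosh 1 + 1) with hL
  have i1 := (int_logq hK 0 x).1.abs
  have i2 := (int_logq hK 0 x).2.abs
  have i3 : IntervalIntegrable (fun x' => |Real.log (q s' x')|) volume 0 Real.pi := by
    obtain ⟨C, hC, _, _, _, h4⟩ := hK
    exact (h4 s' 0 Real.pi).abs
  have i4 : IntervalIntegrable (fun x' => |h1 s' x'|) volume 0 Real.pi :=
    ((cont_h1 hs').intervalIntegrable _ _).abs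
  have ic : ∀ c : ℝ, IntervalIntegrable (fun _ : ℝ => c) volume 0 Real.pi :=
    fun c => intervalIntegrable_const
  refine intervalIntegral.continuousAt_of_dominated_interval
    (bound := fun x' => B * (((|Real.log (q 0 (x - x'))| + L) + (|Real.log (q 0 (x + x'))| + L) +
      2 * |Real.log (q s' x')|) + 2 * (W * (1 + |h1 s' x'|) + (|s'| + 1)))) ?_ ?_ ?_ ?_
  · exact Eventually.of_forall fun z =>
      (hwm.mul (meas_ker m z x measurable_const measurable_id)).aestronglyMeasurable
  · filter_upwards [Metric.ball_mem_nhds s' one_pos] with y hy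
    filter_upwards [ae_cos x] with x' hx' _
    rw [Metric.mem_ball, Real.dist_eq] at hy
    rw [norm_mul, Real.norm_eq_abs, Real.norm_eq_abs]
    refine mul_le_mul (hw x') ?_ (abs_nonneg _) hB
    have b1 := logq_le hy.le hx'.1
    have b2 := logq_le hy.le hx'.2
    have hyI : y ∈ Icc (s' - 1) (s' + 1) := by
      have := abs_lt.1 hy
      constructor <;> linarith
    have b3 := hW y hyI
    rw [Real.norm_eq_abs] at b3
    have b4 : |y| ≤ |s'| + 1 := by
      have := abs_sub_abs_le_abs_sub y s'
      linarith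
    unfold ker
    have a1 := abs_add_le (Real.log (q (y - s') (x - x')) + Real.log (q (y - s') (x + x')) -
      2 * Real.log (q s' x')) (2 * (Am m y * (1 + h1 s' x') - y))
    have a2 := abs_sub (Real.log (q (y - s') (x - x')) + Real.log (q (y - s') (x + x')))
      (2 * Real.log (q s' x'))
    have a3 := abs_add_le (Real.log (q (y - s') (x - x'))) (Real.log (q (y - s') (x + x')))
    have a4 : |2 * Real.log (q s' x')| = 2 * |Real.log (q s' x')| := by
      rw [abs_mul, abs_two]
    have a5 : |2 * (Am m y * (1 + h1 s' x') - y)| ≤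
        2 * (W * (1 + |h1 s' x'|) + (|s'| + 1)) := by
      rw [abs_mul, abs_two]
      refine mul_le_mul_of_nonneg_left ?_ zero_le_two
      refine (abs_sub _ _).trans (add_le_add ?_ b4)
      rw [abs_mul]
      have a6 : |1 + h1 s' x'| ≤ 1 + |h1 s' x'| := by
        refine (abs_add_le _ _).trans ?_
        rw [abs_one]
      exact mul_le_mul b3 a6 (abs_nonneg _) ((abs_nonneg _).trans b3)
    linarith
  · exact ((((i1.add (ic L)).add (i2.add (ic L))).add (i3.const_mul 2)).add
      (((((ic 1).add i4).const_mul W).add (ic (|s'| + 1))).const_mul 2)).const_mul B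
  · filter_upwards [ae_cos x] with x' hx' _
    have c1 : Continuous fun y => Real.log (q (y - s') (x - x')) :=
      (cont_logq hx'.1).comp (continuous_id.sub continuous_const)
    have c2 : Continuous fun y => Real.log (q (y - s') (x + x')) :=
      (cont_logq hx'.2).comp (continuous_id.sub continuous_const)
    have c3 : Continuous fun y => w x' * ker m y x s' x' := by
      unfold ker
      fun_prop
    exact c3.continuousAt

end AuxLs

/- TARGET, proof in plain words:
Fix x, s.  Put φ(y,s') = om m s' * ∫_0^π σ s' x' * ker m y x s' x' dx'.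
(1) For y ≠ s' , y ↦ φ(y,s') is differentiable with derivative
 φ'(y,s') = om m s' * ∫_0^π σ s' x' * (h1 (y-s') (x-x') + h1 (y-s') (x+x') + 2 om m y (1 + h1 s' x') - 2) dx'
 (differentiate under the integral; near y the distance |y-s'| is bounded below so |h1 u v| ≤ |sinh u|/(cosh u - 1) is bounded;
 the derivative of Am m is om m).
(2) By t_K1 part 1 (h1 0 = 0) and 0 ≤ om m s' ≤ 1, for y in a bounded interval |φ'(y,s')| ≤ M with M independent of s' in (0,H] and y ≠ s'.
(3) y ↦ φ(y,s') is continuous also at y = s' (dominated convergence: |log q(u,v)| ≤ log 2 + |u| + |log (1 - cos v)|; the right side is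
 integrable over v-windows because log q(0,v) is, t_K1 part 4), hence by (2) it is M-Lipschitz in y (a continuous function on an
 interval whose derivative is bounded by M except at one point is M-Lipschitz: apply the mean value inequality on both sides of the point).
 Alternatively: log q(y2-s',v) - log q(y1-s',v) = ∫_{y1}^{y2} h1(y-s',v) dy for v not in 2πZ, and Fubini.
(4) Now apply the Lipschitz version of differentiation under the integral to the outer integral:
 `intervalIntegral.hasDerivAt_integral_of_dominated_loc_of_lip` (or hasDerivAt_integral_of_dominated_loc_of_lip): for a.e. s' in (0,H)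
 (s' ≠ s) φ(·,s') is differentiable at s, Lipschitz near s with constant M.  Measurability of s' ↦ φ(y,s') and of s' ↦ φ'(s,s') from the
 measurability of parametric integrals (ker is a measurable function of all its variables), boundedness from t_K1.
-/
theorem t_Ls : S_Ls := by
  intro m H B σ hm hH hd s x
  have hm0 : m ≠ 0 := by linarith
  have hmp : 0 < m := by linarith
  have hK := t_K1
  obtain ⟨C, hC, hCk⟩ := AuxLs.bd_ker hK
  obtain ⟨C', hC', hCd⟩ := AuxLs.bd_dk hK
  have hB : 0 ≤ B := (abs_nonneg _).trans (hd.bdd 0 0)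
  have hpi := Real.pi_pos
  have hwm : ∀ s' : ℝ, Measurable (fun x' => σ s' x') := fun s' =>
    hd.meas.comp (measurable_const.prodMk measurable_id)
  set W : ℝ := Real.exp (2 * (|s| + 1)) with hWdef
  have hW0 : 0 < W := Real.exp_pos _
  have hW : ∀ y ∈ Metric.ball s 1, om m y ≤ W := by
    intro y hy
    rw [Metric.mem_ball, Real.dist_eq] at hy
    unfold om
    apply Real.exp_le_exp.2
    have h2 : |y| ≤ |s| + 1 := by
      have := abs_sub_abs_le_abs_sub y s
      linarith
    have h3 : -(2 * y / m) = 2 * (-y) / m := by ring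
    rw [h3, div_le_iff₀ hmp]
    have h4 := neg_abs_le y
    have h5 := abs_nonneg s
    nlinarith
  have hom0 : ∀ y : ℝ, 0 < om m y := fun y => Real.exp_pos _
  have hom1 : ∀ y : ℝ, 0 ≤ y → om m y ≤ 1 := by
    intro y hy
    unfold om
    rw [Real.exp_le_one_iff]
    have : 0 ≤ 2 * y / m := by positivity
    linarith
  set M : ℝ := B * (2 * C' + 2 * W * (Real.pi + C') + 2 * Real.pi) with hM
  have hM0 : 0 ≤ M := by positivity
  set M1 : ℝ := B * (2 * (C * (1 + (|s| + H))) + 2 * (C * (1 + H)) +
        2 * (|Am m s| * (Real.pi + C) + |s| * Real.pi)) with hM1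
  have hmeas : ∀ g : ℝ → ℝ → ℝ, Measurable (Function.uncurry g) →
      StronglyMeasurable fun s' => om m s' * ∫ x' in (0:ℝ)..Real.pi, σ s' x' * g s' x' := by
    intro g hg
    have h2 : StronglyMeasurable fun s' : ℝ => ∫ x' in (0:ℝ)..Real.pi, σ s' x' * g s' x' := by
      simp only [intervalIntegral.integral_of_le hpi.le]
      have h3 : StronglyMeasurable (Function.uncurry fun s' x' => σ s' x' * g s' x') :=
        (hd.meas.mul hg).stronglyMeasurable
      exact h3.integral_prod_right
    have h4 : Continuous (om m) := by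
      unfold om
      fun_prop
    exact h4.stronglyMeasurable.mul h2
  have hmk : ∀ y : ℝ, Measurable (Function.uncurry fun s' x' => ker m y x s' x') := fun y =>
    AuxLs.meas_ker m y x measurable_fst measurable_snd
  have hmd : Measurable (Function.uncurry fun s' x' => AuxLs.dk m s x s' x') :=
    AuxLs.meas_dk m s x measurable_fst measurable_snd
  have hI : ∀ s' : ℝ, 0 < s' → |∫ x' in (0:ℝ)..Real.pi, σ s' x' * ker m s x s' x'| ≤
      B * (2 * (C * (1 + |s - s'|)) + 2 * (C * (1 + |s'|)) +
        2 * (|Am m s| * (Real.pi + C) + |s| * Real.pi)) := fun s' hs' =>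
    (AuxLs.abs_int_le (hd.bdd s') (AuxLs.int_ker hK m s x hs'.ne')).trans
      (mul_le_mul_of_nonneg_left (hCk m s x s' hs'.ne') hB)
  have key := hasDerivAt_integral_of_dominated_loc_of_lip
    (μ := volume.restrict (Ioc (0:ℝ) H)) (x₀ := s)
    (F := fun y s' => om m s' * ∫ x' in (0:ℝ)..Real.pi, σ s' x' * ker m y x s' x')
    (F' := fun s' => om m s' * ∫ x' in (0:ℝ)..Real.pi, σ s' x' * AuxLs.dk m s x s' x')
    (bound := fun _ => M) (Metric.ball_mem_nhds s one_pos)
    (Eventually.of_forall fun y => (hmeas _ (hmk y)).aestronglyMeasurable)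
    (by
      refine Integrable.mono' (g := fun _ => M1) (integrable_const _)
        (hmeas _ (hmk s)).aestronglyMeasurable ?_
      filter_upwards [ae_restrict_mem measurableSet_Ioc] with s' hs'
      have h2 := hI s' hs'.1
      rw [Real.norm_eq_abs, abs_mul, abs_of_pos (hom0 s')]
      have h3 : |s - s'| ≤ |s| + H := by
        refine (abs_sub _ _).trans ?_
        rw [abs_of_pos hs'.1]
        linarith [hs'.2]
      have h4 : |s'| ≤ H := by
        rw [abs_of_pos hs'.1]
        exact hs'.2
      have h5 : B * (2 * (C * (1 + |s - s'|)) + 2 * (C * (1 + |s'|)) +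
        2 * (|Am m s| * (Real.pi + C) + |s| * Real.pi)) ≤ M1 := by
        rw [hM1]
        gcongr
      have h6 := abs_nonneg (∫ x' in (0:ℝ)..Real.pi, σ s' x' * ker m s x s' x')
      calc om m s' * |∫ x' in (0:ℝ)..Real.pi, σ s' x' * ker m s x s' x'|
          ≤ 1 * |∫ x' in (0:ℝ)..Real.pi, σ s' x' * ker m s x s' x'| :=
            mul_le_mul_of_nonneg_right (hom1 s' hs'.1.le) h6
        _ ≤ M1 := by
            rw [one_mul]
            exact h2.trans h5)
    (hmeas _ hmd).aestronglyMeasurable
    (by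
      filter_upwards [ae_restrict_mem measurableSet_Ioc] with s' hs'
      have hs0 : s' ≠ 0 := hs'.1.ne'
      have hcont : ∀ y : ℝ, ContinuousAt
          (fun y => ∫ x' in (0:ℝ)..Real.pi, σ s' x' * ker m y x s' x') y := by
        intro y
        by_cases hy : y = s'
        · subst hy
          exact AuxLs.cont_inner hK (hd.bdd y) (hwm y) x hs0
        · exact (AuxLs.hasDeriv_inner hK hm0 (hd.bdd s') (hwm s') x hs0 hy).continuousAt
      have hbd : ∀ y1 ∈ Metric.ball s 1, ∀ y2 ∈ Metric.ball s 1, y1 ≤ y2 →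
          |(∫ x' in (0:ℝ)..Real.pi, σ s' x' * ker m y2 x s' x') -
            ∫ x' in (0:ℝ)..Real.pi, σ s' x' * ker m y1 x s' x'| ≤ M * (y2 - y1) := by
        intro y1 hy1 y2 hy2 h12
        refine AuxLs.mvt1 (c := s')
          (f := fun y => ∫ x' in (0:ℝ)..Real.pi, σ s' x' * ker m y x s' x')
          (f' := fun y => ∫ x' in (0:ℝ)..Real.pi, σ s' x' * AuxLs.dk m y x s' x') h12
          (fun y _ => (hcont y).continuousWithinAt)
          (fun y _ hy => AuxLs.hasDeriv_inner hK hm0 (hd.bdd s') (hwm s') x hs0 hy)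
          (fun y hyI hy => ?_)
        refine (AuxLs.abs_int_le (hd.bdd s') (AuxLs.int_dk m x hs0 hy)).trans ?_
        refine mul_le_mul_of_nonneg_left ((hCd m y x s' hs0 hy).trans ?_) hB
        have hyb : y ∈ Metric.ball s 1 := by
          rw [Metric.mem_ball, Real.dist_eq, abs_lt] at hy1 hy2 ⊢
          have h2 := hyI.1
          have h3 := hyI.2
          constructor <;> linarith
        have := hW y hyb
        have h4 : 0 ≤ Real.pi + C' := by linarith
        gcongr
      refine LipschitzOnWith.of_dist_le_mul fun y1 hy1 y2 hy2 => ?_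
      rw [Real.coe_nnabs, abs_of_nonneg hM0, Real.dist_eq, Real.dist_eq, ← mul_sub, abs_mul,
        abs_of_pos (hom0 s')]
      have h5 : |(∫ x' in (0:ℝ)..Real.pi, σ s' x' * ker m y1 x s' x') -
            ∫ x' in (0:ℝ)..Real.pi, σ s' x' * ker m y2 x s' x'| ≤ M * |y1 - y2| := by
        rcases le_total y1 y2 with h6 | h6
        · rw [abs_sub_comm, abs_sub_comm y1 y2, abs_of_nonneg (sub_nonneg.2 h6)]
          exact hbd y1 hy1 y2 hy2 h6
        · rw [abs_of_nonneg (sub_nonneg.2 h6)]
          exact hbd y2 hy2 y1 hy1 h6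
      refine le_trans ?_ h5
      exact mul_le_of_le_one_left (abs_nonneg _) (hom1 s' hs'.1.le))
    (integrable_const _)
    (by
      have hne : ∀ᵐ s' : ℝ ∂(volume.restrict (Ioc (0:ℝ) H)), s' ≠ s :=
        ae_restrict_of_ae (measure_eq_zero_iff_ae_notMem.1 (measure_singleton s))
      filter_upwards [ae_restrict_mem measurableSet_Ioc, hne] with s' hs' hs2
      exact (AuxLs.hasDeriv_inner hK hm0 (hd.bdd s') (hwm s') x hs'.1.ne' hs2.symm).const_mul _)
  have h2 := key.2.const_mul (1 / (4 * Real.pi))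
  have e1 : (fun y => Lop m H σ y x) = fun y => 1 / (4 * Real.pi) *
      ∫ s' in Ioc (0:ℝ) H, om m s' * ∫ x' in (0:ℝ)..Real.pi, σ s' x' * ker m y x s' x' := by
    funext y
    unfold Lop
    rw [intervalIntegral.integral_of_le hH.le]
  have e2 : Ls m H σ s x = 1 / (4 * Real.pi) *
      ∫ s' in Ioc (0:ℝ) H, om m s' * ∫ x' in (0:ℝ)..Real.pi,
        σ s' x' * AuxLs.dk m s x s' x' := by
    unfold Ls
    rw [intervalIntegral.integral_of_le hH.le]
    rfl
  rw [e1, e2]
  exact h2

end Pool.Agent.H682_VS
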