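import Pool.Agent.H682_VS.Stmts
import Pool.Agent.H682_VS.K1

/-! # Lx -/

set_option autoImplicit false

open MeasureTheory Set Filter Topology

namespace Pool.Agent.H682_VS


/- TARGET, proof in plain words:
Fix s.  ker m s y s' x' = log q(u,y-x') + log q(u,y+x') + (terms independent of y), u = s-s'.
Inner integral: for u ≠ 0 and ρ = σ s' bounded (|ρ| ≤ B) measurable, y ↦ ∫_0^π ρ(x') [log q(u,y-x') + log q(u,y+x') + k0(x')] dx'
is differentiable with derivative ∫_0^π ρ(x') [h2 u (y-x') + h2 u (y+x')] dx' for every y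
(intervalIntegral.hasDerivAt_integral_of_dominated_loc_of_deriv_le with the constant bound B * 2/(cosh u - 1): |h2| ≤ 1/(cosh u - 1);
q u v ≥ cosh u - 1 > 0; the integrand is integrable in x' by t_K1 part 4; the y-independent part k0(x') =
-2 log q(s',x') + 2(Am m s (1 + h1 s' x') - s) is integrable too: h1 s' is bounded and continuous for s' ≠ 0, and s' = 0 is excluded as a null set, or h1 0 = 0).
Outer integral: for s' ≠ s the s'-integrand φ(y,s') = om m s' * ∫_0^π σ s' x' * ker m s y s' x' dx' has derivative bounded by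
om m s' * B * 2 C (1 + |log|s-s'||) for every y (t_K1 part 2 after the substitutions v = y-x', v = y+x': window of length π;
0 ≤ om m s' ≤ 1 on [0,H]), and s' ↦ 1 + |log |s-s'|| is interval integrable (intervalIntegral.intervalIntegrable_log' or similar).
φ(y,·) is interval integrable on [0,H]: measurable by Fubini-type measurability of parametric integrals
(MeasureTheory.StronglyMeasurable.integral_prod_right and friends; ker is a measurable function of all variables), bounded by t_K1 parts 1,3.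
Apply intervalIntegral.hasDerivAt_integral_of_dominated_loc_of_deriv_le again (null set s' = s).
-/
namespace AuxLx

lemma cosh_gt {u : ℝ} (hu : u ≠ 0) : 0 < Real.cosh u - 1 := by
  have := Real.one_lt_cosh.mpr hu
  linarith

lemma q_ge (u v : ℝ) : Real.cosh u - 1 ≤ q u v := by
  have := Real.cos_le_one v
  unfold q
  linarith

lemma q_pos {u : ℝ} (hu : u ≠ 0) (v : ℝ) : 0 < q u v :=
  lt_of_lt_of_le (cosh_gt hu) (q_ge u v)

lemma abs_h2_le {u : ℝ} (hu : u ≠ 0) (v : ℝ) : |h2 u v| ≤ 1 / (Real.cosh u - 1) := by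
  unfold h2
  rw [abs_div, abs_of_pos (q_pos hu v)]
  exact div_le_div₀ zero_le_one (Real.abs_sin_le_one v) (cosh_gt hu) (q_ge u v)

lemma hasDerivAt_logq {u : ℝ} (hu : u ≠ 0) (v : ℝ) :
    HasDerivAt (fun v => Real.log (q u v)) (h2 u v) v := by
  have h1 : HasDerivAt (fun v => q u v) (Real.sin v) v := by
    have := (Real.hasDerivAt_cos v).const_sub (Real.cosh u)
    simpa [q] using this
  have := h1.log (q_pos hu v).ne'
  simpa [h2] using this

lemma meas_q : Measurable (fun p : ℝ × ℝ => q p.1 p.2) := by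
  have : Continuous (fun p : ℝ × ℝ => q p.1 p.2) := by
    unfold q
    fun_prop
  exact this.measurable

lemma meas_logq : Measurable (fun p : ℝ × ℝ => Real.log (q p.1 p.2)) :=
  Real.measurable_log.comp meas_q

lemma meas_h1 : Measurable (fun p : ℝ × ℝ => h1 p.1 p.2) := by
  unfold h1
  exact (Real.measurable_sinh.comp measurable_fst).div meas_q

lemma meas_h2 : Measurable (fun p : ℝ × ℝ => h2 p.1 p.2) := by
  unfold h2
  exact (Real.measurable_sin.comp measurable_snd).div meas_q

lemma h1_zero (v : ℝ) : h1 0 v = 0 := by simp [h1]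

lemma int_h1 (u a b : ℝ) : IntervalIntegrable (fun v => h1 u v) volume a b := by
  by_cases hu : u = 0
  · subst hu
    have : (fun v => h1 0 v) = fun _ => (0:ℝ) := by
      funext v; exact h1_zero v
    rw [this]
    exact intervalIntegrable_const
  · apply Continuous.intervalIntegrable
    unfold h1
    apply Continuous.div continuous_const
    · unfold q
      fun_prop
    · intro v
      exact (q_pos hu v).ne'

lemma int_h2 {u : ℝ} (hu : u ≠ 0) (a b : ℝ) : IntervalIntegrable (fun v => h2 u v) volume a b := by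
  apply Continuous.intervalIntegrable
  unfold h2
  apply Continuous.div Real.continuous_sin
  · unfold q
    fun_prop
  · intro v
    exact (q_pos hu v).ne'

lemma int_sub {f : ℝ → ℝ} (hf : ∀ a b : ℝ, IntervalIntegrable f volume a b) (y a b : ℝ) :
    IntervalIntegrable (fun v => f (y - v)) volume a b := by
  have := (hf (y - a) (y - b)).comp_sub_left y
  simpa using this

lemma int_add {f : ℝ → ℝ} (hf : ∀ a b : ℝ, IntervalIntegrable f volume a b) (y a b : ℝ) :
    IntervalIntegrable (fun v => f (y + v)) volume a b := by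
  have := (hf (y + a) (y + b)).comp_add_left y
  simpa using this

lemma win_sub (f : ℝ → ℝ) (y : ℝ) :
    ∫ v in (0:ℝ)..Real.pi, f (y - v) = ∫ v in (y - Real.pi)..((y - Real.pi) + Real.pi), f v := by
  rw [intervalIntegral.integral_comp_sub_left]
  simp

lemma win_add (f : ℝ → ℝ) (y : ℝ) :
    ∫ v in (0:ℝ)..Real.pi, f (y + v) = ∫ v in y..(y + Real.pi), f v := by
  rw [intervalIntegral.integral_comp_add_left]
  simp

lemma meas_sig {B : ℝ} {σ : ℝ → ℝ → ℝ} (hσ : Dat B σ) (s' : ℝ) : Measurable (σ s') :=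
  hσ.meas.comp (measurable_const.prodMk measurable_id)

lemma B_nonneg {B : ℝ} {σ : ℝ → ℝ → ℝ} (hσ : Dat B σ) : 0 ≤ B :=
  le_trans (abs_nonneg _) (hσ.bdd 0 0)

lemma sig_mul {B : ℝ} {σ : ℝ → ℝ → ℝ} (hσ : Dat B σ) (s' : ℝ) {g : ℝ → ℝ} {a b : ℝ}
    (hg : IntervalIntegrable g volume a b) :
    IntervalIntegrable (fun x' => σ s' x' * g x') volume a b := by
  have hm := meas_sig hσ s'
  constructor
  · exact Integrable.bdd_mul (c := B) hg.1 hm.aestronglyMeasurable
      (Eventually.of_forall fun x => by rw [Real.norm_eq_abs]; exact hσ.bdd s' x)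
  · exact Integrable.bdd_mul (c := B) hg.2 hm.aestronglyMeasurable
      (Eventually.of_forall fun x => by rw [Real.norm_eq_abs]; exact hσ.bdd s' x)

/-- bound for an inner integral -/
lemma inner_bound {B : ℝ} {σ : ℝ → ℝ → ℝ} (hσ : Dat B σ) (s' : ℝ) {g G : ℝ → ℝ}
    (hG : IntervalIntegrable G volume 0 Real.pi) (hgG : ∀ x, |g x| ≤ G x) :
    |∫ x' in (0:ℝ)..Real.pi, σ s' x' * g x'| ≤ B * ∫ x' in (0:ℝ)..Real.pi, G x' := by
  have h : ‖∫ x' in (0:ℝ)..Real.pi, σ s' x' * g x'‖ ≤ ∫ x' in (0:ℝ)..Real.pi, B * G x' := by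
    apply intervalIntegral.norm_integral_le_of_norm_le Real.pi_pos.le
    · refine Eventually.of_forall fun x _ => ?_
      rw [Real.norm_eq_abs, abs_mul]
      exact mul_le_mul (hσ.bdd s' x) (hgG x) (abs_nonneg _) (B_nonneg hσ)
    · exact hG.const_mul B
  rw [intervalIntegral.integral_const_mul] at h
  rw [Real.norm_eq_abs] at h
  exact h

lemma int_ker (m s y s' : ℝ) :
    IntervalIntegrable (fun x' => ker m s y s' x') volume 0 Real.pi := by
  obtain ⟨C, hC1, hK1, hK2, hK3, hK4⟩ := t_K1
  unfold ker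
  have e1 := int_sub (hK4 (s - s')) y 0 Real.pi
  have e2 := int_add (hK4 (s - s')) y 0 Real.pi
  have e3 := (hK4 s' 0 Real.pi).const_mul 2
  have e4 : IntervalIntegrable (fun x' => 2 * (Am m s * (1 + h1 s' x') - s)) volume 0 Real.pi := by
    have := (((intervalIntegrable_const (μ := volume) (a := (0:ℝ)) (b := Real.pi) (c := (1:ℝ))).add
      (int_h1 s' 0 Real.pi)).const_mul (Am m s)).sub
      (intervalIntegrable_const (μ := volume) (a := (0:ℝ)) (b := Real.pi) (c := s))
    exact this.const_mul 2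
  exact ((e1.add e2).sub e3).add e4

lemma inner_deriv {B : ℝ} {σ : ℝ → ℝ → ℝ} (hσ : Dat B σ) (m s s' y : ℝ) (hs : s - s' ≠ 0) :
    HasDerivAt (fun y => ∫ x' in (0:ℝ)..Real.pi, σ s' x' * ker m s y s' x')
      (∫ x' in (0:ℝ)..Real.pi, σ s' x' * (h2 (s - s') (y - x') + h2 (s - s') (y + x'))) y := by
  have hB := B_nonneg hσ
  have hm := meas_sig hσ s'
  refine (intervalIntegral.hasDerivAt_integral_of_dominated_loc_of_deriv_le
    (F := fun y x' => σ s' x' * ker m s y s' x')
    (F' := fun y x' => σ s' x' * (h2 (s - s') (y - x') + h2 (s - s') (y + x')))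
    (bound := fun _ => B * (1 / (Real.cosh (s - s') - 1) + 1 / (Real.cosh (s - s') - 1)))
    (s := Set.univ) Filter.univ_mem ?_ ?_ ?_ ?_ ?_ ?_).2
  · refine Eventually.of_forall fun z => ?_
    rw [uIoc_of_le Real.pi_pos.le]
    exact (sig_mul hσ s' (int_ker m s z s')).1.aestronglyMeasurable
  · exact sig_mul hσ s' (int_ker m s y s')
  · apply Measurable.aestronglyMeasurable
    have a1 : Measurable (fun x' : ℝ => h2 (s - s') (y - x')) :=
      meas_h2.comp (g := fun p : ℝ × ℝ => h2 p.1 p.2) (f := fun x' : ℝ => (s - s', y - x')) (by fun_prop)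
    have a2 : Measurable (fun x' : ℝ => h2 (s - s') (y + x')) :=
      meas_h2.comp (g := fun p : ℝ × ℝ => h2 p.1 p.2) (f := fun x' : ℝ => (s - s', y + x')) (by fun_prop)
    exact hm.mul (a1.add a2)
  · refine Eventually.of_forall fun x' _ z _ => ?_
    rw [Real.norm_eq_abs, abs_mul]
    refine mul_le_mul (hσ.bdd s' x') ?_ (abs_nonneg _) hB
    exact (abs_add_le _ _).trans (add_le_add (abs_h2_le hs _) (abs_h2_le hs _))
  · exact intervalIntegrable_const
  · refine Eventually.of_forall fun x' _ z _ => ?_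
    apply HasDerivAt.const_mul
    have e1 : HasDerivAt (fun z => Real.log (q (s - s') (z - x'))) (h2 (s - s') (z - x')) z := by
      exact HasDerivAt.comp_sub_const z x' (hasDerivAt_logq hs (z - x'))
    have e2 : HasDerivAt (fun z => Real.log (q (s - s') (z + x'))) (h2 (s - s') (z + x')) z := by
      exact HasDerivAt.comp_add_const z x' (hasDerivAt_logq hs (z + x'))
    have := ((e1.add e2).sub_const (2 * Real.log (q s' x'))).add_const
      (2 * (Am m s * (1 + h1 s' x') - s))
    exact this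

lemma meas_inner {σ : ℝ → ℝ → ℝ} (hσ : Measurable (Function.uncurry σ)) {k : ℝ → ℝ → ℝ}
    (hk : Measurable (Function.uncurry k)) :
    Measurable (fun s' => ∫ x' in (0:ℝ)..Real.pi, σ s' x' * k s' x') := by
  have h1 : StronglyMeasurable (fun p : ℝ × ℝ => σ p.1 p.2 * k p.1 p.2) := by
    apply Measurable.stronglyMeasurable
    exact hσ.mul hk
  have h2 := h1.integral_prod_right' (ν := volume.restrict (Ioc (0:ℝ) Real.pi))
  have h3 : (fun s' => ∫ x' in (0:ℝ)..Real.pi, σ s' x' * k s' x')
      = fun s' => ∫ x', σ s' x' * k s' x' ∂(volume.restrict (Ioc (0:ℝ) Real.pi)) := by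
    funext s'
    rw [intervalIntegral.integral_of_le Real.pi_pos.le]
  rw [h3]
  exact h2.measurable

lemma meas_om (m : ℝ) : Measurable (om m) := by
  have : Continuous (om m) := by
    unfold om
    fun_prop
  exact this.measurable

lemma meas_ker (m s y : ℝ) : Measurable (Function.uncurry (fun s' x' => ker m s y s' x')) := by
  have e1 : Measurable (fun p : ℝ × ℝ => Real.log (q (s - p.1) (y - p.2))) :=
    meas_logq.comp (g := fun p : ℝ × ℝ => Real.log (q p.1 p.2))
      (f := fun p : ℝ × ℝ => (s - p.1, y - p.2)) (by fun_prop)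
  have e2 : Measurable (fun p : ℝ × ℝ => Real.log (q (s - p.1) (y + p.2))) :=
    meas_logq.comp (g := fun p : ℝ × ℝ => Real.log (q p.1 p.2))
      (f := fun p : ℝ × ℝ => (s - p.1, y + p.2)) (by fun_prop)
  have e3 : Measurable (fun p : ℝ × ℝ => 2 * Real.log (q p.1 p.2)) := meas_logq.const_mul 2
  have e4 : Measurable (fun p : ℝ × ℝ => 2 * (Am m s * (1 + h1 p.1 p.2) - s)) :=
    (((measurable_const.add meas_h1).const_mul (Am m s)).sub measurable_const).const_mul 2
  exact ((e1.add e2).sub e3).add e4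

lemma meas_h2sum (s y : ℝ) :
    Measurable (Function.uncurry (fun s' x' => h2 (s - s') (y - x') + h2 (s - s') (y + x'))) := by
  have e1 : Measurable (fun p : ℝ × ℝ => h2 (s - p.1) (y - p.2)) :=
    meas_h2.comp (g := fun p : ℝ × ℝ => h2 p.1 p.2)
      (f := fun p : ℝ × ℝ => (s - p.1, y - p.2)) (by fun_prop)
  have e2 : Measurable (fun p : ℝ × ℝ => h2 (s - p.1) (y + p.2)) :=
    meas_h2.comp (g := fun p : ℝ × ℝ => h2 p.1 p.2)
      (f := fun p : ℝ × ℝ => (s - p.1, y + p.2)) (by fun_prop)
  exact e1.add e2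

lemma om_nonneg (m s : ℝ) : 0 ≤ om m s := (Real.exp_pos _).le

lemma om_le_one {m s : ℝ} (hm : 1 ≤ m) (hs : 0 ≤ s) : om m s ≤ 1 := by
  unfold om
  apply Real.exp_le_one_iff.mpr
  have : 0 ≤ 2 * s / m := by positivity
  linarith

/-- uniform bound for the `s'` integrand -/
lemma outer_bounded {B : ℝ} {σ : ℝ → ℝ → ℝ} (hσ : Dat B σ) {m H : ℝ} (hm : 1 ≤ m) (s y : ℝ) :
    ∃ K : ℝ, ∀ s' ∈ Ioc (0:ℝ) H,
      |om m s' * ∫ x' in (0:ℝ)..Real.pi, σ s' x' * ker m s y s' x'| ≤ K := by
  obtain ⟨C, hC1, hK1, hK2, hK3, hK4⟩ := t_K1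
  have hB := B_nonneg hσ
  refine ⟨B * (C * (1 + (|s| + H)) + C * (1 + (|s| + H)) + 2 * (C * (1 + H)) +
    (2 * |Am m s| * (Real.pi + C) + 2 * |s| * Real.pi)), fun s' hs' => ?_⟩
  have hs0 : s' ≠ 0 := hs'.1.ne'
  have iL1 := int_sub (fun a b => (hK4 (s - s') a b).abs) y 0 Real.pi
  have iL2 := int_add (fun a b => (hK4 (s - s') a b).abs) y 0 Real.pi
  have iL3 := ((hK4 s' 0 Real.pi).abs).const_mul 2
  have iH : IntervalIntegrable (fun x' => 2 * |Am m s| * (1 + |h1 s' x'|) + 2 * |s|) volume 0 Real.pi := by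
    have := ((intervalIntegrable_const (μ := volume) (a := (0:ℝ)) (b := Real.pi) (c := (1:ℝ))).add
      (int_h1 s' 0 Real.pi).abs).const_mul (2 * |Am m s|)
    exact this.add intervalIntegrable_const
  have iG := ((iL1.add iL2).add iL3).add iH
  have key := inner_bound hσ s' (g := fun x' => ker m s y s' x') iG (by
    intro x'
    unfold ker
    have t1 := abs_add_le (Real.log (q (s - s') (y - x')) + Real.log (q (s - s') (y + x')) -
      2 * Real.log (q s' x')) (2 * (Am m s * (1 + h1 s' x') - s))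
    have t2 := abs_sub (Real.log (q (s - s') (y - x')) + Real.log (q (s - s') (y + x')))
      (2 * Real.log (q s' x'))
    have t3 := abs_add_le (Real.log (q (s - s') (y - x'))) (Real.log (q (s - s') (y + x')))
    have t4 : |2 * Real.log (q s' x')| = 2 * |Real.log (q s' x')| := by
      rw [abs_mul, abs_of_pos (by norm_num : (0:ℝ) < 2)]
    have t5 : |2 * (Am m s * (1 + h1 s' x') - s)| ≤ 2 * |Am m s| * (1 + |h1 s' x'|) + 2 * |s| := by
      rw [abs_mul, abs_of_pos (by norm_num : (0:ℝ) < 2)]
      have a1 := abs_sub (Am m s * (1 + h1 s' x')) s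
      have a2 : |Am m s * (1 + h1 s' x')| ≤ |Am m s| * (1 + |h1 s' x'|) := by
        rw [abs_mul]
        apply mul_le_mul_of_nonneg_left _ (abs_nonneg _)
        have := abs_add_le 1 (h1 s' x')
        rwa [abs_one] at this
      nlinarith
    linarith)
  have eG : ∫ x' in (0:ℝ)..Real.pi, (((|Real.log (q (s - s') (y - x'))| +
      |Real.log (q (s - s') (y + x'))|) + 2 * |Real.log (q s' x')|) +
      (2 * |Am m s| * (1 + |h1 s' x'|) + 2 * |s|))
      ≤ C * (1 + (|s| + H)) + C * (1 + (|s| + H)) + 2 * (C * (1 + H)) +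
        (2 * |Am m s| * (Real.pi + C) + 2 * |s| * Real.pi) := by
    rw [intervalIntegral.integral_add ((iL1.add iL2).add iL3) iH,
      intervalIntegral.integral_add (iL1.add iL2) iL3, intervalIntegral.integral_add iL1 iL2]
    have hd : |s - s'| ≤ |s| + H := by
      have := abs_sub s s'
      have h2 : |s'| = s' := abs_of_pos hs'.1
      have := hs'.2
      linarith
    have b1 : ∫ v in (0:ℝ)..Real.pi, |Real.log (q (s - s') (y - v))| ≤ C * (1 + (|s| + H)) := by
      rw [win_sub (fun v => |Real.log (q (s - s') v)|) y]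
      refine (hK3 (s - s') (y - Real.pi)).trans ?_
      apply mul_le_mul_of_nonneg_left _ (by linarith)
      linarith
    have b2 : ∫ v in (0:ℝ)..Real.pi, |Real.log (q (s - s') (y + v))| ≤ C * (1 + (|s| + H)) := by
      rw [win_add (fun v => |Real.log (q (s - s') v)|) y]
      refine (hK3 (s - s') y).trans ?_
      apply mul_le_mul_of_nonneg_left _ (by linarith)
      linarith
    have b3 : ∫ v in (0:ℝ)..Real.pi, 2 * |Real.log (q s' v)| ≤ 2 * (C * (1 + H)) := by
      rw [intervalIntegral.integral_const_mul]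
      have h0 := hK3 s' 0
      rw [zero_add] at h0
      have h2 : |s'| = s' := abs_of_pos hs'.1
      have h3 : C * (1 + |s'|) ≤ C * (1 + H) := by
        apply mul_le_mul_of_nonneg_left _ (by linarith)
        have := hs'.2
        linarith
      linarith
    have b4 : ∫ x' in (0:ℝ)..Real.pi, (2 * |Am m s| * (1 + |h1 s' x'|) + 2 * |s|) ≤
        2 * |Am m s| * (Real.pi + C) + 2 * |s| * Real.pi := by
      have i1 : IntervalIntegrable (fun x' => (1:ℝ) + |h1 s' x'|) volume 0 Real.pi :=
        (intervalIntegrable_const (μ := volume) (a := (0:ℝ)) (b := Real.pi) (c := (1:ℝ))).add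
          (int_h1 s' 0 Real.pi).abs
      rw [intervalIntegral.integral_add (i1.const_mul _) intervalIntegrable_const,
        intervalIntegral.integral_const_mul,
        intervalIntegral.integral_add intervalIntegrable_const (int_h1 s' 0 Real.pi).abs,
        intervalIntegral.integral_const, intervalIntegral.integral_const]
      have h0 := hK1 s' 0 hs0
      rw [zero_add] at h0
      simp only [sub_zero, smul_eq_mul, mul_one]
      have h5 : 2 * |Am m s| * (Real.pi + ∫ x' in (0:ℝ)..Real.pi, |h1 s' x'|) ≤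
          2 * |Am m s| * (Real.pi + C) := by
        apply mul_le_mul_of_nonneg_left _ (by positivity)
        linarith
      linarith [mul_comm Real.pi (2 * |s|)]
    linarith
  rw [abs_mul, abs_of_nonneg (om_nonneg m s')]
  have hk0 : |∫ x' in (0:ℝ)..Real.pi, σ s' x' * ker m s y s' x'| ≤
      B * (C * (1 + (|s| + H)) + C * (1 + (|s| + H)) + 2 * (C * (1 + H)) +
        (2 * |Am m s| * (Real.pi + C) + 2 * |s| * Real.pi)) :=
    key.trans (mul_le_mul_of_nonneg_left eG hB)
  calc om m s' * |∫ x' in (0:ℝ)..Real.pi, σ s' x' * ker m s y s' x'|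
      ≤ 1 * |∫ x' in (0:ℝ)..Real.pi, σ s' x' * ker m s y s' x'| :=
        mul_le_mul_of_nonneg_right (om_le_one hm hs'.1.le) (abs_nonneg _)
    _ ≤ _ := by rw [one_mul]; exact hk0

end AuxLx

theorem t_Lx : S_Lx := by
  intro m H B σ hm hH hσ s x
  have hB := AuxLx.B_nonneg hσ
  obtain ⟨C, hC1, hK1, hK2, hK3, hK4⟩ := t_K1
  unfold Lop Lx
  apply HasDerivAt.const_mul
  refine (intervalIntegral.hasDerivAt_integral_of_dominated_loc_of_deriv_le
    (F := fun y s' => om m s' * ∫ x' in (0:ℝ)..Real.pi, σ s' x' * ker m s y s' x')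
    (F' := fun y s' => om m s' * ∫ x' in (0:ℝ)..Real.pi,
      σ s' x' * (h2 (s - s') (y - x') + h2 (s - s') (y + x')))
    (bound := fun s' => B * (C * (1 + |Real.log (s - s')|) + C * (1 + |Real.log (s - s')|)))
    (s := Set.univ) Filter.univ_mem ?_ ?_ ?_ ?_ ?_ ?_).2
  · refine Eventually.of_forall fun z => ?_
    apply Measurable.aestronglyMeasurable
    exact (AuxLx.meas_om m).mul (AuxLx.meas_inner hσ.meas (AuxLx.meas_ker m s z))
  · obtain ⟨K, hK⟩ := AuxLx.outer_bounded hσ (H := H) hm s x
    rw [intervalIntegrable_iff_integrableOn_Ioc_of_le hH.le]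
    refine Measure.integrableOn_of_bounded (M := K) (by simp) ?_ ?_
    · apply Measurable.aestronglyMeasurable
      exact (AuxLx.meas_om m).mul (AuxLx.meas_inner hσ.meas (AuxLx.meas_ker m s x))
    · rw [ae_restrict_iff' measurableSet_Ioc]
      exact Eventually.of_forall fun s' hs' => by
        rw [Real.norm_eq_abs]
        exact hK s' hs'
  · apply Measurable.aestronglyMeasurable
    exact (AuxLx.meas_om m).mul (AuxLx.meas_inner hσ.meas (AuxLx.meas_h2sum s x))
  · have hne : ∀ᵐ s' ∂(volume : Measure ℝ), s' ∉ ({s} : Set ℝ) :=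
      measure_eq_zero_iff_ae_notMem.mp (by simp)
    filter_upwards [hne] with s' hs' hmem z _
    rw [uIoc_of_le hH.le] at hmem
    have hs : s - s' ≠ 0 := by
      intro h
      apply hs'
      rw [mem_singleton_iff]
      linarith
    have i1 := AuxLx.int_sub (fun a b => (AuxLx.int_h2 hs a b).abs) z 0 Real.pi
    have i2 := AuxLx.int_add (fun a b => (AuxLx.int_h2 hs a b).abs) z 0 Real.pi
    have key := AuxLx.inner_bound hσ s'
      (g := fun x' => h2 (s - s') (z - x') + h2 (s - s') (z + x')) (i1.add i2)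
      (fun x' => abs_add_le _ _)
    have e1 : ∫ v in (0:ℝ)..Real.pi, |h2 (s - s') (z - v)| ≤ C * (1 + |Real.log (s - s')|) := by
      rw [AuxLx.win_sub (fun v => |h2 (s - s') v|) z]
      have := hK2 (s - s') (z - Real.pi) hs
      rwa [Real.log_abs] at this
    have e2 : ∫ v in (0:ℝ)..Real.pi, |h2 (s - s') (z + v)| ≤ C * (1 + |Real.log (s - s')|) := by
      rw [AuxLx.win_add (fun v => |h2 (s - s') v|) z]
      have := hK2 (s - s') z hs
      rwa [Real.log_abs] at this
    have e3 : ∫ v in (0:ℝ)..Real.pi, (|h2 (s - s') (z - v)| + |h2 (s - s') (z + v)|) ≤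
        C * (1 + |Real.log (s - s')|) + C * (1 + |Real.log (s - s')|) := by
      rw [intervalIntegral.integral_add i1 i2]
      linarith
    rw [Real.norm_eq_abs, abs_mul, abs_of_nonneg (AuxLx.om_nonneg m s')]
    calc om m s' * |∫ x' in (0:ℝ)..Real.pi, σ s' x' * (h2 (s - s') (z - x') + h2 (s - s') (z + x'))|
        ≤ 1 * |∫ x' in (0:ℝ)..Real.pi, σ s' x' * (h2 (s - s') (z - x') + h2 (s - s') (z + x'))| :=
          mul_le_mul_of_nonneg_right (AuxLx.om_le_one hm hmem.1.le) (abs_nonneg _)
      _ = |∫ x' in (0:ℝ)..Real.pi, σ s' x' * (h2 (s - s') (z - x') + h2 (s - s') (z + x'))| := one_mul _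
      _ ≤ _ := key.trans (mul_le_mul_of_nonneg_left e3 hB)
  · have i0 : IntervalIntegrable (fun s' => |Real.log (s - s')|) volume 0 H := by
      have := AuxLx.int_sub (fun a b => (intervalIntegral.intervalIntegrable_log'
        (a := a) (b := b))) s 0 H
      exact this.abs
    have i1 : IntervalIntegrable (fun s' => C * (1 + |Real.log (s - s')|)) volume 0 H :=
      ((intervalIntegrable_const (μ := volume) (a := (0:ℝ)) (b := H) (c := (1:ℝ))).add i0).const_mul C
    exact (i1.add i1).const_mul B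
  · have hne : ∀ᵐ s' ∂(volume : Measure ℝ), s' ∉ ({s} : Set ℝ) :=
      measure_eq_zero_iff_ae_notMem.mp (by simp)
    filter_upwards [hne] with s' hs' hmem z _
    have hs : s - s' ≠ 0 := by
      intro h
      apply hs'
      rw [mem_singleton_iff]
      linarith
    exact (AuxLx.inner_deriv hσ m s s' z hs).const_mul (om m s')

end Pool.Agent.H682_VS
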