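import Pool.Agent.H682_VS.Stmts
import Pool.Agent.H682_VS.K1

/-! # bound -/

set_option autoImplicit false

open MeasureTheory Set Filter Topology

namespace Pool.Agent.H682_VS


namespace Auxbound

/-- integrable on `[0, π]` with integral at most `K` -/
def Bd (g : ℝ → ℝ) (K : ℝ) : Prop :=
  IntervalIntegrable g volume 0 Real.pi ∧ ∫ x in (0:ℝ)..Real.pi, g x ≤ K

theorem Bd.add {g g' : ℝ → ℝ} {K K' : ℝ} (h : Bd g K) (h' : Bd g' K') :
    Bd (fun x => g x + g' x) (K + K') :=
  ⟨h.1.add h'.1, by rw [intervalIntegral.integral_add h.1 h'.1]; exact add_le_add h.2 h'.2⟩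

theorem Bd.mul {g : ℝ → ℝ} {K : ℝ} (h : Bd g K) {c : ℝ} (hc : 0 ≤ c) :
    Bd (fun x => c * g x) (c * K) :=
  ⟨h.1.const_mul c, by
    rw [intervalIntegral.integral_const_mul]; exact mul_le_mul_of_nonneg_left h.2 hc⟩

theorem Bd.const (c : ℝ) : Bd (fun _ => c) (c * Real.pi) :=
  ⟨intervalIntegrable_const, by
    rw [intervalIntegral.integral_const, sub_zero, smul_eq_mul, mul_comm]⟩

theorem Bd.le {g : ℝ → ℝ} {K K' : ℝ} (h : Bd g K) (hK : K ≤ K') : Bd g K' :=
  ⟨h.1, h.2.trans hK⟩

theorem Bd.bound {f G : ℝ → ℝ} {B K : ℝ} (hB : 0 ≤ B) (h : Bd G K)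
    (hf : ∀ x, |f x| ≤ B * G x) : |∫ x in (0:ℝ)..Real.pi, f x| ≤ B * K := by
  have h1 := intervalIntegral.norm_integral_le_of_norm_le (μ := volume) (f := f)
    (g := fun x => B * G x) Real.pi_pos.le
    (Filter.Eventually.of_forall fun x _ => by rw [Real.norm_eq_abs]; exact hf x)
    (h.1.const_mul B)
  rw [Real.norm_eq_abs] at h1
  exact h1.trans (h.mul hB).2

theorem Bd.sub_left {f : ℝ → ℝ} {K : ℝ} (hi : ∀ a b, IntervalIntegrable f volume a b)
    (h : ∀ a, ∫ v in a..(a + Real.pi), |f v| ≤ K) (x : ℝ) : Bd (fun x' => |f (x - x')|) K := by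
  constructor
  · have h1 := (hi (x - 0) (x - Real.pi)).comp_sub_left x
    have h2 : IntervalIntegrable (fun x' => f (x - x')) volume 0 Real.pi := by
      simpa using h1
    exact h2.abs
  · rw [intervalIntegral.integral_comp_sub_left (fun v => |f v|) x]
    have h1 := h (x - Real.pi)
    simpa using h1

theorem Bd.add_left {f : ℝ → ℝ} {K : ℝ} (hi : ∀ a b, IntervalIntegrable f volume a b)
    (h : ∀ a, ∫ v in a..(a + Real.pi), |f v| ≤ K) (x : ℝ) : Bd (fun x' => |f (x + x')|) K := by
  constructor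
  · have h1 := (hi (x + 0) (x + Real.pi)).comp_add_left x
    have h2 : IntervalIntegrable (fun x' => f (x + x')) volume 0 Real.pi := by
      simpa using h1
    exact h2.abs
  · rw [intervalIntegral.integral_comp_add_left (fun v => |f v|) x]
    have h1 := h x
    simpa using h1

theorem Bd.self {f : ℝ → ℝ} {K : ℝ} (hi : ∀ a b, IntervalIntegrable f volume a b)
    (h : ∀ a, ∫ v in a..(a + Real.pi), |f v| ≤ K) : Bd (fun x' => |f x'|) K := by
  have h1 := Bd.add_left hi h 0
  simpa using h1

theorem q_pos {u : ℝ} (hu : u ≠ 0) (v : ℝ) : 0 < q u v := by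
  have h1 := Real.one_lt_cosh.2 hu
  have h2 := Real.cos_le_one v
  unfold q
  linarith

theorem h1_int {u : ℝ} (hu : u ≠ 0) (a b : ℝ) : IntervalIntegrable (h1 u) volume a b := by
  refine Continuous.intervalIntegrable ?_ a b
  unfold h1
  refine Continuous.div continuous_const ?_ fun v => (q_pos hu v).ne'
  unfold q
  fun_prop

theorem h2_int {u : ℝ} (hu : u ≠ 0) (a b : ℝ) : IntervalIntegrable (h2 u) volume a b := by
  refine Continuous.intervalIntegrable ?_ a b
  unfold h2
  refine Continuous.div (by fun_prop) ?_ fun v => (q_pos hu v).ne'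
  unfold q
  fun_prop

theorem abs_one_sub_exp (t : ℝ) : |1 - Real.exp (-t)| ≤ |t| * Real.exp |t| := by
  rcases le_total 0 t with h | h
  · have h1 := Real.add_one_le_exp (-t)
    have h2 : Real.exp (-t) ≤ 1 := Real.exp_le_one_iff.2 (by linarith)
    have h3 : 1 ≤ Real.exp |t| := Real.one_le_exp (abs_nonneg t)
    rw [abs_of_nonneg (by linarith)]
    rw [abs_of_nonneg h] at h3 ⊢
    nlinarith
  · have h1 := Real.add_one_le_exp t
    have h2 : 1 ≤ Real.exp (-t) := Real.one_le_exp (by linarith)
    have h3 : Real.exp t * Real.exp (-t) = 1 := by rw [← Real.exp_add]; simp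
    rw [abs_of_nonpos (by linarith), abs_of_nonpos h]
    have h4 : 0 < Real.exp (-t) := Real.exp_pos _
    nlinarith

theorem Am_bound {m s R : ℝ} (hm : 1 ≤ m) (hs : |s| ≤ R) : |Am m s| ≤ R * Real.exp (2 * R) := by
  have hm0 : 0 < m := by linarith
  have h1 := abs_one_sub_exp (2 * s / m)
  have h2 : |2 * s / m| ≤ 2 * R := by
    rw [abs_div, abs_of_pos hm0, abs_mul, abs_two, div_le_iff₀ hm0]
    have : 0 ≤ R := (abs_nonneg s).trans hs
    nlinarith
  have h3 : Real.exp |2 * s / m| ≤ Real.exp (2 * R) := Real.exp_le_exp.2 h2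
  have h4 : |2 * s / m| = 2 * |s| / m := by
    rw [abs_div, abs_of_pos hm0, abs_mul, abs_two]
  unfold Am
  rw [abs_mul, abs_of_pos (by positivity : 0 < m / 2)]
  calc m / 2 * |1 - Real.exp (-(2 * s / m))| ≤ m / 2 * (|2 * s / m| * Real.exp |2 * s / m|) :=
        mul_le_mul_of_nonneg_left h1 (by positivity)
    _ = |s| * Real.exp |2 * s / m| := by rw [h4]; field_simp
    _ ≤ R * Real.exp (2 * R) := mul_le_mul hs h3 (Real.exp_pos _).le ((abs_nonneg s).trans hs)

theorem om_bound {m s R : ℝ} (hm : 1 ≤ m) (hs : |s| ≤ R) : om m s ≤ Real.exp (2 * R) := by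
  have hm0 : 0 < m := by linarith
  unfold om
  apply Real.exp_le_exp.2
  have h1 : |2 * s / m| ≤ 2 * R := by
    rw [abs_div, abs_of_pos hm0, abs_mul, abs_two, div_le_iff₀ hm0]
    have : 0 ≤ R := (abs_nonneg s).trans hs
    nlinarith
  exact (neg_le_abs _).trans h1

theorem om_pos (m s : ℝ) : 0 < om m s := Real.exp_pos _

theorem om_le_one {m s : ℝ} (hm : 1 ≤ m) (hs : 0 ≤ s) : om m s ≤ 1 := by
  unfold om
  rw [Real.exp_le_one_iff, neg_nonpos]
  positivity

end Auxbound

/- TARGET, proof in plain words: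
Pure estimation.  B ≥ 0 because |σ| ≤ B.  For 0 < s' ≤ H (s' ≠ s where needed; null set otherwise), with u = s - s', |u| ≤ R + H:
|∫_0^π σ s' x' log q(u, x - x') dx'| ≤ B ∫_0^π |log q(u,x-x')| dx' = B ∫_{x-π}^{x} |log q(u,v)| dv ≤ B C (1+|u|) (t_K1 part 3; substitution
v = x - x', resp. v = x + x'); the same for log q(s',x') (take x = 0, or directly window [0,π]);
|∫_0^π σ s' x' h1 s' x'| ≤ B C (t_K1 part 1).  |Am m s| ≤ C(R) for |s| ≤ R, m ≥ 1:  0 ≤ ... |1 - exp(-(2 s/m))| ≤ (2|s|/m) exp(2|s|/m), so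
|Am m s| ≤ |s| exp(2|s|); 0 ≤ om m s' ≤ 1 for s' in [0,H], om m s ≤ exp(2R) for |s| ≤ R.  So the inner integrals in Lop and Ls are bounded by
C' B, hence |Lop|, |Ls| ≤ H C' B/(4π).  For Lx use t_K1 part 2: the inner integral is at most 2 B C (1 + |log|s-s'||), and
∫_0^H (1+|log|s-s'||) ds' ≤ H + ∫_{-(R+H)}^{R+H} |log|t|| dt =: C''.
Note: to bound |∫ f| by ∫ |f| use intervalIntegral.norm_integral_le_integral_norm / norm_integral_le_of_norm_le(_const);
no integrability of f is needed when f is dominated a.e. by an integrable function.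
(m ≥ 1, and C may depend on m, H, R.)
-/
theorem t_bound : S_bound := by
  intro m H R hm hH hR
  obtain ⟨C, hC1, hh1, hh2, hq, hqi⟩ := t_K1
  have hpi := Real.pi_pos
  have hpi3 := Real.pi_gt_three
  set A : ℝ := R * Real.exp (2 * R) with hA
  have hA0 : 0 ≤ A := by positivity
  set K1 : ℝ := C * (1 + (R + H)) + C * (1 + (R + H)) + 2 * (C * (1 + H)) +
    2 * A * (1 * Real.pi + C) + 2 * R * Real.pi with hK1
  set K2 : ℝ := C + C + 2 * Real.exp (2 * R) * (1 * Real.pi + C) + 2 * Real.pi with hK2
  set LL : ℝ := ∫ t in (-(R + H))..(R + H), |Real.log t| with hLL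
  have hLL0 : 0 ≤ LL := intervalIntegral.integral_nonneg (by linarith) fun _ _ => abs_nonneg _
  have hK10 : 0 ≤ K1 := by positivity
  have hK20 : 0 ≤ K2 := by positivity
  refine ⟨K1 * H + K2 * H + 2 * C * (H + LL) + 1, by positivity, ?_⟩
  intro B σ hσ s hs x
  have hB : 0 ≤ B := (abs_nonneg _).trans (hσ.bdd 0 0)
  have hsR : |s| ≤ R := abs_le.2 ⟨hs.1, hs.2⟩
  have hAm := Auxbound.Am_bound hm hsR
  have hom := Auxbound.om_bound hm hsR
  have hom0 := Auxbound.om_pos m s
  have h4pi : |1 / (4 * Real.pi)| ≤ 1 := by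
    rw [abs_of_pos (by positivity), div_le_one (by positivity)]
    linarith
  have hprod : ∀ I K : ℝ, |I| ≤ K → |1 / (4 * Real.pi) * I| ≤ K := by
    intro I K hI
    rw [abs_mul]
    calc |1 / (4 * Real.pi)| * |I| ≤ 1 * |I| := mul_le_mul_of_nonneg_right h4pi (abs_nonneg _)
      _ ≤ K := by rw [one_mul]; exact hI
  refine ⟨?_, ?_, ?_⟩
  · -- Lop
    have hinner : ∀ s' ∈ Set.uIoc 0 H, ‖om m s' * ∫ x' in (0:ℝ)..Real.pi, σ s' x' *
        ker m s x s' x'‖ ≤ B * K1 := by
      intro s' hs'
      rw [Set.uIoc_of_le hH.le] at hs'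
      have hs0 : s' ≠ 0 := hs'.1.ne'
      have hu : |s - s'| ≤ R + H := by
        refine (abs_sub _ _).trans (add_le_add hsR ?_)
        rw [abs_of_pos hs'.1]; exact hs'.2
      have b1 : Auxbound.Bd (fun x' => |Real.log (q (s - s') (x - x'))|) (C * (1 + (R + H))) :=
        (Auxbound.Bd.sub_left (hqi (s - s')) (fun a => hq (s - s') a) x).le
          (by gcongr)
      have b2 : Auxbound.Bd (fun x' => |Real.log (q (s - s') (x + x'))|) (C * (1 + (R + H))) :=
        (Auxbound.Bd.add_left (hqi (s - s')) (fun a => hq (s - s') a) x).le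
          (by gcongr)
      have b3 : Auxbound.Bd (fun x' => |Real.log (q s' x')|) (C * (1 + H)) :=
        (Auxbound.Bd.self (hqi s') (fun a => hq s' a)).le
          (by rw [abs_of_pos hs'.1]; have := hs'.2; gcongr)
      have b4 : Auxbound.Bd (fun x' => |h1 s' x'|) C :=
        Auxbound.Bd.self (Auxbound.h1_int hs0) (fun a => hh1 s' a hs0)
      have b5 := (((b1.add b2).add (b3.mul (by norm_num : (0:ℝ) ≤ 2))).add
        (((Auxbound.Bd.const 1).add b4).mul (by positivity : (0:ℝ) ≤ 2 * A))).add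
        (Auxbound.Bd.const (2 * R))
      have b6 := b5.bound (f := fun x' => σ s' x' * ker m s x s' x') hB (fun x' => by
        rw [abs_mul]
        refine mul_le_mul (hσ.bdd s' x') ?_ (abs_nonneg _) hB
        unfold ker
        have e1 : |Real.log (q (s - s') (x - x')) + Real.log (q (s - s') (x + x'))
            - 2 * Real.log (q s' x') + 2 * (Am m s * (1 + h1 s' x') - s)| ≤
            |Real.log (q (s - s') (x - x'))| + |Real.log (q (s - s') (x + x'))|
            + |2 * Real.log (q s' x')| + |2 * (Am m s * (1 + h1 s' x') - s)| := by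
          refine (abs_add_le _ _).trans (add_le_add ?_ le_rfl)
          refine (abs_sub _ _).trans (add_le_add ?_ le_rfl)
          exact abs_add_le _ _
        have e2 : |2 * (Am m s * (1 + h1 s' x') - s)| ≤ 2 * A * (1 + |h1 s' x'|) + 2 * R := by
          rw [abs_mul, abs_two]
          have e3 : |Am m s * (1 + h1 s' x') - s| ≤ A * (1 + |h1 s' x'|) + R := by
            refine (abs_sub _ _).trans (add_le_add ?_ hsR)
            rw [abs_mul]
            refine mul_le_mul hAm ?_ (abs_nonneg _) hA0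
            refine (abs_add_le _ _).trans ?_
            rw [abs_one]
          linarith
        rw [abs_mul, abs_two] at e1
        linarith)
      rw [norm_mul, Real.norm_eq_abs, Real.norm_eq_abs, abs_of_pos (Auxbound.om_pos m s')]
      have b7 := Auxbound.om_le_one hm hs'.1.le
      calc om m s' * |∫ x' in (0:ℝ)..Real.pi, σ s' x' * ker m s x s' x'|
          ≤ 1 * |∫ x' in (0:ℝ)..Real.pi, σ s' x' * ker m s x s' x'| :=
            mul_le_mul_of_nonneg_right b7 (abs_nonneg _)
        _ ≤ B * K1 := by rw [one_mul]; exact b6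
    have h3 := intervalIntegral.norm_integral_le_of_norm_le_const hinner
    rw [sub_zero, abs_of_pos hH, Real.norm_eq_abs] at h3
    unfold Lop
    refine (hprod _ _ h3).trans ?_
    have : 0 ≤ 2 * C * (H + LL) := by positivity
    have : 0 ≤ K2 * H := by positivity
    nlinarith
  · -- Lx
    have hint : IntervalIntegrable (fun s' => |Real.log (s - s')|) volume 0 H := by
      have h1 := (intervalIntegral.intervalIntegrable_log' (a := s - 0) (b := s - H)).comp_sub_left s
      have h2 : IntervalIntegrable (fun s' => Real.log (s - s')) volume 0 H := by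
        simpa using h1
      exact h2.abs
    have hinner : ∀ᵐ s' : ℝ, s' ∈ Set.Ioc 0 H → ‖om m s' * ∫ x' in (0:ℝ)..Real.pi, σ s' x' *
        (h2 (s - s') (x - x') + h2 (s - s') (x + x'))‖ ≤
        B * (2 * C) * (1 + |Real.log (s - s')|) := by
      have hne : ∀ᵐ s' : ℝ, s' ≠ s := by
        rw [ae_iff]
        simp
      filter_upwards [hne] with s' hss hs'
      have hu0 : s - s' ≠ 0 := sub_ne_zero.2 (Ne.symm hss)
      have b1 : Auxbound.Bd (fun x' => |h2 (s - s') (x - x')|)
          (C * (1 + abs (Real.log (abs (s - s'))))) :=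
        Auxbound.Bd.sub_left (Auxbound.h2_int hu0) (fun a => hh2 (s - s') a hu0) x
      have b2 : Auxbound.Bd (fun x' => |h2 (s - s') (x + x')|)
          (C * (1 + abs (Real.log (abs (s - s'))))) :=
        Auxbound.Bd.add_left (Auxbound.h2_int hu0) (fun a => hh2 (s - s') a hu0) x
      have b6 := (b1.add b2).bound (f := fun x' => σ s' x' *
        (h2 (s - s') (x - x') + h2 (s - s') (x + x'))) hB (fun x' => by
        rw [abs_mul]
        exact mul_le_mul (hσ.bdd s' x') (abs_add_le _ _) (abs_nonneg _) hB)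
      rw [norm_mul, Real.norm_eq_abs, Real.norm_eq_abs, abs_of_pos (Auxbound.om_pos m s')]
      have b7 := Auxbound.om_le_one hm hs'.1.le
      rw [Real.log_abs] at b6
      calc om m s' * |∫ x' in (0:ℝ)..Real.pi, σ s' x' *
            (h2 (s - s') (x - x') + h2 (s - s') (x + x'))|
          ≤ 1 * |∫ x' in (0:ℝ)..Real.pi, σ s' x' *
            (h2 (s - s') (x - x') + h2 (s - s') (x + x'))| :=
            mul_le_mul_of_nonneg_right b7 (abs_nonneg _)
        _ ≤ B * (2 * C) * (1 + |Real.log (s - s')|) := by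
            rw [one_mul]
            refine b6.trans (le_of_eq ?_)
            ring
    have h3 := intervalIntegral.norm_integral_le_of_norm_le hH.le hinner
      ((intervalIntegrable_const.add hint).const_mul (B * (2 * C)))
    rw [Real.norm_eq_abs] at h3
    have h4 : ∫ s' in (0:ℝ)..H, B * (2 * C) * (1 + |Real.log (s - s')|) ≤
        B * (2 * C) * (H + LL) := by
      rw [intervalIntegral.integral_const_mul]
      refine mul_le_mul_of_nonneg_left ?_ (by positivity)
      rw [intervalIntegral.integral_add intervalIntegrable_const hint]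
      refine add_le_add (by simp) ?_
      rw [intervalIntegral.integral_comp_sub_left (fun t => |Real.log t|) s]
      refine intervalIntegral.integral_mono_interval ?_ ?_ ?_ ?_ ?_
      · have := hs.1; linarith
      · linarith
      · have := hs.2; linarith
      · exact Filter.Eventually.of_forall fun _ => abs_nonneg _
      · exact intervalIntegral.intervalIntegrable_log'.abs
    unfold Lx
    refine (hprod _ _ (h3.trans h4)).trans ?_
    have : 0 ≤ K1 * H := by positivity
    have : 0 ≤ K2 * H := by positivity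
    nlinarith
  · -- Ls
    have hinner : ∀ᵐ s' : ℝ, s' ∈ Set.uIoc 0 H → ‖om m s' * ∫ x' in (0:ℝ)..Real.pi, σ s' x' *
        (h1 (s - s') (x - x') + h1 (s - s') (x + x')
      + 2 * om m s * (1 + h1 s' x') - 2)‖ ≤ B * K2 := by
      have hne : ∀ᵐ s' : ℝ, s' ≠ s := by
        rw [ae_iff]
        simp
      filter_upwards [hne] with s' hss hs'
      rw [Set.uIoc_of_le hH.le] at hs'
      have hs0 : s' ≠ 0 := hs'.1.ne'
      have hu0 : s - s' ≠ 0 := sub_ne_zero.2 (Ne.symm hss)
      have b1 : Auxbound.Bd (fun x' => |h1 (s - s') (x - x')|) C :=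
        Auxbound.Bd.sub_left (Auxbound.h1_int hu0) (fun a => hh1 (s - s') a hu0) x
      have b2 : Auxbound.Bd (fun x' => |h1 (s - s') (x + x')|) C :=
        Auxbound.Bd.add_left (Auxbound.h1_int hu0) (fun a => hh1 (s - s') a hu0) x
      have b4 : Auxbound.Bd (fun x' => |h1 s' x'|) C :=
        Auxbound.Bd.self (Auxbound.h1_int hs0) (fun a => hh1 s' a hs0)
      have b5 := ((b1.add b2).add
        (((Auxbound.Bd.const 1).add b4).mul
          (by positivity : (0:ℝ) ≤ 2 * Real.exp (2 * R)))).add (Auxbound.Bd.const 2)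
      have b6 := b5.bound (f := fun x' => σ s' x' *
        (h1 (s - s') (x - x') + h1 (s - s') (x + x')
      + 2 * om m s * (1 + h1 s' x') - 2)) hB (fun x' => by
        rw [abs_mul]
        refine mul_le_mul (hσ.bdd s' x') ?_ (abs_nonneg _) hB
        refine (abs_sub _ _).trans (add_le_add ?_ (by rw [abs_two]))
        refine (abs_add_le _ _).trans (add_le_add (abs_add_le _ _) ?_)
        rw [abs_mul]
        refine mul_le_mul ?_ ?_ (abs_nonneg _) (by positivity)
        · rw [abs_of_pos (by positivity)]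
          linarith
        · refine (abs_add_le _ _).trans ?_
          rw [abs_one])
      rw [norm_mul, Real.norm_eq_abs, Real.norm_eq_abs, abs_of_pos (Auxbound.om_pos m s')]
      have b7 := Auxbound.om_le_one hm hs'.1.le
      calc om m s' * |∫ x' in (0:ℝ)..Real.pi, σ s' x' *
            (h1 (s - s') (x - x') + h1 (s - s') (x + x')
              + 2 * om m s * (1 + h1 s' x') - 2)|
          ≤ 1 * |∫ x' in (0:ℝ)..Real.pi, σ s' x' *
            (h1 (s - s') (x - x') + h1 (s - s') (x + x')
              + 2 * om m s * (1 + h1 s' x') - 2)| :=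
            mul_le_mul_of_nonneg_right b7 (abs_nonneg _)
        _ ≤ B * K2 := by rw [one_mul]; exact b6
    have h3 := intervalIntegral.norm_integral_le_of_norm_le_const_ae hinner
    rw [sub_zero, abs_of_pos hH, Real.norm_eq_abs] at h3
    unfold Ls
    refine (hprod _ _ h3).trans ?_
    have : 0 ≤ 2 * C * (H + LL) := by positivity
    have : 0 ≤ K1 * H := by positivity
    nlinarith

end Pool.Agent.H682_VS
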