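import Pool.Agent.H682_VS.Stmts
import Pool.Agent.H682_VS.T_Lx
import Pool.Agent.H682_VS.T_Ls
import Pool.Agent.H682_VS.T_bound

/-! # cont -/

set_option autoImplicit false

open MeasureTheory Set Filter Topology

namespace Pool.Agent.H682_VS


namespace Auxcont

theorem lipx {m H B : ℝ} {σ : ℝ → ℝ → ℝ} {C : ℝ} (hm : 1 ≤ m) (hH : 0 < H) (hσ : Dat B σ) (s : ℝ)
    (hb : ∀ x : ℝ, |Lx m H σ s x| ≤ C * B) (x x0 : ℝ) :
    |Lop m H σ s x - Lop m H σ s x0| ≤ C * B * |x - x0| := by
  have := Convex.norm_image_sub_le_of_norm_hasDerivWithin_le (f := fun y => Lop m H σ s y)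
    (f' := fun y => Lx m H σ s y) (C := C * B) (s := Set.univ) (x := x0) (y := x)
    (fun y _ => (t_Lx m H B σ hm hH hσ s y).hasDerivWithinAt) (fun y _ => by
      rw [Real.norm_eq_abs]; exact hb y) convex_univ (Set.mem_univ _) (Set.mem_univ _)
  simpa [Real.norm_eq_abs] using this

theorem lips {m H B : ℝ} {σ : ℝ → ℝ → ℝ} {C R : ℝ} (hm : 1 ≤ m) (hH : 0 < H) (hσ : Dat B σ) (x : ℝ)
    (hb : ∀ s ∈ Icc (-R) R, |Ls m H σ s x| ≤ C * B) {s s0 : ℝ} (hs : s ∈ Icc (-R) R) (hs0 : s0 ∈ Icc (-R) R) :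
    |Lop m H σ s x - Lop m H σ s0 x| ≤ C * B * |s - s0| := by
  have := Convex.norm_image_sub_le_of_norm_hasDerivWithin_le (f := fun y => Lop m H σ y x)
    (f' := fun y => Ls m H σ y x) (C := C * B) (s := Icc (-R) R) (x := s0) (y := s)
    (fun y _ => (t_Ls m H B σ hm hH hσ y x).hasDerivWithinAt) (fun y hy => by
      rw [Real.norm_eq_abs]; exact hb y hy) (convex_Icc _ _) hs0 hs
  simpa [Real.norm_eq_abs] using this

theorem contLop {m H B : ℝ} {σ : ℝ → ℝ → ℝ} (hm : 1 ≤ m) (hH : 0 < H) (hσ : Dat B σ) :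
    Continuous (Function.uncurry (Lop m H σ)) := by
  rw [continuous_iff_continuousAt]
  rintro ⟨s0, x0⟩
  have hR : 0 < |s0| + 1 := by positivity
  obtain ⟨C, hC, hb⟩ := t_bound m H (|s0| + 1) hm hH hR
  have hs0 : s0 ∈ Icc (-(|s0| + 1)) (|s0| + 1) := by
    constructor
    · linarith [neg_abs_le s0]
    · linarith [le_abs_self s0]
  rw [ContinuousAt, tendsto_iff_norm_sub_tendsto_zero]
  have hlim : Tendsto (fun p : ℝ × ℝ => C * B * |p.2 - x0| + C * B * |p.1 - s0|) (𝓝 (s0, x0)) (𝓝 0) := by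
    have : Continuous (fun p : ℝ × ℝ => C * B * |p.2 - x0| + C * B * |p.1 - s0|) := by fun_prop
    simpa using this.tendsto (s0, x0)
  refine squeeze_zero' (Eventually.of_forall fun _ => norm_nonneg _) ?_ hlim
  have hev : ∀ᶠ p : ℝ × ℝ in 𝓝 (s0, x0), |p.1 - s0| < 1 := by
    have hc : Continuous (fun p : ℝ × ℝ => |p.1 - s0|) := by fun_prop
    have := (hc.tendsto (s0, x0)).eventually (gt_mem_nhds (show |(s0, x0).1 - s0| < 1 by simp))
    exact this
  filter_upwards [hev] with p hp
  have hps : p.1 ∈ Icc (-(|s0| + 1)) (|s0| + 1) := by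
    have h1 := abs_lt.1 hp
    constructor
    · linarith [neg_abs_le s0, h1.1]
    · linarith [le_abs_self s0, h1.2]
  have e1 := lipx hm hH hσ p.1 (fun x => (hb B σ hσ p.1 hps x).2.1) p.2 x0
  have e2 := lips hm hH hσ x0 (fun s hs => (hb B σ hσ s hs x0).2.2) hps hs0
  rw [Real.norm_eq_abs]
  calc |Function.uncurry (Lop m H σ) p - Function.uncurry (Lop m H σ) (s0, x0)|
      = |(Lop m H σ p.1 p.2 - Lop m H σ p.1 x0) + (Lop m H σ p.1 x0 - Lop m H σ s0 x0)| := by
        simp only [Function.uncurry]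
        congr 1
        ring
    _ ≤ _ := (abs_add_le _ _).trans (add_le_add e1 e2)

end Auxcont

/- TARGET, proof in plain words:
Continuity of Lop: on |s| < R the partial derivatives Lx, Ls are bounded by C B (t_bound), so
|Lop s x - Lop s0 x0| ≤ |Lop s x - Lop s x0| + |Lop s x0 - Lop s0 x0| ≤ C B (|x-x0| + |s-s0|) (mean value inequality, e.g.
Convex.norm_image_sub_le_of_norm_hasDerivWithin_le), hence continuity at (s0,x0).
Measurability: Lx m H σ s x = deriv (fun y => Lop m H σ s y) x, and Mathlib has `measurable_deriv_with_param` for a jointly continuous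
family (Mathlib/Analysis/Calculus/FDeriv/Measurable.lean): if Function.uncurry f is continuous then p ↦ deriv (f p.1) p.2 is measurable.
For Ls apply it to f x s = Lop s x and swap.
-/
theorem t_cont : S_cont := by
  intro m H B σ hm hH hσ
  have hc := Auxcont.contLop hm hH hσ
  refine ⟨hc, ?_, ?_⟩
  · have h1 := measurable_deriv_with_param hc
    have h2 : (fun p : ℝ × ℝ => deriv (Lop m H σ p.1) p.2) = Function.uncurry (Lx m H σ) := by
      funext p
      exact (t_Lx m H B σ hm hH hσ p.1 p.2).deriv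
    rwa [h2] at h1
  · have h0 : Function.uncurry (fun x s : ℝ => Lop m H σ s x) = Function.uncurry (Lop m H σ) ∘ Prod.swap := by
      funext p
      rcases p with ⟨a, b⟩
      simp only [Function.uncurry_apply_pair, Function.comp_apply, Prod.swap_prod_mk]
    have hc' : Continuous (Function.uncurry (fun x s : ℝ => Lop m H σ s x)) := by
      rw [h0]
      exact hc.comp continuous_swap
    have h1 := measurable_deriv_with_param hc'
    have h2 : Function.uncurry (Ls m H σ) =
        (fun p : ℝ × ℝ => deriv ((fun x s : ℝ => Lop m H σ s x) p.1) p.2) ∘ Prod.swap := by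
      funext p
      rcases p with ⟨a, b⟩
      simp only [Function.uncurry_apply_pair, Function.comp_apply, Prod.swap_prod_mk]
      exact (t_Ls m H B σ hm hH hσ a b).deriv.symm
    rw [h2]
    exact h1.comp measurable_swap

end Pool.Agent.H682_VS
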