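import Pool.Agent.H682_VS.Stmts

/-! # ibp -/

set_option autoImplicit false

open MeasureTheory Set Filter Topology

namespace Pool.Agent.H682_VS


namespace Auxibp

theorem q_pos {u : ℝ} (hu : u ≠ 0) (v : ℝ) : 0 < q u v := by
  unfold q
  have h1 := Real.one_lt_cosh.mpr hu
  have h2 := Real.cos_le_one v
  linarith

theorem q_cont (u : ℝ) : Continuous (q u) := by
  unfold q; fun_prop

theorem h2_cont {u : ℝ} (hu : u ≠ 0) : Continuous (h2 u) := by
  unfold h2
  exact Real.continuous_sin.div (q_cont u) fun v => (q_pos hu v).ne'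

theorem q_deriv (u v : ℝ) : HasDerivAt (q u) (Real.sin v) v := by
  have h := (Real.hasDerivAt_cos v).const_sub (Real.cosh u)
  rw [neg_neg] at h
  exact h

/-- the primitive -/
noncomputable def La (u x y : ℝ) : ℝ := Real.log (q u (x + y)) - Real.log (q u (x - y))

theorem La_deriv {u : ℝ} (hu : u ≠ 0) (x y : ℝ) :
    HasDerivAt (La u x) (h2 u (x - y) + h2 u (x + y)) y := by
  unfold La
  have e1 : HasDerivAt (fun y => q u (x + y)) (Real.sin (x + y) * 1) y :=
    HasDerivAt.comp (h₂ := q u) (h := fun y => x + y) y (q_deriv u (x + y)) ((hasDerivAt_id y).const_add x)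
  have e2 : HasDerivAt (fun y => q u (x - y)) (Real.sin (x - y) * (-1)) y :=
    HasDerivAt.comp (h₂ := q u) (h := fun y => x - y) y (q_deriv u (x - y)) ((hasDerivAt_id y).const_sub x)
  have l1 := e1.log (q_pos hu _).ne'
  have l2 := e2.log (q_pos hu _).ne'
  have := l1.sub l2
  have e : h2 u (x - y) + h2 u (x + y) = Real.sin (x + y) * 1 / q u (x + y) - Real.sin (x - y) * (-1) / q u (x - y) := by
    unfold h2; ring
  rw [e]
  exact this

theorem La_eq {u : ℝ} (hu : u ≠ 0) (x y : ℝ) : Real.log (q u (x + y) / q u (x - y)) = La u x y := by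
  unfold La
  rw [Real.log_div (q_pos hu _).ne' (q_pos hu _).ne']

theorem La_zero (u x : ℝ) : La u x 0 = 0 := by unfold La; simp

theorem La_pi (u x : ℝ) : La u x Real.pi = 0 := by
  unfold La q
  rw [Real.cos_add_pi, Real.cos_sub_pi]; simp

theorem inner_eq {u : ℝ} (hu : u ≠ 0) (x C : ℝ) (f f' : ℝ → ℝ) (hm : Measurable f')
    (hb : ∀ y ∈ Icc (0:ℝ) Real.pi, |f' y| ≤ C) (hd : ∀ y ∈ Icc (0:ℝ) Real.pi, HasDerivAt f (f' y) y) :
    ∫ y in (0:ℝ)..Real.pi, f y * (h2 u (x - y) + h2 u (x + y))
      = -∫ y in (0:ℝ)..Real.pi, f' y * Real.log (q u (x + y) / q u (x - y)) := by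
  have hpi := Real.pi_pos.le
  have i1 : IntervalIntegrable f' volume 0 Real.pi := by
    rw [intervalIntegrable_iff_integrableOn_Ioc_of_le hpi]
    refine Measure.integrableOn_of_bounded (M := C) (by simp) hm.aestronglyMeasurable ?_
    refine (ae_restrict_mem measurableSet_Ioc).mono fun y hy => ?_
    exact hb y (Ioc_subset_Icc_self hy)
  have i2 : IntervalIntegrable (fun y => h2 u (x - y) + h2 u (x + y)) volume 0 Real.pi := by
    refine Continuous.intervalIntegrable ?_ _ _
    have := h2_cont hu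
    fun_prop
  have key := intervalIntegral.integral_mul_deriv_eq_deriv_mul (a := 0) (b := Real.pi) (u := f) (v := La u x)
    (u' := f') (v' := fun y => h2 u (x - y) + h2 u (x + y))
    (fun y hy => hd y (by rwa [uIcc_of_le hpi] at hy)) (fun y _ => La_deriv hu x y) i1 i2
  rw [key, La_zero, La_pi]
  simp only [mul_zero, sub_zero, zero_sub]
  congr 1
  refine intervalIntegral.integral_congr fun y _ => ?_
  simp only [La_eq hu]

end Auxibp

/- TARGET, proof in plain words:
For s' ≠ s (u = s - s' ≠ 0, q u > 0, everything smooth) integrate by parts in x':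
∫_0^π σ(s',x') [h2(u,x-x') + h2(u,x+x')] dx' = [σ Λ]_0^π - ∫_0^π σx(s',x') Λ(x') dx',
Λ(x') = log q(u,x+x') - log q(u,x-x') = log (q(u,x+x')/q(u,x-x')), Λ(0) = Λ(π) = 0, Λ' = h2(u,x+x') + h2(u,x-x').
(intervalIntegral.integral_mul_deriv_eq_deriv_mul; σx s' is bounded measurable on [0,π], hence interval integrable; 0 ≤ s' ≤ H.)
So the inner integrals agree up to sign for a.e. s' in (0,H); conclude with intervalIntegral.integral_congr_ae and integral_neg.
-/
theorem t_ibp : S_ibp := by
  intro m H C σ σx _ hH _ hσx hb hd s x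
  unfold Lx
  rw [← mul_neg, ← intervalIntegral.integral_neg]
  congr 1
  refine intervalIntegral.integral_congr_ae ?_
  have h1 : ∀ᵐ s' : ℝ, s' ≠ s := by
    rw [ae_iff]; simp
  filter_upwards [h1] with s' hs' hmem
  rw [uIoc_of_le hH.le] at hmem
  have hmem' : s' ∈ Icc (0:ℝ) H := Ioc_subset_Icc_self hmem
  have hu : s - s' ≠ 0 := sub_ne_zero.mpr hs'.symm
  rw [Auxibp.inner_eq hu x C (σ s') (σx s') (hσx.comp measurable_prodMk_left) (hb s' hmem') (hd s' hmem')]
  ring

end Pool.Agent.H682_VS
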