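import Pool.Agent.H682_VS.Stmts

/-! # mono -/

set_option autoImplicit false

open MeasureTheory Set Filter Topology

namespace Pool.Agent.H682_VS


namespace Auxmono

/-- The kernel of `Lx`. -/
noncomputable def kk (u x y : ℝ) : ℝ := h2 u (x - y) + h2 u (x + y)

lemma q_pos {u : ℝ} (hu : u ≠ 0) (v : ℝ) : 0 < q u v := by
  unfold q
  have h1 : 1 < Real.cosh u := Real.one_lt_cosh.2 hu
  have h2 := Real.cos_le_one v
  linarith

lemma cont_q (u : ℝ) : Continuous (fun v => q u v) := by
  unfold q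
  exact continuous_const.sub Real.continuous_cos

lemma cont_h2 {u : ℝ} (hu : u ≠ 0) : Continuous (fun v => h2 u v) := by
  unfold h2
  exact Real.continuous_sin.div (cont_q u) (fun v => (q_pos hu v).ne')

lemma cont_kk {u : ℝ} (hu : u ≠ 0) (x : ℝ) : Continuous (fun y => kk u x y) := by
  unfold kk
  exact ((cont_h2 hu).comp (continuous_const.sub continuous_id)).add
    ((cont_h2 hu).comp (continuous_const.add continuous_id))

lemma deriv_log_q {u : ℝ} (hu : u ≠ 0) (v : ℝ) :
    HasDerivAt (fun v => Real.log (q u v)) (h2 u v) v := by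
  have h1 : HasDerivAt (fun v => q u v) (Real.sin v) v := by
    unfold q
    have := (Real.hasDerivAt_cos v).const_sub (Real.cosh u)
    simpa using this
  have h3 := h1.log (q_pos hu v).ne'
  exact h3

lemma int_kk {u : ℝ} (hu : u ≠ 0) (x : ℝ) : ∫ y in (0:ℝ)..Real.pi, kk u x y = 0 := by
  have hder : ∀ y ∈ Set.uIcc (0:ℝ) Real.pi,
      HasDerivAt (fun y => Real.log (q u (x + y)) - Real.log (q u (x - y))) (kk u x y) y := by
    intro y _
    have h1 := (deriv_log_q hu (x + y)).comp y ((hasDerivAt_id y).const_add x)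
    have h3 := (deriv_log_q hu (x - y)).comp y ((hasDerivAt_id y).const_sub x)
    have h4 := h1.sub h3
    refine h4.congr_deriv ?_
    unfold kk
    ring
  rw [intervalIntegral.integral_eq_sub_of_hasDerivAt hder
    ((cont_kk hu x).intervalIntegrable _ _)]
  have e1 : q u (x + Real.pi) = q u (x - Real.pi) := by
    unfold q
    rw [Real.cos_add_pi, Real.cos_sub_pi]
  simp only [e1, add_zero, sub_zero, sub_self]

lemma kk_eq {u : ℝ} (hu : u ≠ 0) (x y : ℝ) :
    kk u x y = 2 * Real.sin x * (Real.cosh u * Real.cos y - Real.cos x)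
      / (q u (x - y) * q u (x + y)) := by
  have h1 := (q_pos hu (x - y)).ne'
  have h3 := (q_pos hu (x + y)).ne'
  unfold kk h2
  rw [div_add_div _ _ h1 h3]
  congr 1
  unfold q
  rw [Real.sin_sub, Real.sin_add, Real.cos_add, Real.cos_sub]
  have e1 := Real.sin_sq_add_cos_sq y
  linear_combination (-(2 * Real.sin x * Real.cos x)) * e1

lemma inner_nonpos {u : ℝ} (hu : u ≠ 0) (f : ℝ → ℝ) (hf : Measurable f) (B : ℝ)
    (hB : ∀ y, |f y| ≤ B) (hmono : MonotoneOn f (Icc 0 Real.pi)) (x : ℝ)
    (hx : x ∈ Icc (0:ℝ) Real.pi) :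
    ∫ y in (0:ℝ)..Real.pi, f y * kk u x y ≤ 0 := by
  have hc : 1 < Real.cosh u := Real.one_lt_cosh.2 hu
  have hc0 : 0 < Real.cosh u := by linarith
  set z : ℝ := Real.arccos (Real.cos x / Real.cosh u) with hz
  have hz0 : 0 ≤ z := Real.arccos_nonneg _
  have hzpi : z ≤ Real.pi := Real.arccos_le_pi _
  have hcosz : Real.cosh u * Real.cos z = Real.cos x := by
    rw [hz, Real.cos_arccos]
    · field_simp
    · rw [le_div_iff₀ hc0]
      have := Real.neg_one_le_cos x
      linarith
    · rw [div_le_iff₀ hc0]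
      have := Real.cos_le_one x
      linarith
  have hsin : 0 ≤ Real.sin x := Real.sin_nonneg_of_nonneg_of_le_pi hx.1 hx.2
  have hzmem : z ∈ Icc (0:ℝ) Real.pi := ⟨hz0, hzpi⟩
  have hpt : ∀ y ∈ Icc (0:ℝ) Real.pi, f y * kk u x y ≤ f z * kk u x y := by
    intro y hy
    have hden : 0 < q u (x - y) * q u (x + y) := mul_pos (q_pos hu _) (q_pos hu _)
    rcases le_total y z with hyz | hyz
    · have hcos : Real.cos z ≤ Real.cos y := Real.strictAntiOn_cos.antitoneOn hy hzmem hyz
      have hk : 0 ≤ kk u x y := by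
        rw [kk_eq hu]
        refine div_nonneg (mul_nonneg (by linarith) ?_) hden.le
        rw [← hcosz]
        have := mul_le_mul_of_nonneg_left hcos hc0.le
        linarith
      exact mul_le_mul_of_nonneg_right (hmono hy hzmem hyz) hk
    · have hcos : Real.cos y ≤ Real.cos z := Real.strictAntiOn_cos.antitoneOn hzmem hy hyz
      have hk : kk u x y ≤ 0 := by
        rw [kk_eq hu]
        refine div_nonpos_of_nonpos_of_nonneg (mul_nonpos_of_nonneg_of_nonpos (by linarith) ?_)
          hden.le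
        rw [← hcosz]
        have := mul_le_mul_of_nonneg_left hcos hc0.le
        linarith
      exact mul_le_mul_of_nonpos_right (hmono hzmem hy hyz) hk
  have hfi : IntervalIntegrable f volume 0 Real.pi := by
    rw [intervalIntegrable_iff]
    refine Measure.integrableOn_of_bounded (M := B) ?_ hf.aestronglyMeasurable ?_
    · rw [Set.uIoc_of_le Real.pi_pos.le]
      exact measure_Ioc_lt_top.ne
    · exact Filter.Eventually.of_forall (fun y => by
        rw [Real.norm_eq_abs]
        exact hB y)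
  have h1 : IntervalIntegrable (fun y => f y * kk u x y) volume 0 Real.pi :=
    hfi.mul_continuousOn (cont_kk hu x).continuousOn
  have h2 : IntervalIntegrable (fun y => f z * kk u x y) volume 0 Real.pi :=
    ((cont_kk hu x).intervalIntegrable _ _).const_mul _
  refine (intervalIntegral.integral_mono_on Real.pi_pos.le h1 h2 hpt).trans ?_
  rw [intervalIntegral.integral_const_mul, int_kk hu, mul_zero]

end Auxmono

/- TARGET, proof in plain words:
Lx = (1/4π) ∫_0^H om(s') I(s') ds', I(s') = ∫_0^π σ(s',x') k(x') dx', k(x') = h2(u,x-x') + h2(u,x+x'), u = s - s'.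
Show I(s') ≤ 0 for s' in (0,H), s' ≠ s (the rest is a null set, om > 0; if the outer integrand is not integrable the integral is 0).
u ≠ 0, c = cosh u > 1.  k(x') = Λ'(x') with Λ(x') = log q(u,x+x') - log q(u,x-x'), Λ(0) = 0 = Λ(π) (cos(x+π) = cos(x-π)), so ∫_0^π k = 0.
k(x') = 2 sin x (c cos x' - cos x) / (q(u,x-x') q(u,x+x'))  [sin(x+x')(c-cos(x-x')) + sin(x-x')(c-cos(x+x')) = 2c sin x cos x' - sin 2x].
As x in [0,π], sin x ≥ 0, and x' ↦ c cos x' - cos x is decreasing on [0,π], ≥ 0 at 0 and ≤ 0 at π: there is x* in [0,π] with k ≥ 0 on [0,x*] and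
k ≤ 0 on [x*,π].  Since σ(s',·) is monotone on [0,π], (σ(s',x') - σ(s',x*)) k(x') ≤ 0 for all x' in [0,π]; integrate:
I(s') = ∫ (σ(s',x') - σ(s',x*)) k(x') dx' + σ(s',x*) ∫_0^π k ≤ 0.  (k is continuous, σ bounded measurable.)
-/
theorem t_mono : S_mono := by
  intro m H B σ _ hH hσ hmono s x hx
  unfold Lx
  refine mul_nonpos_of_nonneg_of_nonpos (by positivity) ?_
  rw [intervalIntegral.integral_of_le hH.le]
  refine integral_nonpos_of_ae ?_
  have h1 : ∀ᵐ s' : ℝ, s' ≠ s := by
    have : (volume : Measure ℝ) {s} = 0 := Real.volume_singleton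
    rw [MeasureTheory.ae_iff]
    simpa using this
  have h2 : ∀ᵐ s' : ℝ, s' ≠ H := by
    have : (volume : Measure ℝ) {H} = 0 := Real.volume_singleton
    rw [MeasureTheory.ae_iff]
    simpa using this
  filter_upwards [ae_restrict_mem (μ := (volume : Measure ℝ)) (measurableSet_Ioc (a := (0:ℝ)) (b := H)),
    ae_restrict_of_ae h1, ae_restrict_of_ae h2] with s' hs' hne hneH
  have hmem : s' ∈ Ioo (0:ℝ) H := ⟨hs'.1, lt_of_le_of_ne hs'.2 hneH⟩
  have hu : s - s' ≠ 0 := fun h => hne (by linarith)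
  have h3 := Auxmono.inner_nonpos hu (σ s') (hσ.meas.comp (measurable_const.prodMk measurable_id))
    B (fun y => hσ.bdd s' y) (hmono s' hmem) x hx
  have h4 : 0 ≤ om m s' := (Real.exp_pos _).le
  exact mul_nonpos_of_nonneg_of_nonpos h4 h3

end Pool.Agent.H682_VS
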