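import Pool.Agent.H682_VS.Bet
import Pool.Agent.H682_VS.T_Lx
import Pool.Agent.H682_VS.T_Ls
import Pool.Agent.H682_VS.T_bound
import Pool.Agent.H682_VS.T_cont
import Pool.Agent.H682_VS.Sym
import Pool.Agent.H682_VS.T_mono
import Pool.Agent.H682_VS.T_ibp

/-! # sol -/

set_option autoImplicit false

open MeasureTheory Set Filter Topology

namespace Pool.Agent.H682_VS


/- TARGET, proof in plain words:
A list of simple facts on a solution σ = 1 - bet(Fe/ε):
Dat 1 σ and 0 ≤ σ (continuity; bet in [0,1]);  ∂_x Fe = Lx - ε e^{-s} sin x = -We, ∂_s Fe = Ls + ε(-(e^{-s} cos x) + om m s) = Fs (t_Lx, t_Ls; Am' = om);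
∂_x σ = -dbet(Fe/ε)/ε * ∂_x Fe = sx (bet_hasDerivAt, chain rule);  measurability from t_cont (Lx, Ls measurable) and continuity of Fe;
bounds on 0 ≤ s ≤ H, all x: t_bound with R = H (Icc 0 H ⊆ Icc (-H) H), B = 1; |dbet| ≤ 3/2;
σ(s',·) is monotone on [0,π] for s' in [0,H] because Fe is antitone there and bet is monotone, so t_mono gives Lx ≤ 0 on [0,π] for every s, i.e.
We ≥ ε e^{-s} sin x; then sx = dbet/ε * We ≥ 0 (sin ≥ 0 on [0,π]);
Fe(0,0) = 0: Lop(0,0) = 0 by t_sym, hf m 0 0 = 1 - 1 + Am m 0 = 0;  continuity of Fe from t_cont;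
Fe(0,x) ≤ Fe(0,0) = 0 on [0,π] from Sol.anti at s = 0;
last item: t_ibp with σx = sx (bounded on [0,H]×[0,π] by the constant above): We = -Lx + ε e^{-s} sin x.
-/
theorem t_sol : S_sol := by
  intro m H ε σ hm hH hε hε1 hS
  have hm0 : (0:ℝ) < m := by linarith
  have hD : Dat 1 σ := by
    refine ⟨hS.cont.measurable, fun s x => ?_⟩
    rw [hS.eq s x, abs_le]
    constructor
    · linarith [bet_le_one (Fe m H ε σ s x / ε)]
    · linarith [bet_nonneg (Fe m H ε σ s x / ε)]
  have hσ0 : ∀ s x, 0 ≤ σ s x := by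
    intro s x
    rw [hS.eq s x]
    linarith [bet_le_one (Fe m H ε σ s x / ε)]
  have hx : ∀ s x, HasDerivAt (fun y => Fe m H ε σ s y) (-We m H ε σ s x) x := by
    intro s x
    have e1 := t_Lx m H 1 σ hm hH hD s x
    have e2 : HasDerivAt (fun y => hf m s y) (Real.exp (-s) * (-Real.sin x)) x := by
      unfold hf
      exact (((Real.hasDerivAt_cos x).const_mul (Real.exp (-s))).sub_const 1).add_const (Am m s)
    have e3 := e1.add (e2.const_mul ε)
    have e4 : -We m H ε σ s x = Lx m H σ s x + ε * (Real.exp (-s) * (-Real.sin x)) := by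
      unfold We
      ring
    rw [e4]
    exact e3
  have hs : ∀ s x, HasDerivAt (fun y => Fe m H ε σ y x) (Fs m H ε σ s x) s := by
    intro s x
    have e1 := t_Ls m H 1 σ hm hH hD s x
    have e0 : HasDerivAt (fun y : ℝ => Real.exp (-y)) (-Real.exp (-s)) s := by
      have := (hasDerivAt_neg s).exp
      simpa using this
    have e00 : HasDerivAt (fun y : ℝ => Am m y) (om m s) s := by
      unfold Am
      have h1 : HasDerivAt (fun y : ℝ => -(2 * y / m)) (-(2 / m)) s := by
        have h0 : HasDerivAt (fun y : ℝ => 2 * y / m) (2 / m) s := by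
          have := ((hasDerivAt_id s).const_mul 2).div_const m
          simpa using this
        exact h0.neg
      have h2 := (h1.exp.const_sub 1).const_mul (m / 2)
      have h3 : m / 2 * -(Real.exp (-(2 * s / m)) * -(2 / m)) = om m s := by
        unfold om
        field_simp
      rw [h3] at h2
      exact h2
    have e2 : HasDerivAt (fun y => hf m y x) (-(Real.exp (-s) * Real.cos x) + om m s) s := by
      unfold hf
      have h1 := ((e0.mul_const (Real.cos x)).sub_const 1).add e00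
      have h2 : -Real.exp (-s) * Real.cos x + om m s = -(Real.exp (-s) * Real.cos x) + om m s := by
        ring
      rw [h2] at h1
      exact h1
    exact e1.add (e2.const_mul ε)
  have hσx : ∀ s x, HasDerivAt (σ s) (sx m H ε σ s x) x := by
    intro s x
    have e1 := (hx s x).div_const ε
    have e2 := ((bet_hasDerivAt (Fe m H ε σ s x / ε)).comp x e1).const_sub 1
    have e3 : -(dbet (Fe m H ε σ s x / ε) * (-We m H ε σ s x / ε)) = sx m H ε σ s x := by
      unfold sx
      ring
    rw [e3] at e2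
    have e4 : σ s = fun y => 1 - (bet ∘ fun y => Fe m H ε σ s y / ε) y := by
      funext y
      exact hS.eq s y
    rw [e4]
    exact e2
  obtain ⟨hc, hmx, hms⟩ := t_cont m H 1 σ hm hH hD
  have hFc : Continuous (Function.uncurry (Fe m H ε σ)) := by
    have h2 : Continuous (fun p : ℝ × ℝ => ε * hf m p.1 p.2) := by
      unfold hf Am
      fun_prop
    exact hc.add h2
  have hWm : Measurable (Function.uncurry (We m H ε σ)) := by
    have h2 : Continuous (fun p : ℝ × ℝ => ε * (Real.exp (-p.1) * Real.sin p.2)) := by fun_prop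
    exact hmx.neg.add h2.measurable
  have hFm : Measurable (Function.uncurry (Fs m H ε σ)) := by
    have h2 : Continuous (fun p : ℝ × ℝ => ε * (-(Real.exp (-p.1) * Real.cos p.2) + om m p.1)) := by
      unfold om
      fun_prop
    exact hms.add h2.measurable
  have hsm : Measurable (Function.uncurry (sx m H ε σ)) := by
    have h1 : Continuous (fun p : ℝ × ℝ => dbet (Fe m H ε σ p.1 p.2 / ε) / ε) :=
      (dbet_continuous.comp (hFc.div_const ε)).div_const ε
    exact h1.measurable.mul hWm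
  have hbd : ∃ C, ∀ s ∈ Icc (0:ℝ) H, ∀ x, |We m H ε σ s x| ≤ C ∧ |Fs m H ε σ s x| ≤ C ∧
      |sx m H ε σ s x| ≤ C := by
    obtain ⟨C, hC0, hC⟩ := t_bound m H H hm hH hH
    have hW : ∀ s ∈ Icc (0:ℝ) H, ∀ x, |We m H ε σ s x| ≤ C + 1 := by
      intro s hs' x
      obtain ⟨-, b2, -⟩ := hC 1 σ hD s ⟨by linarith [hs'.1], hs'.2⟩ x
      unfold We
      have t1 := abs_add_le (-Lx m H σ s x) (ε * (Real.exp (-s) * Real.sin x))
      rw [abs_neg] at t1
      have t2 : |ε * (Real.exp (-s) * Real.sin x)| ≤ 1 := by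
        rw [abs_mul, abs_mul, abs_of_pos hε, abs_of_pos (Real.exp_pos _)]
        have h1 : Real.exp (-s) ≤ 1 := Real.exp_le_one_iff.mpr (by linarith [hs'.1])
        have h2 := Real.abs_sin_le_one x
        have h3 : Real.exp (-s) * |Real.sin x| ≤ 1 :=
          mul_le_one₀ h1 (abs_nonneg _) h2
        exact mul_le_one₀ hε1 (by positivity) h3
      linarith
    refine ⟨(C + 2) + 3 / 2 / ε * (C + 1), fun s hs' x => ?_⟩
    have hW' := hW s hs' x
    have hpos : 0 ≤ 3 / 2 / ε * (C + 1) := by positivity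
    refine ⟨by linarith, ?_, ?_⟩
    · obtain ⟨-, -, b3⟩ := hC 1 σ hD s ⟨by linarith [hs'.1], hs'.2⟩ x
      unfold Fs
      have t1 := abs_add_le (Ls m H σ s x) (ε * (-(Real.exp (-s) * Real.cos x) + om m s))
      have t2 : |ε * (-(Real.exp (-s) * Real.cos x) + om m s)| ≤ 2 := by
        rw [abs_mul, abs_of_pos hε]
        have h1 : Real.exp (-s) ≤ 1 := Real.exp_le_one_iff.mpr (by linarith [hs'.1])
        have h2 := Real.abs_cos_le_one x
        have h3 : Real.exp (-s) * |Real.cos x| ≤ 1 :=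
          mul_le_one₀ h1 (abs_nonneg _) h2
        have h4 : om m s ≤ 1 := by
          unfold om
          apply Real.exp_le_one_iff.mpr
          have : 0 ≤ 2 * s / m := by
            have := hs'.1
            positivity
          linarith
        have h5 : 0 ≤ om m s := (Real.exp_pos _).le
        have h6 := abs_add_le (-(Real.exp (-s) * Real.cos x)) (om m s)
        rw [abs_neg, abs_mul, abs_of_pos (Real.exp_pos (-s)), abs_of_nonneg h5] at h6
        have h7 : |-(Real.exp (-s) * Real.cos x) + om m s| ≤ 2 := by linarith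
        calc ε * |-(Real.exp (-s) * Real.cos x) + om m s|
            ≤ 1 * 2 := mul_le_mul hε1 h7 (abs_nonneg _) zero_le_one
          _ = 2 := by norm_num
      linarith
    · unfold sx
      rw [abs_mul, abs_div, abs_of_pos hε, abs_of_nonneg (dbet_nonneg _)]
      have h1 : dbet (Fe m H ε σ s x / ε) / ε ≤ 3 / 2 / ε :=
        div_le_div_of_nonneg_right (dbet_le _) hε.le
      have h2 : dbet (Fe m H ε σ s x / ε) / ε * |We m H ε σ s x| ≤ 3 / 2 / ε * (C + 1) :=
        mul_le_mul h1 hW' (abs_nonneg _) (by positivity)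
      linarith
  have hmono : ∀ s' ∈ Ioo (0:ℝ) H, MonotoneOn (σ s') (Icc 0 Real.pi) := by
    intro s' hs' a ha b hb hab
    rw [hS.eq s' a, hS.eq s' b]
    have h1 := hS.anti s' ⟨hs'.1.le, hs'.2.le⟩ ha hb hab
    have h2 : Fe m H ε σ s' b / ε ≤ Fe m H ε σ s' a / ε := div_le_div_of_nonneg_right h1 hε.le
    linarith [bet_mono h2]
  have hWlb : ∀ s, ∀ x ∈ Icc (0:ℝ) Real.pi, ε * (Real.exp (-s) * Real.sin x) ≤ We m H ε σ s x := by
    intro s x hx'
    have h1 := t_mono m H 1 σ hm hH hD hmono s x hx'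
    unfold We
    linarith
  have hsx0 : ∀ s, ∀ x ∈ Icc (0:ℝ) Real.pi, 0 ≤ sx m H ε σ s x := by
    intro s x hx'
    unfold sx
    have h1 := hWlb s x hx'
    have h2 : 0 ≤ Real.sin x := Real.sin_nonneg_of_mem_Icc hx'
    have h3 : 0 ≤ ε * (Real.exp (-s) * Real.sin x) := by positivity
    exact mul_nonneg (div_nonneg (dbet_nonneg _) hε.le) (h3.trans h1)
  have hF0 : Fe m H ε σ 0 0 = 0 := by
    obtain ⟨h1, -, -, -⟩ := t_sym m H σ hm
    unfold Fe
    rw [h1]
    unfold hf Am
    simp
  have hF0x : ∀ x ∈ Icc (0:ℝ) Real.pi, Fe m H ε σ 0 x ≤ 0 := by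
    intro x hx'
    have h1 := hS.anti 0 ⟨le_refl _, hH.le⟩ (left_mem_Icc.mpr Real.pi_pos.le) hx' hx'.1
    have h2 : Fe m H ε σ 0 x ≤ Fe m H ε σ 0 0 := h1
    rw [hF0] at h2
    exact h2
  have hibp : ∀ s x, We m H ε σ s x = ε * (Real.exp (-s) * Real.sin x) + (1 / (4 * Real.pi)) *
      ∫ s' in (0:ℝ)..H, om m s' * ∫ x' in (0:ℝ)..Real.pi, sx m H ε σ s' x' *
        Real.log (q (s - s') (x + x') / q (s - s') (x - x')) := by
    intro s x
    obtain ⟨C, hC⟩ := hbd
    have h1 := t_ibp m H C σ (sx m H ε σ) hm hH hD hsm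
      (fun s hs' x _ => (hC s hs' x).2.2) (fun s _ x _ => hσx s x) s x
    unfold We
    rw [h1]
    ring
  exact ⟨hD, hσ0, hx, hs, hσx, hWm, hFm, hsm, hbd, hWlb, hsx0, hF0, hFc, hF0x, hibp⟩

end Pool.Agent.H682_VS

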