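import Pool.Agent.H682_VS.Stmts
import Pool.Agent.H682_VS.K1
import Pool.Agent.H682_VS.T_sol

/-! # coreest -/

set_option autoImplicit false

open MeasureTheory Set Filter Topology

namespace Pool.Agent.H682_VS


namespace Auxcoreest

noncomputable def LL (u : ℝ) : ℝ := -Real.log (1 - Real.exp (-u))

theorem exp_lt {u : ℝ} (hu : 0 < u) : Real.exp (-u) < 1 := by
  rw [Real.exp_lt_one_iff]; linarith

theorem LL_nonneg {u : ℝ} (hu : 0 < u) : 0 ≤ LL u := by
  unfold LL
  have h1 := exp_lt hu
  have h2 := Real.exp_pos (-u)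
  have := Real.log_nonpos (x := 1 - Real.exp (-u)) (by linarith) (by linarith)
  linarith

theorem LL_le {u : ℝ} (hu : 0 < u) : (1 - Real.exp (-u)) * LL u ≤ Real.exp (-u) := by
  unfold LL
  have h1 := exp_lt hu
  have h2 := Real.exp_pos (-u)
  set y := Real.exp (-u) with hy
  have h3 : 0 < 1 - y := by linarith
  have h4 := Real.one_sub_inv_le_log_of_pos h3
  have h5 : (1 - y) * (1 - (1 - y)⁻¹) ≤ (1 - y) * Real.log (1 - y) :=
    mul_le_mul_of_nonneg_left h4 h3.le
  rw [mul_sub, mul_inv_cancel₀ h3.ne'] at h5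
  linarith

theorem LL_meas : Measurable LL := by
  unfold LL
  fun_prop

noncomputable def GG (u : ℝ) : ℝ := Real.exp (-u) * LL u + Real.exp (-u)

noncomputable def PP (u : ℝ) : ℝ :=
  (1 - Real.exp (-u)) - (1 - Real.exp (-u)) * Real.log (1 - Real.exp (-u)) - Real.exp (-u)

theorem PP_cont : Continuous PP := by
  unfold PP
  refine Continuous.sub (Continuous.sub (by fun_prop) ?_) (by fun_prop)
  exact Real.continuous_mul_log.comp (g := fun x => x * Real.log x)
    (f := fun u : ℝ => 1 - Real.exp (-u)) (by fun_prop)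

theorem PP_deriv {u : ℝ} (hu : 0 < u) : HasDerivAt PP (GG u) u := by
  have h1 := exp_lt hu
  have e1 : HasDerivAt (fun u : ℝ => Real.exp (-u)) (-Real.exp (-u)) u := by
    have := (hasDerivAt_neg u).exp
    simpa using this
  have e2 : HasDerivAt (fun u : ℝ => 1 - Real.exp (-u)) (Real.exp (-u)) u := by
    have := e1.const_sub 1
    simpa using this
  have e3 : HasDerivAt (fun u : ℝ => (1 - Real.exp (-u)) * Real.log (1 - Real.exp (-u)))
      ((Real.log (1 - Real.exp (-u)) + 1) * Real.exp (-u)) u := by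
    have := (Real.hasDerivAt_mul_log (x := 1 - Real.exp (-u)) (by linarith)).comp u e2
    exact this
  have e4 := (e2.sub e3).sub e1
  refine e4.congr_deriv ?_
  unfold GG LL
  ring

theorem GG_nonneg {u : ℝ} (hu : 0 < u) : 0 ≤ GG u := by
  unfold GG
  have := LL_nonneg hu
  positivity

theorem LL_le_GG {u : ℝ} (hu : 0 < u) : LL u ≤ GG u := by
  unfold GG
  have := LL_le hu
  linarith

theorem LL_int {H : ℝ} (hH : 0 < H) : IntervalIntegrable LL volume 0 H ∧
    ∫ u in (0:ℝ)..H, LL u ≤ 2 := by
  have hG : IntervalIntegrable GG volume 0 H := by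
    refine intervalIntegral.intervalIntegrable_deriv_of_nonneg PP_cont.continuousOn
      (fun x hx => ?_) (fun x hx => ?_)
    · rw [min_eq_left hH.le] at hx; exact PP_deriv hx.1
    · rw [min_eq_left hH.le] at hx; exact GG_nonneg hx.1
  have hGi : ∫ u in (0:ℝ)..H, GG u = PP H - PP 0 :=
    intervalIntegral.integral_eq_sub_of_hasDerivAt_of_le hH.le PP_cont.continuousOn
      (fun x hx => PP_deriv hx.1) hG
  have hL : IntervalIntegrable LL volume 0 H := by
    refine hG.mono_fun' LL_meas.aestronglyMeasurable ?_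
    refine (ae_restrict_iff' measurableSet_uIoc).2 (Filter.Eventually.of_forall fun u hu => ?_)
    rw [uIoc_of_le hH.le] at hu
    show ‖LL u‖ ≤ GG u
    rw [Real.norm_eq_abs, abs_of_nonneg (LL_nonneg hu.1)]
    exact LL_le_GG hu.1
  refine ⟨hL, ?_⟩
  have h1 : ∫ u in (0:ℝ)..H, LL u ≤ ∫ u in (0:ℝ)..H, GG u :=
    intervalIntegral.integral_mono_on_of_le_Ioo hH.le hL hG fun x hx => LL_le_GG hx.1
  have h2 : PP 0 = -1 := by unfold PP; simp
  have h3 : PP H ≤ 1 := by
    have h4 := LL_le hH
    have h5 := Real.exp_pos (-H)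
    unfold PP
    unfold LL at h4
    linarith
  rw [hGi, h2] at h1
  linarith

theorem LL_int' {H : ℝ} (hH : 0 < H) : IntervalIntegrable (fun s => LL (H - s)) volume 0 H ∧
    ∫ s in (0:ℝ)..H, LL (H - s) ≤ 2 := by
  obtain ⟨h1, h2⟩ := LL_int hH
  constructor
  · have := (h1.comp_sub_left H).symm
    simpa using this
  · rw [intervalIntegral.integral_comp_sub_left (fun u => LL u) H]
    simpa using h2

theorem q_pos {u : ℝ} (hu : u ≠ 0) (v : ℝ) : 0 < q u v := by
  unfold q
  have h1 := Real.one_lt_cosh.2 hu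
  have h2 := Real.cos_le_one v
  linarith

theorem log_lower {u : ℝ} (hu : 0 < u) (v : ℝ) :
    u - Real.log 2 - 2 * LL u ≤ Real.log (q u v) := by
  have h1 := exp_lt hu
  have h2 : 0 < 1 - Real.exp (-u) := by linarith
  have h3 : Real.exp u * (1 - Real.exp (-u)) ^ 2 / 2 ≤ q u v := by
    unfold q
    rw [Real.cosh_eq]
    have h4 := Real.cos_le_one v
    have h5 : Real.exp u * Real.exp (-u) = 1 := by rw [← Real.exp_add]; simp
    have h6 : Real.exp u * (1 - Real.exp (-u)) ^ 2 = Real.exp u - 2 + Real.exp (-u) := by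
      have : Real.exp u * (1 - Real.exp (-u)) ^ 2 = Real.exp u - 2 * (Real.exp u * Real.exp (-u)) +
        (Real.exp u * Real.exp (-u)) * Real.exp (-u) := by ring
      rw [this, h5]; ring
    rw [h6]
    linarith
  have h4 : 0 < Real.exp u * (1 - Real.exp (-u)) ^ 2 / 2 := by positivity
  refine le_trans (le_of_eq ?_) (Real.log_le_log h4 h3)
  rw [Real.log_div (by positivity) (by norm_num), Real.log_mul (by positivity) (by positivity),
    Real.log_exp, Real.log_pow]
  unfold LL
  push_cast
  ring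

theorem log_upper {s : ℝ} (hs : 0 < s) (v : ℝ) :
    Real.log (q s v) ≤ s - Real.log 2 + 2 * Real.log (1 + Real.exp (-s)) := by
  have h3 : q s v ≤ Real.exp s * (1 + Real.exp (-s)) ^ 2 / 2 := by
    unfold q
    rw [Real.cosh_eq]
    have h4 := Real.neg_one_le_cos v
    have h5 : Real.exp s * Real.exp (-s) = 1 := by rw [← Real.exp_add]; simp
    have h6 : Real.exp s * (1 + Real.exp (-s)) ^ 2 = Real.exp s + 2 + Real.exp (-s) := by
      have : Real.exp s * (1 + Real.exp (-s)) ^ 2 = Real.exp s + 2 * (Real.exp s * Real.exp (-s)) +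
        (Real.exp s * Real.exp (-s)) * Real.exp (-s) := by ring
      rw [this, h5]; ring
    rw [h6]
    linarith
  refine (Real.log_le_log (q_pos hs.ne' v) h3).trans (le_of_eq ?_)
  rw [Real.log_div (by positivity) (by norm_num), Real.log_mul (by positivity) (by positivity),
    Real.log_exp, Real.log_pow]
  push_cast
  ring

theorem h1_nonneg {s : ℝ} (hs : 0 < s) (v : ℝ) : 0 ≤ h1 s v := by
  unfold h1
  exact div_nonneg (Real.sinh_nonneg_iff.2 hs.le) (q_pos hs.ne' v).le

theorem h1_lower {s : ℝ} (hs : 0 < s) (v : ℝ) : 1 - 2 * Real.exp (-s) ≤ h1 s v := by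
  unfold h1
  have h4 := Real.neg_one_le_cos v
  have hsinh : 0 ≤ Real.sinh s := Real.sinh_nonneg_iff.2 hs.le
  have h2 : Real.sinh s / (Real.cosh s + 1) ≤ Real.sinh s / q s v := by
    refine div_le_div_of_nonneg_left hsinh (q_pos hs.ne' v) ?_
    unfold q
    linarith
  refine le_trans ?_ h2
  rw [le_div_iff₀ (by have := Real.cosh_pos s; linarith), Real.cosh_eq, Real.sinh_eq]
  have h5 : Real.exp s * Real.exp (-s) = 1 := by rw [← Real.exp_add]; simp
  have h6 := Real.exp_pos (-s)
  nlinarith [sq_nonneg (Real.exp (-s))]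

theorem Am_bd {m H : ℝ} (hm : 0 < m) (hH : 0 < H) : 0 ≤ Am m H ∧ Am m H ≤ H := by
  unfold Am
  constructor
  · have : Real.exp (-(2 * H / m)) ≤ 1 := by
      rw [Real.exp_le_one_iff]
      have : 0 < 2 * H / m := by positivity
      linarith
    have h2 : 0 ≤ 1 - Real.exp (-(2 * H / m)) := by linarith
    positivity
  · have h1 := Real.add_one_le_exp (-(2 * H / m))
    have h2 : 1 - Real.exp (-(2 * H / m)) ≤ 2 * H / m := by linarith
    calc m / 2 * (1 - Real.exp (-(2 * H / m))) ≤ m / 2 * (2 * H / m) :=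
          mul_le_mul_of_nonneg_left h2 (by positivity)
      _ = H := by field_simp

theorem ker_eq (m H s' x' : ℝ) : ker m H Real.pi s' x' =
    Real.log (q (H - s') (Real.pi - x')) + Real.log (q (H - s') (Real.pi + x'))
      - 2 * Real.log (q s' x') + 2 * (Am m H * (1 + h1 s' x') - H) := rfl

theorem ker_lower {m H s' : ℝ} (hm : 0 < m) (h0 : 0 < s') (h1' : s' < H) (x' : ℝ) :
    (2 * (Am m H - 2 * s' - 2 * Real.log 2) - 4 * LL (H - s') ≤ ker m H Real.pi s' x') ∧
    (-(4 * (H - Am m H) + 4 * (H + 1) * Real.exp (-s')) - 4 * LL (H - s')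
      ≤ ker m H Real.pi s' x') := by
  have hH : 0 < H := h0.trans h1'
  obtain ⟨hA0, hAH⟩ := Am_bd hm hH
  have hu : 0 < H - s' := by linarith
  have k1 := log_lower hu (Real.pi - x')
  have k2 := log_lower hu (Real.pi + x')
  have k3 := log_upper h0 x'
  have k4 := h1_nonneg h0 x'
  have k5 := h1_lower h0 x'
  have e0 := Real.exp_pos (-s')
  have e1 := exp_lt h0
  have k6 : Real.log (1 + Real.exp (-s')) ≤ Real.log 2 :=
    Real.log_le_log (by linarith) (by linarith)
  have k7 : Real.log (1 + Real.exp (-s')) ≤ Real.exp (-s') := by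
    have := Real.log_le_sub_one_of_pos (x := 1 + Real.exp (-s')) (by linarith)
    linarith
  have k8 : 0 ≤ Am m H * h1 s' x' := mul_nonneg hA0 k4
  have k9 : Am m H * (1 - 2 * Real.exp (-s')) ≤ Am m H * h1 s' x' :=
    mul_le_mul_of_nonneg_left k5 hA0
  have k10 : Am m H * Real.exp (-s') ≤ H * Real.exp (-s') :=
    mul_le_mul_of_nonneg_right hAH e0.le
  rw [ker_eq]
  constructor
  · nlinarith
  · nlinarith

theorem log_q_cont {u : ℝ} (hu : u ≠ 0) : Continuous (fun v => Real.log (q u v)) := by
  refine Continuous.log ?_ (fun v => (q_pos hu v).ne')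
  unfold q
  fun_prop

theorem h1_cont {u : ℝ} (hu : u ≠ 0) : Continuous (fun v => h1 u v) := by
  unfold h1
  refine Continuous.div continuous_const ?_ (fun v => (q_pos hu v).ne')
  unfold q
  fun_prop

theorem ker_cont {m H s' : ℝ} (h0 : s' ≠ 0) (h1' : H - s' ≠ 0) :
    Continuous (fun x' => ker m H Real.pi s' x') := by
  simp only [ker_eq]
  have k1 := (log_q_cont h1').comp (continuous_const.sub continuous_id : Continuous
    (fun x' : ℝ => Real.pi - x'))
  have k2 := (log_q_cont h1').comp (continuous_const.add continuous_id : Continuous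
    (fun x' : ℝ => Real.pi + x'))
  have k3 := log_q_cont h0
  have k4 := h1_cont h0
  simp only [Function.comp_def] at k1 k2
  fun_prop

theorem ker_meas (m H : ℝ) : Measurable (fun p : ℝ × ℝ => ker m H Real.pi p.1 p.2) := by
  unfold ker h1 q
  fun_prop

/-- bound of the inner integral of the absolute value of the kernel -/
theorem ker_abs {m H C : ℝ} (hm : 0 < m) (hH : 0 < H) (hC : 1 ≤ C)
    (c1 : ∀ u a : ℝ, u ≠ 0 → ∫ v in a..(a + Real.pi), |h1 u v| ≤ C)
    (c3 : ∀ u a : ℝ, ∫ v in a..(a + Real.pi), |Real.log (q u v)| ≤ C * (1 + |u|))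
    {s' : ℝ} (h0 : 0 < s') (hs : s' < H) :
    ∫ x' in (0:ℝ)..Real.pi, |ker m H Real.pi s' x'| ≤
      4 * (C * (1 + H)) + 2 * H * C + (2 * H * Real.pi + 2 * H * Real.pi) := by
  obtain ⟨hA0, hAH⟩ := Am_bd hm hH
  have hu : H - s' ≠ 0 := by linarith
  have hpi := Real.pi_pos
  have k1 : Continuous (fun x' : ℝ => |Real.log (q (H - s') (Real.pi - x'))|) := by
    have := (log_q_cont hu).comp (continuous_const.sub continuous_id : Continuous
      (fun x' : ℝ => Real.pi - x'))
    simp only [Function.comp_def] at this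
    exact this.abs
  have k2 : Continuous (fun x' : ℝ => |Real.log (q (H - s') (Real.pi + x'))|) := by
    have := (log_q_cont hu).comp (continuous_const.add continuous_id : Continuous
      (fun x' : ℝ => Real.pi + x'))
    simp only [Function.comp_def] at this
    exact this.abs
  have k3 : Continuous (fun x' : ℝ => |Real.log (q s' x')|) := (log_q_cont h0.ne').abs
  have k4 : Continuous (fun x' : ℝ => |h1 s' x'|) := (h1_cont h0.ne').abs
  have i1 : ∫ x' in (0:ℝ)..Real.pi, |Real.log (q (H - s') (Real.pi - x'))| ≤ C * (1 + H) := by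
    rw [intervalIntegral.integral_comp_sub_left (fun v => |Real.log (q (H - s') v)|) Real.pi]
    have := c3 (H - s') 0
    rw [abs_of_pos (by linarith : 0 < H - s')] at this
    simp only [sub_self, sub_zero, zero_add] at this ⊢
    refine this.trans (mul_le_mul_of_nonneg_left (by linarith) (by linarith))
  have i2 : ∫ x' in (0:ℝ)..Real.pi, |Real.log (q (H - s') (Real.pi + x'))| ≤ C * (1 + H) := by
    rw [intervalIntegral.integral_comp_add_left (fun v => |Real.log (q (H - s') v)|) Real.pi]
    have := c3 (H - s') Real.pi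
    rw [abs_of_pos (by linarith : 0 < H - s')] at this
    simp only [add_zero] at this ⊢
    refine this.trans (mul_le_mul_of_nonneg_left (by linarith) (by linarith))
  have i3 : ∫ x' in (0:ℝ)..Real.pi, |Real.log (q s' x')| ≤ C * (1 + H) := by
    have := c3 s' 0
    rw [abs_of_pos h0] at this
    simp only [zero_add] at this
    refine this.trans (mul_le_mul_of_nonneg_left (by linarith) (by linarith))
  have i4 : ∫ x' in (0:ℝ)..Real.pi, |h1 s' x'| ≤ C := by
    have := c1 s' 0 h0.ne'
    simpa using this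
  have hle : ∫ x' in (0:ℝ)..Real.pi, |ker m H Real.pi s' x'| ≤
      ∫ x' in (0:ℝ)..Real.pi, ((|Real.log (q (H - s') (Real.pi - x'))| +
        |Real.log (q (H - s') (Real.pi + x'))| + 2 * |Real.log (q s' x')| +
        2 * H * |h1 s' x'|) + (2 * H + 2 * H)) := by
    refine intervalIntegral.integral_mono_on hpi.le
      ((ker_cont h0.ne' hu).abs.intervalIntegrable _ _)
      (Continuous.intervalIntegrable (by fun_prop) _ _) fun x' _ => ?_
    rw [ker_eq]
    set a := Real.log (q (H - s') (Real.pi - x'))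
    set b := Real.log (q (H - s') (Real.pi + x'))
    set c := Real.log (q s' x')
    set d := h1 s' x'
    have e1 : |Am m H * d| ≤ H * |d| := by
      rw [abs_mul, abs_of_nonneg hA0]
      exact mul_le_mul_of_nonneg_right hAH (abs_nonneg _)
    have e2 := neg_abs_le a
    have e3 := le_abs_self a
    have e4 := neg_abs_le b
    have e5 := le_abs_self b
    have e6 := neg_abs_le c
    have e7 := le_abs_self c
    have e8 := (abs_le.1 e1).1
    have e9 := (abs_le.1 e1).2
    rw [abs_le]
    constructor <;> linarith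
  refine hle.trans ?_
  rw [intervalIntegral.integral_add (Continuous.intervalIntegrable (by fun_prop) _ _)
    (Continuous.intervalIntegrable (by fun_prop) _ _),
    intervalIntegral.integral_add (Continuous.intervalIntegrable (by fun_prop) _ _)
    (Continuous.intervalIntegrable (by fun_prop) _ _),
    intervalIntegral.integral_add (Continuous.intervalIntegrable (by fun_prop) _ _)
    (Continuous.intervalIntegrable (by fun_prop) _ _),
    intervalIntegral.integral_add (Continuous.intervalIntegrable (by fun_prop) _ _)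
    (Continuous.intervalIntegrable (by fun_prop) _ _),
    intervalIntegral.integral_const_mul, intervalIntegral.integral_const_mul,
    intervalIntegral.integral_const]
  have e10 : 2 * H * ∫ x' in (0:ℝ)..Real.pi, |h1 s' x'| ≤ 2 * H * C :=
    mul_le_mul_of_nonneg_left i4 (by positivity)
  simp only [sub_zero, smul_eq_mul]
  linarith

end Auxcoreest

open Auxcoreest in
theorem t_coreest : ∀ (m H ε t lam0 : ℝ) (σ : ℝ → ℝ → ℝ), 6 ≤ m → 3 ≤ t → t ≤ H → 0 < ε → ε ≤ 1 →
    Sol m H ε σ → 0 ≤ lam0 → lam0 ≤ ∫ s in (0:ℝ)..t, ∫ x in (0:ℝ)..Real.pi, σ s x →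
    0 ≤ Am m H - 2 * t - 2 * Real.log 2 →
    -(8 * Real.pi * ε) + 2 * (Am m H - 2 * t - 2 * Real.log 2) * Real.exp (-(2 * t / m)) * lam0
      - 2 * Real.pi * H * (2 * (H - Am m H) + 2 * (H + 1) * Real.exp (-t)) - 40
      ≤ 4 * Real.pi * Fe m H ε σ H Real.pi := by
  intro m H ε t lam0 σ hm ht htH hε hε1 hsol hlam0 hlam hK
  have hm0 : 0 < m := by linarith
  have ht0 : 0 < t := by linarith
  have hH : 0 < H := by linarith
  have hpi := Real.pi_pos
  obtain ⟨hdat, hnn, -⟩ := t_sol m H ε σ (by linarith) hH hε hε1 hsol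
  obtain ⟨C, hC, c1, -, c3, -⟩ := t_K1
  obtain ⟨hA0, hAH⟩ := Am_bd hm0 hH
  have hσ1 : ∀ s x, σ s x ≤ 1 := fun s x => (le_abs_self _).trans (hdat.bdd s x)
  have hσc : ∀ s, Continuous (σ s) := fun s =>
    hsol.cont.comp (Continuous.prodMk_right s)
  set F : ℝ → ℝ := fun s' => om m s' *
    ∫ x' in (0:ℝ)..Real.pi, σ s' x' * ker m H Real.pi s' x' with hF
  set S : ℝ → ℝ := fun s' => ∫ x' in (0:ℝ)..Real.pi, σ s' x' with hS
  have hSc : Continuous S :=
    intervalIntegral.continuous_parametric_intervalIntegral_of_continuous' hsol.cont 0 Real.pi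
  have hS0 : ∀ s, 0 ≤ S s := fun s =>
    intervalIntegral.integral_nonneg hpi.le fun x _ => hnn s x
  have hom1 : ∀ s, 0 ≤ s → om m s ≤ 1 := by
    intro s hs
    unfold om
    rw [Real.exp_le_one_iff]
    have : 0 ≤ 2 * s / m := by positivity
    linarith
  have hom0 : ∀ s, 0 < om m s := fun s => Real.exp_pos _
  -- integrability
  have hFm : AEStronglyMeasurable F (volume.restrict (uIoc 0 H)) := by
    have h1 : Measurable (fun p : ℝ × ℝ => σ p.1 p.2 * ker m H Real.pi p.1 p.2) :=
      hdat.meas.mul (ker_meas m H)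
    have h2 : StronglyMeasurable (fun s' => ∫ x' in Ioc 0 Real.pi,
        σ s' x' * ker m H Real.pi s' x') :=
      StronglyMeasurable.integral_prod_right (f := fun s' x' => σ s' x' * ker m H Real.pi s' x')
        h1.stronglyMeasurable
    have h3 : StronglyMeasurable F := by
      have h4 : F = fun s' => om m s' * ∫ x' in Ioc 0 Real.pi,
          σ s' x' * ker m H Real.pi s' x' := by
        funext s'
        simp only [hF]
        rw [intervalIntegral.integral_of_le hpi.le]
      rw [h4]
      refine StronglyMeasurable.mul ?_ h2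
      refine Continuous.stronglyMeasurable ?_
      unfold om
      fun_prop
    exact h3.aestronglyMeasurable
  set B := 4 * (C * (1 + H)) + 2 * H * C + (2 * H * Real.pi + 2 * H * Real.pi) with hB
  have hFb : ∀ s' ∈ Ioo (0:ℝ) H, |F s'| ≤ B := by
    intro s' hs'
    have k1 := ker_abs hm0 hH hC c1 c3 hs'.1 hs'.2
    have hu : H - s' ≠ 0 := by linarith [hs'.2]
    have k2 : |∫ x' in (0:ℝ)..Real.pi, σ s' x' * ker m H Real.pi s' x'| ≤
        ∫ x' in (0:ℝ)..Real.pi, |ker m H Real.pi s' x'| := by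
      refine (intervalIntegral.abs_integral_le_integral_abs hpi.le).trans ?_
      refine intervalIntegral.integral_mono_on hpi.le
        (((hσc s').mul (ker_cont hs'.1.ne' hu)).abs.intervalIntegrable _ _)
        ((ker_cont hs'.1.ne' hu).abs.intervalIntegrable _ _) fun x' _ => ?_
      rw [abs_mul]
      exact mul_le_of_le_one_left (abs_nonneg _) (hdat.bdd s' x')
    simp only [hF]
    rw [abs_mul, abs_of_pos (hom0 s')]
    have k3 := hom1 s' hs'.1.le
    calc om m s' * |∫ x' in (0:ℝ)..Real.pi, σ s' x' * ker m H Real.pi s' x'|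
        ≤ 1 * |∫ x' in (0:ℝ)..Real.pi, σ s' x' * ker m H Real.pi s' x'| :=
          mul_le_mul_of_nonneg_right k3 (abs_nonneg _)
      _ ≤ B := by rw [one_mul]; exact k2.trans k1
  have hFi : IntervalIntegrable F volume 0 H := by
    have hBi : IntervalIntegrable (fun _ : ℝ => B) volume 0 H := intervalIntegrable_const
    refine hBi.mono_fun' hFm ?_
    rw [uIoc_of_le hH.le, ← restrict_Ioo_eq_restrict_Ioc]
    refine (ae_restrict_iff' measurableSet_Ioo).2 (Filter.Eventually.of_forall fun s hs => ?_)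
    show ‖F s‖ ≤ B
    rw [Real.norm_eq_abs]
    exact hFb s hs
  obtain ⟨hL1, hL2⟩ := LL_int' hH
  set K1 := 2 * (Am m H - 2 * t - 2 * Real.log 2) with hK1
  have hK10 : 0 ≤ K1 := by rw [hK1]; linarith
  set K2 := 4 * (H - Am m H) + 4 * (H + 1) * Real.exp (-t) with hK2
  have hK20 : 0 ≤ K2 := by
    have := Real.exp_pos (-t)
    have h1 : 0 ≤ 4 * (H + 1) * Real.exp (-t) := by positivity
    rw [hK2]; linarith
  set w := Real.exp (-(2 * t / m)) with hw
  have hw0 : 0 < w := Real.exp_pos _
  -- pointwise bounds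
  have hinner : ∀ s' ∈ Ioo (0:ℝ) H, ∀ a : ℝ, ∀ b : ℝ, 0 ≤ b →
      (∀ x', a * σ s' x' - b - 4 * LL (H - s') ≤ σ s' x' * ker m H Real.pi s' x') →
      a * S s' - b * Real.pi - 4 * Real.pi * LL (H - s') ≤
        ∫ x' in (0:ℝ)..Real.pi, σ s' x' * ker m H Real.pi s' x' := by
    intro s' hs' a b _ hab
    have hu : H - s' ≠ 0 := by linarith [hs'.2]
    have h1 : ∫ x' in (0:ℝ)..Real.pi, (a * σ s' x' - (b + 4 * LL (H - s'))) ≤
        ∫ x' in (0:ℝ)..Real.pi, σ s' x' * ker m H Real.pi s' x' := by
      refine intervalIntegral.integral_mono_on hpi.le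
        ((((hσc s').const_mul a).sub continuous_const).intervalIntegrable _ _)
        (((hσc s').mul (ker_cont hs'.1.ne' hu)).intervalIntegrable _ _) fun x' _ => ?_
      have := hab x'
      linarith
    rw [intervalIntegral.integral_sub (((hσc s').const_mul a).intervalIntegrable _ _)
      (continuous_const.intervalIntegrable _ _), intervalIntegral.integral_const_mul,
      intervalIntegral.integral_const] at h1
    simp only [sub_zero, smul_eq_mul] at h1
    simp only [hS]
    linarith
  have hpt1 : ∀ s' ∈ Ioo (0:ℝ) t, K1 * w * S s' - 4 * Real.pi * LL (H - s') ≤ F s' := by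
    intro s' hs'
    have hs'H : s' ∈ Ioo (0:ℝ) H := ⟨hs'.1, hs'.2.trans_le htH⟩
    have hLn := LL_nonneg (u := H - s') (by linarith [hs'H.2])
    have h1 := hinner s' hs'H K1 0 le_rfl (by
      intro x'
      have h2 := (ker_lower hm0 hs'.1 hs'H.2 x').1
      have h3 := hnn s' x'
      have h4 := hσ1 s' x'
      have h5 : K1 - 4 * LL (H - s') ≤ ker m H Real.pi s' x' := by
        rw [hK1]; linarith [hs'.2]
      have h6 : σ s' x' * (K1 - 4 * LL (H - s')) ≤ σ s' x' * ker m H Real.pi s' x' :=
        mul_le_mul_of_nonneg_left h5 h3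
      have h7 : σ s' x' * LL (H - s') ≤ 1 * LL (H - s') := mul_le_mul_of_nonneg_right h4 hLn
      nlinarith)
    have h2 : om m s' * (K1 * S s' - 4 * Real.pi * LL (H - s')) ≤ F s' := by
      simp only [hF]
      refine mul_le_mul_of_nonneg_left ?_ (hom0 s').le
      linarith
    have h3 : w ≤ om m s' := by
      rw [hw]
      unfold om
      refine Real.exp_le_exp.2 ?_
      have : 2 * s' / m ≤ 2 * t / m := by
        refine div_le_div_of_nonneg_right ?_ hm0.le
        linarith [hs'.2]
      linarith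
    have h4 : w * (K1 * S s') ≤ om m s' * (K1 * S s') :=
      mul_le_mul_of_nonneg_right h3 (mul_nonneg hK10 (hS0 s'))
    have h5 : om m s' * (4 * Real.pi * LL (H - s')) ≤ 1 * (4 * Real.pi * LL (H - s')) :=
      mul_le_mul_of_nonneg_right (hom1 s' hs'.1.le) (by positivity)
    nlinarith
  have hpt2 : ∀ s' ∈ Ioo t H, -(K2 * Real.pi) - 4 * Real.pi * LL (H - s') ≤ F s' := by
    intro s' hs'
    have hs'H : s' ∈ Ioo (0:ℝ) H := ⟨ht0.trans hs'.1, hs'.2⟩
    have hLn := LL_nonneg (u := H - s') (by linarith [hs'H.2])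
    have h1 := hinner s' hs'H 0 K2 hK20 (by
      intro x'
      have h2 := (ker_lower hm0 hs'H.1 hs'H.2 x').2
      have h3 := hnn s' x'
      have h4 := hσ1 s' x'
      have h5 : -K2 - 4 * LL (H - s') ≤ ker m H Real.pi s' x' := by
        have h6 : Real.exp (-s') ≤ Real.exp (-t) := Real.exp_le_exp.2 (by linarith [hs'.1])
        have h7 : 4 * (H + 1) * Real.exp (-s') ≤ 4 * (H + 1) * Real.exp (-t) :=
          mul_le_mul_of_nonneg_left h6 (by positivity)
        rw [hK2]; linarith
      have h6 : σ s' x' * (-K2 - 4 * LL (H - s')) ≤ σ s' x' * ker m H Real.pi s' x' :=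
        mul_le_mul_of_nonneg_left h5 h3
      have h7 : σ s' x' * (K2 + 4 * LL (H - s')) ≤ 1 * (K2 + 4 * LL (H - s')) :=
        mul_le_mul_of_nonneg_right h4 (by positivity)
      nlinarith)
    have h2 : om m s' * (-(K2 * Real.pi) - 4 * Real.pi * LL (H - s')) ≤ F s' := by
      simp only [hF]
      refine mul_le_mul_of_nonneg_left ?_ (hom0 s').le
      linarith
    have h5 : om m s' * (K2 * Real.pi + 4 * Real.pi * LL (H - s')) ≤
        1 * (K2 * Real.pi + 4 * Real.pi * LL (H - s')) :=
      mul_le_mul_of_nonneg_right (hom1 s' hs'H.1.le) (by positivity)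
    nlinarith
  -- integrate
  have hsub1 : uIcc (0:ℝ) t ⊆ uIcc 0 H := by
    rw [uIcc_of_le ht0.le, uIcc_of_le hH.le]
    exact Icc_subset_Icc_right htH
  have hsub2 : uIcc t H ⊆ uIcc 0 H := by
    rw [uIcc_of_le htH, uIcc_of_le hH.le]
    exact Icc_subset_Icc_left ht0.le
  have hF1 := hFi.mono_set hsub1
  have hF2 := hFi.mono_set hsub2
  have hLa := (hL1.mono_set hsub1).const_mul (4 * Real.pi)
  have hLb := (hL1.mono_set hsub2).const_mul (4 * Real.pi)
  have hSi : IntervalIntegrable (fun s => K1 * w * S s) volume 0 t :=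
    (hSc.const_mul (K1 * w)).intervalIntegrable _ _
  have j1 : ∫ s' in (0:ℝ)..t, (K1 * w * S s' - 4 * Real.pi * LL (H - s')) ≤
      ∫ s' in (0:ℝ)..t, F s' :=
    intervalIntegral.integral_mono_on_of_le_Ioo ht0.le (hSi.sub hLa) hF1 hpt1
  have j2 : ∫ s' in t..H, (-(K2 * Real.pi) - 4 * Real.pi * LL (H - s')) ≤
      ∫ s' in t..H, F s' :=
    intervalIntegral.integral_mono_on_of_le_Ioo htH (intervalIntegrable_const.sub hLb) hF2 hpt2
  rw [intervalIntegral.integral_sub hSi hLa, intervalIntegral.integral_const_mul,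
    intervalIntegral.integral_const_mul] at j1
  rw [intervalIntegral.integral_sub intervalIntegrable_const hLb,
    intervalIntegral.integral_const, intervalIntegral.integral_const_mul] at j2
  have j3 := intervalIntegral.integral_add_adjacent_intervals hF1 hF2
  have j4 := intervalIntegral.integral_add_adjacent_intervals (hL1.mono_set hsub1)
    (hL1.mono_set hsub2)
  have j5 : K1 * w * lam0 ≤ K1 * w * ∫ s' in (0:ℝ)..t, S s' :=
    mul_le_mul_of_nonneg_left hlam (mul_nonneg hK10 hw0.le)
  have j6 : (H - t) * (K2 * Real.pi) ≤ H * (K2 * Real.pi) :=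
    mul_le_mul_of_nonneg_right (by linarith) (by positivity)
  have j7 : 4 * Real.pi * ∫ s in (0:ℝ)..H, LL (H - s) ≤ 4 * Real.pi * 2 :=
    mul_le_mul_of_nonneg_left hL2 (by positivity)
  have j8 : K1 * w * lam0 - H * (K2 * Real.pi) - 8 * Real.pi ≤ ∫ s' in (0:ℝ)..H, F s' := by
    rw [← j3]
    rw [← j4] at j7
    simp only [smul_eq_mul] at j2
    nlinarith
  have j9 : 4 * Real.pi * Lop m H σ H Real.pi = ∫ s' in (0:ℝ)..H, F s' := by
    unfold Lop
    rw [← mul_assoc]
    have : 4 * Real.pi * (1 / (4 * Real.pi)) = 1 := by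
      field_simp
    rw [this, one_mul]
  have j10 : 4 * Real.pi * Fe m H ε σ H Real.pi = (∫ s' in (0:ℝ)..H, F s') +
      4 * Real.pi * (ε * hf m H Real.pi) := by
    rw [← j9]
    unfold Fe
    ring
  have j11 : -2 ≤ hf m H Real.pi := by
    unfold hf
    rw [Real.cos_pi]
    have := exp_lt hH
    linarith
  have j12 : 4 * Real.pi * (ε * (-2)) ≤ 4 * Real.pi * (ε * hf m H Real.pi) :=
    mul_le_mul_of_nonneg_left (mul_le_mul_of_nonneg_left j11 hε.le) (by positivity)
  have j13 : Real.pi < 5 := by linarith [Real.pi_lt_d2]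
  rw [j10]
  have j14 : H * (K2 * Real.pi) =
      2 * Real.pi * H * (2 * (H - Am m H) + 2 * (H + 1) * Real.exp (-t)) := by
    rw [hK2]; ring
  rw [← j14]
  have j15 : 2 * (Am m H - 2 * t - 2 * Real.log 2) * w * lam0 = K1 * w * lam0 := by rw [hK1]
  rw [j15]
  linarith

end Pool.Agent.H682_VS
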