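import Pool.Agent.H682_VS.Stmts
import Pool.Agent.H682_VS.T_coreest

/-! # core -/

set_option autoImplicit false

open MeasureTheory Set Filter Topology

namespace Pool.Agent.H682_VS


namespace Auxcore

theorem exp_neg_le {x : ℝ} (hx : 0 ≤ x) : Real.exp (-x) ≤ 1 - x + x ^ 2 / 2 := by
  have h1 := Real.quadratic_le_exp_of_nonneg hx
  have h2 : 0 < 1 + x + x ^ 2 / 2 := by positivity
  have h3 : 1 ≤ (1 - x + x ^ 2 / 2) * (1 + x + x ^ 2 / 2) := by nlinarith [sq_nonneg (x ^ 2)]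
  have h4 : 0 < 1 - x + x ^ 2 / 2 := by nlinarith [sq_nonneg (x - 1)]
  rw [Real.exp_neg, inv_le_iff_one_le_mul₀ (Real.exp_pos x)]
  calc (1 : ℝ) ≤ (1 - x + x ^ 2 / 2) * (1 + x + x ^ 2 / 2) := h3
    _ ≤ (1 - x + x ^ 2 / 2) * Real.exp x := by gcongr

theorem Am_bd {m H : ℝ} (hm : 0 < m) (hH : 0 ≤ H) : H - H ^ 2 / m ≤ Am m H := by
  have h1 := exp_neg_le (x := 2 * H / m) (by positivity)
  unfold Am
  have h2 : m / 2 * (2 * H / m - (2 * H / m) ^ 2 / 2) = H - H ^ 2 / m := by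
    field_simp
  rw [← h2]
  have : 2 * H / m - (2 * H / m) ^ 2 / 2 ≤ 1 - Real.exp (-(2 * H / m)) := by linarith
  gcongr

theorem choose_y (lam0 a b : ℝ) (ha : 0 < a) (hb : 0 < b) :
    ∃ y : ℝ, 3 ≤ y ∧ 100 / lam0 ≤ y ∧ y * Real.exp (-y) ≤ a ∧ y ^ 2 * Real.exp (-y) ≤ b := by
  have h1 := (Real.tendsto_pow_mul_exp_neg_atTop_nhds_zero 1).eventually (eventually_lt_nhds ha)
  have h2 := (Real.tendsto_pow_mul_exp_neg_atTop_nhds_zero 2).eventually (eventually_lt_nhds hb)
  obtain ⟨y, hy1, hy2, hy3, hy4⟩ := (h1.and (h2.and ((eventually_ge_atTop (3 : ℝ)).and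
    (eventually_ge_atTop (100 / lam0))))).exists
  rw [pow_one] at hy1
  exact ⟨y, hy3, hy4, hy1.le, hy2.le⟩

end Auxcore


/- TARGET, proof in plain words:
Choice of parameters.  t = H/4, H ≥ 12 large depending on lam0, eta1; then m0 large depending on H; e0 = 1.
H - H^2/m ≤ Am m H ≤ H  (x - x^2/2 ≤ 1 - e^{-x} ≤ x with x = 2H/m).  If m ≥ m0 with H^2/m0 ≤ 1/(8 ... ) small, then Am m H ≥ H - 1, so
 Am m H - 2t - 2 log 2 ≥ H - 1 - H/2 - 2 ≥ H/4 for H ≥ 12;  e^{-2t/m} ≥ 1/2 for m ≥ H;  so the first term is ≥ 2 (H/4)(1/2) lam0 = H lam0/4.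
 Error terms: 2πH·2(H - Am m H) ≤ 4πH·H^2/m ≤ 1 for m ≥ 4πH^3;  2πH·2(H+1)e^{-H/4} ≤ 1 for H large (H^2 e^{-H/4} → 0);  8πε ≤ 8π < 26;  40.
 So 4π Fe(H,π) ≥ H lam0/4 - 26 - 1 - 1 - 40 ≥ 4π once H ≥ 4·(68 + 13)/lam0 = 324/lam0.
 First condition: π H (40 e^{2-H/4} + 16/m) ≤ eta1: first summand ≤ eta1/2 for H large, second ≤ eta1/2 for m ≥ 32πH/eta1.
Use Filter.eventually_atTop / tendsto of H^k e^{-H/4} → 0 (Real.tendsto_pow_mul_exp_neg_atTop_nhds_zero) to pick H.
-/
theorem t_core : S_core := by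
  intro lam0 eta1 hl he
  have hpi := Real.pi_pos
  have hpi3 := Real.pi_gt_three
  have hpi4 : Real.pi < 3.15 := Real.pi_lt_d2
  obtain ⟨a, ha⟩ : ∃ a, a = min (eta1 / (320 * Real.pi * Real.exp 2)) (1 / (32 * Real.pi)) :=
    ⟨_, rfl⟩
  have ha0 : 0 < a := by rw [ha]; positivity
  have ha1 : a ≤ eta1 / (320 * Real.pi * Real.exp 2) := by rw [ha]; exact min_le_left _ _
  have ha2 : a ≤ 1 / (32 * Real.pi) := by rw [ha]; exact min_le_right _ _
  obtain ⟨y, hy3, hyl, hya, hyb⟩ := Auxcore.choose_y lam0 a (1 / (128 * Real.pi)) ha0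
    (by positivity)
  have hy0 : 0 < y := by linarith
  obtain ⟨H, hH⟩ : ∃ H, H = 4 * y := ⟨_, rfl⟩
  have hH12 : 12 ≤ H := by linarith
  have hH0 : 0 < H := by linarith
  obtain ⟨m0, hm0⟩ : ∃ m0, m0 = max 6 (max H (max (4 * Real.pi * H ^ 3) (32 * Real.pi * H / eta1))) :=
    ⟨_, rfl⟩
  refine ⟨H, y, hy3, by linarith, m0, 1, by rw [hm0]; exact le_max_left _ _, one_pos, ?_⟩
  intro m hm
  have m1 : 6 ≤ m := le_trans (by rw [hm0]; exact le_max_left _ _) hm
  have m2 : H ≤ m := le_trans (by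
    rw [hm0]; exact (le_max_left _ _).trans (le_max_right _ _)) hm
  have m3 : 4 * Real.pi * H ^ 3 ≤ m := le_trans (by
    rw [hm0]
    exact (le_max_left _ _).trans ((le_max_right _ _).trans (le_max_right _ _))) hm
  have m4 : 32 * Real.pi * H / eta1 ≤ m := le_trans (by
    rw [hm0]
    exact (le_max_right _ _).trans ((le_max_right _ _).trans (le_max_right _ _))) hm
  have m0' : 0 < m := by linarith
  constructor
  · have e1 : Real.exp (2 - y) = Real.exp 2 * Real.exp (-y) := by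
      rw [← Real.exp_add]; congr 1
    have e2 : Real.pi * H * (40 * Real.exp (2 - y)) ≤ eta1 / 2 := by
      have : Real.pi * H * (40 * Real.exp (2 - y)) =
          160 * Real.pi * Real.exp 2 * (y * Real.exp (-y)) := by
        rw [e1, hH]; ring
      rw [this]
      calc 160 * Real.pi * Real.exp 2 * (y * Real.exp (-y))
          ≤ 160 * Real.pi * Real.exp 2 * (eta1 / (320 * Real.pi * Real.exp 2)) := by
            gcongr
            exact hya.trans ha1
        _ = eta1 / 2 := by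
            have := (Real.exp_pos 2).ne'
            field_simp
            norm_num
    have e3 : Real.pi * H * (16 / m) ≤ eta1 / 2 := by
      rw [div_le_iff₀ he] at m4
      rw [mul_div_assoc', div_le_div_iff₀ m0' two_pos]
      linarith
    rw [mul_add]
    linarith
  · intro ε σ hε0 hε1 _ hS hlam
    have A1 := Auxcore.Am_bd m0' hH0.le
    have A2 : H ^ 2 / m ≤ 1 := by
      rw [div_le_one m0']
      refine le_trans ?_ m3
      have : H ^ 2 * 1 ≤ H ^ 2 * (4 * Real.pi * H) := by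
        gcongr
        nlinarith
      nlinarith
    have A3 : 4 * Real.pi * H * (H ^ 2 / m) ≤ 1 := by
      rw [mul_div_assoc', div_le_one m0']
      linarith
    have hlog := Real.log_two_lt_d9
    have B1 : H / 4 ≤ Am m H - 2 * y - 2 * Real.log 2 := by linarith
    have B2 : 1 / 2 ≤ Real.exp (-(2 * y / m)) := by
      have h1 : 2 * y / m ≤ 1 / 2 := by
        rw [div_le_div_iff₀ m0' two_pos]
        linarith
      have h2 := Real.add_one_le_exp (-(2 * y / m))
      linarith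
    have key := t_coreest m H ε y lam0 σ m1 hy3 (by linarith) hε0 hε1 hS hl.le hlam (by linarith)
    have C1 : y * lam0 ≤ 2 * (Am m H - 2 * y - 2 * Real.log 2) * Real.exp (-(2 * y / m)) * lam0 := by
      have hX0 : 0 ≤ 2 * (Am m H - 2 * y - 2 * Real.log 2) := by linarith
      calc y * lam0 = 2 * (H / 4) * (1 / 2) * lam0 := by rw [hH]; ring
        _ ≤ _ := by gcongr
    have C2 : 100 ≤ y * lam0 := by
      rw [div_le_iff₀ hl] at hyl
      linarith
    have D1 : 2 * Real.pi * H * (2 * (H - Am m H)) ≤ 1 := by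
      calc 2 * Real.pi * H * (2 * (H - Am m H)) ≤ 2 * Real.pi * H * (2 * (H ^ 2 / m)) := by
            gcongr
            linarith
        _ = 4 * Real.pi * H * (H ^ 2 / m) := by ring
        _ ≤ 1 := A3
    have D2 : 2 * Real.pi * H * (2 * (H + 1) * Real.exp (-y)) ≤ 1 := by
      have : 2 * Real.pi * H * (2 * (H + 1) * Real.exp (-y)) =
          64 * Real.pi * (y ^ 2 * Real.exp (-y)) + 16 * Real.pi * (y * Real.exp (-y)) := by
        rw [hH]; ring
      rw [this]
      calc 64 * Real.pi * (y ^ 2 * Real.exp (-y)) + 16 * Real.pi * (y * Real.exp (-y))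
          ≤ 64 * Real.pi * (1 / (128 * Real.pi)) + 16 * Real.pi * (1 / (32 * Real.pi)) := by
            gcongr
            exact hya.trans ha2
        _ = 1 := by field_simp; norm_num
    have E1 : 8 * Real.pi * ε ≤ 26 := by nlinarith
    have F1 : 2 * Real.pi * H * (2 * (H - Am m H) + 2 * (H + 1) * Real.exp (-y)) ≤ 2 := by
      rw [mul_add]
      linarith
    have G1 : 4 * Real.pi * 1 ≤ 4 * Real.pi * Fe m H ε σ H Real.pi := by
      refine le_trans ?_ key
      linarith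
    exact le_of_mul_le_mul_left G1 (by positivity)

end Pool.Agent.H682_VS
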