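import Pool.Agent.H682_VS.Stmts

/-! # disc -/

set_option autoImplicit false

open MeasureTheory Set Filter Topology

namespace Pool.Agent.H682_VS


namespace Auxdisc

/-- the logarithm of the distance in polar coordinates -/
noncomputable def lg (w : ℂ) (r t : ℝ) : ℝ := Real.log ‖circleMap 0 r t - w‖

lemma lg_periodic (w : ℂ) (r : ℝ) : Function.Periodic (lg w r) (2 * Real.pi) := by
  intro t
  simp only [lg]
  rw [periodic_circleMap 0 r t]

lemma lg_int (w : ℂ) (r : ℝ) (a b : ℝ) : IntervalIntegrable (lg w r) volume a b := by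
  have h : CircleIntegrable (fun z : ℂ => Real.log ‖z - w‖) 0 r :=
    circleIntegrable_log_norm_sub_const r
  have h2 : IntervalIntegrable (lg w r) volume 0 (0 + 2 * Real.pi) := by
    rw [zero_add]
    exact h
  exact (lg_periodic w r).intervalIntegrable Real.two_pi_pos.ne' h2 a b

lemma lg_integral (w : ℂ) (r : ℝ) (hr : 0 < r) :
    ∫ t in (-Real.pi)..Real.pi, lg w r t = 2 * Real.pi * Real.log (max r ‖w‖) := by
  have h := circleAverage_log_norm_sub_const_eq_log_radius_add_posLog (c := 0) (a := w) hr.ne'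
  rw [Real.circleAverage_def, smul_eq_mul] at h
  have h2 := (lg_periodic w r).intervalIntegral_add_eq (-Real.pi) 0
  rw [zero_add] at h2
  have h3 : -Real.pi + 2 * Real.pi = Real.pi := by ring
  rw [h3] at h2
  rw [h2]
  have h4 : ∫ t in (0:ℝ)..(2 * Real.pi), lg w r t =
      2 * Real.pi * (Real.log r + Real.posLog (r⁻¹ * ‖0 - w‖)) := by
    rw [← h, ← mul_assoc, mul_inv_cancel₀ Real.two_pi_pos.ne', one_mul]
    rfl
  rw [h4, zero_sub, norm_neg]
  congr 1
  rcases le_total r ‖w‖ with h5 | h5
  · have h6 : 1 ≤ |r⁻¹ * ‖w‖| := by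
      rw [abs_of_nonneg (by positivity)]
      rw [inv_mul_eq_div, le_div_iff₀ hr]
      linarith
    have hw : 0 < ‖w‖ := lt_of_lt_of_le hr h5
    rw [Real.posLog_eq_log h6, Real.log_mul (inv_ne_zero hr.ne') hw.ne', Real.log_inv,
      max_eq_right h5]
    ring
  · have h6 : |r⁻¹ * ‖w‖| ≤ 1 := by
      rw [abs_of_nonneg (by positivity)]
      rw [inv_mul_eq_div, div_le_iff₀ hr]
      linarith
    rw [(Real.posLog_eq_zero_iff _).mpr h6, max_eq_left h5, add_zero]

lemma lg_meas (w : ℂ) : Measurable (fun p : ℝ × ℝ => lg w p.1 p.2) := by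
  have h : Continuous (fun p : ℝ × ℝ => circleMap 0 p.1 p.2 - w) := by
    unfold circleMap
    fun_prop
  exact Real.measurable_log.comp h.norm.measurable

lemma lg_abs (w : ℂ) (hw : ‖w‖ ≤ 1) (r : ℝ) (hr : 0 < r) (hr1 : r < 1) :
    ∫ t in Ioo (-Real.pi) Real.pi, ‖r * lg w r t‖ ≤ 4 * Real.pi * Real.log 2 + 2 * Real.pi := by
  have hpi : -Real.pi ≤ Real.pi := by linarith [Real.pi_pos]
  rw [← integral_Ioc_eq_integral_Ioo, ← intervalIntegral.integral_of_le hpi]
  have h1 : ∀ t, ‖r * lg w r t‖ ≤ 2 * r * Real.log 2 - r * lg w r t := by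
    intro t
    rw [norm_mul, Real.norm_eq_abs, abs_of_pos hr, Real.norm_eq_abs]
    have h2 : lg w r t ≤ Real.log 2 := by
      simp only [lg]
      by_cases h0 : ‖circleMap 0 r t - w‖ = 0
      · rw [h0, Real.log_zero]
        exact Real.log_nonneg (by norm_num)
      · apply Real.log_le_log (lt_of_le_of_ne (norm_nonneg _) (Ne.symm h0))
        refine (norm_sub_le _ _).trans ?_
        have : ‖circleMap 0 r t‖ = r := by
          simp [circleMap, abs_of_pos hr]
        rw [this]
        linarith
    have h3 : 0 ≤ Real.log 2 := Real.log_nonneg (by norm_num)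
    have h4 : |lg w r t| ≤ 2 * Real.log 2 - lg w r t := by
      rw [abs_le]
      constructor <;> linarith
    nlinarith
  have hi := lg_int w r (-Real.pi) Real.pi
  have hmul : ∫ t in (-Real.pi)..Real.pi, r * lg w r t =
      r * (2 * Real.pi * Real.log (max r ‖w‖)) := by
    rw [intervalIntegral.integral_const_mul, lg_integral w r hr]
  calc ∫ t in (-Real.pi)..Real.pi, ‖r * lg w r t‖
      ≤ ∫ t in (-Real.pi)..Real.pi, (2 * r * Real.log 2 - r * lg w r t) := by
        apply intervalIntegral.integral_mono_on hpi (hi.const_mul r).norm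
          (intervalIntegrable_const.sub (hi.const_mul r))
        intro t _
        exact h1 t
    _ = 4 * Real.pi * (r * Real.log 2) - 2 * Real.pi * (r * Real.log (max r ‖w‖)) := by
        rw [intervalIntegral.integral_sub intervalIntegrable_const (hi.const_mul r),
          intervalIntegral.integral_const, smul_eq_mul, hmul]
        ring
    _ ≤ 4 * Real.pi * Real.log 2 + 2 * Real.pi := by
        have h2 : 0 ≤ Real.log 2 := Real.log_nonneg (by norm_num)
        have h3 : r * Real.log 2 ≤ Real.log 2 := by nlinarith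
        have h4 : Real.log r ≤ Real.log (max r ‖w‖) := Real.log_le_log hr (le_max_left _ _)
        have h5 : -1 ≤ r * Real.log r := by
          have h6 := Real.one_sub_inv_le_log_of_pos hr
          have h7 : r * (1 - r⁻¹) ≤ r * Real.log r := mul_le_mul_of_nonneg_left h6 hr.le
          have h8 : r * (1 - r⁻¹) = r - 1 := by field_simp
          linarith
        have h9 : -1 ≤ r * Real.log (max r ‖w‖) :=
          h5.trans (mul_le_mul_of_nonneg_left h4 hr.le)
        nlinarith [Real.pi_pos]

lemma lg_prod (w : ℂ) (hw : ‖w‖ ≤ 1) :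
    IntegrableOn (fun p : ℝ × ℝ => p.1 * lg w p.1 p.2)
      (Ioo (0:ℝ) 1 ×ˢ Ioo (-Real.pi) Real.pi) (volume.prod volume) := by
  have hpi : -Real.pi ≤ Real.pi := by linarith [Real.pi_pos]
  have hmeas : Measurable (fun p : ℝ × ℝ => p.1 * lg w p.1 p.2) :=
    measurable_fst.mul (lg_meas w)
  rw [IntegrableOn, ← Measure.prod_restrict, integrable_prod_iff hmeas.aestronglyMeasurable]
  constructor
  · refine Filter.Eventually.of_forall ?_
    intro r
    have h := (lg_int w r (-Real.pi) Real.pi).const_mul r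
    rw [intervalIntegrable_iff_integrableOn_Ioo_of_le hpi] at h
    exact h
  · refine Measure.integrableOn_of_bounded (M := 4 * Real.pi * Real.log 2 + 2 * Real.pi)
      (by simp) ?_ ?_
    · have h1 : AEStronglyMeasurable (fun p : ℝ × ℝ => ‖p.1 * lg w p.1 p.2‖)
          ((volume : Measure ℝ).prod (volume.restrict (Ioo (-Real.pi) Real.pi))) :=
        hmeas.norm.aestronglyMeasurable
      exact h1.integral_prod_right'
    · refine (ae_restrict_iff' measurableSet_Ioo).mpr (Filter.Eventually.of_forall ?_)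
      intro r hr
      rw [Real.norm_eq_abs, abs_of_nonneg (integral_nonneg fun t => norm_nonneg _)]
      exact lg_abs w hw r hr.1 hr.2

/-- the radial integral -/
lemma radial (ρ : ℝ) (h0 : 0 ≤ ρ) (h1 : ρ ≤ 1) :
    ∫ r in (0:ℝ)..1, r * Real.log (max r ρ) = (ρ ^ 2 - 1) / 4 := by
  have hc1 : Continuous (fun r : ℝ => r * Real.log r) := Real.continuous_mul_log
  have hint1 : ∀ a b : ℝ, IntervalIntegrable (fun r : ℝ => r * Real.log r) volume a b :=
    fun a b => hc1.intervalIntegrable a b
  have e1 : ∫ r in (0:ℝ)..ρ, r * Real.log (max r ρ) = ρ ^ 2 / 2 * Real.log ρ := by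
    have : ∫ r in (0:ℝ)..ρ, r * Real.log (max r ρ) = ∫ r in (0:ℝ)..ρ, r * Real.log ρ := by
      apply intervalIntegral.integral_congr
      intro r hr
      rw [uIcc_of_le h0] at hr
      simp only
      rw [max_eq_right hr.2]
    rw [this, intervalIntegral.integral_mul_const, integral_id]
    ring
  have e2 : ∫ r in ρ..1, r * Real.log (max r ρ) = ∫ r in ρ..1, r * Real.log r := by
    apply intervalIntegral.integral_congr
    intro r hr
    rw [uIcc_of_le h1] at hr
    simp only
    rw [max_eq_left hr.1]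
  have e3 : ∫ r in ρ..1, r * Real.log r =
      (1 / 2 * (1 * (1 * Real.log 1)) - 1 ^ 2 / 4) - (1 / 2 * (ρ * (ρ * Real.log ρ)) - ρ ^ 2 / 4) := by
    apply intervalIntegral.integral_eq_sub_of_hasDerivAt_of_le h1
      (f := fun r : ℝ => 1 / 2 * (r * (r * Real.log r)) - r ^ 2 / 4)
    · apply Continuous.continuousOn
      exact (continuous_const.mul (continuous_id.mul hc1)).sub
        ((continuous_id.pow 2).div_const 4)
    · intro r hr
      have hr0 : r ≠ 0 := by
        have := hr.1
        have h2 : 0 < r := by linarith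
        exact h2.ne'
      have hd1 : HasDerivAt (fun r : ℝ => r * Real.log r) (Real.log r + 1) r :=
        Real.hasDerivAt_mul_log hr0
      have hd2 : HasDerivAt (fun r : ℝ => r * (r * Real.log r))
          (1 * (r * Real.log r) + r * (Real.log r + 1)) r := (hasDerivAt_id r).mul hd1
      have hd3 : HasDerivAt (fun r : ℝ => 1 / 2 * (r * (r * Real.log r)) - r ^ 2 / 4)
          (1 / 2 * (1 * (r * Real.log r) + r * (Real.log r + 1)) - ((2 : ℕ) : ℝ) * r ^ (2 - 1) / 4)
          r := (hd2.const_mul (1 / 2 : ℝ)).sub ((hasDerivAt_pow 2 r).div_const 4)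
      have he : r * Real.log r = 1 / 2 * (1 * (r * Real.log r) + r * (Real.log r + 1)) -
          ((2 : ℕ) : ℝ) * r ^ (2 - 1) / 4 := by
        norm_num
        ring
      rw [he]
      exact hd3
    · exact hint1 ρ 1
  have i1 : IntervalIntegrable (fun r : ℝ => r * Real.log (max r ρ)) volume 0 ρ := by
    have : IntervalIntegrable (fun r : ℝ => r * Real.log ρ) volume 0 ρ :=
      (continuous_id.mul continuous_const).intervalIntegrable _ _
    refine this.congr_ae ?_
    refine (ae_restrict_iff' measurableSet_uIoc).mpr (Filter.Eventually.of_forall ?_)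
    intro r hr
    rw [uIoc_of_le h0] at hr
    simp only
    rw [max_eq_right hr.2]
  have i2 : IntervalIntegrable (fun r : ℝ => r * Real.log (max r ρ)) volume ρ 1 := by
    refine (hint1 ρ 1).congr_ae ?_
    refine (ae_restrict_iff' measurableSet_uIoc).mpr (Filter.Eventually.of_forall ?_)
    intro r hr
    rw [uIoc_of_le h1] at hr
    simp only
    rw [max_eq_left hr.1.le]
  rw [← intervalIntegral.integral_add_adjacent_intervals i1 i2, e1, e2, e3, Real.log_one]
  ring

end Auxdisc

/- TARGET, proof in plain words: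
psi (ball 0 1) w = (1/2π) ∫_{|y|<1} log‖w - y‖ dy.  Polar coordinates y = r e^{iφ} (Complex.integral_comp_polarCoord_symm) and Fubini (y ↦ log‖w-y‖ is integrable on
bounded sets):  = ∫_0^1 r · [(1/2π) ∫_{-π}^{π} log‖w - r e^{iφ}‖ dφ] dr.  The circle average of y ↦ log‖y - w‖ over |y| = r is
log max(r, ‖w‖): Mathlib: `circleAverage_log_norm_sub_const...` in Mathlib/Analysis/SpecialFunctions/Integrals/PosLogEqCircleAverage.lean / Mathlib/Analysis/Complex/JensenFormula
(circleAverage (log ‖· - a‖) 0 1 = log⁺ ‖a‖, circleAverage_log_norm_sub_const_eq_log_radius_add_posLog ...), or by harmonicity.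
So with ρ = ‖w‖ ≤ 1: ∫_0^ρ r log ρ dr + ∫_ρ^1 r log r dr = (ρ²/2) log ρ + [r²/2 log r - r²/4]_ρ^1 = (ρ² - 1)/4.  (ρ = 0: same with 0·log 0 = 0.)
-/
theorem t_disc : S_disc := by
  intro w hw
  have hpi : -Real.pi ≤ Real.pi := by linarith [Real.pi_pos]
  unfold psi
  have h1 : ∫ y in Metric.ball (0:ℂ) 1, Real.log ‖w - y‖ =
      ∫ p in Ioo (0:ℝ) 1 ×ˢ Ioo (-Real.pi) Real.pi, p.1 * Auxdisc.lg w p.1 p.2 := by
    rw [← integral_indicator Metric.isOpen_ball.measurableSet,
      ← Complex.integral_comp_polarCoord_symm,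
      ← integral_indicator (measurableSet_Ioo.prod measurableSet_Ioo),
      ← integral_indicator polarCoord.open_target.measurableSet]
    congr 1
    ext p
    by_cases hp : p ∈ polarCoord.target
    · rw [indicator_of_mem hp]
      have hp0 : 0 < p.1 := hp.1
      have hn : ‖Complex.polarCoord.symm p‖ = p.1 := by
        rw [Complex.norm_polarCoord_symm, abs_of_pos hp0]
      by_cases hp1 : p.1 < 1
      · have hb : Complex.polarCoord.symm p ∈ Metric.ball (0:ℂ) 1 := by
          rw [mem_ball_zero_iff, hn]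
          exact hp1
        have hq : p ∈ Ioo (0:ℝ) 1 ×ˢ Ioo (-Real.pi) Real.pi := ⟨⟨hp0, hp1⟩, hp.2⟩
        rw [indicator_of_mem hb, indicator_of_mem hq, smul_eq_mul, Auxdisc.lg, norm_sub_rev,
          Complex.polarCoord_symm_apply]
        congr 4
        simp only [circleMap, zero_add]
        rw [Complex.exp_mul_I]
        simp
      · have hb : Complex.polarCoord.symm p ∉ Metric.ball (0:ℂ) 1 := by
          rw [mem_ball_zero_iff, hn]
          exact hp1
        have hq : p ∉ Ioo (0:ℝ) 1 ×ˢ Ioo (-Real.pi) Real.pi := fun h => hp1 h.1.2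
        rw [indicator_of_notMem hb, indicator_of_notMem hq, smul_zero]
    · have hq : p ∉ Ioo (0:ℝ) 1 ×ˢ Ioo (-Real.pi) Real.pi := fun h => hp ⟨h.1.1, h.2⟩
      rw [indicator_of_notMem hp, indicator_of_notMem hq]
  have h2 : ∫ p in Ioo (0:ℝ) 1 ×ˢ Ioo (-Real.pi) Real.pi, p.1 * Auxdisc.lg w p.1 p.2 =
      ∫ r in Ioo (0:ℝ) 1, ∫ t in Ioo (-Real.pi) Real.pi, r * Auxdisc.lg w r t := by
    rw [Measure.volume_eq_prod]
    exact setIntegral_prod _ (Auxdisc.lg_prod w hw)
  have h3 : ∫ r in Ioo (0:ℝ) 1, ∫ t in Ioo (-Real.pi) Real.pi, r * Auxdisc.lg w r t =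
      ∫ r in Ioo (0:ℝ) 1, 2 * Real.pi * (r * Real.log (max r ‖w‖)) := by
    apply setIntegral_congr_fun measurableSet_Ioo
    intro r hr
    simp only
    rw [← integral_Ioc_eq_integral_Ioo, ← intervalIntegral.integral_of_le hpi,
      intervalIntegral.integral_const_mul, Auxdisc.lg_integral w r hr.1]
    ring
  rw [h1, h2, h3, ← integral_Ioc_eq_integral_Ioo, ← intervalIntegral.integral_of_le zero_le_one,
    intervalIntegral.integral_const_mul, Auxdisc.radial ‖w‖ (norm_nonneg w) hw]
  have := Real.pi_pos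
  field_simp

end Pool.Agent.H682_VS
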