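import Pool.Agent.H682_VS.Stmts
import Pool.Agent.W143.DQ.Schauder

/-! # Schauder -/

set_option autoImplicit false

namespace Pool.Agent.H682_VS

theorem schauder {E : Type*} [NormedAddCommGroup E] [NormedSpace ℝ E] {K : Set E}
    (hK : IsCompact K) (hc : Convex ℝ K) (hne : K.Nonempty) (f : E → E) (hf : ContinuousOn f K)
    (hm : ∀ x ∈ K, f x ∈ K) : ∃ x ∈ K, f x = x :=
  Pool.Agent.W143.DQ.schauder hK hc hne f hf hm

end Pool.Agent.H682_VS
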