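import Pool.Agent.H682_VS.Stmts

/-! # aa -/

set_option autoImplicit false

open MeasureTheory Set Filter Topology

namespace Pool.Agent.H682_VS


/- TARGET, proof in plain words:
Arzela-Ascoli on the compact space X = [0,H] × [0,π].  The set is closed in C(X,ℝ) (the conditions are closed under pointwise limits; evaluation is
continuous), bounded and equicontinuous.  Use `BoundedContinuousFunction.arzela_ascoli` (transport along
ContinuousMap.equivBoundedOfCompact / isometryEquivBoundedOfCompact) or any version of Ascoli in Mathlib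
(Mathlib/Topology/UniformSpace/Ascoli.lean, Mathlib/Topology/ContinuousMap/Bounded/ArzelaAscoli.lean).
-/
theorem t_aa (H M : ℝ) (hH : 0 < H) (hM : 0 ≤ M) :
    IsCompact {F : C(Icc (0:ℝ) H × Icc (0:ℝ) Real.pi, ℝ) | (∀ p, |F p| ≤ M) ∧
      ∀ p p' : Icc (0:ℝ) H × Icc (0:ℝ) Real.pi, |F p - F p'| ≤
        M * (|(p.1 : ℝ) - p'.1| + |(p.2 : ℝ) - p'.2|)} := by
  set S : Set C(Icc (0:ℝ) H × Icc (0:ℝ) Real.pi, ℝ) :=
    {F | (∀ p, |F p| ≤ M) ∧ ∀ p p' : Icc (0:ℝ) H × Icc (0:ℝ) Real.pi, |F p - F p'| ≤
        M * (|(p.1 : ℝ) - p'.1| + |(p.2 : ℝ) - p'.2|)} with hS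
  have hcl : IsClosed S := by
    have h1 : S = (⋂ p, {F | |F p| ≤ M}) ∩ ⋂ p : Icc (0:ℝ) H × Icc (0:ℝ) Real.pi,
        ⋂ p' : Icc (0:ℝ) H × Icc (0:ℝ) Real.pi, {F | |F p - F p'| ≤
          M * (|(p.1 : ℝ) - p'.1| + |(p.2 : ℝ) - p'.2|)} := by
      ext F
      simp [hS]
    rw [h1]
    refine IsClosed.inter (isClosed_iInter fun p => ?_)
      (isClosed_iInter fun p => isClosed_iInter fun p' => ?_)
    · exact isClosed_le ((continuous_eval_const p).abs) continuous_const
    · exact isClosed_le (((continuous_eval_const p).sub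
        (continuous_eval_const p')).abs) continuous_const
  set e := ContinuousMap.isometryEquivBoundedOfCompact (Icc (0:ℝ) H × Icc (0:ℝ) Real.pi) ℝ with he
  have him : IsCompact (e '' S) := by
    refine BoundedContinuousFunction.arzela_ascoli₂ (Icc (-M) M) isCompact_Icc _ ?_ ?_ ?_
    · exact (e.toHomeomorph.isClosedMap S hcl)
    · rintro _ x ⟨F, hF, rfl⟩
      exact abs_le.1 (hF.1 x)
    · intro x
      rw [Metric.equicontinuousAt_iff]
      intro ε hε
      refine ⟨ε / (2 * M + 1), by positivity, ?_⟩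
      rintro y hy ⟨_, ⟨F, hF, rfl⟩⟩
      show dist (F x) (F y) < ε
      rw [Real.dist_eq]
      have h1 := hF.2 x y
      have hx1 : |(x.1 : ℝ) - y.1| ≤ dist x y := by
        have := le_max_left (dist x.1 y.1) (dist x.2 y.2)
        rw [← Prod.dist_eq] at this
        exact this
      have hx2 : |(x.2 : ℝ) - y.2| ≤ dist x y := by
        have := le_max_right (dist x.1 y.1) (dist x.2 y.2)
        rw [← Prod.dist_eq] at this
        exact this
      rw [dist_comm] at hy
      have h2 : M * (|(x.1 : ℝ) - y.1| + |(x.2 : ℝ) - y.2|) ≤ M * (2 * dist x y) :=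
        mul_le_mul_of_nonneg_left (by linarith) hM
      have h3 : M * (2 * dist x y) ≤ (2 * M) * (ε / (2 * M + 1)) := by
        have := mul_le_mul_of_nonneg_left hy.le (by positivity : 0 ≤ 2 * M)
        linarith
      have h4 : (2 * M) * (ε / (2 * M + 1)) < ε := by
        rw [← mul_div_assoc, div_lt_iff₀ (by positivity)]
        nlinarith
      linarith
  have h2 : e.symm '' (e '' S) = S := by
    rw [← image_comp]
    convert image_id S
    ext F : 1
    simp
  rw [← h2]
  exact him.image e.symm.continuous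

end Pool.Agent.H682_VS
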