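import Pool.Agent.H682_VS.Stmts
import Pool.Agent.H682_VS.K1

/-! # lin -/

set_option autoImplicit false

open MeasureTheory Set Filter Topology

namespace Pool.Agent.H682_VS


namespace Auxlin

theorem q_pos {u : ℝ} (hu : u ≠ 0) (v : ℝ) : 0 < q u v := by
  unfold q
  have h1 : 1 < Real.cosh u := Real.one_lt_cosh.2 hu
  have h2 := Real.cos_le_one v
  linarith

theorem h1_cont {u : ℝ} (hu : u ≠ 0) : Continuous (fun v => h1 u v) := by
  unfold h1
  exact continuous_const.div (by unfold q; fun_prop) (fun v => (q_pos hu v).ne')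

theorem ker_meas (m s x : ℝ) : Measurable (fun p : ℝ × ℝ => ker m s x p.1 p.2) := by
  unfold ker h1 q; fun_prop

theorem ii_sub (f : ℝ → ℝ) (hf : ∀ a b : ℝ, IntervalIntegrable f volume a b) (x : ℝ) :
    IntervalIntegrable (fun x' => f (x - x')) volume 0 Real.pi := by
  have h := (hf (x - 0) (x - Real.pi)).comp_sub_left x
  simpa using h

theorem ii_add (f : ℝ → ℝ) (hf : ∀ a b : ℝ, IntervalIntegrable f volume a b) (x : ℝ) :
    IntervalIntegrable (fun x' => f (x + x')) volume 0 Real.pi := by
  have h := (hf (x + 0) (x + Real.pi)).comp_add_left x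
  simpa using h

theorem int_sub (f : ℝ → ℝ) (x : ℝ) :
    ∫ x' in (0:ℝ)..Real.pi, f (x - x') = ∫ v in (x - Real.pi)..(x - Real.pi + Real.pi), f v := by
  rw [intervalIntegral.integral_comp_sub_left]
  congr 1
  ring

theorem int_add (f : ℝ → ℝ) (x : ℝ) :
    ∫ x' in (0:ℝ)..Real.pi, f (x + x') = ∫ v in x..(x + Real.pi), f v := by
  rw [intervalIntegral.integral_comp_add_left]
  congr 1
  ring

/-- the kernel is integrable in `x'`, with a uniform bound -/
theorem ker_int (m H s x : ℝ) :
    ∃ D : ℝ, 0 ≤ D ∧ ∀ s' ∈ Ioc (0:ℝ) H,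
      IntervalIntegrable (fun x' => ker m s x s' x') volume 0 Real.pi ∧
      ∫ x' in (0:ℝ)..Real.pi, |ker m s x s' x'| ≤ D := by
  obtain ⟨C, hC1, hh1, -, hlog, hii⟩ := t_K1
  have hpi := Real.pi_pos
  by_cases hH : 0 < H
  swap
  · refine ⟨0, le_rfl, fun s' hs' => ?_⟩
    exact absurd (lt_of_lt_of_le hs'.1 hs'.2) hH
  refine ⟨C * (1 + (|s| + H)) + C * (1 + (|s| + H)) + 2 * (C * (1 + H))
    + 2 * (|Am m s| * (Real.pi + C) + |s| * Real.pi), by positivity, fun s' hs' => ?_⟩
  have hs0 : s' ≠ 0 := hs'.1.ne'
  have habs : |s'| ≤ H := by rw [abs_of_pos hs'.1]; exact hs'.2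
  have habs2 : |s - s'| ≤ |s| + H := (abs_sub s s').trans (by linarith)
  have i1 : IntervalIntegrable (fun x' => Real.log (q (s - s') (x - x'))) volume 0 Real.pi :=
    ii_sub _ (fun a b => hii (s - s') a b) x
  have i2 : IntervalIntegrable (fun x' => Real.log (q (s - s') (x + x'))) volume 0 Real.pi :=
    ii_add _ (fun a b => hii (s - s') a b) x
  have i3 : IntervalIntegrable (fun x' => Real.log (q s' x')) volume 0 Real.pi := hii s' _ _
  have i4 : IntervalIntegrable (fun x' => h1 s' x') volume 0 Real.pi :=
    (h1_cont hs0).intervalIntegrable _ _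
  have iK : IntervalIntegrable (fun x' => ker m s x s' x') volume 0 Real.pi := by
    unfold ker
    exact ((i1.add i2).sub (i3.const_mul 2)).add
      ((((intervalIntegrable_const.add i4).const_mul _).sub intervalIntegrable_const).const_mul 2)
  refine ⟨iK, ?_⟩
  have b1 : ∫ x' in (0:ℝ)..Real.pi, |Real.log (q (s - s') (x - x'))| ≤ C * (1 + (|s| + H)) := by
    rw [int_sub (fun v => |Real.log (q (s - s') v)|) x]
    refine (hlog _ _).trans (mul_le_mul_of_nonneg_left (by linarith) (by linarith))
  have b2 : ∫ x' in (0:ℝ)..Real.pi, |Real.log (q (s - s') (x + x'))| ≤ C * (1 + (|s| + H)) := by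
    rw [int_add (fun v => |Real.log (q (s - s') v)|) x]
    refine (hlog _ _).trans (mul_le_mul_of_nonneg_left (by linarith) (by linarith))
  have b3 : ∫ x' in (0:ℝ)..Real.pi, |Real.log (q s' x')| ≤ C * (1 + H) := by
    have h := hlog s' 0
    rw [zero_add] at h
    exact h.trans (mul_le_mul_of_nonneg_left (by linarith) (by linarith))
  have b4 : ∫ x' in (0:ℝ)..Real.pi, |h1 s' x'| ≤ C := by
    have h := hh1 s' 0 hs0
    rwa [zero_add] at h
  have iG : IntervalIntegrable (fun x' => |Real.log (q (s - s') (x - x'))|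
      + |Real.log (q (s - s') (x + x'))| + 2 * |Real.log (q s' x')|
      + 2 * (|Am m s| * (1 + |h1 s' x'|) + |s|)) volume 0 Real.pi :=
    ((i1.abs.add i2.abs).add (i3.abs.const_mul 2)).add
      ((((intervalIntegrable_const.add i4.abs).const_mul _).add intervalIntegrable_const).const_mul 2)
  calc ∫ x' in (0:ℝ)..Real.pi, |ker m s x s' x'|
      ≤ ∫ x' in (0:ℝ)..Real.pi, (|Real.log (q (s - s') (x - x'))|
      + |Real.log (q (s - s') (x + x'))| + 2 * |Real.log (q s' x')|
      + 2 * (|Am m s| * (1 + |h1 s' x'|) + |s|)) := by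
        apply intervalIntegral.integral_mono_on hpi.le iK.abs iG
        intro x' _
        unfold ker
        have e1 := abs_add_le (Real.log (q (s - s') (x - x')) + Real.log (q (s - s') (x + x'))
          - 2 * Real.log (q s' x')) (2 * (Am m s * (1 + h1 s' x') - s))
        have e2 := abs_sub (Real.log (q (s - s') (x - x')) + Real.log (q (s - s') (x + x')))
          (2 * Real.log (q s' x'))
        have e3 := abs_add_le (Real.log (q (s - s') (x - x'))) (Real.log (q (s - s') (x + x')))
        have e4 : |2 * Real.log (q s' x')| = 2 * |Real.log (q s' x')| := by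
          rw [abs_mul, abs_of_pos (by norm_num : (0:ℝ) < 2)]
        have e5 : |2 * (Am m s * (1 + h1 s' x') - s)| = 2 * |Am m s * (1 + h1 s' x') - s| := by
          rw [abs_mul, abs_of_pos (by norm_num : (0:ℝ) < 2)]
        have e6 := abs_sub (Am m s * (1 + h1 s' x')) s
        have e7 : |Am m s * (1 + h1 s' x')| ≤ |Am m s| * (1 + |h1 s' x'|) := by
          rw [abs_mul]
          refine mul_le_mul_of_nonneg_left ?_ (abs_nonneg _)
          have := abs_add_le 1 (h1 s' x')
          rwa [abs_one] at this
        linarith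
    _ = (∫ x' in (0:ℝ)..Real.pi, |Real.log (q (s - s') (x - x'))|)
        + (∫ x' in (0:ℝ)..Real.pi, |Real.log (q (s - s') (x + x'))|)
        + 2 * (∫ x' in (0:ℝ)..Real.pi, |Real.log (q s' x')|)
        + 2 * (|Am m s| * (Real.pi + ∫ x' in (0:ℝ)..Real.pi, |h1 s' x'|) + |s| * Real.pi) := by
        rw [intervalIntegral.integral_add ((i1.abs.add i2.abs).add (i3.abs.const_mul 2))
          ((((intervalIntegrable_const.add i4.abs).const_mul _).add
            intervalIntegrable_const).const_mul 2),
          intervalIntegral.integral_add (i1.abs.add i2.abs) (i3.abs.const_mul 2),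
          intervalIntegral.integral_add i1.abs i2.abs, intervalIntegral.integral_const_mul,
          intervalIntegral.integral_const_mul,
          intervalIntegral.integral_add ((intervalIntegrable_const.add i4.abs).const_mul _)
            intervalIntegrable_const, intervalIntegral.integral_const_mul,
          intervalIntegral.integral_add intervalIntegrable_const i4.abs,
          intervalIntegral.integral_const, intervalIntegral.integral_const]
        simp only [sub_zero, smul_eq_mul, mul_one]
        ring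
    _ ≤ _ := by
        have hA := abs_nonneg (Am m s)
        have := mul_le_mul_of_nonneg_left b4 hA
        nlinarith

/-- integrability of the outer integrand -/
theorem outer (m H B : ℝ) (σ : ℝ → ℝ → ℝ) (hm : 1 ≤ m) (hσ : Dat B σ) (s x : ℝ) :
    (∀ s' ∈ Ioc (0:ℝ) H, IntervalIntegrable (fun x' => σ s' x' * ker m s x s' x') volume 0 Real.pi) ∧
    IntegrableOn (fun s' => om m s' * ∫ x' in (0:ℝ)..Real.pi, σ s' x' * ker m s x s' x')
      (Ioc 0 H) volume := by
  obtain ⟨D, hD0, hD⟩ := ker_int m H s x
  have hpi := Real.pi_pos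
  have hB0 : 0 ≤ B := (abs_nonneg _).trans (hσ.bdd 0 0)
  have hσm : ∀ s', Measurable (fun x' => σ s' x') := fun s' =>
    hσ.meas.comp (measurable_const.prodMk measurable_id)
  have hi : ∀ s' ∈ Ioc (0:ℝ) H,
      IntervalIntegrable (fun x' => σ s' x' * ker m s x s' x') volume 0 Real.pi := by
    intro s' hs'
    have h1 := (hD s' hs').1
    rw [intervalIntegrable_iff] at h1 ⊢
    refine Integrable.bdd_mul (c := B) h1 (hσm s').aestronglyMeasurable ?_
    exact Eventually.of_forall fun x' => by rw [Real.norm_eq_abs]; exact hσ.bdd s' x'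
  refine ⟨hi, ?_⟩
  have hmeas : Measurable (fun p : ℝ × ℝ => σ p.1 p.2 * ker m s x p.1 p.2) :=
    hσ.meas.mul (ker_meas m s x)
  have hsm : StronglyMeasurable (fun s' => ∫ x' in (0:ℝ)..Real.pi, σ s' x' * ker m s x s' x') := by
    have h := (hmeas.stronglyMeasurable).integral_prod_right' (ν := volume.restrict (Ioc 0 Real.pi))
    simp only [intervalIntegral.integral_of_le hpi.le]
    exact h
  have hom : Measurable (fun s' => om m s') := by unfold om; fun_prop
  refine Measure.integrableOn_of_bounded (M := B * D) (by simp) ?_ ?_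
  · exact (hom.aestronglyMeasurable.mul hsm.aestronglyMeasurable)
  · rw [ae_restrict_iff' measurableSet_Ioc]
    refine Eventually.of_forall fun s' hs' => ?_
    have hom1 : |om m s'| ≤ 1 := by
      unfold om
      rw [abs_of_pos (Real.exp_pos _)]
      apply Real.exp_le_one_iff.2
      have : 0 ≤ 2 * s' / m := div_nonneg (by linarith [hs'.1]) (by linarith)
      linarith
    rw [norm_mul, Real.norm_eq_abs, Real.norm_eq_abs]
    have h2 : |∫ x' in (0:ℝ)..Real.pi, σ s' x' * ker m s x s' x'| ≤ B * D := by
      calc |∫ x' in (0:ℝ)..Real.pi, σ s' x' * ker m s x s' x'|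
          ≤ ∫ x' in (0:ℝ)..Real.pi, |σ s' x' * ker m s x s' x'| :=
            intervalIntegral.abs_integral_le_integral_abs hpi.le
        _ ≤ ∫ x' in (0:ℝ)..Real.pi, B * |ker m s x s' x'| := by
            apply intervalIntegral.integral_mono_on hpi.le (hi s' hs').abs
              ((hD s' hs').1.abs.const_mul B)
            intro x' _
            rw [abs_mul]
            exact mul_le_mul_of_nonneg_right (hσ.bdd s' x') (abs_nonneg _)
        _ = B * ∫ x' in (0:ℝ)..Real.pi, |ker m s x s' x'| := intervalIntegral.integral_const_mul _ _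
        _ ≤ B * D := mul_le_mul_of_nonneg_left (hD s' hs').2 hB0
    calc |om m s'| * |∫ x' in (0:ℝ)..Real.pi, σ s' x' * ker m s x s' x'| ≤ 1 * (B * D) :=
          mul_le_mul hom1 h2 (abs_nonneg _) zero_le_one
      _ = B * D := one_mul _

end Auxlin

/- TARGET, proof in plain words:
Linearity of the iterated integral.  For every s' in (0,H], x' ↦ σi s' x' * ker m s x s' x' is interval integrable on [0,π]: log q(u,·) is
interval integrable (t_K1 part 4, composed with x' ↦ x - x', x + x'; note q u is even in v), h1 s' is continuous bounded for s' ≠ 0, σi is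
bounded measurable.  And s' ↦ om m s' * ∫_0^π σi s' x' * ker ... dx' is interval integrable on [0,H]: it is measurable (parametric
integral of a jointly measurable function, e.g. MeasureTheory.StronglyMeasurable.integral_prod_right) and bounded by t_K1 parts 1, 3 (0 < s' ≤ H;
0 ≤ om ≤ 1).  Then integral_sub twice.
-/
theorem t_lin : S_lin := by
  intro m H B1 B2 σ1 σ2 hm hH hσ1 hσ2 s x
  obtain ⟨a1, c1⟩ := Auxlin.outer m H B1 σ1 hm hσ1 s x
  obtain ⟨a2, c2⟩ := Auxlin.outer m H B2 σ2 hm hσ2 s x
  unfold Lop
  rw [← mul_sub]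
  congr 1
  rw [intervalIntegral.integral_of_le hH.le, intervalIntegral.integral_of_le hH.le,
    intervalIntegral.integral_of_le hH.le, ← integral_sub c1 c2]
  refine setIntegral_congr_fun measurableSet_Ioc fun s' hs' => ?_
  beta_reduce
  rw [← mul_sub, ← intervalIntegral.integral_sub (a1 s' hs') (a2 s' hs')]
  congr 1
  refine intervalIntegral.integral_congr fun x' _ => ?_
  ring

end Pool.Agent.H682_VS
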