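import Pool.Agent.H682_VS.Bet
import Pool.Agent.H682_VS.T_Lx
import Pool.Agent.H682_VS.T_Ls
import Pool.Agent.H682_VS.T_bound
import Pool.Agent.H682_VS.T_cont
import Pool.Agent.H682_VS.T_lin
import Pool.Agent.H682_VS.T_mono
import Pool.Agent.H682_VS.T_aa
import Pool.Agent.H682_VS.Sch

/-! # exist -/

set_option autoImplicit false

open MeasureTheory Set Filter Topology

namespace Pool.Agent.H682_VS


namespace Auxexist

lemma pp : (0:ℝ) ≤ Real.pi := Real.pi_pos.le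

/-- the extension of a function on the rectangle to the plane -/
noncomputable def exF {H : ℝ} (hH : 0 ≤ H) (F : C(Icc (0:ℝ) H × Icc (0:ℝ) Real.pi, ℝ)) (s x : ℝ) : ℝ :=
  F (projIcc 0 H hH s, projIcc 0 Real.pi pp x)

lemma exF_cont {H : ℝ} (hH : 0 ≤ H) (F : C(Icc (0:ℝ) H × Icc (0:ℝ) Real.pi, ℝ)) :
    Continuous (Function.uncurry (exF hH F)) := by
  unfold exF Function.uncurry
  exact F.continuous.comp ((continuous_projIcc.comp continuous_fst).prodMk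
    (continuous_projIcc.comp continuous_snd))

/-- the density attached to `F` -/
noncomputable def sF {H : ℝ} (ε : ℝ) (hH : 0 ≤ H) (F : C(Icc (0:ℝ) H × Icc (0:ℝ) Real.pi, ℝ))
    (s x : ℝ) : ℝ := 1 - bet (exF hH F s x / ε)

lemma sF_cont {H : ℝ} (ε : ℝ) (hH : 0 ≤ H) (F : C(Icc (0:ℝ) H × Icc (0:ℝ) Real.pi, ℝ)) :
    Continuous (Function.uncurry (sF ε hH F)) := by
  have h : Continuous (fun p : ℝ × ℝ => 1 - bet (Function.uncurry (exF hH F) p / ε)) :=
    continuous_const.sub (bet_continuous.comp ((exF_cont hH F).div_const ε))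
  exact h

lemma sF_dat {H : ℝ} (ε : ℝ) (hH : 0 ≤ H) (F : C(Icc (0:ℝ) H × Icc (0:ℝ) Real.pi, ℝ)) :
    Dat 1 (sF ε hH F) := by
  refine ⟨(sF_cont ε hH F).measurable, fun s x => ?_⟩
  unfold sF
  rw [abs_le]
  constructor
  · linarith [bet_le_one (exF hH F s x / ε)]
  · linarith [bet_nonneg (exF hH F s x / ε)]

lemma hf_cont (m : ℝ) : Continuous (Function.uncurry (hf m)) := by
  unfold hf Am Function.uncurry
  fun_prop

lemma Fe_cont (m H ε B : ℝ) (hm : 1 ≤ m) (hH : 0 < H) (σ : ℝ → ℝ → ℝ) (hd : Dat B σ) :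
    Continuous (Function.uncurry (Fe m H ε σ)) := by
  have h : Continuous (fun p : ℝ × ℝ => Function.uncurry (Lop m H σ) p
      + ε * Function.uncurry (hf m) p) :=
    (t_cont m H B σ hm hH hd).1.add ((hf_cont m).const_mul ε)
  exact h

lemma hf_dx (m s x : ℝ) : HasDerivAt (fun y => hf m s y) (-(Real.exp (-s) * Real.sin x)) x := by
  have h : HasDerivAt (fun y => Real.exp (-s) * Real.cos y - 1 + Am m s)
      (Real.exp (-s) * -Real.sin x) x :=
    (((Real.hasDerivAt_cos x).const_mul (Real.exp (-s))).sub_const 1).add_const (Am m s)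
  exact h.congr_deriv (by ring)

lemma Am_ds (m s : ℝ) (hm : 1 ≤ m) : HasDerivAt (fun y => Am m y) (om m s) s := by
  have hm0 : m ≠ 0 := by linarith
  have h1 : HasDerivAt (fun y : ℝ => -(2 * y / m)) (-(2 * 1 / m)) s :=
    (((hasDerivAt_id' s).const_mul 2).div_const m).neg
  have h2 : HasDerivAt (fun y : ℝ => m / 2 * (1 - Real.exp (-(2 * y / m))))
      (m / 2 * -(Real.exp (-(2 * s / m)) * -(2 * 1 / m))) s :=
    ((h1.exp).const_sub 1).const_mul (m / 2)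
  refine h2.congr_deriv ?_
  unfold om
  field_simp

lemma hf_ds (m s x : ℝ) (hm : 1 ≤ m) :
    HasDerivAt (fun y => hf m y x) (-(Real.exp (-s) * Real.cos x) + om m s) s := by
  have h1 : HasDerivAt (fun y : ℝ => Real.exp (-y)) (Real.exp (-s) * -1) s :=
    (hasDerivAt_id' s).neg.exp
  have h : HasDerivAt (fun y : ℝ => Real.exp (-y) * Real.cos x - 1 + Am m y)
      (Real.exp (-s) * -1 * Real.cos x + om m s) s :=
    ((h1.mul_const (Real.cos x)).sub_const 1).add (Am_ds m s hm)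
  exact h.congr_deriv (by ring)

lemma Fe_dx (m H ε B : ℝ) (hm : 1 ≤ m) (hH : 0 < H) (σ : ℝ → ℝ → ℝ) (hd : Dat B σ) (s x : ℝ) :
    HasDerivAt (fun y => Fe m H ε σ s y)
      (Lx m H σ s x + ε * (-(Real.exp (-s) * Real.sin x))) x := by
  unfold Fe
  exact (t_Lx m H B σ hm hH hd s x).add ((hf_dx m s x).const_mul ε)

lemma Fe_ds (m H ε B : ℝ) (hm : 1 ≤ m) (hH : 0 < H) (σ : ℝ → ℝ → ℝ) (hd : Dat B σ) (s x : ℝ) :
    HasDerivAt (fun y => Fe m H ε σ y x)
      (Ls m H σ s x + ε * (-(Real.exp (-s) * Real.cos x) + om m s)) s := by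
  unfold Fe
  exact (t_Ls m H B σ hm hH hd s x).add ((hf_ds m s x hm).const_mul ε)

lemma exp_b {s : ℝ} (hs : 0 ≤ s) : 0 ≤ Real.exp (-s) ∧ Real.exp (-s) ≤ 1 :=
  ⟨(Real.exp_pos _).le, by rw [Real.exp_le_one_iff]; linarith⟩

lemma om_b {m s : ℝ} (hm : 1 ≤ m) (hs : 0 ≤ s) : 0 ≤ om m s ∧ om m s ≤ 1 := by
  unfold om
  refine ⟨(Real.exp_pos _).le, ?_⟩
  rw [Real.exp_le_one_iff]
  have : 0 ≤ 2 * s / m := by positivity
  linarith

lemma Am_b {m s : ℝ} (hm : 1 ≤ m) (hs : 0 ≤ s) : 0 ≤ Am m s ∧ Am m s ≤ m / 2 := by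
  have h := om_b hm hs
  unfold om at h
  unfold Am
  have hm' : 0 ≤ m / 2 := by linarith
  constructor
  · exact mul_nonneg hm' (by linarith [h.2])
  · nlinarith [h.1, h.2]

lemma ec_b {s : ℝ} (hs : 0 ≤ s) (x : ℝ) : |Real.exp (-s) * Real.cos x| ≤ 1 := by
  rw [abs_mul, abs_of_nonneg (exp_b hs).1]
  have h1 := (exp_b hs).2
  have h2 := Real.abs_cos_le_one x
  calc Real.exp (-s) * |Real.cos x| ≤ 1 * 1 :=
        mul_le_mul h1 h2 (abs_nonneg _) zero_le_one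
    _ = 1 := one_mul 1

lemma es_b {s : ℝ} (hs : 0 ≤ s) (x : ℝ) : |Real.exp (-s) * Real.sin x| ≤ 1 := by
  rw [abs_mul, abs_of_nonneg (exp_b hs).1]
  have h1 := (exp_b hs).2
  have h2 := Real.abs_sin_le_one x
  calc Real.exp (-s) * |Real.sin x| ≤ 1 * 1 :=
        mul_le_mul h1 h2 (abs_nonneg _) zero_le_one
    _ = 1 := one_mul 1

lemma eps_b {ε t D : ℝ} (h0 : 0 < ε) (h1 : ε ≤ 1) (ht : |t| ≤ D) : |ε * t| ≤ D := by
  rw [abs_mul, abs_of_pos h0]
  have := abs_nonneg t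
  nlinarith

lemma hf_b {m s : ℝ} (hm : 1 ≤ m) (hs : 0 ≤ s) (x : ℝ) : |hf m s x| ≤ 2 + m / 2 := by
  unfold hf
  have h1 := abs_le.1 (ec_b hs x)
  have h2 := Am_b hm hs
  rw [abs_le]
  constructor <;> linarith [h1.1, h1.2, h2.1, h2.2]

/-- bounds on the rectangle -/
lemma Fe_bounds (m H ε C : ℝ) (hm : 1 ≤ m) (hε : 0 < ε) (hε1 : ε ≤ 1)
    (σ : ℝ → ℝ → ℝ)
    (hC : ∀ s ∈ Icc (-H) H, ∀ x : ℝ,
      |Lop m H σ s x| ≤ C * 1 ∧ |Lx m H σ s x| ≤ C * 1 ∧ |Ls m H σ s x| ≤ C * 1)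
    (s : ℝ) (hs : s ∈ Icc 0 H) (x : ℝ) :
    |Fe m H ε σ s x| ≤ C + 2 + m / 2 ∧
      |Lx m H σ s x + ε * (-(Real.exp (-s) * Real.sin x))| ≤ C + 2 + m / 2 ∧
      |Ls m H σ s x + ε * (-(Real.exp (-s) * Real.cos x) + om m s)| ≤ C + 2 + m / 2 := by
  have hs' : s ∈ Icc (-H) H := ⟨by linarith [hs.1, hs.2], hs.2⟩
  obtain ⟨h1, h2, h3⟩ := hC s hs' x
  rw [mul_one] at h1 h2 h3
  have hm2 : 0 ≤ m / 2 := by linarith
  refine ⟨?_, ?_, ?_⟩
  · unfold Fe
    have := abs_add_le (Lop m H σ s x) (ε * hf m s x)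
    have h := eps_b hε hε1 (hf_b hm hs.1 x)
    linarith
  · have := abs_add_le (Lx m H σ s x) (ε * (-(Real.exp (-s) * Real.sin x)))
    have h := eps_b (t := -(Real.exp (-s) * Real.sin x)) (D := 1) hε hε1
      (by rw [abs_neg]; exact es_b hs.1 x)
    linarith
  · have := abs_add_le (Ls m H σ s x) (ε * (-(Real.exp (-s) * Real.cos x) + om m s))
    have h := eps_b (t := -(Real.exp (-s) * Real.cos x) + om m s) (D := 2) hε hε1 (by
      have h1 := abs_le.1 (ec_b hs.1 x)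
      have h2 := om_b hm hs.1
      rw [abs_le]
      constructor <;> linarith [h1.1, h1.2, h2.1, h2.2])
    linarith

lemma Fe_lip (m H ε B M : ℝ) (hm : 1 ≤ m) (hH : 0 < H) (σ : ℝ → ℝ → ℝ) (hd : Dat B σ)
    (hx : ∀ s ∈ Icc 0 H, ∀ x, |Lx m H σ s x + ε * (-(Real.exp (-s) * Real.sin x))| ≤ M)
    (hs : ∀ s ∈ Icc 0 H, ∀ x, |Ls m H σ s x + ε * (-(Real.exp (-s) * Real.cos x) + om m s)| ≤ M)
    (s s' : ℝ) (h1 : s ∈ Icc 0 H) (h2 : s' ∈ Icc 0 H) (x x' : ℝ) :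
    |Fe m H ε σ s x - Fe m H ε σ s' x'| ≤ M * (|s - s'| + |x - x'|) := by
  have e1 : |Fe m H ε σ s x - Fe m H ε σ s' x| ≤ M * |s - s'| := by
    have := (convex_Icc (0:ℝ) H).norm_image_sub_le_of_norm_hasDerivWithin_le
      (f := fun y => Fe m H ε σ y x)
      (f' := fun y => Ls m H σ y x + ε * (-(Real.exp (-y) * Real.cos x) + om m y)) (C := M)
      (fun y _ => (Fe_ds m H ε B hm hH σ hd y x).hasDerivWithinAt)
      (fun y hy => by rw [Real.norm_eq_abs]; exact hs y hy x) h2 h1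
    simpa [Real.norm_eq_abs] using this
  have e2 : |Fe m H ε σ s' x - Fe m H ε σ s' x'| ≤ M * |x - x'| := by
    have := (convex_univ (𝕜 := ℝ) (E := ℝ)).norm_image_sub_le_of_norm_hasDerivWithin_le
      (f := fun y => Fe m H ε σ s' y)
      (f' := fun y => Lx m H σ s' y + ε * (-(Real.exp (-s') * Real.sin y))) (C := M)
      (fun y _ => (Fe_dx m H ε B hm hH σ hd s' y).hasDerivWithinAt)
      (fun y _ => by rw [Real.norm_eq_abs]; exact hx s' h2 y) (mem_univ x') (mem_univ x)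
    simpa [Real.norm_eq_abs] using this
  have := abs_sub_le (Fe m H ε σ s x) (Fe m H ε σ s' x) (Fe m H ε σ s' x')
  linarith [mul_add M (|s - s'|) (|x - x'|)]

lemma Ph_cont {m H : ℝ} (ε : ℝ) (hm : 1 ≤ m) (hH : 0 < H)
    (F : C(Icc (0:ℝ) H × Icc (0:ℝ) Real.pi, ℝ)) :
    Continuous (fun p : Icc (0:ℝ) H × Icc (0:ℝ) Real.pi =>
      Fe m H ε (sF ε hH.le F) (p.1 : ℝ) (p.2 : ℝ)) := by
  have h : Continuous (Function.uncurry (Fe m H ε (sF ε hH.le F))) :=
    Fe_cont m H ε 1 hm hH _ (sF_dat ε hH.le F)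
  have h2 : Continuous (fun p : Icc (0:ℝ) H × Icc (0:ℝ) Real.pi => ((p.1 : ℝ), (p.2 : ℝ))) :=
    (continuous_subtype_val.comp continuous_fst).prodMk
      (continuous_subtype_val.comp continuous_snd)
  have h3 := h.comp h2
  exact h3

/-- the map whose fixed point is wanted -/
noncomputable def Ph {m H : ℝ} (ε : ℝ) (hm : 1 ≤ m) (hH : 0 < H)
    (F : C(Icc (0:ℝ) H × Icc (0:ℝ) Real.pi, ℝ)) : C(Icc (0:ℝ) H × Icc (0:ℝ) Real.pi, ℝ) :=
  ⟨fun p => Fe m H ε (sF ε hH.le F) (p.1 : ℝ) (p.2 : ℝ), Ph_cont ε hm hH F⟩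

lemma Ph_apply {m H : ℝ} (ε : ℝ) (hm : 1 ≤ m) (hH : 0 < H)
    (F : C(Icc (0:ℝ) H × Icc (0:ℝ) Real.pi, ℝ)) (p : Icc (0:ℝ) H × Icc (0:ℝ) Real.pi) :
    Ph ε hm hH F p = Fe m H ε (sF ε hH.le F) (p.1 : ℝ) (p.2 : ℝ) := rfl

/-- antitone in the second variable -/
def Anti {H : ℝ} (F : C(Icc (0:ℝ) H × Icc (0:ℝ) Real.pi, ℝ)) : Prop :=
  ∀ (s : Icc (0:ℝ) H) (x1 x2 : Icc (0:ℝ) Real.pi), x1 ≤ x2 → F (s, x2) ≤ F (s, x1)

lemma sF_mono {H : ℝ} (ε : ℝ) (hε : 0 < ε) (hH : 0 ≤ H)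
    (F : C(Icc (0:ℝ) H × Icc (0:ℝ) Real.pi, ℝ)) (hF : Anti F) (s : ℝ) :
    Monotone (sF ε hH F s) := by
  intro x1 x2 h
  unfold sF
  have h1 : exF hH F s x2 ≤ exF hH F s x1 := hF _ _ _ (monotone_projIcc pp h)
  have h2 : exF hH F s x2 / ε ≤ exF hH F s x1 / ε := div_le_div_of_nonneg_right h1 hε.le
  have h3 := bet_mono h2
  linarith

lemma Fe_anti {m H : ℝ} (ε : ℝ) (hε : 0 < ε) (hm : 1 ≤ m) (hH : 0 < H)
    (F : C(Icc (0:ℝ) H × Icc (0:ℝ) Real.pi, ℝ)) (hF : Anti F) (s : ℝ) :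
    AntitoneOn (fun x => Fe m H ε (sF ε hH.le F) s x) (Icc 0 Real.pi) := by
  have hd := sF_dat ε hH.le F
  have hdx := Fe_dx m H ε 1 hm hH _ hd s
  refine antitoneOn_of_deriv_nonpos (convex_Icc 0 Real.pi) ?_ ?_ ?_
  · intro x _
    exact (hdx x).continuousAt.continuousWithinAt
  · intro x _
    exact (hdx x).differentiableAt.differentiableWithinAt
  · intro x hx
    rw [interior_Icc] at hx
    rw [(hdx x).deriv]
    have h1 := t_mono m H 1 _ hm hH hd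
      (fun s' _ => (sF_mono ε hε hH.le F hF s').monotoneOn _) s x ⟨hx.1.le, hx.2.le⟩
    have h2 : 0 ≤ ε * (Real.exp (-s) * Real.sin x) :=
      mul_nonneg hε.le (mul_nonneg (Real.exp_pos _).le
        (Real.sin_nonneg_of_nonneg_of_le_pi hx.1.le hx.2.le))
    linarith

lemma Lop_congr (m H : ℝ) (hH : 0 ≤ H) (σ1 σ2 : ℝ → ℝ → ℝ)
    (h : ∀ s ∈ Icc (0:ℝ) H, ∀ x ∈ Icc (0:ℝ) Real.pi, σ1 s x = σ2 s x) (s x : ℝ) :
    Lop m H σ1 s x = Lop m H σ2 s x := by
  unfold Lop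
  congr 1
  apply intervalIntegral.integral_congr
  intro s' hs'
  rw [uIcc_of_le hH] at hs'
  show om m s' * _ = om m s' * _
  congr 1
  apply intervalIntegral.integral_congr
  intro x' hx'
  rw [uIcc_of_le pp] at hx'
  show σ1 s' x' * _ = σ2 s' x' * _
  rw [h s' hs' x' hx']

end Auxexist

open Auxexist in
/- TARGET -/
theorem t_exist : S_exist := by
  intro m H ε hm hH hε hε1
  obtain ⟨C, hC0, hC⟩ := t_bound m H H hm hH hH
  set M : ℝ := C + 2 + m / 2 with hM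
  have hM0 : 0 ≤ M := by rw [hM]; linarith
  set K0 : Set C(Icc (0:ℝ) H × Icc (0:ℝ) Real.pi, ℝ) := {F | (∀ p, |F p| ≤ M) ∧
      ∀ p p' : Icc (0:ℝ) H × Icc (0:ℝ) Real.pi, |F p - F p'| ≤
        M * (|(p.1 : ℝ) - p'.1| + |(p.2 : ℝ) - p'.2|)} with hK0
  have hK0c : IsCompact K0 := t_aa H M hH hM0
  set K1 : Set C(Icc (0:ℝ) H × Icc (0:ℝ) Real.pi, ℝ) := {F | Anti F} with hK1
  have hK1c : IsClosed K1 := by
    have : K1 = ⋂ (s : Icc (0:ℝ) H), ⋂ (x1 : Icc (0:ℝ) Real.pi), ⋂ (x2 : Icc (0:ℝ) Real.pi),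
        ⋂ (_ : x1 ≤ x2), {F : C(Icc (0:ℝ) H × Icc (0:ℝ) Real.pi, ℝ) | F (s, x2) ≤ F (s, x1)} := by
      ext F
      simp only [hK1, Anti, Set.mem_ofPred_eq, mem_iInter]
    rw [this]
    refine isClosed_iInter fun s => isClosed_iInter fun x1 => isClosed_iInter fun x2 =>
      isClosed_iInter fun _ => ?_
    exact isClosed_le (continuous_eval_const _) (continuous_eval_const _)
  have hKc : IsCompact (K0 ∩ K1) := hK0c.inter_right hK1c
  have hconv : Convex ℝ (K0 ∩ K1) := by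
    intro F hF G hG a b ha hb hab
    refine ⟨⟨fun p => ?_, fun p p' => ?_⟩, fun s x1 x2 h => ?_⟩
    · have h1 := abs_le.1 (hF.1.1 p)
      have h2 := abs_le.1 (hG.1.1 p)
      show |a * F p + b * G p| ≤ M
      have hb' : b = 1 - a := by linarith
      rw [abs_le]
      constructor
      · nlinarith [mul_le_mul_of_nonneg_left h1.1 ha, mul_le_mul_of_nonneg_left h2.1 hb]
      · nlinarith [mul_le_mul_of_nonneg_left h1.2 ha, mul_le_mul_of_nonneg_left h2.2 hb]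
    · have h1 := hF.1.2 p p'
      have h2 := hG.1.2 p p'
      show |(a * F p + b * G p) - (a * F p' + b * G p')| ≤ _
      have e : (a * F p + b * G p) - (a * F p' + b * G p')
          = a * (F p - F p') + b * (G p - G p') := by ring
      rw [e]
      refine (abs_add_le _ _).trans ?_
      rw [abs_mul, abs_mul, abs_of_nonneg ha, abs_of_nonneg hb]
      have e1 := mul_le_mul_of_nonneg_left h1 ha
      have e2 := mul_le_mul_of_nonneg_left h2 hb
      have e3 : a * (M * (|(p.1 : ℝ) - p'.1| + |(p.2 : ℝ) - p'.2|))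
        + b * (M * (|(p.1 : ℝ) - p'.1| + |(p.2 : ℝ) - p'.2|))
        = M * (|(p.1 : ℝ) - p'.1| + |(p.2 : ℝ) - p'.2|) := by
          rw [← add_mul, hab, one_mul]
      linarith
    · show a * F (s, x2) + b * G (s, x2) ≤ a * F (s, x1) + b * G (s, x1)
      have h1 := mul_le_mul_of_nonneg_left (hF.2 s x1 x2 h) ha
      have h2 := mul_le_mul_of_nonneg_left (hG.2 s x1 x2 h) hb
      linarith
  have hne : (K0 ∩ K1).Nonempty := by
    refine ⟨0, ⟨fun p => ?_, fun p p' => ?_⟩, fun s x1 x2 _ => le_refl _⟩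
    · simpa using hM0
    · have : 0 ≤ M * (|(p.1 : ℝ) - p'.1| + |(p.2 : ℝ) - p'.2|) := by positivity
      simpa using this
  have hCF : ∀ F : C(Icc (0:ℝ) H × Icc (0:ℝ) Real.pi, ℝ), ∀ s ∈ Icc (-H) H, ∀ x : ℝ,
      |Lop m H (sF ε hH.le F) s x| ≤ C * 1 ∧ |Lx m H (sF ε hH.le F) s x| ≤ C * 1 ∧
      |Ls m H (sF ε hH.le F) s x| ≤ C * 1 := fun F => hC 1 _ (sF_dat ε hH.le F)
  have hmap : ∀ F ∈ K0 ∩ K1, Ph ε hm hH F ∈ K0 ∩ K1 := by
    intro F hF
    have hb := Fe_bounds m H ε C hm hε hε1 (sF ε hH.le F) (hCF F)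
    refine ⟨⟨fun p => ?_, fun p p' => ?_⟩, fun s x1 x2 h => ?_⟩
    · exact (hb p.1 p.1.2 p.2).1
    · exact Fe_lip m H ε 1 M hm hH _ (sF_dat ε hH.le F)
        (fun s hs x => (hb s hs x).2.1) (fun s hs x => (hb s hs x).2.2)
        p.1 p'.1 p.1.2 p'.1.2 p.2 p'.2
    · exact Fe_anti ε hε hm hH F hF.2 s x1.2 x2.2 h
  have hcont : Continuous (Ph (m := m) ε hm hH) := by
    have hL : 0 ≤ C * (3 / 2 / ε) := by positivity
    have : LipschitzWith (Real.toNNReal (C * (3 / 2 / ε))) (Ph (m := m) ε hm hH) := by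
      refine LipschitzWith.of_dist_le_mul fun F G => ?_
      rw [Real.coe_toNNReal _ hL]
      have hB : 0 ≤ 3 / 2 / ε * dist F G := by positivity
      rw [ContinuousMap.dist_le (mul_nonneg hL dist_nonneg)]
      intro p
      rw [Real.dist_eq, Ph_apply, Ph_apply]
      have hdB : Dat (3 / 2 / ε * dist F G)
          (fun s x => sF ε hH.le F s x - sF ε hH.le G s x) := by
        refine ⟨?_, fun s x => ?_⟩
        · have h := (sF_cont ε hH.le F).sub (sF_cont ε hH.le G)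
          exact h.measurable
        · have e : sF ε hH.le F s x - sF ε hH.le G s x
              = bet (exF hH.le G s x / ε) - bet (exF hH.le F s x / ε) := by
            unfold sF; ring
          rw [e]
          refine (bet_lip _ _).trans ?_
          rw [← sub_div, abs_div, abs_of_pos hε]
          have h1 : |exF hH.le G s x - exF hH.le F s x| ≤ dist F G := by
            rw [abs_sub_comm, ← Real.dist_eq]
            exact ContinuousMap.dist_apply_le_dist _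
          have h2 : 3 / 2 * (|exF hH.le G s x - exF hH.le F s x| / ε) =
            3 / 2 / ε * |exF hH.le G s x - exF hH.le F s x| := by ring
          rw [h2]
          exact mul_le_mul_of_nonneg_left h1 (by positivity)
      have hp : (p.1 : ℝ) ∈ Icc (-H) H := ⟨by linarith [p.1.2.1], p.1.2.2⟩
      have h3 := (hC _ _ hdB p.1 hp p.2).1
      rw [t_lin m H 1 1 _ _ hm hH (sF_dat ε hH.le F) (sF_dat ε hH.le G)] at h3
      have e : Fe m H ε (sF ε hH.le F) p.1 p.2 - Fe m H ε (sF ε hH.le G) p.1 p.2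
        = Lop m H (sF ε hH.le F) p.1 p.2 - Lop m H (sF ε hH.le G) p.1 p.2 := by
        unfold Fe; ring
      rw [e]
      refine h3.trans (le_of_eq ?_)
      show C * (3 / 2 / ε * dist F G) = C * (3 / 2 / ε) * dist F G
      ring
    exact this.continuous
  obtain ⟨F, hF, hfix⟩ := schauder hKc hconv hne (Ph ε hm hH) hcont.continuousOn hmap
  have hext : ∀ s ∈ Icc (0:ℝ) H, ∀ x ∈ Icc (0:ℝ) Real.pi,
      exF hH.le F s x = Fe m H ε (sF ε hH.le F) s x := by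
    intro s hs x hx
    unfold exF
    rw [projIcc_of_mem _ hs, projIcc_of_mem _ hx]
    conv_lhs => rw [← hfix]
    rfl
  refine ⟨fun s x => 1 - bet (Fe m H ε (sF ε hH.le F) s x / ε), ?_⟩
  have hFe : ∀ s x, Fe m H ε (fun s x => 1 - bet (Fe m H ε (sF ε hH.le F) s x / ε)) s x
      = Fe m H ε (sF ε hH.le F) s x := by
    intro s x
    unfold Fe
    congr 1
    apply Lop_congr m H hH.le
    intro s' hs' x' hx'
    show 1 - bet (Fe m H ε (sF ε hH.le F) s' x' / ε) = sF ε hH.le F s' x'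
    rw [← hext s' hs' x' hx']
    rfl
  refine ⟨fun s x => ?_, ?_, fun s hs => ?_⟩
  · rw [hFe]
  · have h : Continuous (fun p : ℝ × ℝ => 1 - bet (Function.uncurry (Fe m H ε (sF ε hH.le F)) p / ε)) :=
      continuous_const.sub (bet_continuous.comp
        ((Fe_cont m H ε 1 hm hH _ (sF_dat ε hH.le F)).div_const ε))
    exact h
  · have h := Fe_anti ε hε hm hH F hF.2 s
    intro x1 hx1 x2 hx2 h12
    show Fe m H ε _ s x2 ≤ Fe m H ε _ s x1
    rw [hFe, hFe]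
    exact h hx1 hx2 h12

end Pool.Agent.H682_VS
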