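import Pool.Agent.H682_VS.Stmts
import Pool.Agent.H682_VS.K1

/-! # forceanti -/

set_option autoImplicit false

open MeasureTheory Set Filter Topology

namespace Pool.Agent.H682_VS


namespace Auxforceanti

lemma q_pos {u v : ℝ} (hu : u ≠ 0) : 0 < q u v := by
  unfold q
  have h1 : 1 < Real.cosh u := Real.one_lt_cosh.mpr hu
  have h2 := Real.cos_le_one v
  linarith

lemma h1_odd (u v : ℝ) : h1 (-u) v = - h1 u v := by
  unfold h1 q
  rw [Real.sinh_neg, Real.cosh_neg, neg_div]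

lemma h1_even (u v : ℝ) : h1 u (-v) = h1 u v := by
  unfold h1 q
  rw [Real.cos_neg]

lemma h1_meas : Measurable (fun p : ℝ × ℝ => h1 p.1 p.2) := by
  unfold h1 q
  fun_prop

lemma h1_cont (u : ℝ) (hu : u ≠ 0) : Continuous (fun v => h1 u v) := by
  unfold h1
  have : Continuous (fun v => q u v) := by
    unfold q
    fun_prop
  exact continuous_const.div this (fun v => (q_pos hu).ne')

/-- the symmetrised kernel -/
noncomputable def kp (z z' : ℝ × ℝ) : ℝ :=
  h1 (z.1 - z'.1) (z.2 - z'.2) + h1 (z.1 - z'.1) (z.2 + z'.2)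

lemma kp_anti (z z' : ℝ × ℝ) : kp z' z = - kp z z' := by
  unfold kp
  have e1 : z'.1 - z.1 = -(z.1 - z'.1) := by ring
  have e2 : z'.2 - z.2 = -(z.2 - z'.2) := by ring
  have e3 : z'.2 + z.2 = z.2 + z'.2 := by ring
  rw [e1, e2, e3, h1_odd, h1_odd, h1_even]
  ring

lemma kp_meas : Measurable (fun p : (ℝ × ℝ) × (ℝ × ℝ) => kp p.1 p.2) := by
  unfold kp h1 q
  fun_prop

lemma kp_meas' (z : ℝ × ℝ) : Measurable (fun z' : ℝ × ℝ => kp z z') := by
  unfold kp h1 q
  fun_prop

lemma kp_abs_int (C : ℝ) (hC : ∀ u a : ℝ, u ≠ 0 → ∫ v in a..(a + Real.pi), |h1 u v| ≤ C)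
    (z : ℝ × ℝ) (s' : ℝ) (hs : s' ≠ z.1) :
    Integrable (fun x' => kp z (s', x')) (volume.restrict (Ioc 0 Real.pi)) ∧
    ∫ x' in Ioc 0 Real.pi, |kp z (s', x')| ≤ 2 * C := by
  have hu : z.1 - s' ≠ 0 := sub_ne_zero.mpr (Ne.symm hs)
  have hpi : (0:ℝ) ≤ Real.pi := Real.pi_pos.le
  have c1 : Continuous (fun x' => h1 (z.1 - s') (z.2 - x')) :=
    (h1_cont _ hu).comp (by fun_prop)
  have c2 : Continuous (fun x' => h1 (z.1 - s') (z.2 + x')) :=
    (h1_cont _ hu).comp (by fun_prop)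
  have c3 : Continuous (fun x' => kp z (s', x')) := by
    unfold kp
    exact c1.add c2
  refine ⟨(c3.integrableOn_Icc (a := 0) (b := Real.pi)).mono_set Ioc_subset_Icc_self, ?_⟩
  rw [← intervalIntegral.integral_of_le hpi]
  have b1 : ∫ x' in (0:ℝ)..Real.pi, |h1 (z.1 - s') (z.2 - x')| ≤ C := by
    rw [intervalIntegral.integral_comp_sub_left (fun v => |h1 (z.1 - s') v|) z.2]
    have := hC (z.1 - s') (z.2 - Real.pi) hu
    simpa using this
  have b2 : ∫ x' in (0:ℝ)..Real.pi, |h1 (z.1 - s') (z.2 + x')| ≤ C := by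
    rw [intervalIntegral.integral_comp_add_left (fun v => |h1 (z.1 - s') v|) z.2]
    have := hC (z.1 - s') z.2 hu
    simpa using this
  have b3 : ∫ x' in (0:ℝ)..Real.pi, |kp z (s', x')| ≤
      ∫ x' in (0:ℝ)..Real.pi, (|h1 (z.1 - s') (z.2 - x')| + |h1 (z.1 - s') (z.2 + x')|) := by
    apply intervalIntegral.integral_mono_on hpi
    · exact (c3.abs).intervalIntegrable _ _
    · exact (c1.abs.add c2.abs).intervalIntegrable _ _
    · intro x' _
      exact abs_add_le _ _
  rw [intervalIntegral.integral_add (c1.abs.intervalIntegrable _ _)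
    (c2.abs.intervalIntegrable _ _)] at b3
  linarith

/-- the weight -/
noncomputable def wt (m : ℝ) (σ : ℝ → ℝ → ℝ) (z : ℝ × ℝ) : ℝ := om m z.1 * σ z.1 z.2

lemma wt_meas (m : ℝ) (σ : ℝ → ℝ → ℝ) (hσ : Dat 1 σ) : Measurable (wt m σ) := by
  unfold wt om
  have := hσ.meas
  have h2 : Measurable (fun z : ℝ × ℝ => σ z.1 z.2) := this
  fun_prop

lemma wt_le (m : ℝ) (hm : 1 ≤ m) (σ : ℝ → ℝ → ℝ) (hσ : Dat 1 σ) (s x : ℝ) (hs : 0 ≤ s) :
    |wt m σ (s, x)| ≤ 1 := by
  unfold wt
  simp only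
  rw [abs_mul]
  have h1 : |om m s| ≤ 1 := by
    unfold om
    rw [abs_of_pos (Real.exp_pos _)]
    apply Real.exp_le_one_iff.mpr
    have : 0 ≤ 2 * s / m := by positivity
    linarith
  have h2 := hσ.bdd s x
  have := mul_le_mul h1 h2 (abs_nonneg _) zero_le_one
  linarith

/-- the measure -/
noncomputable def mu (H : ℝ) : Measure (ℝ × ℝ) :=
  (volume.restrict (Ioc 0 H)).prod (volume.restrict (Ioc 0 Real.pi))

instance (H : ℝ) : IsFiniteMeasure (mu H) := by
  unfold mu
  infer_instance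

lemma ae_ne (H a : ℝ) : ∀ᵐ s ∂(volume.restrict (Ioc 0 H)), s ≠ a ∧ s ∈ Ioc 0 H := by
  have h1 : ∀ᵐ s ∂(volume.restrict (Ioc 0 H)), s ∈ Ioc 0 H := ae_restrict_mem measurableSet_Ioc
  have h2 : ∀ᵐ s ∂(volume : Measure ℝ), s ≠ a := by
    rw [ae_iff]
    simp
  filter_upwards [h1, ae_restrict_of_ae h2] with s a1 a2
  exact ⟨a2, a1⟩

lemma inner (C : ℝ) (_hC0 : 0 ≤ C) (hC : ∀ u a : ℝ, u ≠ 0 → ∫ v in a..(a + Real.pi), |h1 u v| ≤ C)
    (m H : ℝ) (hm : 1 ≤ m) (hH : 0 < H) (σ : ℝ → ℝ → ℝ) (hσ : Dat 1 σ) (z : ℝ × ℝ) :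
    Integrable (fun z' => wt m σ z' * kp z z') (mu H) ∧
    ∫ z', ‖wt m σ z' * kp z z'‖ ∂(mu H) ≤ 2 * C * H := by
  have hmeas : Measurable (fun z' => wt m σ z' * kp z z') := (wt_meas m σ hσ).mul (kp_meas' z)
  have key : ∀ᵐ s' ∂(volume.restrict (Ioc 0 H)),
      Integrable (fun x' => wt m σ (s', x') * kp z (s', x')) (volume.restrict (Ioc 0 Real.pi)) ∧
      ∫ x' in Ioc 0 Real.pi, ‖wt m σ (s', x') * kp z (s', x')‖ ≤ 2 * C := by
    filter_upwards [ae_ne H z.1] with s' hs'
    obtain ⟨k1, k2⟩ := kp_abs_int C hC z s' hs'.1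
    have hm2 : Measurable (fun x' => wt m σ (s', x') * kp z (s', x')) :=
      hmeas.comp (measurable_const.prodMk measurable_id)
    have hle : ∀ x', ‖wt m σ (s', x') * kp z (s', x')‖ ≤ |kp z (s', x')| := by
      intro x'
      rw [norm_mul, Real.norm_eq_abs, Real.norm_eq_abs]
      have := wt_le m hm σ hσ s' x' hs'.2.1.le
      have h3 := mul_le_mul_of_nonneg_right this (abs_nonneg (kp z (s', x')))
      linarith
    have k3 : Integrable (fun x' => wt m σ (s', x') * kp z (s', x'))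
        (volume.restrict (Ioc 0 Real.pi)) :=
      Integrable.mono' k1.abs hm2.aestronglyMeasurable (Eventually.of_forall hle)
    refine ⟨k3, ?_⟩
    refine le_trans ?_ k2
    exact integral_mono k3.norm k1.abs hle
  have hint : Integrable (fun z' => wt m σ z' * kp z z') (mu H) := by
    unfold mu
    rw [integrable_prod_iff hmeas.aestronglyMeasurable]
    refine ⟨key.mono fun s' h => h.1, ?_⟩
    refine Integrable.mono' (integrable_const (2 * C)) ?_ ?_
    · exact (hmeas.norm.aestronglyMeasurable).integral_prod_right'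
    · filter_upwards [key] with s' h
      rw [Real.norm_eq_abs, abs_of_nonneg (integral_nonneg fun _ => norm_nonneg _)]
      exact h.2
  refine ⟨hint, ?_⟩
  have e : ∫ z', ‖wt m σ z' * kp z z'‖ ∂(mu H) =
      ∫ s' in Ioc 0 H, ∫ x' in Ioc 0 Real.pi, ‖wt m σ (s', x') * kp z (s', x')‖ := by
    have := hint.norm
    unfold mu at this ⊢
    exact integral_prod _ this
  rw [e]
  have h3 : ∫ s' in Ioc 0 H, ∫ x' in Ioc 0 Real.pi, ‖wt m σ (s', x') * kp z (s', x')‖ ≤
      ∫ s' in Ioc 0 H, (2 * C) := by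
    apply integral_mono_ae
    · have := hint.norm
      unfold mu at this
      exact this.integral_prod_left
    · exact integrable_const _
    · exact key.mono fun s' h => h.2
  refine h3.trans (le_of_eq ?_)
  rw [setIntegral_const]
  simp [hH.le]
  ring

lemma total (C : ℝ) (hC0 : 0 ≤ C) (hC : ∀ u a : ℝ, u ≠ 0 → ∫ v in a..(a + Real.pi), |h1 u v| ≤ C)
    (m H : ℝ) (hm : 1 ≤ m) (hH : 0 < H) (σ : ℝ → ℝ → ℝ) (hσ : Dat 1 σ) :
    Integrable (fun p : (ℝ × ℝ) × (ℝ × ℝ) => wt m σ p.1 * (wt m σ p.2 * kp p.1 p.2))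
      ((mu H).prod (mu H)) := by
  have hmeas : Measurable
      (fun p : (ℝ × ℝ) × (ℝ × ℝ) => wt m σ p.1 * (wt m σ p.2 * kp p.1 p.2)) :=
    ((wt_meas m σ hσ).comp measurable_fst).mul (((wt_meas m σ hσ).comp measurable_snd).mul kp_meas)
  rw [integrable_prod_iff hmeas.aestronglyMeasurable]
  refine ⟨Eventually.of_forall fun z => ?_, ?_⟩
  · exact (inner C hC0 hC m H hm hH σ hσ z).1.const_mul (wt m σ z)
  · refine Integrable.mono' (integrable_const (2 * C * H)) ?_ ?_
    · exact (hmeas.norm.aestronglyMeasurable).integral_prod_right'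
    · have hae : ∀ᵐ z ∂(mu H), z.1 ∈ Ioc 0 H := by
        unfold mu
        exact Measure.quasiMeasurePreserving_fst.ae (ae_restrict_mem measurableSet_Ioc)
      filter_upwards [hae] with z hz
      rw [Real.norm_eq_abs, abs_of_nonneg (integral_nonneg fun _ => norm_nonneg _)]
      have e : ∀ z', ‖wt m σ z * (wt m σ z' * kp z z')‖ =
          |wt m σ z| * ‖wt m σ z' * kp z z'‖ := fun z' => by
        rw [norm_mul, Real.norm_eq_abs]
      simp only [e]
      rw [integral_const_mul]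
      have h1 := wt_le m hm σ hσ z.1 z.2 hz.1.le
      have h2 := (inner C hC0 hC m H hm hH σ hσ z).2
      have h3 : 0 ≤ ∫ z', ‖wt m σ z' * kp z z'‖ ∂(mu H) := integral_nonneg fun _ => norm_nonneg _
      have h4 := mul_le_mul h1 h2 h3 zero_le_one
      simpa using h4

end Auxforceanti

/- TARGET, proof in plain words:
Let K(z,z') = om(s) σ(z) om(s') σ(z') [h1(s-s',x-x') + h1(s-s',x+x')], z = (s,x), z' = (s',x') in R = (0,H)×(0,π).
h1 is odd in u, even in v, so K(z',z) = -K(z,z') (h1(s'-s, x'-x) = -h1(s-s', x-x'), h1(s'-s, x'+x) = -h1(s-s', x+x')).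
K is measurable and absolutely integrable on R×R: 0 ≤ om ≤ 1, |σ| ≤ 1 and ∫_R |h1(s-s', x ± x')| dz' ≤ H C for every z by t_K1 part 1
(inner integral over x' first, s' ≠ s).  So the left side is ∫_R ∫_R K(z,z') dz' dz (iterated integrals = product integrals, Fubini), which by
swapping the variables equals its own negative; so it is 0.
-/
theorem t_forceanti : ∀ (m H : ℝ) (σ : ℝ → ℝ → ℝ), 1 ≤ m → 0 < H → Dat 1 σ →
    ∫ s in (0:ℝ)..H, om m s * ∫ x in (0:ℝ)..Real.pi, σ s x *
      (∫ s' in (0:ℝ)..H, om m s' * ∫ x' in (0:ℝ)..Real.pi, σ s' x' *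
        (h1 (s - s') (x - x') + h1 (s - s') (x + x'))) = 0 := by
  intro m H σ hm hH hσ
  obtain ⟨C, hC1, hC, -, -, -⟩ := t_K1
  have hC0 : (0:ℝ) ≤ C := by linarith
  have hpi : (0:ℝ) ≤ Real.pi := Real.pi_pos.le
  have hin : ∀ s x : ℝ, (∫ s' in (0:ℝ)..H, om m s' * ∫ x' in (0:ℝ)..Real.pi, σ s' x' *
        (h1 (s - s') (x - x') + h1 (s - s') (x + x'))) =
      ∫ z', Auxforceanti.wt m σ z' * Auxforceanti.kp (s, x) z' ∂(Auxforceanti.mu H) := by
    intro s x
    have hI := (Auxforceanti.inner C hC0 hC m H hm hH σ hσ (s, x)).1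
    unfold Auxforceanti.mu at hI ⊢
    rw [integral_prod _ hI, intervalIntegral.integral_of_le hH.le]
    refine integral_congr_ae (Eventually.of_forall fun s' => ?_)
    simp only
    rw [intervalIntegral.integral_of_le hpi, ← integral_const_mul]
    refine integral_congr_ae (Eventually.of_forall fun x' => ?_)
    simp only [Auxforceanti.wt, Auxforceanti.kp]
    ring
  simp only [hin]
  have hT := Auxforceanti.total C hC0 hC m H hm hH σ hσ
  have hL := hT.integral_prod_left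
  have hout : (∫ s in (0:ℝ)..H, om m s * ∫ x in (0:ℝ)..Real.pi, σ s x *
        ∫ z', Auxforceanti.wt m σ z' * Auxforceanti.kp (s, x) z' ∂(Auxforceanti.mu H)) =
      ∫ z, ∫ z', Auxforceanti.wt m σ z * (Auxforceanti.wt m σ z' * Auxforceanti.kp z z')
        ∂(Auxforceanti.mu H) ∂(Auxforceanti.mu H) := by
    have e2 : (∫ z, ∫ z', Auxforceanti.wt m σ z * (Auxforceanti.wt m σ z' * Auxforceanti.kp z z')
        ∂(Auxforceanti.mu H) ∂(Auxforceanti.mu H)) =
        ∫ s in Ioc 0 H, ∫ x in Ioc 0 Real.pi,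
          ∫ z', Auxforceanti.wt m σ (s, x) * (Auxforceanti.wt m σ z' *
            Auxforceanti.kp (s, x) z') ∂(Auxforceanti.mu H) := by
      have h5 : Integrable (fun z => ∫ z', Auxforceanti.wt m σ z *
          (Auxforceanti.wt m σ z' * Auxforceanti.kp z z') ∂(Auxforceanti.mu H))
          ((volume.restrict (Ioc 0 H)).prod (volume.restrict (Ioc 0 Real.pi))) := hL
      exact integral_prod _ h5
    rw [e2, intervalIntegral.integral_of_le hH.le]
    refine integral_congr_ae (Eventually.of_forall fun s => ?_)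
    simp only
    rw [intervalIntegral.integral_of_le hpi, ← integral_const_mul]
    refine integral_congr_ae (Eventually.of_forall fun x => ?_)
    simp only
    rw [integral_const_mul]
    simp only [Auxforceanti.wt]
    ring
  rw [hout]
  have hsw := integral_integral_swap (f := fun z z' => Auxforceanti.wt m σ z *
    (Auxforceanti.wt m σ z' * Auxforceanti.kp z z')) hT
  have hneg : (∫ z', ∫ z, Auxforceanti.wt m σ z * (Auxforceanti.wt m σ z' * Auxforceanti.kp z z')
        ∂(Auxforceanti.mu H) ∂(Auxforceanti.mu H)) =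
      - ∫ z, ∫ z', Auxforceanti.wt m σ z * (Auxforceanti.wt m σ z' * Auxforceanti.kp z z')
        ∂(Auxforceanti.mu H) ∂(Auxforceanti.mu H) := by
    rw [← integral_neg]
    refine integral_congr_ae (Eventually.of_forall fun z' => ?_)
    simp only
    rw [← integral_neg]
    refine integral_congr_ae (Eventually.of_forall fun z => ?_)
    simp only
    rw [Auxforceanti.kp_anti z' z]
    ring
  have hsw' : (∫ z, ∫ z', Auxforceanti.wt m σ z * (Auxforceanti.wt m σ z' * Auxforceanti.kp z z')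
        ∂(Auxforceanti.mu H) ∂(Auxforceanti.mu H)) =
      ∫ z', ∫ z, Auxforceanti.wt m σ z * (Auxforceanti.wt m σ z' * Auxforceanti.kp z z')
        ∂(Auxforceanti.mu H) ∂(Auxforceanti.mu H) := hsw
  linarith

end Pool.Agent.H682_VS
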