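import Pool.Agent.H682_VS.Stmts
import Pool.Agent.H682_VS.K1
import Pool.Agent.H682_VS.T_sol
import Pool.Agent.H682_VS.T_forceanti

/-! # forceid -/

set_option autoImplicit false

open MeasureTheory Set Filter Topology

namespace Pool.Agent.H682_VS


namespace Auxforceid

/-- weighted iterated integral -/
noncomputable def J (m H : ℝ) (f : ℝ → ℝ → ℝ) : ℝ :=
  ∫ s in (0:ℝ)..H, om m s * ∫ x in (0:ℝ)..Real.pi, f s x

/-- class of functions on which `J` is linear -/
structure Go (H : ℝ) (f : ℝ → ℝ → ℝ) : Prop where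
  meas : Measurable (Function.uncurry f)
  int : ∀ s ∈ Icc (0:ℝ) H, IntervalIntegrable (f s) volume 0 Real.pi
  bdd : ∃ C : ℝ, ∀ s ∈ Icc (0:ℝ) H, ∫ x in (0:ℝ)..Real.pi, |f s x| ≤ C

theorem om_pos (m s : ℝ) : 0 < om m s := Real.exp_pos _

theorem om_le_one {m s : ℝ} (hm : 1 ≤ m) (hs : 0 ≤ s) : om m s ≤ 1 := by
  unfold om
  rw [Real.exp_le_one_iff]
  have : 0 ≤ 2 * s / m := by positivity
  linarith

theorem om_anti {m s H : ℝ} (hm : 1 ≤ m) (hs : s ≤ H) : om m H ≤ om m s := by
  unfold om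
  rw [Real.exp_le_exp]
  have : 2 * s / m ≤ 2 * H / m := by
    apply div_le_div_of_nonneg_right _ (by linarith)
    linarith
  linarith

theorem om_cont (m : ℝ) : Continuous (om m) := by
  unfold om
  fun_prop

theorem outer {m H : ℝ} (hm : 1 ≤ m) (hH : 0 < H) {f : ℝ → ℝ → ℝ} (hf : Go H f) :
    IntervalIntegrable (fun s => om m s * ∫ x in (0:ℝ)..Real.pi, f s x) volume 0 H := by
  obtain ⟨C, hC⟩ := hf.bdd
  rw [intervalIntegrable_iff, uIoc_of_le hH.le]
  have hmeas : Measurable fun s => om m s * ∫ x in (0:ℝ)..Real.pi, f s x := by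
    apply (om_cont m).measurable.mul
    have : (fun s => ∫ x in (0:ℝ)..Real.pi, f s x) =
        fun s => ∫ x in Ioc (0:ℝ) Real.pi, f s x := by
      funext s
      rw [intervalIntegral.integral_of_le Real.pi_pos.le]
    rw [this]
    exact (hf.meas.stronglyMeasurable.integral_prod_right'
      (ν := volume.restrict (Ioc (0:ℝ) Real.pi))).measurable
  apply Measure.integrableOn_of_bounded (M := C) (by simp) hmeas.aestronglyMeasurable
  rw [ae_restrict_iff' measurableSet_Ioc]
  refine Filter.Eventually.of_forall fun s hs => ?_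
  have hs' : s ∈ Icc (0:ℝ) H := ⟨hs.1.le, hs.2⟩
  have h1 : |∫ x in (0:ℝ)..Real.pi, f s x| ≤ C :=
    (intervalIntegral.abs_integral_le_integral_abs Real.pi_pos.le).trans (hC s hs')
  rw [Real.norm_eq_abs, abs_mul, abs_of_pos (om_pos m s)]
  calc om m s * |∫ x in (0:ℝ)..Real.pi, f s x| ≤ 1 * |∫ x in (0:ℝ)..Real.pi, f s x| := by
        apply mul_le_mul_of_nonneg_right (om_le_one hm hs.1.le) (abs_nonneg _)
    _ ≤ C := by rw [one_mul]; exact h1

theorem Go.add {H : ℝ} {f g : ℝ → ℝ → ℝ} (hf : Go H f) (hg : Go H g) :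
    Go H (fun s x => f s x + g s x) := by
  obtain ⟨C, hC⟩ := hf.bdd
  obtain ⟨C', hC'⟩ := hg.bdd
  refine ⟨hf.meas.add hg.meas, fun s hs => (hf.int s hs).add (hg.int s hs), C + C', ?_⟩
  intro s hs
  refine le_trans ?_ (add_le_add (hC s hs) (hC' s hs))
  rw [← intervalIntegral.integral_add (hf.int s hs).abs (hg.int s hs).abs]
  apply intervalIntegral.integral_mono_on Real.pi_pos.le ((hf.int s hs).add (hg.int s hs)).abs
    ((hf.int s hs).abs.add (hg.int s hs).abs)
  intro x _
  exact abs_add_le _ _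

theorem Go.cmul {H : ℝ} {f : ℝ → ℝ → ℝ} (hf : Go H f) (c : ℝ) :
    Go H (fun s x => c * f s x) := by
  obtain ⟨C, hC⟩ := hf.bdd
  refine ⟨hf.meas.const_mul c, fun s hs => (hf.int s hs).const_mul c, |c| * C, ?_⟩
  intro s hs
  simp only [abs_mul]
  rw [intervalIntegral.integral_const_mul]
  exact mul_le_mul_of_nonneg_left (hC s hs) (abs_nonneg _)

theorem Go.of_bdd {H : ℝ} {f : ℝ → ℝ → ℝ} (hm : Measurable (Function.uncurry f))
    (hb : ∃ C : ℝ, ∀ s ∈ Icc (0:ℝ) H, ∀ x, |f s x| ≤ C) : Go H f := by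
  obtain ⟨C, hC⟩ := hb
  have hint : ∀ s ∈ Icc (0:ℝ) H, IntervalIntegrable (f s) volume 0 Real.pi := by
    intro s hs
    rw [intervalIntegrable_iff, uIoc_of_le Real.pi_pos.le]
    have hms : Measurable (f s) := hm.comp (measurable_const.prodMk measurable_id)
    apply Measure.integrableOn_of_bounded (M := C) (by simp) hms.aestronglyMeasurable
    exact Filter.Eventually.of_forall fun x => hC s hs x
  refine ⟨hm, hint, C * Real.pi, fun s hs => ?_⟩
  have h1 : ∫ x in (0:ℝ)..Real.pi, |f s x| ≤ ∫ x in (0:ℝ)..Real.pi, C :=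
    intervalIntegral.integral_mono_on Real.pi_pos.le (hint s hs).abs
      intervalIntegrable_const (fun x _ => hC s hs x)
  refine h1.trans (le_of_eq ?_)
  rw [intervalIntegral.integral_const, smul_eq_mul]
  ring

theorem J_congr {m H : ℝ} {f g : ℝ → ℝ → ℝ} (h : ∀ s x, f s x = g s x) : J m H f = J m H g := by
  have : f = g := by funext s x; exact h s x
  rw [this]

theorem J_add {m H : ℝ} (hm : 1 ≤ m) (hH : 0 < H) {f g : ℝ → ℝ → ℝ} (hf : Go H f)
    (hg : Go H g) : J m H (fun s x => f s x + g s x) = J m H f + J m H g := by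
  unfold J
  rw [← intervalIntegral.integral_add (outer hm hH hf) (outer hm hH hg)]
  apply intervalIntegral.integral_congr
  intro s hs
  rw [uIcc_of_le hH.le] at hs
  simp only
  rw [intervalIntegral.integral_add (hf.int s hs) (hg.int s hs)]
  ring

theorem J_cmul {m H : ℝ} (c : ℝ) (f : ℝ → ℝ → ℝ) :
    J m H (fun s x => c * f s x) = c * J m H f := by
  unfold J
  rw [← intervalIntegral.integral_const_mul]
  apply intervalIntegral.integral_congr
  intro s _
  simp only
  rw [intervalIntegral.integral_const_mul]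
  ring

theorem J_mono {m H : ℝ} (hm : 1 ≤ m) (hH : 0 < H) {f g : ℝ → ℝ → ℝ} (hf : Go H f)
    (hg : Go H g) (h : ∀ s ∈ Icc (0:ℝ) H, ∀ x ∈ Icc (0:ℝ) Real.pi, f s x ≤ g s x) :
    J m H f ≤ J m H g := by
  unfold J
  apply intervalIntegral.integral_mono_on hH.le (outer hm hH hf) (outer hm hH hg)
  intro s hs
  apply mul_le_mul_of_nonneg_left _ (om_pos m s).le
  exact intervalIntegral.integral_mono_on Real.pi_pos.le (hf.int s hs) (hg.int s hs) (h s hs)

theorem J_nonneg {m H : ℝ} (hH : 0 < H) {f : ℝ → ℝ → ℝ}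
    (h : ∀ s ∈ Icc (0:ℝ) H, ∀ x ∈ Icc (0:ℝ) Real.pi, 0 ≤ f s x) : 0 ≤ J m H f := by
  unfold J
  apply intervalIntegral.integral_nonneg hH.le
  intro s hs
  apply mul_nonneg (om_pos m s).le
  exact intervalIntegral.integral_nonneg Real.pi_pos.le (h s hs)

theorem q_pos {u : ℝ} (hu : u ≠ 0) (v : ℝ) : 0 < q u v := by
  unfold q
  have := Real.one_lt_cosh.2 hu
  have := Real.cos_le_one v
  linarith

theorem h1_cont (u : ℝ) : Continuous (h1 u) := by
  by_cases hu : u = 0
  · have : h1 u = fun _ => 0 := by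
      funext v
      rw [hu]; simp [h1]
    rw [this]
    exact continuous_const
  · unfold h1
    apply Continuous.div continuous_const
    · unfold q; fun_prop
    · intro v
      exact (q_pos hu v).ne'

theorem h1_nonneg {u : ℝ} (hu : 0 ≤ u) (v : ℝ) : 0 ≤ h1 u v := by
  rcases hu.eq_or_lt with rfl | hu
  · simp [h1]
  · exact div_nonneg (Real.sinh_nonneg_iff.2 hu.le) (q_pos hu.ne' v).le

theorem h1_meas : Measurable (Function.uncurry h1) := by
  have : Function.uncurry h1 = fun p : ℝ × ℝ => Real.sinh p.1 / (Real.cosh p.1 - Real.cos p.2) := by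
    funext p; rfl
  rw [this]
  apply Measurable.div
  · exact (Real.continuous_sinh.comp continuous_fst).measurable
  · exact ((Real.continuous_cosh.comp continuous_fst).sub
      (Real.continuous_cos.comp continuous_snd)).measurable

/-- uniform bound of the integrals of `h1` -/
theorem K1 : ∃ C : ℝ, ∀ u a : ℝ, ∫ v in a..(a + Real.pi), |h1 u v| ≤ C := by
  obtain ⟨C, hC, h, -⟩ := t_K1
  refine ⟨C, fun u a => ?_⟩
  by_cases hu : u = 0
  · have : (fun v => |h1 u v|) = fun _ => 0 := by
      funext v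
      rw [hu]; simp [h1]
    rw [this]
    simp
    linarith
  · exact h u a hu

theorem mul_h1_go {H : ℝ} {σ : ℝ → ℝ → ℝ} (hcont : Continuous (Function.uncurry σ))
    (hb : ∀ s x, |σ s x| ≤ 1) (U V : ℝ → ℝ → ℝ) (hU : ∀ s x x', U s x = U s x')
    (hUm : Measurable (Function.uncurry U)) (hVm : Measurable (Function.uncurry V))
    (hVc : ∀ s, Continuous (V s))
    (hK : ∃ C : ℝ, ∀ s, ∫ x in (0:ℝ)..Real.pi, |h1 (U s x) (V s x)| ≤ C) :
    Go H (fun s x => σ s x * h1 (U s x) (V s x)) := by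
  obtain ⟨C, hC⟩ := hK
  have hc : ∀ s, Continuous fun x => σ s x * h1 (U s x) (V s x) := by
    intro s
    have h1' : (fun x => σ s x * h1 (U s x) (V s x)) = fun x => σ s x * h1 (U s 0) (V s x) := by
      funext x
      rw [hU s x 0]
    rw [h1']
    exact (hcont.comp (Continuous.prodMk_right s)).mul ((h1_cont _).comp (hVc s))
  have hc' : ∀ s, Continuous fun x => h1 (U s x) (V s x) := by
    intro s
    have h1' : (fun x => h1 (U s x) (V s x)) = fun x => h1 (U s 0) (V s x) := by
      funext x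
      rw [hU s x 0]
    rw [h1']
    exact ((h1_cont _).comp (hVc s))
  refine ⟨?_, fun s _ => (hc s).intervalIntegrable _ _, C, fun s _ => ?_⟩
  · exact hcont.measurable.mul (h1_meas.comp (hUm.prodMk hVm))
  · refine le_trans ?_ (hC s)
    apply intervalIntegral.integral_mono_on Real.pi_pos.le
      ((hc s).abs.intervalIntegrable _ _) ((hc' s).abs.intervalIntegrable _ _)
    intro x _
    rw [abs_mul]
    calc |σ s x| * |h1 (U s x) (V s x)| ≤ 1 * |h1 (U s x) (V s x)| :=
          mul_le_mul_of_nonneg_right (hb s x) (abs_nonneg _)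
      _ = _ := one_mul _

end Auxforceid

open Auxforceid in
theorem t_forceid : ∀ (m H ε : ℝ) (σ : ℝ → ℝ → ℝ), 1 ≤ m → 0 < H → 0 < ε → ε ≤ 1 → Sol m H ε σ →
    (∫ s in (0:ℝ)..H, om m s * ∫ x in (0:ℝ)..Real.pi, σ s x) / (2 * Real.pi) *
      (om m H * (∫ s in (0:ℝ)..H, om m s * ∫ x in (0:ℝ)..Real.pi, σ s x * h1 s x)
        - (1 - om m H) * (∫ s in (0:ℝ)..H, om m s * ∫ x in (0:ℝ)..Real.pi, σ s x))
      - 2 * ε * (∫ s in (0:ℝ)..H, om m s * ∫ x in (0:ℝ)..Real.pi, σ s x)
      ≤ ∫ s in (0:ℝ)..H, om m s * ∫ x in (0:ℝ)..Real.pi, σ s x * Fs m H ε σ s x := by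
  intro m H ε σ hm hH hε hε1 hσ
  obtain ⟨hD, hσ0, -, -, -, -, hFm, -, ⟨CF, hCF⟩, -⟩ := t_sol m H ε σ hm hH hε hε1 hσ
  have hb := hD.bdd
  have hcont := hσ.cont
  obtain ⟨CK, hCK⟩ := K1
  -- classes
  have gσ : Go H σ := Go.of_bdd hD.meas ⟨1, fun s _ x => hb s x⟩
  have gh : Go H (fun s x => σ s x * h1 s x) := by
    apply mul_h1_go hcont hb (fun s _ => s) (fun _ x => x)
      (fun _ _ _ => rfl) measurable_fst measurable_snd (fun _ => continuous_id)
    refine ⟨CK, fun s => ?_⟩
    have := hCK s 0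
    rwa [zero_add] at this
  have gA1 : ∀ s x, Go H (fun s' x' => σ s' x' * h1 (s - s') (x - x')) := by
    intro s x
    apply mul_h1_go hcont hb (fun s' _ => s - s') (fun _ x' => x - x')
      (fun _ _ _ => rfl) (measurable_const.sub measurable_fst)
      (measurable_const.sub measurable_snd) (fun _ => continuous_const.sub continuous_id)
    refine ⟨CK, fun s' => ?_⟩
    have h := intervalIntegral.integral_comp_sub_left (a := 0) (b := Real.pi)
      (fun v => |h1 (s - s') v|) x
    rw [h, sub_zero]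
    have := hCK (s - s') (x - Real.pi)
    rwa [sub_add_cancel] at this
  have gA2 : ∀ s x, Go H (fun s' x' => σ s' x' * h1 (s - s') (x + x')) := by
    intro s x
    apply mul_h1_go hcont hb (fun s' _ => s - s') (fun _ x' => x + x')
      (fun _ _ _ => rfl) (measurable_const.sub measurable_fst)
      (measurable_const.add measurable_snd) (fun _ => continuous_const.add continuous_id)
    refine ⟨CK, fun s' => ?_⟩
    have h := intervalIntegral.integral_comp_add_left (a := 0) (b := Real.pi)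
      (fun v => |h1 (s - s') v|) x
    rw [h]
    have := hCK (s - s') x
    rwa [add_zero]
  have gA : ∀ s x, Go H (fun s' x' => σ s' x' * (h1 (s - s') (x - x') + h1 (s - s') (x + x'))) := by
    intro s x
    have := (gA1 s x).add (gA2 s x)
    simp only [← mul_add] at this
    exact this
  -- names
  set Lm : ℝ := J m H σ with hLm
  set P : ℝ := J m H (fun s x => σ s x * h1 s x) with hP
  let D : ℝ → ℝ → ℝ := fun s x =>
    J m H (fun s' x' => σ s' x' * (h1 (s - s') (x - x') + h1 (s - s') (x + x')))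
  have hLs : ∀ s x, Ls m H σ s x = 1 / (4 * Real.pi) *
      (D s x + 2 * om m s * P + (2 * om m s - 2) * Lm) := by
    intro s x
    unfold Ls
    congr 1
    change J m H (fun s' x' => σ s' x' * (h1 (s - s') (x - x') + h1 (s - s') (x + x')
      + 2 * om m s * (1 + h1 s' x') - 2)) = _
    rw [J_congr (g := fun s' x' =>
      (σ s' x' * (h1 (s - s') (x - x') + h1 (s - s') (x + x'))
        + (2 * om m s) * (σ s' x' * h1 s' x')) + (2 * om m s - 2) * σ s' x')
      (fun s' x' => by ring)]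
    rw [J_add hm hH ((gA s x).add (gh.cmul (2 * om m s))) (gσ.cmul (2 * om m s - 2)),
      J_add hm hH (gA s x) (gh.cmul (2 * om m s)), J_cmul, J_cmul]
  have hπ : (0:ℝ) < Real.pi := Real.pi_pos
  have hFs : ∀ s x, Fs m H ε σ s x = 1 / (4 * Real.pi) *
      (D s x + 2 * om m s * P + (2 * om m s - 2) * Lm) +
      ε * (-(Real.exp (-s) * Real.cos x) + om m s) := by
    intro s x
    unfold Fs
    rw [hLs]
  have hDF : ∀ s x, D s x = 4 * Real.pi * (Fs m H ε σ s x
      - ε * (-(Real.exp (-s) * Real.cos x) + om m s)) - 2 * om m s * P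
      - (2 * om m s - 2) * Lm := by
    intro s x
    rw [hFs]
    field_simp
    ring
  -- the three good functions
  have hom_meas : Measurable fun p : ℝ × ℝ => om m p.1 := (om_cont m).measurable.comp measurable_fst
  have gF : Go H (fun s x => σ s x * Fs m H ε σ s x) := by
    apply Go.of_bdd (f := fun s x => σ s x * Fs m H ε σ s x) (hD.meas.mul hFm)
    refine ⟨CF, fun s hs x => ?_⟩
    rw [abs_mul]
    calc |σ s x| * |Fs m H ε σ s x| ≤ 1 * |Fs m H ε σ s x| :=
          mul_le_mul_of_nonneg_right (hb s x) (abs_nonneg _)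
      _ ≤ CF := by rw [one_mul]; exact (hCF s hs x).2.1
  have gom : Go H (fun s x => om m s * σ s x) := by
    apply Go.of_bdd (f := fun s x => om m s * σ s x) (hom_meas.mul hD.meas)
    refine ⟨1, fun s hs x => ?_⟩
    rw [abs_mul, abs_of_pos (om_pos m s)]
    calc om m s * |σ s x| ≤ 1 * 1 :=
          mul_le_mul (om_le_one hm hs.1) (hb s x) (abs_nonneg _) zero_le_one
      _ = 1 := one_mul _
  have hbr_meas : Measurable fun p : ℝ × ℝ => -(Real.exp (-p.1) * Real.cos p.2) + om m p.1 := by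
    apply Measurable.add _ hom_meas
    apply Continuous.measurable
    fun_prop
  have gbr : Go H (fun s x => σ s x * (-(Real.exp (-s) * Real.cos x) + om m s)) := by
    apply Go.of_bdd (f := fun s x => σ s x * (-(Real.exp (-s) * Real.cos x) + om m s))
      (hD.meas.mul hbr_meas)
    refine ⟨2, fun s hs x => ?_⟩
    have e1 : |Real.exp (-s) * Real.cos x| ≤ 1 := by
      rw [abs_mul, abs_of_pos (Real.exp_pos _)]
      calc Real.exp (-s) * |Real.cos x| ≤ 1 * 1 :=
            mul_le_mul (Real.exp_le_one_iff.2 (by linarith [hs.1])) (Real.abs_cos_le_one x)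
              (abs_nonneg _) zero_le_one
        _ = 1 := one_mul _
    have e2 : |(-(Real.exp (-s) * Real.cos x) + om m s)| ≤ 2 := by
      have h3 := om_pos m s
      have h4 := om_le_one hm hs.1
      rw [abs_le] at e1 ⊢
      constructor <;> linarith [e1.1, e1.2]
    rw [abs_mul]
    calc |σ s x| * |(-(Real.exp (-s) * Real.cos x) + om m s)| ≤ 1 * 2 :=
          mul_le_mul (hb s x) e2 (abs_nonneg _) zero_le_one
      _ = 2 := by norm_num
  -- the identity
  have hanti : J m H (fun s x => σ s x * D s x) = 0 := t_forceanti m H σ hm hH hD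
  have hσD : J m H (fun s x => σ s x * D s x) = 4 * Real.pi * J m H (fun s x =>
      σ s x * Fs m H ε σ s x) + (-(4 * Real.pi * ε)) * J m H (fun s x =>
      σ s x * (-(Real.exp (-s) * Real.cos x) + om m s)) +
      (-(2 * (P + Lm))) * J m H (fun s x => om m s * σ s x) + (2 * Lm) * Lm := by
    rw [J_congr (g := fun s x => (((4 * Real.pi) * (σ s x * Fs m H ε σ s x) +
      (-(4 * Real.pi * ε)) * (σ s x * (-(Real.exp (-s) * Real.cos x) + om m s))) +
      (-(2 * (P + Lm))) * (om m s * σ s x)) + (2 * Lm) * σ s x)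
      (fun s x => by rw [hDF]; ring)]
    rw [J_add hm hH (((gF.cmul _).add (gbr.cmul _)).add (gom.cmul _)) (gσ.cmul _),
      J_add hm hH ((gF.cmul _).add (gbr.cmul _)) (gom.cmul _),
      J_add hm hH (gF.cmul _) (gbr.cmul _), J_cmul, J_cmul, J_cmul, J_cmul]
  -- inequalities
  have hLm0 : 0 ≤ Lm := J_nonneg hH fun s _ x _ => hσ0 s x
  have hP0 : 0 ≤ P := J_nonneg hH fun s hs x _ => mul_nonneg (hσ0 s x) (h1_nonneg hs.1 x)
  have hi1 : om m H * Lm ≤ J m H (fun s x => om m s * σ s x) := by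
    rw [hLm, ← J_cmul]
    apply J_mono hm hH (gσ.cmul _) gom
    intro s hs x _
    exact mul_le_mul_of_nonneg_right (om_anti hm hs.2) (hσ0 s x)
  have hi2 : (-2) * Lm ≤ J m H (fun s x =>
      σ s x * (-(Real.exp (-s) * Real.cos x) + om m s)) := by
    rw [hLm, ← J_cmul]
    apply J_mono hm hH (gσ.cmul _) gbr
    intro s hs x _
    rw [mul_comm]
    apply mul_le_mul_of_nonneg_left _ (hσ0 s x)
    have e1 : Real.exp (-s) * Real.cos x ≤ 1 := by
      calc Real.exp (-s) * Real.cos x ≤ Real.exp (-s) * 1 :=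
            mul_le_mul_of_nonneg_left (Real.cos_le_one x) (Real.exp_pos _).le
        _ ≤ 1 := by rw [mul_one]; exact Real.exp_le_one_iff.2 (by linarith [hs.1])
    have := om_pos m s
    linarith
  rw [hanti] at hσD
  change Lm / (2 * Real.pi) * (om m H * P - (1 - om m H) * Lm) - 2 * ε * Lm ≤
    J m H (fun s x => σ s x * Fs m H ε σ s x)
  set JF := J m H (fun s x => σ s x * Fs m H ε σ s x) with hJF
  set Jo := J m H (fun s x => om m s * σ s x) with hJo
  set Jb := J m H (fun s x => σ s x * (-(Real.exp (-s) * Real.cos x) + om m s)) with hJb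
  have hi3 : (P + Lm) * (om m H * Lm) ≤ (P + Lm) * Jo :=
    mul_le_mul_of_nonneg_left hi1 (by linarith)
  have hi4 : Real.pi * ε * ((-2) * Lm) ≤ Real.pi * ε * Jb :=
    mul_le_mul_of_nonneg_left hi2 (by positivity)
  have hgoal : 4 * Real.pi * (Lm / (2 * Real.pi) * (om m H * P - (1 - om m H) * Lm)
      - 2 * ε * Lm) ≤ 4 * Real.pi * JF := by
    have e1 : 4 * Real.pi * (Lm / (2 * Real.pi) * (om m H * P - (1 - om m H) * Lm)
      - 2 * ε * Lm) = 2 * Lm * (om m H * P - (1 - om m H) * Lm) - 8 * Real.pi * ε * Lm := by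
      field_simp
      ring
    rw [e1]
    nlinarith [hi3, hi4, hσD]
  exact le_of_mul_le_mul_left hgoal (by positivity)

end Pool.Agent.H682_VS
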