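import Pool.Agent.H682_VS.Stmts
import Pool.Agent.H682_VS.K1

/-! # forcemass -/

set_option autoImplicit false

open MeasureTheory Set Filter Topology

namespace Pool.Agent.H682_VS


namespace Auxforcemass

theorem ii {f : ℝ → ℝ} (hf : Measurable f) {a b C : ℝ} (hab : a ≤ b)
    (hb : ∀ s ∈ Ioc a b, |f s| ≤ C) : IntervalIntegrable f volume a b := by
  rw [intervalIntegrable_iff_integrableOn_Ioc_of_le hab]
  exact Measure.integrableOn_of_bounded (M := C) (by simp) hf.aestronglyMeasurable
    (ae_restrict_of_forall_mem measurableSet_Ioc hb)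

theorem meas_par {g : ℝ → ℝ → ℝ} (hg : Measurable (Function.uncurry g)) :
    Measurable (fun s => ∫ x in (0:ℝ)..Real.pi, g s x) := by
  simp_rw [intervalIntegral.integral_of_le Real.pi_pos.le]
  exact (StronglyMeasurable.integral_prod_right hg.stronglyMeasurable).measurable

theorem tanh_half (d : ℝ) : Real.tanh (d / 2) = Real.sinh d / (Real.cosh d + 1) := by
  have h1 : Real.sinh d = 2 * Real.sinh (d / 2) * Real.cosh (d / 2) := by
    rw [← Real.sinh_two_mul]; ring_nf
  have h2 : Real.cosh d = 2 * Real.cosh (d / 2) ^ 2 - 1 := by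
    have := Real.cosh_two_mul (d / 2)
    have h3 := Real.cosh_sq (d / 2)
    rw [show 2 * (d / 2) = d by ring] at this
    linarith
  have hc : 0 < Real.cosh (d / 2) := Real.cosh_pos _
  rw [Real.tanh_eq_sinh_div_cosh, h1, h2]
  field_simp
  ring

theorem h1_meas : Measurable (Function.uncurry h1) := by
  unfold h1 q
  refine Measurable.div ?_ ?_
  · exact Real.measurable_sinh.comp measurable_fst
  · exact (Real.measurable_cosh.comp measurable_fst).sub (Real.measurable_cos.comp measurable_snd)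

theorem q_pos {s : ℝ} (hs : s ≠ 0) (x : ℝ) : 0 < q s x := by
  unfold q
  have := Real.one_lt_cosh.2 hs
  have := Real.cos_le_one x
  linarith

theorem h1_nonneg {s : ℝ} (hs : 0 ≤ s) (x : ℝ) : 0 ≤ h1 s x := by
  unfold h1
  refine div_nonneg (Real.sinh_nonneg_iff.2 hs) ?_
  unfold q
  have := Real.one_le_cosh s
  have := Real.cos_le_one x
  linarith

theorem h1_cont {s : ℝ} (hs : s ≠ 0) : Continuous (fun x => h1 s x) := by
  unfold h1
  refine Continuous.div continuous_const ?_ (fun x => (q_pos hs x).ne')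
  unfold q
  exact continuous_const.sub Real.continuous_cos

theorem h1_lb {d s : ℝ} (hd : 0 < d) (hs : d ≤ s) (x : ℝ) : Real.tanh (d / 2) ≤ h1 s x := by
  rw [tanh_half]
  have hs0 : 0 < s := hd.trans_le hs
  have hq := q_pos hs0.ne' x
  have h0 : 0 ≤ Real.sinh (s - d) := Real.sinh_nonneg_iff.2 (by linarith)
  rw [Real.sinh_sub] at h0
  have hm : Real.sinh d ≤ Real.sinh s := Real.sinh_le_sinh.2 hs
  have hc1 : 0 < Real.cosh d + 1 := by have := Real.cosh_pos d; linarith
  have hc2 : 0 < Real.cosh s + 1 := by have := Real.cosh_pos s; linarith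
  have hsh : 0 ≤ Real.sinh s := Real.sinh_nonneg_iff.2 hs0.le
  calc Real.sinh d / (Real.cosh d + 1) ≤ Real.sinh s / (Real.cosh s + 1) := by
        rw [div_le_div_iff₀ hc1 hc2]
        nlinarith
    _ ≤ h1 s x := by
        unfold h1
        refine div_le_div_of_nonneg_left hsh hq ?_
        unfold q
        have := Real.neg_one_le_cos x
        linarith

theorem main : ∀ (m H t lam0 : ℝ) (σ : ℝ → ℝ → ℝ), 1 ≤ m → 0 < t → t ≤ H → 0 < lam0 →
    Measurable (Function.uncurry σ) → (∀ s x, 0 ≤ σ s x ∧ σ s x ≤ 1) →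
    lam0 ≤ ∫ s in (0:ℝ)..t, ∫ x in (0:ℝ)..Real.pi, σ s x →
    (∫ s in (0:ℝ)..H, om m s * ∫ x in (0:ℝ)..Real.pi, σ s x) ≤ Real.pi * H ∧
    Real.exp (-(2 * H / m)) * lam0 ≤ (∫ s in (0:ℝ)..H, om m s * ∫ x in (0:ℝ)..Real.pi, σ s x) ∧
    Real.exp (-(2 * H / m)) * Real.tanh (lam0 / (4 * Real.pi)) * (lam0 / 2)
      ≤ ∫ s in (0:ℝ)..H, om m s * ∫ x in (0:ℝ)..Real.pi, σ s x * h1 s x := by
  intro m H t lam0 σ hm ht htH hlam hσm hσ hI
  obtain ⟨I, hIdef⟩ : ∃ I : ℝ → ℝ, I = fun s => ∫ x in (0:ℝ)..Real.pi, σ s x := ⟨_, rfl⟩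
  obtain ⟨J, hJdef⟩ : ∃ J : ℝ → ℝ, J = fun s => ∫ x in (0:ℝ)..Real.pi, σ s x * h1 s x := ⟨_, rfl⟩
  have hI' : lam0 ≤ ∫ s in (0:ℝ)..t, I s := by rw [hIdef]; exact hI
  have goal1 : ((∫ s in (0:ℝ)..H, om m s * I s) ≤ Real.pi * H ∧
    Real.exp (-(2 * H / m)) * lam0 ≤ (∫ s in (0:ℝ)..H, om m s * I s) ∧
    Real.exp (-(2 * H / m)) * Real.tanh (lam0 / (4 * Real.pi)) * (lam0 / 2)
      ≤ ∫ s in (0:ℝ)..H, om m s * J s) := by
    have hpi := Real.pi_pos
    have hH : 0 < H := ht.trans_le htH
    have hm0 : 0 < m := by linarith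
    have hσs : ∀ s, Measurable (σ s) := fun s => hσm.of_uncurry_left
    have hσi : ∀ s, IntervalIntegrable (σ s) volume 0 Real.pi := fun s =>
      ii (C := 1) (hσs s) hpi.le (fun x _ => by rw [abs_of_nonneg (hσ s x).1]; exact (hσ s x).2)
    have hI0 : ∀ s, 0 ≤ I s := by
      intro s
      rw [hIdef]
      exact intervalIntegral.integral_nonneg hpi.le (fun x _ => (hσ s x).1)
    have hIpi : ∀ s, I s ≤ Real.pi := by
      intro s
      rw [hIdef]
      have := intervalIntegral.integral_mono_on hpi.le (hσi s)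
        (intervalIntegrable_const (c := (1:ℝ))) (fun x _ => (hσ s x).2)
      simpa using this
    have hIm : Measurable I := by rw [hIdef]; exact meas_par hσm
    have hJm : Measurable J := by
      rw [hJdef]
      exact meas_par (hσm.mul h1_meas)
    have hom : ∀ s, 0 < om m s := fun s => Real.exp_pos _
    have hom1 : ∀ s, 0 ≤ s → om m s ≤ 1 := by
      intro s hs
      unfold om
      rw [Real.exp_le_one_iff]
      have : 0 ≤ 2 * s / m := by positivity
      linarith
    have home : ∀ s, s ≤ H → Real.exp (-(2 * H / m)) ≤ om m s := by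
      intro s hs
      unfold om
      rw [Real.exp_le_exp]
      have : 2 * s / m ≤ 2 * H / m := by gcongr
      linarith
    have homm : Measurable (om m) := by
      unfold om
      fun_prop
    have he : 0 < Real.exp (-(2 * H / m)) := Real.exp_pos _
    have hIii : ∀ a b, a ≤ b → IntervalIntegrable I volume a b := fun a b hab =>
      ii (C := Real.pi) hIm hab (fun s _ => by rw [abs_of_nonneg (hI0 s)]; exact hIpi s)
    have hoIii : ∀ a b, 0 ≤ a → a ≤ b → IntervalIntegrable (fun s => om m s * I s) volume a b :=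
      fun a b ha hab => ii (C := Real.pi) (homm.mul hIm) hab (fun s hs => by
        rw [Pi.mul_apply, abs_of_nonneg (mul_nonneg (hom s).le (hI0 s))]
        calc om m s * I s ≤ 1 * Real.pi :=
              mul_le_mul (hom1 s (by linarith [hs.1])) (hIpi s) (hI0 s) zero_le_one
          _ = Real.pi := one_mul _)
    obtain ⟨C, hC1, hC, -, -, -⟩ := t_K1
    have hJ0 : ∀ s, 0 ≤ s → 0 ≤ J s := by
      intro s hs
      rw [hJdef]
      exact intervalIntegral.integral_nonneg hpi.le
        (fun x _ => mul_nonneg (hσ s x).1 (h1_nonneg hs x))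
    have hJi : ∀ s, 0 < s → IntervalIntegrable (fun x => σ s x * h1 s x) volume 0 Real.pi := by
      intro s hs
      exact (hσi s).mul_continuousOn (h1_cont hs.ne').continuousOn
    have hJC : ∀ s, 0 < s → J s ≤ C := by
      intro s hs
      have h2 := hC s 0 hs.ne'
      rw [zero_add] at h2
      refine le_trans ?_ h2
      rw [hJdef]
      refine intervalIntegral.integral_mono_on hpi.le (hJi s hs)
        ((h1_cont hs.ne').abs.intervalIntegrable _ _) (fun x _ => ?_)
      have h3 := h1_nonneg hs.le x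
      rw [abs_of_nonneg h3]
      calc σ s x * h1 s x ≤ 1 * h1 s x := mul_le_mul_of_nonneg_right (hσ s x).2 h3
        _ = h1 s x := one_mul _
    have hoJii : ∀ a b, 0 ≤ a → a ≤ b → IntervalIntegrable (fun s => om m s * J s) volume a b :=
      fun a b ha hab => ii (C := C) (homm.mul hJm) hab (fun s hs => by
        have hs0 : 0 < s := by linarith [hs.1]
        rw [Pi.mul_apply, abs_of_nonneg (mul_nonneg (hom s).le (hJ0 s hs0.le))]
        calc om m s * J s ≤ 1 * C :=
              mul_le_mul (hom1 s hs0.le) (hJC s hs0) (hJ0 s hs0.le) zero_le_one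
          _ = C := one_mul _)
    refine ⟨?_, ?_, ?_⟩
    · have h2 : (∫ s in (0:ℝ)..H, om m s * I s) ≤ ∫ s in (0:ℝ)..H, Real.pi := by
        refine intervalIntegral.integral_mono_on hH.le (hoIii 0 H le_rfl hH.le)
          intervalIntegrable_const (fun s hs => ?_)
        calc om m s * I s ≤ 1 * Real.pi :=
              mul_le_mul (hom1 s hs.1) (hIpi s) (hI0 s) zero_le_one
          _ = Real.pi := one_mul _
      refine h2.trans (le_of_eq ?_)
      rw [intervalIntegral.integral_const, smul_eq_mul]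
      ring
    · have h3 : (∫ s in (0:ℝ)..t, om m s * I s) + (∫ s in t..H, om m s * I s) =
          ∫ s in (0:ℝ)..H, om m s * I s :=
        intervalIntegral.integral_add_adjacent_intervals (hoIii 0 t le_rfl ht.le)
          (hoIii t H ht.le htH)
      have h4 : 0 ≤ ∫ s in t..H, om m s * I s :=
        intervalIntegral.integral_nonneg htH (fun s _ => mul_nonneg (hom s).le (hI0 s))
      have h5 : Real.exp (-(2 * H / m)) * (∫ s in (0:ℝ)..t, I s) ≤
          ∫ s in (0:ℝ)..t, om m s * I s := by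
        rw [← intervalIntegral.integral_const_mul]
        refine intervalIntegral.integral_mono_on ht.le ((hIii 0 t ht.le).const_mul _)
          (hoIii 0 t le_rfl ht.le) (fun s hs => ?_)
        exact mul_le_mul_of_nonneg_right (home s (hs.2.trans htH)) (hI0 s)
      have h6 : Real.exp (-(2 * H / m)) * lam0 ≤
          Real.exp (-(2 * H / m)) * (∫ s in (0:ℝ)..t, I s) := mul_le_mul_of_nonneg_left hI' he.le
      linarith
    · obtain ⟨d, hd⟩ : ∃ d : ℝ, d = lam0 / (2 * Real.pi) := ⟨_, rfl⟩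
      have hd0 : 0 < d := by rw [hd]; positivity
      have hbd : ∀ b, 0 ≤ b → (∫ s in (0:ℝ)..b, I s) ≤ Real.pi * b := by
        intro b hb
        have h2 : (∫ s in (0:ℝ)..b, I s) ≤ ∫ s in (0:ℝ)..b, Real.pi :=
          intervalIntegral.integral_mono_on hb (hIii 0 b hb) intervalIntegrable_const
            (fun s _ => hIpi s)
        refine h2.trans (le_of_eq ?_)
        rw [intervalIntegral.integral_const, smul_eq_mul]
        ring
      have hdt : d ≤ t := by
        have h2 := hI'.trans (hbd t ht.le)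
        rw [hd, div_le_iff₀ (by positivity)]
        nlinarith
      have hdd : Real.pi * d = lam0 / 2 := by
        rw [hd]
        field_simp
      have hth : Real.tanh (lam0 / (4 * Real.pi)) = Real.tanh (d / 2) := by
        congr 1
        rw [hd]
        field_simp
        ring
      have hth0 : 0 ≤ Real.tanh (d / 2) := by
        rw [tanh_half]
        have := Real.cosh_pos d
        exact div_nonneg (Real.sinh_nonneg_iff.2 hd0.le) (by linarith)
      rw [hth]
      have a1 : (∫ s in (0:ℝ)..d, I s) + (∫ s in d..t, I s) = ∫ s in (0:ℝ)..t, I s :=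
        intervalIntegral.integral_add_adjacent_intervals (hIii 0 d hd0.le) (hIii d t hdt)
      have a2 := hbd d hd0.le
      have a3 : lam0 / 2 ≤ ∫ s in d..t, I s := by linarith
      have b1 : (∫ s in (0:ℝ)..d, om m s * J s) + (∫ s in d..t, om m s * J s) =
          ∫ s in (0:ℝ)..t, om m s * J s :=
        intervalIntegral.integral_add_adjacent_intervals (hoJii 0 d le_rfl hd0.le)
          (hoJii d t hd0.le hdt)
      have b2 : (∫ s in (0:ℝ)..t, om m s * J s) + (∫ s in t..H, om m s * J s) =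
          ∫ s in (0:ℝ)..H, om m s * J s :=
        intervalIntegral.integral_add_adjacent_intervals (hoJii 0 t le_rfl ht.le)
          (hoJii t H ht.le htH)
      have b3 : 0 ≤ ∫ s in (0:ℝ)..d, om m s * J s :=
        intervalIntegral.integral_nonneg hd0.le (fun s hs => mul_nonneg (hom s).le (hJ0 s hs.1))
      have b4 : 0 ≤ ∫ s in t..H, om m s * J s :=
        intervalIntegral.integral_nonneg htH
          (fun s hs => mul_nonneg (hom s).le (hJ0 s (ht.le.trans hs.1)))
      have b5 : Real.exp (-(2 * H / m)) * Real.tanh (d / 2) * (∫ s in d..t, I s) ≤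
          ∫ s in d..t, om m s * J s := by
        rw [← intervalIntegral.integral_const_mul]
        refine intervalIntegral.integral_mono_on hdt ((hIii d t hdt).const_mul _)
          (hoJii d t hd0.le hdt) (fun s hs => ?_)
        have hs0 : 0 < s := hd0.trans_le hs.1
        have hJI : Real.tanh (d / 2) * I s ≤ J s := by
          rw [hIdef, hJdef]
          simp only
          rw [← intervalIntegral.integral_const_mul]
          refine intervalIntegral.integral_mono_on hpi.le ((hσi s).const_mul _) (hJi s hs0)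
            (fun x _ => ?_)
          rw [mul_comm]
          exact mul_le_mul_of_nonneg_left (h1_lb hd0 hs.1 x) (hσ s x).1
        calc Real.exp (-(2 * H / m)) * Real.tanh (d / 2) * I s =
            Real.exp (-(2 * H / m)) * (Real.tanh (d / 2) * I s) := by ring
          _ ≤ om m s * J s := mul_le_mul (home s (hs.2.trans htH)) hJI
              (mul_nonneg hth0 (hI0 s)) (hom s).le
      have b6 : Real.exp (-(2 * H / m)) * Real.tanh (d / 2) * (lam0 / 2) ≤
          Real.exp (-(2 * H / m)) * Real.tanh (d / 2) * (∫ s in d..t, I s) :=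
        mul_le_mul_of_nonneg_left a3 (mul_nonneg he.le hth0)
      linarith
  rw [hIdef, hJdef] at goal1
  exact goal1

end Auxforcemass

/- TARGET, proof in plain words:
0 ≤ σ ≤ 1.  om(s) ≥ e^{-2H/m} =: e on [0,H], om ≤ 1.
Lm ≤ H π;  Lm ≥ e ∫_0^H∫_0^π σ ≥ e ∫_0^t∫_0^π σ ≥ e lam0.
Let δ = lam0/(2π) ; ∫_0^δ ∫_0^π σ ≤ π δ = lam0/2 (if δ ≤ t; and lam0 ≤ π t so δ ≤ t/2), hence ∫_δ^t∫_0^π σ ≥ lam0/2.  For s ≥ δ,
h1(s,x) = sinh s/(cosh s - cos x) ≥ sinh s/(cosh s + 1) = tanh(s/2) ≥ tanh(δ/2) = tanh(lam0/(4π)), and h1 ≥ 0 for s ≥ 0.  So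
Π ≥ e tanh(lam0/(4π)) lam0/2.  (Integrability of s ↦ ∫ σ h1 dx: bounded by t_K1 part 1, measurable.)
-/
theorem t_forcemass : ∀ (m H t lam0 : ℝ) (σ : ℝ → ℝ → ℝ), 1 ≤ m → 0 < t → t ≤ H → 0 < lam0 →
    Measurable (Function.uncurry σ) → (∀ s x, 0 ≤ σ s x ∧ σ s x ≤ 1) →
    lam0 ≤ ∫ s in (0:ℝ)..t, ∫ x in (0:ℝ)..Real.pi, σ s x →
    (∫ s in (0:ℝ)..H, om m s * ∫ x in (0:ℝ)..Real.pi, σ s x) ≤ Real.pi * H ∧
    Real.exp (-(2 * H / m)) * lam0 ≤ (∫ s in (0:ℝ)..H, om m s * ∫ x in (0:ℝ)..Real.pi, σ s x) ∧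
    Real.exp (-(2 * H / m)) * Real.tanh (lam0 / (4 * Real.pi)) * (lam0 / 2)
      ≤ ∫ s in (0:ℝ)..H, om m s * ∫ x in (0:ℝ)..Real.pi, σ s x * h1 s x :=
  Auxforcemass.main

end Pool.Agent.H682_VS
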