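import Pool.Agent.H682_VS.Bet
import Pool.Agent.H682_VS.T_sol

/-! # forceup -/

set_option autoImplicit false

open MeasureTheory Set Filter Topology

namespace Pool.Agent.H682_VS


/- TARGET, proof in plain words:
Γ(τ) := ∫_0^τ (1 - bet(r/ε)) dr.  Γ' = 1 - bet(τ/ε) (continuous integrand), Γ(τ) = τ for τ ≤ 0, Γ(τ) ≤ ε for all τ
(for τ ≥ ε the integrand vanishes beyond ε and is ≤ 1 before).
Fix x in [0,π].  d/ds Γ(Fe(s,x)) = (1 - bet(Fe/ε)) Fs = σ(s,x) Fs(s,x).  Integrate by parts against om, om' = -(2/m) om: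
∫_0^H om σ Fs ds = om(H) Γ(Fe(H,x)) - om(0) Γ(Fe(0,x)) + (2/m) ∫_0^H om Γ(Fe) ds ≤ ε - Fe(0,x) + (2H/m) ε
(0 < om ≤ 1, om 0 = 1, Fe(0,x) ≤ 0 by t_sol so Γ(Fe(0,x)) = Fe(0,x); om(H) Γ ≤ max(Γ,0) ≤ ε).
Integrate over x in [0,π] and swap the order of integration on the left (bounded measurable integrand on [0,H]×[0,π]).
-/
namespace Auxforceup

/-- primitive of `1 - bet (r/ε)` -/
noncomputable def Gam (ε τ : ℝ) : ℝ := ∫ r in (0:ℝ)..τ, (1 - bet (r / ε))

lemma cont_int (ε : ℝ) : Continuous fun r : ℝ => 1 - bet (r / ε) :=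
  continuous_const.sub (bet_continuous.comp (continuous_id.div_const ε))

lemma Gam_hasDerivAt (ε τ : ℝ) : HasDerivAt (Gam ε) (1 - bet (τ / ε)) τ :=
  intervalIntegral.integral_hasDerivAt_right ((cont_int ε).intervalIntegrable _ _)
    (cont_int ε).aestronglyMeasurable.stronglyMeasurableAtFilter (cont_int ε).continuousAt

lemma Gam_continuous (ε : ℝ) : Continuous (Gam ε) :=
  continuous_iff_continuousAt.mpr fun τ => (Gam_hasDerivAt ε τ).continuousAt

lemma Gam_of_nonpos {ε τ : ℝ} (hε : 0 < ε) (h : τ ≤ 0) : Gam ε τ = τ := by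
  have h1 : Gam ε τ = ∫ r in (0:ℝ)..τ, (1:ℝ) := by
    refine intervalIntegral.integral_congr fun r hr => ?_
    rw [Set.uIcc_of_ge h] at hr
    have : bet (r / ε) = 0 := bet_of_nonpos (div_nonpos_of_nonpos_of_nonneg hr.2 hε.le)
    simp [this]
  rw [h1]; simp

lemma Gam_le_self {ε τ : ℝ} (h : 0 ≤ τ) : Gam ε τ ≤ τ := by
  have h1 : Gam ε τ ≤ ∫ r in (0:ℝ)..τ, (1:ℝ) := by
    refine intervalIntegral.integral_mono_on h ((cont_int ε).intervalIntegrable _ _)
      (continuous_const.intervalIntegrable _ _) fun r _ => ?_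
    linarith [bet_nonneg (r / ε)]
  simpa using h1

lemma Gam_le {ε τ : ℝ} (hε : 0 < ε) : Gam ε τ ≤ ε := by
  rcases le_total τ 0 with h | h
  · rw [Gam_of_nonpos hε h]; linarith
  · rcases le_total τ ε with h2 | h2
    · exact (Gam_le_self h).trans h2
    · have h3 : Gam ε τ = Gam ε ε + ∫ r in ε..τ, (1 - bet (r / ε)) := by
        rw [Gam, Gam, intervalIntegral.integral_add_adjacent_intervals
          ((cont_int ε).intervalIntegrable _ _) ((cont_int ε).intervalIntegrable _ _)]
      have h4 : ∫ r in ε..τ, (1 - bet (r / ε)) = 0 := by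
        have : ∫ r in ε..τ, (1 - bet (r / ε)) = ∫ r in ε..τ, (0:ℝ) := by
          refine intervalIntegral.integral_congr fun r hr => ?_
          rw [Set.uIcc_of_le h2] at hr
          have : bet (r / ε) = 1 := bet_of_one_le (by rw [le_div_iff₀ hε]; linarith [hr.1])
          simp [this]
        rw [this]; simp
      rw [h3, h4, add_zero]
      exact Gam_le_self hε.le

lemma om_pos (m s : ℝ) : 0 < om m s := Real.exp_pos _

lemma om_le_one {m s : ℝ} (hm : 1 ≤ m) (hs : 0 ≤ s) : om m s ≤ 1 := by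
  rw [om, Real.exp_le_one_iff]
  have : 0 ≤ 2 * s / m := by positivity
  linarith

lemma om_zero (m : ℝ) : om m 0 = 1 := by simp [om]

lemma om_continuous (m : ℝ) : Continuous (om m) := by
  unfold om; fun_prop

lemma om_hasDerivAt (m s : ℝ) : HasDerivAt (om m) (-(2 / m) * om m s) s := by
  have h1 : HasDerivAt (fun s : ℝ => -(2 * s / m)) (-(2 / m)) s := by
    have h0 : HasDerivAt (fun s : ℝ => (-(2 / m)) * s) ((-(2 / m)) * 1) s :=
      (hasDerivAt_id s).const_mul (-(2 / m))
    rw [mul_one] at h0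
    have e : (fun s : ℝ => -(2 * s / m)) = fun s : ℝ => (-(2 / m)) * s := by
      funext s; ring
    rw [e]; exact h0
  have h2 := h1.exp
  have h3 : HasDerivAt (om m) (Real.exp (-(2 * s / m)) * -(2 / m)) s := h2
  refine h3.congr_deriv ?_
  unfold om
  ring

/-- the inner estimate for fixed `x` -/
lemma inner {m H ε : ℝ} {σ : ℝ → ℝ → ℝ} (hm : 1 ≤ m) (hH : 0 < H) (hε : 0 < ε) (x : ℝ)
    (heq : ∀ s x, σ s x = 1 - bet (Fe m H ε σ s x / ε))
    (hder : ∀ s x, HasDerivAt (fun y => Fe m H ε σ y x) (Fs m H ε σ s x) s)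
    (hint : IntervalIntegrable (fun s => om m s * (σ s x * Fs m H ε σ s x)) volume 0 H)
    (hcont : Continuous (fun s => Fe m H ε σ s x))
    (h0 : Fe m H ε σ 0 x ≤ 0) :
    ∫ s in (0:ℝ)..H, om m s * (σ s x * Fs m H ε σ s x) ≤ ε - Fe m H ε σ 0 x + 2 * H / m * ε := by
  have hm0 : 0 < m := by linarith
  set g : ℝ → ℝ := fun s => om m s * Gam ε (Fe m H ε σ s x) with hg
  have hG : Continuous (fun s => Gam ε (Fe m H ε σ s x)) := (Gam_continuous ε).comp hcont
  have hgd : ∀ s, HasDerivAt g (om m s * (σ s x * Fs m H ε σ s x)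
      - 2 / m * (om m s * Gam ε (Fe m H ε σ s x))) s := by
    intro s
    have h1 : HasDerivAt (fun s => Gam ε (Fe m H ε σ s x))
        ((1 - bet (Fe m H ε σ s x / ε)) * Fs m H ε σ s x) s :=
      HasDerivAt.comp (h₂ := Gam ε) (h := fun y => Fe m H ε σ y x) s
        (Gam_hasDerivAt ε (Fe m H ε σ s x)) (hder s x)
    have h2 := (om_hasDerivAt m s).mul h1
    rw [← heq s x] at h2
    refine h2.congr_deriv ?_
    ring
  have hi2 : IntervalIntegrable (fun s => 2 / m * (om m s * Gam ε (Fe m H ε σ s x))) volume 0 H :=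
    (continuous_const.mul ((om_continuous m).mul hG)).intervalIntegrable _ _
  have hftc := intervalIntegral.integral_eq_sub_of_hasDerivAt (fun s _ => hgd s) (hint.sub hi2)
  rw [intervalIntegral.integral_sub hint hi2, intervalIntegral.integral_const_mul] at hftc
  have hb1 : g H ≤ ε := by
    simp only [hg]
    rcases le_total (Gam ε (Fe m H ε σ H x)) 0 with h | h
    · exact (mul_nonpos_of_nonneg_of_nonpos (om_pos m H).le h).trans hε.le
    · calc om m H * Gam ε (Fe m H ε σ H x) ≤ 1 * Gam ε (Fe m H ε σ H x) :=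
            mul_le_mul_of_nonneg_right (om_le_one hm hH.le) h
        _ ≤ ε := by rw [one_mul]; exact Gam_le hε
  have hb0 : g 0 = Fe m H ε σ 0 x := by
    simp only [hg]
    rw [om_zero, one_mul, Gam_of_nonpos hε h0]
  have hb2 : ∫ s in (0:ℝ)..H, om m s * Gam ε (Fe m H ε σ s x) ≤ H * ε := by
    have : ∫ s in (0:ℝ)..H, om m s * Gam ε (Fe m H ε σ s x) ≤ ∫ s in (0:ℝ)..H, ε := by
      refine intervalIntegral.integral_mono_on hH.le
        (((om_continuous m).mul hG).intervalIntegrable _ _)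
        (continuous_const.intervalIntegrable _ _) fun s hs => ?_
      rcases le_total (Gam ε (Fe m H ε σ s x)) 0 with h | h
      · exact (mul_nonpos_of_nonneg_of_nonpos (om_pos m s).le h).trans hε.le
      · calc om m s * Gam ε (Fe m H ε σ s x) ≤ 1 * Gam ε (Fe m H ε σ s x) :=
              mul_le_mul_of_nonneg_right (om_le_one hm hs.1) h
          _ ≤ ε := by rw [one_mul]; exact Gam_le hε
    simpa using this
  have hb3 : 2 / m * ∫ s in (0:ℝ)..H, om m s * Gam ε (Fe m H ε σ s x) ≤ 2 / m * (H * ε) :=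
    mul_le_mul_of_nonneg_left hb2 (by positivity)
  have hb4 : 2 / m * (H * ε) = 2 * H / m * ε := by ring
  rw [hb0] at hftc
  linarith

end Auxforceup

theorem t_forceup : ∀ (m H ε : ℝ) (σ : ℝ → ℝ → ℝ), 1 ≤ m → 0 < H → 0 < ε → ε ≤ 1 → Sol m H ε σ →
    ∫ s in (0:ℝ)..H, om m s * ∫ x in (0:ℝ)..Real.pi, σ s x * Fs m H ε σ s x
      ≤ ∫ x in (0:ℝ)..Real.pi, (ε - Fe m H ε σ 0 x + 2 * H / m * ε) := by
  intro m H ε σ hm hH hε hε1 hsol
  obtain ⟨hdat, -, -, hder, -, -, hmF, -, ⟨C, hC⟩, -, -, -, hcont, hneg, -⟩ :=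
    t_sol m H ε σ hm hH hε hε1 hsol
  have hpi := Real.pi_pos
  -- the integrand on the product
  set f : ℝ → ℝ → ℝ := fun s x => om m s * (σ s x * Fs m H ε σ s x) with hf
  have hmeas : Measurable (Function.uncurry f) := by
    have h1 : Measurable (fun p : ℝ × ℝ => om m p.1) :=
      (Auxforceup.om_continuous m).measurable.comp measurable_fst
    exact h1.mul (hdat.meas.mul hmF)
  have hbd : ∀ s ∈ Icc (0:ℝ) H, ∀ x, |f s x| ≤ C := by
    intro s hs x
    have hCx := (hC s hs x).2.1
    have h0 : 0 ≤ |Fs m H ε σ s x| := abs_nonneg _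
    simp only [hf]
    rw [abs_mul, abs_mul, abs_of_pos (Auxforceup.om_pos m s)]
    have h1 := Auxforceup.om_le_one (s := s) hm hs.1
    have h2 := hdat.bdd s x
    have h3 : |σ s x| * |Fs m H ε σ s x| ≤ 1 * C := mul_le_mul h2 hCx h0 zero_le_one
    have h4 : 0 ≤ |σ s x| * |Fs m H ε σ s x| := mul_nonneg (abs_nonneg _) h0
    calc om m s * (|σ s x| * |Fs m H ε σ s x|) ≤ 1 * (1 * C) :=
          mul_le_mul h1 h3 h4 zero_le_one
      _ = C := by ring
  have hint : Integrable (Function.uncurry f)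
      ((volume.restrict (Ioc 0 H)).prod (volume.restrict (Ioc 0 Real.pi))) := by
    rw [Measure.prod_restrict]
    refine Measure.integrableOn_of_bounded (M := C) ?_ hmeas.aestronglyMeasurable ?_
    · rw [Measure.prod_prod]
      exact (ENNReal.mul_lt_top (by simp) (by simp)).ne
    · rw [ae_restrict_iff' (measurableSet_Ioc.prod measurableSet_Ioc)]
      refine Filter.Eventually.of_forall ?_
      rintro ⟨s, x⟩ ⟨hs, _⟩
      exact hbd s ⟨hs.1.le, hs.2⟩ x
  have hswap : ∫ s in (0:ℝ)..H, om m s * ∫ x in (0:ℝ)..Real.pi, σ s x * Fs m H ε σ s x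
      = ∫ x in (0:ℝ)..Real.pi, ∫ s in (0:ℝ)..H, f s x := by
    have e1 : ∀ s, om m s * ∫ x in (0:ℝ)..Real.pi, σ s x * Fs m H ε σ s x
        = ∫ x in Ioc (0:ℝ) Real.pi, f s x := by
      intro s
      rw [intervalIntegral.integral_of_le hpi.le, ← integral_const_mul]
    simp_rw [e1]
    rw [intervalIntegral.integral_of_le hH.le, integral_integral_swap hint,
      intervalIntegral.integral_of_le hpi.le]
    refine integral_congr_ae (Filter.Eventually.of_forall fun x => ?_)
    simp only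
    rw [intervalIntegral.integral_of_le hH.le]
  rw [hswap]
  have hfx : ∀ x, IntervalIntegrable (fun s => f s x) volume 0 H := by
    intro x
    rw [intervalIntegrable_iff_integrableOn_Ioc_of_le hH.le]
    refine Measure.integrableOn_of_bounded (M := C) (by simp) ?_ ?_
    · exact (hmeas.comp (measurable_id.prodMk measurable_const)).aestronglyMeasurable
    · rw [ae_restrict_iff' measurableSet_Ioc]
      exact Filter.Eventually.of_forall fun s hs => hbd s ⟨hs.1.le, hs.2⟩ x
  refine intervalIntegral.integral_mono_on hpi.le ?_ ?_ ?_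
  · rw [intervalIntegrable_iff_integrableOn_Ioc_of_le hpi.le]
    have := hint.integral_prod_right
    refine this.congr (Filter.Eventually.of_forall fun x => ?_)
    simp only [Function.uncurry]
    rw [intervalIntegral.integral_of_le hH.le]
  · refine Continuous.intervalIntegrable ?_ _ _
    have : Continuous fun x => Fe m H ε σ 0 x := by
      have h := hcont.comp (f := fun x : ℝ => ((0:ℝ), x)) (continuous_const.prodMk continuous_id)
      exact h
    exact (continuous_const.sub this).add continuous_const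
  · intro x hx
    have hc : Continuous fun s => Fe m H ε σ s x := by
      have h := hcont.comp (f := fun s : ℝ => (s, x)) (continuous_id.prodMk continuous_const)
      exact h
    exact Auxforceup.inner hm hH hε x hsol.eq hder (hfx x) hc (hneg x hx)

end Pool.Agent.H682_VS
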