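import Pool.Agent.H682_VS.Stmts
import Pool.Agent.H682_VS.T_sol
import Pool.Agent.H682_VS.T_forceid
import Pool.Agent.H682_VS.T_forceup
import Pool.Agent.H682_VS.T_forcemass

/-! # force -/

set_option autoImplicit false

open MeasureTheory Set Filter Topology

namespace Pool.Agent.H682_VS


/- TARGET, proof in plain words:
Given lam0, H, t.  Lm, Π as in t_forceid.  Let p = tanh(lam0/(4π)) lam0/2 > 0.  For m ≥ m0 with e^{-2H/m} ≥ 1/2 and (1 - om m H) π H ≤ p/8
(om m H = e^{-2H/m} → 1 as m → ∞; 1 - om m H ≤ 2H/m): Lm ≥ lam0/2, Π ≥ p/2, om(H) Π ≥ p/4, so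
 right side of t_forceid ≥ (Lm/2π)(p/4 - p/8) - 2 ε π H ≥ lam0 p/(32π) - 2πHε.
Combined with t_forceup: ∫_0^π -Fe(0,x) dx ≥ lam0 p/(32π) - ε(2πH + π + 2πH/m) .  -Fe(0,x) ≤ -Fe(0,π) for x in [0,π] (Sol.anti at s = 0), so
 π (-Fe(0,π)) ≥ lam0 p/(32π) - ε (2πH + π + 2πH) ≥ lam0 p/(64π) for ε ≤ e0 (e0 may depend on m, or not).  c5 = lam0 p/(64π²).
-/
namespace Auxforce

lemma arith (lam0 p H m ε e L P F J pi : ℝ) (hpi : 0 < pi) (hH : 0 < H) (hlam : 0 < lam0)
    (hp : 0 < p) (hmpos : 0 < m) (hε : 0 < ε)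
    (he1 : 1 - 2 * H / m ≤ e) (hm4 : 4 * H ≤ m)
    (hm16 : 16 * pi * H ^ 2 / p ≤ m)
    (hL1 : L ≤ pi * H) (hL2 : e * lam0 ≤ L) (hP : e * p ≤ P)
    (hid : L / (2 * pi) * (e * P - (1 - e) * L) - 2 * ε * L ≤ J)
    (hup : J ≤ pi * (ε - F + 2 * H / m * ε))
    (hεe : ε ≤ lam0 * p / (64 * pi * (2 * pi * H + 2 * pi))) :
    lam0 * p / (64 * pi ^ 2) ≤ -F := by
  have hHm : 2 * H / m ≤ 1 / 2 := by
    rw [div_le_iff₀ hmpos]
    linarith
  have hHm2 : 2 * H / m * (pi * H) ≤ p / 8 := by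
    rw [div_mul_eq_mul_div, div_le_iff₀ hmpos]
    rw [div_le_iff₀ hp] at hm16
    nlinarith [hm16]
  have he2 : 1 / 2 ≤ e := by linarith
  have hPp : p / 2 ≤ P := by nlinarith [mul_le_mul_of_nonneg_right he2 hp.le]
  have hLl : lam0 / 2 ≤ L := by nlinarith [mul_le_mul_of_nonneg_right he2 hlam.le]
  have hL0 : 0 ≤ L := by linarith
  have hbr : p / 8 ≤ e * P - (1 - e) * L := by
    have h1 : p / 4 ≤ e * P := by
      have := mul_le_mul he2 hPp (by linarith) (by linarith)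
      linarith
    have h2 : (1 - e) * L ≤ 2 * H / m * (pi * H) :=
      mul_le_mul (by linarith) hL1 hL0 (by positivity)
    linarith
  have hmain : lam0 * p / (32 * pi) - 2 * ε * (pi * H) ≤
      L / (2 * pi) * (e * P - (1 - e) * L) - 2 * ε * L := by
    have h1 : lam0 / 2 / (2 * pi) * (p / 8) ≤
        L / (2 * pi) * (e * P - (1 - e) * L) :=
      mul_le_mul (div_le_div_of_nonneg_right hLl (by positivity)) hbr (by positivity)
        (by positivity)
    have h2 : lam0 / 2 / (2 * pi) * (p / 8) = lam0 * p / (32 * pi) := by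
      field_simp
      ring
    have h3 : 2 * ε * L ≤ 2 * ε * (pi * H) := mul_le_mul_of_nonneg_left hL1 (by linarith)
    linarith
  have hfin : lam0 * p / (32 * pi) - 2 * ε * (pi * H) ≤ pi * (ε - F + 2 * H / m * ε) :=
    (hmain.trans hid).trans hup
  have hεE : ε * (2 * pi * H + 2 * pi) ≤ lam0 * p / (64 * pi) := by
    have h1 : lam0 * p / (64 * pi * (2 * pi * H + 2 * pi)) *
        (2 * pi * H + 2 * pi) = lam0 * p / (64 * pi) := by
      field_simp
    rw [← h1]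
    exact mul_le_mul_of_nonneg_right hεe (by positivity)
  have hHme : 2 * H / m * ε ≤ 1 / 2 * ε := mul_le_mul_of_nonneg_right hHm hε.le
  have h5 : lam0 * p / (32 * pi) = lam0 * p / (64 * pi) + lam0 * p / (64 * pi) := by
    field_simp
    ring
  have h6 : lam0 * p / (64 * pi) ≤ pi * (-F) := by
    have h7 : pi * (2 * H / m * ε) ≤ pi * (1 / 2 * ε) :=
      mul_le_mul_of_nonneg_left hHme hpi.le
    have h8 : 0 ≤ pi * ε := by positivity
    nlinarith [hfin, hεE, h5, h7, h8]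
  have h9 : lam0 * p / (64 * pi ^ 2) = lam0 * p / (64 * pi) / pi := by
    field_simp
  rw [h9, div_le_iff₀ hpi]
  linarith

lemma cont0 (f : ℝ → ℝ → ℝ) (hf : Continuous (Function.uncurry f)) :
    Continuous fun x : ℝ => f 0 x := hf.comp (continuous_const.prodMk continuous_id)

end Auxforce

theorem t_force : S_force := by
  intro lam0 H t hlam ht htH
  have hpi := Real.pi_pos
  have hH : 0 < H := by linarith
  obtain ⟨p, hpdef⟩ : ∃ p, p = Real.tanh (lam0 / (4 * Real.pi)) * (lam0 / 2) := ⟨_, rfl⟩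
  have htanh : 0 < Real.tanh (lam0 / (4 * Real.pi)) := by
    rw [Real.tanh_eq_sinh_div_cosh]
    exact div_pos (Real.sinh_pos_iff.mpr (by positivity)) (Real.cosh_pos _)
  have hp : 0 < p := by
    rw [hpdef]
    positivity
  obtain ⟨m0, hm0def⟩ : ∃ m0, m0 = max 6 (max (4 * H) (16 * Real.pi * H ^ 2 / p)) := ⟨_, rfl⟩
  refine ⟨lam0 * p / (64 * Real.pi ^ 2), by positivity, m0, by rw [hm0def]; exact le_max_left _ _,
    ?_⟩
  intro m hm
  have hm6 : 6 ≤ m := ((le_max_left _ _).trans (le_of_eq hm0def.symm)).trans hm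
  have hm4 : 4 * H ≤ m := (((le_max_left _ _).trans (le_max_right _ _)).trans
    (le_of_eq hm0def.symm)).trans hm
  have hm16 : 16 * Real.pi * H ^ 2 / p ≤ m := (((le_max_right _ _).trans (le_max_right _ _)).trans
    (le_of_eq hm0def.symm)).trans hm
  have hmpos : 0 < m := by linarith
  refine ⟨lam0 * p / (64 * Real.pi * (2 * Real.pi * H + 2 * Real.pi)), by positivity, ?_⟩
  intro ε σ hε hεe hε1 hS hmass
  obtain ⟨hDat, hnn, -, -, -, -, -, -, -, -, -, -, hFc, -, -⟩ :=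
    t_sol m H ε σ (by linarith) hH hε hε1 hS
  have h01 : ∀ s x, 0 ≤ σ s x ∧ σ s x ≤ 1 := fun s x => ⟨hnn s x, (le_abs_self _).trans (hDat.bdd s x)⟩
  obtain ⟨hL1, hL2, hP⟩ := t_forcemass m H t lam0 σ (by linarith) (by linarith) htH hlam hDat.meas h01
    hmass
  have hid := t_forceid m H ε σ (by linarith) hH hε hε1 hS
  have hup := t_forceup m H ε σ (by linarith) hH hε hε1 hS
  have hFc0 : Continuous fun x : ℝ => Fe m H ε σ 0 x := Auxforce.cont0 (Fe m H ε σ) hFc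
  have hint : ∫ x in (0:ℝ)..Real.pi, (ε - Fe m H ε σ 0 x + 2 * H / m * ε) ≤
      Real.pi * (ε - Fe m H ε σ 0 Real.pi + 2 * H / m * ε) := by
    have h1 : ∫ x in (0:ℝ)..Real.pi, (ε - Fe m H ε σ 0 x + 2 * H / m * ε) ≤
        ∫ _ in (0:ℝ)..Real.pi, (ε - Fe m H ε σ 0 Real.pi + 2 * H / m * ε) := by
      refine intervalIntegral.integral_mono_on hpi.le
        (((continuous_const.sub hFc0).add continuous_const).intervalIntegrable _ _)
        (continuous_const.intervalIntegrable _ _) fun x hx => ?_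
      have h2 : Fe m H ε σ 0 Real.pi ≤ Fe m H ε σ 0 x :=
        hS.anti 0 ⟨le_rfl, hH.le⟩ hx ⟨hpi.le, le_rfl⟩ hx.2
      linarith
    rw [intervalIntegral.integral_const, sub_zero, smul_eq_mul] at h1
    exact h1
  rw [mul_assoc, ← hpdef] at hP
  have he1 : 1 - 2 * H / m ≤ Real.exp (-(2 * H / m)) := by
    have := Real.add_one_le_exp (-(2 * H / m))
    linarith
  exact Auxforce.arith lam0 p H m ε _ _ _ _ _ Real.pi hpi hH hlam hp hmpos hε he1 hm4 hm16
    hL1 hL2 hP hid (hup.trans hint) hεe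

end Pool.Agent.H682_VS
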