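import Pool.Agent.H682_VS.Bet
import Pool.Agent.H682_VS.K1
import Pool.Agent.H682_VS.T_sol
import Pool.Agent.H682_VS.T_bound
import Pool.Agent.H682_VS.T_cont
import Pool.Agent.H682_VS.T_Lx
import Pool.Agent.H682_VS.T_Ls
import Pool.Agent.H682_VS.T_aa

/-! # limit -/

set_option autoImplicit false

open MeasureTheory Set Filter Topology

namespace Pool.Agent.H682_VS


namespace Auxlimit

/-- the bound of the kernel -/
noncomputable def bd (m s x s' x' : ℝ) : ℝ :=
  |Real.log (q (s - s') (x - x'))| + |Real.log (q (s - s') (x + x'))| +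
    2 * |Real.log (q s' x')| + 2 * (|Am m s| * (1 + |h1 s' x'|) + |s|)

lemma ker_le (m s x s' x' : ℝ) : |ker m s x s' x'| ≤ bd m s x s' x' := by
  unfold ker bd
  have e1 := abs_le.1 (le_refl |Real.log (q (s - s') (x - x'))|)
  have e2 := abs_le.1 (le_refl |Real.log (q (s - s') (x + x'))|)
  have e3 := abs_le.1 (le_refl |Real.log (q s' x')|)
  have e4 : |Am m s * (1 + h1 s' x')| ≤ |Am m s| * (1 + |h1 s' x'|) := by
    rw [abs_mul]
    refine mul_le_mul_of_nonneg_left ?_ (abs_nonneg _)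
    exact (abs_add_le _ _).trans (by rw [abs_one])
  have e5 := abs_le.1 e4
  have e6 := abs_le.1 (le_refl |s|)
  rw [abs_le]
  constructor <;> linarith [e1.1, e1.2, e2.1, e2.2, e3.1, e3.2, e5.1, e5.2, e6.1, e6.2]

lemma q_meas : Measurable (fun p : ℝ × ℝ => q p.1 p.2) := by
  unfold q
  exact (Real.measurable_cosh.comp measurable_fst).sub (Real.measurable_cos.comp measurable_snd)

lemma h1_meas : Measurable (fun p : ℝ × ℝ => h1 p.1 p.2) := by
  unfold h1
  exact (Real.measurable_sinh.comp measurable_fst).div q_meas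

lemma km1 (s x : ℝ) : Measurable (fun p : ℝ × ℝ => Real.log (q (s - p.1) (x - p.2))) :=
  Real.measurable_log.comp (q_meas.comp
      ((measurable_const.sub measurable_fst).prodMk (measurable_const.sub measurable_snd)))

lemma km2 (s x : ℝ) : Measurable (fun p : ℝ × ℝ => Real.log (q (s - p.1) (x + p.2))) :=
  Real.measurable_log.comp (q_meas.comp
      ((measurable_const.sub measurable_fst).prodMk (measurable_const.add measurable_snd)))

lemma km3 : Measurable (fun p : ℝ × ℝ => Real.log (q p.1 p.2)) := Real.measurable_log.comp q_meas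

lemma km4 (a s : ℝ) : Measurable (fun p : ℝ × ℝ => a * (1 + h1 p.1 p.2) - s) :=
  ((h1_meas.const_add 1).const_mul a).sub_const s

lemma km5 {f1 f2 f3 f4 : ℝ × ℝ → ℝ} (h1 : Measurable f1) (h2 : Measurable f2) (h3 : Measurable f3)
    (h4 : Measurable f4) : Measurable fun p => f1 p + f2 p - 2 * f3 p + 2 * f4 p :=
  ((h1.add h2).sub (h3.const_mul 2)).add (h4.const_mul 2)

lemma ker_meas (m s x : ℝ) : Measurable (fun p : ℝ × ℝ => ker m s x p.1 p.2) :=
  km5 (km1 s x) (km2 s x) km3 (km4 (Am m s) s)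

lemma q_pos {u : ℝ} (hu : u ≠ 0) (v : ℝ) : 0 < q u v := by
  unfold q
  have h1 : 1 < Real.cosh u := Real.one_lt_cosh.2 hu
  linarith [Real.cos_le_one v]

lemma h1_cont {u : ℝ} (hu : u ≠ 0) : Continuous (h1 u) := by
  unfold h1
  refine continuous_const.div ?_ fun v => (q_pos hu v).ne'
  unfold q
  exact continuous_const.sub Real.continuous_cos

/-- the three logarithms and `h1` : integrability and bounds -/
lemma bd_int (m s x s' : ℝ) (hs' : s' ≠ 0) :
    IntervalIntegrable (fun x' => bd m s x s' x') volume 0 Real.pi := by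
  obtain ⟨C, -, -, -, -, hint⟩ := t_K1
  have g1 : IntervalIntegrable (fun x' => Real.log (q (s - s') (x - x'))) volume 0 Real.pi := by
    have := (hint (s - s') x (x - Real.pi)).comp_sub_left x
    simpa using this
  have g2 : IntervalIntegrable (fun x' => Real.log (q (s - s') (x + x'))) volume 0 Real.pi := by
    have := (hint (s - s') x (x + Real.pi)).comp_add_left x
    simpa using this
  have g3 : IntervalIntegrable (fun x' => Real.log (q s' x')) volume 0 Real.pi := hint s' 0 Real.pi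
  have g4 : IntervalIntegrable (fun x' => |h1 s' x'|) volume 0 Real.pi :=
    ((h1_cont hs').abs).intervalIntegrable 0 Real.pi
  unfold bd
  exact ((g1.abs.add g2.abs).add (g3.abs.const_mul 2)).add
    ((((intervalIntegrable_const.add g4).const_mul _).add intervalIntegrable_const).const_mul 2)

lemma bd_le (m s x H : ℝ) : ∃ K : ℝ, ∀ s' : ℝ, s' ≠ 0 → |s'| ≤ H →
    ∫ x' in (0:ℝ)..Real.pi, bd m s x s' x' ≤ K := by
  obtain ⟨C, hC1, hK1, -, hK3, hint⟩ := t_K1
  refine ⟨C * (1 + (|s| + H)) + C * (1 + (|s| + H)) + 2 * (C * (1 + H)) +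
    2 * (|Am m s| * (Real.pi + C) + |s| * Real.pi), fun s' hs' hsH => ?_⟩
  have g1 : IntervalIntegrable (fun x' => Real.log (q (s - s') (x - x'))) volume 0 Real.pi := by
    have := (hint (s - s') x (x - Real.pi)).comp_sub_left x
    simpa using this
  have g2 : IntervalIntegrable (fun x' => Real.log (q (s - s') (x + x'))) volume 0 Real.pi := by
    have := (hint (s - s') x (x + Real.pi)).comp_add_left x
    simpa using this
  have g3 : IntervalIntegrable (fun x' => Real.log (q s' x')) volume 0 Real.pi := hint s' 0 Real.pi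
  have g4 : IntervalIntegrable (fun x' => |h1 s' x'|) volume 0 Real.pi :=
    ((h1_cont hs').abs).intervalIntegrable 0 Real.pi
  have i1 : ∫ x' in (0:ℝ)..Real.pi, |Real.log (q (s - s') (x - x'))| ≤ C * (1 + (|s| + H)) := by
    have h := intervalIntegral.integral_comp_sub_left (a := 0) (b := Real.pi)
      (fun v => |Real.log (q (s - s') v)|) x
    rw [h]
    have h2 := hK3 (s - s') (x - Real.pi)
    have h3 : x - Real.pi + Real.pi = x - 0 := by ring
    rw [h3] at h2
    refine h2.trans (mul_le_mul_of_nonneg_left ?_ (by linarith))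
    have : |s - s'| ≤ |s| + |s'| := abs_sub _ _
    linarith
  have i2 : ∫ x' in (0:ℝ)..Real.pi, |Real.log (q (s - s') (x + x'))| ≤ C * (1 + (|s| + H)) := by
    have h := intervalIntegral.integral_comp_add_left (a := 0) (b := Real.pi)
      (fun v => |Real.log (q (s - s') v)|) x
    rw [h]
    have h2 := hK3 (s - s') (x + 0)
    have h3 : x + 0 + Real.pi = x + Real.pi := by ring
    rw [h3] at h2
    refine h2.trans (mul_le_mul_of_nonneg_left ?_ (by linarith))
    have : |s - s'| ≤ |s| + |s'| := abs_sub _ _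
    linarith
  have i3 : ∫ x' in (0:ℝ)..Real.pi, |Real.log (q s' x')| ≤ C * (1 + H) := by
    have h2 := hK3 s' 0
    rw [zero_add] at h2
    refine h2.trans (mul_le_mul_of_nonneg_left ?_ (by linarith))
    linarith
  have i4 : ∫ x' in (0:ℝ)..Real.pi, |h1 s' x'| ≤ C := by
    have h2 := hK1 s' 0 hs'
    rwa [zero_add] at h2
  have e : ∫ x' in (0:ℝ)..Real.pi, bd m s x s' x' =
      (∫ x' in (0:ℝ)..Real.pi, |Real.log (q (s - s') (x - x'))|) +
      (∫ x' in (0:ℝ)..Real.pi, |Real.log (q (s - s') (x + x'))|) +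
      2 * (∫ x' in (0:ℝ)..Real.pi, |Real.log (q s' x')|) +
      2 * (|Am m s| * (Real.pi + ∫ x' in (0:ℝ)..Real.pi, |h1 s' x'|) + |s| * Real.pi) := by
    unfold bd
    have k1 : IntervalIntegrable (fun _ : ℝ => (1 : ℝ)) volume 0 Real.pi := intervalIntegrable_const
    have k2 : IntervalIntegrable (fun _ : ℝ => |s|) volume 0 Real.pi := intervalIntegrable_const
    rw [intervalIntegral.integral_add ((g1.abs.add g2.abs).add (g3.abs.const_mul 2))
      ((((k1.add g4).const_mul _).add k2).const_mul 2),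
      intervalIntegral.integral_add (g1.abs.add g2.abs) (g3.abs.const_mul 2),
      intervalIntegral.integral_add g1.abs g2.abs, intervalIntegral.integral_const_mul,
      intervalIntegral.integral_const_mul,
      intervalIntegral.integral_add ((k1.add g4).const_mul _) k2,
      intervalIntegral.integral_const_mul, intervalIntegral.integral_add k1 g4]
    simp only [intervalIntegral.integral_const, smul_eq_mul]
    ring
  rw [e]
  have hA : |Am m s| * (Real.pi + ∫ x' in (0:ℝ)..Real.pi, |h1 s' x'|) ≤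
      |Am m s| * (Real.pi + C) := mul_le_mul_of_nonneg_left (by linarith) (abs_nonneg _)
  linarith

lemma inner_bd {m s x H K : ℝ} (hK : ∀ s' : ℝ, s' ≠ 0 → |s'| ≤ H →
    ∫ x' in (0:ℝ)..Real.pi, bd m s x s' x' ≤ K) {σ : ℝ → ℝ → ℝ} (hσ : ∀ s x, |σ s x| ≤ 1)
    {s' : ℝ} (h0 : s' ≠ 0) (hH : |s'| ≤ H) :
    |∫ x' in (0:ℝ)..Real.pi, σ s' x' * ker m s x s' x'| ≤ K := by
  refine le_trans ?_ (hK s' h0 hH)
  have h1 := intervalIntegral.norm_integral_le_of_norm_le (μ := volume) (a := 0) (b := Real.pi)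
    (f := fun x' => σ s' x' * ker m s x s' x') (g := fun x' => bd m s x s' x') Real.pi_pos.le
    (Eventually.of_forall fun x' _ => by
      rw [Real.norm_eq_abs, abs_mul]
      calc |σ s' x'| * |ker m s x s' x'| ≤ 1 * |ker m s x s' x'| :=
            mul_le_mul_of_nonneg_right (hσ _ _) (abs_nonneg _)
        _ ≤ bd m s x s' x' := by rw [one_mul]; exact ker_le _ _ _ _ _)
    (bd_int m s x s' h0)
  exact h1

lemma meas_inner {m s x : ℝ} {σ : ℝ → ℝ → ℝ} (hσ : Measurable (Function.uncurry σ)) :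
    Measurable fun s' => ∫ x' in (0:ℝ)..Real.pi, σ s' x' * ker m s x s' x' := by
  have h1 : Measurable fun p : ℝ × ℝ => σ p.1 p.2 * ker m s x p.1 p.2 :=
    hσ.mul (ker_meas m s x)
  have h2 : (fun s' => ∫ x' in (0:ℝ)..Real.pi, σ s' x' * ker m s x s' x') =
      fun s' => ∫ x' in Ioc 0 Real.pi, σ s' x' * ker m s x s' x' := by
    funext s'
    exact intervalIntegral.integral_of_le Real.pi_pos.le
  rw [h2]
  exact (h1.stronglyMeasurable.integral_prod_right
    (ν := (volume : Measure ℝ).restrict (Ioc 0 Real.pi))).measurable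

/-- dominated convergence for `Lop` -/
lemma Lop_tendsto {m H : ℝ} (hm : 1 ≤ m) (hH : 0 < H) {σ : ℕ → ℝ → ℝ → ℝ} {τ : ℝ → ℝ → ℝ}
    (hσ : ∀ n, Dat 1 (σ n)) (hτ : Dat 1 τ)
    (hlim : ∀ s' ∈ Ioc 0 H, ∀ᵐ x' : ℝ, x' ∈ Ioc 0 Real.pi →
      Tendsto (fun n => σ n s' x') atTop (𝓝 (τ s' x'))) (s x : ℝ) :
    Tendsto (fun n => Lop m H (σ n) s x) atTop (𝓝 (Lop m H τ s x)) := by
  obtain ⟨K, hK⟩ := bd_le m s x H
  unfold Lop
  refine Tendsto.const_mul _ ?_
  refine intervalIntegral.tendsto_integral_filter_of_dominated_convergence (fun _ => K) ?_ ?_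
    intervalIntegrable_const ?_
  · refine Eventually.of_forall fun n => ?_
    have h1 : Measurable (om m) := by
      unfold om
      fun_prop
    exact (h1.mul (meas_inner (hσ n).meas)).aestronglyMeasurable
  · refine Eventually.of_forall fun n => ?_
    refine Eventually.of_forall fun s' hs' => ?_
    rw [uIoc_of_le hH.le] at hs'
    have h0 : s' ≠ 0 := hs'.1.ne'
    have h1 : |s'| ≤ H := by rw [abs_of_pos hs'.1]; exact hs'.2
    have h2 := inner_bd hK (hσ n).bdd h0 h1
    have h3 : |om m s'| ≤ 1 := by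
      unfold om
      rw [abs_of_pos (Real.exp_pos _), Real.exp_le_one_iff]
      have : 0 ≤ 2 * s' / m := by
        have := hs'.1
        positivity
      linarith
    rw [Real.norm_eq_abs, abs_mul]
    calc |om m s'| * |∫ x' in (0:ℝ)..Real.pi, σ n s' x' * ker m s x s' x'|
        ≤ 1 * |∫ x' in (0:ℝ)..Real.pi, σ n s' x' * ker m s x s' x'| :=
          mul_le_mul_of_nonneg_right h3 (abs_nonneg _)
      _ ≤ K := by rw [one_mul]; exact h2
  · refine Eventually.of_forall fun s' hs' => ?_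
    rw [uIoc_of_le hH.le] at hs'
    have h0 : s' ≠ 0 := hs'.1.ne'
    refine Tendsto.const_mul _ ?_
    refine intervalIntegral.tendsto_integral_filter_of_dominated_convergence
      (fun x' => bd m s x s' x') ?_ ?_ (bd_int m s x s' h0) ?_
    · refine Eventually.of_forall fun n => ?_
      have h1 : Measurable fun p : ℝ × ℝ => σ n p.1 p.2 * ker m s x p.1 p.2 :=
        (hσ n).meas.mul (ker_meas m s x)
      exact (h1.comp measurable_prodMk_left).aestronglyMeasurable
    · refine Eventually.of_forall fun n => Eventually.of_forall fun x' _ => ?_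
      rw [Real.norm_eq_abs, abs_mul]
      calc |σ n s' x'| * |ker m s x s' x'| ≤ 1 * |ker m s x s' x'| :=
            mul_le_mul_of_nonneg_right ((hσ n).bdd _ _) (abs_nonneg _)
        _ ≤ bd m s x s' x' := by rw [one_mul]; exact ker_le _ _ _ _ _
    · filter_upwards [hlim s' hs'] with x' hx' hx'2
      rw [uIoc_of_le Real.pi_pos.le] at hx'2
      exact (hx' hx'2).mul_const _

lemma Lop_congr {m H : ℝ} (hH : 0 < H) {σ τ : ℝ → ℝ → ℝ}
    (h : ∀ s ∈ Icc (0:ℝ) H, ∀ x ∈ Icc (0:ℝ) Real.pi, σ s x = τ s x) : Lop m H σ = Lop m H τ := by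
  funext s x
  unfold Lop
  congr 1
  refine intervalIntegral.integral_congr fun s' hs' => ?_
  rw [uIcc_of_le hH.le] at hs'
  refine congrArg (fun t => om m s' * t) ?_
  refine intervalIntegral.integral_congr fun x' hx' => ?_
  rw [uIcc_of_le Real.pi_pos.le] at hx'
  exact congrArg (fun t => t * ker m s x s' x') (h s' hs' x' hx')

lemma lip2 {f gx gs : ℝ → ℝ → ℝ} {H M : ℝ} (hx : ∀ s x, HasDerivAt (fun y => f s y) (gx s x) x)
    (hs : ∀ s x, HasDerivAt (fun y => f y x) (gs s x) s)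
    (bx : ∀ s ∈ Icc (0:ℝ) H, ∀ x, |gx s x| ≤ M) (bs : ∀ s ∈ Icc (0:ℝ) H, ∀ x, |gs s x| ≤ M)
    {s s' x x' : ℝ} (h1 : s ∈ Icc (0:ℝ) H) (h2 : s' ∈ Icc (0:ℝ) H) :
    |f s x - f s' x'| ≤ M * (|s - s'| + |x - x'|) := by
  have a1 := Convex.norm_image_sub_le_of_norm_hasDerivWithin_le (f := fun y => f y x)
    (f' := fun y => gs y x) (s := Icc 0 H) (x := s') (y := s) (C := M)
    (fun y _ => (hs y x).hasDerivWithinAt) (fun y hy => bs y hy x) (convex_Icc 0 H) h2 h1
  have a2 := Convex.norm_image_sub_le_of_norm_hasDerivWithin_le (f := fun y => f s' y)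
    (f' := fun y => gx s' y) (s := univ) (x := x') (y := x) (C := M)
    (fun y _ => (hx s' y).hasDerivWithinAt) (fun y _ => bx s' h2 y) convex_univ (mem_univ _)
    (mem_univ _)
  simp only [Real.norm_eq_abs] at a1 a2
  have a3 : f s x - f s' x' = (f s x - f s' x) + (f s' x - f s' x') := by ring
  rw [a3]
  refine (abs_add_le _ _).trans ?_
  linarith

end Auxlimit

/- TARGET, proof in plain words:
Take ε_n = min e0 1/(n+1) → 0, σ_n the solutions of the hypothesis, F_n = Fe m H ε_n σ_n.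
(1) By t_bound (R = H, B = 1; Dat 1 σ_n by t_sol) and trivial bounds for hf and its derivatives, |F_n| ≤ M and |∂_s F_n|, |∂_x F_n| ≤ M on [0,H]×[0,π] with M
   independent of n; so the restrictions lie in the compact set of t_aa and (IsCompact.tendsto_subseq) along a subsequence F_n → F uniformly on X = [0,H]×[0,π];
   only pointwise convergence F_n(s,x) → F(s,x) for (s,x) in [0,H]×[0,π] is needed below.
(2) F(s,x1) - F(s,x2) ≥ c7 (cos x1 - cos x2), so for each s in [0,H] F(s,·) is strictly decreasing on [0,π] and vanishes at most once; F(H,π) ≥ 1.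
(3) If F(s,x) < 0 then F_n < 0 eventually so σ_n(s,x) = 1 eventually; if F(s,x) > 0 then F_n > ε_n eventually and σ_n(s,x) = 0 eventually.
   So σ_n(s,x) → σ∞(s,x) := (if F(s,x) < 0 then 1 else 0) for every s in [0,H] and every x in [0,π] except at most one.
(4) Lop m H σ_n s x → Lop m H σ∞ s x for every (s,x) in ℝ² (σ∞ := 0 outside X, say): dominated convergence in the inner integral for every s' in (0,H) (dominating function
   |ker m s x s' ·|, integrable on [0,π] by t_K1 part 4 and boundedness of h1 s' ·), then in the outer integral (dominated by a constant: t_K1 parts 1, 3).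
   Hence F = Lop m H σ∞ on X (ε_n hf → 0).
(5) Put F' s x = Lop m H σ∞ s x (all s, x) and σ s x = if F' s x < 0 then 1 else 0.  On X σ = σ∞, so Lop m H σ = Lop m H σ∞ = F' everywhere: Fix.eq.  Fix.meas: F' is continuous
   (t_cont; Dat 1 σ∞: measurable because F (extended by Set.projIcc) is continuous).  Fix.lb from (2), Fix.core from F(H,π) ≥ 1.
-/
theorem t_limit : S_limit := by
  intro m H c7 e0 hm hH hc7 he0 hyp
  have hmpos : 0 < m := by linarith
  -- the sequence
  let ε : ℕ → ℝ := fun n => min e0 (1 / ((n : ℝ) + 1))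
  have hε0 : ∀ n, 0 < ε n := fun n => lt_min he0 (by positivity)
  have hεe : ∀ n, ε n ≤ e0 := fun n => min_le_left _ _
  have hε1 : ∀ n, ε n ≤ 1 := fun n => (min_le_right _ _).trans (by
    rw [div_le_one (by positivity)]
    have : (0 : ℝ) ≤ n := Nat.cast_nonneg n
    linarith)
  have hεlim : Tendsto ε atTop (𝓝 0) := by
    have h1 : Tendsto (fun n : ℕ => 1 / ((n : ℝ) + 1)) atTop (𝓝 0) :=
      tendsto_one_div_add_atTop_nhds_zero_nat
    exact squeeze_zero (fun n => (hε0 n).le) (fun n => min_le_right _ _) h1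
  choose σ hσ using fun n => hyp (ε n) (hε0 n) (hεe n)
  have hsol := fun n => t_sol m H (ε n) (σ n) hm hH (hε0 n) (hε1 n) (hσ n).1
  have hdat : ∀ n, Dat 1 (σ n) := fun n => (hsol n).1
  obtain ⟨C, hC, hbound⟩ := t_bound m H H hm hH hH
  have hb : ∀ n, ∀ s ∈ Icc (0:ℝ) H, ∀ x : ℝ,
      |Lop m H (σ n) s x| ≤ C ∧ |Lx m H (σ n) s x| ≤ C ∧ |Ls m H (σ n) s x| ≤ C := by
    intro n s hs x
    have := hbound 1 (σ n) (hdat n) s ⟨by linarith [hs.1], hs.2⟩ x
    rwa [mul_one] at this
  set M := C + (m + 3) with hM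
  have hexp : ∀ s ∈ Icc (0:ℝ) H, 0 < Real.exp (-s) ∧ Real.exp (-s) ≤ 1 := fun s hs =>
    ⟨Real.exp_pos _, by rw [Real.exp_le_one_iff]; linarith [hs.1]⟩
  have hom : ∀ s ∈ Icc (0:ℝ) H, 0 < om m s ∧ om m s ≤ 1 := fun s hs =>
    ⟨Real.exp_pos _, by
      unfold om
      rw [Real.exp_le_one_iff]
      have : 0 ≤ 2 * s / m := div_nonneg (by linarith [hs.1]) hmpos.le
      linarith⟩
  have hhf : ∀ s ∈ Icc (0:ℝ) H, ∀ x, |hf m s x| ≤ m + 3 := by
    intro s hs x
    have h1 := hexp s hs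
    have h2 := hom s hs
    have h3 : |Real.exp (-s) * Real.cos x| ≤ 1 := by
      rw [abs_mul, abs_of_pos h1.1]
      nlinarith [Real.abs_cos_le_one x, abs_nonneg (Real.cos x)]
    have h4 : |Am m s| ≤ m := by
      unfold Am
      unfold om at h2
      rw [abs_of_nonneg (by nlinarith)]
      nlinarith
    unfold hf
    have h5 := abs_le.1 h3
    have h6 := abs_le.1 h4
    rw [abs_le]
    constructor <;> linarith [h5.1, h5.2, h6.1, h6.2]
  have hFb : ∀ n, ∀ s ∈ Icc (0:ℝ) H, ∀ x, |Fe m H (ε n) (σ n) s x| ≤ M := by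
    intro n s hs x
    have h1 := (hb n s hs x).1
    have h2 : |ε n * hf m s x| ≤ m + 3 := by
      rw [abs_mul, abs_of_pos (hε0 n)]
      nlinarith [hhf s hs x, abs_nonneg (hf m s x), hε1 n, hε0 n]
    unfold Fe
    exact (abs_add_le _ _).trans (by linarith)
  have hWb : ∀ n, ∀ s ∈ Icc (0:ℝ) H, ∀ x, |-We m H (ε n) (σ n) s x| ≤ M := by
    intro n s hs x
    have h1 := (hb n s hs x).2.1
    have h0 := hexp s hs
    have h2 : |ε n * (Real.exp (-s) * Real.sin x)| ≤ 1 := by
      rw [abs_mul, abs_of_pos (hε0 n), abs_mul, abs_of_pos h0.1]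
      have h3 : Real.exp (-s) * |Real.sin x| ≤ 1 := by
        nlinarith [Real.abs_sin_le_one x, abs_nonneg (Real.sin x)]
      have h4 : 0 ≤ Real.exp (-s) * |Real.sin x| := by positivity
      nlinarith [hε1 n, hε0 n]
    rw [abs_neg]
    unfold We
    refine (abs_add_le _ _).trans ?_
    rw [abs_neg]
    linarith
  have hSb : ∀ n, ∀ s ∈ Icc (0:ℝ) H, ∀ x, |Fs m H (ε n) (σ n) s x| ≤ M := by
    intro n s hs x
    have h1 := (hb n s hs x).2.2
    have h0 := hexp s hs
    have h00 := hom s hs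
    have h2 : |ε n * (-(Real.exp (-s) * Real.cos x) + om m s)| ≤ 2 := by
      rw [abs_mul, abs_of_pos (hε0 n)]
      have h3 : |-(Real.exp (-s) * Real.cos x) + om m s| ≤ 2 := by
        refine (abs_add_le _ _).trans ?_
        rw [abs_neg, abs_mul, abs_of_pos h0.1, abs_of_pos h00.1]
        nlinarith [Real.abs_cos_le_one x, abs_nonneg (Real.cos x)]
      nlinarith [hε1 n, hε0 n, abs_nonneg (-(Real.exp (-s) * Real.cos x) + om m s)]
    unfold Fs
    exact (abs_add_le _ _).trans (by linarith)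
  -- compactness
  have hM0 : 0 ≤ M := by positivity
  have hcomp := t_aa H M hH hM0
  have hFec : ∀ n, Continuous (Function.uncurry (Fe m H (ε n) (σ n))) := by
    intro n
    obtain ⟨-, -, -, -, -, -, -, -, -, -, -, -, h, -⟩ := hsol n
    exact h
  have hGc : ∀ n, Continuous (fun p : Icc (0:ℝ) H × Icc (0:ℝ) Real.pi =>
      Function.uncurry (Fe m H (ε n) (σ n)) ((p.1 : ℝ), (p.2 : ℝ))) := fun n =>
    (hFec n).comp ((continuous_subtype_val.comp continuous_fst).prodMk
      (continuous_subtype_val.comp continuous_snd))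
  let G : ℕ → C(Icc (0:ℝ) H × Icc (0:ℝ) Real.pi, ℝ) := fun n =>
    ⟨fun p => Function.uncurry (Fe m H (ε n) (σ n)) ((p.1 : ℝ), (p.2 : ℝ)), hGc n⟩
  obtain ⟨a, -, φ, hφ, ha⟩ := hcomp.tendsto_subseq (x := G) fun n =>
    ⟨fun p => hFb n p.1 p.1.2 p.2, fun p p' => Auxlimit.lip2 (f := Fe m H (ε n) (σ n))
      (gx := fun s x => -We m H (ε n) (σ n) s x) (gs := Fs m H (ε n) (σ n)) (hsol n).2.2.1
      (hsol n).2.2.2.1 (hWb n) (hSb n) p.1.2 p'.1.2⟩
  have h0H : (0:ℝ) ≤ H := hH.le
  have h0p : (0:ℝ) ≤ Real.pi := Real.pi_pos.le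
  let F : ℝ → ℝ → ℝ := fun s x => a (projIcc 0 H h0H s, projIcc 0 Real.pi h0p x)
  have hFlim : ∀ s ∈ Icc (0:ℝ) H, ∀ x ∈ Icc (0:ℝ) Real.pi,
      Tendsto (fun n => Fe m H (ε (φ n)) (σ (φ n)) s x) atTop (𝓝 (F s x)) := by
    intro s hs x hx
    have h1 := ((continuous_eval_const (F := C(Icc (0:ℝ) H × Icc (0:ℝ) Real.pi, ℝ))
      ((⟨s, hs⟩, ⟨x, hx⟩) : Icc (0:ℝ) H × Icc (0:ℝ) Real.pi)).tendsto a).comp ha
    have h2 : F s x = a (⟨s, hs⟩, ⟨x, hx⟩) := by
      simp only [F]
      rw [projIcc_of_mem h0H hs, projIcc_of_mem h0p hx]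
    rw [h2]
    exact h1
  have hFcont : Continuous (Function.uncurry F) :=
    a.continuous.comp ((continuous_projIcc.comp continuous_fst).prodMk
      (continuous_projIcc.comp continuous_snd))
  have hFlb : ∀ s ∈ Icc (0:ℝ) H, ∀ x1 x2 : ℝ, 0 ≤ x1 → x1 ≤ x2 → x2 ≤ Real.pi →
      c7 * (Real.cos x1 - Real.cos x2) ≤ F s x1 - F s x2 := by
    intro s hs x1 x2 h1 h2 h3
    have k1 := hFlim s hs x1 ⟨h1, h2.trans h3⟩
    have k2 := hFlim s hs x2 ⟨h1.trans h2, h3⟩
    exact ge_of_tendsto' (k1.sub k2) fun n => (hσ (φ n)).2.1 s hs x1 x2 h1 h2 h3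
  have hFcore : 1 ≤ F H Real.pi :=
    ge_of_tendsto' (hFlim H ⟨h0H, le_rfl⟩ Real.pi ⟨h0p, le_rfl⟩) fun n => (hσ (φ n)).2.2
  have hφt := hφ.tendsto_atTop
  have hεφ : Tendsto (fun n => ε (φ n)) atTop (𝓝 0) := hεlim.comp hφt
  -- the limit density
  let τ : ℝ → ℝ → ℝ := fun s x => if F s x < 0 then 1 else 0
  have hτm : Measurable (Function.uncurry τ) := by
    have : Function.uncurry τ = fun p => if Function.uncurry F p < 0 then (1:ℝ) else 0 := rfl
    rw [this]
    exact Measurable.ite (isOpen_lt hFcont continuous_const).measurableSet measurable_const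
      measurable_const
  have hτ : Dat 1 τ := ⟨hτm, fun s x => by
    simp only [τ]
    split_ifs <;> simp⟩
  have hconv : ∀ s' ∈ Ioc 0 H, ∀ᵐ x' : ℝ, x' ∈ Ioc 0 Real.pi →
      Tendsto (fun n => σ (φ n) s' x') atTop (𝓝 (τ s' x')) := by
    intro s' hs'
    have hs'I : s' ∈ Icc 0 H := ⟨hs'.1.le, hs'.2⟩
    -- the zero set
    have hz : {x' : ℝ | x' ∈ Ioc 0 Real.pi ∧ F s' x' = 0}.Subsingleton := by
      intro x1 h1 x2 h2
      by_contra hne
      rcases lt_or_gt_of_ne hne with hlt | hlt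
      · have k1 := hFlb s' hs'I x1 x2 h1.1.1.le hlt.le h2.1.2
        rw [h1.2, h2.2, sub_zero] at k1
        have k2 := Real.cos_lt_cos_of_nonneg_of_le_pi h1.1.1.le h2.1.2 hlt
        nlinarith
      · have k1 := hFlb s' hs'I x2 x1 h2.1.1.le hlt.le h1.1.2
        rw [h1.2, h2.2, sub_zero] at k1
        have k2 := Real.cos_lt_cos_of_nonneg_of_le_pi h2.1.1.le h1.1.2 hlt
        nlinarith
    have hnull : volume {x' : ℝ | x' ∈ Ioc 0 Real.pi ∧ F s' x' = 0} = 0 := hz.measure_zero _
    have hae : ∀ᵐ x' : ℝ, ¬ (x' ∈ Ioc 0 Real.pi ∧ F s' x' = 0) :=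
      measure_eq_zero_iff_ae_notMem.1 hnull
    filter_upwards [hae] with x' hx' hx'I
    have hne : F s' x' ≠ 0 := fun h => hx' ⟨hx'I, h⟩
    have hl := hFlim s' hs'I x' ⟨hx'I.1.le, hx'I.2⟩
    rcases lt_or_gt_of_ne hne with hlt | hgt
    · have hτv : τ s' x' = 1 := by simp only [τ]; rw [if_pos hlt]
      rw [hτv]
      refine tendsto_const_nhds.congr' ?_
      filter_upwards [hl.eventually (gt_mem_nhds hlt)] with n hn
      rw [(hσ (φ n)).1.eq, bet_of_nonpos (div_nonpos_of_nonpos_of_nonneg hn.le (hε0 _).le),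
        sub_zero]
    · have hτv : τ s' x' = 0 := by simp only [τ]; rw [if_neg (not_lt.2 hgt.le)]
      rw [hτv]
      refine tendsto_const_nhds.congr' ?_
      have h1 : ∀ᶠ n in atTop, ε (φ n) < F s' x' / 2 := hεφ.eventually (gt_mem_nhds (by linarith))
      have h2 : ∀ᶠ n in atTop, F s' x' / 2 < Fe m H (ε (φ n)) (σ (φ n)) s' x' :=
        hl.eventually (lt_mem_nhds (by linarith))
      filter_upwards [h1, h2] with n hn1 hn2
      rw [(hσ (φ n)).1.eq, bet_of_one_le, sub_self]
      rw [one_le_div (hε0 _)]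
      linarith
  have hLlim : ∀ s x : ℝ, Tendsto (fun n => Lop m H (σ (φ n)) s x) atTop (𝓝 (Lop m H τ s x)) :=
    Auxlimit.Lop_tendsto hm hH (fun n => hdat (φ n)) hτ hconv
  have hFL : ∀ s ∈ Icc (0:ℝ) H, ∀ x ∈ Icc (0:ℝ) Real.pi, F s x = Lop m H τ s x := by
    intro s hs x hx
    have h1 := hFlim s hs x hx
    have h2 : Tendsto (fun n => Fe m H (ε (φ n)) (σ (φ n)) s x) atTop
        (𝓝 (Lop m H τ s x + 0 * hf m s x)) := (hLlim s x).add (hεφ.mul_const _)
    rw [zero_mul, add_zero] at h2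
    exact tendsto_nhds_unique h1 h2
  have hLcont := (t_cont m H 1 τ hm hH hτ).1
  refine ⟨fun s x => if Lop m H τ s x < 0 then 1 else 0, ?_⟩
  have hLeq : Lop m H (fun s x => if Lop m H τ s x < 0 then 1 else 0) = Lop m H τ := by
    refine Auxlimit.Lop_congr hH fun s hs x hx => ?_
    simp only [τ]
    rw [hFL s hs x hx]
  refine ⟨?_, ?_, ?_, ?_⟩
  · have : (Function.uncurry fun s x => if Lop m H τ s x < 0 then (1:ℝ) else 0) =
        fun p => if Function.uncurry (Lop m H τ) p < 0 then (1:ℝ) else 0 := rfl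
    rw [this]
    exact Measurable.ite (isOpen_lt hLcont continuous_const).measurableSet measurable_const
      measurable_const
  · intro s x
    rw [hLeq]
  · intro s hs x1 x2 h1 h2 h3
    rw [hLeq, ← hFL s hs x1 ⟨h1, h2.trans h3⟩, ← hFL s hs x2 ⟨h1.trans h2, h3⟩]
    exact hFlb s hs x1 x2 h1 h2 h3
  · rw [hLeq, ← hFL H ⟨h0H, le_rfl⟩ Real.pi ⟨h0p, le_rfl⟩]
    linarith

end Pool.Agent.H682_VS
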