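import Pool.Agent.H682_VS.Stmts

/-! # sectora -/

set_option autoImplicit false

open MeasureTheory Set Filter Topology

namespace Pool.Agent.H682_VS


namespace Auxsectora

theorem ii_mul {τ g : ℝ → ℝ} {a b : ℝ} (hm : Measurable τ) (hb : ∀ x, |τ x| ≤ 1)
    (hg : IntervalIntegrable g volume a b) :
    IntervalIntegrable (fun x => τ x * g x) volume a b := by
  rw [intervalIntegrable_iff] at hg ⊢
  exact Integrable.bdd_mul hg hm.aestronglyMeasurable
    (Eventually.of_forall fun x => by rw [Real.norm_eq_abs]; exact hb x)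

theorem exp_per (φ : ℝ) :
    Complex.exp (((φ + 2 * Real.pi : ℝ) : ℂ) * Complex.I) = Complex.exp (φ * Complex.I) := by
  push_cast
  rw [add_mul, Complex.exp_add, Complex.exp_two_pi_mul_I, mul_one]

/-- `log ‖w - ρ e^{iφ}‖` -/
noncomputable def g (w : ℂ) (ρ : ℝ) (φ : ℝ) : ℝ :=
  Real.log ‖w - (ρ : ℂ) * Complex.exp (φ * Complex.I)‖

theorem g_per (w : ℂ) (ρ : ℝ) : Function.Periodic (g w ρ) (2 * Real.pi) := by
  intro φ
  unfold g
  rw [exp_per]

theorem g_ii (w : ℂ) (ρ : ℝ) (a b : ℝ) : IntervalIntegrable (g w ρ) volume a b := by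
  have h1 : CircleIntegrable (fun z => Real.log ‖z - w‖) 0 ρ :=
    circleIntegrable_log_norm_sub_const ρ
  have h2 : IntervalIntegrable (g w ρ) volume 0 (2 * Real.pi) := by
    have h3 : (fun θ : ℝ => (fun z : ℂ => Real.log ‖z - w‖) (circleMap 0 ρ θ)) = g w ρ := by
      funext θ
      simp only [circleMap, zero_add, g]
      rw [norm_sub_rev]
    rw [← h3]
    exact h1
  exact (g_per w ρ).intervalIntegrable₀ (by positivity) h2 a b

theorem g_ii_comp (w : ℂ) (ρ : ℝ) (m : ℕ) (hm : 1 ≤ m) (c a b : ℝ) :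
    IntervalIntegrable (fun y => g w ρ ((y + c) / m)) volume a b := by
  have hm0 : (0 : ℝ) < m := by exact_mod_cast hm
  have h1 := (g_ii w ρ ((a + c) / m) ((b + c) / m)).comp_mul_left (c := (m : ℝ)⁻¹)
  have e1 : (a + c) / m / (m : ℝ)⁻¹ = a + c := by field_simp
  have e2 : (b + c) / m / (m : ℝ)⁻¹ = b + c := by field_simp
  rw [e1, e2] at h1
  have h2 := h1.comp_add_right c
  have e3 : a + c - c = a := by ring
  have e4 : b + c - c = b := by ring
  rw [e3, e4] at h2
  have h3 : (fun y => g w ρ ((y + c) / m)) = (fun x => g w ρ ((m : ℝ)⁻¹ * (x + c))) := by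
    funext y
    congr 1
    field_simp
  rw [h3]
  exact h2

theorem prod_range (m : ℕ) (hm : 1 ≤ m) (w z : ℂ) :
    ∏ k ∈ Finset.range m, (w - Complex.exp (2 * Real.pi * Complex.I / m) ^ k * z) =
      w ^ m - z ^ m := by
  have hζ : IsPrimitiveRoot (Complex.exp (2 * Real.pi * Complex.I / m)) m :=
    Complex.isPrimitiveRoot_exp m (by omega)
  rw [hζ.pow_sub_pow_eq_prod_sub_mul w z hm]
  have himg : Polynomial.nthRootsFinset m (1 : ℂ) =
      (Finset.range m).image (fun k => Complex.exp (2 * Real.pi * Complex.I / m) ^ k) := by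
    symm
    apply Finset.eq_of_subset_of_card_le
    · intro x hx
      rw [Finset.mem_image] at hx
      obtain ⟨k, _, rfl⟩ := hx
      rw [Polynomial.mem_nthRootsFinset hm, ← pow_mul, mul_comm k m, pow_mul, hζ.pow_eq_one,
        one_pow]
    · rw [hζ.card_nthRootsFinset, Finset.card_image_of_injOn, Finset.card_range]
      intro i hi j hj hij
      exact hζ.pow_inj (by simpa using hi) (by simpa using hj) hij
  rw [himg, Finset.prod_image]
  intro i hi j hj hij
  exact hζ.pow_inj (by simpa using hi) (by simpa using hj) hij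

theorem sum_log (m : ℕ) (hm : 1 ≤ m) (w : ℂ) (ρ y : ℝ)
    (hne : w ^ m - (ρ : ℂ) ^ m * Complex.exp (y * Complex.I) ≠ 0) :
    ∑ k ∈ Finset.range m, g w ρ ((y + 2 * Real.pi * k) / m) =
      Real.log ‖w ^ m - (ρ : ℂ) ^ m * Complex.exp (y * Complex.I)‖ := by
  have hm0 : (m : ℂ) ≠ 0 := by
    have : m ≠ 0 := by omega
    exact_mod_cast this
  have hfac : ∀ k : ℕ, (ρ : ℂ) * Complex.exp ((((y + 2 * Real.pi * k) / m : ℝ) : ℂ) * Complex.I)
      = Complex.exp (2 * Real.pi * Complex.I / m) ^ k *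
        ((ρ : ℂ) * Complex.exp ((y / m : ℝ) * Complex.I)) := by
    intro k
    rw [← Complex.exp_nat_mul, mul_left_comm, ← Complex.exp_add]
    congr 2
    push_cast
    field_simp
    ring
  have hz : ((ρ : ℂ) * Complex.exp ((y / m : ℝ) * Complex.I)) ^ m =
      (ρ : ℂ) ^ m * Complex.exp (y * Complex.I) := by
    rw [mul_pow, ← Complex.exp_nat_mul]
    congr 2
    push_cast
    field_simp
  have hprod := prod_range m hm w ((ρ : ℂ) * Complex.exp ((y / m : ℝ) * Complex.I))
  rw [hz] at hprod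
  rw [← hprod, norm_prod, Real.log_prod]
  · apply Finset.sum_congr rfl
    intro k _
    unfold g
    rw [hfac]
  · intro k hk h0
    rw [norm_eq_zero] at h0
    apply hne
    rw [← hprod]
    exact Finset.prod_eq_zero hk h0

theorem normsq (a b α β : ℝ) :
    ‖(a : ℂ) * Complex.exp (α * Complex.I) - (b : ℂ) * Complex.exp (β * Complex.I)‖ ^ 2 =
      a ^ 2 + b ^ 2 - 2 * a * b * Real.cos (α - β) := by
  rw [← Complex.normSq_eq_norm_sq, Complex.normSq_apply]
  simp only [Complex.sub_re, Complex.sub_im, Complex.mul_re, Complex.mul_im, Complex.ofReal_re,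
    Complex.ofReal_im, Complex.exp_ofReal_mul_I_re, Complex.exp_ofReal_mul_I_im, zero_mul, sub_zero,
    add_zero]
  rw [Real.cos_sub]
  nlinarith [Real.sin_sq_add_cos_sq α, Real.sin_sq_add_cos_sq β]

theorem w_pow (m : ℕ) (w : ℂ) (hw : w ≠ 0) :
    w ^ m = ((Real.exp (-(-(m * Real.log ‖w‖))) : ℝ) : ℂ) *
      Complex.exp (((m * Complex.arg w : ℝ) : ℂ) * Complex.I) := by
  have h1 : (Real.exp (-(-(m * Real.log ‖w‖))) : ℝ) = ‖w‖ ^ m := by
    rw [neg_neg, Real.exp_nat_mul, Real.exp_log (norm_pos_iff.mpr hw)]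
  rw [h1]
  conv_lhs => rw [← Complex.norm_mul_exp_arg_mul_I w, mul_pow, ← Complex.exp_nat_mul]
  push_cast
  rw [mul_assoc]

theorem rho_pow (m : ℕ) (hm : 1 ≤ m) (s' : ℝ) :
    ((Real.exp (-(s' / m)) : ℝ) : ℂ) ^ m = ((Real.exp (-s') : ℝ) : ℂ) := by
  have hm0 : (m : ℝ) ≠ 0 := by
    have : m ≠ 0 := by omega
    exact_mod_cast this
  rw [← Complex.ofReal_pow, ← Real.exp_nat_mul]
  congr 2
  field_simp

theorem sq_eq (s s' x y : ℝ) :
    ‖((Real.exp (-s) : ℝ) : ℂ) * Complex.exp ((x : ℂ) * Complex.I) -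
      ((Real.exp (-s') : ℝ) : ℂ) * Complex.exp (y * Complex.I)‖ ^ 2 =
      2 * Real.exp (-s - s') * q (s - s') (x - y) := by
  rw [normsq, q, Real.cosh_eq]
  have e1 : Real.exp (-s) ^ 2 = Real.exp (-s - s') * Real.exp (-(s - s')) := by
    rw [sq, ← Real.exp_add, ← Real.exp_add]; congr 1; ring
  have e2 : Real.exp (-s') ^ 2 = Real.exp (-s - s') * Real.exp (s - s') := by
    rw [sq, ← Real.exp_add, ← Real.exp_add]; congr 1; ring
  have e3 : Real.exp (-s) * Real.exp (-s') = Real.exp (-s - s') := by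
    rw [← Real.exp_add, ← sub_eq_add_neg]
  rw [e1, e2, mul_assoc 2, e3]
  ring

theorem log_eq (s s' x y : ℝ)
    (hne : ((Real.exp (-s) : ℝ) : ℂ) * Complex.exp ((x : ℂ) * Complex.I) -
      ((Real.exp (-s') : ℝ) : ℂ) * Complex.exp (y * Complex.I) ≠ 0) :
    Real.log ‖((Real.exp (-s) : ℝ) : ℂ) * Complex.exp ((x : ℂ) * Complex.I) -
      ((Real.exp (-s') : ℝ) : ℂ) * Complex.exp (y * Complex.I)‖ =
      1 / 2 * (Real.log 2 - s - s' + Real.log (q (s - s') (x - y))) := by
  have h1 := sq_eq s s' x y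
  have h2 : 0 < ‖((Real.exp (-s) : ℝ) : ℂ) * Complex.exp ((x : ℂ) * Complex.I) -
      ((Real.exp (-s') : ℝ) : ℂ) * Complex.exp (y * Complex.I)‖ := norm_pos_iff.mpr hne
  have h3 : q (s - s') (x - y) ≠ 0 := by
    intro h0
    rw [h0, mul_zero] at h1
    have := pow_pos h2 2
    linarith
  have h4 := congrArg Real.log h1
  rw [Real.log_pow, Real.log_mul (by positivity) h3, Real.log_mul (by norm_num) (by positivity),
    Real.log_exp] at h4
  rw [Nat.cast_ofNat] at h4
  linarith

/-- the exceptional set is null -/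
theorem null_set (c b : ℂ) (hb : b ≠ 0) :
    ∀ᵐ y : ℝ, c - b * Complex.exp (y * Complex.I) ≠ 0 := by
  have hcount : Set.Countable {y : ℝ | ¬ (c - b * Complex.exp (y * Complex.I) ≠ 0)} := by
    by_cases hex : ∃ y0 : ℝ, c - b * Complex.exp (y0 * Complex.I) = 0
    · obtain ⟨y0, hy0⟩ := hex
      have hsub : {y : ℝ | ¬ (c - b * Complex.exp (y * Complex.I) ≠ 0)} ⊆
          Set.range (fun n : ℤ => y0 + n * (2 * Real.pi)) := by
        intro y hy
        simp only [ne_eq, not_not, Set.mem_ofPred_eq] at hy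
        have h1 : b * Complex.exp (y * Complex.I) = b * Complex.exp (y0 * Complex.I) := by
          rw [sub_eq_zero] at hy hy0
          rw [← hy, ← hy0]
        have h2 := mul_left_cancel₀ hb h1
        rw [Complex.exp_eq_exp_iff_exists_int] at h2
        obtain ⟨n, hn⟩ := h2
        refine ⟨n, ?_⟩
        have h3 : (y : ℂ) * Complex.I = ((y0 + n * (2 * Real.pi) : ℝ) : ℂ) * Complex.I := by
          rw [hn]; push_cast; ring
        have h4 := mul_right_cancel₀ Complex.I_ne_zero h3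
        exact (Complex.ofReal_injective h4).symm
      exact (Set.countable_range _).mono hsub
    · push Not at hex
      have : {y : ℝ | ¬ (c - b * Complex.exp (y * Complex.I) ≠ 0)} = ∅ := by
        ext y
        simp only [ne_eq, not_not, Set.mem_ofPred_eq, Set.mem_empty_iff_false, iff_false]
        exact hex y
      rw [this]
      exact Set.countable_empty
  rw [ae_iff]
  exact hcount.measure_zero volume

end Auxsectora

/- TARGET, proof in plain words:
Put ρ = e^{-s'/m}, s = -m log‖w‖, x = m arg w, so w^m = e^{-s+ix}.  g(φ) = log‖w - ρ e^{iφ}‖ is interval integrable (Mathlib: circleIntegrable_log_norm... , or: it is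
≤ a constant above, and log singularity), 2π-periodic.
(1) substitution y = mφ: ∫_{-π}^{π} τ(mφ) g(φ) dφ = (1/m) ∫_{-mπ}^{mπ} τ(y) g(y/m) dy; the integrand is 2πm-periodic, so this is
   (1/m) Σ_{k<m} ∫_{-π}^{π} τ(y) g((y+2πk)/m) dy   (Function.Periodic.intervalIntegral_add_eq, intervalIntegral.sum_integral_adjacent_intervals, τ 2π-periodic)
   = (1/m) ∫_{-π}^{π} τ(y) Σ_{k<m} log‖w - ρ e^{i(y+2πk)/m}‖ dy.
(2) Π_{k<m} (w - ζ^k ρ e^{iy/m}) = w^m - ρ^m e^{iy}, ζ = e^{2πi/m} (IsPrimitiveRoot.pow_sub_pow_eq_prod_sub_mul, Complex.isPrimitiveRoot_exp), and the log of the product is the sum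
   of the logs when no factor vanishes (a.e. y).  So the sum is log‖w^m - e^{-s'+iy}‖ for a.e. y.
(3) ‖e^{-s+ix} - e^{-s'+iy}‖² = e^{-2s} + e^{-2s'} - 2 e^{-s-s'} cos(x-y) = 2 e^{-s-s'} (cosh(s-s') - cos(x-y)) = 2 e^{-s-s'} q(s-s', x-y).
   So log‖..‖ = (1/2)(log 2 - s - s' + log q(s-s',x-y)) when q ≠ 0 (a.e. y).
(4) τ even: ∫_{-π}^{π} τ(y) K(y) dy = ∫_0^π τ(y) (K(y) + K(-y)) dy.   Altogether (1/m)(1/2) ∫_0^π τ [...] .
Integrability of y ↦ log q(u, x-y) (needed to split/symmetrise) follows from that of g, or: |log q(u,v)| ≤ log 2 + |u| + |log(1 - cos v)| and intervalIntegrable_log_sin-type lemmas.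
-/
theorem t_sectora : ∀ (m : ℕ) (τ : ℝ → ℝ) (w : ℂ) (s' : ℝ), 1 ≤ m → Measurable τ → (∀ x, |τ x| ≤ 1) →
    (∀ x, τ (-x) = τ x) → (∀ x, τ (x + 2 * Real.pi) = τ x) → w ≠ 0 →
    ∫ φ in (-Real.pi)..Real.pi, τ (m * φ) *
        Real.log ‖w - (Real.exp (-(s' / m)) : ℂ) * Complex.exp (φ * Complex.I)‖
      = (1 / (2 * m)) * ∫ x' in (0:ℝ)..Real.pi, τ x' *
        (Real.log (q (-(m * Real.log ‖w‖) - s') (m * Complex.arg w - x'))
          + Real.log (q (-(m * Real.log ‖w‖) - s') (m * Complex.arg w + x'))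
          + 2 * (Real.log 2 - (-(m * Real.log ‖w‖)) - s')) := by
  intro m τ w s' hm hmeas hbd heven hper hw
  have hm0 : (m : ℝ) ≠ 0 := by
    have : m ≠ 0 := by omega
    exact_mod_cast this
  have hmp : (0 : ℝ) < m := by exact_mod_cast hm
  have hpi : (0 : ℝ) < Real.pi := Real.pi_pos
  set ρ : ℝ := Real.exp (-(s' / m)) with hρ
  set s : ℝ := -(m * Real.log ‖w‖) with hs
  set x : ℝ := m * Complex.arg w with hx
  -- the kernel
  set K : ℝ → ℝ := fun y => 1 / 2 * (Real.log 2 - s - s' + Real.log (q (s - s') (x - y))) with hK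
  set h : ℝ → ℝ := fun y => τ y * Auxsectora.g w ρ (y / m) with hh
  have hτper : Function.Periodic τ (2 * Real.pi) := hper
  have hhper : Function.Periodic h (m * (2 * Real.pi)) := by
    intro y
    simp only [hh]
    have e1 : τ (y + m * (2 * Real.pi)) = τ y := hτper.nat_mul m y
    have e2 : (y + m * (2 * Real.pi)) / m = y / m + 2 * Real.pi := by field_simp
    rw [e1, e2, Auxsectora.g_per w ρ]
  have hg0 : ∀ a b : ℝ, IntervalIntegrable (fun y => Auxsectora.g w ρ (y / m)) volume a b := by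
    intro a b
    have := Auxsectora.g_ii_comp w ρ m hm 0 a b
    simpa using this
  have hhii : ∀ a b : ℝ, IntervalIntegrable h volume a b := fun a b =>
    Auxsectora.ii_mul hmeas hbd (hg0 a b)
  -- step 1
  have step1 : ∫ φ in (-Real.pi)..Real.pi, τ (m * φ) *
        Real.log ‖w - (ρ : ℂ) * Complex.exp (φ * Complex.I)‖ =
      (m : ℝ)⁻¹ * ∫ y in (-Real.pi)..Real.pi, τ y *
        ∑ k ∈ Finset.range m, Auxsectora.g w ρ ((y + 2 * Real.pi * k) / m) := by
    have e1 : (fun φ : ℝ => τ (m * φ) * Real.log ‖w - (ρ : ℂ) * Complex.exp (φ * Complex.I)‖) =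
        fun φ => h (m * φ) := by
      funext φ
      simp only [hh, Auxsectora.g]
      rw [mul_div_cancel_left₀ φ hm0]
    rw [e1, intervalIntegral.integral_comp_mul_left h hm0, smul_eq_mul]
    congr 1
    have e2 : (m : ℝ) * Real.pi = m * -Real.pi + m * (2 * Real.pi) := by ring
    rw [e2, hhper.intervalIntegral_add_eq (m * -Real.pi) (-Real.pi)]
    have e3 := intervalIntegral.sum_integral_adjacent_intervals (μ := volume) (f := h)
      (a := fun k : ℕ => -Real.pi + 2 * Real.pi * k) (n := m) (fun k _ => hhii _ _)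
    have e4 : -Real.pi + 2 * Real.pi * ((0 : ℕ) : ℝ) = -Real.pi := by simp
    have e5 : -Real.pi + 2 * Real.pi * (m : ℝ) = -Real.pi + m * (2 * Real.pi) := by ring
    rw [e4, e5] at e3
    rw [← e3]
    have e6 : ∀ y : ℝ, τ y * ∑ k ∈ Finset.range m, Auxsectora.g w ρ ((y + 2 * Real.pi * k) / m) =
        ∑ k ∈ Finset.range m, τ y * Auxsectora.g w ρ ((y + 2 * Real.pi * k) / m) := by
      intro y
      rw [Finset.mul_sum]
    simp only [e6]
    rw [intervalIntegral.integral_finsetSum]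
    · apply Finset.sum_congr rfl
      intro k _
      have e7 := intervalIntegral.integral_comp_add_right (a := -Real.pi) (b := Real.pi) h
        (2 * Real.pi * k)
      have e8 : Real.pi + 2 * Real.pi * (k : ℝ) = -Real.pi + 2 * Real.pi * ((k + 1 : ℕ) : ℝ) := by
        push_cast; ring
      rw [e8] at e7
      rw [← e7]
      apply intervalIntegral.integral_congr
      intro y _
      simp only [hh]
      have e9 : τ (y + 2 * Real.pi * k) = τ y := by
        have := hτper.nat_mul k y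
        rwa [mul_comm] at this
      rw [e9]
    · intro k _
      exact Auxsectora.ii_mul hmeas hbd (Auxsectora.g_ii_comp w ρ m hm _ _ _)
  -- step 2
  have hwp : w ^ m = ((Real.exp (-s) : ℝ) : ℂ) * Complex.exp ((x : ℂ) * Complex.I) := by
    have := Auxsectora.w_pow m w hw
    rwa [← hs, ← hx] at this
  have hrp : (ρ : ℂ) ^ m = ((Real.exp (-s') : ℝ) : ℂ) := Auxsectora.rho_pow m hm s'
  have hae : ∀ᵐ y : ℝ, ∑ k ∈ Finset.range m, Auxsectora.g w ρ ((y + 2 * Real.pi * k) / m) =
      K y := by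
    have hb : ((Real.exp (-s') : ℝ) : ℂ) ≠ 0 := by
      rw [Complex.ofReal_ne_zero]
      positivity
    filter_upwards [Auxsectora.null_set (w ^ m) _ hb] with y hy
    rw [← hrp] at hy
    rw [Auxsectora.sum_log m hm w ρ y hy, hrp, hwp]
    rw [hrp, hwp] at hy
    exact Auxsectora.log_eq s s' x y hy
  have step2 : ∫ y in (-Real.pi)..Real.pi, τ y *
        ∑ k ∈ Finset.range m, Auxsectora.g w ρ ((y + 2 * Real.pi * k) / m) =
      ∫ y in (-Real.pi)..Real.pi, τ y * K y := by
    apply intervalIntegral.integral_congr_ae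
    filter_upwards [hae] with y hy _
    rw [hy]
  have hKii : ∀ a b : ℝ, IntervalIntegrable (fun y => τ y * K y) volume a b := by
    intro a b
    have h1 : IntervalIntegrable (fun y => τ y *
        ∑ k ∈ Finset.range m, Auxsectora.g w ρ ((y + 2 * Real.pi * k) / m)) volume a b := by
      apply Auxsectora.ii_mul hmeas hbd
      have h2 := IntervalIntegrable.sum (μ := volume) (a := a) (b := b) (Finset.range m)
        (f := fun (k : ℕ) (y : ℝ) => Auxsectora.g w ρ ((y + 2 * Real.pi * k) / m))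
        (fun k _ => Auxsectora.g_ii_comp w ρ m hm _ _ _)
      have h3 : (fun y => ∑ k ∈ Finset.range m, Auxsectora.g w ρ ((y + 2 * Real.pi * k) / m)) =
          ∑ k ∈ Finset.range m, (fun y : ℝ => Auxsectora.g w ρ ((y + 2 * Real.pi * k) / m)) := by
        funext y
        rw [Finset.sum_apply]
      rw [h3]
      exact h2
    refine h1.congr_ae ?_
    apply ae_restrict_of_ae
    filter_upwards [hae] with y hy
    rw [hy]
  rw [step1, step2]
  have hsplit : ∫ y in (-Real.pi)..Real.pi, τ y * K y =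
      (∫ y in (-Real.pi)..0, τ y * K y) + ∫ y in (0:ℝ)..Real.pi, τ y * K y :=
    (intervalIntegral.integral_add_adjacent_intervals (hKii _ _) (hKii _ _)).symm
  have hneg : ∫ y in (-Real.pi)..0, τ y * K y = ∫ y in (0:ℝ)..Real.pi, τ y * K (-y) := by
    have h1 := intervalIntegral.integral_comp_neg (a := 0) (b := Real.pi) (fun y => τ y * K y)
    rw [neg_zero] at h1
    rw [← h1]
    simp only [heven]
  have hKneg : IntervalIntegrable (fun y => τ y * K (-y)) volume 0 Real.pi := by
    have h1 := (IntervalIntegrable.iff_comp_neg (f := fun y => τ y * K y) (a := 0)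
      (b := -Real.pi)).1 (hKii _ _)
    simp only [heven, neg_zero, neg_neg] at h1
    exact h1
  rw [hsplit, hneg, ← intervalIntegral.integral_add hKneg (hKii _ _)]
  have hfin : ∫ y in (0:ℝ)..Real.pi, (τ y * K (-y) + τ y * K y) =
      1 / 2 * ∫ x' in (0:ℝ)..Real.pi, τ x' *
        (Real.log (q (s - s') (x - x')) + Real.log (q (s - s') (x + x'))
          + 2 * (Real.log 2 - s - s')) := by
    rw [← intervalIntegral.integral_const_mul]
    apply intervalIntegral.integral_congr
    intro y _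
    simp only [hK, sub_neg_eq_add]
    ring
  rw [hfin]
  have e : (1 : ℝ) / (2 * m) = (m : ℝ)⁻¹ * (1 / 2) := by field_simp
  rw [e, mul_assoc]

end Pool.Agent.H682_VS
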