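import Pool.Agent.H682_VS.Stmts
import Pool.Agent.H682_VS.K1
import Pool.Agent.H682_VS.T_sectora

/-! # sectorb -/

set_option autoImplicit false

open MeasureTheory Set Filter Topology

namespace Pool.Agent.H682_VS


namespace Auxsectorb

theorem int_log0 (R : ℝ) : IntegrableOn (fun y : ℂ => Real.log ‖y‖) (Metric.ball 0 R) := by
  rw [integrableOn_fun_norm_addHaar (μ := volume) (E := ℂ) (f := Real.log)]
  rw [Complex.finrank_real_complex]
  have h : Continuous (fun y : ℝ => y * Real.log y) := Real.continuous_mul_log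
  refine ((h.integrableOn_Icc (a := 0) (b := R)).mono_set Ioo_subset_Icc_self).congr_fun ?_
    measurableSet_Ioo
  intro y _
  simp

theorem int_log (w : ℂ) : IntegrableOn (fun y : ℂ => Real.log ‖w - y‖) (Metric.ball 0 1) := by
  have hI : Integrable ((Metric.ball (0 : ℂ) (1 + ‖w‖)).indicator (fun y => Real.log ‖y‖)) :=
    (integrable_indicator_iff Metric.isOpen_ball.measurableSet).2 (int_log0 _)
  have h2 := (hI.comp_sub_left w).integrableOn (s := Metric.ball (0 : ℂ) 1)
  refine h2.congr_fun ?_ Metric.isOpen_ball.measurableSet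
  intro y hy
  rw [mem_ball_zero_iff] at hy
  have h3 : w - y ∈ Metric.ball (0 : ℂ) (1 + ‖w‖) := by
    rw [mem_ball_zero_iff]
    have := norm_sub_le w y
    linarith
  simp only [Set.indicator_of_mem h3]

/-- the set of integration -/
def SS (m : ℕ) (H : ℝ) (σ : ℝ → ℝ → ℝ) : Set ℂ :=
  {y : ℂ | Real.exp (-(H / m)) < ‖y‖ ∧ ‖y‖ < 1 ∧
      σ (-(m * Real.log ‖y‖)) (m * Complex.arg y) = 1}

theorem meas_SS {m : ℕ} {H : ℝ} {σ : ℝ → ℝ → ℝ} (hσ : Measurable (Function.uncurry σ)) :
    MeasurableSet (SS m H σ) := by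
  have h1 : MeasurableSet {y : ℂ | Real.exp (-(H / m)) < ‖y‖} :=
    measurableSet_lt measurable_const measurable_norm
  have h2 : MeasurableSet {y : ℂ | ‖y‖ < 1} := measurableSet_lt measurable_norm measurable_const
  have h3 : Measurable (fun y : ℂ => σ (-(m * Real.log ‖y‖)) (m * Complex.arg y)) := by
    have h4 : Measurable (fun y : ℂ => ((-(m * Real.log ‖y‖) : ℝ), (m * Complex.arg y : ℝ))) := by
      apply Measurable.prodMk
      · exact ((Real.measurable_log.comp measurable_norm).const_mul _).neg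
      · exact Complex.measurable_arg.const_mul _
    exact hσ.comp h4
  have h5 : MeasurableSet {y : ℂ | σ (-(m * Real.log ‖y‖)) (m * Complex.arg y) = 1} :=
    measurableSet_eq_fun h3 measurable_const
  exact h1.inter (h2.inter h5)

theorem SS_sub (m : ℕ) (H : ℝ) (σ : ℝ → ℝ → ℝ) : SS m H σ ⊆ Metric.ball (0 : ℂ) 1 := by
  intro y hy
  rw [mem_ball_zero_iff]
  exact hy.2.1

/-- the rectangle -/
def AA (m : ℕ) (H : ℝ) : Set (ℝ × ℝ) := Ioo (Real.exp (-(H / m))) 1 ×ˢ Ioo (-Real.pi) Real.pi

theorem AA_sub (m : ℕ) (H : ℝ) : AA m H ⊆ polarCoord.target := by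
  rintro ⟨r, φ⟩ ⟨h1, h2⟩
  exact ⟨lt_trans (Real.exp_pos _) h1.1, h2⟩

/-- the integrand in polar coordinates -/
noncomputable def gg (m : ℕ) (σ : ℝ → ℝ → ℝ) (w : ℂ) (p : ℝ × ℝ) : ℝ :=
  p.1 * (σ (-(m * Real.log p.1)) (m * p.2) *
    Real.log ‖w - (p.1 : ℂ) * Complex.exp (p.2 * Complex.I)‖)

theorem meas_gg {m : ℕ} {σ : ℝ → ℝ → ℝ} (hσ : Measurable (Function.uncurry σ)) (w : ℂ) :
    Measurable (gg m σ w) := by
  unfold gg
  apply measurable_fst.mul
  apply Measurable.mul
  · have h4 : Measurable (fun p : ℝ × ℝ => ((-(m * Real.log p.1) : ℝ), (m * p.2 : ℝ))) := by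
      apply Measurable.prodMk
      · exact ((Real.measurable_log.comp measurable_fst).const_mul _).neg
      · exact measurable_snd.const_mul _
    exact hσ.comp h4
  · apply Real.measurable_log.comp
    apply measurable_norm.comp
    apply Continuous.measurable
    fun_prop

theorem symm_eq (p : ℝ × ℝ) :
    Complex.polarCoord.symm p = (p.1 : ℂ) * Complex.exp (p.2 * Complex.I) := by
  rw [Complex.polarCoord_symm_apply, Complex.exp_mul_I]
  push_cast
  rfl

theorem pol_eq {m : ℕ} {H : ℝ} {σ : ℝ → ℝ → ℝ} (h01 : ∀ s x, σ s x = 0 ∨ σ s x = 1) (w : ℂ)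
    {p : ℝ × ℝ} (hp : p ∈ polarCoord.target) :
    p.1 • (SS m H σ).indicator (fun y => Real.log ‖w - y‖) (Complex.polarCoord.symm p)
      = (AA m H).indicator (gg m σ w) p := by
  have hr : 0 < p.1 := hp.1
  have hφ : p.2 ∈ Ioo (-Real.pi) Real.pi := hp.2
  have hn : ‖Complex.polarCoord.symm p‖ = p.1 := by
    rw [Complex.norm_polarCoord_symm, abs_of_pos hr]
  have ha : Complex.arg (Complex.polarCoord.symm p) = p.2 := by
    have h1 := Complex.polarCoord.right_inv (x := p) hp
    rw [Complex.polarCoord_apply] at h1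
    exact congrArg Prod.snd h1
  have hmem : Complex.polarCoord.symm p ∈ SS m H σ ↔
      p ∈ AA m H ∧ σ (-(m * Real.log p.1)) (m * p.2) = 1 := by
    constructor
    · rintro ⟨h1, h2, h3⟩
      rw [hn] at h1 h2
      rw [hn, ha] at h3
      exact ⟨⟨⟨h1, h2⟩, hφ⟩, h3⟩
    · rintro ⟨⟨h1, _⟩, h3⟩
      refine ⟨?_, ?_, ?_⟩
      · rw [hn]; exact h1.1
      · rw [hn]; exact h1.2
      · rw [hn, ha]; exact h3
  by_cases hA : p ∈ AA m H
  · rw [Set.indicator_of_mem hA]
    rcases h01 (-(m * Real.log p.1)) (m * p.2) with h | h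
    · have : Complex.polarCoord.symm p ∉ SS m H σ := by
        rw [hmem, h]
        simp
      rw [Set.indicator_of_notMem this, gg, h]
      simp
    · have : Complex.polarCoord.symm p ∈ SS m H σ := hmem.2 ⟨hA, h⟩
      rw [Set.indicator_of_mem this, gg, h, one_mul, smul_eq_mul, symm_eq]
  · have : Complex.polarCoord.symm p ∉ SS m H σ := fun h => hA (hmem.1 h).1
    rw [Set.indicator_of_notMem hA, Set.indicator_of_notMem this, smul_zero]

theorem int_gg {m : ℕ} {H : ℝ} {σ : ℝ → ℝ → ℝ} (hσ : Measurable (Function.uncurry σ))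
    (h01 : ∀ s x, σ s x = 0 ∨ σ s x = 1) (w : ℂ) : IntegrableOn (gg m σ w) (AA m H) := by
  have hA : MeasurableSet (AA m H) := measurableSet_Ioo.prod measurableSet_Ioo
  have hT : MeasurableSet polarCoord.target := polarCoord.open_target.measurableSet
  have h1 : Integrable ((SS m H σ).indicator (fun y => Real.log ‖w - y‖)) :=
    (integrable_indicator_iff (meas_SS hσ)).2 ((int_log w).mono_set (SS_sub m H σ))
  refine ⟨(meas_gg hσ w).aestronglyMeasurable, ?_⟩
  have h2 := h1.2
  rw [HasFiniteIntegral, ← Complex.lintegral_comp_polarCoord_symm] at h2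
  rw [HasFiniteIntegral]
  refine lt_of_le_of_lt (le_of_eq ?_) h2
  rw [← lintegral_indicator hA, ← lintegral_indicator hT]
  apply lintegral_congr
  intro p
  by_cases hp : p ∈ polarCoord.target
  · rw [Set.indicator_of_mem hp]
    have h3 := pol_eq (m := m) (H := H) h01 w hp
    have h4 : (AA m H).indicator (fun a => ‖gg m σ w a‖ₑ) p = ‖(AA m H).indicator (gg m σ w) p‖ₑ := by
      by_cases h : p ∈ AA m H
      · rw [Set.indicator_of_mem h, Set.indicator_of_mem h]
      · rw [Set.indicator_of_notMem h, Set.indicator_of_notMem h, enorm_zero]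
    rw [h4, ← h3, smul_eq_mul, enorm_mul, smul_eq_mul, Real.enorm_of_nonneg (le_of_lt hp.1)]
  · have : p ∉ AA m H := fun h => hp (AA_sub m H h)
    rw [Set.indicator_of_notMem hp, Set.indicator_of_notMem this]

theorem polar {m : ℕ} {H : ℝ} {σ : ℝ → ℝ → ℝ} (hσ : Measurable (Function.uncurry σ))
    (h01 : ∀ s x, σ s x = 0 ∨ σ s x = 1) (w : ℂ) :
    ∫ y in SS m H σ, Real.log ‖w - y‖ = ∫ r in Ioo (Real.exp (-(H / m))) 1,
      r * ∫ φ in Ioo (-Real.pi) Real.pi, σ (-(m * Real.log r)) (m * φ) *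
        Real.log ‖w - (r : ℂ) * Complex.exp (φ * Complex.I)‖ := by
  have hA : MeasurableSet (AA m H) := measurableSet_Ioo.prod measurableSet_Ioo
  have hT : MeasurableSet polarCoord.target := polarCoord.open_target.measurableSet
  rw [← integral_indicator (meas_SS hσ), ← Complex.integral_comp_polarCoord_symm]
  rw [setIntegral_congr_fun hT (fun p hp => pol_eq (m := m) (H := H) h01 w hp)]
  rw [setIntegral_indicator hA, Set.inter_eq_self_of_subset_right (AA_sub m H)]
  have h1 := int_gg (m := m) (H := H) hσ h01 w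
  rw [AA] at h1 ⊢
  rw [Measure.volume_eq_prod] at h1 ⊢
  rw [setIntegral_prod _ h1]
  apply setIntegral_congr_fun measurableSet_Ioo
  intro r _
  simp only [gg]
  rw [integral_const_mul]

theorem image_eq {m : ℕ} (hm : 1 ≤ m) (H : ℝ) :
    (fun s : ℝ => Real.exp (-(s / m))) '' Ioo 0 H = Ioo (Real.exp (-(H / m))) 1 := by
  have hm0 : (0 : ℝ) < m := by exact_mod_cast hm
  ext x
  constructor
  · rintro ⟨s, hs, rfl⟩
    constructor
    · apply Real.exp_lt_exp.2
      have := div_lt_div_of_pos_right hs.2 hm0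
      linarith
    · rw [Real.exp_lt_one_iff]
      have := div_pos hs.1 hm0
      linarith
  · rintro ⟨h1, h2⟩
    have hx : 0 < x := lt_trans (Real.exp_pos _) h1
    refine ⟨-(m * Real.log x), ⟨?_, ?_⟩, ?_⟩
    · have := Real.log_neg hx h2
      nlinarith
    · have h3 := (Real.lt_log_iff_exp_lt hx).2 h1
      have h4 := mul_lt_mul_of_pos_left h3 hm0
      have h5 : (m : ℝ) * -(H / m) = -H := by field_simp
      rw [h5] at h4
      linarith
    · have : -(-(m * Real.log x) / m) = Real.log x := by field_simp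
      simp only [this]
      exact Real.exp_log hx

theorem change {m : ℕ} (hm : 1 ≤ m) (H : ℝ) (F : ℝ → ℝ) :
    ∫ r in Ioo (Real.exp (-(H / m))) 1, F r =
      ∫ s in Ioo 0 H, (Real.exp (-(s / m)) / m) * F (Real.exp (-(s / m))) := by
  have hm0 : (0 : ℝ) < m := by exact_mod_cast hm
  rw [← image_eq hm H]
  have hd : ∀ s ∈ Ioo (0 : ℝ) H, HasDerivWithinAt (fun s : ℝ => Real.exp (-(s / m)))
      (Real.exp (-(s / m)) * (-(1 / m))) (Ioo 0 H) s := by
    intro s _
    have h1 : HasDerivAt (fun s : ℝ => -(s / m)) (-(1 / m)) s := ((hasDerivAt_id' s).div_const _).neg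
    exact (h1.exp).hasDerivWithinAt
  have hinj : InjOn (fun s : ℝ => Real.exp (-(s / m))) (Ioo 0 H) := by
    intro a _ b _ hab
    have h1 := Real.exp_injective hab
    have h2 : a / m = b / m := neg_injective h1
    field_simp at h2
    exact h2
  rw [integral_image_eq_integral_abs_deriv_smul measurableSet_Ioo hd hinj]
  apply setIntegral_congr_fun measurableSet_Ioo
  intro s _
  have h1 : |Real.exp (-(s / m)) * (-(1 / (m : ℝ)))| = Real.exp (-(s / m)) / m := by
    rw [abs_mul, abs_of_pos (Real.exp_pos _), abs_neg, abs_of_pos (by positivity)]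
    ring
  simp only [smul_eq_mul, h1]

end Auxsectorb

theorem t_sector : S_sector := by
  intro m H σ hm hH hσ h01 heven hper w hw
  have hm0 : (0 : ℝ) < m := by exact_mod_cast hm
  have hpi := Real.pi_pos
  have e1 : psi {y : ℂ | Real.exp (-(H / m)) < ‖y‖ ∧ ‖y‖ < 1 ∧
      σ (-(m * Real.log ‖y‖)) (m * Complex.arg y) = 1} w
      = (1 / (2 * Real.pi)) * ∫ y in Auxsectorb.SS m H σ, Real.log ‖w - y‖ := rfl
  rw [e1, Auxsectorb.polar hσ h01 w, Auxsectorb.change hm H]
  rw [intervalIntegral.integral_of_le hH.le, integral_Ioc_eq_integral_Ioo]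
  rw [← integral_const_mul, ← integral_const_mul]
  apply setIntegral_congr_fun measurableSet_Ioo
  intro s _
  have h1 : -((m : ℝ) * Real.log (Real.exp (-(s / m)))) = s := by
    rw [Real.log_exp]
    field_simp
  have h2 : ∫ φ in Ioo (-Real.pi) Real.pi, σ s (m * φ) *
      Real.log ‖w - (Real.exp (-(s / m)) : ℂ) * Complex.exp (φ * Complex.I)‖
      = (1 / (2 * m)) * ∫ x' in (0:ℝ)..Real.pi, σ s x' *
        (Real.log (q (-(m * Real.log ‖w‖) - s) (m * Complex.arg w - x'))
          + Real.log (q (-(m * Real.log ‖w‖) - s) (m * Complex.arg w + x'))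
          + 2 * (Real.log 2 - (-(m * Real.log ‖w‖)) - s)) := by
    rw [← t_sectora m (σ s) w s hm (hσ.of_uncurry_left) ?_ (heven s) (hper s) hw]
    · rw [intervalIntegral.integral_of_le (by linarith), integral_Ioc_eq_integral_Ioo]
    · intro x
      rcases h01 s x with h | h
      · rw [h]; simp
      · rw [h]; simp
  simp only [h1]
  rw [h2]
  have h3 : om m s = Real.exp (-(s / m)) * Real.exp (-(s / m)) := by
    rw [om, ← Real.exp_add]
    congr 1
    ring
  rw [h3]
  field_simp
  try ring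

end Pool.Agent.H682_VS
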