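import Pool.Agent.H682_VS.Stmts
import Pool.Agent.H682_VS.K1

/-! # h1small -/

set_option autoImplicit false

open MeasureTheory Set Filter Topology

namespace Pool.Agent.H682_VS



namespace Auxh1small

theorem q_pos {u : ℝ} (hu : u ≠ 0) (v : ℝ) : 0 < q u v := by
  unfold q
  have h1 : 1 < Real.cosh u := Real.one_lt_cosh.2 hu
  have h2 := Real.cos_le_one v
  linarith

theorem cont_h1 {u : ℝ} (hu : u ≠ 0) : Continuous fun v => h1 u v := by
  unfold h1
  refine Continuous.div continuous_const ?_ fun v => (q_pos hu v).ne'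
  unfold q
  fun_prop

theorem sinh_le {u N : ℝ} (hN : 3 ≤ N) (hu : 3 / N ≤ u) :
    Real.sinh u ≤ N * (Real.cosh u - 1) := by
  have hN0 : 0 < N := by linarith
  have h1 : 3 ≤ u * N := by
    rwa [div_le_iff₀ hN0] at hu
  have h2 : 1 + u ≤ Real.exp u := by
    have := Real.add_one_le_exp u
    linarith
  have hy : 0 < Real.exp u := Real.exp_pos u
  have h3 : N + 1 ≤ (N - 1) * Real.exp u := by
    have h4 : (N - 1) * (1 + u) ≤ (N - 1) * Real.exp u :=
      mul_le_mul_of_nonneg_left h2 (by linarith)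
    have h5 : 3 / N ≤ u := hu
    have h6 : (N - 1) * (3 / N) ≤ (N - 1) * u := mul_le_mul_of_nonneg_left h5 (by linarith)
    have h7 : 2 ≤ (N - 1) * (3 / N) := by
      have : (N - 1) * (3 / N) = 3 * (N - 1) / N := by ring
      rw [this, le_div_iff₀ hN0]
      linarith
    nlinarith
  have h8 : 1 ≤ Real.exp u := by
    have : 0 < u := by
      by_contra h
      push Not at h
      nlinarith
    linarith
  rw [Real.sinh_eq, Real.cosh_eq, Real.exp_neg]
  have h9 : N * ((Real.exp u + (Real.exp u)⁻¹) / 2 - 1) - (Real.exp u - (Real.exp u)⁻¹) / 2 =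
      (Real.exp u - 1) * ((N - 1) * Real.exp u - (N + 1)) / (2 * Real.exp u) := by
    field_simp
    ring
  have h10 : 0 ≤ (Real.exp u - 1) * ((N - 1) * Real.exp u - (N + 1)) / (2 * Real.exp u) :=
    div_nonneg (mul_nonneg (by linarith) (by linarith)) (by positivity)
  linarith

theorem h1_le {u v N : ℝ} (hN : 3 ≤ N) (hu : 3 / N ≤ |u|) : |h1 u v| ≤ N := by
  have hN0 : 0 < N := by linarith
  have hu0 : u ≠ 0 := by
    rintro rfl
    rw [abs_zero] at hu
    have : 0 < 3 / N := by positivity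
    linarith
  unfold h1
  rw [abs_div, abs_of_pos (q_pos hu0 v), div_le_iff₀ (q_pos hu0 v), Real.abs_sinh]
  refine (sinh_le hN hu).trans ?_
  unfold q
  rw [Real.cosh_abs]
  refine mul_le_mul_of_nonneg_left ?_ hN0.le
  have := Real.cos_le_one v
  linarith

end Auxh1small

/- TARGET, proof in plain words:
If |h1 u v| > N ≥ 3 then u ≠ 0 and |h1 u v| ≤ |sinh u|/(cosh u - 1) = coth(|u|/2), so tanh(|u|/2) < 1/N, and this forces |u| < 3/N
(tanh(y) ≥ y/(1+y) for y ≥ 0, say; or tanh y ≥ min(2y/3, 2/5): if |u| ≥ 3/N, y = |u|/2 ≥ 1.5/N =: y0 ≤ 1/2, tanh y ≥ tanh y0 ≥ y0 - y0^3/3 ≥ 1/N·(1.5 - ...) ≥ 1/N).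
So pointwise (0 ≤ σ ≤ 1): σ |h1(a-s',b-x')| ≤ N σ + 1_{|a-s'| < 3/N} |h1(a-s',b-x')|.  Integrate over x' in [0,π], s' in [0,t]:
∫∫ N σ ≤ N lam;  ∫_0^π |h1(u,b-x')| dx' ≤ C (t_K1 part 1, window b-π..b; u ≠ 0; h1 0 = 0), and {s' : |a-s'| < 3/N} has length ≤ 6/N: so C1 = 6 C.
(Integrability: σ bounded measurable; inner functions bounded for u ≠ 0; outer function measurable (parametric integral) and bounded.)
-/
theorem t_h1small : S_h1small := by
  obtain ⟨C, hC, k1, -, -, -⟩ := t_K1
  refine ⟨6 * C, by linarith, fun t N a b lam σ ht hN hσm hσ hlam => ?_⟩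
  have hN0 : 0 < N := by linarith
  have hpi := Real.pi_pos
  have hwm : ∀ s' : ℝ, Measurable (fun x' => σ s' x') := fun s' =>
    hσm.comp (measurable_const.prodMk measurable_id)
  have hwi : ∀ s' : ℝ, IntervalIntegrable (fun x' => σ s' x') volume 0 Real.pi := by
    intro s'
    have h1 : IntervalIntegrable (fun _ : ℝ => (1 : ℝ)) volume 0 Real.pi :=
      intervalIntegrable_const
    refine h1.mono_fun (hwm s').aestronglyMeasurable (Eventually.of_forall fun x' => ?_)
    show ‖σ s' x'‖ ≤ ‖(1 : ℝ)‖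
    rw [Real.norm_eq_abs, abs_of_nonneg (hσ s' x').1, norm_one]
    exact (hσ s' x').2
  have hJ0 : ∀ s' : ℝ, 0 ≤ ∫ x' in (0:ℝ)..Real.pi, σ s' x' := fun s' =>
    intervalIntegral.integral_nonneg hpi.le fun x' _ => (hσ s' x').1
  have hJ1 : ∀ s' : ℝ, ∫ x' in (0:ℝ)..Real.pi, σ s' x' ≤ Real.pi := by
    intro s'
    have h1 := intervalIntegral.integral_mono_on hpi.le (hwi s')
      (intervalIntegrable_const (c := (1 : ℝ))) fun x' _ => (hσ s' x').2
    refine h1.trans (le_of_eq ?_)
    rw [intervalIntegral.integral_const]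
    simp
  have hJm : StronglyMeasurable fun s' : ℝ => ∫ x' in (0:ℝ)..Real.pi, σ s' x' := by
    simp only [intervalIntegral.integral_of_le hpi.le]
    have h3 : StronglyMeasurable (Function.uncurry fun s' x' => σ s' x') :=
      hσm.stronglyMeasurable
    exact h3.integral_prod_right
  have hJi : Integrable (fun s' : ℝ => ∫ x' in (0:ℝ)..Real.pi, σ s' x')
      (volume.restrict (Ioc (0:ℝ) t)) := by
    refine Integrable.mono' (g := fun _ => Real.pi) (integrable_const _)
      hJm.aestronglyMeasurable (Eventually.of_forall fun s' => ?_)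
    rw [Real.norm_eq_abs, abs_of_nonneg (hJ0 s')]
    exact hJ1 s'
  have hGi : Integrable (fun s' : ℝ => (Metric.ball a (3 / N)).indicator (fun _ => C) s')
      (volume.restrict (Ioc (0:ℝ) t)) :=
    (integrable_const C).indicator measurableSet_ball
  have hinner : ∀ s' : ℝ, s' ≠ a →
      ∫ x' in (0:ℝ)..Real.pi, σ s' x' * |h1 (a - s') (b - x')| ≤
        N * (∫ x' in (0:ℝ)..Real.pi, σ s' x') +
          (Metric.ball a (3 / N)).indicator (fun _ => C) s' := by
    intro s' hs'
    have hu : a - s' ≠ 0 := sub_ne_zero.2 hs'.symm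
    have hci : Continuous fun x' : ℝ => |h1 (a - s') (b - x')| :=
      ((Auxh1small.cont_h1 hu).comp (continuous_const.sub continuous_id)).abs
    have hfi : IntervalIntegrable (fun x' => σ s' x' * |h1 (a - s') (b - x')|) volume 0
        Real.pi := by
      refine (hci.intervalIntegrable 0 Real.pi).mono_fun
        ((hwm s').mul hci.measurable).aestronglyMeasurable (Eventually.of_forall fun x' => ?_)
      show ‖σ s' x' * |h1 (a - s') (b - x')|‖ ≤ ‖|h1 (a - s') (b - x')|‖
      rw [norm_mul, Real.norm_eq_abs (σ s' x'), abs_of_nonneg (hσ s' x').1]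
      exact mul_le_of_le_one_left (norm_nonneg _) (hσ s' x').2
    by_cases hb : s' ∈ Metric.ball a (3 / N)
    · rw [indicator_of_mem hb]
      have h2 : ∫ x' in (0:ℝ)..Real.pi, σ s' x' * |h1 (a - s') (b - x')| ≤
          ∫ x' in (0:ℝ)..Real.pi, |h1 (a - s') (b - x')| :=
        intervalIntegral.integral_mono_on hpi.le hfi (hci.intervalIntegrable 0 Real.pi)
          fun x' _ => mul_le_of_le_one_left (abs_nonneg _) (hσ s' x').2
      have h3 : ∫ x' in (0:ℝ)..Real.pi, |h1 (a - s') (b - x')| ≤ C := by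
        rw [intervalIntegral.integral_comp_sub_left (fun v => |h1 (a - s') v|) b]
        have := k1 (a - s') (b - Real.pi) hu
        simpa using this
      have h4 : 0 ≤ N * ∫ x' in (0:ℝ)..Real.pi, σ s' x' := mul_nonneg hN0.le (hJ0 s')
      linarith
    · rw [indicator_of_notMem hb, add_zero, ← intervalIntegral.integral_const_mul]
      refine intervalIntegral.integral_mono_on hpi.le hfi ((hwi s').const_mul N)
        fun x' _ => ?_
      rw [Metric.mem_ball, Real.dist_eq, not_lt, abs_sub_comm] at hb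
      rw [mul_comm]
      exact mul_le_mul_of_nonneg_right (Auxh1small.h1_le hN hb) (hσ s' x').1
  rw [intervalIntegral.integral_of_le ht]
  rw [intervalIntegral.integral_of_le ht] at hlam
  have hne : ∀ᵐ s' : ℝ ∂(volume.restrict (Ioc (0:ℝ) t)), s' ≠ a :=
    ae_restrict_of_ae (measure_eq_zero_iff_ae_notMem.1 (measure_singleton a))
  have hmain : ∫ s' in Ioc (0:ℝ) t, ∫ x' in (0:ℝ)..Real.pi, σ s' x' * |h1 (a - s') (b - x')| ≤
      ∫ s' in Ioc (0:ℝ) t, (N * (∫ x' in (0:ℝ)..Real.pi, σ s' x') +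
          (Metric.ball a (3 / N)).indicator (fun _ => C) s') := by
    refine integral_mono_of_nonneg (Eventually.of_forall fun s' => ?_)
      ((hJi.const_mul N).add hGi) ?_
    · exact intervalIntegral.integral_nonneg hpi.le fun x' _ =>
        mul_nonneg (hσ s' x').1 (abs_nonneg _)
    · filter_upwards [hne] with s' hs'
      exact hinner s' hs'
  refine hmain.trans ?_
  rw [integral_add (hJi.const_mul N) hGi, integral_const_mul,
    setIntegral_indicator measurableSet_ball, setIntegral_const, smul_eq_mul]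
  have h5 : volume.real (Ioc (0:ℝ) t ∩ Metric.ball a (3 / N)) ≤ 2 * (3 / N) := by
    refine (measureReal_mono inter_subset_right ?_).trans (le_of_eq ?_)
    · rw [Real.volume_ball]
      exact ENNReal.ofReal_ne_top
    · exact Real.volume_real_ball (by positivity)
  have h6 : N * ∫ s' in Ioc (0:ℝ) t, ∫ x' in (0:ℝ)..Real.pi, σ s' x' ≤ N * lam :=
    mul_le_mul_of_nonneg_left hlam hN0.le
  have h7 : volume.real (Ioc (0:ℝ) t ∩ Metric.ball a (3 / N)) * C ≤ 2 * (3 / N) * C :=
    mul_le_mul_of_nonneg_right h5 (by linarith)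
  have h8 : 2 * (3 / N) * C = 6 * C / N := by ring
  linarith

end Pool.Agent.H682_VS
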