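import Pool.Agent.H682_VS.Stmts
import Pool.Agent.H682_VS.K1
import Pool.Agent.H682_VS.T_sol
import Pool.Agent.H682_VS.T_h1small

/-! # Fsbound -/

set_option autoImplicit false

open MeasureTheory Set Filter Topology

namespace Pool.Agent.H682_VS


/- TARGET, proof in plain words:
Take C1 from t_h1small.  Fs = Ls + ε(-(e^{-s} cos x) + om m s), the last bracket has absolute value ≤ 2 for s ≥ 0: contributes 4π·2ε = 8πε.
4π Ls(s,x) = ∫_0^H om(s') ∫_0^π σ(s',x') br dx' ds', br = h1(s-s',x-x') + h1(s-s',x+x') + 2 om(s)(1 + h1(s',x')) - 2, 0 ≤ σ ≤ 1, 0 ≤ om ≤ 1.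
Split at s' = t.
s' < t:  |br| ≤ |h1(s-s',x-x')| + |h1(s-s',-x-x')| + 2 |h1(0-s',0-x')| + 8/m   (h1 is odd in u and even in v; 0 ≤ om(s) ≤ 1;
   0 ≤ 1 - om(s) = 1 - e^{-2s/m} ≤ 2s/m ≤ 4/m for s ≤ 2).  By t_h1small with (a,b) = (s,x), (s,-x), (0,0):
   contribution ≤ 4 (N lam + C1/N) + 8 lam/m.
s' ≥ t ≥ 3 (s ≤ 2, so s - s' ≤ 2 - t ≤ -1):  br = [h1(s-s',x-x') + 1] + [h1(s-s',x+x') + 1] + 2 om(s)(h1(s',x') - 1) - 4(1 - om(s)).
   For a ≥ 1: |h1(-a,v) + 1| = |h1(a,v) - 1| ≤ 10 e^{-a}  (|sinh a - cosh a + cos v| ≤ e^{-a} + |cos v| ... careful: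
   h1(a,v) - 1 = (sinh a - cosh a + cos v)/(cosh a - cos v) = (cos v - e^{-a})/(cosh a - cos v), |numerator| ≤ 1 + e^{-a} ≤ 1.37, denominator ≥ cosh a - 1 ≥ e^a (1-e^{-1})^2/2 ≥ 0.199 e^a: quotient ≤ 6.9 e^{-a}).
   So |br| ≤ 10 e^{s-s'} + 10 e^{s-s'} + 20 e^{-s'} + 16/m ≤ 40 e^{2-t} + 16/m; contribution ≤ π H (40 e^{2-t} + 16/m).
Integrability of the pieces: σ bounded measurable, |h1(u,·)| bounded for u ≠ 0, outer integrands bounded by t_K1 part 1 and measurable.
-/
namespace AuxFsbound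

theorem q_pos {u : ℝ} (hu : u ≠ 0) (v : ℝ) : 0 < q u v := by
  unfold q
  have h1 := Real.one_lt_cosh.2 hu
  have h2 := Real.cos_le_one v
  linarith

theorem h1_bdd {u : ℝ} (hu : u ≠ 0) (v : ℝ) : |h1 u v| ≤ |Real.sinh u| / (Real.cosh u - 1) := by
  unfold h1
  rw [abs_div]
  have h1 := Real.one_lt_cosh.2 hu
  have h2 := Real.cos_le_one v
  have h3 := q_pos hu v
  rw [abs_of_pos h3]
  apply div_le_div_of_nonneg_left (abs_nonneg _) (by linarith)
  unfold q
  linarith

theorem h1_even (u v : ℝ) : h1 u (-v) = h1 u v := by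
  unfold h1 q
  rw [Real.cos_neg]

theorem h1_odd (u v : ℝ) : h1 (-u) v = -h1 u v := by
  unfold h1 q
  rw [Real.sinh_neg, Real.cosh_neg, neg_div]

theorem h1_meas (a b : ℝ) : Measurable (fun p : ℝ × ℝ => h1 (a - p.1) (b - p.2)) := by
  unfold h1 q
  exact (Continuous.measurable (by fun_prop)).div (Continuous.measurable (by fun_prop))

theorem h1_near {a : ℝ} (ha : 1 ≤ a) (v : ℝ) : |h1 a v - 1| ≤ 10 * Real.exp (-a) := by
  have ha0 : a ≠ 0 := by linarith
  have hq := q_pos ha0 v
  have e1 : h1 a v - 1 = (Real.cos v - Real.exp (-a)) / q a v := by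
    rw [eq_div_iff hq.ne', sub_mul, one_mul]
    unfold h1
    rw [div_mul_cancel₀ _ hq.ne', Real.sinh_eq, q, Real.cosh_eq]
    ring
  rw [e1, abs_div, abs_of_pos hq, div_le_iff₀ hq]
  set y := Real.exp (-a) with hy
  have hy0 : 0 < y := Real.exp_pos _
  have hy1 : y ≤ 0.37 := by
    have h1 : y ≤ Real.exp (-1) := Real.exp_le_exp.2 (by linarith)
    have h2 := Real.exp_neg_one_lt_d9
    linarith
  have hcos1 := Real.cos_le_one v
  have hcos2 := Real.neg_one_le_cos v
  have hnum : |Real.cos v - y| ≤ 1 + y := by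
    rw [abs_le]
    constructor <;> linarith
  have hprod : y * Real.exp a = 1 := by
    rw [hy, ← Real.exp_add]
    simp
  have hqq : y * q a v ≥ (1 + y ^ 2) / 2 - y := by
    unfold q
    rw [Real.cosh_eq, ← hy]
    have h4 : y * ((Real.exp a + y) / 2 - Real.cos v) = (y * Real.exp a + y ^ 2) / 2 - y * Real.cos v := by
      ring
    rw [h4, hprod]
    nlinarith
  have h5 : 10 * y * q a v = 10 * (y * q a v) := by ring
  rw [h5]
  nlinarith [sq_nonneg (y - 0.37)]

theorem om_le {m s : ℝ} (hm : 0 < m) (hs : 0 ≤ s) : om m s ≤ 1 := by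
  unfold om
  rw [Real.exp_le_one_iff]
  have : 0 ≤ 2 * s / m := by positivity
  linarith

theorem om_pos (m s : ℝ) : 0 < om m s := Real.exp_pos _

theorem om_ge {m s : ℝ} (hm : 0 < m) (hs2 : s ≤ 2) : 1 - om m s ≤ 4 / m := by
  unfold om
  have h1 := Real.add_one_le_exp (-(2 * s / m))
  have h2 : 2 * s / m ≤ 4 / m := by
    apply div_le_div_of_nonneg_right _ hm.le
    linarith
  linarith

theorem bdd_int (g : ℝ → ℝ) (hg : Measurable g) (M : ℝ) (hM : ∀ x, |g x| ≤ M) (a b : ℝ) :
    IntervalIntegrable g volume a b := by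
  have h1 : IntervalIntegrable (fun _ : ℝ => M) volume a b := intervalIntegrable_const
  exact h1.mono_fun' hg.aestronglyMeasurable (Filter.Eventually.of_forall fun x => hM x)

/-- the weighted integral of `|h1|` -/
noncomputable def J (σ : ℝ → ℝ → ℝ) (a b s' : ℝ) : ℝ :=
  ∫ x' in (0:ℝ)..Real.pi, σ s' x' * |h1 (a - s') (b - x')|

section

variable {σ : ℝ → ℝ → ℝ} (hm : Measurable (Function.uncurry σ))
  (h0 : ∀ s x, 0 ≤ σ s x) (h1' : ∀ s x, |σ s x| ≤ 1)

include hm

theorem slice_meas (s' : ℝ) : Measurable (σ s') :=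
  hm.comp (measurable_const.prodMk measurable_id)

theorem J_meas (a b : ℝ) : StronglyMeasurable (J σ a b) := by
  unfold J
  simp_rw [intervalIntegral.integral_of_le Real.pi_pos.le]
  have h2 : Measurable (Function.uncurry fun s' x' => σ s' x' * |h1 (a - s') (b - x')|) :=
    hm.mul (h1_meas a b).abs
  exact h2.stronglyMeasurable.integral_prod_right

include h1'

theorem J_slice {a b s' : ℝ} (hs : s' ≠ a) :
    IntervalIntegrable (fun x' => σ s' x' * |h1 (a - s') (b - x')|) volume 0 Real.pi := by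
  have hu : a - s' ≠ 0 := sub_ne_zero.2 (Ne.symm hs)
  refine bdd_int _ ?_ (|Real.sinh (a - s')| / (Real.cosh (a - s') - 1)) ?_ _ _
  · exact (slice_meas hm s').mul ((h1_meas a b).comp (measurable_const.prodMk measurable_id)).abs
  · intro x
    rw [abs_mul, abs_abs]
    calc |σ s' x| * |h1 (a - s') (b - x)| ≤ 1 * |h1 (a - s') (b - x)| :=
          mul_le_mul_of_nonneg_right (h1' _ _) (abs_nonneg _)
      _ ≤ _ := by
          rw [one_mul]
          exact h1_bdd hu _

include h0

theorem J_nonneg (a b s' : ℝ) : 0 ≤ J σ a b s' := by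
  unfold J
  exact intervalIntegral.integral_nonneg Real.pi_pos.le
    (fun x _ => mul_nonneg (h0 _ _) (abs_nonneg _))

theorem J_le {C : ℝ} (hC : ∀ u a : ℝ, u ≠ 0 → ∫ v in a..(a + Real.pi), |h1 u v| ≤ C)
    {a b s' : ℝ} (hs : s' ≠ a) : J σ a b s' ≤ C := by
  have hu : a - s' ≠ 0 := sub_ne_zero.2 (Ne.symm hs)
  have e1 : J σ a b s' ≤ ∫ x' in (0:ℝ)..Real.pi, |h1 (a - s') (b - x')| := by
    unfold J
    apply intervalIntegral.integral_mono_on Real.pi_pos.le (J_slice hm h1' hs)
    · refine bdd_int _ ?_ (|Real.sinh (a - s')| / (Real.cosh (a - s') - 1)) ?_ _ _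
      · exact ((h1_meas a b).comp (measurable_const.prodMk measurable_id)).abs
      · intro x
        rw [abs_abs]
        exact h1_bdd hu _
    · intro x _
      have := (abs_le.1 (h1' s' x)).2
      exact mul_le_of_le_one_left (abs_nonneg _) this
  have e2 : ∫ x' in (0:ℝ)..Real.pi, |h1 (a - s') (b - x')| =
      ∫ v in (b - Real.pi)..(b - Real.pi + Real.pi), |h1 (a - s') v| := by
    rw [intervalIntegral.integral_comp_sub_left (fun v => |h1 (a - s') v|) b]
    simp
  rw [e2] at e1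
  exact e1.trans (hC _ _ hu)

theorem J_int {C : ℝ} (hC : ∀ u a : ℝ, u ≠ 0 → ∫ v in a..(a + Real.pi), |h1 u v| ≤ C)
    (a b c d : ℝ) : IntervalIntegrable (J σ a b) volume c d := by
  have h3 : IntervalIntegrable (fun _ : ℝ => C) volume c d := intervalIntegrable_const
  refine h3.mono_fun' (J_meas hm a b).aestronglyMeasurable ?_
  apply ae_restrict_of_ae
  have h4 : ∀ᵐ s' : ℝ ∂volume, s' ∉ ({a} : Set ℝ) := (Set.countable_singleton a).ae_notMem volume
  filter_upwards [h4] with s' hs'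
  rw [Real.norm_eq_abs, abs_of_nonneg (J_nonneg hm h0 h1' a b s')]
  exact J_le hm h0 h1' hC hs'

end

/-- the bracket -/
noncomputable def br (m s x s' x' : ℝ) : ℝ :=
  h1 (s - s') (x - x') + h1 (s - s') (x + x') + 2 * om m s * (1 + h1 s' x') - 2

theorem br_le {m s x s' x' : ℝ} (hm : 0 < m) (hs : 0 ≤ s) (hs2 : s ≤ 2) :
    |br m s x s' x'| ≤ |h1 (s - s') (x - x')| + |h1 (s - s') (-x - x')| +
      2 * |h1 (0 - s') (0 - x')| + 8 / m := by
  have e1 : h1 (s - s') (x + x') = h1 (s - s') (-x - x') := by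
    rw [← h1_even]
    congr 1
    ring
  have e2 : h1 s' x' = -h1 (0 - s') (0 - x') := by
    rw [zero_sub, zero_sub, h1_odd, h1_even, neg_neg]
  have h1o := om_le hm hs
  have h2o := om_pos m s
  have h3o := om_ge hm hs2
  have e3 : br m s x s' x' = h1 (s - s') (x - x') + h1 (s - s') (-x - x') +
      (-(2 * om m s * h1 (0 - s') (0 - x'))) + (-(2 * (1 - om m s))) := by
    unfold br
    rw [e1, e2]
    ring
  rw [e3]
  have k1 : |-(2 * om m s * h1 (0 - s') (0 - x'))| ≤ 2 * |h1 (0 - s') (0 - x')| := by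
    rw [abs_neg, abs_mul, abs_of_pos (by positivity : (0:ℝ) < 2 * om m s)]
    apply mul_le_mul_of_nonneg_right _ (abs_nonneg _)
    linarith
  have k2 : |-(2 * (1 - om m s))| ≤ 8 / m := by
    rw [abs_neg, abs_of_nonneg (by linarith)]
    have : 8 / m = 2 * (4 / m) := by ring
    rw [this]
    linarith
  refine (abs_add_le _ _).trans (add_le_add ?_ k2)
  refine (abs_add_le _ _).trans (add_le_add ?_ k1)
  exact abs_add_le _ _

theorem br_far {m s x s' x' t : ℝ} (hm : 0 < m) (hs : 0 ≤ s) (hs2 : s ≤ 2) (ht : 3 ≤ t)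
    (hts : t ≤ s') : |br m s x s' x'| ≤ 40 * Real.exp (2 - t) + 16 / m := by
  have h1o := om_le hm hs
  have h2o := om_pos m s
  have h3o := om_ge hm hs2
  have n1 : ∀ v, |h1 (s - s') v + 1| ≤ 10 * Real.exp (2 - t) := by
    intro v
    have e1 : h1 (s - s') v + 1 = -(h1 (s' - s) v - 1) := by
      rw [show s - s' = -(s' - s) by ring, h1_odd]
      ring
    rw [e1, abs_neg]
    refine (h1_near (by linarith) v).trans ?_
    have : Real.exp (-(s' - s)) ≤ Real.exp (2 - t) := Real.exp_le_exp.2 (by linarith)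
    linarith
  have n2 : |h1 s' x' - 1| ≤ 10 * Real.exp (2 - t) := by
    refine (h1_near (by linarith) x').trans ?_
    have : Real.exp (-s') ≤ Real.exp (2 - t) := Real.exp_le_exp.2 (by linarith)
    linarith
  have e3 : br m s x s' x' = (h1 (s - s') (x - x') + 1) + (h1 (s - s') (x + x') + 1) +
      2 * om m s * (h1 s' x' - 1) + (-(4 * (1 - om m s))) := by
    unfold br
    ring
  rw [e3]
  have k1 : |2 * om m s * (h1 s' x' - 1)| ≤ 20 * Real.exp (2 - t) := by
    rw [abs_mul, abs_of_pos (by positivity : (0:ℝ) < 2 * om m s)]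
    have h5 : 2 * om m s * |h1 s' x' - 1| ≤ 2 * |h1 s' x' - 1| := by
      apply mul_le_mul_of_nonneg_right _ (abs_nonneg _)
      linarith
    linarith
  have k2 : |-(4 * (1 - om m s))| ≤ 16 / m := by
    rw [abs_neg, abs_of_nonneg (by linarith)]
    have : 16 / m = 4 * (4 / m) := by ring
    rw [this]
    linarith
  have k3 := n1 (x - x')
  have k4 := n1 (x + x')
  have l1 := abs_add_le ((h1 (s - s') (x - x') + 1) + (h1 (s - s') (x + x') + 1) +
      2 * om m s * (h1 s' x' - 1)) (-(4 * (1 - om m s)))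
  have l2 := abs_add_le ((h1 (s - s') (x - x') + 1) + (h1 (s - s') (x + x') + 1))
      (2 * om m s * (h1 s' x' - 1))
  have l3 := abs_add_le (h1 (s - s') (x - x') + 1) (h1 (s - s') (x + x') + 1)
  linarith

theorem br_meas (m s x : ℝ) : Measurable (fun p : ℝ × ℝ => br m s x p.1 p.2) := by
  have a1 := h1_meas s x
  have a2 : Measurable (fun p : ℝ × ℝ => h1 (s - p.1) (x + p.2)) := by
    unfold h1 q
    exact (Continuous.measurable (by fun_prop)).div (Continuous.measurable (by fun_prop))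
  have a3 : Measurable (fun p : ℝ × ℝ => h1 p.1 p.2) := by
    unfold h1 q
    exact (Continuous.measurable (by fun_prop)).div (Continuous.measurable (by fun_prop))
  unfold br
  exact ((a1.add a2).add ((measurable_const.add a3).const_mul _)).sub measurable_const

theorem main : S_Fsbound := by
  obtain ⟨C1, hC1, hsm⟩ := t_h1small
  obtain ⟨C, _, hC, _⟩ := t_K1
  refine ⟨C1, hC1, ?_⟩
  intro m H ε t N lam σ hm6 ht htH hε hε1 hN hsol hlam s hs x _
  have hm0 : 0 < m := by linarith
  have hH : 0 < H := by linarith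
  obtain ⟨hdat, h0, -⟩ := t_sol m H ε σ (by linarith) hH hε hε1 hsol
  have hmeas := hdat.meas
  have hb := hdat.bdd
  have h01 : ∀ s x, 0 ≤ σ s x ∧ σ s x ≤ 1 := fun s x => ⟨h0 s x, (abs_le.1 (hb s x)).2⟩
  have hs0 := hs.1
  have hs2 := hs.2
  -- the inner integral
  set I : ℝ → ℝ := fun s' => ∫ x' in (0:ℝ)..Real.pi, σ s' x' * br m s x s' x' with hI
  set R : ℝ → ℝ := fun s' => J σ s x s' + J σ s (-x) s' + 2 * J σ 0 0 s' +
    8 / m * ∫ x' in (0:ℝ)..Real.pi, σ s' x' with hR
  have hσint : ∀ s', IntervalIntegrable (σ s') volume 0 Real.pi := fun s' =>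
    bdd_int _ (slice_meas hmeas s') 1 (hb s') _ _
  have hSm : StronglyMeasurable (fun s' => ∫ x' in (0:ℝ)..Real.pi, σ s' x') := by
    simp_rw [intervalIntegral.integral_of_le Real.pi_pos.le]
    exact hmeas.stronglyMeasurable.integral_prod_right
  have hSint : ∀ c d, IntervalIntegrable (fun s' => ∫ x' in (0:ℝ)..Real.pi, σ s' x') volume c d := by
    intro c d
    refine bdd_int _ hSm.measurable (1 * |Real.pi - 0|) ?_ _ _
    intro s'
    have := intervalIntegral.norm_integral_le_of_norm_le_const (a := 0) (b := Real.pi)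
      (f := fun x' => σ s' x') (C := 1) (fun x _ => hb s' x)
    exact this
  have hJ1 := fun c d => J_int hmeas h0 hb hC s x c d
  have hJ2 := fun c d => J_int hmeas h0 hb hC s (-x) c d
  have hJ3 := fun c d => J_int hmeas h0 hb hC 0 0 c d
  have hRint : ∀ c d, IntervalIntegrable R volume c d := fun c d =>
    (((hJ1 c d).add (hJ2 c d)).add ((hJ3 c d).const_mul 2)).add ((hSint c d).const_mul (8 / m))
  have hIR : ∀ s', s' ≠ s → s' ≠ 0 → |I s'| ≤ R s' := by
    intro s' hs1 hs3
    have i1 := J_slice hmeas hb (b := x) hs1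
    have i2 := J_slice hmeas hb (b := -x) hs1
    have i3 := J_slice hmeas hb (b := 0) hs3
    have i4 := (hσint s').const_mul (8 / m)
    have hi := ((i1.add i2).add (i3.const_mul 2)).add i4
    have h5 : ‖I s'‖ ≤ ∫ x' in (0:ℝ)..Real.pi, (σ s' x' * |h1 (s - s') (x - x')| +
        σ s' x' * |h1 (s - s') (-x - x')| + 2 * (σ s' x' * |h1 (0 - s') (0 - x')|) +
          8 / m * σ s' x') := by
      apply intervalIntegral.norm_integral_le_of_norm_le Real.pi_pos.le _ hi
      refine Filter.Eventually.of_forall fun x' _ => ?_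
      rw [Real.norm_eq_abs, abs_mul, abs_of_nonneg (h0 s' x')]
      have h6 := mul_le_mul_of_nonneg_left (br_le (x := x) (s' := s') (x' := x') hm0 hs0 hs2)
        (h0 s' x')
      refine h6.trans (le_of_eq ?_)
      ring
    have h7 : ∫ x' in (0:ℝ)..Real.pi, (σ s' x' * |h1 (s - s') (x - x')| +
        σ s' x' * |h1 (s - s') (-x - x')| + 2 * (σ s' x' * |h1 (0 - s') (0 - x')|) +
          8 / m * σ s' x') = R s' := by
      rw [intervalIntegral.integral_add ((i1.add i2).add (i3.const_mul 2)) i4,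
        intervalIntegral.integral_add (i1.add i2) (i3.const_mul 2),
        intervalIntegral.integral_add i1 i2, intervalIntegral.integral_const_mul,
        intervalIntegral.integral_const_mul]
      rfl
    rw [h7] at h5
    exact h5
  have hae : ∀ᵐ s' : ℝ ∂volume, s' ∉ ({s, 0} : Set ℝ) :=
    ((Set.toFinite ({s, 0} : Set ℝ)).countable).ae_notMem volume
  set G : ℝ → ℝ := fun s' => om m s' * I s' with hG
  have hGR : ∀ s', 0 ≤ s' → s' ∉ ({s, 0} : Set ℝ) → ‖G s'‖ ≤ R s' := by
    intro s' hs' hns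
    have hns1 : s' ≠ s := fun h => hns (by rw [h]; exact Set.mem_insert _ _)
    have hns2 : s' ≠ 0 := fun h => hns (by rw [h]; exact Set.mem_insert_of_mem _ rfl)
    rw [Real.norm_eq_abs, hG]
    simp only
    rw [abs_mul, abs_of_pos (om_pos m s')]
    refine le_trans ?_ (hIR s' hns1 hns2)
    exact mul_le_of_le_one_left (abs_nonneg _) (om_le hm0 hs')
  have hImeas : StronglyMeasurable I := by
    rw [hI]
    simp_rw [intervalIntegral.integral_of_le Real.pi_pos.le]
    have h2 : Measurable (Function.uncurry fun s' x' => σ s' x' * br m s x s' x') :=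
      hmeas.mul (br_meas m s x)
    exact h2.stronglyMeasurable.integral_prod_right
  have hGmeas : StronglyMeasurable G := by
    have h2 : Measurable (fun s' : ℝ => om m s') := by
      unfold om
      exact Continuous.measurable (by fun_prop)
    exact (h2.mul hImeas.measurable).stronglyMeasurable
  have hGint : ∀ c d, 0 ≤ c → 0 ≤ d → IntervalIntegrable G volume c d := by
    intro c d hc hd
    refine (hRint c d).mono_fun' hGmeas.aestronglyMeasurable ?_
    rw [Filter.EventuallyLE, ae_restrict_iff' measurableSet_uIoc]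
    filter_upwards [hae] with s' hs' hmem
    refine hGR s' ?_ hs'
    have h8 : min c d < s' := hmem.1
    exact (le_min hc hd).trans h8.le
  have hsplit : ∫ s' in (0:ℝ)..H, G s' = (∫ s' in (0:ℝ)..t, G s') + ∫ s' in t..H, G s' :=
    (intervalIntegral.integral_add_adjacent_intervals (hGint 0 t le_rfl (by linarith))
      (hGint t H (by linarith) hH.le)).symm
  -- the near part
  have hnear : |∫ s' in (0:ℝ)..t, G s'| ≤ 4 * (N * lam + C1 / N) + 8 * lam / m := by
    have h9 : ‖∫ s' in (0:ℝ)..t, G s'‖ ≤ ∫ s' in (0:ℝ)..t, R s' := by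
      apply intervalIntegral.norm_integral_le_of_norm_le (by linarith) _ (hRint 0 t)
      filter_upwards [hae] with s' hs' hmem
      exact hGR s' hmem.1.le hs'
    have h10 : ∫ s' in (0:ℝ)..t, R s' = (∫ s' in (0:ℝ)..t, J σ s x s') +
        (∫ s' in (0:ℝ)..t, J σ s (-x) s') + 2 * (∫ s' in (0:ℝ)..t, J σ 0 0 s') +
        8 / m * ∫ s' in (0:ℝ)..t, ∫ x' in (0:ℝ)..Real.pi, σ s' x' := by
      rw [hR]
      rw [intervalIntegral.integral_add (((hJ1 0 t).add (hJ2 0 t)).add ((hJ3 0 t).const_mul 2))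
        ((hSint 0 t).const_mul (8 / m)),
        intervalIntegral.integral_add ((hJ1 0 t).add (hJ2 0 t)) ((hJ3 0 t).const_mul 2),
        intervalIntegral.integral_add (hJ1 0 t) (hJ2 0 t), intervalIntegral.integral_const_mul,
        intervalIntegral.integral_const_mul]
    have b1 := hsm t N s x lam σ (by linarith) hN hmeas h01 hlam
    have b2 := hsm t N s (-x) lam σ (by linarith) hN hmeas h01 hlam
    have b3 := hsm t N 0 0 lam σ (by linarith) hN hmeas h01 hlam
    have c1 : ∫ s' in (0:ℝ)..t, J σ s x s' ≤ N * lam + C1 / N := b1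
    have c2 : ∫ s' in (0:ℝ)..t, J σ s (-x) s' ≤ N * lam + C1 / N := b2
    have c3 : ∫ s' in (0:ℝ)..t, J σ 0 0 s' ≤ N * lam + C1 / N := b3
    have c4 : 8 / m * ∫ s' in (0:ℝ)..t, ∫ x' in (0:ℝ)..Real.pi, σ s' x' ≤ 8 / m * lam :=
      mul_le_mul_of_nonneg_left hlam (by positivity)
    have c5 : 8 / m * lam = 8 * lam / m := by ring
    rw [h10, Real.norm_eq_abs] at h9
    linarith
  -- the far part
  have hfar : |∫ s' in t..H, G s'| ≤ Real.pi * H * (40 * Real.exp (2 - t) + 16 / m) := by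
    have hE : 0 ≤ 40 * Real.exp (2 - t) + 16 / m := by positivity
    have h11 : ‖∫ s' in t..H, G s'‖ ≤ (Real.pi * (40 * Real.exp (2 - t) + 16 / m)) * |H - t| := by
      apply intervalIntegral.norm_integral_le_of_norm_le_const
      intro s' hs'
      rw [Set.uIoc_of_le htH] at hs'
      have hst : t ≤ s' := hs'.1.le
      have h12 : ‖I s'‖ ≤ (40 * Real.exp (2 - t) + 16 / m) * |Real.pi - 0| := by
        apply intervalIntegral.norm_integral_le_of_norm_le_const
        intro x' _
        rw [Real.norm_eq_abs, abs_mul, abs_of_nonneg (h0 s' x')]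
        have h13 := br_far (x := x) (x' := x') hm0 hs0 hs2 ht hst
        exact (mul_le_of_le_one_left (abs_nonneg _) (h01 s' x').2).trans h13
      rw [sub_zero, abs_of_pos Real.pi_pos] at h12
      rw [hG]
      simp only
      rw [norm_mul, Real.norm_eq_abs (om m s'), abs_of_pos (om_pos m s')]
      have h14 : om m s' * ‖I s'‖ ≤ ‖I s'‖ :=
        mul_le_of_le_one_left (norm_nonneg _) (om_le hm0 (by linarith))
      linarith
    rw [Real.norm_eq_abs, abs_of_nonneg (by linarith : 0 ≤ H - t)] at h11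
    have h15 : (Real.pi * (40 * Real.exp (2 - t) + 16 / m)) * (H - t) ≤
        (Real.pi * (40 * Real.exp (2 - t) + 16 / m)) * H := by
      apply mul_le_mul_of_nonneg_left (by linarith)
      exact mul_nonneg Real.pi_pos.le hE
    have h16 : (Real.pi * (40 * Real.exp (2 - t) + 16 / m)) * H =
        Real.pi * H * (40 * Real.exp (2 - t) + 16 / m) := by ring
    linarith
  have hLs : 4 * Real.pi * Ls m H σ s x = ∫ s' in (0:ℝ)..H, G s' := by
    unfold Ls
    rw [← mul_assoc, mul_one_div_cancel (by positivity), one_mul]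
    rfl
  have hF : 4 * Real.pi * Fs m H ε σ s x = (∫ s' in (0:ℝ)..H, G s') +
      4 * Real.pi * (ε * (-(Real.exp (-s) * Real.cos x) + om m s)) := by
    unfold Fs
    rw [mul_add, hLs]
  have hlast : |4 * Real.pi * (ε * (-(Real.exp (-s) * Real.cos x) + om m s))| ≤ 8 * Real.pi * ε := by
    have e1 : Real.exp (-s) ≤ 1 := by
      rw [Real.exp_le_one_iff]
      linarith
    have e2 := Real.exp_pos (-s)
    have e3 : |Real.exp (-s) * Real.cos x| ≤ 1 := by
      rw [abs_mul, abs_of_pos e2]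
      calc Real.exp (-s) * |Real.cos x| ≤ 1 * 1 :=
            mul_le_mul e1 (Real.abs_cos_le_one x) (abs_nonneg _) zero_le_one
        _ = 1 := one_mul 1
    have e4 := om_le hm0 hs0
    have e5 := om_pos m s
    have e6 : |-(Real.exp (-s) * Real.cos x) + om m s| ≤ 2 := by
      have := abs_le.1 e3
      rw [abs_le]
      constructor <;> linarith
    rw [abs_mul (4 * Real.pi), abs_mul ε, abs_of_pos (by positivity : (0:ℝ) < 4 * Real.pi),
      abs_of_pos hε]
    have e7 : 4 * Real.pi * (ε * |-(Real.exp (-s) * Real.cos x) + om m s|) ≤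
        4 * Real.pi * (ε * 2) :=
      mul_le_mul_of_nonneg_left (mul_le_mul_of_nonneg_left e6 hε.le) (by positivity)
    linarith
  have hfin : 4 * Real.pi * |Fs m H ε σ s x| = |4 * Real.pi * Fs m H ε σ s x| := by
    rw [abs_mul (4 * Real.pi), abs_of_pos (by positivity : (0:ℝ) < 4 * Real.pi)]
  rw [hfin, hF, hsplit]
  have t1 := abs_add_le ((∫ s' in (0:ℝ)..t, G s') + ∫ s' in t..H, G s')
    (4 * Real.pi * (ε * (-(Real.exp (-s) * Real.cos x) + om m s)))
  have t2 := abs_add_le (∫ s' in (0:ℝ)..t, G s') (∫ s' in t..H, G s')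
  linarith

end AuxFsbound

theorem t_Fsbound : S_Fsbound := AuxFsbound.main

end Pool.Agent.H682_VS
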