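import Pool.Agent.H682_VS.Bet
import Pool.Agent.H682_VS.K1
import Pool.Agent.H682_VS.T_sol

/-! # stab -/

set_option autoImplicit false

open MeasureTheory Set Filter Topology

namespace Pool.Agent.H682_VS


namespace Auxstab

lemma cos_one_lower : (0.5198 : ℝ) ≤ Real.cos 1 := by
  have h := Real.cos_bound (x := 1 / 2) (by norm_num [abs_of_pos])
  rw [abs_le] at h
  have h1 : (0.8717 : ℝ) ≤ Real.cos (1 / 2) := by
    have := h.1
    norm_num [abs_of_pos] at this
    linarith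
  have h2 : Real.cos 1 = 2 * Real.cos (1 / 2) ^ 2 - 1 := by
    rw [← Real.cos_two_mul]
    norm_num
  rw [h2]
  nlinarith

lemma cos_two_upper : Real.cos 2 ≤ -(0.411 : ℝ) := by
  have h := Real.cos_bound (x := 1 / 2) (by norm_num [abs_of_pos])
  rw [abs_le] at h
  have h1 : Real.cos (1 / 2) ≤ (0.87826 : ℝ) := by
    have := h.2
    norm_num [abs_of_pos] at this
    linarith
  have h0 : 0 ≤ Real.cos (1 / 2) := by
    apply Real.cos_nonneg_of_neg_pi_div_two_le_of_le <;> linarith [Real.pi_gt_three]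
  have h2 : Real.cos 1 = 2 * Real.cos (1 / 2) ^ 2 - 1 := by
    rw [← Real.cos_two_mul]
    norm_num
  have h3 : Real.cos 2 = 2 * Real.cos 1 ^ 2 - 1 := by
    rw [← Real.cos_two_mul]
    norm_num
  have h4 : Real.cos 1 ≤ 0.54268 := by
    rw [h2]
    nlinarith
  have h5 : 0 ≤ Real.cos 1 := by linarith [cos_one_lower]
  rw [h3]
  nlinarith

lemma cosh_two_upper : Real.cosh 2 ≤ (3.7623 : ℝ) := by
  rw [Real.cosh_eq]
  have h1 : Real.exp 2 = Real.exp 1 * Real.exp 1 := by
    rw [← Real.exp_add]; norm_num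
  have h2 := Real.exp_one_lt_d9
  have h3 := Real.exp_one_gt_d9
  have h4 : Real.exp (-2) = (Real.exp 2)⁻¹ := Real.exp_neg 2
  have h5 : (7.389 : ℝ) ≤ Real.exp 2 := by rw [h1]; nlinarith
  have h6 : Real.exp 2 ≤ (7.38906 : ℝ) := by rw [h1]; nlinarith
  have h7 : (Real.exp 2)⁻¹ ≤ (7.389 : ℝ)⁻¹ := inv_anti₀ (by norm_num) h5
  have h8 : (7.389 : ℝ)⁻¹ ≤ 0.13534 := by norm_num
  rw [h4]
  linarith

lemma log_lower : (4 * Real.pi / 50 : ℝ) ≤ Real.log 1.28654 := by
  have h1 : (4 * Real.pi / 50 : ℝ) ≤ 0.2514 := by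
    have := Real.pi_lt_d4
    linarith
  refine h1.trans ?_
  rw [Real.le_log_iff_exp_le (by norm_num)]
  have := Real.exp_bound' (x := 0.2514) (by norm_num) (by norm_num) (n := 3) (by norm_num)
  refine this.trans ?_
  simp only [Finset.sum_range_succ, Finset.sum_range_zero]
  norm_num [Nat.factorial]

lemma q_nonneg (u v : ℝ) : 0 ≤ q u v := by
  unfold q
  linarith [Real.one_le_cosh u, Real.cos_le_one v]

lemma log_ratio_nonneg {u x x' : ℝ} (hx : x ∈ Icc (0:ℝ) Real.pi) (hx' : x' ∈ Icc (0:ℝ) Real.pi) :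
    0 ≤ Real.log (q u (x + x') / q u (x - x')) := by
  rcases (q_nonneg u (x - x')).eq_or_lt with h | h
  · rw [← h, div_zero, Real.log_zero]
  · apply Real.log_nonneg
    rw [le_div_iff₀ h, one_mul]
    unfold q
    have h1 := Real.sin_nonneg_of_mem_Icc hx
    have h2 := Real.sin_nonneg_of_mem_Icc hx'
    rw [Real.cos_add, Real.cos_sub]
    nlinarith [mul_nonneg h1 h2]

lemma log_ratio_lower {u x x' : ℝ} (hu : u ≠ 0) (hu2 : |u| ≤ 2) (hx : x ∈ Icc (1:ℝ) 2)
    (hx' : x' ∈ Icc (1:ℝ) 2) :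
    4 * Real.pi / 50 ≤ Real.log (q u (x + x') / q u (x - x')) := by
  have hpi := Real.pi_gt_three
  have hpi4 : Real.pi ≤ 4 := Real.pi_le_four
  refine log_lower.trans (Real.log_le_log (by norm_num) ?_)
  have ht1 : 1 < Real.cosh u := Real.one_lt_cosh.2 hu
  have ht2 : Real.cosh u ≤ 3.7623 := by
    refine le_trans ?_ cosh_two_upper
    rw [Real.cosh_le_cosh]
    rw [abs_of_pos (show (0:ℝ) < 2 by norm_num)]
    exact hu2
  have ha : 0.5198 ≤ Real.cos (x - x') := by
    refine cos_one_lower.trans ?_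
    rw [← Real.cos_abs (x - x')]
    apply Real.cos_le_cos_of_nonneg_of_le_pi (abs_nonneg _) (by linarith)
    rw [abs_le]
    constructor <;> linarith [hx.1, hx.2, hx'.1, hx'.2]
  have hb : Real.cos (x + x') ≤ -(0.411:ℝ) := by
    refine le_trans ?_ cos_two_upper
    by_cases h : x + x' ≤ Real.pi
    · exact Real.cos_le_cos_of_nonneg_of_le_pi (by norm_num) h (by linarith [hx.1, hx'.1])
    · push Not at h
      rw [← Real.cos_two_pi_sub]
      exact Real.cos_le_cos_of_nonneg_of_le_pi (by norm_num) (by linarith)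
        (by linarith [hx.2, hx'.2])
  unfold q
  rw [le_div_iff₀ (by linarith [Real.cos_le_one (x - x')])]
  nlinarith

lemma abs_log_ratio_le (A B : ℝ) : |Real.log (A / B)| ≤ |Real.log A| + |Real.log B| := by
  by_cases hA : A = 0
  · simp [hA]
  by_cases hB : B = 0
  · simp [hB]
  rw [Real.log_div hA hB]
  exact abs_sub _ _



/-- the log ratio as a function -/
noncomputable def LR (s x s' x' : ℝ) : ℝ :=
  Real.log (q (s - s') (x + x') / q (s - s') (x - x'))

lemma LR_meas (s x : ℝ) : Measurable (Function.uncurry (LR s x)) := by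
  unfold LR q Function.uncurry
  fun_prop

lemma int_log_add (u x : ℝ) :
    IntervalIntegrable (fun x' => Real.log (q u (x + x'))) volume 0 Real.pi := by
  obtain ⟨C, -, -, -, -, h⟩ := t_K1
  have := (h u x (x + Real.pi)).comp_add_left x
  simpa using this

lemma int_log_sub (u x : ℝ) :
    IntervalIntegrable (fun x' => Real.log (q u (x - x'))) volume 0 Real.pi := by
  obtain ⟨C, -, -, -, -, h⟩ := t_K1
  have := (h u x (x - Real.pi)).comp_sub_left x
  simpa using this

lemma int_abs_log {C : ℝ} (hC : ∀ u a : ℝ, ∫ v in a..(a + Real.pi), |Real.log (q u v)| ≤ C * (1 + |u|))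
    (u x : ℝ) : ∫ x' in (0:ℝ)..Real.pi, (|Real.log (q u (x + x'))| + |Real.log (q u (x - x'))|) ≤
      2 * (C * (1 + |u|)) := by
  rw [intervalIntegral.integral_add (int_log_add u x).abs (int_log_sub u x).abs]
  have h1 : ∫ x' in (0:ℝ)..Real.pi, |Real.log (q u (x + x'))| ≤ C * (1 + |u|) := by
    rw [intervalIntegral.integral_comp_add_left (fun v => |Real.log (q u v)|) x]
    have := hC u x
    simpa using this
  have h2 : ∫ x' in (0:ℝ)..Real.pi, |Real.log (q u (x - x'))| ≤ C * (1 + |u|) := by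
    rw [intervalIntegral.integral_comp_sub_left (fun v => |Real.log (q u v)|) x]
    have := hC u (x - Real.pi)
    simpa using this
  linarith

lemma LR_abs (s x s' x' : ℝ) :
    |LR s x s' x'| ≤ |Real.log (q (s - s') (x + x'))| + |Real.log (q (s - s') (x - x'))| :=
  abs_log_ratio_le _ _

section
variable {m H ε : ℝ} {σ : ℝ → ℝ → ℝ}

/-- the inner integrand is integrable -/
lemma inner_int {C : ℝ} (hsm : Measurable (Function.uncurry (sx m H ε σ)))
    {s' : ℝ} (hb : ∀ x, |sx m H ε σ s' x| ≤ C) (s x : ℝ) :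
    IntervalIntegrable (fun x' => sx m H ε σ s' x' * LR s x s' x') volume 0 Real.pi := by
  have hm1 : Measurable (fun x' => sx m H ε σ s' x' * LR s x s' x') := by
    have h1 : Measurable (sx m H ε σ s') := hsm.of_uncurry_left
    have h2 : Measurable (LR s x s') := (LR_meas s x).of_uncurry_left
    exact h1.mul h2
  have hint : IntervalIntegrable (fun x' => C * (|Real.log (q (s - s') (x + x'))| +
      |Real.log (q (s - s') (x - x'))|)) volume 0 Real.pi :=
    (((int_log_add (s - s') x).abs).add ((int_log_sub (s - s') x).abs)).const_mul C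
  refine hint.mono_fun' hm1.aestronglyMeasurable ?_
  refine Filter.Eventually.of_forall fun x' => ?_
  beta_reduce
  rw [norm_mul, Real.norm_eq_abs, Real.norm_eq_abs]
  exact mul_le_mul (hb x') (LR_abs s x s' x') (abs_nonneg _) ((abs_nonneg _).trans (hb x'))

/-- inner integral -/
noncomputable def gg (m H ε : ℝ) (σ : ℝ → ℝ → ℝ) (s x s' : ℝ) : ℝ :=
  ∫ x' in (0:ℝ)..Real.pi, sx m H ε σ s' x' * LR s x s' x'

lemma gg_meas (hsm : Measurable (Function.uncurry (sx m H ε σ))) (s x : ℝ) :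
    StronglyMeasurable (gg m H ε σ s x) := by
  have h1 : Measurable (Function.uncurry fun s' x' : ℝ => sx m H ε σ s' x' * LR s x s' x') :=
    hsm.mul (LR_meas s x)
  have h2 : StronglyMeasurable (Function.uncurry fun s' x' : ℝ => sx m H ε σ s' x' * LR s x s' x') :=
    h1.stronglyMeasurable
  have h3 := h2.integral_prod_right (ν := volume.restrict (Ioc 0 Real.pi))
  have e : gg m H ε σ s x = fun s' => ∫ x' in Ioc 0 Real.pi, sx m H ε σ s' x' * LR s x s' x' := by
    funext s'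
    unfold gg
    rw [intervalIntegral.integral_of_le Real.pi_pos.le]
  rw [e]
  exact h3

lemma gg_bound {C C1 : ℝ} (hC1 : ∀ u a : ℝ, ∫ v in a..(a + Real.pi), |Real.log (q u v)| ≤ C1 * (1 + |u|))
    {s' : ℝ} (hb : ∀ x, |sx m H ε σ s' x| ≤ C) (s x : ℝ) :
    |gg m H ε σ s x s'| ≤ C * (2 * (C1 * (1 + |s - s'|))) := by
  have hC : 0 ≤ C := (abs_nonneg _).trans (hb 0)
  have hint : IntervalIntegrable (fun x' => C * (|Real.log (q (s - s') (x + x'))| +
      |Real.log (q (s - s') (x - x'))|)) volume 0 Real.pi :=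
    (((int_log_add (s - s') x).abs).add ((int_log_sub (s - s') x).abs)).const_mul C
  have h1 := intervalIntegral.norm_integral_le_of_norm_le (μ := volume) Real.pi_pos.le
    (f := fun x' => sx m H ε σ s' x' * LR s x s' x') (g := fun x' => C * (|Real.log (q (s - s') (x + x'))| +
      |Real.log (q (s - s') (x - x'))|)) (Filter.Eventually.of_forall fun x' _ => by
      rw [norm_mul, Real.norm_eq_abs, Real.norm_eq_abs]
      exact mul_le_mul (hb x') (LR_abs s x s' x') (abs_nonneg _) hC) hint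
  rw [Real.norm_eq_abs] at h1
  unfold gg
  refine h1.trans ?_
  rw [intervalIntegral.integral_const_mul]
  exact mul_le_mul_of_nonneg_left (int_abs_log hC1 _ _) hC

lemma om_pos (m s : ℝ) : 0 < om m s := Real.exp_pos _

lemma om_cont (m : ℝ) : Continuous (om m) := by
  unfold om
  fun_prop

lemma outer_int {C C1 : ℝ} (hH : 0 ≤ H)
    (hsm : Measurable (Function.uncurry (sx m H ε σ)))
    (hC1 : ∀ u a : ℝ, ∫ v in a..(a + Real.pi), |Real.log (q u v)| ≤ C1 * (1 + |u|))
    (hb : ∀ s ∈ Icc (0:ℝ) H, ∀ x, |sx m H ε σ s x| ≤ C) (s x : ℝ) :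
    IntervalIntegrable (fun s' => om m s' * gg m H ε σ s x s') volume 0 H := by
  have hint : IntervalIntegrable (fun s' => om m s' * (C * (2 * (C1 * (1 + |s - s'|))))) volume 0 H := by
    apply Continuous.intervalIntegrable
    have := om_cont m
    fun_prop
  refine hint.mono_fun' ?_ ?_
  · exact ((om_cont m).measurable.mul (gg_meas hsm s x).measurable).aestronglyMeasurable
  · rw [uIoc_of_le hH]
    filter_upwards [ae_restrict_mem measurableSet_Ioc] with s' hs'
    rw [norm_mul, Real.norm_eq_abs, Real.norm_eq_abs, abs_of_pos (om_pos m s')]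
    exact mul_le_mul_of_nonneg_left (gg_bound hC1 (hb s' ⟨hs'.1.le, hs'.2⟩) s x) (om_pos m s').le

/-- lower bound for the inner integral -/
lemma gg_nonneg (hx0 : ∀ s, ∀ x ∈ Icc (0:ℝ) Real.pi, 0 ≤ sx m H ε σ s x) (s : ℝ) {x : ℝ}
    (hx : x ∈ Icc (0:ℝ) Real.pi) (s' : ℝ) : 0 ≤ gg m H ε σ s x s' := by
  unfold gg
  refine intervalIntegral.integral_nonneg Real.pi_pos.le fun x' hx' => ?_
  exact mul_nonneg (hx0 s' x' hx') (log_ratio_nonneg hx hx')

lemma sx_int {C : ℝ} (hsm : Measurable (Function.uncurry (sx m H ε σ)))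
    {s' : ℝ} (hb : ∀ x, |sx m H ε σ s' x| ≤ C) (a b : ℝ) :
    IntervalIntegrable (sx m H ε σ s') volume a b := by
  have h1 : Measurable (sx m H ε σ s') := hsm.of_uncurry_left
  refine (intervalIntegrable_const (c := C)).mono_fun' h1.aestronglyMeasurable ?_
  exact Filter.Eventually.of_forall fun x' => hb x'

lemma sx_ftc {C : ℝ} (hsm : Measurable (Function.uncurry (sx m H ε σ)))
    (hd : ∀ s x, HasDerivAt (σ s) (sx m H ε σ s x) x)
    {s' : ℝ} (hb : ∀ x, |sx m H ε σ s' x| ≤ C) :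
    ∫ x' in (1:ℝ)..2, sx m H ε σ s' x' = σ s' 2 - σ s' 1 :=
  intervalIntegral.integral_eq_sub_of_hasDerivAt (fun x _ => hd s' x) (sx_int hsm hb 1 2)

lemma gg_lower {C : ℝ} (hsm : Measurable (Function.uncurry (sx m H ε σ)))
    (hd : ∀ s x, HasDerivAt (σ s) (sx m H ε σ s x) x)
    (hx0 : ∀ s, ∀ x ∈ Icc (0:ℝ) Real.pi, 0 ≤ sx m H ε σ s x) {s x s' : ℝ}
    (hx : x ∈ Icc (1:ℝ) 2) (hs : s ∈ Icc (0:ℝ) 2) (hs' : s' ∈ Icc (0:ℝ) 2) (hne : s' ≠ s)
    (hb : ∀ x, |sx m H ε σ s' x| ≤ C) :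
    4 * Real.pi / 50 * (σ s' 2 - σ s' 1) ≤ gg m H ε σ s x s' := by
  have hpi := Real.pi_gt_three
  have hx1 : x ∈ Icc (0:ℝ) Real.pi := ⟨by linarith [hx.1], by linarith [hx.2]⟩
  have hint := inner_int hsm hb s x
  have h1 : ∫ x' in (1:ℝ)..2, sx m H ε σ s' x' * LR s x s' x' ≤ gg m H ε σ s x s' := by
    unfold gg
    refine intervalIntegral.integral_mono_interval (by norm_num) (by norm_num) (by linarith) ?_ hint
    filter_upwards [ae_restrict_mem measurableSet_Ioc] with x' hx'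
    exact mul_nonneg (hx0 s' x' ⟨hx'.1.le, hx'.2⟩) (log_ratio_nonneg hx1 ⟨hx'.1.le, hx'.2⟩)
  refine le_trans ?_ h1
  rw [← sx_ftc hsm hd hb, ← intervalIntegral.integral_const_mul]
  refine intervalIntegral.integral_mono_on (by norm_num) ((sx_int hsm hb 1 2).const_mul _)
    (hint.mono_set ?_) fun x' hx' => ?_
  · rw [uIcc_of_le (by norm_num), uIcc_of_le Real.pi_pos.le]
    exact Icc_subset_Icc (by norm_num) (by linarith)
  · rw [mul_comm]
    refine mul_le_mul_of_nonneg_left ?_ (hx0 s' x' ⟨by linarith [hx'.1], by linarith [hx'.2]⟩)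
    refine log_ratio_lower (sub_ne_zero.2 hne.symm) ?_ hx hx'
    rw [abs_le]
    constructor <;> linarith [hs.1, hs.2, hs'.1, hs'.2]

end

end Auxstab


/- TARGET, proof in plain words:
Q = [0,2]×[1,2].  Write b(s,x) = dbet (Fe m H ε σ s x/ε)/ε ≥ 0, W = We m H ε σ, so sx = b W (definition of sx), om = om m > 0.
B := ∫_0^2 om ∫_1^2 b dx ds (the quantity to bound),  N := ∫_0^2 om ∫_1^2 sx dx ds = ∫_0^2 om(s) [σ(s,2) - σ(s,1)] ds ≥ 0 (only N ≥ 0 needed).
(1) For all x, x' in [1,2], u ≠ 0, |u| ≤ 2:  log (q u (x+x') / q u (x-x')) ≥ 4π/50.  Indeed x+x' in [2,4] so cos(x+x') ≤ cos 2 < -0.41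
   (cos is decreasing on [2,π], and on [π,4] cos y = cos(2π-y) with 2π - y ≥ 2π-4 > 2), x-x' in [-1,1] so cos(x-x') ≥ cos 1 > 0.54, hence
   the ratio is ≥ (cosh u + 0.41)/(cosh u - 0.54) ≥ (cosh 2 + 0.41)/(cosh 2 - 0.54) > 1.29 (cosh 2 < 3.7623), log 1.29 > 0.2546 > 4π/50 = 0.2513...
   (ratio at 3.7623: 4.1723/3.2223 = 1.2948, log = 0.2583).  Equivalently
   ratio = 1 + 2 sin x sin x'/q(u,x-x') ≥ 1 + 2 (sin 1)^2/(cosh 2 - cos 1).
(2) For (s,x) in Q:  W(s,x) ≥ w0 + N/50 with w0 = ε e^{-2} sin 1 > 0 (or any positive w0): last item of t_sol,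
   W = ε e^{-s} sin x + (1/4π) ∫_0^H om(s') ∫_0^π sx(s',x') log(q(s-s',x+x')/q(s-s',x-x')) dx' ds'; the integrand is ≥ 0 for x, x' in [0,π]
   (q(u,x+x') - q(u,x-x') = 2 sin x sin x' ≥ 0; if q(u,x-x') = 0 then the log is log 0 = 0) and integrable (sx bounded and measurable, t_K1 part 4 for the inner integrals
   (0 < q off a null set, log of quotient = difference of logs), t_K1 part 3 for boundedness of the outer integrand, s' in [0,H], H ≥ 3 ≥ 2), so restrict to Q and use (1)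
   (s' = s is a null set).
(3) N = ∫_Q om b W ≥ (w0 + N/50) B, so B ≤ N/(w0 + N/50) ≤ 50.
(Fubini is not needed; b is bounded measurable: continuous in fact, because Fe is continuous.)
-/
theorem t_stab : S_stab := by
  intro m H ε σ hm hH hε hε1 S
  have hpi := Real.pi_gt_three
  obtain ⟨-, -, -, -, hd, hWm, -, hsm, ⟨C, hC⟩, hWl, hx0, -, hFc, -, hrep⟩ :=
    t_sol m H ε σ (by linarith) (by linarith) hε hε1 S
  obtain ⟨C1, hC11, -, -, hC1, -⟩ := t_K1
  have hb : ∀ s ∈ Icc (0:ℝ) H, ∀ x, |sx m H ε σ s x| ≤ C := fun s hs x => (hC s hs x).2.2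
  have h2H : ∀ s ∈ Icc (0:ℝ) 2, s ∈ Icc (0:ℝ) H := fun s hs => ⟨hs.1, by linarith [hs.2]⟩
  -- the function N
  set N : ℝ := ∫ s in (0:ℝ)..2, om m s * (σ s 2 - σ s 1) with hN
  have hσc : Continuous (Function.uncurry σ) := S.cont
  have hσ2 : ∀ y : ℝ, Continuous fun s => σ s y := fun y =>
    hσc.comp (continuous_id.prodMk continuous_const)
  have hom := Auxstab.om_cont m
  have hNc : Continuous fun s => om m s * (σ s 2 - σ s 1) := hom.mul ((hσ2 2).sub (hσ2 1))
  have hNs : ∀ s ∈ Icc (0:ℝ) 2, 0 ≤ σ s 2 - σ s 1 := by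
    intro s hs
    rw [← Auxstab.sx_ftc hsm hd (hb s (h2H s hs))]
    exact intervalIntegral.integral_nonneg (by norm_num) fun x hx =>
      hx0 s x ⟨by linarith [hx.1], by linarith [hx.2]⟩
  have hN0 : 0 ≤ N := intervalIntegral.integral_nonneg (by norm_num) fun s hs =>
    mul_nonneg (Auxstab.om_pos m s).le (hNs s hs)
  -- lower bound on W
  obtain ⟨w0, hw0, hw⟩ : ∃ w0 : ℝ, 0 < w0 ∧ ∀ s ∈ Icc (0:ℝ) 2, ∀ x ∈ Icc (1:ℝ) 2,
      w0 ≤ ε * (Real.exp (-s) * Real.sin x) := by
    have hs2 : 0 < Real.sin 2 := Real.sin_pos_of_pos_of_lt_pi (by norm_num) (by linarith)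
    have hs1 : 0 < Real.sin 1 := Real.sin_pos_of_pos_of_lt_pi (by norm_num) (by linarith)
    obtain ⟨δ, hδ, hδ'⟩ : ∃ δ : ℝ, 0 < δ ∧ ∀ x ∈ Icc (1:ℝ) 2, δ ≤ Real.sin x := by
      obtain ⟨x0, hx0', hmin⟩ := isCompact_Icc.exists_isMinOn (nonempty_Icc.2 (by norm_num : (1:ℝ) ≤ 2))
        Real.continuous_sin.continuousOn
      exact ⟨Real.sin x0, Real.sin_pos_of_pos_of_lt_pi (by linarith [hx0'.1]) (by linarith [hx0'.2]),
        fun x hx => hmin hx⟩
    refine ⟨ε * (Real.exp (-2) * δ), by positivity, fun s hs x hx => ?_⟩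
    have h1 : Real.exp (-2) ≤ Real.exp (-s) := Real.exp_le_exp.2 (by linarith [hs.2])
    have h2 := hδ' x hx
    have h3 := Real.exp_pos (-2)
    have h4 : Real.exp (-2) * δ ≤ Real.exp (-s) * Real.sin x :=
      mul_le_mul h1 h2 hδ.le (Real.exp_pos _).le
    exact mul_le_mul_of_nonneg_left h4 hε.le
  have hW : ∀ s ∈ Icc (0:ℝ) 2, ∀ x ∈ Icc (1:ℝ) 2, w0 + N / 50 ≤ We m H ε σ s x := by
    intro s hs x hx
    have hxp : x ∈ Icc (0:ℝ) Real.pi := ⟨by linarith [hx.1], by linarith [hx.2]⟩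
    have hout := Auxstab.outer_int (m := m) (by linarith) hsm hC1 hb s x
    have h1 : ∫ s' in (0:ℝ)..2, om m s' * Auxstab.gg m H ε σ s x s' ≤
        ∫ s' in (0:ℝ)..H, om m s' * Auxstab.gg m H ε σ s x s' := by
      refine intervalIntegral.integral_mono_interval le_rfl (by norm_num) (by linarith) ?_ hout
      exact Filter.Eventually.of_forall fun s' =>
        mul_nonneg (Auxstab.om_pos m s').le (Auxstab.gg_nonneg hx0 s hxp s')
    have h2 : 4 * Real.pi / 50 * N ≤ ∫ s' in (0:ℝ)..2, om m s' * Auxstab.gg m H ε σ s x s' := by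
      rw [hN, ← intervalIntegral.integral_const_mul]
      refine intervalIntegral.integral_mono_ae_restrict (by norm_num)
        ((hNc.intervalIntegrable 0 2).const_mul _) (hout.mono_set ?_) ?_
      · rw [uIcc_of_le (by norm_num), uIcc_of_le (by linarith)]
        exact Icc_subset_Icc le_rfl (by linarith)
      · have hne : ∀ᵐ s' ∂(volume.restrict (Icc (0:ℝ) 2)), s' ≠ s :=
          ae_restrict_of_ae (Measure.ae_ne volume s)
        filter_upwards [ae_restrict_mem measurableSet_Icc, hne] with s' hs' hne'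
        have := Auxstab.gg_lower hsm hd hx0 hx hs hs' hne' (hb s' (h2H s' hs'))
        calc 4 * Real.pi / 50 * (om m s' * (σ s' 2 - σ s' 1))
            = om m s' * (4 * Real.pi / 50 * (σ s' 2 - σ s' 1)) := by ring
          _ ≤ _ := mul_le_mul_of_nonneg_left this (Auxstab.om_pos m s').le
    have h3 := hrep s x
    have h4 : ∫ s' in (0:ℝ)..H, om m s' * ∫ x' in (0:ℝ)..Real.pi, sx m H ε σ s' x' *
      Real.log (q (s - s') (x + x') / q (s - s') (x - x')) =
        ∫ s' in (0:ℝ)..H, om m s' * Auxstab.gg m H ε σ s x s' := rfl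
    rw [h3, h4]
    have h5 := hw s hs x hx
    have h6 : N / 50 ≤ 1 / (4 * Real.pi) * ∫ s' in (0:ℝ)..H, om m s' * Auxstab.gg m H ε σ s x s' := by
      calc N / 50 = 1 / (4 * Real.pi) * (4 * Real.pi / 50 * N) := by
            field_simp
        _ ≤ _ := mul_le_mul_of_nonneg_left (h2.trans h1) (by positivity)
    linarith
  -- the function b
  set bb : ℝ → ℝ → ℝ := fun s x => dbet (Fe m H ε σ s x / ε) / ε with hbb
  have hbc : Continuous (Function.uncurry bb) := by
    have h1 : Continuous fun p : ℝ × ℝ => dbet (Function.uncurry (Fe m H ε σ) p / ε) / ε :=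
      (dbet_continuous.comp (hFc.div_const ε)).div_const ε
    exact h1
  have hb0 : ∀ s x, 0 ≤ bb s x := fun s x => div_nonneg (dbet_nonneg _) hε.le
  have hsxb : ∀ s x, sx m H ε σ s x = bb s x * We m H ε σ s x := fun s x => rfl
  have hbint : Continuous fun s => ∫ x in (1:ℝ)..2, bb s x :=
    intervalIntegral.continuous_parametric_intervalIntegral_of_continuous' hbc 1 2
  have hBc : Continuous fun s => om m s * ∫ x in (1:ℝ)..2, bb s x := hom.mul hbint
  have hbs : ∀ s, Continuous (bb s) := fun s => Continuous.uncurry_left s hbc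
  set B : ℝ := ∫ s in (0:ℝ)..2, om m s * ∫ x in (1:ℝ)..2, bb s x with hB
  have hkey : (w0 + N / 50) * B ≤ N := by
    rw [hB, hN, ← intervalIntegral.integral_const_mul]
    refine intervalIntegral.integral_mono_on (by norm_num)
      ((hBc.intervalIntegrable 0 2).const_mul _) (hNc.intervalIntegrable 0 2) fun s hs => ?_
    rw [← hN]
    have h1 : (w0 + N / 50) * ∫ x in (1:ℝ)..2, bb s x ≤ σ s 2 - σ s 1 := by
      rw [← Auxstab.sx_ftc hsm hd (hb s (h2H s hs)), ← intervalIntegral.integral_const_mul]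
      refine intervalIntegral.integral_mono_on (by norm_num)
        (((hbs s).intervalIntegrable 1 2).const_mul _)
        (Auxstab.sx_int hsm (hb s (h2H s hs)) 1 2) fun x hx => ?_
      rw [hsxb, mul_comm]
      exact mul_le_mul_of_nonneg_left (hW s hs x hx) (hb0 s x)
    calc (w0 + N / 50) * (om m s * ∫ x in (1:ℝ)..2, bb s x)
        = om m s * ((w0 + N / 50) * ∫ x in (1:ℝ)..2, bb s x) := by ring
      _ ≤ _ := mul_le_mul_of_nonneg_left h1 (Auxstab.om_pos m s).le
  have hpos : 0 < w0 + N / 50 := by positivity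
  by_contra hcon
  push Not at hcon
  nlinarith

end Pool.Agent.H682_VS
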