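import Pool.Agent.H682_VS.Bet
import Pool.Agent.H682_VS.T_sol
import Pool.Agent.H682_VS.T_stab

/-! # cross -/

set_option autoImplicit false

open MeasureTheory Set Filter Topology

namespace Pool.Agent.H682_VS


namespace Auxcross

/-- swapping interval integrals of a continuous function -/
lemma swap (D : ℝ → ℝ → ℝ) (hD : Continuous (Function.uncurry D)) (a b c d : ℝ) :
    ∫ x in c..d, ∫ s in a..b, D s x = ∫ s in a..b, ∫ x in c..d, D s x := by
  refine (intervalIntegral_intervalIntegral_swap ?_).symm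
  have hc : IsCompact (uIcc a b ×ˢ uIcc c d) := isCompact_uIcc.prod isCompact_uIcc
  refine IntegrableOn.mono_set ?_ (Set.prod_mono uIoc_subset_uIcc uIoc_subset_uIcc)
  exact hD.continuousOn.integrableOn_compact hc

/-- `b x` is continuous -/
lemma cont_param (D : ℝ → ℝ → ℝ) (hD : Continuous (Function.uncurry D)) (a b : ℝ) :
    Continuous fun x => ∫ s in a..b, D s x := by
  have h : Continuous (Function.uncurry fun x s => D s x) := hD.comp continuous_swap
  exact intervalIntegral.continuous_parametric_intervalIntegral_of_continuous' h a b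

lemma cont_param' (D : ℝ → ℝ → ℝ) (hD : Continuous (Function.uncurry D)) (a b : ℝ) :
    Continuous fun s => ∫ x in a..b, D s x :=
  intervalIntegral.continuous_parametric_intervalIntegral_of_continuous' hD a b

lemma exp_bound : Real.exp (2 / 3) < 2 := by
  have h := Real.log_two_gt_d9
  calc Real.exp (2 / 3) < Real.exp (Real.log 2) := Real.exp_lt_exp.2 (by linarith)
    _ = 2 := Real.exp_log (by norm_num)

/-- the pointwise claim -/
lemma pointwise (m H ε η : ℝ) (σ : ℝ → ℝ → ℝ) (hH : 3 ≤ H) (hε : 0 < ε)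
    (hsol : Sol m H ε σ)
    (hFd : ∀ s x, HasDerivAt (fun y => Fe m H ε σ y x) (Fs m H ε σ s x) s)
    (hFm : Measurable (Function.uncurry (Fs m H ε σ)))
    (hFc : Continuous (Function.uncurry (Fe m H ε σ)))
    (hσ0 : ∀ s x, 0 ≤ σ s x)
    (x : ℝ) (hF0 : Fe m H ε σ 0 x ≤ 0) (hη : 0 ≤ η)
    (hη' : ∀ s ∈ Icc (0:ℝ) 2, |Fs m H ε σ s x| ≤ η) :
    1 / 2 ≤ η * (∫ s in (0:ℝ)..2, dbet (Fe m H ε σ s x / ε) / ε) +
      (1 / 2) * ∫ s in (0:ℝ)..2, σ s x := by
  have hcF : Continuous fun s => Fe m H ε σ s x := hFc.uncurry_right x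
  have hcD : Continuous fun s => dbet (Fe m H ε σ s x / ε) / ε :=
    (dbet_continuous.comp (hcF.div_const ε)).div_const ε
  have hD0 : ∀ s, 0 ≤ dbet (Fe m H ε σ s x / ε) / ε := fun s =>
    div_nonneg (dbet_nonneg _) hε.le
  have hcσ : Continuous fun s => σ s x := hsol.cont.uncurry_right x
  have hb0 : 0 ≤ ∫ s in (0:ℝ)..2, dbet (Fe m H ε σ s x / ε) / ε :=
    intervalIntegral.integral_nonneg (by norm_num) fun s _ => hD0 s
  have ha0 : 0 ≤ ∫ s in (0:ℝ)..2, σ s x :=
    intervalIntegral.integral_nonneg (by norm_num) fun s _ => hσ0 s x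
  by_cases hcase : ∀ s ∈ Icc (0:ℝ) 2, 1 / 2 ≤ σ s x
  · have h1 : ∫ _s in (0:ℝ)..2, (1 / 2 : ℝ) ≤ ∫ s in (0:ℝ)..2, σ s x :=
      intervalIntegral.integral_mono_on (by norm_num)
        (continuous_const.intervalIntegrable _ _) (hcσ.intervalIntegrable _ _) hcase
    rw [intervalIntegral.integral_const] at h1
    simp only [smul_eq_mul] at h1
    have h2 := mul_nonneg hη hb0
    linarith
  · push Not at hcase
    obtain ⟨s0, hs0, hlt⟩ := hcase
    -- the derivative of `bet (Fe/ε)`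
    have hder : ∀ s ∈ uIcc (0:ℝ) s0, HasDerivAt (fun y => bet (Fe m H ε σ y x / ε))
        (dbet (Fe m H ε σ s x / ε) / ε * Fs m H ε σ s x) s := by
      intro s _
      have e1 := (hFd s x).div_const ε
      have e2 := (bet_hasDerivAt (Fe m H ε σ s x / ε)).comp s e1
      have e3 : dbet (Fe m H ε σ s x / ε) / ε * Fs m H ε σ s x =
          dbet (Fe m H ε σ s x / ε) * (Fs m H ε σ s x / ε) := by ring
      rw [e3]
      exact e2
    have hDη : Continuous fun s => η * (dbet (Fe m H ε σ s x / ε) / ε) := hcD.const_mul η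
    have hbound : ∀ s ∈ Icc (0:ℝ) 2,
        |dbet (Fe m H ε σ s x / ε) / ε * Fs m H ε σ s x| ≤
          η * (dbet (Fe m H ε σ s x / ε) / ε) := by
      intro s hs
      rw [abs_mul, abs_of_nonneg (hD0 s), mul_comm]
      exact mul_le_mul_of_nonneg_right (hη' s hs) (hD0 s)
    have hmeas : Measurable fun s => dbet (Fe m H ε σ s x / ε) / ε * Fs m H ε σ s x := by
      exact hcD.measurable.mul hFm.of_uncurry_right
    have hint : IntervalIntegrable
        (fun s => dbet (Fe m H ε σ s x / ε) / ε * Fs m H ε σ s x) volume 0 s0 := by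
      refine (hDη.intervalIntegrable 0 s0).mono_fun' hmeas.aestronglyMeasurable ?_
      refine (ae_restrict_mem measurableSet_uIoc).mono fun s hs => ?_
      rw [uIoc_of_le hs0.1] at hs
      exact hbound s ⟨hs.1.le, hs.2.trans hs0.2⟩
    have hftc := intervalIntegral.integral_eq_sub_of_hasDerivAt hder hint
    have hbet0 : bet (Fe m H ε σ 0 x / ε) = 0 :=
      bet_of_nonpos (div_nonpos_of_nonpos_of_nonneg hF0 hε.le)
    have hσs0 := hsol.eq s0 x
    have h1 : 1 / 2 < ∫ s in (0:ℝ)..s0, dbet (Fe m H ε σ s x / ε) / ε * Fs m H ε σ s x := by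
      rw [hftc, hbet0]
      linarith
    have h2 : ∫ s in (0:ℝ)..s0, dbet (Fe m H ε σ s x / ε) / ε * Fs m H ε σ s x ≤
        ∫ s in (0:ℝ)..s0, η * (dbet (Fe m H ε σ s x / ε) / ε) :=
      intervalIntegral.integral_mono_on hs0.1 hint (hDη.intervalIntegrable _ _) fun s hs =>
        (le_abs_self _).trans (hbound s ⟨hs.1, hs.2.trans hs0.2⟩)
    have h3 : ∫ s in (0:ℝ)..s0, η * (dbet (Fe m H ε σ s x / ε) / ε) ≤
        ∫ s in (0:ℝ)..2, η * (dbet (Fe m H ε σ s x / ε) / ε) :=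
      intervalIntegral.integral_mono_interval le_rfl hs0.1 hs0.2
        (Filter.Eventually.of_forall fun s => mul_nonneg hη (hD0 s)) (hDη.intervalIntegrable _ _)
    have h4 : ∫ s in (0:ℝ)..2, η * (dbet (Fe m H ε σ s x / ε) / ε) =
        η * ∫ s in (0:ℝ)..2, dbet (Fe m H ε σ s x / ε) / ε :=
      intervalIntegral.integral_const_mul _ _
    rw [h4] at h3
    linarith

end Auxcross

/- TARGET, proof in plain words:
For x in [1,2] put b(x) = ∫_0^2 dbet (Fe s x/ε)/ε ds ≥ 0, a(x) = ∫_0^2 σ(s,x) ds ≥ 0.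
Claim: 1/2 ≤ η b(x) + a(x)/2.  (η ≥ 0 since it bounds an absolute value.)  If σ(s,x) ≥ 1/2 for all s in [0,2] then a(x) ≥ 1.  Otherwise pick s0 in [0,2] with σ(s0,x) < 1/2,
i.e. bet(Fe s0 x/ε) > 1/2, while bet (Fe 0 x/ε) = 0 because Fe 0 x ≤ 0 (t_sol).  So
1/2 < bet(Fe s0 x/ε) - bet(Fe 0 x/ε) = ∫_0^{s0} dbet(Fe s x/ε)/ε * Fs s x ds ≤ η ∫_0^{s0} dbet(...)/ε ≤ η b(x)
(bet_hasDerivAt, ∂_s Fe = Fs; the derivative is bounded measurable on [0,2] ⊂ [0,H], use intervalIntegral.integral_eq_sub_of_hasDerivAt; |Fs| ≤ η on [0,2]×[1,2]).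
Integrate over x in [1,2]:  1/2 ≤ η ∫_1^2 b + (1/2) ∫_1^2 a.  By Fubini (continuous integrands: intervalIntegral_integral_swap or
MeasureTheory.integral_integral_swap) ∫_1^2 b = ∫_0^2 ∫_1^2 dbet/ε dx ds ≤ e^{4/m} ∫_0^2 om m s ∫_1^2 dbet/ε ≤ 50 e^{4/m} ≤ 50 e^{2/3} < 100
(om m s = e^{-2s/m} ≥ e^{-4/m}, m ≥ 6; t_stab), and ∫_1^2 a = ∫_0^2 ∫_1^2 σ ≤ ∫_0^2 ∫_0^π σ (σ ≥ 0, [1,2] ⊂ [0,π]).
-/
theorem t_cross : S_cross := by
  intro m H ε η σ hm hH hε hε1 hsol hFsη
  obtain ⟨_, hσ0, _, hFd, _, _, hFm, _, _, _, _, _, hFc, hF0, _⟩ :=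
    t_sol m H ε σ (by linarith) (by linarith) hε hε1 hsol
  have hstab := t_stab m H ε σ hm hH hε hε1 hsol
  have hπ : (3:ℝ) < Real.pi := Real.pi_gt_three
  have hη : 0 ≤ η := (abs_nonneg _).trans (hFsη 0 (by norm_num) 1 (by norm_num))
  set D : ℝ → ℝ → ℝ := fun s x => dbet (Fe m H ε σ s x / ε) / ε with hD
  have hDc : Continuous (Function.uncurry D) := by
    have : Function.uncurry D = fun p : ℝ × ℝ =>
        dbet (Function.uncurry (Fe m H ε σ) p / ε) / ε := by
      ext p; rfl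
    rw [this]
    exact (dbet_continuous.comp (hFc.div_const ε)).div_const ε
  have hD0 : ∀ s x, 0 ≤ D s x := fun s x => div_nonneg (dbet_nonneg _) hε.le
  have hpt : ∀ x ∈ Icc (1:ℝ) 2, 1 / 2 ≤ η * (∫ s in (0:ℝ)..2, D s x) +
      (1 / 2) * ∫ s in (0:ℝ)..2, σ s x := by
    intro x hx
    exact Auxcross.pointwise m H ε η σ hH hε hsol hFd hFm hFc hσ0 x
      (hF0 x ⟨by linarith [hx.1], by linarith [hx.2]⟩) hη (fun s hs => hFsη s hs x hx)
  have hcb := Auxcross.cont_param D hDc 0 2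
  have hca := Auxcross.cont_param σ hsol.cont 0 2
  have h1 : ∫ _x in (1:ℝ)..2, (1 / 2 : ℝ) ≤ ∫ x in (1:ℝ)..2,
      (η * (∫ s in (0:ℝ)..2, D s x) + (1 / 2) * ∫ s in (0:ℝ)..2, σ s x) :=
    intervalIntegral.integral_mono_on (by norm_num) (continuous_const.intervalIntegrable _ _)
      (((hcb.const_mul η).add (hca.const_mul (1 / 2))).intervalIntegrable _ _) hpt
  rw [intervalIntegral.integral_const, intervalIntegral.integral_add
    ((hcb.const_mul η).intervalIntegrable _ _) ((hca.const_mul (1 / 2)).intervalIntegrable _ _),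
    intervalIntegral.integral_const_mul, intervalIntegral.integral_const_mul,
    Auxcross.swap D hDc, Auxcross.swap σ hsol.cont] at h1
  simp only [smul_eq_mul] at h1
  -- the first term
  have hcD' := Auxcross.cont_param' D hDc 1 2
  have hE0 : ∀ s, 0 ≤ ∫ x in (1:ℝ)..2, D s x := fun s =>
    intervalIntegral.integral_nonneg (by norm_num) fun x _ => hD0 s x
  have hom : Continuous fun s => om m s := by
    unfold om
    fun_prop
  have h2 : ∫ s in (0:ℝ)..2, ∫ x in (1:ℝ)..2, D s x ≤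
      ∫ s in (0:ℝ)..2, 2 * (om m s * ∫ x in (1:ℝ)..2, D s x) := by
    refine intervalIntegral.integral_mono_on (by norm_num) (hcD'.intervalIntegrable _ _)
      (((hom.mul hcD').const_mul 2).intervalIntegrable _ _) fun s hs => ?_
    have ho : 1 / 2 ≤ om m s := by
      unfold om
      have hle : 2 * s / m ≤ 2 / 3 := by
        rw [div_le_iff₀ (by linarith)]
        nlinarith [hs.2]
      have h3 : Real.exp (-(2 / 3)) ≤ Real.exp (-(2 * s / m)) := Real.exp_le_exp.2 (by linarith)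
      have h4 : 1 / 2 ≤ Real.exp (-(2 / 3)) := by
        rw [Real.exp_neg, one_div]
        exact inv_anti₀ (Real.exp_pos _) Auxcross.exp_bound.le
      exact h4.trans h3
    have := hE0 s
    nlinarith
  rw [intervalIntegral.integral_const_mul] at h2
  have h3 : ∫ s in (0:ℝ)..2, om m s * ∫ x in (1:ℝ)..2, D s x ≤ 50 := hstab
  have h4 : ∫ s in (0:ℝ)..2, ∫ x in (1:ℝ)..2, D s x ≤ 100 := by linarith
  -- the second term
  have h5 : ∫ s in (0:ℝ)..2, ∫ x in (1:ℝ)..2, σ s x ≤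
      ∫ s in (0:ℝ)..2, ∫ x in (0:ℝ)..Real.pi, σ s x := by
    refine intervalIntegral.integral_mono_on (by norm_num)
      ((Auxcross.cont_param' σ hsol.cont 1 2).intervalIntegrable _ _)
      ((Auxcross.cont_param' σ hsol.cont 0 Real.pi).intervalIntegrable _ _) fun s _ => ?_
    refine intervalIntegral.integral_mono_interval (by norm_num) (by norm_num) (by linarith)
      (Filter.Eventually.of_forall fun x => hσ0 s x) ?_
    exact (hsol.cont.uncurry_left s).intervalIntegrable _ _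
  have h6 : η * (∫ s in (0:ℝ)..2, ∫ x in (1:ℝ)..2, D s x) ≤ η * 100 :=
    mul_le_mul_of_nonneg_left h4 hη
  linarith

end Pool.Agent.H682_VS
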