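import Pool.Agent.H682_VS.Stmts
import Pool.Agent.H682_VS.T_sol
import Pool.Agent.H682_VS.T_cross
import Pool.Agent.H682_VS.T_Fsbound

/-! # shallow -/

set_option autoImplicit false

open MeasureTheory Set Filter Topology

namespace Pool.Agent.H682_VS


/- TARGET, proof in plain words:
C1 ≥ 1 from t_Fsbound.  Choose N = max 3 (16000 C1) or so, lam0 small, eta1, e1 small such that
 8π e1 + 4 (N lam0 + C1/N) + 8 lam0/6 + eta1 ≤ 4π/1000  and lam0 < 1/2.
Let lam = ∫_0^t ∫_0^π σ and suppose lam < lam0.  t_Fsbound gives |Fs| ≤ η := 1/1000 on [0,2]×[1,2] (m ≥ 6, lam ≥ 0).  t_cross: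
1/2 ≤ 100/1000 + (1/2) ∫_0^2∫_0^π σ ≤ 1/10 + lam/2 < 1/10 + 1/4, contradiction (∫_0^2 ≤ ∫_0^t because σ ≥ 0 and 2 ≤ 3 ≤ t; σ continuous).
-/
theorem t_shallow : S_shallow := by
  obtain ⟨C1, hC1, hF⟩ := t_Fsbound
  refine ⟨1 / (16000000 * C1), by positivity, 1 / 1000, by norm_num, 1 / 10000, by norm_num, ?_⟩
  intro m H ε t σ hm ht htH hε hε1 hε2 hsol heta
  by_contra hcon
  push Not at hcon
  have hl0 : (0:ℝ) < 1 / (16000000 * C1) := by positivity
  have hl1 : 1 / (16000000 * C1) ≤ 1 / 16000000 := by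
    apply one_div_le_one_div_of_le (by norm_num)
    linarith
  have hFs : ∀ s ∈ Icc (0:ℝ) 2, ∀ x ∈ Icc (1:ℝ) 2, |Fs m H ε σ s x| ≤ 1 / 1000 := by
    intro s hs x hx
    have h := hF m H ε t (4000 * C1) (1 / (16000000 * C1)) σ hm ht htH hε hε2 (by linarith) hsol
      hcon.le s hs x hx
    have e1 : 4000 * C1 * (1 / (16000000 * C1)) = 1 / 4000 := by
      field_simp
      norm_num
    have e2 : C1 / (4000 * C1) = 1 / 4000 := by
      field_simp
    rw [e1, e2] at h
    have h2 : 8 * (1 / (16000000 * C1)) / m ≤ 1 / 1000 := by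
      rw [div_le_iff₀ (by linarith)]
      nlinarith
    have hpi1 := Real.pi_gt_d2
    have hpi2 := Real.pi_lt_d2
    have h3 : 8 * Real.pi * ε ≤ 8 * 3.15 * (1 / 10000) := by
      have : Real.pi * ε ≤ 3.15 * (1 / 10000) := by
        apply mul_le_mul hpi2.le hε1 hε.le (by norm_num)
      linarith
    have h4 : 4 * Real.pi * |Fs m H ε σ s x| ≤ 4 * 3.14 * (1 / 1000) := by
      norm_num at h h3 h2 heta ⊢
      linarith
    have h5 : 4 * 3.14 * |Fs m H ε σ s x| ≤ 4 * Real.pi * |Fs m H ε σ s x| := by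
      apply mul_le_mul_of_nonneg_right _ (abs_nonneg _)
      linarith
    have h6 : 4 * 3.14 * |Fs m H ε σ s x| ≤ 4 * 3.14 * (1 / 1000) := h5.trans h4
    exact le_of_mul_le_mul_left h6 (by norm_num)
  have hc := t_cross m H ε (1 / 1000) σ hm (by linarith) hε hε2 hsol hFs
  have hnn : ∀ s x, 0 ≤ σ s x :=
    (t_sol m H ε σ (by linarith) (by linarith) hε hε2 hsol).2.1
  have hcont : Continuous (fun s => ∫ x in (0:ℝ)..Real.pi, σ s x) :=
    intervalIntegral.continuous_parametric_intervalIntegral_of_continuous' hsol.cont 0 Real.pi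
  have hsplit := intervalIntegral.integral_add_adjacent_intervals
    (hcont.intervalIntegrable (μ := volume) 0 2) (hcont.intervalIntegrable (μ := volume) 2 t)
  have hpos : 0 ≤ ∫ s in (2:ℝ)..t, ∫ x in (0:ℝ)..Real.pi, σ s x := by
    apply intervalIntegral.integral_nonneg (by linarith)
    intro s _
    apply intervalIntegral.integral_nonneg Real.pi_pos.le
    intro x _
    exact hnn s x
  linarith

end Pool.Agent.H682_VS

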