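import Pool.Agent.H682_VS.Stmts
import Pool.Agent.H682_VS.K1

/-! # unifJ -/

set_option autoImplicit false

open MeasureTheory Set Filter Topology

namespace Pool.Agent.H682_VS


namespace AuxunifJ

theorem q_pos {u : ℝ} (hu : u ≠ 0) (v : ℝ) : 0 < q u v := by
  unfold q
  have h1 := Real.one_lt_cosh.2 hu
  have h2 := Real.cos_le_one v
  linarith

theorem cont_q (u : ℝ) : Continuous (fun v => q u v) := by
  unfold q
  fun_prop

theorem diff_q (u x y : ℝ) : q u (x + y) - q u (x - y) = 2 * Real.sin x * Real.sin y := by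
  unfold q
  rw [Real.cos_add, Real.cos_sub]
  ring

end AuxunifJ

open AuxunifJ in
/- TARGET, proof in plain words:
For u ≠ 0: q > 0 and q(u,x+y) - q(u,x-y) = cos(x-y) - cos(x+y) = 2 sin x sin y ≥ 0 for x, y in [0,π], so the integrand log(q(u,x+y)/q(u,x-y)) ≥ 0 and
log(1+r) ≤ r gives integrand ≤ 2 sin x sin y/q(u,x-y) ≤ 2 sin y/q(u,x-y) = (2 sin y/|sinh u|) |h1(u,x-y)|; integrate over x in [0,π]
(window x - y, length π): ≤ 2 C sin y/|sinh u| (t_K1 part 1).
For |u| ≤ 1: integrand ≤ |log q(u,x+y)| + |log q(u,x-y)|, integral ≤ 2·C·(1+|u|) ≤ 4 C (t_K1 part 3).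
-/
theorem t_unifJ : ∃ C3 : ℝ, 1 ≤ C3 ∧ ∀ u y : ℝ, u ≠ 0 → y ∈ Icc (0:ℝ) Real.pi →
    0 ≤ ∫ x in (0:ℝ)..Real.pi, Real.log (q u (x + y) / q u (x - y)) ∧
    ∫ x in (0:ℝ)..Real.pi, Real.log (q u (x + y) / q u (x - y)) ≤ C3 * Real.sin y / |Real.sinh u| ∧
    (|u| ≤ 1 → ∫ x in (0:ℝ)..Real.pi, Real.log (q u (x + y) / q u (x - y)) ≤ C3) := by
  obtain ⟨C, hC1, hA, _, hL, _⟩ := t_K1
  refine ⟨4 * C, by linarith, ?_⟩
  intro u y hu hy
  have hsy : 0 ≤ Real.sin y := Real.sin_nonneg_of_mem_Icc hy
  have hsh : 0 < |Real.sinh u| := abs_pos.2 (fun h => hu (Real.sinh_eq_zero.1 h))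
  have hqp := q_pos hu
  have hc1 : Continuous (fun x : ℝ => q u (x + y)) :=
    (cont_q u).comp (continuous_id.add continuous_const)
  have hc2 : Continuous (fun x : ℝ => q u (x - y)) :=
    (cont_q u).comp (continuous_id.sub continuous_const)
  have hcf : Continuous (fun x : ℝ => Real.log (q u (x + y) / q u (x - y))) := by
    refine Continuous.log (hc1.div hc2 (fun x => (hqp _).ne')) (fun x => ?_)
    exact (div_pos (hqp _) (hqp _)).ne'
  have hrat : ∀ x : ℝ, q u (x + y) / q u (x - y) =
      1 + 2 * Real.sin x * Real.sin y / q u (x - y) := by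
    intro x
    have := hqp (x - y)
    rw [← diff_q u x y]
    field_simp
    ring
  refine ⟨?_, ?_, ?_⟩
  · refine intervalIntegral.integral_nonneg Real.pi_pos.le ?_
    intro x hx
    refine Real.log_nonneg ?_
    rw [hrat]
    have h1 : 0 ≤ Real.sin x := Real.sin_nonneg_of_mem_Icc hx
    have h2 := (hqp (x - y)).le
    have : 0 ≤ 2 * Real.sin x * Real.sin y / q u (x - y) := by positivity
    linarith
  · have hch : Continuous (fun x : ℝ => |h1 u (x - y)|) := by
      unfold h1
      exact (continuous_const.div hc2 (fun x => (hqp _).ne')).abs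
    have h1' : ∫ x in (0:ℝ)..Real.pi, Real.log (q u (x + y) / q u (x - y)) ≤
        ∫ x in (0:ℝ)..Real.pi, (2 * Real.sin y / |Real.sinh u|) * |h1 u (x - y)| := by
      refine intervalIntegral.integral_mono_on Real.pi_pos.le (hcf.intervalIntegrable _ _)
        ((continuous_const.mul hch).intervalIntegrable _ _) ?_
      intro x hx
      have h1 : 0 ≤ Real.sin x := Real.sin_nonneg_of_mem_Icc hx
      have h3 : Real.sin x ≤ 1 := Real.sin_le_one x
      have h2 := hqp (x - y)
      have h4 : 0 ≤ 2 * Real.sin x * Real.sin y / q u (x - y) := by positivity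
      have h5 : Real.log (q u (x + y) / q u (x - y)) ≤
          2 * Real.sin x * Real.sin y / q u (x - y) := by
        rw [hrat]
        have := Real.log_le_sub_one_of_pos
          (show 0 < 1 + 2 * Real.sin x * Real.sin y / q u (x - y) by linarith)
        linarith
      refine h5.trans ?_
      have h6 : (2 * Real.sin y / |Real.sinh u|) * |Pool.Agent.H682_VS.h1 u (x - y)| =
          2 * Real.sin y / q u (x - y) := by
        unfold Pool.Agent.H682_VS.h1
        rw [abs_div, abs_of_pos h2]
        field_simp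
      rw [h6]
      refine div_le_div_of_nonneg_right ?_ h2.le
      nlinarith
    refine h1'.trans ?_
    rw [intervalIntegral.integral_const_mul]
    have h2' : ∫ x in (0:ℝ)..Real.pi, |h1 u (x - y)| ≤ C := by
      have h3 := intervalIntegral.integral_comp_sub_right (a := 0) (b := Real.pi)
        (fun v => |h1 u v|) y
      rw [h3]
      have h4 := hA u (0 - y) hu
      have h5 : 0 - y + Real.pi = Real.pi - y := by ring
      rwa [h5] at h4
    have h3 : 0 ≤ 2 * Real.sin y / |Real.sinh u| := by positivity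
    calc (2 * Real.sin y / |Real.sinh u|) * ∫ x in (0:ℝ)..Real.pi, |h1 u (x - y)|
        ≤ (2 * Real.sin y / |Real.sinh u|) * C := mul_le_mul_of_nonneg_left h2' h3
      _ = (2 * C) * Real.sin y / |Real.sinh u| := by ring
      _ ≤ 4 * C * Real.sin y / |Real.sinh u| := by
        refine div_le_div_of_nonneg_right ?_ hsh.le
        refine mul_le_mul_of_nonneg_right ?_ hsy
        linarith
  · intro hu1
    have hl1 : Continuous (fun x : ℝ => |Real.log (q u (x + y))|) :=
      (hc1.log (fun x => (hqp _).ne')).abs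
    have hl2 : Continuous (fun x : ℝ => |Real.log (q u (x - y))|) :=
      (hc2.log (fun x => (hqp _).ne')).abs
    have h1' : ∫ x in (0:ℝ)..Real.pi, Real.log (q u (x + y) / q u (x - y)) ≤
        ∫ x in (0:ℝ)..Real.pi, (|Real.log (q u (x + y))| + |Real.log (q u (x - y))|) := by
      refine intervalIntegral.integral_mono_on Real.pi_pos.le (hcf.intervalIntegrable _ _)
        ((hl1.add hl2).intervalIntegrable _ _) ?_
      intro x _
      rw [Real.log_div (hqp _).ne' (hqp _).ne']
      have h3 := le_abs_self (Real.log (q u (x + y)))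
      have h4 := neg_abs_le (Real.log (q u (x - y)))
      linarith
    refine h1'.trans ?_
    rw [intervalIntegral.integral_add (hl1.intervalIntegrable _ _) (hl2.intervalIntegrable _ _)]
    have h2 : ∫ x in (0:ℝ)..Real.pi, |Real.log (q u (x + y))| ≤ C * (1 + |u|) := by
      rw [intervalIntegral.integral_comp_add_right (fun v => |Real.log (q u v)|) y]
      have h4 := hL u (0 + y)
      have h5 : 0 + y + Real.pi = Real.pi + y := by ring
      rwa [h5] at h4
    have h3 : ∫ x in (0:ℝ)..Real.pi, |Real.log (q u (x - y))| ≤ C * (1 + |u|) := by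
      rw [intervalIntegral.integral_comp_sub_right (fun v => |Real.log (q u v)|) y]
      have h4 := hL u (0 - y)
      have h5 : 0 - y + Real.pi = Real.pi - y := by ring
      rwa [h5] at h4
    have h4 : C * (1 + |u|) ≤ C * 2 := mul_le_mul_of_nonneg_left (by linarith) (by linarith)
    linarith

end Pool.Agent.H682_VS
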