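import Pool.Agent.H682_VS.Stmts
import Pool.Agent.H682_VS.K1
import Pool.Agent.H682_VS.T_sol

/-! # uniflow -/

set_option autoImplicit false

open MeasureTheory Set Filter Topology

namespace Pool.Agent.H682_VS


namespace Auxuniflow

theorem q_pos {u : ℝ} (v : ℝ) (hu : u ≠ 0) : 0 < q u v := by
  unfold q
  have h1 : 1 < Real.cosh u := Real.one_lt_cosh.mpr hu
  have h2 := Real.cos_le_one v
  linarith

theorem q_meas : Measurable (fun p : ℝ × ℝ => q p.1 p.2) := by
  unfold q
  exact (Real.measurable_cosh.comp measurable_fst).sub (Real.measurable_cos.comp measurable_snd)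

theorem key {u x y H : ℝ} (hu : u ≠ 0) (huH : |u| ≤ H) (hx : x ∈ Icc (0:ℝ) Real.pi)
    (hy : y ∈ Icc (0:ℝ) Real.pi) :
    2 * Real.sin x / (Real.cosh H + 1) * Real.sin y ≤
      Real.log (q u (x + y) / q u (x - y)) := by
  have h1 := q_pos (x + y) hu
  have h2 := q_pos (x - y) hu
  have h3 : 0 ≤ Real.sin x := Real.sin_nonneg_of_mem_Icc hx
  have h4 : 0 ≤ Real.sin y := Real.sin_nonneg_of_mem_Icc hy
  have h5 := Real.one_sub_inv_le_log_of_pos (div_pos h1 h2)
  refine le_trans ?_ h5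
  have h6 : q u (x + y) - q u (x - y) = 2 * Real.sin x * Real.sin y := by
    unfold q
    rw [Real.cos_add, Real.cos_sub]
    ring
  have h7 : 1 - (q u (x + y) / q u (x - y))⁻¹ = 2 * Real.sin x * Real.sin y / q u (x + y) := by
    rw [inv_div, ← h6, sub_div, div_self h1.ne']
  rw [h7]
  have h8 : q u (x + y) ≤ Real.cosh H + 1 := by
    unfold q
    have h9 : Real.cosh u ≤ Real.cosh H := by
      rw [Real.cosh_le_cosh]
      exact huH.trans (le_abs_self H)
    have h10 := Real.neg_one_le_cos (x + y)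
    linarith
  have h11 : 2 * Real.sin x / (Real.cosh H + 1) * Real.sin y =
      2 * Real.sin x * Real.sin y / (Real.cosh H + 1) := by ring
  rw [h11]
  exact div_le_div_of_nonneg_left (by positivity) h1 h8

/-- bounded measurable functions on a bounded interval -/
theorem ii_of_bdd {f : ℝ → ℝ} {a b C : ℝ} (hab : a ≤ b) (hf : Measurable f)
    (hC : ∀ t ∈ Ioc a b, |f t| ≤ C) : IntervalIntegrable f volume a b := by
  rw [intervalIntegrable_iff_integrableOn_Ioc_of_le hab]
  refine Measure.integrableOn_of_bounded (M := C) (by simp) hf.aestronglyMeasurable ?_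
  rw [ae_restrict_iff' measurableSet_Ioc]
  exact Filter.Eventually.of_forall (fun t ht => by rw [Real.norm_eq_abs]; exact hC t ht)

theorem meas_inner {g : ℝ → ℝ → ℝ} (hg : Measurable (Function.uncurry g)) :
    Measurable (fun s' => ∫ y in (0:ℝ)..Real.pi, g s' y) := by
  have h1 : (fun s' => ∫ y in (0:ℝ)..Real.pi, g s' y) =
      fun s' => ∫ y in Ioc (0:ℝ) Real.pi, g s' y := by
    funext s'
    rw [intervalIntegral.integral_of_le Real.pi_pos.le]
  rw [h1]
  exact (hg.stronglyMeasurable.integral_prod_right' (ν := volume.restrict (Ioc (0:ℝ) Real.pi))).measurable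

theorem om_nonneg (m s : ℝ) : 0 ≤ om m s := (Real.exp_pos _).le

theorem om_le {m s : ℝ} (hm : 1 ≤ m) (hs : 0 ≤ s) : om m s ≤ 1 := by
  unfold om
  rw [Real.exp_le_one_iff]
  have : 0 ≤ 2 * s / m := by positivity
  linarith

theorem om_meas (m : ℝ) : Measurable (om m) := by
  unfold om; fun_prop

theorem comparison (m H s x C K0 : ℝ) (g : ℝ → ℝ → ℝ) (hm : 1 ≤ m) (hH : 0 < H)
    (hs : s ∈ Icc (0:ℝ) H) (hx : x ∈ Icc (0:ℝ) Real.pi) (msx : Measurable (Function.uncurry g))
    (hC0 : 0 ≤ C) (hC : ∀ s' ∈ Icc (0:ℝ) H, ∀ y, |g s' y| ≤ C)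
    (hsx : ∀ s', ∀ y ∈ Icc (0:ℝ) Real.pi, 0 ≤ g s' y) (hK01 : 1 ≤ K0)
    (hK3 : ∀ u a : ℝ, ∫ v in a..(a + Real.pi), |Real.log (q u v)| ≤ K0 * (1 + |u|))
    (hK4 : ∀ u a b : ℝ, IntervalIntegrable (fun v => Real.log (q u v)) volume a b) :
    (2 * Real.sin x / (Real.cosh H + 1)) *
      (∫ s' in (0:ℝ)..H, om m s' * ∫ y in (0:ℝ)..Real.pi, g s' y * Real.sin y) ≤
    ∫ s' in (0:ℝ)..H, om m s' * ∫ y in (0:ℝ)..Real.pi, g s' y *
      Real.log (q (s - s') (x + y) / q (s - s') (x - y)) := by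
  have hpi := Real.pi_pos
  have hsin : 0 ≤ Real.sin x := Real.sin_nonneg_of_mem_Icc hx
  have hcH : 0 < Real.cosh H + 1 := by have := Real.cosh_pos H; linarith
  set c : ℝ := 2 * Real.sin x / (Real.cosh H + 1) with hc
  set Kf : ℝ → ℝ → ℝ := fun s' y => g s' y *
    Real.log (q (s - s') (x + y) / q (s - s') (x - y)) with hKf
  set Rf : ℝ → ℝ → ℝ := fun s' y => g s' y * Real.sin y with hRf
  have mq1 : Measurable (fun a : ℝ × ℝ => q (s - a.1) (x + a.2)) :=
    q_meas.comp (f := fun a : ℝ × ℝ => (s - a.1, x + a.2)) (by fun_prop)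
  have mq2 : Measurable (fun a : ℝ × ℝ => q (s - a.1) (x - a.2)) :=
    q_meas.comp (f := fun a : ℝ × ℝ => (s - a.1, x - a.2)) (by fun_prop)
  have mK : Measurable (Function.uncurry Kf) :=
    msx.mul (Real.measurable_log.comp (mq1.div mq2))
  have mR : Measurable (Function.uncurry Rf) :=
    msx.mul (Real.measurable_sin.comp measurable_snd)
  have mKs : ∀ s', Measurable (Kf s') := fun s' => mK.comp measurable_prodMk_left
  have mRs : ∀ s', Measurable (Rf s') := fun s' => mR.comp measurable_prodMk_left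
  -- inner integrability
  have hl1 : ∀ s' : ℝ, IntervalIntegrable
      (fun y => Real.log (q (s - s') (x + y))) volume 0 Real.pi := by
    intro s'
    have h1 := (hK4 (s - s') (x + 0) (x + Real.pi)).comp_add_left x
    simpa only [add_sub_cancel_left] using h1
  have hl2 : ∀ s' : ℝ, IntervalIntegrable
      (fun y => Real.log (q (s - s') (x - y))) volume 0 Real.pi := by
    intro s'
    have h2 := (hK4 (s - s') (x - 0) (x - Real.pi)).comp_sub_left x
    simpa only [sub_sub_cancel] using h2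
  have hlogint : ∀ s' : ℝ, IntervalIntegrable
      (fun y => |Real.log (q (s - s') (x + y))| + |Real.log (q (s - s') (x - y))|) volume 0 Real.pi :=
    fun s' => (hl1 s').abs.add (hl2 s').abs
  have hKbd : ∀ s' ∈ Icc (0:ℝ) H, s' ≠ s → ∀ y, |Kf s' y| ≤ C *
      (|Real.log (q (s - s') (x + y))| + |Real.log (q (s - s') (x - y))|) := by
    intro s' hs' hne y
    have hu : s - s' ≠ 0 := sub_ne_zero.mpr (Ne.symm hne)
    rw [hKf]
    simp only
    rw [abs_mul, Real.log_div (q_pos _ hu).ne' (q_pos _ hu).ne']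
    exact mul_le_mul (hC s' hs' y) (abs_sub _ _) (abs_nonneg _) hC0
  have hKint : ∀ s' ∈ Icc (0:ℝ) H, s' ≠ s → IntervalIntegrable (Kf s') volume 0 Real.pi := by
    intro s' hs' hne
    refine ((hlogint s').const_mul C).mono_fun (mKs s').aestronglyMeasurable ?_
    refine Filter.Eventually.of_forall (fun y => ?_)
    simp only [Real.norm_eq_abs]
    exact (hKbd s' hs' hne y).trans (le_abs_self _)
  have hRbd : ∀ s' ∈ Icc (0:ℝ) H, ∀ y, |Rf s' y| ≤ C := by
    intro s' hs' y
    rw [hRf]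
    simp only
    rw [abs_mul]
    calc |g s' y| * |Real.sin y| ≤ C * 1 :=
          mul_le_mul (hC s' hs' y) (Real.abs_sin_le_one y) (abs_nonneg _) hC0
      _ = C := mul_one C
  have hRint : ∀ s' ∈ Icc (0:ℝ) H, IntervalIntegrable (Rf s') volume 0 Real.pi := by
    intro s' hs'
    exact ii_of_bdd hpi.le (mRs s') (fun t _ => hRbd s' hs' t)
  -- inner comparison
  have hinner : ∀ s' ∈ Icc (0:ℝ) H, s' ≠ s →
      c * ∫ y in (0:ℝ)..Real.pi, Rf s' y ≤ ∫ y in (0:ℝ)..Real.pi, Kf s' y := by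
    intro s' hs' hne
    rw [← intervalIntegral.integral_const_mul]
    refine intervalIntegral.integral_mono_on hpi.le ((hRint s' hs').const_mul c)
      (hKint s' hs' hne) ?_
    intro y hy
    have hu : s - s' ≠ 0 := sub_ne_zero.mpr (Ne.symm hne)
    have huH : |s - s'| ≤ H := by
      rw [abs_le]
      constructor <;> linarith [hs.1, hs.2, hs'.1, hs'.2]
    have h1 := key hu huH hx hy
    have h2 := mul_le_mul_of_nonneg_left h1 (hsx s' y hy)
    calc c * Rf s' y = g s' y * (2 * Real.sin x / (Real.cosh H + 1) * Real.sin y) := by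
          rw [hc, hRf]; ring
      _ ≤ Kf s' y := h2
  -- outer integrability
  have hKout : ∀ s' ∈ Icc (0:ℝ) H, s' ≠ s →
      |∫ y in (0:ℝ)..Real.pi, Kf s' y| ≤ C * (2 * (K0 * (1 + H))) := by
    intro s' hs' hne
    have huH : |s - s'| ≤ H := by
      rw [abs_le]
      constructor <;> linarith [hs.1, hs.2, hs'.1, hs'.2]
    have h1 : |∫ y in (0:ℝ)..Real.pi, Kf s' y| ≤ ∫ y in (0:ℝ)..Real.pi, |Kf s' y| :=
      intervalIntegral.abs_integral_le_integral_abs hpi.le
    have h2 : ∫ y in (0:ℝ)..Real.pi, |Kf s' y| ≤ ∫ y in (0:ℝ)..Real.pi, C *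
        (|Real.log (q (s - s') (x + y))| + |Real.log (q (s - s') (x - y))|) :=
      intervalIntegral.integral_mono_on hpi.le (hKint s' hs' hne).abs
        ((hlogint s').const_mul C) (fun y _ => hKbd s' hs' hne y)
    rw [intervalIntegral.integral_const_mul,
      intervalIntegral.integral_add (hl1 s').abs (hl2 s').abs] at h2
    have h3 : ∫ y in (0:ℝ)..Real.pi, |Real.log (q (s - s') (x + y))| =
        ∫ v in x..(x + Real.pi), |Real.log (q (s - s') v)| := by
      have := intervalIntegral.integral_comp_add_left (a := 0) (b := Real.pi)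
        (fun v => |Real.log (q (s - s') v)|) x
      rw [this, add_zero]
    have h4 : ∫ y in (0:ℝ)..Real.pi, |Real.log (q (s - s') (x - y))| =
        ∫ v in (x - Real.pi)..(x - Real.pi + Real.pi), |Real.log (q (s - s') v)| := by
      have := intervalIntegral.integral_comp_sub_left (a := 0) (b := Real.pi)
        (fun v => |Real.log (q (s - s') v)|) x
      rw [this, sub_zero, sub_add_cancel]
    have h5 := hK3 (s - s') x
    have h6 := hK3 (s - s') (x - Real.pi)
    rw [← h3] at h5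
    rw [← h4] at h6
    have h7 : K0 * (1 + |s - s'|) ≤ K0 * (1 + H) :=
      mul_le_mul_of_nonneg_left (by linarith) (by linarith)
    refine h1.trans (h2.trans (mul_le_mul_of_nonneg_left ?_ hC0))
    linarith
  have hae : ∀ᵐ t : ℝ, t ≠ s := by
    rw [ae_iff]; simp
  have hKoi : IntervalIntegrable (fun s' => om m s' * ∫ y in (0:ℝ)..Real.pi, Kf s' y) volume 0 H := by
    rw [intervalIntegrable_iff_integrableOn_Ioc_of_le hH.le]
    refine Measure.integrableOn_of_bounded (M := C * (2 * (K0 * (1 + H)))) (by simp)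
      ((om_meas m).mul (meas_inner mK)).aestronglyMeasurable ?_
    rw [ae_restrict_iff' measurableSet_Ioc]
    filter_upwards [hae] with t ht htI
    have htI' : t ∈ Icc (0:ℝ) H := ⟨htI.1.le, htI.2⟩
    rw [Real.norm_eq_abs, abs_mul, abs_of_nonneg (om_nonneg m t)]
    calc om m t * |∫ y in (0:ℝ)..Real.pi, Kf t y| ≤ 1 * (C * (2 * (K0 * (1 + H)))) :=
          mul_le_mul (om_le hm htI'.1) (hKout t htI' ht) (abs_nonneg _) zero_le_one
      _ = _ := one_mul _
  have hRoi : IntervalIntegrable (fun s' => om m s' * ∫ y in (0:ℝ)..Real.pi, Rf s' y) volume 0 H := by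
    refine ii_of_bdd (C := C * Real.pi) hH.le ((om_meas m).mul (meas_inner mR)) ?_
    intro t ht
    have htI' : t ∈ Icc (0:ℝ) H := ⟨ht.1.le, ht.2⟩
    rw [abs_mul, abs_of_nonneg (om_nonneg m t)]
    have h1 : |∫ y in (0:ℝ)..Real.pi, Rf t y| ≤ C * |Real.pi - 0| := by
      rw [← Real.norm_eq_abs]
      refine intervalIntegral.norm_integral_le_of_norm_le_const (fun y _ => ?_)
      rw [Real.norm_eq_abs]; exact hRbd t htI' y
    rw [sub_zero, abs_of_pos hpi] at h1
    calc om m t * |∫ y in (0:ℝ)..Real.pi, Rf t y| ≤ 1 * (C * Real.pi) :=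
          mul_le_mul (om_le hm htI'.1) h1 (abs_nonneg _) zero_le_one
      _ = _ := one_mul _
  rw [← intervalIntegral.integral_const_mul]
  refine intervalIntegral.integral_mono_ae_restrict hH.le (hRoi.const_mul c) hKoi ?_
  rw [Filter.EventuallyLE, ae_restrict_iff' measurableSet_Icc]
  filter_upwards [hae] with t ht htI
  have h1 := mul_le_mul_of_nonneg_left (hinner t htI ht) (om_nonneg m t)
  calc c * (om m t * ∫ y in (0:ℝ)..Real.pi, Rf t y) = om m t * (c * ∫ y in (0:ℝ)..Real.pi, Rf t y) := by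
        ring
    _ ≤ _ := h1

theorem final (I c s x H W L ε : ℝ) (hε : 0 < ε) (hx : 0 ≤ Real.sin x)
    (hc : c = 2 * Real.sin x / (Real.cosh H + 1)) (h1 : c * I ≤ L)
    (hW : W = ε * (Real.exp (-s) * Real.sin x) + (1 / (4 * Real.pi)) * L) :
    I / (2 * Real.pi * (Real.cosh H + 1)) * Real.sin x ≤ W := by
  have hcH : 0 < Real.cosh H + 1 := by have := Real.cosh_pos H; linarith
  have hpi := Real.pi_pos
  have h0 : 0 ≤ ε * (Real.exp (-s) * Real.sin x) := by positivity
  have h2 := mul_le_mul_of_nonneg_left h1 (by positivity : (0:ℝ) ≤ 1 / (4 * Real.pi))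
  have h3 : I / (2 * Real.pi * (Real.cosh H + 1)) * Real.sin x = 1 / (4 * Real.pi) * (c * I) := by
    rw [hc]
    field_simp
    ring
  rw [h3, hW]
  linarith

end Auxuniflow

theorem t_uniflow : ∀ (m H ε : ℝ) (σ : ℝ → ℝ → ℝ), 1 ≤ m → 0 < H → 0 < ε → ε ≤ 1 → Sol m H ε σ →
    ∀ s ∈ Icc (0:ℝ) H, ∀ x ∈ Icc (0:ℝ) Real.pi,
      (∫ s' in (0:ℝ)..H, om m s' * ∫ y in (0:ℝ)..Real.pi, sx m H ε σ s' y * Real.sin y)
        / (2 * Real.pi * (Real.cosh H + 1)) * Real.sin x ≤ We m H ε σ s x := by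
  intro m H ε σ hm hH hε hε1 hS s hs x hx
  obtain ⟨K0, hK01, -, -, hK3, hK4⟩ := t_K1
  obtain ⟨-, -, -, -, -, -, -, msx, ⟨C, hC⟩, -, hsx, -, -, -, hlast⟩ :=
    t_sol m H ε σ hm hH hε hε1 hS
  have hC0 : 0 ≤ C := (abs_nonneg _).trans (hC s hs x).2.2
  exact Auxuniflow.final _ _ s x H _ _ ε hε (Real.sin_nonneg_of_mem_Icc hx) rfl
    (Auxuniflow.comparison m H s x C K0 (sx m H ε σ) hm hH hs hx msx hC0
      (fun s' hs' y => (hC s' hs' y).2.2) hsx hK01 hK3 hK4) (hlast s x)

end Pool.Agent.H682_VS
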