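import Pool.Agent.H682_VS.Stmts
import Pool.Agent.H682_VS.K1
import Pool.Agent.H682_VS.T_sol

/-! # unifup -/

set_option autoImplicit false

open MeasureTheory Set Filter Topology

namespace Pool.Agent.H682_VS


namespace Auxunifup

theorem q_lb (u v : ℝ) : Real.cosh u - 1 ≤ q u v := by
  unfold q
  linarith [Real.cos_le_one v]

theorem q_ub (u v : ℝ) : q u v ≤ Real.cosh u + 1 := by
  unfold q
  linarith [Real.neg_one_le_cos v]

theorem q_pos {u : ℝ} (hu : u ≠ 0) (v : ℝ) : 0 < q u v := by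
  have h1 := q_lb u v
  have h2 := Real.one_lt_cosh.2 hu
  linarith

theorem q_cont : Continuous fun p : ℝ × ℝ => q p.1 p.2 := by
  unfold q
  exact (Real.continuous_cosh.comp continuous_fst).sub (Real.continuous_cos.comp continuous_snd)

theorem q_meas : Measurable fun p : ℝ × ℝ => q p.1 p.2 := q_cont.measurable

/-- the logarithmic factor -/
noncomputable def lf (s' x y : ℝ) : ℝ := Real.log (q (0 - s') (x + y) / q (0 - s') (x - y))

theorem lf_meas : Measurable fun p : (ℝ × ℝ) × ℝ => lf p.1.2 p.1.1 p.2 := by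
  unfold lf
  apply Measurable.log
  apply Measurable.div
  · have e : Measurable fun p : (ℝ × ℝ) × ℝ => ((0 - p.1.2 : ℝ), p.1.1 + p.2) := by fun_prop
    have h := q_meas.comp e
    exact h
  · have e : Measurable fun p : (ℝ × ℝ) × ℝ => ((0 - p.1.2 : ℝ), p.1.1 - p.2) := by fun_prop
    have h := q_meas.comp e
    exact h

theorem lf_abs {s' : ℝ} (hs : s' ≠ 0) (x y : ℝ) :
    |lf s' x y| ≤ |Real.log (q (0 - s') (x + y))| + |Real.log (q (0 - s') (x - y))| := by
  unfold lf
  have hu : (0 - s') ≠ 0 := by rw [zero_sub]; exact neg_ne_zero.2 hs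
  rw [Real.log_div (q_pos hu _).ne' (q_pos hu _).ne']
  exact abs_sub _ _

theorem log_bdd {u : ℝ} (hu : u ≠ 0) (v : ℝ) :
    |Real.log (q u v)| ≤ |Real.log (Real.cosh u - 1)| + |Real.log (Real.cosh u + 1)| := by
  have h0 : 0 < Real.cosh u - 1 := by linarith [Real.one_lt_cosh.2 hu]
  have h1 := Real.log_le_log h0 (q_lb u v)
  have h2 := Real.log_le_log (q_pos hu v) (q_ub u v)
  rw [abs_le]
  constructor
  · have := neg_abs_le (Real.log (Real.cosh u - 1))
    have := abs_nonneg (Real.log (Real.cosh u + 1))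
    linarith
  · have := le_abs_self (Real.log (Real.cosh u + 1))
    have := abs_nonneg (Real.log (Real.cosh u - 1))
    linarith

theorem core (H ε C C' : ℝ) (F0 W0 : ℝ → ℝ) (S : ℝ → ℝ → ℝ) (w : ℝ → ℝ) (hH : 0 < H) (hC0 : 0 ≤ C)
    (hC'1 : 1 ≤ C') (hFx : ∀ x, HasDerivAt F0 (-W0 x) x) (hF00 : F0 0 = 0) (hWm : Measurable W0)
    (hWb : ∀ x, |W0 x| ≤ C) (hSm : Measurable (Function.uncurry S))
    (hSb : ∀ s ∈ Icc (0 : ℝ) H, ∀ y, |S s y| ≤ C) (hwc : Continuous w)
    (hw : ∀ s : ℝ, 0 < s → |w s| ≤ 1)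
    (hK3 : ∀ u a : ℝ, ∫ v in a..(a + Real.pi), |Real.log (q u v)| ≤ C' * (1 + |u|))
    (hK4 : ∀ u a b : ℝ, IntervalIntegrable (fun v => Real.log (q u v)) volume a b)
    (hW : ∀ x, W0 x = ε * Real.sin x + (1 / (4 * Real.pi)) *
      ∫ s' in (0:ℝ)..H, w s' * ∫ y in (0:ℝ)..Real.pi, S s' y * lf s' x y) :
    -F0 Real.pi = 2 * ε + (1 / (4 * Real.pi)) * ∫ s' in (0:ℝ)..H, w s' *
      ∫ y in (0:ℝ)..Real.pi, S s' y * ∫ x in (0:ℝ)..Real.pi, lf s' x y := by
  have hpi := Real.pi_pos
  -- the fundamental theorem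
  have hWi : IntervalIntegrable W0 volume 0 Real.pi := by
    rw [intervalIntegrable_iff_integrableOn_Ioc_of_le hpi.le]
    exact Integrable.of_bound (C := C) hWm.aestronglyMeasurable
      (Filter.Eventually.of_forall fun x => hWb x)
  have hftc : -F0 Real.pi = ∫ x in (0 : ℝ)..Real.pi, W0 x := by
    have h := intervalIntegral.integral_eq_sub_of_hasDerivAt
      (fun x (_ : x ∈ uIcc (0 : ℝ) Real.pi) => hFx x) hWi.neg
    rw [hF00, sub_zero, intervalIntegral.integral_neg] at h
    linarith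
  -- set integrals
  set μH : Measure ℝ := volume.restrict (Ioc 0 H) with hμH
  set μp : Measure ℝ := volume.restrict (Ioc 0 Real.pi) with hμp
  have iH : ∀ f : ℝ → ℝ, ∫ s' in (0 : ℝ)..H, f s' = ∫ s', f s' ∂μH := fun f =>
    intervalIntegral.integral_of_le hH.le
  have ip : ∀ f : ℝ → ℝ, ∫ s' in (0 : ℝ)..Real.pi, f s' = ∫ s', f s' ∂μp := fun f =>
    intervalIntegral.integral_of_le hpi.le
  let A : ℝ → ℝ → ℝ := fun x s' => w s' * ∫ y, S s' y * lf s' x y ∂μp
  have e3 : Measurable fun p : (ℝ × ℝ) × ℝ => (p.1.2, p.2) := by fun_prop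
  have hsx3 : Measurable fun p : (ℝ × ℝ) × ℝ => S p.1.2 p.2 := hSm.comp e3
  have hAm : Measurable (Function.uncurry A) := by
    have h1 : StronglyMeasurable fun p : (ℝ × ℝ) × ℝ => S p.1.2 p.2 * lf p.1.2 p.1.1 p.2 :=
      (hsx3.mul lf_meas).stronglyMeasurable
    have h2 := (h1.integral_prod_right' (ν := μp)).measurable
    exact (hwc.measurable.comp measurable_snd).mul h2
  -- bound for `A`
  have hAb : ∀ x s' : ℝ, s' ∈ Ioc 0 H → |A x s'| ≤ C * (2 * (C' * (1 + H))) := by
    intro x s' hs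
    have hs0 : s' ≠ 0 := hs.1.ne'
    have hus : |0 - s'| ≤ H := by rw [zero_sub, abs_neg, abs_of_pos hs.1]; exact hs.2
    have g1 : IntervalIntegrable (fun y => Real.log (q (0 - s') (x + y))) volume 0 Real.pi := by
      have h := (hK4 (0 - s') (x + 0) (x + Real.pi)).comp_add_left x
      simpa using h
    have g2 : IntervalIntegrable (fun y => Real.log (q (0 - s') (x - y))) volume 0 Real.pi := by
      have h := (hK4 (0 - s') (x - 0) (x - Real.pi)).comp_sub_left x
      simpa using h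
    have b1 : ∫ y in (0 : ℝ)..Real.pi, |Real.log (q (0 - s') (x + y))| ≤ C' * (1 + H) := by
      have h := intervalIntegral.integral_comp_add_left (a := 0) (b := Real.pi)
        (fun v => |Real.log (q (0 - s') v)|) x
      rw [h, add_zero]
      refine (hK3 (0 - s') x).trans ?_
      exact mul_le_mul_of_nonneg_left (by linarith) (by linarith)
    have b2 : ∫ y in (0 : ℝ)..Real.pi, |Real.log (q (0 - s') (x - y))| ≤ C' * (1 + H) := by
      have h := intervalIntegral.integral_comp_sub_left (a := 0) (b := Real.pi)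
        (fun v => |Real.log (q (0 - s') v)|) x
      rw [h, sub_zero]
      have h2 := hK3 (0 - s') (x - Real.pi)
      rw [sub_add_cancel] at h2
      refine h2.trans ?_
      exact mul_le_mul_of_nonneg_left (by linarith) (by linarith)
    rw [ip] at b1 b2
    have g1' : Integrable (fun y => |Real.log (q (0 - s') (x + y))|) μp :=
      ((intervalIntegrable_iff_integrableOn_Ioc_of_le hpi.le).1 g1).abs
    have g2' : Integrable (fun y => |Real.log (q (0 - s') (x - y))|) μp :=
      ((intervalIntegrable_iff_integrableOn_Ioc_of_le hpi.le).1 g2).abs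
    have hle : ∀ y, ‖S s' y * lf s' x y‖ ≤
        C * (|Real.log (q (0 - s') (x + y))| + |Real.log (q (0 - s') (x - y))|) := by
      intro y
      rw [norm_mul, Real.norm_eq_abs, Real.norm_eq_abs]
      exact mul_le_mul (hSb s' ⟨hs.1.le, hs.2⟩ y) (lf_abs hs0 x y) (abs_nonneg _) hC0
    have hint := norm_integral_le_of_norm_le ((g1'.add g2').const_mul C)
      (Filter.Eventually.of_forall hle)
    have e : ∫ y, C * (|Real.log (q (0 - s') (x + y))| + |Real.log (q (0 - s') (x - y))|) ∂μp =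
        C * ((∫ y, |Real.log (q (0 - s') (x + y))| ∂μp) +
          ∫ y, |Real.log (q (0 - s') (x - y))| ∂μp) := by
      rw [integral_const_mul, integral_add g1' g2']
    have hint2 : ‖∫ y, S s' y * lf s' x y ∂μp‖ ≤ C * (2 * (C' * (1 + H))) := by
      refine hint.trans ?_
      refine (le_of_eq e).trans ?_
      apply mul_le_mul_of_nonneg_left _ hC0
      linarith
    change |w s' * ∫ y, S s' y * lf s' x y ∂μp| ≤ _
    rw [abs_mul]
    calc |w s'| * |∫ y, S s' y * lf s' x y ∂μp| ≤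
          1 * |∫ y, S s' y * lf s' x y ∂μp| :=
          mul_le_mul_of_nonneg_right (hw s' hs.1) (abs_nonneg _)
      _ ≤ _ := by rw [one_mul]; exact hint2
  have hAi : Integrable (Function.uncurry A) (μp.prod μH) := by
    refine Integrable.of_bound (C := C * (2 * (C' * (1 + H)))) hAm.aestronglyMeasurable ?_
    have h1 : ∀ᵐ p ∂(μp.prod μH), p.2 ∈ Ioc 0 H := by
      have h2 : ∀ᵐ s ∂μH, s ∈ Ioc 0 H := ae_restrict_mem measurableSet_Ioc
      exact (Measure.quasiMeasurePreserving_snd (μ := μp) (ν := μH)).ae h2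
    filter_upwards [h1] with p hp
    exact hAb p.1 p.2 hp
  -- assembling
  have hWx : ∀ x, W0 x = ε * Real.sin x + (1 / (4 * Real.pi)) * ∫ s', A x s' ∂μH := by
    intro x
    rw [hW x, iH]
    congr 2
    simp only [ip]
    rfl
  have hsin : ∫ x, ε * Real.sin x ∂μp = 2 * ε := by
    rw [← ip, intervalIntegral.integral_const_mul, integral_sin, Real.cos_zero, Real.cos_pi]
    ring
  have hsini : Integrable (fun x => ε * Real.sin x) μp := by
    have h : IntervalIntegrable (fun x => ε * Real.sin x) volume 0 Real.pi :=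
      (continuous_const.mul Real.continuous_sin).intervalIntegrable _ _
    exact (intervalIntegrable_iff_integrableOn_Ioc_of_le hpi.le).1 h
  have hAx : Integrable (fun x => ∫ s', A x s' ∂μH) μp := hAi.integral_prod_left
  have hleft : ∫ x in (0 : ℝ)..Real.pi, W0 x =
      2 * ε + (1 / (4 * Real.pi)) * ∫ x, (∫ s', A x s' ∂μH) ∂μp := by
    rw [ip]
    simp only [hWx]
    rw [integral_add hsini (hAx.const_mul _), hsin, integral_const_mul]
  rw [hftc, hleft, integral_integral_swap hAi, iH]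
  congr 2
  apply integral_congr_ae
  have hmem : ∀ᵐ s ∂μH, s ∈ Ioc 0 H := ae_restrict_mem measurableSet_Ioc
  filter_upwards [hmem] with s' hs
  change ∫ x, w s' * (∫ y, S s' y * lf s' x y ∂μp) ∂μp = _
  rw [integral_const_mul, ip]
  congr 1
  have hu : (0 - s') ≠ 0 := by rw [zero_sub]; exact neg_ne_zero.2 hs.1.ne'
  have hBi : Integrable (Function.uncurry fun x y => S s' y * lf s' x y) (μp.prod μp) := by
    refine Integrable.of_bound (C := C * (2 * (|Real.log (Real.cosh (0 - s') - 1)| +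
      |Real.log (Real.cosh (0 - s') + 1)|))) ?_ (Filter.Eventually.of_forall fun p => ?_)
    · have e4 : Measurable fun p : ℝ × ℝ => (s', p.2) := by fun_prop
      have h1 : Measurable fun p : ℝ × ℝ => S s' p.2 := hSm.comp e4
      have e5 : Measurable fun p : ℝ × ℝ => ((p.1, s'), p.2) := by fun_prop
      have h2 : Measurable fun p : ℝ × ℝ => lf s' p.1 p.2 := by
        have h := lf_meas.comp e5
        exact h
      exact (h1.mul h2).aestronglyMeasurable
    · change ‖S s' p.2 * lf s' p.1 p.2‖ ≤ _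
      rw [norm_mul, Real.norm_eq_abs, Real.norm_eq_abs]
      refine mul_le_mul (hSb s' ⟨hs.1.le, hs.2⟩ p.2) ?_ (abs_nonneg _) hC0
      have h1 := lf_abs hs.1.ne' p.1 p.2
      have h2 := log_bdd hu (p.1 + p.2)
      have h3 := log_bdd hu (p.1 - p.2)
      linarith
  rw [integral_integral_swap hBi]
  congr 1
  funext y
  rw [integral_const_mul, ip]

theorem unc1 {f : ℝ → ℝ → ℝ} (h : Measurable (Function.uncurry f)) (s : ℝ) :
    Measurable (fun x => f s x) := by
  have e : Measurable fun x : ℝ => (s, x) := by fun_prop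
  exact h.comp e

end Auxunifup

theorem t_unifup : ∀ (m H ε : ℝ) (σ : ℝ → ℝ → ℝ), 1 ≤ m → 0 < H → 0 < ε → ε ≤ 1 → Sol m H ε σ →
    -Fe m H ε σ 0 Real.pi = 2 * ε + (1 / (4 * Real.pi)) * ∫ s' in (0:ℝ)..H, om m s' *
      ∫ y in (0:ℝ)..Real.pi, sx m H ε σ s' y *
        ∫ x in (0:ℝ)..Real.pi, Real.log (q (0 - s') (x + y) / q (0 - s') (x - y)) := by
  intro m H ε σ hm hH hε hε1 hσ
  obtain ⟨-, -, hFx, -, -, hWm, -, hsxm, ⟨C, hC⟩, -, -, hF00, -, -, hW⟩ := t_sol m H ε σ hm hH hε hε1 hσ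
  obtain ⟨C', hC'1, -, -, hK3, hK4⟩ := t_K1
  have h0H : (0 : ℝ) ∈ Icc (0 : ℝ) H := ⟨le_rfl, hH.le⟩
  have hC0 : 0 ≤ C := (abs_nonneg _).trans (hC 0 h0H 0).1
  have homc : Continuous fun s' => om m s' := by
    unfold om
    fun_prop
  have hom1 : ∀ s' : ℝ, 0 < s' → |om m s'| ≤ 1 := by
    intro s' hs
    unfold om
    rw [abs_of_pos (Real.exp_pos _), Real.exp_le_one_iff]
    have : 0 ≤ 2 * s' / m := by positivity
    linarith
  have hW' : ∀ x, We m H ε σ 0 x = ε * Real.sin x + (1 / (4 * Real.pi)) *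
      ∫ s' in (0:ℝ)..H, om m s' * ∫ y in (0:ℝ)..Real.pi, sx m H ε σ s' y * Auxunifup.lf s' x y := by
    intro x
    have h := hW 0 x
    rw [neg_zero, Real.exp_zero, one_mul] at h
    exact h
  exact Auxunifup.core H ε C C' (fun x => Fe m H ε σ 0 x) (fun x => We m H ε σ 0 x)
    (fun s y => sx m H ε σ s y) (fun s => om m s) hH hC0 hC'1 (fun x => hFx 0 x) hF00
    (Auxunifup.unc1 hWm 0) (fun x => (hC 0 h0H x).1) hsxm (fun s hs y => (hC s hs y).2.2) homc hom1
    hK3 hK4 hW'

end Pool.Agent.H682_VS
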