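import Pool.Agent.H682_VS.Stmts
import Pool.Agent.H682_VS.T_sol
import Pool.Agent.H682_VS.T_unifJ
import Pool.Agent.H682_VS.T_unifup
import Pool.Agent.H682_VS.T_uniflow

/-! # unif -/

set_option autoImplicit false

open MeasureTheory Set Filter Topology

namespace Pool.Agent.H682_VS


/- TARGET, proof in plain words:
M := ∫_0^H om(s') ∫_0^π sx(s',y) sin y dy ds' ≥ 0.  a(s') := ∫_0^π sx(s',y) sin y dy ≥ 0.
Upper bound: J(u,y) as in t_unifJ.  Let N ≥ 1 be a real number with 1/N ≤ H.  For s' ≥ 1/N: ∫_0^π sx J dy ≤ C3 a(s')/sinh(1/N) ≤ C3 N a(s').  For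
0 < s' < 1/N ≤ 1: ∫_0^π sx J ≤ C3 ∫_0^π sx dy = C3 (σ(s',π) - σ(s',0)) ≤ C3 (t_sol: derivative of σ(s',·) is sx; 0 ≤ σ ≤ 1; sx ≥ 0).  So with t_unifup
 c5 ≤ -Fe(0,π) ≤ 2ε + (1/4π)(C3 N M + C3/N).  Choose N (depending on c5, H only) with C3/(4πN) ≤ c5/4, e0 = min 1 (c5/8): then C3 N M/(4π) ≥ c5/2, so
 M ≥ M0 := 2π c5/(C3 N) > 0.   (Integrability: everything bounded and measurable on [0,H]×[0,π]; or bound a.e. and use
 intervalIntegral.integral_mono_on with integrable majorants; s' ↦ ∫_0^π sx J dy is measurable as parametric integral.)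
Lower bound: t_uniflow gives We(s,x) ≥ c7 sin x, c7 = M0/(2π(cosh H + 1)), for 0 ≤ s ≤ H, 0 ≤ x ≤ π.  Integrate the derivative -We of Fe(s,·)
 over [x1,x2]: Fe(s,x1) - Fe(s,x2) = ∫_{x1}^{x2} We ≥ c7 (cos x1 - cos x2)  (or: x ↦ Fe(s,x) - c7 cos x has nonpositive derivative).
-/
namespace Auxunif

theorem om_pos (m s : ℝ) : 0 < om m s := Real.exp_pos _

theorem om_le_one {m s : ℝ} (hm : 1 ≤ m) (hs : 0 ≤ s) : om m s ≤ 1 := by
  unfold om
  rw [Real.exp_le_one_iff]
  have : 0 ≤ 2 * s / m := by positivity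
  linarith

theorem meas_om (m : ℝ) : Measurable (om m) := by
  unfold om
  fun_prop

/-- inner bound away from `0` -/
theorem inner_far {C : ℝ} {g : ℝ → ℝ} (hC : ∀ x, |g x| ≤ C) (hm : Measurable g)
    (hpos : ∀ x ∈ Icc (0:ℝ) Real.pi, 0 ≤ g x)
    {δ C3 : ℝ} (hδ : 0 < δ) (hC3 : 0 ≤ C3) (J : ℝ → ℝ)
    (hJ : ∀ y ∈ Icc (0:ℝ) Real.pi, J y ≤ C3 / δ * Real.sin y) :
    ∫ y in (0:ℝ)..Real.pi, g y * J y ≤
      C3 / δ * ∫ y in (0:ℝ)..Real.pi, g y * Real.sin y := by
  have hpi := Real.pi_pos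
  have hsin : ∀ y ∈ Icc (0:ℝ) Real.pi, 0 ≤ Real.sin y := fun y hy =>
    Real.sin_nonneg_of_nonneg_of_le_pi hy.1 hy.2
  have hint : IntervalIntegrable (fun y => g y * Real.sin y) volume 0 Real.pi := by
    rw [intervalIntegrable_iff_integrableOn_Ioc_of_le hpi.le]
    refine Measure.integrableOn_of_bounded (M := C) (by simp) ?_ ?_
    · exact (hm.mul Real.measurable_sin).aestronglyMeasurable
    · refine Filter.Eventually.of_forall fun y => ?_
      rw [norm_mul, Real.norm_eq_abs, Real.norm_eq_abs]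
      have h1 := hC y
      have h2 := Real.abs_sin_le_one y
      have h3 : 0 ≤ |g y| := abs_nonneg _
      nlinarith [abs_nonneg (Real.sin y)]
  have hrhs : 0 ≤ C3 / δ * ∫ y in (0:ℝ)..Real.pi, g y * Real.sin y := by
    refine mul_nonneg (by positivity) ?_
    refine intervalIntegral.integral_nonneg hpi.le fun y hy => ?_
    exact mul_nonneg (hpos y hy) (hsin y hy)
  by_cases hi : IntervalIntegrable (fun y => g y * J y) volume 0 Real.pi
  · rw [← intervalIntegral.integral_const_mul]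
    refine intervalIntegral.integral_mono_on hpi.le hi (hint.const_mul _) fun y hy => ?_
    have h1 := hpos y hy
    have h2 := hJ y hy
    calc g y * J y ≤ g y * (C3 / δ * Real.sin y) :=
          mul_le_mul_of_nonneg_left h2 h1
      _ = C3 / δ * (g y * Real.sin y) := by ring
  · rw [intervalIntegral.integral_undef hi]
    exact hrhs

/-- inner bound near `0` -/
theorem inner_near {C : ℝ} {g f : ℝ → ℝ} (hC : ∀ x, |g x| ≤ C) (hm : Measurable g)
    (hpos : ∀ x ∈ Icc (0:ℝ) Real.pi, 0 ≤ g x)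
    (hder : ∀ x, HasDerivAt f (g x) x)
    (h0 : ∀ x, 0 ≤ f x) (h1 : ∀ x, |f x| ≤ 1)
    {C3 : ℝ} (hC3 : 0 ≤ C3) (J : ℝ → ℝ)
    (hJ : ∀ y ∈ Icc (0:ℝ) Real.pi, J y ≤ C3) :
    ∫ y in (0:ℝ)..Real.pi, g y * J y ≤ C3 := by
  have hpi := Real.pi_pos
  have hint : IntervalIntegrable g volume 0 Real.pi := by
    rw [intervalIntegrable_iff_integrableOn_Ioc_of_le hpi.le]
    refine Measure.integrableOn_of_bounded (M := C) (by simp) hm.aestronglyMeasurable ?_
    exact Filter.Eventually.of_forall fun y => hC y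
  by_cases hi : IntervalIntegrable (fun y => g y * J y) volume 0 Real.pi
  · have hftc : ∫ y in (0:ℝ)..Real.pi, g y = f Real.pi - f 0 :=
      intervalIntegral.integral_eq_sub_of_hasDerivAt (fun x _ => hder x) hint
    calc ∫ y in (0:ℝ)..Real.pi, g y * J y
        ≤ ∫ y in (0:ℝ)..Real.pi, C3 * g y := by
          refine intervalIntegral.integral_mono_on hpi.le hi (hint.const_mul _) fun y hy => ?_
          have h2 := hpos y hy
          have h3 := hJ y hy
          nlinarith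
      _ = C3 * (f Real.pi - f 0) := by
          rw [intervalIntegral.integral_const_mul, hftc]
      _ ≤ C3 * 1 := by
          refine mul_le_mul_of_nonneg_left ?_ hC3
          have := h0 0
          have h5 := (abs_le.mp (h1 Real.pi)).2
          linarith
      _ = C3 := mul_one _
  · rw [intervalIntegral.integral_undef hi]
    exact hC3

/-- the lower bound of the mass, in abstract form -/
theorem mass_bound {H C C3 δ c5 e : ℝ} {g f : ℝ → ℝ → ℝ} {w : ℝ → ℝ} (K : ℝ → ℝ → ℝ)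
    (hH : 0 < H) (hC3 : 0 < C3) (hδ : 0 < δ) (hδ1 : δ ≤ 1) (hδc : C3 * δ ≤ Real.pi * c5)
    (hw0 : ∀ s, 0 < w s) (hw1 : ∀ s, 0 ≤ s → w s ≤ 1) (hwm : Measurable w)
    (hC : ∀ s ∈ Icc (0:ℝ) H, ∀ x, |g s x| ≤ C) (hmsx : Measurable (Function.uncurry g))
    (hpos : ∀ s, ∀ x ∈ Icc (0:ℝ) Real.pi, 0 ≤ g s x)
    (hder : ∀ s x, HasDerivAt (f s) (g s x) x)
    (h0 : ∀ s x, 0 ≤ f s x) (h1 : ∀ s x, |f s x| ≤ 1)
    (hK : ∀ s, 0 < s → ∀ y ∈ Icc (0:ℝ) Real.pi, K s y ≤ C3 * Real.sin y / |Real.sinh (0 - s)|)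
    (hK2 : ∀ s, 0 < s → s ≤ 1 → ∀ y ∈ Icc (0:ℝ) Real.pi, K s y ≤ C3)
    (he : e ≤ c5 / 8)
    (hc : c5 ≤ 2 * e + (1 / (4 * Real.pi)) * ∫ s in (0:ℝ)..H, w s *
      ∫ y in (0:ℝ)..Real.pi, g s y * K s y) :
    2 * Real.pi * c5 * δ / C3 ≤
      ∫ s in (0:ℝ)..H, w s * ∫ y in (0:ℝ)..Real.pi, g s y * Real.sin y := by
  have hpi := Real.pi_pos
  obtain ⟨a, ha⟩ : ∃ a : ℝ → ℝ, a = fun s => ∫ y in (0:ℝ)..Real.pi, g s y * Real.sin y := ⟨_, rfl⟩
  obtain ⟨G, hG⟩ : ∃ G : ℝ → ℝ, G = fun s => ∫ y in (0:ℝ)..Real.pi, g s y * K s y := ⟨_, rfl⟩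
  obtain ⟨M, hM⟩ : ∃ M : ℝ, M = ∫ s in (0:ℝ)..H, w s * a s := ⟨_, rfl⟩
  have hgoal : (∫ s in (0:ℝ)..H, w s * ∫ y in (0:ℝ)..Real.pi, g s y * Real.sin y) = M := by
    rw [hM, ha]
  have hc' : c5 ≤ 2 * e + (1 / (4 * Real.pi)) * ∫ s in (0:ℝ)..H, w s * G s := by
    rw [hG]; exact hc
  rw [hgoal]
  clear hgoal hc
  have hC0 : 0 ≤ C := (abs_nonneg _).trans (hC 0 ⟨le_refl _, hH.le⟩ 0)
  have hms : ∀ s, Measurable (g s) := fun s =>
    hmsx.comp (measurable_const.prodMk measurable_id : Measurable fun y : ℝ => (s, y))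
  have hanon : ∀ s', 0 ≤ a s' := by
    intro s'
    rw [ha]
    exact intervalIntegral.integral_nonneg hpi.le fun y hy =>
      mul_nonneg (hpos s' y hy) (Real.sin_nonneg_of_nonneg_of_le_pi hy.1 hy.2)
  -- pointwise bound of G
  have hGle : ∀ s' ∈ Ioc (0:ℝ) H, G s' ≤ C3 / δ * a s' + (if s' < δ then C3 else 0) := by
    intro s' hs'
    have hs'' : s' ∈ Icc (0:ℝ) H := ⟨hs'.1.le, hs'.2⟩
    have hna : 0 ≤ C3 / δ * a s' := mul_nonneg (by positivity) (hanon s')
    by_cases hlt : s' < δ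
    · rw [if_pos hlt]
      have h2 : G s' ≤ C3 := by
        rw [hG]
        exact inner_near (g := g s') (f := f s') (hC s' hs'') (hms s')
          (hpos s') (hder s') (h0 s') (h1 s') hC3.le (K s') (hK2 s' hs'.1 (by linarith))
      linarith
    · rw [if_neg hlt, add_zero]
      push Not at hlt
      rw [hG, ha]
      refine inner_far (g := g s') (hC s' hs'') (hms s') (hpos s') hδ hC3.le (K s')
        (fun y hy => ?_)
      refine (hK s' hs'.1 y hy).trans ?_
      have hsn : 0 ≤ Real.sin y := Real.sin_nonneg_of_nonneg_of_le_pi hy.1 hy.2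
      have hsh : δ ≤ |Real.sinh (0 - s')| := by
        rw [zero_sub, Real.sinh_neg, abs_neg]
        refine le_trans ?_ (le_abs_self _)
        refine hlt.trans ?_
        exact Real.self_le_sinh_iff.mpr hs'.1.le
      calc C3 * Real.sin y / |Real.sinh (0 - s')| ≤ C3 * Real.sin y / δ := by
            refine div_le_div_of_nonneg_left (by positivity) hδ hsh
        _ = C3 / δ * Real.sin y := by ring
  -- integrability of w * a
  have hma : Measurable a := by
    have h1 : StronglyMeasurable (fun p : ℝ × ℝ => g p.1 p.2 * Real.sin p.2) := by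
      refine Measurable.stronglyMeasurable ?_
      exact hmsx.mul (Real.measurable_sin.comp measurable_snd)
    have h2 := h1.integral_prod_right' (ν := volume.restrict (Ioc (0:ℝ) Real.pi))
    have h3 : a = fun s' => ∫ y in Ioc (0:ℝ) Real.pi, g s' y * Real.sin y := by
      funext s'
      rw [ha]
      exact intervalIntegral.integral_of_le hpi.le
    rw [h3]
    exact h2.measurable
  have haC : ∀ s' ∈ Ioc (0:ℝ) H, a s' ≤ C * Real.pi := by
    intro s' hs'
    have h1 : ‖a s'‖ ≤ C * |Real.pi - 0| := by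
      rw [ha]
      refine intervalIntegral.norm_integral_le_of_norm_le_const fun y _ => ?_
      rw [norm_mul, Real.norm_eq_abs, Real.norm_eq_abs]
      have h1 := hC s' ⟨hs'.1.le, hs'.2⟩ y
      have h2 := Real.abs_sin_le_one y
      have h3 : 0 ≤ |g s' y| := abs_nonneg _
      nlinarith [abs_nonneg (Real.sin y)]
    rw [sub_zero, abs_of_pos hpi] at h1
    exact (le_abs_self _).trans h1
  have hintoa : IntegrableOn (fun s' => w s' * a s') (Ioc (0:ℝ) H) := by
    refine Integrable.mono' (g := fun _ => C * Real.pi) (integrableOn_const (by simp)) ?_ ?_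
    · exact (hwm.mul hma).aestronglyMeasurable
    · refine (ae_restrict_mem measurableSet_Ioc).mono fun s' hs' => ?_
      rw [norm_mul, Real.norm_eq_abs, Real.norm_eq_abs, abs_of_pos (hw0 s'),
        abs_of_nonneg (hanon s')]
      have h1 := hw1 s' hs'.1.le
      have h2 := haC s' hs'
      nlinarith [hanon s', hw0 s']
  have hintc : IntegrableOn (fun s' : ℝ => if s' < δ then C3 else (0:ℝ)) (Ioc (0:ℝ) H) := by
    refine Integrable.mono' (g := fun _ => C3) (integrableOn_const (by simp)) ?_ ?_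
    · refine Measurable.aestronglyMeasurable ?_
      exact Measurable.ite (measurableSet_lt measurable_id measurable_const) measurable_const
        measurable_const
    · refine Filter.Eventually.of_forall fun s' => ?_
      split_ifs
      · rw [Real.norm_eq_abs, abs_of_pos hC3]
      · simp [hC3.le]
  have hcint : ∫ s' in Ioc (0:ℝ) H, (if s' < δ then C3 else (0:ℝ)) ≤ C3 * δ := by
    have h1 : ∫ s' in Ioc (0:ℝ) H, (if s' < δ then C3 else (0:ℝ)) =
        ∫ s' in Ioc (0:ℝ) H, (Iio δ).indicator (fun _ => C3) s' := by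
      refine setIntegral_congr_fun measurableSet_Ioc fun s' _ => ?_
      simp only [indicator, mem_Iio]
    rw [h1, setIntegral_indicator measurableSet_Iio]
    rw [setIntegral_const]
    have h2 : Ioc (0:ℝ) H ∩ Iio δ ⊆ Ioc 0 δ := fun x hx => ⟨hx.1.1, (mem_Iio.mp hx.2).le⟩
    have h3 : volume.real (Ioc (0:ℝ) H ∩ Iio δ) ≤ δ := by
      calc volume.real (Ioc (0:ℝ) H ∩ Iio δ) ≤ volume.real (Ioc (0:ℝ) δ) :=
            measureReal_mono h2 (by simp)
        _ = δ := by
            rw [Real.volume_real_Ioc_of_le hδ.le, sub_zero]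
    rw [smul_eq_mul]
    nlinarith
  have hMeq : M = ∫ s' in Ioc (0:ℝ) H, w s' * a s' := by
    rw [hM]
    exact intervalIntegral.integral_of_le hH.le
  have hMnon : 0 ≤ M := by
    rw [hM]
    exact intervalIntegral.integral_nonneg hH.le fun s' _ => mul_nonneg (hw0 s').le (hanon s')
  have hmain : ∫ s' in (0:ℝ)..H, w s' * G s' ≤ C3 / δ * M + C3 * δ := by
    by_cases hi : IntervalIntegrable (fun s' => w s' * G s') volume 0 H
    · rw [intervalIntegral.integral_of_le hH.le]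
      have hi' : IntegrableOn (fun s' => w s' * G s') (Ioc (0:ℝ) H) :=
        (intervalIntegrable_iff_integrableOn_Ioc_of_le hH.le).mp hi
      have hle : ∫ s' in Ioc (0:ℝ) H, w s' * G s' ≤
          ∫ s' in Ioc (0:ℝ) H, (C3 / δ * (w s' * a s') + (if s' < δ then C3 else (0:ℝ))) := by
        refine setIntegral_mono_on hi' ((hintoa.const_mul _).add hintc) measurableSet_Ioc
          fun s' hs' => ?_
        have h1 := hGle s' hs'
        have h2 := hw0 s'
        have h3 := hw1 s' hs'.1.le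
        have h4 : (0:ℝ) ≤ (if s' < δ then C3 else (0:ℝ)) := by
          split_ifs
          · exact hC3.le
          · exact le_refl _
        calc w s' * G s' ≤ w s' * (C3 / δ * a s' + (if s' < δ then C3 else 0)) :=
              mul_le_mul_of_nonneg_left h1 h2.le
          _ = C3 / δ * (w s' * a s') + w s' * (if s' < δ then C3 else 0) := by ring
          _ ≤ C3 / δ * (w s' * a s') + (if s' < δ then C3 else 0) := by
              have := mul_le_of_le_one_left h4 h3
              linarith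
      refine hle.trans ?_
      rw [integral_add (hintoa.const_mul _) hintc, integral_const_mul, ← hMeq]
      linarith
    · rw [intervalIntegral.integral_undef hi]
      positivity
  have h1 : c5 ≤ 2 * e + (1 / (4 * Real.pi)) * (C3 / δ * M + C3 * δ) := by
    have h2 : (1 / (4 * Real.pi)) * ∫ s' in (0:ℝ)..H, w s' * G s' ≤
        (1 / (4 * Real.pi)) * (C3 / δ * M + C3 * δ) :=
      mul_le_mul_of_nonneg_left hmain (by positivity)
    linarith
  have h3 : (1 / (4 * Real.pi)) * (C3 * δ) ≤ c5 / 4 := by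
    rw [one_div, inv_mul_le_iff₀ (by positivity)]
    linarith
  have h4 : c5 / 2 ≤ (1 / (4 * Real.pi)) * (C3 / δ * M) := by
    have : (1 / (4 * Real.pi)) * (C3 / δ * M + C3 * δ) =
      (1 / (4 * Real.pi)) * (C3 / δ * M) + (1 / (4 * Real.pi)) * (C3 * δ) := by ring
    linarith
  have h5 : (1 / (4 * Real.pi)) * (C3 / δ * M) = C3 * M / (4 * Real.pi * δ) := by
    field_simp
  rw [h5, le_div_iff₀ (by positivity)] at h4
  rw [div_le_iff₀ hC3]
  linarith

/-- from the derivative bound to the conclusion -/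
theorem final_step {F W : ℝ → ℝ} {c7 : ℝ} (hd : ∀ x, HasDerivAt F (-W x) x)
    (hW : ∀ x ∈ Icc (0:ℝ) Real.pi, c7 * Real.sin x ≤ W x)
    {x1 x2 : ℝ} (hx1 : 0 ≤ x1) (h12 : x1 ≤ x2) (hx2 : x2 ≤ Real.pi) :
    c7 * (Real.cos x1 - Real.cos x2) ≤ F x1 - F x2 := by
  have hant : AntitoneOn (fun x => F x - c7 * Real.cos x) (Icc 0 Real.pi) := by
    have hd' : ∀ x, HasDerivAt (fun x => F x - c7 * Real.cos x)
        (-W x - c7 * (-Real.sin x)) x := fun x =>
      (hd x).sub ((Real.hasDerivAt_cos x).const_mul c7)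
    refine antitoneOn_of_deriv_nonpos (convex_Icc _ _) ?_ ?_ ?_
    · exact fun x _ => (hd' x).continuousAt.continuousWithinAt
    · exact fun x _ => (hd' x).differentiableAt.differentiableWithinAt
    · intro x hx
      rw [interior_Icc] at hx
      rw [(hd' x).deriv]
      have := hW x ⟨hx.1.le, hx.2.le⟩
      linarith
  have := hant (⟨hx1, h12.trans hx2⟩ : x1 ∈ Icc 0 Real.pi) (⟨hx1.trans h12, hx2⟩ : x2 ∈ Icc 0 Real.pi) h12
  simp only at this
  linarith

end Auxunif

open Auxunif in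
theorem t_unif : S_unif := by
  intro m H c5 hm hH hc5
  obtain ⟨C3, hC3, hJ⟩ := t_unifJ
  have hpi := Real.pi_pos
  obtain ⟨δ, hδdef⟩ : ∃ δ : ℝ, δ = min 1 (min H (Real.pi * c5 / C3)) := ⟨_, rfl⟩
  have hC3' : 0 < C3 := by linarith
  have hδ : 0 < δ := by
    rw [hδdef]
    refine lt_min one_pos (lt_min hH (by positivity))
  have hδ1 : δ ≤ 1 := hδdef ▸ min_le_left _ _
  have hδc : C3 * δ ≤ Real.pi * c5 := by
    have : δ ≤ Real.pi * c5 / C3 := hδdef ▸ (min_le_right _ _).trans (min_le_right _ _)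
    rw [le_div_iff₀ hC3'] at this
    linarith
  have hch : 0 < Real.cosh H + 1 := by
    have := Real.cosh_pos H
    linarith
  refine ⟨2 * Real.pi * c5 * δ / C3 / (2 * Real.pi * (Real.cosh H + 1)), by positivity,
    c5 / 8, by positivity, ?_⟩
  intro ε σ hε hε0 hε1 hsol hc
  have T := t_sol m H ε σ hm hH hε hε1 hsol
  obtain ⟨C, hCb⟩ := T.2.2.2.2.2.2.2.2.1
  have hup := t_unifup m H ε σ hm hH hε hε1 hsol
  rw [hup] at hc
  have hMM := mass_bound (H := H) (C := C) (C3 := C3) (δ := δ) (c5 := c5) (e := ε)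
    (g := sx m H ε σ) (f := σ) (w := om m)
    (fun s y => ∫ x in (0:ℝ)..Real.pi, Real.log (q (0 - s) (x + y) / q (0 - s) (x - y)))
    hH hC3' hδ hδ1 hδc (om_pos m) (fun s hs => om_le_one hm hs) (meas_om m)
    (fun s hs x => (hCb s hs x).2.2) T.2.2.2.2.2.2.2.1 T.2.2.2.2.2.2.2.2.2.2.1
    T.2.2.2.2.1 T.2.1 T.1.bdd
    (fun s hs y hy => (hJ (0 - s) y (by intro h; linarith) hy).2.1)
    (fun s hs hs1 y hy => (hJ (0 - s) y (by intro h; linarith) hy).2.2
      (by rw [zero_sub, abs_neg, abs_of_pos hs]; exact hs1))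
    hε0 hc
  intro s hs x1 x2 hx1 h12 hx2
  refine final_step (T.2.2.1 s) (fun x hx => ?_) hx1 h12 hx2
  refine le_trans ?_ (t_uniflow m H ε σ hm hH hε hε1 hsol s hs x hx)
  refine mul_le_mul_of_nonneg_right ?_ (Real.sin_nonneg_of_nonneg_of_le_pi hx.1 hx.2)
  exact div_le_div_of_nonneg_right hMM (by positivity)

end Pool.Agent.H682_VS
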