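import Pool.Agent.H682_VS.Stmts
import Pool.Agent.H682_VS.K1
import Pool.Agent.H682_VS.Sym
import Pool.Agent.H682_VS.T_cont
import Pool.Agent.H682_VS.T_disc
import Pool.Agent.H682_VS.T_sectorb
import Pool.Agent.H682_VS.T_polar

/-! # plane -/

set_option autoImplicit false

open MeasureTheory Set Filter Topology

namespace Pool.Agent.H682_VS


namespace Auxplane

theorem q_cont : Continuous (fun p : ℝ × ℝ => q p.1 p.2) := by
  unfold q
  exact (Real.continuous_cosh.comp continuous_fst).sub (Real.continuous_cos.comp continuous_snd)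

theorem meas_logq (f g : ℝ × ℝ → ℝ) (hf : Measurable f) (hg : Measurable g) :
    Measurable (fun p => Real.log (q (f p) (g p))) :=
  Real.measurable_log.comp (q_cont.measurable.comp (hf.prodMk hg))

theorem meas_h1 : Measurable (fun p : ℝ × ℝ => h1 p.1 p.2) := by
  unfold h1
  exact (Real.continuous_sinh.measurable.comp measurable_fst).div q_cont.measurable

/-- good kernels -/
structure Good (H : ℝ) (K : ℝ → ℝ → ℝ) : Prop where
  meas : Measurable (Function.uncurry K)
  bd : ∃ M : ℝ, ∀ s ∈ Ioc (0:ℝ) H, IntervalIntegrable (K s) volume 0 Real.pi ∧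
    ∫ x in (0:ℝ)..Real.pi, |K s x| ≤ M

theorem Good.add {H : ℝ} {K L : ℝ → ℝ → ℝ} (hK : Good H K) (hL : Good H L) :
    Good H (fun s x => K s x + L s x) := by
  refine ⟨hK.meas.add hL.meas, ?_⟩
  obtain ⟨M, hM⟩ := hK.bd
  obtain ⟨N, hN⟩ := hL.bd
  refine ⟨M + N, fun s hs => ?_⟩
  obtain ⟨i1, b1⟩ := hM s hs
  obtain ⟨i2, b2⟩ := hN s hs
  refine ⟨i1.add i2, ?_⟩
  calc ∫ x in (0:ℝ)..Real.pi, |K s x + L s x|
      ≤ ∫ x in (0:ℝ)..Real.pi, (|K s x| + |L s x|) := by
        apply intervalIntegral.integral_mono_on Real.pi_pos.le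
        · exact (i1.add i2).abs
        · exact i1.abs.add i2.abs
        · intro x _
          exact abs_add_le _ _
    _ = (∫ x in (0:ℝ)..Real.pi, |K s x|) + ∫ x in (0:ℝ)..Real.pi, |L s x| :=
        intervalIntegral.integral_add i1.abs i2.abs
    _ ≤ M + N := add_le_add b1 b2

theorem Good.smul {H : ℝ} {K : ℝ → ℝ → ℝ} (hK : Good H K) (c : ℝ) :
    Good H (fun s x => c * K s x) := by
  refine ⟨hK.meas.const_mul c, ?_⟩
  obtain ⟨M, hM⟩ := hK.bd
  refine ⟨|c| * M, fun s hs => ?_⟩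
  obtain ⟨i1, b1⟩ := hM s hs
  refine ⟨i1.const_mul c, ?_⟩
  simp only [abs_mul]
  rw [intervalIntegral.integral_const_mul]
  exact mul_le_mul_of_nonneg_left b1 (abs_nonneg c)

theorem good_one (H : ℝ) : Good H (fun _ _ => (1:ℝ)) := by
  refine ⟨measurable_const, ⟨Real.pi, fun s _ => ⟨intervalIntegrable_const, ?_⟩⟩⟩
  simp

theorem good_id (H : ℝ) : Good H (fun s _ => s) := by
  refine ⟨measurable_fst, ⟨H * Real.pi, fun s hs => ⟨intervalIntegrable_const, ?_⟩⟩⟩
  rw [intervalIntegral.integral_const, abs_of_pos hs.1]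
  simp only [sub_zero, smul_eq_mul]
  rw [mul_comm]
  exact mul_le_mul_of_nonneg_right hs.2 Real.pi_pos.le

/-- the bilinear form -/
noncomputable def J (m H : ℝ) (σ K : ℝ → ℝ → ℝ) : ℝ :=
  ∫ s' in (0:ℝ)..H, om m s' * ∫ x' in (0:ℝ)..Real.pi, σ s' x' * K s' x'

theorem inner_int {H : ℝ} {σ K : ℝ → ℝ → ℝ} (hσ : Dat 1 σ) (hK : Good H K) {s : ℝ}
    (hs : s ∈ Ioc (0:ℝ) H) : IntervalIntegrable (fun x => σ s x * K s x) volume 0 Real.pi := by
  obtain ⟨M, hM⟩ := hK.bd
  obtain ⟨i1, _⟩ := hM s hs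
  rw [intervalIntegrable_iff_integrableOn_Ioc_of_le Real.pi_pos.le] at i1 ⊢
  have hm : Measurable (fun x => σ s x) := hσ.meas.comp measurable_prodMk_left
  refine Integrable.mono' i1.norm ?_ ?_
  · exact hm.aestronglyMeasurable.mul i1.aestronglyMeasurable
  · refine Filter.Eventually.of_forall (fun x => ?_)
    rw [norm_mul]
    calc ‖σ s x‖ * ‖K s x‖ ≤ 1 * ‖K s x‖ :=
          mul_le_mul_of_nonneg_right (hσ.bdd s x) (norm_nonneg _)
      _ = ‖K s x‖ := one_mul _

theorem inner_bd {H : ℝ} {σ K : ℝ → ℝ → ℝ} (hσ : Dat 1 σ) (hK : Good H K) :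
    ∃ M : ℝ, ∀ s ∈ Ioc (0:ℝ) H, |∫ x in (0:ℝ)..Real.pi, σ s x * K s x| ≤ M := by
  obtain ⟨M, hM⟩ := hK.bd
  refine ⟨M, fun s hs => ?_⟩
  obtain ⟨i1, b1⟩ := hM s hs
  calc |∫ x in (0:ℝ)..Real.pi, σ s x * K s x|
      ≤ ∫ x in (0:ℝ)..Real.pi, |σ s x * K s x| :=
        intervalIntegral.abs_integral_le_integral_abs Real.pi_pos.le
    _ ≤ ∫ x in (0:ℝ)..Real.pi, |K s x| := by
        apply intervalIntegral.integral_mono_on Real.pi_pos.le (inner_int hσ hK hs).abs i1.abs
        intro x _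
        rw [abs_mul]
        calc |σ s x| * |K s x| ≤ 1 * |K s x| :=
              mul_le_mul_of_nonneg_right (hσ.bdd s x) (abs_nonneg _)
          _ = |K s x| := one_mul _
    _ ≤ M := b1

theorem outer_int {m H : ℝ} {σ K : ℝ → ℝ → ℝ} (hm : 1 ≤ m) (hH : 0 < H) (hσ : Dat 1 σ)
    (hK : Good H K) :
    IntervalIntegrable (fun s => om m s * ∫ x in (0:ℝ)..Real.pi, σ s x * K s x) volume 0 H := by
  rw [intervalIntegrable_iff_integrableOn_Ioc_of_le hH.le]
  obtain ⟨M, hM⟩ := inner_bd hσ hK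
  have hmeas : Measurable (fun s => ∫ x in (0:ℝ)..Real.pi, σ s x * K s x) := by
    simp only [intervalIntegral.integral_of_le Real.pi_pos.le]
    have h : StronglyMeasurable (Function.uncurry fun s x => σ s x * K s x) :=
      (hσ.meas.mul hK.meas).stronglyMeasurable
    exact (h.integral_prod_right (ν := volume.restrict (Ioc 0 Real.pi))).measurable
  have hom : Measurable (fun s => om m s) := by
    unfold om
    fun_prop
  refine Measure.integrableOn_of_bounded (M := M) (by simp) ?_ ?_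
  · exact (hom.mul hmeas).aestronglyMeasurable
  · rw [ae_restrict_iff' measurableSet_Ioc]
    refine Filter.Eventually.of_forall (fun s hs => ?_)
    rw [norm_mul, Real.norm_eq_abs, Real.norm_eq_abs]
    have h1 : |om m s| ≤ 1 := by
      unfold om
      rw [abs_of_pos (Real.exp_pos _), Real.exp_le_one_iff]
      have : 0 ≤ 2 * s / m := div_nonneg (by linarith [hs.1]) (by linarith)
      linarith
    calc |om m s| * |∫ x in (0:ℝ)..Real.pi, σ s x * K s x|
        ≤ 1 * |∫ x in (0:ℝ)..Real.pi, σ s x * K s x| :=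
          mul_le_mul_of_nonneg_right h1 (abs_nonneg _)
      _ = |∫ x in (0:ℝ)..Real.pi, σ s x * K s x| := one_mul _
      _ ≤ M := hM s hs

theorem J_add {m H : ℝ} {σ K L : ℝ → ℝ → ℝ} (hm : 1 ≤ m) (hH : 0 < H) (hσ : Dat 1 σ)
    (hK : Good H K) (hL : Good H L) :
    J m H σ (fun s x => K s x + L s x) = J m H σ K + J m H σ L := by
  unfold J
  rw [← intervalIntegral.integral_add (outer_int hm hH hσ hK) (outer_int hm hH hσ hL)]
  apply intervalIntegral.integral_congr_ae
  refine Filter.Eventually.of_forall (fun s hs => ?_)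
  rw [uIoc_of_le hH.le] at hs
  rw [← mul_add, ← intervalIntegral.integral_add (inner_int hσ hK hs) (inner_int hσ hL hs)]
  congr 1
  apply intervalIntegral.integral_congr
  intro x _
  ring

theorem J_smul {m H : ℝ} {σ K : ℝ → ℝ → ℝ} (c : ℝ) :
    J m H σ (fun s x => c * K s x) = c * J m H σ K := by
  have h : ∀ s, ∫ x in (0:ℝ)..Real.pi, σ s x * (c * K s x)
      = c * ∫ x in (0:ℝ)..Real.pi, σ s x * K s x := by
    intro s
    rw [← intervalIntegral.integral_const_mul]
    congr 1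
    funext x
    ring
  unfold J
  rw [← intervalIntegral.integral_const_mul]
  congr 1
  funext s
  rw [h s]
  ring

theorem good_log_sub (H s x : ℝ) : Good H (fun s' x' => Real.log (q (s - s') (x - x'))) := by
  obtain ⟨C, hC1, _, _, h3, h4⟩ := t_K1
  refine ⟨?_, ⟨C * (1 + (|s| + |H|)), fun s' hs' => ⟨?_, ?_⟩⟩⟩
  · exact meas_logq (fun p => s - p.1) (fun p => x - p.2) (measurable_fst.const_sub s)
      (measurable_snd.const_sub x)
  · have h := (h4 (s - s') x (x - Real.pi)).comp_sub_left x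
    simpa using h
  · have h := h3 (s - s') (x - Real.pi)
    rw [sub_add_cancel] at h
    have e := intervalIntegral.integral_comp_sub_left (a := 0) (b := Real.pi)
      (fun v => |Real.log (q (s - s') v)|) x
    rw [sub_zero] at e
    rw [e]
    refine h.trans (mul_le_mul_of_nonneg_left ?_ (by linarith))
    have h5 : |s - s'| ≤ |s| + |s'| := abs_sub _ _
    have h6 : |s'| ≤ |H| := by
      rw [abs_of_pos hs'.1]
      exact hs'.2.trans (le_abs_self H)
    linarith

theorem good_log_add (H s x : ℝ) : Good H (fun s' x' => Real.log (q (s - s') (x + x'))) := by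
  obtain ⟨C, hC1, _, _, h3, h4⟩ := t_K1
  refine ⟨?_, ⟨C * (1 + (|s| + |H|)), fun s' hs' => ⟨?_, ?_⟩⟩⟩
  · exact meas_logq (fun p => s - p.1) (fun p => x + p.2) (measurable_fst.const_sub s)
      (measurable_snd.const_add x)
  · have h := (h4 (s - s') x (x + Real.pi)).comp_add_left x
    simpa using h
  · have h := h3 (s - s') x
    have e := intervalIntegral.integral_comp_add_left (a := 0) (b := Real.pi)
      (fun v => |Real.log (q (s - s') v)|) x
    rw [add_zero] at e
    rw [e]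
    refine h.trans (mul_le_mul_of_nonneg_left ?_ (by linarith))
    have h5 : |s - s'| ≤ |s| + |s'| := abs_sub _ _
    have h6 : |s'| ≤ |H| := by
      rw [abs_of_pos hs'.1]
      exact hs'.2.trans (le_abs_self H)
    linarith

theorem good_log (H : ℝ) : Good H (fun s' x' => Real.log (q s' x')) := by
  obtain ⟨C, hC1, _, _, h3, h4⟩ := t_K1
  refine ⟨?_, ⟨C * (1 + |H|), fun s' hs' => ⟨h4 _ _ _, ?_⟩⟩⟩
  · exact meas_logq (fun p => p.1) (fun p => p.2) measurable_fst measurable_snd
  · have h := h3 s' 0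
    rw [zero_add] at h
    refine h.trans (mul_le_mul_of_nonneg_left ?_ (by linarith))
    have h6 : |s'| ≤ |H| := by
      rw [abs_of_pos hs'.1]
      exact hs'.2.trans (le_abs_self H)
    linarith

theorem q_pos {u : ℝ} (hu : u ≠ 0) (v : ℝ) : 0 < q u v := by
  unfold q
  have h1 := (Real.one_lt_cosh).2 hu
  have h2 := Real.cos_le_one v
  linarith

theorem good_h1 (H : ℝ) : Good H (fun s' x' => h1 s' x') := by
  obtain ⟨C, hC1, h1', _, h3, h4⟩ := t_K1
  refine ⟨meas_h1, ⟨C, fun s' hs' => ⟨?_, ?_⟩⟩⟩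
  · apply Continuous.intervalIntegrable
    unfold h1
    refine continuous_const.div ?_ (fun v => (q_pos hs'.1.ne' v).ne')
    unfold q
    exact continuous_const.sub Real.continuous_cos
  · have h := h1' s' 0 hs'.1.ne'
    rw [zero_add] at h
    exact h

/-- the exceptional set is null -/
theorem count_zeros {f : ℝ → ℝ} (hev : ∀ x, f (-x) = f x) (hper : ∀ x, f (x + 2 * Real.pi) = f x)
    (hanti : ∀ x1 x2 : ℝ, 0 ≤ x1 → x1 < x2 → x2 ≤ Real.pi → f x2 < f x1) :
    {x | f x = 0}.Countable := by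
  have hA : ({x | f x = 0} ∩ Icc 0 Real.pi).Countable := by
    apply Set.Subsingleton.countable
    rintro x ⟨hx0, hx1⟩ y ⟨hy0, hy1⟩
    simp only [mem_ofPred_eq] at hx0 hy0
    rcases lt_trichotomy x y with h | h | h
    · have := hanti x y hx1.1 h hy1.2
      linarith
    · exact h
    · have := hanti y x hy1.1 h hx1.2
      linarith
  have hp : Function.Periodic f (2 * Real.pi) := hper
  have hsub : {x | f x = 0} ⊆ ⋃ k : ℤ,
      (((fun x => x + k * (2 * Real.pi)) '' ({x | f x = 0} ∩ Icc 0 Real.pi)) ∪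
      ((fun x => -x + k * (2 * Real.pi)) '' ({x | f x = 0} ∩ Icc 0 Real.pi))) := by
    intro x hx
    simp only [mem_ofPred_eq] at hx
    obtain ⟨k, hk⟩ : ∃ k : ℤ, k = ⌊(x + Real.pi) / (2 * Real.pi)⌋ := ⟨_, rfl⟩
    have h2pi : 0 < 2 * Real.pi := by linarith [Real.pi_pos]
    have hk1 : (k:ℝ) * (2 * Real.pi) ≤ x + Real.pi := by
      rw [← le_div_iff₀ h2pi, hk]
      exact Int.floor_le _
    have hk2 : x + Real.pi < ((k:ℝ) + 1) * (2 * Real.pi) := by
      rw [← div_lt_iff₀ h2pi, hk]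
      exact Int.lt_floor_add_one _
    obtain ⟨y, hy⟩ : ∃ y, y = x - k * (2 * Real.pi) := ⟨_, rfl⟩
    have hfy : f y = 0 := by
      rw [hy, hp.sub_int_mul_eq k, hx]
    have hy1 : -Real.pi ≤ y := by rw [hy]; linarith
    have hy2 : y ≤ Real.pi := by rw [hy]; nlinarith
    rw [mem_iUnion]
    refine ⟨k, ?_⟩
    by_cases h0 : 0 ≤ y
    · left
      exact ⟨y, ⟨hfy, h0, hy2⟩, by simp only [hy]; ring⟩
    · right
      refine ⟨-y, ⟨by simp only [mem_ofPred_eq, hev, hfy], by linarith, by linarith⟩, ?_⟩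
      simp only [hy]
      ring
  refine Set.Countable.mono hsub ?_
  apply Set.countable_iUnion
  intro k
  exact (hA.image _).union (hA.image _)

/-- null set lemma in polar coordinates -/
theorem null_polar {Z : Set ℂ} (hZ : MeasurableSet Z)
    (h : ∀ r : ℝ, 0 < r → {θ : ℝ | θ ∈ Ioo (-Real.pi) Real.pi ∧
      (r:ℂ) * (Real.cos θ + Real.sin θ * Complex.I) ∈ Z}.Countable) : volume Z = 0 := by
  have h1 : volume Z = ∫⁻ p : ℂ, Z.indicator (fun _ => (1:ENNReal)) p := by
    rw [lintegral_indicator hZ, setLIntegral_one]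
  have hms : Measurable (fun p : ℝ × ℝ => (p.1:ℂ) * (Real.cos p.2 + Real.sin p.2 * Complex.I)) := by
    fun_prop
  obtain ⟨W, hW⟩ : ∃ W : Set (ℝ × ℝ), W = {p | p ∈ polarCoord.target ∧
      (p.1:ℂ) * (Real.cos p.2 + Real.sin p.2 * Complex.I) ∈ Z} := ⟨_, rfl⟩
  have hWm : MeasurableSet W := by
    rw [hW]
    exact polarCoord.open_target.measurableSet.inter (hms hZ)
  have hW0 : volume W = 0 := by
    rw [Measure.volume_eq_prod, Measure.measure_prod_null hWm]
    refine Filter.Eventually.of_forall (fun r => ?_)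
    by_cases hr : 0 < r
    · apply Set.Countable.measure_zero
      refine (h r hr).mono ?_
      intro θ hθ
      simp only [hW, mem_preimage] at hθ
      obtain ⟨h2, h3⟩ := hθ
      exact ⟨h2.2, h3⟩
    · have : Prod.mk r ⁻¹' W = ∅ := by
        rw [Set.eq_empty_iff_forall_notMem]
        intro θ hθ
        simp only [hW, mem_preimage] at hθ
        exact hr hθ.1.1
      show volume (Prod.mk r ⁻¹' W) = 0
      rw [this]
      simp
  rw [h1, ← Complex.lintegral_comp_polarCoord_symm]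
  have h2 : ∀ᵐ p : ℝ × ℝ ∂(volume.restrict polarCoord.target),
      ENNReal.ofReal p.1 • Z.indicator (fun _ => (1:ENNReal)) (Complex.polarCoord.symm p) = 0 := by
    rw [ae_restrict_iff' polarCoord.open_target.measurableSet]
    filter_upwards [measure_eq_zero_iff_ae_notMem.1 hW0] with p hp hpt
    rw [Complex.polarCoord_symm_apply, Set.indicator_of_notMem, smul_zero]
    intro hz
    exact hp (by rw [hW]; exact ⟨hpt, hz⟩)
  rw [lintegral_congr_ae h2, lintegral_zero]

theorem arg_norm_polar {r θ : ℝ} (hr : 0 < r) (hθ : θ ∈ Ioo (-Real.pi) Real.pi) :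
    ‖(r:ℂ) * (Real.cos θ + Real.sin θ * Complex.I)‖ = r ∧
    Complex.arg ((r:ℂ) * (Real.cos θ + Real.sin θ * Complex.I)) = θ := by
  constructor
  · rw [norm_mul, Complex.norm_real, Real.norm_eq_abs, abs_of_pos hr]
    have : ‖((Real.cos θ : ℂ) + (Real.sin θ : ℂ) * Complex.I)‖ = 1 := by
      rw [Complex.ofReal_cos, Complex.ofReal_sin, ← Complex.exp_mul_I]
      exact Complex.norm_exp_ofReal_mul_I θ
    rw [this, mul_one]
  · rw [Complex.ofReal_cos, Complex.ofReal_sin]
    exact Complex.arg_mul_cos_add_sin_mul_I hr ⟨hθ.1, hθ.2.le⟩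

theorem meas_comp (m : ℕ) (F : ℝ → ℝ → ℝ) (hF : Measurable (Function.uncurry F)) :
    Measurable (fun y : ℂ => F (-(m * Real.log ‖y‖)) (m * Complex.arg y)) :=
  hF.comp ((((Real.measurable_log.comp measurable_norm).const_mul (m:ℝ)).neg).prodMk
    (Complex.measurable_arg.const_mul (m:ℝ)))

theorem nullZ (m : ℕ) (H c : ℝ) (σ : ℝ → ℝ → ℝ) (hmR : (1:ℝ) ≤ m) (hc : 0 < c)
    (hfix : Fix m H c σ) (hev : ∀ s x : ℝ, Lop m H σ s (-x) = Lop m H σ s x)
    (hper : ∀ s x : ℝ, Lop m H σ s (x + 2 * Real.pi) = Lop m H σ s x)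
    (Z : Set ℂ) (hZ : Z = {y : ℂ | Real.exp (-(H / m)) < ‖y‖ ∧ ‖y‖ < 1 ∧
      Lop m H σ (-(m * Real.log ‖y‖)) (m * Complex.arg y) = 0}) (hZm : MeasurableSet Z) :
    volume Z = 0 := by
  have hm0 : (0:ℝ) < m := by linarith
  apply null_polar hZm
  intro r hr
  by_cases hr1 : Real.exp (-(H / m)) < r ∧ r < 1
  · have hs1 : 0 < -(m * Real.log r) := by
      have := Real.log_neg hr hr1.2
      nlinarith
    have hs2 : -(m * Real.log r) < H := by
      have h1 : -(H / m) < Real.log r := by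
        rw [← Real.log_exp (-(H / m))]
        exact Real.log_lt_log (Real.exp_pos _) hr1.1
      have h2 : m * (-(H / m)) = -H := by field_simp
      have h3 : m * (-(H / m)) < m * Real.log r := mul_lt_mul_of_pos_left h1 hm0
      linarith
    have hc0 := count_zeros (f := fun x => Lop m H σ (-(m * Real.log r)) x)
      (fun x => hev _ x) (fun x => hper _ x) (by
        intro x1 x2 h0 h12 h2
        have h3 := hfix.lb (-(m * Real.log r)) ⟨hs1.le, hs2.le⟩ x1 x2 h0 h12.le h2
        have h4 : Real.cos x2 < Real.cos x1 :=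
          Real.cos_lt_cos_of_nonneg_of_le_pi h0 h2 h12
        have h5 : 0 < c * (Real.cos x1 - Real.cos x2) := mul_pos hc (by linarith)
        linarith)
    have hc1 := hc0.preimage_of_injOn (f := fun θ : ℝ => (m:ℝ) * θ)
      (fun a _ b _ hab => mul_left_cancel₀ hm0.ne' hab)
    refine hc1.mono ?_
    rintro θ ⟨hθ, hθZ⟩
    rw [hZ] at hθZ
    obtain ⟨_, _, h3⟩ := hθZ
    rw [(arg_norm_polar hr hθ).1, (arg_norm_polar hr hθ).2] at h3
    exact h3
  · have : {θ : ℝ | θ ∈ Ioo (-Real.pi) Real.pi ∧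
        (r:ℂ) * (Real.cos θ + Real.sin θ * Complex.I) ∈ Z} = ∅ := by
      rw [Set.eq_empty_iff_forall_notMem]
      rintro θ ⟨hθ, hθZ⟩
      rw [hZ] at hθZ
      obtain ⟨h1, h2, _⟩ := hθZ
      rw [(arg_norm_polar hr hθ).1] at h1 h2
      exact hr1 ⟨h1, h2⟩
    rw [this]
    exact Set.countable_empty

theorem split (m : ℕ) (H c : ℝ) (σ : ℝ → ℝ → ℝ) (hmR : (1:ℝ) ≤ m) (hH : 0 < H) (hc : 0 < c)
    (hfix : Fix m H c σ) (hev : ∀ s x : ℝ, Lop m H σ s (-x) = Lop m H σ s x)
    (hper : ∀ s x : ℝ, Lop m H σ s (x + 2 * Real.pi) = Lop m H σ s x)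
    (hFc : Continuous (Function.uncurry (Lop m H σ))) (w : ℂ) (hw1 : ‖w‖ ≤ 1) (S : Set ℂ)
    (hSdef : S = {y : ℂ | Real.exp (-(H / m)) < ‖y‖ ∧ ‖y‖ < 1 ∧
      σ (-(m * Real.log ‖y‖)) (m * Complex.arg y) = 1}) :
    psi (Metric.ball (0:ℂ) 1) w = psi (Dom m H σ) w + psi S w := by
  have hm0 : (0:ℝ) < m := by linarith
  have hFm : Measurable (fun y : ℂ => Lop m H σ (-(m * Real.log ‖y‖)) (m * Complex.arg y)) :=
    meas_comp m (Lop m H σ) hFc.measurable
  have hσm : Measurable (fun y : ℂ => σ (-(m * Real.log ‖y‖)) (m * Complex.arg y)) :=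
    meas_comp m σ hfix.meas
  have hDm : MeasurableSet (Dom m H σ) := by
    unfold Dom
    exact (measurableSet_lt measurable_norm measurable_const).inter
      ((measurableSet_lt measurable_norm measurable_const).union
        (measurableSet_lt measurable_const hFm))
  have hSm : MeasurableSet S := by
    rw [hSdef]
    exact (measurableSet_lt measurable_const measurable_norm).inter
      ((measurableSet_lt measurable_norm measurable_const).inter
        (hσm (measurableSet_singleton 1)))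
  have hσ1 : ∀ s x, σ s x = 1 ↔ Lop m H σ s x < 0 := by
    intro s x
    rw [hfix.eq]
    split_ifs with h <;> simp [h]
  have hdisj : Disjoint (Dom m H σ) S := by
    rw [Set.disjoint_left]
    intro y hy hyS
    rw [hSdef] at hyS
    obtain ⟨h1, h2, h3⟩ := hyS
    rw [hσ1] at h3
    rcases hy.2 with h | h
    · exact lt_asymm h h1
    · exact lt_asymm h h3
  have hsubb : Dom m H σ ∪ S ⊆ Metric.ball (0:ℂ) 1 := by
    intro y hy
    rw [mem_ball_zero_iff]
    rcases hy with h | h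
    · exact h.1
    · rw [hSdef] at h
      exact h.2.1
  have hnull : volume (Metric.ball (0:ℂ) 1 \ (Dom m H σ ∪ S)) = 0 := by
    obtain ⟨Z, hZ⟩ : ∃ Z : Set ℂ, Z = {y : ℂ | Real.exp (-(H / m)) < ‖y‖ ∧ ‖y‖ < 1 ∧
      Lop m H σ (-(m * Real.log ‖y‖)) (m * Complex.arg y) = 0} := ⟨_, rfl⟩
    have hZm : MeasurableSet Z := by
      rw [hZ]
      exact (measurableSet_lt measurable_const measurable_norm).inter
        ((measurableSet_lt measurable_norm measurable_const).inter
          (hFm (measurableSet_singleton 0)))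
    have hZ0 : volume Z = 0 := nullZ m H c σ hmR hc hfix hev hper Z hZ hZm
    have hsph : volume (Metric.sphere (0:ℂ) (Real.exp (-(H / m)))) = 0 :=
      Measure.addHaar_sphere volume 0 _
    refine measure_mono_null ?_ (measure_union_null hsph hZ0)
    rintro y ⟨hy1, hy2⟩
    rw [mem_ball_zero_iff] at hy1
    rw [mem_union, not_or] at hy2
    obtain ⟨hyD, hyS⟩ := hy2
    rcases lt_trichotomy ‖y‖ (Real.exp (-(H / m))) with h | h | h
    · exact absurd ⟨hy1, Or.inl h⟩ hyD
    · left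
      rw [mem_sphere_zero_iff_norm]
      exact h
    · right
      rw [hZ]
      refine ⟨h, hy1, ?_⟩
      rcases lt_trichotomy (Lop m H σ (-(m * Real.log ‖y‖)) (m * Complex.arg y)) 0 with h' | h' | h'
      · exact absurd (by rw [hSdef]; exact ⟨h, hy1, (hσ1 _ _).2 h'⟩) hyS
      · exact h'
      · exact absurd ⟨hy1, Or.inr h'⟩ hyD
  have hae : (Metric.ball (0:ℂ) 1 : Set ℂ) =ᵐ[volume] (Dom m H σ ∪ S : Set ℂ) := by
    rw [ae_eq_set]
    refine ⟨hnull, ?_⟩
    rw [Set.sdiff_eq_empty.2 hsubb]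
    simp
  have hint : IntegrableOn (fun y : ℂ => Real.log ‖w - y‖) (Metric.ball (0:ℂ) 1) := by
    have h := t_P4 w 3 (by norm_num)
    have e : (fun y : ℂ => Real.log ‖w - y‖) = fun y : ℂ => Real.log ‖y - w‖ := by
      funext y
      rw [norm_sub_rev]
    rw [e]
    refine h.mono_set ?_
    intro y hy
    rw [mem_ball_zero_iff] at hy
    rw [Metric.mem_ball, dist_eq_norm]
    have := norm_sub_le y w
    linarith
  unfold psi
  rw [setIntegral_congr_set hae, setIntegral_union hdisj hSm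
    (hint.mono_set (subset_union_left.trans hsubb)) (hint.mono_set (subset_union_right.trans hsubb))]
  ring

end Auxplane

/- TARGET, proof in plain words:
D = Dom m H σ, σ = indicator of {Lop < 0}, F := Lop m H σ (even and 2π-periodic in x: t_sym, hence so is σ by Fix.eq; continuous: t_cont with Dat 1 σ).
S := {e^{-H/m} < ‖y‖ < 1, σ(-m log‖y‖)(m arg y) = 1}.  D and S are disjoint subsets of the unit ball, and ball 0 1 \ (D ∪ S) is contained in
 {‖y‖ = e^{-H/m}} ∪ {e^{-H/m} < ‖y‖ < 1, F(-m log‖y‖, m arg y) = 0}.  The first set is null (a sphere); the second is null because for every s in (0,H) the function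
 x ↦ F(s,x) is strictly decreasing on [0,π] (Fix.lb), even, 2π-periodic, so φ ↦ F(s, mφ) has finitely many zeros in (-π,π): in polar coordinates
 (Complex.volume / Complex.polarCoord, measure_zero via Fubini: Measure.measure_prod_null) the set is null.
 y ↦ log‖w-y‖ is integrable on the ball (t_P4; ball 0 1 ⊂ ball w 3), so psi(ball) = psi(D) + psi(S).
 Hence -psi(D) w = -(‖w‖²-1)/4 + psi(S) w (t_disc), and by t_sector (all hypotheses hold), with s = -m log‖w‖, x = m arg w, e^{-2s/m} = ‖w‖²: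
 m² psi(S) w = (1/4π) ∫_0^H om ∫_0^π σ [log q(s-s',x-x') + log q(s-s',x+x') + 2(log 2 - s - s')]
  = F(s,x) + (1/4π) ∫_0^H om ∫_0^π σ [2 log q(s',x') - 2 Am m s (1 + h1 s' x') + 2 log 2 - 2 s']      (ker m s x s' x' = log q + log q - 2 log q(s',x') + 2(Am m s (1+h1) - s))
  = F(s,x) + const - (Am m s/(4π)) kap,   kap = ∫ om ∫ σ 2(1+h1), const independent of w, Am m s = (m/2)(1 - ‖w‖²).
 So -psi(D) w + (Ω/2)‖w‖² = F/m² + const' - ‖w‖²/4 + (kap/(8π m))‖w‖² + (Ω/2)‖w‖², and the ‖w‖² terms cancel for Ω = 1/2 - kap/(4π m).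
 (All integrals are convergent: t_K1, 0 ≤ σ ≤ 1, h1(s',·) bounded in L¹.)
-/
theorem t_plane : S_plane := by
  intro m H c σ hm hH hc hfix
  have hmR : (1:ℝ) ≤ m := by exact_mod_cast hm
  have hm0 : (0:ℝ) < m := by linarith
  have hσ01 : ∀ s x, σ s x = 0 ∨ σ s x = 1 := by
    intro s x
    rw [hfix.eq]
    split_ifs
    · exact Or.inr rfl
    · exact Or.inl rfl
  have hσ : Dat 1 σ := ⟨hfix.meas, fun s x => by
    rcases hσ01 s x with h | h <;> rw [h] <;> simp⟩
  obtain ⟨_, _, hev, hper⟩ := t_sym m H σ hmR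
  obtain ⟨hFc, _, _⟩ := t_cont m H 1 σ hmR hH hσ
  have hσev : ∀ s x, σ s (-x) = σ s x := by
    intro s x
    rw [hfix.eq, hfix.eq, hev]
  have hσper : ∀ s x, σ s (x + 2 * Real.pi) = σ s x := by
    intro s x
    rw [hfix.eq, hfix.eq, hper]
  obtain ⟨E, hE⟩ : ∃ E : ℝ, E = 2 * Auxplane.J m H σ (fun s x => Real.log (q s x))
      + 2 * Real.log 2 * Auxplane.J m H σ (fun _ _ => 1)
      - 2 * Auxplane.J m H σ (fun s _ => s) := ⟨_, rfl⟩
  refine ⟨1 / 4 + E / (4 * Real.pi * m ^ 2) - kap m H σ / (8 * Real.pi * m), fun w hw0 hw1 => ?_⟩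
  have hS := t_sector m H σ hm hH hfix.meas hσ01 hσev hσper w hw0
  have hdisc := t_disc w hw1
  obtain ⟨s, hs⟩ : ∃ s : ℝ, s = -(m * Real.log ‖w‖) := ⟨_, rfl⟩
  obtain ⟨x, hx⟩ : ∃ x : ℝ, x = m * Complex.arg w := ⟨_, rfl⟩
  obtain ⟨S, hSdef⟩ : ∃ S : Set ℂ, S = {y : ℂ | Real.exp (-(H / m)) < ‖y‖ ∧ ‖y‖ < 1 ∧
      σ (-(m * Real.log ‖y‖)) (m * Complex.arg y) = 1} := ⟨_, rfl⟩
  rw [← hSdef] at hS
  rw [← hs, ← hx] at hS ⊢
  -- the splitting
  have hsplit : psi (Metric.ball (0:ℂ) 1) w = psi (Dom m H σ) w + psi S w :=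
    Auxplane.split m H c σ hmR hH hc hfix hev hper hFc w hw1 S hSdef
  -- kernels
  have gK1 := Auxplane.good_log_sub H s x
  have gK2 := Auxplane.good_log_add H s x
  have gK3 := Auxplane.good_log H
  have gh := Auxplane.good_h1 H
  have g1 := Auxplane.good_one H
  have gid := Auxplane.good_id H
  have eSec : Auxplane.J m H σ (fun s' x' => (Real.log (q (s - s') (x - x'))
        + Real.log (q (s - s') (x + x')) + 2 * (Real.log 2 - s - s')))
      = Auxplane.J m H σ (fun s' x' => Real.log (q (s - s') (x - x')))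
        + Auxplane.J m H σ (fun s' x' => Real.log (q (s - s') (x + x')))
        + (2 * (Real.log 2 - s)) * Auxplane.J m H σ (fun _ _ => 1)
        + (-2) * Auxplane.J m H σ (fun s' _ => s') := by
    have e : (fun s' x' => (Real.log (q (s - s') (x - x'))
        + Real.log (q (s - s') (x + x')) + 2 * (Real.log 2 - s - s')))
        = (fun s' x' => ((Real.log (q (s - s') (x - x'))
        + Real.log (q (s - s') (x + x'))) + (2 * (Real.log 2 - s)) * 1) + (-2) * s') := by
      funext s' x'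
      ring
    rw [e, Auxplane.J_add hmR hH hσ ((gK1.add gK2).add (g1.smul _)) (gid.smul _),
      Auxplane.J_add hmR hH hσ (gK1.add gK2) (g1.smul _), Auxplane.J_add hmR hH hσ gK1 gK2,
      Auxplane.J_smul, Auxplane.J_smul]
  have eKer : Auxplane.J m H σ (fun s' x' => ker m s x s' x')
      = Auxplane.J m H σ (fun s' x' => Real.log (q (s - s') (x - x')))
        + Auxplane.J m H σ (fun s' x' => Real.log (q (s - s') (x + x')))
        + (-2) * Auxplane.J m H σ (fun s' x' => Real.log (q s' x'))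
        + (2 * Am m s) * Auxplane.J m H σ (fun s' x' => 1 + h1 s' x')
        + (-2 * s) * Auxplane.J m H σ (fun _ _ => 1) := by
    have e : (fun s' x' => ker m s x s' x')
        = (fun s' x' => ((((Real.log (q (s - s') (x - x'))
        + Real.log (q (s - s') (x + x'))) + (-2) * Real.log (q s' x'))
          + (2 * Am m s) * (1 + h1 s' x')) + (-2 * s) * 1)) := by
      funext s' x'
      unfold ker
      ring
    rw [e, Auxplane.J_add hmR hH hσ (((gK1.add gK2).add (gK3.smul _)).add ((g1.add gh).smul _))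
        (g1.smul _),
      Auxplane.J_add hmR hH hσ ((gK1.add gK2).add (gK3.smul _)) ((g1.add gh).smul _),
      Auxplane.J_add hmR hH hσ (gK1.add gK2) (gK3.smul _), Auxplane.J_add hmR hH hσ gK1 gK2,
      Auxplane.J_smul, Auxplane.J_smul, Auxplane.J_smul]
  have ekap : kap m H σ = 2 * Auxplane.J m H σ (fun s' x' => 1 + h1 s' x') := by
    rw [← Auxplane.J_smul]
    rfl
  have eL : Lop m H σ s x = 1 / (4 * Real.pi) * Auxplane.J m H σ (fun s' x' => ker m s x s' x') :=
    rfl
  have hS' : psi S w = 1 / (4 * Real.pi * m ^ 2) *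
      Auxplane.J m H σ (fun s' x' => (Real.log (q (s - s') (x - x'))
        + Real.log (q (s - s') (x + x')) + 2 * (Real.log 2 - s - s'))) := hS
  have hwpos : 0 < ‖w‖ := norm_pos_iff.2 hw0
  have eAm : Am m s = m / 2 * (1 - ‖w‖ ^ 2) := by
    unfold Am
    congr 2
    have : -(2 * s / m) = Real.log ‖w‖ + Real.log ‖w‖ := by
      rw [hs]
      field_simp
      ring
    rw [this, Real.exp_add, Real.exp_log hwpos]
    ring
  have hpsiD : psi (Dom m H σ) w = (‖w‖ ^ 2 - 1) / 4 - psi S w := by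
    rw [← hdisc, hsplit]
    ring
  rw [hpsiD, hS', eSec, eL, eKer, ekap, eAm, hE]
  have hpi := Real.pi_pos
  field_simp
  ring

end Pool.Agent.H682_VS
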