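import Pool.Agent.H682_VS.Stmts
import Pool.Agent.H682_VS.Sym
import Pool.Agent.H682_VS.T_cont
import Pool.Agent.H682_VS.T_Ls
import Pool.Agent.H682_VS.T_plane
import Pool.Agent.H682_VS.T_psi

/-! # vsC -/

set_option autoImplicit false

open MeasureTheory Set Filter Topology

namespace Pool.Agent.H682_VS


namespace AuxvsC

/-- reduction of the angle to `[0, π]` -/
theorem red {F : ℝ → ℝ} (hev : ∀ x, F (-x) = F x) (hper : ∀ x, F (x + 2 * Real.pi) = F x)
    (x : ℝ) : F x = F (Real.arccos (Real.cos x)) := by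
  have hp : Function.Periodic F (2 * Real.pi) := hper
  have hcos : Real.cos (Real.arccos (Real.cos x)) = Real.cos x :=
    Real.cos_arccos (Real.neg_one_le_cos x) (Real.cos_le_one x)
  generalize Real.arccos (Real.cos x) = y at hcos
  obtain ⟨k, hk | hk⟩ := Real.cos_eq_cos_iff.1 hcos
  · rw [hk, show 2 * (k : ℝ) * Real.pi + y = y + k * (2 * Real.pi) by ring]
    exact hp.int_mul k y
  · rw [hk, show 2 * (k : ℝ) * Real.pi - y = -y + k * (2 * Real.pi) by ring]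
    exact (hp.int_mul k (-y)).trans (hev y)

theorem F_zero {m H c : ℝ} {σ : ℝ → ℝ → ℝ} (hm : 1 ≤ m) (hF : Fix m H c σ) {s : ℝ}
    (hs : s ∈ Icc (0 : ℝ) H) (x : ℝ) :
    c * (1 - Real.cos x) ≤ Lop m H σ s 0 - Lop m H σ s x := by
  obtain ⟨-, -, hev, hper⟩ := t_sym m H σ hm
  rw [red (F := fun y => Lop m H σ s y) (hev s) (hper s) x]
  have h := hF.lb s hs 0 (Real.arccos (Real.cos x)) le_rfl (Real.arccos_nonneg _)
    (Real.arccos_le_pi _)
  rw [Real.cos_arccos (Real.neg_one_le_cos x) (Real.cos_le_one x), Real.cos_zero] at h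
  exact h

theorem F_mono {m H c : ℝ} {σ : ℝ → ℝ → ℝ} (hm : 1 ≤ m) (hc : 0 < c) (hF : Fix m H c σ) {s : ℝ}
    (hs : s ∈ Icc (0 : ℝ) H) {x1 x2 : ℝ} (h12 : |x1| ≤ |x2|) (h2 : |x2| ≤ Real.pi) :
    Lop m H σ s x2 ≤ Lop m H σ s x1 := by
  obtain ⟨-, -, hev, -⟩ := t_sym m H σ hm
  have habs : ∀ x, Lop m H σ s |x| = Lop m H σ s x := by
    intro x
    rcases abs_cases x with ⟨h, -⟩ | ⟨h, -⟩
    · rw [h]
    · rw [h, hev]
  have h := hF.lb s hs |x1| |x2| (abs_nonneg _) h12 h2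
  have hcos := Real.cos_le_cos_of_nonneg_of_le_pi (abs_nonneg x1) h2 h12
  have h3 : 0 ≤ c * (Real.cos |x1| - Real.cos |x2|) := mul_nonneg hc.le (by linarith)
  rw [habs, habs] at h
  linarith

theorem dat {m H c : ℝ} {σ : ℝ → ℝ → ℝ} (hF : Fix m H c σ) : Dat 1 σ := by
  refine ⟨hF.meas, fun s x => ?_⟩
  rw [hF.eq]
  split_ifs <;> norm_num

theorem mem_dom {m H : ℝ} {σ : ℝ → ℝ → ℝ} {w : ℂ} : w ∈ Dom m H σ ↔
    ‖w‖ < 1 ∧ (‖w‖ < Real.exp (-(H / m)) ∨
      0 < Lop m H σ (-(m * Real.log ‖w‖)) (m * Complex.arg w)) := Iff.rfl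

theorem dom_meas {m H c : ℝ} {σ : ℝ → ℝ → ℝ} (hm : 1 ≤ m) (hH : 0 < H) (hF : Fix m H c σ) :
    MeasurableSet (Dom m H σ) := by
  obtain ⟨hc, -, -⟩ := t_cont m H 1 σ hm hH (dat hF)
  have h1 : Measurable fun w : ℂ => Lop m H σ (-(m * Real.log ‖w‖)) (m * Complex.arg w) :=
    hc.measurable.comp (f := fun w : ℂ => (-(m * Real.log ‖w‖), m * Complex.arg w))
      (((measurable_norm.log.const_mul m).neg).prodMk (Complex.measurable_arg.const_mul m))
  exact (measurableSet_lt measurable_norm measurable_const).inter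
    ((measurableSet_lt measurable_norm measurable_const).union
      (measurableSet_lt measurable_const h1))

theorem dom_sub {m H : ℝ} {σ : ℝ → ℝ → ℝ} : Dom m H σ ⊆ Metric.ball 0 1 := fun w hw =>
  mem_ball_zero_iff.2 hw.1

theorem dom_sym {m H : ℝ} {σ : ℝ → ℝ → ℝ} (hm : 1 ≤ m) (w : ℂ) :
    w ∈ Dom m H σ ↔ (starRingEnd ℂ) w ∈ Dom m H σ := by
  obtain ⟨-, -, hev, -⟩ := t_sym m H σ hm
  rw [mem_dom, mem_dom, Complex.norm_conj, Complex.arg_conj]
  split_ifs with h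
  · rw [h]
  · rw [show m * -Complex.arg w = -(m * Complex.arg w) by ring, hev]

theorem norm_te {t θ : ℝ} (ht : 0 < t) : ‖(t : ℂ) * Complex.exp (θ * Complex.I)‖ = t := by
  rw [norm_mul, Complex.norm_exp_ofReal_mul_I, mul_one, Complex.norm_real, Real.norm_eq_abs,
    abs_of_pos ht]

theorem arg_te {t θ : ℝ} (ht : 0 < t) (h : |θ| < Real.pi) :
    Complex.arg ((t : ℂ) * Complex.exp (θ * Complex.I)) = θ := by
  rw [Complex.arg_real_mul _ ht, Complex.exp_mul_I]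
  obtain ⟨h1, h2⟩ := abs_lt.1 h
  exact Complex.arg_cos_add_sin_mul_I ⟨h1, h2.le⟩

theorem grad0 {D : Set ℂ} (hD : MeasurableSet D) (hb : Bornology.IsBounded D) (Ω c0 : ℝ) :
    HasDerivAt (fun t : ℝ => -psi D (t : ℂ) + Ω / 2 * t ^ 2 - c0)
      (-((1 / (2 * Real.pi)) * (cau D 1).re) + Ω) 1 := by
  obtain ⟨h, -⟩ := t_psi D hD hb
  have h1 : HasDerivAt (fun t : ℝ => psi D (t : ℂ)) ((1 / (2 * Real.pi)) * (cau D 1).re) 1 := by
    have h2 := (h ((1 : ℝ) : ℂ)).comp_hasDerivAt (1 : ℝ) (Complex.ofRealCLM.hasDerivAt (x := (1 : ℝ)))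
    have e : (1 / (2 * Real.pi)) * (cau D 1).re = ((1 / (2 * Real.pi)) •
        (Complex.reCLM.comp (ContinuousLinearMap.mul ℝ ℂ (cau D ((1 : ℝ) : ℂ)))))
          (Complex.ofRealCLM 1) := by
      simp
    rw [e]
    exact h2
  have h3 : HasDerivAt (fun t : ℝ => Ω / 2 * t ^ 2) Ω 1 := by
    have h4 := (hasDerivAt_pow 2 (1 : ℝ)).const_mul (Ω / 2)
    have e : Ω = Ω / 2 * (((2 : ℕ) : ℝ) * (1 : ℝ) ^ (2 - 1)) := by norm_num
    rw [← e] at h4
    exact h4
  exact (h1.neg.add h3).sub_const c0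

end AuxvsC

/- TARGET, proof in plain words:
Notation: D = Dom m H σ, F = Lop m H σ (continuous: t_cont with Dat 1 σ — σ is measurable with values 0, 1 by Fix; even and 2π-periodic in x: t_sym), Ω = 1/2 - kap m H σ/(4πm), c0 from t_plane (t_plane needs m ≥ 1, H, c > 0, Fix),
 f(w) = -psi D w + Ω/2 ‖w‖² - c0, continuous on ℂ (t_psi: psi D is differentiable, once D is measurable and bounded).
(R) For s in [0,H] and every real x: F(s,π) ≤ F(s,x) ≤ F(s,0) (Fix.lb on [0,π], cos decreasing; then evenness and periodicity: every real x is ± x0 + 2πk with x0 in [0,π]);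
    for |x| ≤ π: F(s,0) - F(s,x) ≥ c(1 - cos x).
(M) D is measurable: F is continuous, w ↦ ‖w‖, log‖w‖, arg w measurable.
(P) t_plane: for w ≠ 0, ‖w‖ ≤ 1: f(w) = F(-m log‖w‖, m arg w)/m².  So for w ≠ 0, ‖w‖ < 1: w ∈ D iff ‖w‖ < e^{-H/m} or 0 < f(w).
(C) if e^{-H/m} ≥ ‖w‖ then w ∈ D: for ‖w‖ < e^{-H/m} by definition (H > 0 so e^{-H/m} < 1); for ‖w‖ = e^{-H/m}: -m log‖w‖ = H, F(H, ·) ≥ F(H,π) > 0 (Fix.core, (R)).
(B) if ‖w‖ = 1 then f(w) = F(0, m arg w)/m² ≤ F(0,0)/m² = 0 ((R), t_sym).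
Cor D Ω c0 c1 d with c1 = 2c/π² and d > 0 small: d < 1/2, m d ≤ π, 1 - 2d > e^{-H/m}.
 meas (M); sub: D ⊂ ball 0 1; Ωpos: kap < 2πm; 
 sym: arg (conj w) = -arg w unless arg w = π (then w is real and conj w = w); F even.
 val: f(1) = F(0,0)/m² = 0 (P) at w = 1 (log 1 = 0, arg 1 = 0), t_sym.
 grad: the function t ↦ f(t) (t real, 1-2d < t ≤ 1) equals F(-m log t, 0)/m², so its left derivative at t = 1 is ∂_sF(0,0)·(-m)/m² = 0 (t_Ls, t_sym: Ls m H σ 0 0 = 0); on the other hand t_psi gives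
  d/dt f(t) at 1 = -(1/2π) Re(cau D 1) + Ω.  Uniqueness of one-sided derivatives: (1/2π) Re cau D 1 = Ω.
 loc: ‖w-1‖ < 2d implies ‖w‖ > 1 - 2d > e^{-H/m}, w ≠ 0; use (P).
 mono: w_i = t e^{iθ_i}, 1-d < t < 1, |θ1| ≤ |θ2| < d ≤ π/m: ‖w_i‖ = t > e^{-H/m}, arg w_i = θ_i, s = -m log t in (0,H), F(s, mθ1) ≥ F(s, mθ2) (Fix.lb with |mθ_i| ≤ π, evenness).
 hopf: |θ| < d: f(e^{iθ}) = F(0,mθ)/m² ≤ -(c/m²)(1 - cos(mθ)) ≤ -(c/m²)·(2/π²)(mθ)² = -(2c/π²)θ² (F(0,0) = 0; 1 - cos y = 2 sin²(y/2) ≥ 2y²/π² for |y| ≤ π, Jordan: Real.cos_le_one_sub_mul_cos_sq /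
  Real.mul_le_sin).  Note ‖e^{iθ}‖ = 1, arg e^{iθ} = θ.
-/
theorem t_vsC : ∀ (m : ℕ) (H c : ℝ) (σ : ℝ → ℝ → ℝ), 1 ≤ m → 0 < H → 0 < c → Fix m H c σ →
    kap m H σ < 2 * Real.pi * m →
    ∃ c0 c1 d : ℝ, Cor (Dom m H σ) (1 / 2 - kap m H σ / (4 * Real.pi * m)) c0 c1 d := by
  intro mn H c σ hm hH hc hF hkap
  have hm1 : (1 : ℝ) ≤ mn := by exact_mod_cast hm
  obtain ⟨c0, hc0⟩ := t_plane mn H c σ hm hH hc hF
  set m : ℝ := (mn : ℝ) with hmdef
  have hm0 : 0 < m := by linarith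
  have hpi := Real.pi_pos
  set Ω : ℝ := 1 / 2 - kap m H σ / (4 * Real.pi * m) with hΩ
  obtain ⟨hF00, hLs00, hev, hper⟩ := t_sym m H σ hm1
  have hexp : Real.exp (-(H / m)) < 1 := by
    rw [Real.exp_lt_one_iff]
    have : 0 < H / m := by positivity
    linarith
  have hexp0 : 0 < Real.exp (-(H / m)) := Real.exp_pos _
  -- the choice of d
  set d : ℝ := min (1 / 4) (min (Real.pi / m) ((1 - Real.exp (-(H / m))) / 4)) with hd
  have hd0 : 0 < d := by
    refine lt_min (by norm_num) (lt_min (by positivity) ?_)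
    linarith
  have hd1 : d ≤ 1 / 4 := min_le_left _ _
  have hd2 : d ≤ Real.pi / m := (min_le_right _ _).trans (min_le_left _ _)
  have hd3 : d ≤ (1 - Real.exp (-(H / m))) / 4 := (min_le_right _ _).trans (min_le_right _ _)
  have hd2' : m * d ≤ Real.pi := by
    rw [le_div_iff₀ hm0] at hd2
    linarith
  have hdpi : d < Real.pi := by
    have := Real.pi_gt_three
    linarith
  have hlog : ∀ t : ℝ, Real.exp (-(H / m)) < t → t ≤ 1 → -(m * Real.log t) ∈ Icc (0 : ℝ) H := by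
    intro t ht ht1
    have ht0 : 0 < t := hexp0.trans ht
    constructor
    · have h1 := Real.log_nonpos ht0.le ht1
      have h2 : m * Real.log t ≤ 0 := mul_nonpos_of_nonneg_of_nonpos hm0.le h1
      linarith
    · have h1 : -(H / m) ≤ Real.log t := by
        rw [Real.le_log_iff_exp_le ht0]
        exact ht.le
      have h2 : m * (-(H / m)) ≤ m * Real.log t := mul_le_mul_of_nonneg_left h1 hm0.le
      have h3 : m * (-(H / m)) = -H := by field_simp
      linarith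
  refine ⟨c0, 2 * c / Real.pi ^ 2, d, ?_⟩
  refine ⟨AuxvsC.dom_meas hm1 hH hF, AuxvsC.dom_sub, ?_, by positivity, hd0, by linarith,
    fun w => AuxvsC.dom_sym hm1 w, ?_, ?_, ?_, ?_, ?_⟩
  · -- Ω
    rw [hΩ, sub_pos, div_lt_iff₀ (by positivity)]
    linarith
  · -- val
    have h := hc0 1 one_ne_zero (by simp)
    rw [norm_one, Real.log_one, Complex.arg_one, mul_zero, neg_zero, hF00, zero_div] at h
    linarith
  · -- grad
    have hg := AuxvsC.grad0 (AuxvsC.dom_meas hm1 hH hF)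
      (Metric.isBounded_ball.subset AuxvsC.dom_sub) Ω c0
    have hG : HasDerivAt (fun t : ℝ => Lop m H σ (-(m * Real.log t)) 0 / m ^ 2) 0 1 := by
      have h1 := t_Ls m H 1 σ hm1 hH (AuxvsC.dat hF) (-(m * Real.log 1)) 0
      have h2 : HasDerivAt (fun t : ℝ => -(m * Real.log t)) (-(m * (1 : ℝ)⁻¹)) 1 :=
        ((Real.hasDerivAt_log one_ne_zero).const_mul m).neg
      have h3 := (h1.comp (1 : ℝ) h2).div_const (m ^ 2)
      rw [Real.log_one, mul_zero, neg_zero, hLs00, zero_mul, zero_div] at h3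
      exact h3
    have heq : (fun t : ℝ => -psi (Dom m H σ) (t : ℂ) + Ω / 2 * t ^ 2 - c0) =ᶠ[𝓝[Iic 1] 1]
        fun t : ℝ => Lop m H σ (-(m * Real.log t)) 0 / m ^ 2 := by
      have h1 : ∀ᶠ t : ℝ in 𝓝[Iic 1] 1, 0 < t :=
        mem_nhdsWithin_of_mem_nhds (lt_mem_nhds one_pos)
      filter_upwards [h1, self_mem_nhdsWithin] with t ht ht1
      have ht1' : t ≤ 1 := ht1
      have h := hc0 (t : ℂ) (by exact_mod_cast ht.ne') (by
        rw [Complex.norm_real, Real.norm_eq_abs, abs_of_pos ht]; exact ht1')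
      rw [Complex.norm_real, Real.norm_eq_abs, abs_of_pos ht, Complex.arg_ofReal_of_nonneg ht.le,
        mul_zero] at h
      exact h
    have hu : UniqueDiffWithinAt ℝ (Iic (1 : ℝ)) 1 := uniqueDiffOn_Iic 1 1 (mem_Iic.2 le_rfl)
    have h1 := hg.hasDerivWithinAt (s := Iic (1 : ℝ))
    have h2 := (hG.hasDerivWithinAt (s := Iic (1 : ℝ))).congr_of_eventuallyEq heq
      (heq.eq_of_nhdsWithin (mem_Iic.2 le_rfl))
    have h3 := hu.eq_deriv _ h1 h2
    linarith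
  · -- loc
    intro w hw
    have hn : 1 - 2 * d < ‖w‖ := by
      have h1 := norm_sub_norm_le (1 : ℂ) w
      rw [norm_one, ← norm_neg (1 - w), neg_sub] at h1
      linarith
    have hn2 : Real.exp (-(H / m)) < ‖w‖ := by linarith
    have hw0 : w ≠ 0 := by
      intro h
      rw [h, norm_zero] at hn2
      linarith
    rw [AuxvsC.mem_dom]
    constructor
    · rintro ⟨h1, h2 | h2⟩
      · linarith
      · refine ⟨h1, ?_⟩
        rw [hc0 w hw0 h1.le]
        positivity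
    · rintro ⟨h1, h2⟩
      refine ⟨h1, Or.inr ?_⟩
      rw [hc0 w hw0 h1.le] at h2
      by_contra h3
      push Not at h3
      have : Lop m H σ (-(m * Real.log ‖w‖)) (m * Complex.arg w) / m ^ 2 ≤ 0 :=
        div_nonpos_of_nonpos_of_nonneg h3 (by positivity)
      linarith
  · -- mono
    intro t θ1 θ2 ht ht1 h12 h2 hmem
    have ht0 : 0 < t := by linarith
    have hte : Real.exp (-(H / m)) < t := by linarith
    have h2pi : |θ2| < Real.pi := h2.trans hdpi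
    have h1pi : |θ1| < Real.pi := h12.trans_lt h2pi
    rw [AuxvsC.mem_dom, AuxvsC.norm_te ht0, AuxvsC.arg_te ht0 h2pi] at hmem
    rw [AuxvsC.mem_dom, AuxvsC.norm_te ht0, AuxvsC.arg_te ht0 h1pi]
    obtain ⟨-, h3 | h3⟩ := hmem
    · linarith
    · refine ⟨ht1, Or.inr (h3.trans_le ?_)⟩
      apply AuxvsC.F_mono hm1 hc hF (hlog t hte ht1.le)
      · rw [abs_mul, abs_mul]
        exact mul_le_mul_of_nonneg_left h12 (abs_nonneg _)
      · rw [abs_mul, abs_of_pos hm0]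
        exact (mul_le_mul_of_nonneg_left h2.le hm0.le).trans hd2'
  · -- hopf
    intro θ hθ
    have hθpi : |θ| < Real.pi := hθ.trans hdpi
    have hn : ‖Complex.exp (θ * Complex.I)‖ = 1 := Complex.norm_exp_ofReal_mul_I θ
    have ha : Complex.arg (Complex.exp (θ * Complex.I)) = θ := by
      have := AuxvsC.arg_te one_pos hθpi
      rwa [Complex.ofReal_one, one_mul] at this
    have h := hc0 (Complex.exp (θ * Complex.I)) (Complex.exp_ne_zero _) hn.le
    rw [hn, ha, Real.log_one, mul_zero, neg_zero, one_pow, mul_one] at h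
    rw [h]
    have h1 := AuxvsC.F_zero hm1 hF (s := 0) ⟨le_rfl, hH.le⟩ (m * θ)
    rw [hF00] at h1
    have h2 : |m * θ| ≤ Real.pi := by
      rw [abs_mul, abs_of_pos hm0]
      exact (mul_le_mul_of_nonneg_left hθ.le hm0.le).trans hd2'
    have h3 := Real.cos_le_one_sub_mul_cos_sq h2
    have h4 : c * (2 / Real.pi ^ 2 * (m * θ) ^ 2) ≤ c * (1 - Real.cos (m * θ)) :=
      mul_le_mul_of_nonneg_left (by linarith) hc.le
    rw [div_le_iff₀ (by positivity)]
    have h5 : -(2 * c / Real.pi ^ 2) * θ ^ 2 * m ^ 2 = -(c * (2 / Real.pi ^ 2 * (m * θ) ^ 2)) := by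
      ring
    rw [h5]
    linarith

end Pool.Agent.H682_VS
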