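import Pool.Agent.H682_VS.Stmts
import Pool.Agent.H682_VS.Sym
import Pool.Agent.H682_VS.T_cont
import Pool.Agent.H682_VS.T_Ls
import Pool.Agent.H682_VS.T_plane
import Pool.Agent.H682_VS.T_psi

/-! # vsV -/

set_option autoImplicit false

open MeasureTheory Set Filter Topology

namespace Pool.Agent.H682_VS


namespace AuxvsV

theorem dat {m H c : ℝ} {σ : ℝ → ℝ → ℝ} (hF : Fix m H c σ) : Dat 1 σ where
  meas := hF.meas
  bdd := by
    intro s x
    rw [hF.eq s x]
    split_ifs <;> simp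

theorem red (x : ℝ) : ∃ x0 ∈ Icc (0:ℝ) Real.pi, ∃ k : ℤ,
    x = x0 + k * (2 * Real.pi) ∨ x = -x0 + k * (2 * Real.pi) := by
  have hpi := Real.pi_pos
  set k : ℤ := round (x / (2 * Real.pi)) with hk
  have h1 : |x / (2 * Real.pi) - k| ≤ 1 / 2 := abs_sub_round (x / (2 * Real.pi))
  have h2 : x / (2 * Real.pi) - k = (x - k * (2 * Real.pi)) / (2 * Real.pi) := by
    field_simp
  have h3 : |x - k * (2 * Real.pi)| ≤ Real.pi := by
    rw [h2, abs_div, abs_of_pos (by positivity : (0:ℝ) < 2 * Real.pi),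
      div_le_iff₀ (by positivity)] at h1
    linarith
  refine ⟨|x - k * (2 * Real.pi)|, ⟨abs_nonneg _, h3⟩, k, ?_⟩
  rcases abs_cases (x - k * (2 * Real.pi)) with ⟨h, _⟩ | ⟨h, _⟩
  · left; rw [h]; ring
  · right; rw [h]; ring

theorem redF {m H : ℝ} {σ : ℝ → ℝ → ℝ} (hm : 1 ≤ m) (s x : ℝ) :
    ∃ x0 ∈ Icc (0:ℝ) Real.pi, Lop m H σ s x = Lop m H σ s x0 := by
  obtain ⟨_, _, heven, hper⟩ := t_sym m H σ hm
  obtain ⟨x0, hx0, k, hk⟩ := red x
  have hP : Function.Periodic (fun y => Lop m H σ s y) (2 * Real.pi) := fun y => hper s y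
  have hPk := hP.int_mul k
  refine ⟨x0, hx0, ?_⟩
  rcases hk with hk | hk
  · rw [hk]; exact hPk x0
  · rw [hk, ← heven s x0]; exact hPk (-x0)

theorem rng {m H c : ℝ} {σ : ℝ → ℝ → ℝ} (hm : 1 ≤ m) (hc : 0 < c) (hF : Fix m H c σ)
    {s : ℝ} (hs : s ∈ Icc (0:ℝ) H) (x : ℝ) :
    Lop m H σ s Real.pi ≤ Lop m H σ s x ∧ Lop m H σ s x ≤ Lop m H σ s 0 := by
  obtain ⟨x0, hx0, he⟩ := redF (H := H) (σ := σ) hm s x
  rw [he]
  constructor
  · have h := hF.lb s hs x0 Real.pi hx0.1 hx0.2 le_rfl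
    have h2 : 0 ≤ c * (Real.cos x0 - Real.cos Real.pi) := by
      have := Real.neg_one_le_cos x0
      rw [Real.cos_pi]
      exact mul_nonneg hc.le (by linarith)
    linarith
  · have h := hF.lb s hs 0 x0 le_rfl hx0.1 hx0.2
    have h2 : 0 ≤ c * (Real.cos 0 - Real.cos x0) := by
      have := Real.cos_le_one x0
      rw [Real.cos_zero]
      exact mul_nonneg hc.le (by linarith)
    linarith

theorem meas {m H c : ℝ} {σ : ℝ → ℝ → ℝ} (hm : 1 ≤ m) (hH : 0 < H) (hF : Fix m H c σ) :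
    MeasurableSet (Dom m H σ) := by
  have hcont := (t_cont m H 1 σ hm hH (dat hF)).1
  have hmF : Measurable (fun w : ℂ => Lop m H σ (-(m * Real.log ‖w‖)) (m * Complex.arg w)) := by
    have h1 : Measurable (fun w : ℂ => ((-(m * Real.log ‖w‖), m * Complex.arg w) : ℝ × ℝ)) := by
      refine Measurable.prodMk ?_ ?_
      · exact ((Real.measurable_log.comp measurable_norm).const_mul m).neg
      · exact Complex.measurable_arg.const_mul m
    have h2 : Measurable (Function.uncurry (Lop m H σ)) := hcont.measurable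
    have h3 : (fun w : ℂ => Lop m H σ (-(m * Real.log ‖w‖)) (m * Complex.arg w)) =
        (Function.uncurry (Lop m H σ)) ∘
          (fun w : ℂ => ((-(m * Real.log ‖w‖), m * Complex.arg w) : ℝ × ℝ)) := by
      funext w
      rfl
    rw [h3]
    exact Measurable.comp h2 h1
  have h2 : Dom m H σ = {w : ℂ | ‖w‖ < 1} ∩ ({w : ℂ | ‖w‖ < Real.exp (-(H / m))} ∪
      {w : ℂ | 0 < Lop m H σ (-(m * Real.log ‖w‖)) (m * Complex.arg w)}) := by
    ext w
    rfl
  rw [h2]
  refine (measurableSet_lt measurable_norm measurable_const).inter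
    ((measurableSet_lt measurable_norm measurable_const).union
      (measurableSet_lt measurable_const hmF))

theorem sub_ball (m H : ℝ) (σ : ℝ → ℝ → ℝ) : Dom m H σ ⊆ Metric.ball (0:ℂ) 1 := by
  intro w hw
  rw [mem_ball_zero_iff]
  exact hw.1

end AuxvsV

/- TARGET, proof in plain words:
Notation: D = Dom m H σ, F = Lop m H σ (continuous: t_cont with Dat 1 σ — σ is measurable with values 0, 1 by Fix; even and 2π-periodic in x: t_sym), Ω = 1/2 - kap m H σ/(4πm), c0 from t_plane (t_plane needs m ≥ 1, H, c > 0, Fix),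
 f(w) = -psi D w + Ω/2 ‖w‖² - c0, continuous on ℂ (t_psi: psi D is differentiable, once D is measurable and bounded).
(R) For s in [0,H] and every real x: F(s,π) ≤ F(s,x) ≤ F(s,0) (Fix.lb on [0,π], cos decreasing; then evenness and periodicity: every real x is ± x0 + 2πk with x0 in [0,π]);
    for |x| ≤ π: F(s,0) - F(s,x) ≥ c(1 - cos x).
(M) D is measurable: F is continuous, w ↦ ‖w‖, log‖w‖, arg w measurable.
(P) t_plane: for w ≠ 0, ‖w‖ ≤ 1: f(w) = F(-m log‖w‖, m arg w)/m².  So for w ≠ 0, ‖w‖ < 1: w ∈ D iff ‖w‖ < e^{-H/m} or 0 < f(w).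
(C) if e^{-H/m} ≥ ‖w‖ then w ∈ D: for ‖w‖ < e^{-H/m} by definition (H > 0 so e^{-H/m} < 1); for ‖w‖ = e^{-H/m}: -m log‖w‖ = H, F(H, ·) ≥ F(H,π) > 0 (Fix.core, (R)).
(B) if ‖w‖ = 1 then f(w) = F(0, m arg w)/m² ≤ F(0,0)/m² = 0 ((R), t_sym).
IsVState:
 isOpen: D = ball 0 1 ∩ (ball 0 e^{-H/m} ∪ ({0}ᶜ ∩ {w | 0 < f w})) by (P), open.   bounded: D ⊂ ball 0 1.   nonempty: 0 ∈ D (‖0‖ = 0 < e^{-H/m}).
 const_on_components: show f = 0 on frontier D; then psi D w - Ω/2‖w‖² = -c0 for all w in frontier D, which gives the claim (y ∈ connectedComponentIn (frontier D) x implies y ∈ frontier D: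
 connectedComponentIn_subset).
 Let w ∈ frontier D = closure D \ D (D open).  ‖w‖ ≤ 1 (closure of ball).  w ∉ D so ‖w‖ > e^{-H/m} by (C).  Points w' ∈ D near w have ‖w'‖ > e^{-H/m}, ‖w'‖ < 1 so f(w') > 0; by continuity f(w) ≥ 0.
 If ‖w‖ = 1: f(w) ≤ 0 by (B).  If ‖w‖ < 1: w ∉ D and (P) give f(w) ≤ 0.  So f(w) = 0.
-/
theorem t_vsV : ∀ (m : ℕ) (H c : ℝ) (σ : ℝ → ℝ → ℝ), 1 ≤ m → 0 < H → 0 < c → Fix m H c σ →
    IsVState (Dom m H σ) (1 / 2 - kap m H σ / (4 * Real.pi * m)) := by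
  intro m H c σ hm hH hc hF
  have hmr : (1:ℝ) ≤ (m:ℝ) := by exact_mod_cast hm
  have hm0 : (0:ℝ) < (m:ℝ) := by linarith
  obtain ⟨c0, hP⟩ := t_plane m H c σ hm hH hc hF
  have hmeas := AuxvsV.meas hmr hH hF
  have hbdd : Bornology.IsBounded (Dom m H σ) := Metric.isBounded_ball.subset (AuxvsV.sub_ball _ _ _)
  obtain ⟨hpsi, _⟩ := t_psi (Dom m H σ) hmeas hbdd
  have hpc : Continuous (psi (Dom m H σ)) :=
    continuous_iff_continuousAt.2 (fun w => (hpsi w).continuousAt)
  set Ω : ℝ := 1 / 2 - kap m H σ / (4 * Real.pi * m) with hΩ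
  set f : ℂ → ℝ := fun w => -psi (Dom m H σ) w + Ω / 2 * ‖w‖ ^ 2 - c0 with hf
  have hfc : Continuous f := by
    have := hpc
    fun_prop
  have hE : Real.exp (-(H / m)) < 1 := by
    rw [Real.exp_lt_one_iff]
    have : 0 < H / m := by positivity
    linarith
  have hfP : ∀ w : ℂ, w ≠ 0 → ‖w‖ ≤ 1 →
      f w = Lop m H σ (-(m * Real.log ‖w‖)) (m * Complex.arg w) / m ^ 2 := by
    intro w h0 h1
    exact hP w h0 h1
  -- membership
  have hmem : ∀ w : ℂ, w ≠ 0 → ‖w‖ < 1 →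
      (w ∈ Dom m H σ ↔ (‖w‖ < Real.exp (-(H / m)) ∨ 0 < f w)) := by
    intro w h0 h1
    rw [hfP w h0 h1.le]
    constructor
    · rintro ⟨_, h | h⟩
      · exact Or.inl h
      · right; positivity
    · rintro (h | h)
      · exact ⟨h1, Or.inl h⟩
      · refine ⟨h1, Or.inr ?_⟩
        have h3 : (0:ℝ) < (m:ℝ) ^ 2 := by positivity
        exact (div_pos_iff_of_pos_right h3).1 h
  -- core
  have hcore : ∀ w : ℂ, ‖w‖ ≤ Real.exp (-(H / m)) → w ∈ Dom m H σ := by
    intro w hw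
    refine ⟨lt_of_le_of_lt hw hE, ?_⟩
    rcases lt_or_eq_of_le hw with h | h
    · exact Or.inl h
    · right
      have h1 : -((m:ℝ) * Real.log ‖w‖) = H := by
        rw [h, Real.log_exp]
        field_simp
      rw [h1]
      exact lt_of_lt_of_le hF.core (AuxvsV.rng hmr hc hF ⟨hH.le, le_rfl⟩ _).1
  have hbd : ∀ w : ℂ, ‖w‖ = 1 → f w ≤ 0 := by
    intro w hw
    have h0 : w ≠ 0 := by
      intro h
      rw [h, norm_zero] at hw
      exact zero_ne_one hw
    rw [hfP w h0 hw.le, hw, Real.log_one, mul_zero, neg_zero]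
    have h1 := (AuxvsV.rng hmr hc hF (s := 0) ⟨le_rfl, hH.le⟩ (m * Complex.arg w)).2
    have h2 := (t_sym m H σ hmr).1
    rw [h2] at h1
    exact div_nonpos_of_nonpos_of_nonneg h1 (by positivity)
  have hopen : IsOpen (Dom m H σ) := by
    have h : Dom m H σ = {w : ℂ | ‖w‖ < 1} ∩ ({w : ℂ | ‖w‖ < Real.exp (-(H / m))} ∪
        ({(0:ℂ)}ᶜ ∩ {w : ℂ | 0 < f w})) := by
      ext w
      constructor
      · intro hw
        refine ⟨hw.1, ?_⟩
        by_cases h0 : w = 0
        · left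
          simp only [mem_ofPred_eq, h0, norm_zero]
          exact Real.exp_pos _
        · rcases (hmem w h0 hw.1).1 hw with h | h
          · exact Or.inl h
          · exact Or.inr ⟨h0, h⟩
      · rintro ⟨h1, h | ⟨h0, h⟩⟩
        · exact ⟨h1, Or.inl h⟩
        · exact (hmem w h0 h1).2 (Or.inr h)
    rw [h]
    refine (isOpen_lt continuous_norm continuous_const).inter
      ((isOpen_lt continuous_norm continuous_const).union
        (isOpen_compl_singleton.inter (isOpen_lt continuous_const hfc)))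
  have hfr : ∀ w ∈ frontier (Dom m H σ), f w = 0 := by
    intro w hw
    rw [hopen.frontier_eq] at hw
    obtain ⟨hwc, hwn⟩ := hw
    have hw1 : ‖w‖ ≤ 1 := by
      have h := closure_mono (AuxvsV.sub_ball m H σ) hwc
      have h2 := Metric.closure_ball_subset_closedBall h
      rwa [mem_closedBall_zero_iff] at h2
    have hwE : Real.exp (-(H / m)) < ‖w‖ := by
      by_contra hcon
      exact hwn (hcore w (not_lt.1 hcon))
    have hw0 : w ≠ 0 := by
      intro h
      rw [h, norm_zero] at hwE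
      exact absurd hwE (not_lt.2 (Real.exp_pos _).le)
    have hge : 0 ≤ f w := by
      by_contra hneg
      push Not at hneg
      have hU : IsOpen ({z : ℂ | f z < 0} ∩ {z : ℂ | Real.exp (-(H / m)) < ‖z‖}) :=
        (isOpen_lt hfc continuous_const).inter (isOpen_lt continuous_const continuous_norm)
      obtain ⟨z, ⟨hz1, hz2⟩, hzD⟩ := (mem_closure_iff.1 hwc) _ hU ⟨hneg, hwE⟩
      have hz0 : z ≠ 0 := by
        intro h
        simp only [mem_ofPred_eq, h, norm_zero] at hz2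
        exact absurd hz2 (not_lt.2 (Real.exp_pos _).le)
      have hz1' : f z < 0 := hz1
      have hz2' : Real.exp (-(H / m)) < ‖z‖ := hz2
      rcases (hmem z hz0 hzD.1).1 hzD with h | h
      · linarith
      · linarith
    rcases lt_or_eq_of_le hw1 with h | h
    · have : ¬ (0 < f w) := fun h3 => hwn ((hmem w hw0 h).2 (Or.inr h3))
      linarith [not_lt.1 this]
    · linarith [hbd w h]
  refine ⟨hopen, hbdd, ⟨0, hcore 0 (by rw [norm_zero]; exact (Real.exp_pos _).le)⟩, ?_⟩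
  intro x hx y hy
  have hy2 : y ∈ frontier (Dom m H σ) := connectedComponentIn_subset _ _ hy
  have e1 : f x = 0 := hfr x hx
  have e2 : f y = 0 := hfr y hy2
  simp only [hf] at e1 e2
  linarith

end Pool.Agent.H682_VS
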