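import Pool.Agent.H682_VS.Assembly
import Pool.Agent.H682_VS.ArcsE
import Pool.Agent.H682_VS.T_blow
import Pool.Agent.H682_VS.T_vsV
import Pool.Agent.H682_VS.T_vsC
import Pool.Agent.H682_VS.T_disc
import Pool.Agent.H682_VS.T_sectorb
import Pool.Agent.H682_VS.T_exist
import Pool.Agent.H682_VS.T_shallow
import Pool.Agent.H682_VS.T_core
import Pool.Agent.H682_VS.T_force
import Pool.Agent.H682_VS.T_unif
import Pool.Agent.H682_VS.T_limit

/-! # the final assembly -/

set_option autoImplicit false

open MeasureTheory Set Filter Topology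

namespace Pool.Agent.H682_VS

theorem t_strip : S_strip :=
  strip_of t_exist t_shallow t_core t_force t_unif t_limit t_kap

theorem t_corner : S_corner := corner_of t_psi t_grad t_blow t_arcs

theorem t_vstate : S_vstate := fun m H c σ hm hH hc hF hk =>
  ⟨t_vsV m H c σ hm hH hc hF, t_vsC m H c σ hm hH hc hF hk⟩

theorem t_final : S_final := final_of t_strip t_vstate t_corner

end Pool.Agent.H682_VS
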