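import Pool.Agent.H682_VS.Defs

/-!
# Statements of the project (each `S_...` is a proposition; task files prove `theorem t_... : S_...`)
-/

set_option autoImplicit false

open MeasureTheory Set Filter Topology

namespace Pool.Agent.H682_VS

/-! ## A. kernel calculus on the strip -/

/-- A1: `|h1|`, `|h2|`, `|log q|` integrated over a window of length `π`. -/
def S_K1 : Prop := ∃ C : ℝ, 1 ≤ C ∧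
  (∀ u a : ℝ, u ≠ 0 → ∫ v in a..(a + Real.pi), |h1 u v| ≤ C) ∧
  (∀ u a : ℝ, u ≠ 0 → ∫ v in a..(a + Real.pi), |h2 u v| ≤ C * (1 + abs (Real.log (abs u)))) ∧
  (∀ u a : ℝ, ∫ v in a..(a + Real.pi), |Real.log (q u v)| ≤ C * (1 + |u|)) ∧
  (∀ u a b : ℝ, IntervalIntegrable (fun v => Real.log (q u v)) volume a b)

/-- A2 -/
def S_Lx : Prop := ∀ (m H B : ℝ) (σ : ℝ → ℝ → ℝ), 1 ≤ m → 0 < H → Dat B σ → ∀ s x : ℝ,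
  HasDerivAt (fun y => Lop m H σ s y) (Lx m H σ s x) x

/-- A3 -/
def S_Ls : Prop := ∀ (m H B : ℝ) (σ : ℝ → ℝ → ℝ), 1 ≤ m → 0 < H → Dat B σ → ∀ s x : ℝ,
  HasDerivAt (fun y => Lop m H σ y x) (Ls m H σ s x) s

/-- A4 -/
def S_bound : Prop := ∀ m H R : ℝ, 1 ≤ m → 0 < H → 0 < R → ∃ C > (0:ℝ), ∀ (B : ℝ) (σ : ℝ → ℝ → ℝ),
  Dat B σ → ∀ s ∈ Icc (-R) R, ∀ x : ℝ,
    |Lop m H σ s x| ≤ C * B ∧ |Lx m H σ s x| ≤ C * B ∧ |Ls m H σ s x| ≤ C * B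

/-- A5 -/
def S_cont : Prop := ∀ (m H B : ℝ) (σ : ℝ → ℝ → ℝ), 1 ≤ m → 0 < H → Dat B σ →
  Continuous (Function.uncurry (Lop m H σ)) ∧ Measurable (Function.uncurry (Lx m H σ)) ∧
    Measurable (Function.uncurry (Ls m H σ))

/-- A6 -/
def S_lin : Prop := ∀ (m H B1 B2 : ℝ) (σ1 σ2 : ℝ → ℝ → ℝ), 1 ≤ m → 0 < H → Dat B1 σ1 → Dat B2 σ2 →
  ∀ s x : ℝ, Lop m H (fun s x => σ1 s x - σ2 s x) s x = Lop m H σ1 s x - Lop m H σ2 s x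

/-- A7 -/
def S_sym : Prop := ∀ (m H : ℝ) (σ : ℝ → ℝ → ℝ), 1 ≤ m →
  Lop m H σ 0 0 = 0 ∧ Ls m H σ 0 0 = 0 ∧ (∀ s x : ℝ, Lop m H σ s (-x) = Lop m H σ s x) ∧
    (∀ s x : ℝ, Lop m H σ s (x + 2 * Real.pi) = Lop m H σ s x)

/-- A8: monotone data have a nonincreasing potential. -/
def S_mono : Prop := ∀ (m H B : ℝ) (σ : ℝ → ℝ → ℝ), 1 ≤ m → 0 < H → Dat B σ →
  (∀ s' ∈ Ioo (0:ℝ) H, MonotoneOn (σ s') (Icc 0 Real.pi)) →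
  ∀ s : ℝ, ∀ x ∈ Icc (0:ℝ) Real.pi, Lx m H σ s x ≤ 0

/-- A9: integration by parts in `x'`. -/
def S_ibp : Prop := ∀ (m H C : ℝ) (σ σx : ℝ → ℝ → ℝ), 1 ≤ m → 0 < H → Dat 1 σ →
  Measurable (Function.uncurry σx) → (∀ s ∈ Icc (0:ℝ) H, ∀ x ∈ Icc (0:ℝ) Real.pi, |σx s x| ≤ C) →
  (∀ s ∈ Icc (0:ℝ) H, ∀ x ∈ Icc (0:ℝ) Real.pi, HasDerivAt (σ s) (σx s x) x) →
  ∀ s x : ℝ, Lx m H σ s x = -((1 / (4 * Real.pi)) * ∫ s' in (0:ℝ)..H, om m s' *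
    ∫ x' in (0:ℝ)..Real.pi, σx s' x' * Real.log (q (s - s') (x + x') / q (s - s') (x - x')))

/-! ## B. existence for the regularised problem (Schauder) -/

def S_exist : Prop := ∀ m H ε : ℝ, 1 ≤ m → 0 < H → 0 < ε → ε ≤ 1 → ∃ σ : ℝ → ℝ → ℝ, Sol m H ε σ

/-! ## C. basic facts on solutions -/

def S_sol : Prop := ∀ (m H ε : ℝ) (σ : ℝ → ℝ → ℝ), 1 ≤ m → 0 < H → 0 < ε → ε ≤ 1 → Sol m H ε σ →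
  Dat 1 σ ∧ (∀ s x, 0 ≤ σ s x) ∧
  (∀ s x, HasDerivAt (fun y => Fe m H ε σ s y) (-We m H ε σ s x) x) ∧
  (∀ s x, HasDerivAt (fun y => Fe m H ε σ y x) (Fs m H ε σ s x) s) ∧
  (∀ s x, HasDerivAt (σ s) (sx m H ε σ s x) x) ∧
  Measurable (Function.uncurry (We m H ε σ)) ∧ Measurable (Function.uncurry (Fs m H ε σ)) ∧
  Measurable (Function.uncurry (sx m H ε σ)) ∧
  (∃ C, ∀ s ∈ Icc (0:ℝ) H, ∀ x, |We m H ε σ s x| ≤ C ∧ |Fs m H ε σ s x| ≤ C ∧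
    |sx m H ε σ s x| ≤ C) ∧
  (∀ s, ∀ x ∈ Icc (0:ℝ) Real.pi, ε * (Real.exp (-s) * Real.sin x) ≤ We m H ε σ s x) ∧
  (∀ s, ∀ x ∈ Icc (0:ℝ) Real.pi, 0 ≤ sx m H ε σ s x) ∧
  Fe m H ε σ 0 0 = 0 ∧ Continuous (Function.uncurry (Fe m H ε σ)) ∧
  (∀ x ∈ Icc (0:ℝ) Real.pi, Fe m H ε σ 0 x ≤ 0) ∧
  (∀ s x, We m H ε σ s x = ε * (Real.exp (-s) * Real.sin x) + (1 / (4 * Real.pi)) *
    ∫ s' in (0:ℝ)..H, om m s' * ∫ x' in (0:ℝ)..Real.pi, sx m H ε σ s' x' *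
      Real.log (q (s - s') (x + x') / q (s - s') (x - x')))

/-! ## D. stability -/

def S_stab : Prop := ∀ (m H ε : ℝ) (σ : ℝ → ℝ → ℝ), 6 ≤ m → 3 ≤ H → 0 < ε → ε ≤ 1 →
  Sol m H ε σ →
  ∫ s in (0:ℝ)..2, om m s * ∫ x in (1:ℝ)..2, dbet (Fe m H ε σ s x / ε) / ε ≤ 50

/-! ## E. shallow mass -/

/-- E1 -/
def S_h1small : Prop := ∃ C1 : ℝ, 1 ≤ C1 ∧ ∀ (t N a b lam : ℝ) (σ : ℝ → ℝ → ℝ), 0 ≤ t → 3 ≤ N →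
  Measurable (Function.uncurry σ) → (∀ s x, 0 ≤ σ s x ∧ σ s x ≤ 1) →
  ∫ s' in (0:ℝ)..t, ∫ x' in (0:ℝ)..Real.pi, σ s' x' ≤ lam →
  ∫ s' in (0:ℝ)..t, ∫ x' in (0:ℝ)..Real.pi, σ s' x' * |h1 (a - s') (b - x')| ≤ N * lam + C1 / N

/-- E2: the crossing argument -/
def S_cross : Prop := ∀ (m H ε η : ℝ) (σ : ℝ → ℝ → ℝ), 6 ≤ m → 3 ≤ H → 0 < ε → ε ≤ 1 →
  Sol m H ε σ → (∀ s ∈ Icc (0:ℝ) 2, ∀ x ∈ Icc (1:ℝ) 2, |Fs m H ε σ s x| ≤ η) →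
  1 / 2 ≤ 100 * η + (1 / 2) * ∫ s in (0:ℝ)..2, ∫ x in (0:ℝ)..Real.pi, σ s x

/-- E3: bound of `Fs` on the window -/
def S_Fsbound : Prop := ∃ C1 : ℝ, 1 ≤ C1 ∧ ∀ (m H ε t N lam : ℝ) (σ : ℝ → ℝ → ℝ), 6 ≤ m → 3 ≤ t →
  t ≤ H → 0 < ε → ε ≤ 1 → 3 ≤ N → Sol m H ε σ →
  ∫ s' in (0:ℝ)..t, ∫ x' in (0:ℝ)..Real.pi, σ s' x' ≤ lam →
  ∀ s ∈ Icc (0:ℝ) 2, ∀ x ∈ Icc (1:ℝ) 2, 4 * Real.pi * |Fs m H ε σ s x| ≤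
    8 * Real.pi * ε + 4 * (N * lam + C1 / N) + 8 * lam / m
      + Real.pi * H * (40 * Real.exp (2 - t) + 16 / m)

/-- E4 -/
def S_shallow : Prop := ∃ lam0 > (0:ℝ), ∃ eta1 > (0:ℝ), ∃ e1 > (0:ℝ), ∀ (m H ε t : ℝ)
  (σ : ℝ → ℝ → ℝ), 6 ≤ m → 3 ≤ t → t ≤ H → 0 < ε → ε ≤ e1 → ε ≤ 1 → Sol m H ε σ →
  Real.pi * H * (40 * Real.exp (2 - t) + 16 / m) ≤ eta1 →
  lam0 ≤ ∫ s in (0:ℝ)..t, ∫ x in (0:ℝ)..Real.pi, σ s x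

/-! ## F. the core is inactive -/

def S_core : Prop := ∀ lam0 eta1 : ℝ, 0 < lam0 → 0 < eta1 → ∃ H t : ℝ, 3 ≤ t ∧ t ≤ H ∧ ∃ m0 e0 : ℝ,
  6 ≤ m0 ∧ 0 < e0 ∧ ∀ m : ℝ, m0 ≤ m → Real.pi * H * (40 * Real.exp (2 - t) + 16 / m) ≤ eta1 ∧
  ∀ (ε : ℝ) (σ : ℝ → ℝ → ℝ), 0 < ε → ε ≤ e0 → ε ≤ 1 → Sol m H ε σ →
    lam0 ≤ ∫ s in (0:ℝ)..t, ∫ x in (0:ℝ)..Real.pi, σ s x → 1 ≤ Fe m H ε σ H Real.pi

/-! ## G. force identity -/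

def S_force : Prop := ∀ lam0 H t : ℝ, 0 < lam0 → 3 ≤ t → t ≤ H → ∃ c5 > (0:ℝ), ∃ m0 : ℝ, 6 ≤ m0 ∧
  ∀ m : ℝ, m0 ≤ m → ∃ e0 > (0:ℝ), ∀ (ε : ℝ) (σ : ℝ → ℝ → ℝ), 0 < ε → ε ≤ e0 → ε ≤ 1 →
    Sol m H ε σ → lam0 ≤ ∫ s in (0:ℝ)..t, ∫ x in (0:ℝ)..Real.pi, σ s x →
    c5 ≤ -Fe m H ε σ 0 Real.pi

/-! ## H. uniform strict monotonicity -/

def S_unif : Prop := ∀ m H c5 : ℝ, 1 ≤ m → 0 < H → 0 < c5 → ∃ c7 > (0:ℝ), ∃ e0 > (0:ℝ),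
  ∀ (ε : ℝ) (σ : ℝ → ℝ → ℝ), 0 < ε → ε ≤ e0 → ε ≤ 1 → Sol m H ε σ →
    c5 ≤ -Fe m H ε σ 0 Real.pi →
    ∀ s ∈ Icc (0:ℝ) H, ∀ x1 x2 : ℝ, 0 ≤ x1 → x1 ≤ x2 → x2 ≤ Real.pi →
      c7 * (Real.cos x1 - Real.cos x2) ≤ Fe m H ε σ s x1 - Fe m H ε σ s x2

/-! ## I. the limit -/

def S_limit : Prop := ∀ m H c7 e0 : ℝ, 1 ≤ m → 0 < H → 0 < c7 → 0 < e0 →
  (∀ ε : ℝ, 0 < ε → ε ≤ e0 → ∃ σ : ℝ → ℝ → ℝ, Sol m H ε σ ∧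
    (∀ s ∈ Icc (0:ℝ) H, ∀ x1 x2 : ℝ, 0 ≤ x1 → x1 ≤ x2 → x2 ≤ Real.pi →
      c7 * (Real.cos x1 - Real.cos x2) ≤ Fe m H ε σ s x1 - Fe m H ε σ s x2) ∧
    1 ≤ Fe m H ε σ H Real.pi) →
  ∃ σ : ℝ → ℝ → ℝ, Fix m H c7 σ

/-! ## J. the value of `Ω` -/

def S_kap : Prop := ∃ C : ℝ, ∀ (m H : ℝ) (σ : ℝ → ℝ → ℝ), 1 ≤ m → 0 < H →
  Measurable (Function.uncurry σ) → (∀ s x, 0 ≤ σ s x ∧ σ s x ≤ 1) → kap m H σ ≤ C * H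

/-! ## K. plane -/

/-- K1: potential of the unit disc -/
def S_disc : Prop := ∀ w : ℂ, ‖w‖ ≤ 1 → psi (Metric.ball (0:ℂ) 1) w = (‖w‖ ^ 2 - 1) / 4

/-- K2: potential of an `m`-fold symmetric subset of an annulus in log-polar coordinates.
`σ` is the indicator function; it is even and `2π`-periodic in the second variable. -/
def S_sector : Prop := ∀ (m : ℕ) (H : ℝ) (σ : ℝ → ℝ → ℝ), 1 ≤ m → 0 < H →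
  Measurable (Function.uncurry σ) → (∀ s x, σ s x = 0 ∨ σ s x = 1) →
  (∀ s x, σ s (-x) = σ s x) → (∀ s x, σ s (x + 2 * Real.pi) = σ s x) → ∀ w : ℂ, w ≠ 0 →
  psi {y : ℂ | Real.exp (-(H / m)) < ‖y‖ ∧ ‖y‖ < 1 ∧
      σ (-(m * Real.log ‖y‖)) (m * Complex.arg y) = 1} w
    = (1 / (4 * Real.pi * m ^ 2)) * ∫ s' in (0:ℝ)..H, om m s' * ∫ x' in (0:ℝ)..Real.pi, σ s' x' *
      (Real.log (q (-(m * Real.log ‖w‖) - s') (m * Complex.arg w - x'))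
        + Real.log (q (-(m * Real.log ‖w‖) - s') (m * Complex.arg w + x'))
        + 2 * (Real.log 2 - (-(m * Real.log ‖w‖)) - s'))

/-- K3 -/
def S_plane : Prop := ∀ (m : ℕ) (H c : ℝ) (σ : ℝ → ℝ → ℝ), 1 ≤ m → 0 < H → 0 < c →
  Fix m H c σ → ∃ c0 : ℝ, ∀ w : ℂ, w ≠ 0 → ‖w‖ ≤ 1 →
  -psi (Dom m H σ) w + (1 / 2 - kap m H σ / (4 * Real.pi * m)) / 2 * ‖w‖ ^ 2 - c0
    = Lop m H σ (-(m * Real.log ‖w‖)) (m * Complex.arg w) / m ^ 2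

/-! ## L. planar potential theory -/

/-- `∫_D dy/(w-y)` -/
noncomputable def cau (D : Set ℂ) (w : ℂ) : ℂ := ∫ y in D, (w - y)⁻¹

/-- L1 -/
def S_psi : Prop := ∀ D : Set ℂ, MeasurableSet D → Bornology.IsBounded D →
  (∀ w : ℂ, HasFDerivAt (psi D)
    ((1 / (2 * Real.pi)) • (Complex.reCLM.comp (ContinuousLinearMap.mul ℝ ℂ (cau D w)))) w) ∧
  Continuous (cau D)

/-! ## M. corner theorem -/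

/-- the strain at distance `r` -/
noncomputable def aD (D : Set ℂ) (r : ℝ) : ℝ :=
  (1 / (2 * Real.pi)) * ∫ y in D \ Metric.ball 1 (2 * r), (((1 - y) ^ 2)⁻¹).re

/-- the strain measured by circular arcs -/
noncomputable def bD (D : Set ℂ) (d r : ℝ) : ℝ :=
  (1 / (2 * Real.pi)) * ∫ y in {y | y ∈ D ∧ 1 - d < ‖y‖ ∧ ‖y‖ < 1 - r ∧ |Complex.arg y| < d},
    (y / (1 - y) ^ 2).re

/-- the standing assumptions near the point `1` -/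
structure Cor (D : Set ℂ) (Ω c c1 d : ℝ) : Prop where
  meas : MeasurableSet D
  sub : D ⊆ Metric.ball 0 1
  Ωpos : 0 < Ω
  c1pos : 0 < c1
  dpos : 0 < d
  dlt : d < 1 / 2
  sym : ∀ w : ℂ, w ∈ D ↔ (starRingEnd ℂ) w ∈ D
  val : -psi D 1 + Ω / 2 - c = 0
  grad : (1 / (2 * Real.pi)) * (cau D 1).re = Ω
  loc : ∀ w : ℂ, ‖w - 1‖ < 2 * d → (w ∈ D ↔ ‖w‖ < 1 ∧ 0 < -psi D w + Ω / 2 * ‖w‖ ^ 2 - c)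
  mono : ∀ t θ1 θ2 : ℝ, 1 - d < t → t < 1 → |θ1| ≤ |θ2| → |θ2| < d →
    (t * Complex.exp (θ2 * Complex.I) ∈ D) → (t * Complex.exp (θ1 * Complex.I) ∈ D)
  hopf : ∀ θ : ℝ, |θ| < d → -psi D (Complex.exp (θ * Complex.I)) + Ω / 2 - c ≤ -c1 * θ ^ 2

/-- M1 -/
def S_grad : Prop := ∀ D : Set ℂ, MeasurableSet D → D ⊆ Metric.ball 0 1 →
  (∀ w : ℂ, w ∈ D ↔ (starRingEnd ℂ) w ∈ D) → ∃ C0 > (0:ℝ), ∀ w : ℂ, ‖w - 1‖ ≤ 1 / 2 →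
  ‖-(1 / (2 * Real.pi) : ℂ) * (cau D w - cau D 1) - (aD D ‖w - 1‖ : ℂ) * (w - 1)‖
    ≤ C0 * ‖w - 1‖

/-- M2 -/
def S_ab : Prop := ∀ (D : Set ℂ) (d : ℝ), MeasurableSet D → D ⊆ Metric.ball 0 1 → 0 < d →
  d < 1 / 2 → ∃ C : ℝ, ∀ r : ℝ, 0 < r → r < d → |aD D r - bD D d r| ≤ C

/-- M3: arcs -/
def S_bmono : Prop := ∀ (D : Set ℂ) (d : ℝ), MeasurableSet D → D ⊆ Metric.ball 0 1 → 0 < d →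
  d < 1 / 2 →
  (∀ t θ1 θ2 : ℝ, 1 - d < t → t < 1 → |θ1| ≤ |θ2| → |θ2| < d →
    (t * Complex.exp (θ2 * Complex.I) ∈ D) → (t * Complex.exp (θ1 * Complex.I) ∈ D)) →
  (∀ r1 r2 : ℝ, 0 < r1 → r1 ≤ r2 → r2 < d → bD D d r2 ≤ bD D d r1) ∧
  ∀ K : ℝ, 0 < K → ∃ cK > (0:ℝ), ∀ r1 r2 : ℝ, 0 < r1 → r1 ≤ r2 → r2 < d →
    (∀ y ∈ D, 1 - r2 < ‖y‖ → |Complex.arg y| < d → |Complex.arg y| ≤ K * (1 - ‖y‖)) →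
    cK / r2 ^ 2 * (volume {y | y ∈ D ∧ 1 - r2 < ‖y‖ ∧ ‖y‖ < 1 - r1 ∧
      |Complex.arg y| < d}).toReal ≤ bD D d r1 - bD D d r2

/-- M4 -/
def S_claim1 : Prop := ∀ (D : Set ℂ) (Ω c c1 d A : ℝ), Cor D Ω c c1 d →
  (∀ r : ℝ, 0 < r → r < d → |aD D r| ≤ A) → ∃ K > (0:ℝ), ∃ δ > (0:ℝ), ∀ y ∈ D, ‖y - 1‖ < δ →
    |Complex.arg y| ≤ K * (1 - ‖y‖)

/-- M5 -/
def S_claim2 : Prop := ∀ (D : Set ℂ) (Ω c c1 d A : ℝ), Cor D Ω c c1 d →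
  (∀ r : ℝ, 0 < r → r < d → |aD D r| ≤ A) → ∃ R ≥ (1:ℝ), ∃ κ > (0:ℝ), ∃ δ > (0:ℝ), ∀ r : ℝ,
    0 < r → r < δ → κ * r ^ 2 ≤ (volume (D ∩ Metric.ball 1 (R * r))).toReal

/-- M6 -/
def S_blow : Prop := ∀ (D : Set ℂ) (Ω c c1 d : ℝ), Cor D Ω c c1 d →
  Tendsto (aD D) (𝓝[>] 0) atTop

/-- M7: pure calculus: a saddle with divergent strain has a right angle. -/
def S_arcs : Prop := ∀ (D : Set ℂ) (f : ℂ → ℝ) (g : ℂ → ℂ) (a : ℝ → ℝ) (C0 d : ℝ), 0 < d →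
  Continuous g →
  (∀ w : ℂ, HasFDerivAt f (Complex.reCLM.comp (ContinuousLinearMap.mul ℝ ℂ (g w))) w) →
  f 1 = 0 → Tendsto a (𝓝[>] 0) atTop →
  (∀ w : ℂ, ‖w - 1‖ < d → ‖g w - (a ‖w - 1‖ : ℂ) * (w - 1)‖ ≤ C0 * ‖w - 1‖) →
  (∀ w : ℂ, ‖w - 1‖ < d → (w ∈ D ↔ ‖w‖ < 1 ∧ 0 < f w)) → IsRightCorner D 1

/-! ## Targets -/

/-- corner theorem -/
def S_corner : Prop := ∀ (D : Set ℂ) (Ω c c1 d : ℝ), Cor D Ω c c1 d → IsRightCorner D 1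

/-- strip theorem -/
def S_strip : Prop := ∃ (m : ℕ) (H c : ℝ) (σ : ℝ → ℝ → ℝ), 1 ≤ m ∧ 0 < H ∧ 0 < c ∧
  Fix m H c σ ∧ kap m H σ < 2 * Real.pi * m

/-- the domain of a solution of the limit problem is a V-state and satisfies the assumptions of
the corner theorem -/
def S_vstate : Prop := ∀ (m : ℕ) (H c : ℝ) (σ : ℝ → ℝ → ℝ), 1 ≤ m → 0 < H → 0 < c →
  Fix m H c σ → kap m H σ < 2 * Real.pi * m →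
  IsVState (Dom m H σ) (1 / 2 - kap m H σ / (4 * Real.pi * m)) ∧
  ∃ c0 c1 d : ℝ, Cor (Dom m H σ) (1 / 2 - kap m H σ / (4 * Real.pi * m)) c0 c1 d

def S_final : Prop := ∃ (D : Set ℂ) (Ω : ℝ) (p : ℂ), IsVState D Ω ∧ IsRightCorner D p

end Pool.Agent.H682_VS
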