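import Pool.Agent.H682_VS.Stmts

/-! # K1a -/

set_option autoImplicit false

open MeasureTheory Set Filter Topology

namespace Pool.Agent.H682_VS


namespace AuxK1a

theorem q_half (u v : ℝ) : q u v = 2 * Real.sinh (u / 2) ^ 2 + 2 * Real.sin (v / 2) ^ 2 := by
  have h1 := Real.cosh_two_mul (u / 2)
  have h2 := Real.cosh_sq (u / 2)
  have h3 := Real.cos_two_mul (v / 2)
  have h4 := Real.sin_sq_add_cos_sq (v / 2)
  have e1 : 2 * (u / 2) = u := by ring
  have e2 : 2 * (v / 2) = v := by ring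
  rw [e1] at h1
  rw [e2] at h3
  unfold q
  rw [h1, h3, h2]
  linarith

theorem sinh_half_ne {u : ℝ} (hu : u ≠ 0) : Real.sinh (u / 2) ≠ 0 := by
  intro h
  apply hu
  have := Real.sinh_eq_zero.1 h
  linarith

theorem q_pos (u v : ℝ) (hu : u ≠ 0) : 0 < q u v := by
  have h2 := sinh_half_ne hu
  rw [q_half]
  positivity

theorem calc_bound (S c t w : ℝ) (hS : 0 < S) (hc : c ≤ 1 + S) (hw : 0 ≤ w) (hwt : w ≤ t) :
    2 * S * c / (2 * (S ^ 2 + t)) ≤ S / (S ^ 2 + w) + 1 := by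
  have ht : 0 ≤ t := hw.trans hwt
  have e1 : 2 * S * c / (2 * (S ^ 2 + t)) = S * c / (S ^ 2 + t) := by
    have : S ^ 2 + t ≠ 0 := by positivity
    field_simp
  have e2 : S * c / (S ^ 2 + t) ≤ S * (1 + S) / (S ^ 2 + w) :=
    div_le_div₀ (by positivity) (mul_le_mul_of_nonneg_left hc hS.le) (by positivity)
      (by linarith)
  have e3 : S * (1 + S) / (S ^ 2 + w) = S / (S ^ 2 + w) + S ^ 2 / (S ^ 2 + w) := by
    rw [← add_div]
    ring_nf
  have e4 : S ^ 2 / (S ^ 2 + w) ≤ 1 := (div_le_one (by positivity)).2 (by linarith)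
  rw [e1]
  linarith

theorem bound (u v : ℝ) (hu : u ≠ 0) (hv : |v| ≤ Real.pi) :
    |h1 u v| ≤ |Real.sinh (u / 2)| / (|Real.sinh (u / 2)| ^ 2 + (v / Real.pi) ^ 2) + 1 := by
  have hpi := Real.pi_pos
  have hS : 0 < |Real.sinh (u / 2)| := abs_pos.2 (sinh_half_ne hu)
  have hsinh : |Real.sinh u| = 2 * |Real.sinh (u / 2)| * Real.cosh (u / 2) := by
    have h1 := Real.sinh_two_mul (u / 2)
    have e1 : 2 * (u / 2) = u := by ring
    rw [e1] at h1
    rw [h1, abs_mul, abs_mul, abs_of_pos (Real.cosh_pos (u / 2)),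
      abs_of_pos (by norm_num : (0:ℝ) < 2)]
  have hc : Real.cosh (u / 2) ≤ 1 + |Real.sinh (u / 2)| := by
    have h2 := Real.cosh_sq (u / 2)
    have h3 := Real.cosh_pos (u / 2)
    rw [← sq_abs (Real.sinh (u / 2))] at h2
    nlinarith
  have hsin : (v / Real.pi) ^ 2 ≤ Real.sin (v / 2) ^ 2 := by
    have h1 : |v / 2| ≤ Real.pi / 2 := by
      rw [abs_div, abs_of_pos (by norm_num : (0:ℝ) < 2)]
      linarith
    have h2 := Real.mul_abs_le_abs_sin h1
    have h3 : 2 / Real.pi * |v / 2| = |v / Real.pi| := by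
      rw [abs_div, abs_div, abs_of_pos (by norm_num : (0:ℝ) < 2), abs_of_pos hpi]
      field_simp
    rw [h3] at h2
    exact sq_le_sq.2 h2
  have hq : q u v = 2 * (|Real.sinh (u / 2)| ^ 2 + Real.sin (v / 2) ^ 2) := by
    rw [q_half, sq_abs]
    ring
  unfold h1
  rw [abs_div, abs_of_pos (q_pos u v hu), hsinh, hq]
  exact calc_bound _ _ _ _ hS hc (sq_nonneg _) hsin

theorem cont (u : ℝ) (hu : u ≠ 0) : Continuous fun v => |h1 u v| := by
  unfold h1
  refine (continuous_const.div ?_ fun v => (q_pos u v hu).ne').abs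
  unfold q
  fun_prop

theorem per (u : ℝ) : Function.Periodic (fun v => |h1 u v|) (2 * Real.pi) := by
  intro v
  simp only [h1, q, Real.cos_add_two_pi]

theorem int_bound (S : ℝ) (hS : 0 < S) :
    ∫ v in (-Real.pi)..Real.pi, (S / (S ^ 2 + (v / Real.pi) ^ 2) + 1) ≤
      Real.pi ^ 2 + 2 * Real.pi := by
  have hpi := Real.pi_pos
  have hd : ∀ v ∈ uIcc (-Real.pi) Real.pi, HasDerivAt
      (fun v => Real.pi * Real.arctan (v / (Real.pi * S)) + v)
      (S / (S ^ 2 + (v / Real.pi) ^ 2) + 1) v := by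
    intro v _
    have h1 : HasDerivAt (fun v : ℝ => v / (Real.pi * S)) (1 / (Real.pi * S)) v :=
      (hasDerivAt_id v).div_const _
    have h2 := ((h1.arctan).const_mul Real.pi).add (hasDerivAt_id v)
    refine h2.congr_deriv ?_
    have e1 : S ^ 2 + (v / Real.pi) ^ 2 ≠ 0 := by positivity
    have e2 : 1 + (v / (Real.pi * S)) ^ 2 ≠ 0 := by positivity
    have e3 : 1 + (v / (Real.pi * S)) ^ 2 = (S ^ 2 + (v / Real.pi) ^ 2) / S ^ 2 := by
      field_simp
    rw [e3]
    field_simp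
  have hc : Continuous fun v : ℝ => S / (S ^ 2 + (v / Real.pi) ^ 2) + 1 := by
    refine (continuous_const.div ?_ fun v => ?_).add continuous_const
    · fun_prop
    · positivity
  rw [intervalIntegral.integral_eq_sub_of_hasDerivAt hd (hc.intervalIntegrable _ _)]
  have a1 := (Real.arctan_lt_pi_div_two (Real.pi / (Real.pi * S))).le
  have a2 := (Real.neg_pi_div_two_lt_arctan (-Real.pi / (Real.pi * S))).le
  have b1 := mul_le_mul_of_nonneg_left a1 hpi.le
  have b2 := mul_le_mul_of_nonneg_left a2 hpi.le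
  nlinarith

end AuxK1a


/- TARGET, proof in plain words:
q u v = cosh u - cos v, h1 u v = sinh u / q u v.
v ↦ |h1 u v| is nonnegative, continuous (u ≠ 0, so q u v ≥ cosh u - 1 > 0) and 2π-periodic, so
∫_a^{a+π} ≤ ∫_a^{a+2π} = ∫_{-π}^{π}  (Function.Periodic.intervalIntegral_add_eq).
Exact value: for u > 0, ∫_{-π}^{π} sinh u/(cosh u - cos v) dv = 2π.  No need for it; crude bound:
case |u| ≥ 1: |h1| ≤ |sinh u|/(cosh u - 1) = coth(|u|/2) ≤ 3, the integral is ≤ 6π.
case 0 < |u| < 1: |sinh u| ≤ 2|u|, q u v = (cosh u - 1) + (1 - cos v) ≥ u^2/2 + 2 v^2/π^2 on [-π,π]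
 (Real.one_sub_sq_div_two_le_cos goes the other way; use Real.cos_le_one_sub_mul_cos_sq / cos_quadratic_upper_bound,
 1 - cos v = 2 sin^2(v/2) ≥ 2 (v/π)^2 by Jordan's inequality Real.mul_le_sin), hence |h1| ≤ 2|u| / (u^2/2 + 2v^2/π^2)
 ≤ 2|u|/(c (u^2+v^2)) with c = 2/π^2, and ∫_{-π}^{π} |u|/(u^2+v^2) dv = 2 arctan(π/|u|) ≤ π
 (derivative of v ↦ arctan (v/|u|)).  So C = max (6π) (π^3) works.
Any other proof is welcome (any finite C).
-/
theorem t_K1a : ∃ C : ℝ, 1 ≤ C ∧ ∀ u a : ℝ, u ≠ 0 → ∫ v in a..(a + Real.pi), |h1 u v| ≤ C := by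
  have hpi := Real.pi_pos
  have hpi3 := Real.pi_gt_three
  refine ⟨Real.pi ^ 2 + 2 * Real.pi, by nlinarith, ?_⟩
  intro u a hu
  have hc := AuxK1a.cont u hu
  have hS : 0 < |Real.sinh (u / 2)| := abs_pos.2 (AuxK1a.sinh_half_ne hu)
  have h1' : ∫ v in a..(a + Real.pi), |h1 u v| ≤ ∫ v in a..(a + 2 * Real.pi), |h1 u v| := by
    apply intervalIntegral.integral_mono_interval le_rfl (by linarith) (by linarith)
    · exact Eventually.of_forall fun v => abs_nonneg _
    · exact hc.intervalIntegrable _ _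
  have h2' : ∫ v in a..(a + 2 * Real.pi), |h1 u v| = ∫ v in (-Real.pi)..Real.pi, |h1 u v| := by
    have h3 := (AuxK1a.per u).intervalIntegral_add_eq a (-Real.pi)
    have e : -Real.pi + 2 * Real.pi = Real.pi := by ring
    rw [e] at h3
    exact h3
  have h3' : ∫ v in (-Real.pi)..Real.pi, |h1 u v| ≤
      ∫ v in (-Real.pi)..Real.pi,
        (|Real.sinh (u / 2)| / (|Real.sinh (u / 2)| ^ 2 + (v / Real.pi) ^ 2) + 1) := by
    apply intervalIntegral.integral_mono_on (by linarith) (hc.intervalIntegrable _ _)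
    · apply Continuous.intervalIntegrable
      refine (continuous_const.div ?_ fun v => ?_).add continuous_const
      · fun_prop
      · positivity
    · intro v hv
      exact AuxK1a.bound u v hu (abs_le.2 hv)
  rw [h2'] at h1'
  exact h1'.trans (h3'.trans (AuxK1a.int_bound _ hS))

end Pool.Agent.H682_VS
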